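import Mathlib

/-!
# Abstract flows, boxes, unstable curves

Purely topological / planar objects used in the proof of `MP_509a24_an`.
-/

open Set Filter Topology

namespace VeniceMask

universe u

/-- The plane with the sup norm. -/
abbrev Q2 : Type := ℝ × ℝ

/-- `ℝ³` as time × plane, with the sup norm. -/
abbrev V3 : Type := ℝ × ℝ × ℝ

/-- A semiflow on `M` (`G t`, `t ≥ 0`), injective, with left inverses `G (-t)`, and a compact
set `L` invariant in both directions on which `G` is a two-sided continuous flow. -/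
structure AFlow (M : Type u) [TopologicalSpace M] where
  G : ℝ → M → M
  L : Set M
  N : Set M
  zero' : ∀ x, G 0 x = x
  add_nonneg' : ∀ s t, 0 ≤ s → 0 ≤ t → ∀ x, G (s + t) x = G s (G t x)
  inv' : ∀ t, 0 ≤ t → ∀ x, G (-t) (G t x) = x
  cont_nonneg' : ContinuousOn (fun p : ℝ × M => G p.1 p.2) (Ici (0 : ℝ) ×ˢ univ)
  compact' : IsCompact L
  mapsTo' : ∀ t, ∀ x ∈ L, G t x ∈ L
  add' : ∀ s t, ∀ x ∈ L, G (s + t) x = G s (G t x)
  cont' : ContinuousOn (fun p : ℝ × M => G p.1 p.2) (univ ×ˢ L)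
  open' : IsOpen N
  sub' : L ⊆ N
  max' : ∀ x ∈ N, (∀ t, 0 ≤ t → ∃ y, G t y = x) → x ∈ L
  sing' : {x ∈ L | ∀ t, G t x = x}.Finite

section

variable {M : Type u} [TopologicalSpace M]

/-- The singularities (fixed points) in `L`. -/
def AFlow.Sing (F : AFlow M) : Set M := {x ∈ F.L | ∀ t, F.G t x = x}

/-- Stable set of `O` (a subset of `M`). -/
def AFlow.Ws (F : AFlow M) (O : Set M) : Set M :=
  {x | ∀ U, IsOpen U → O ⊆ U → ∀ᶠ t in atTop, F.G t x ∈ U}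

/-- Unstable set of `O` (a subset of `L`). -/
def AFlow.Wu (F : AFlow M) (O : Set M) : Set M :=
  {x ∈ F.L | ∀ U, IsOpen U → O ⊆ U → ∀ᶠ t in atTop, F.G (-t) x ∈ U}

/-- Union of the unstable sets of the singularities. -/
def AFlow.WuSing (F : AFlow M) : Set M := ⋃ σ ∈ F.Sing, F.Wu {σ}

/-- `O` is a (nonconstant) periodic orbit in `L` through `p`, of period `T`. -/
structure AFlow.IsPer (F : AFlow M) (O : Set M) (p : M) (T : ℝ) : Prop where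
  T_pos : 0 < T
  mem : p ∈ F.L
  per : F.G T p = p
  reg : p ∉ F.Sing
  eq : O = {x | ∃ t : ℝ, F.G t p = x}

/-- A flow box: a chart `e` defined on a neighbourhood of `[-δ,δ] × [-1,1]²` in which the flow
is the translation of the first coordinate. -/
structure FlowBox (F : AFlow M) where
  e : OpenPartialHomeomorph V3 M
  δ : ℝ
  δ_pos : 0 < δ
  src : ∀ (t : ℝ) (q : Q2), |t| ≤ δ → ‖q‖ ≤ 1 → (t, q) ∈ e.source
  flow : ∀ (t s : ℝ) (q : Q2), |t| ≤ δ → |t + s| ≤ δ → 0 ≤ s → ‖q‖ ≤ 1 →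
    e (t + s, q) = F.G s (e (t, q))

/-- The point of the section `t = 0` with coordinates `q`. -/
def FlowBox.pt {F : AFlow M} (B : FlowBox F) (q : Q2) : M := B.e (0, q)

/-- A flow box with a slope function `m` on the trace of `L` on the section. -/
structure Box (F : AFlow M) extends FlowBox F where
  m : Q2 → ℝ
  m_cont : ContinuousOn m {q | ‖q‖ ≤ 1 ∧ e (0, q) ∈ F.L}
  m_le : ∀ q, ‖q‖ ≤ 1 → e (0, q) ∈ F.L → |m q| ≤ 1 / 4

/-- The point of the section `t = 0` with coordinates `q`. -/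
abbrev Box.pt {F : AFlow M} (B : Box F) (q : Q2) : M := B.toFlowBox.pt q

/-- `g` is an unstable curve over `[a,b]` in the section of the box `B`: its graph lies in the
unit square and in `L` and its slope is `m`. -/
structure IsUCurve {F : AFlow M} (B : Box F) (g : ℝ → ℝ) (a b : ℝ) : Prop where
  le : a ≤ b
  norm_le : ∀ h ∈ Icc a b, ‖((h, g h) : Q2)‖ ≤ 1
  mem : ∀ h ∈ Icc a b, B.pt (h, g h) ∈ F.L
  der : ∀ h ∈ Icc a b, HasDerivWithinAt g (B.m (h, g h)) (Icc a b) h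

/-- Transport of unstable curves from the box `B₁` to the box `B₂`: along an unstable curve the
second coordinate of the transported point has derivative `c • (1, m)`, `c ≠ 0`, with `|c| ≤ C`
for backward transport and `|c| ≥ C⁻¹` for forward transport. -/
def Transp {F : AFlow M} (B₁ B₂ : Box F) (C : ℝ) : Prop :=
  ∀ (g : ℝ → ℝ) (a b : ℝ), IsUCurve B₁ g a b → ∀ t : ℝ, ∀ s ∈ Icc a b,
    ∀ (u : ℝ) (q : Q2), |u| ≤ B₂.δ → ‖q‖ ≤ 1 → F.G t (B₁.pt (s, g s)) = B₂.e (u, q) →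
    ∃ c : ℝ, c ≠ 0 ∧ (t ≤ 0 → |c| ≤ C) ∧ (0 ≤ t → C⁻¹ ≤ |c|) ∧
      HasDerivWithinAt (fun s' => (B₂.e.symm (F.G t (B₁.pt (s', g s')))).2)
        (c, c * B₂.m q) (Icc a b) s

/-- Strong stable curves of uniform size `η` in the box `B`. -/
def StrongStable {F : AFlow M} (B : Box F) (η : ℝ) : Prop :=
  ∀ q : Q2, ‖q‖ ≤ 1 / 2 → B.pt q ∈ F.L → ∃ k : ℝ → ℝ, k q.2 = q.1 ∧
    (∀ v ∈ Icc (q.2 - η) (q.2 + η), ∀ v' ∈ Icc (q.2 - η) (q.2 + η),
      |k v - k v'| ≤ 1 / 4 * |v - v'|) ∧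
    ∀ v ∈ Icc (q.2 - η) (q.2 + η), ∀ O ⊆ F.L, IsCompact O →
      (∀ t, 0 ≤ t → ∀ x ∈ O, F.G t x ∈ O) → B.pt q ∈ F.Ws O → B.pt (k v, v) ∈ F.Ws O

/-- A return map `P` (of time about `T`) to the section of a flow box centred at a point of
`O`. -/
structure Ret {F : AFlow M} (B : FlowBox F) (O : Set M) where
  P : Q2 → Q2
  T : ℝ
  T_pos : 0 < T
  δ_lt : 2 * B.δ < T
  center : B.pt 0 ∈ O
  per : F.G T (B.pt 0) = B.pt 0
  P0 : P 0 = 0
  ret : ∀ q : Q2, ‖q‖ ≤ 1 → ∃ u : ℝ, |u| ≤ B.δ ∧ (u, P q) ∈ B.e.source ∧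
    F.G T (B.pt q) = B.e (u, P q)
  axis : ∀ (t : ℝ) (q : Q2), |t| ≤ B.δ → ‖q‖ ≤ 1 → B.e (t, q) ∈ O → q = 0

/-- A plane map close to the hyperbolic linear map `diag (a, b)` on the unit square. -/
structure PMap where
  P : Q2 → Q2
  a : ℝ
  b : ℝ
  ε : ℝ
  ha : 4 ≤ |a|
  hb : |b| ≤ 1 / 4
  hε : 0 < ε
  hεb : 16 * ε ≤ |b|
  P0 : P 0 = 0
  lip : ∀ q q' : Q2, ‖q‖ ≤ 1 → ‖q'‖ ≤ 1 →
    ‖P q - P q' - (a * (q.1 - q'.1), b * (q.2 - q'.2))‖ ≤ ε * ‖q - q'‖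

/-- A plane map as before, with an invariant closed set `K` (the trace of `L`) and an invariant
slope field `m` on `K`. -/
structure PSad extends PMap where
  K : Set Q2
  m : Q2 → ℝ
  K_sub : ∀ q ∈ K, ‖q‖ ≤ 1
  K_closed : IsClosed K
  m_cont : ContinuousOn m K
  m_le : ∀ q ∈ K, |m q| ≤ 1 / 4
  K_fwd : ∀ q ∈ K, ‖P q‖ ≤ 1 → P q ∈ K
  K_bwd : ∀ q, ‖q‖ ≤ 1 → P q ∈ K → q ∈ K
  K_max : ∀ u : ℕ → Q2, (∀ n, ‖u n‖ ≤ 1) → (∀ n, P (u (n + 1)) = u n) → u 0 ∈ K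
  der : ∀ q ∈ K, P q ∈ K → ∃ (A : Q2 →L[ℝ] Q2) (c : ℝ), HasFDerivAt P A q ∧
    A (1, m q) = (c, c * m (P q)) ∧ ∀ x : Q2, ‖A x - (a * x.1, b * x.2)‖ ≤ ε * ‖x‖

/-- The local unstable set of a plane map: points with an infinite backward orbit in the unit
square. -/
def PMap.Gam (S : PMap) : Set Q2 :=
  {q | ∃ u : ℕ → Q2, u 0 = q ∧ (∀ n, ‖u n‖ ≤ 1) ∧ ∀ n, S.P (u (n + 1)) = u n}

/-- A curve over the set `J`, in `K`, with slope `m`. -/
def PSad.IsUOn (S : PSad) (g : ℝ → ℝ) (J : Set ℝ) : Prop :=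
  ∀ h ∈ J, (h, g h) ∈ S.K ∧ HasDerivWithinAt g (S.m (h, g h)) J h

/-- A saddle return map for the box `B` centred at a point of the periodic orbit `O`. -/
structure Saddle {F : AFlow M} (B : Box F) (O : Set M) extends Ret B.toFlowBox O where
  a : ℝ
  b : ℝ
  ε : ℝ
  ha : 4 ≤ |a|
  hb : |b| ≤ 1 / 4
  hε : 0 < ε
  hεb : 16 * ε ≤ |b|
  lip : ∀ q q' : Q2, ‖q‖ ≤ 1 → ‖q'‖ ≤ 1 →
    ‖P q - P q' - (a * (q.1 - q'.1), b * (q.2 - q'.2))‖ ≤ ε * ‖q - q'‖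
  der : ∀ q : Q2, ‖q‖ ≤ 1 → B.pt q ∈ F.L → ‖P q‖ ≤ 1 → ∃ (A : Q2 →L[ℝ] Q2) (c : ℝ),
    HasFDerivAt P A q ∧ A (1, B.m q) = (c, c * B.m (P q)) ∧
      ∀ x : Q2, ‖A x - (a * x.1, b * x.2)‖ ≤ ε * ‖x‖

/-- The abstract system used by the topological part of the proof. -/
structure System (M : Type u) [TopologicalSpace M] extends AFlow M where
  boxes : Set (Box toAFlow)
  exist : ∀ w ∈ L, w ∉ toAFlow.Sing → ∀ N ∈ 𝓝 w, ∃ B ∈ boxes, B.pt 0 = w ∧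
    ∀ (t : ℝ) (q : Q2), |t| ≤ B.δ → ‖q‖ ≤ 1 → B.e (t, q) ∈ N
  transp : ∀ B₁ ∈ boxes, ∀ B₂ ∈ boxes, ∃ C > 0, Transp B₁ B₂ C
  strong : ∀ B ∈ boxes, ∃ η > 0, StrongStable B η
  saddle : ∀ (O : Set M) (p : M) (T : ℝ), toAFlow.IsPer O p T →
    ∃ B ∈ boxes, B.pt 0 = p ∧ Nonempty (Saddle B O)

/-- trace of `L` on the section -/
def Box.trace {F : AFlow M} (B : Box F) : Set Q2 := {q | ‖q‖ ≤ 1 ∧ B.e (0, q) ∈ F.L}

/-- the plane map of a saddle -/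
def Saddle.pmap {F : AFlow M} {B : Box F} {O : Set M} (S : Saddle B O) : PMap where
  P := S.P
  a := S.a
  b := S.b
  ε := S.ε
  ha := S.ha
  hb := S.hb
  hε := S.hε
  hεb := S.hεb
  P0 := S.P0
  lip := S.lip

/-- a box linked by transport with all the boxes of the system -/
def Linked (S : System M) (B : Box S.toAFlow) : Prop :=
  (∀ B₂ ∈ S.boxes, ∃ C > 0, Transp B B₂ C) ∧ (∀ B₂ ∈ S.boxes, ∃ C > 0, Transp B₂ B C)

theorem linked_of_mem (S : System M) {B : Box S.toAFlow} (hB : B ∈ S.boxes) : Linked S B :=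
  ⟨fun B₂ h₂ => S.transp B hB B₂ h₂, fun B₂ h₂ => S.transp B₂ h₂ B hB⟩

end

end VeniceMask
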