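import Pool.Agent.helper75.VM.M_Main
import Pool.Agent.helper75.VM.Stmt

/-!
# From `VeniceMask.main` to the final statement `SecAn.SectionalAnosovStatement`
-/

open Set Filter Topology Bundle
open scoped ContDiff Manifold

namespace SecAn

universe u

theorem isSectionalAnosov_old {M : Type u} [TopologicalSpace M]
    [ChartedSpace (EuclideanHalfSpace 3) M] [IsManifold (𝓡∂ 3) ∞ M] (g : Metric (𝓡∂ 3) M)
    (X : ∀ x : M, TangentSpace (𝓡∂ 3) x) (φ : ℝ → M → M) (h : IsSectionalAnosov g X φ) :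
    VeniceMask.IsSectionalAnosov (M := M) g X φ := by
  obtain ⟨hc1, hin, hfl, hsing, E, F, hsp, hdom, hcon, hexp⟩ := h
  refine ⟨hc1, hin, ⟨hfl.zero, hfl.add, hfl.integral, hfl.smooth⟩, hsing, E, F,
    ⟨hsp.compl, hsp.closedE, hsp.closedF, hsp.invE, hsp.invF⟩, hdom, hcon, hexp⟩

theorem sectionalAnosovStatement : SectionalAnosovStatement.{u} := by
  intro M _ _ _ _ _ g X φ h
  exact VeniceMask.main M g X φ (isSectionalAnosov_old g X φ h)

end SecAn
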