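import Mathlib

/-!
# Sectional-Anosov flows on compact 3-manifolds, homoclinic classes, Venice masks

Definitions for `MP_509a24_an`.
-/

open Set Filter Topology Bundle
open scoped ContDiff Manifold

namespace VeniceMask

universe u

/-- The model vector space `ℝ³`. -/
abbrev E3 : Type := EuclideanSpace ℝ (Fin 3)

/-- Tangent space of a 3-manifold with boundary. -/
abbrev TS {M : Type u} [TopologicalSpace M] [ChartedSpace (EuclideanHalfSpace 3) M] (x : M) :
    Type :=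
  TangentSpace (𝓡∂ 3) x

/-- A (continuous) Riemannian metric on `M`. -/
abbrev Metric3 (M : Type u) [TopologicalSpace M] [ChartedSpace (EuclideanHalfSpace 3) M]
    [IsManifold (𝓡∂ 3) ∞ M] : Type _ :=
  ContinuousRiemannianMetric E3 (fun x : M => TangentSpace (𝓡∂ 3) x)

section

variable {M : Type u} [TopologicalSpace M] [ChartedSpace (EuclideanHalfSpace 3) M]

/-- The derivative `DX_t(x)` of the time-`t` map of the flow. -/
noncomputable def D (φ : ℝ → M → M) (t : ℝ) (x : M) : TS x →L[ℝ] TS (φ t x) :=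
  mfderiv (𝓡∂ 3) (𝓡∂ 3) (φ t) x

/-- `X` is a `C¹` vector field on the 3-manifold `M`. -/
def IsC1Field (X : ∀ x : M, TS x) [IsManifold (𝓡∂ 3) ∞ M] : Prop :=
  ContMDiff (𝓡∂ 3) (𝓡∂ 3).tangent 1 (fun x => (⟨x, X x⟩ : TangentBundle (𝓡∂ 3) M))

/-- `X` is inwardly transverse to the boundary: at a boundary point `x`, read in the preferred
chart at `x` (with values in the half space `{y | 0 ≤ y 0}`), the component `0` of `X x` is
positive. -/
def IsInward (X : ∀ x : M, TS x) : Prop :=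
  ∀ x ∈ (𝓡∂ 3).boundary M, 0 < (show E3 from X x) 0

/-- `φ` (used only for times `t ≥ 0`) is the semiflow of the vector field `X`; it is jointly
`C¹` on `[0,∞) × M`. -/
structure IsFlowOf (X : ∀ x : M, TS x) (φ : ℝ → M → M) : Prop where
  zero : ∀ x, φ 0 x = x
  add : ∀ s t, 0 ≤ s → 0 ≤ t → ∀ x, φ (s + t) x = φ s (φ t x)
  integral : ∀ x, IsMIntegralCurveOn (fun t => φ t x) X (Ici (0 : ℝ))
  smooth : ContMDiffOn (𝓘(ℝ, ℝ).prod (𝓡∂ 3)) (𝓡∂ 3) 1 (fun p : ℝ × M => φ p.1 p.2)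
    (Ici (0 : ℝ) ×ˢ univ)

/-- The maximal invariant set `M(X) = ⋂_{t ≥ 0} X_t(M)`. -/
def maxInv (φ : ℝ → M → M) : Set M := ⋂ t ∈ Ici (0 : ℝ), range (φ t)

variable [IsManifold (𝓡∂ 3) ∞ M]

/-- Norm of a tangent vector. -/
noncomputable def nrm (g : Metric3 M) (x : M) (v : TS x) : ℝ := Real.sqrt (g.inner x v v)

/-- Area of the parallelogram spanned by two tangent vectors. -/
noncomputable def area (g : Metric3 M) (x : M) (u v : TS x) : ℝ :=
  Real.sqrt (g.inner x u u * g.inner x v v - (g.inner x u v) ^ 2)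

/-- `T_Λ M = E ⊕ F` is a continuous splitting (both subbundles are closed in `TM`), invariant
under the flow. -/
structure IsSplitting (φ : ℝ → M → M) (Λ : Set M) (E F : ∀ x : M, Submodule ℝ (TS x)) :
    Prop where
  compl : ∀ x ∈ Λ, IsCompl (E x) (F x)
  closedE : IsClosed {p : TangentBundle (𝓡∂ 3) M | p.1 ∈ Λ ∧ p.2 ∈ E p.1}
  closedF : IsClosed {p : TangentBundle (𝓡∂ 3) M | p.1 ∈ Λ ∧ p.2 ∈ F p.1}
  invE : ∀ x ∈ Λ, ∀ t : ℝ, 0 ≤ t → (E x).map (D φ t x : TS x →ₗ[ℝ] TS (φ t x)) = E (φ t x)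
  invF : ∀ x ∈ Λ, ∀ t : ℝ, 0 ≤ t → (F x).map (D φ t x : TS x →ₗ[ℝ] TS (φ t x)) = F (φ t x)

/-- Domination of the splitting. -/
def IsDominated (g : Metric3 M) (φ : ℝ → M → M) (Λ : Set M)
    (E F : ∀ x : M, Submodule ℝ (TS x)) : Prop :=
  ∃ K > 0, ∃ l > 0, ∀ x ∈ Λ, ∀ t : ℝ, 0 ≤ t → ∀ e ∈ E x, ∀ f ∈ F x,
    nrm g (φ t x) (D φ t x e) * nrm g x f ≤
      K * Real.exp (-l * t) * (nrm g (φ t x) (D φ t x f) * nrm g x e)

/-- `E` is contracting. -/
def IsContracting (g : Metric3 M) (φ : ℝ → M → M) (Λ : Set M)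
    (E : ∀ x : M, Submodule ℝ (TS x)) : Prop :=
  ∃ C > 0, ∃ l > 0, ∀ x ∈ Λ, ∀ t : ℝ, 0 ≤ t → ∀ e ∈ E x,
    nrm g (φ t x) (D φ t x e) ≤ C * Real.exp (-l * t) * nrm g x e

/-- `F` is sectionally expanding. -/
def IsSectExpanding (g : Metric3 M) (φ : ℝ → M → M) (Λ : Set M)
    (F : ∀ x : M, Submodule ℝ (TS x)) : Prop :=
  ∃ K > 0, ∃ l > 0, ∀ x ∈ Λ, ∀ t : ℝ, 0 ≤ t → ∀ u ∈ F x, ∀ v ∈ F x,
    K⁻¹ * Real.exp (l * t) * area g x u v ≤ area g (φ t x) (D φ t x u) (D φ t x v)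

/-- `Es` and `Eu` are invariant under the endomorphisms `A t`, `t ∈ S`, of `T_p M` (the
derivatives at `p` of the time-`t` maps, for times `t ∈ S` fixing `p`), `Es` is exponentially
contracted and `Eu` is exponentially expanded. -/
def HypSplit (g : Metric3 M) (p : M) (A : ℝ → TS p →L[ℝ] TS p) (S : Set ℝ)
    (Es Eu : Submodule ℝ (TS p)) : Prop :=
  (∀ t ∈ S, ∀ v ∈ Es, A t v ∈ Es) ∧ (∀ t ∈ S, ∀ v ∈ Eu, A t v ∈ Eu) ∧
  ∃ C > 0, ∃ l > 0, (∀ t ∈ S, ∀ v ∈ Es, nrm g p (A t v) ≤ C * Real.exp (-l * t) * nrm g p v) ∧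
    (∀ t ∈ S, ∀ v ∈ Eu, nrm g p v ≤ C * Real.exp (-l * t) * nrm g p (A t v))

/-- The derivative of the time-`t` map at a point `p` fixed by it, as an endomorphism of `T_p M`
(a junk value if `p` is not fixed). -/
noncomputable def Dfix (φ : ℝ → M → M) (p : M) (t : ℝ) : TS p →L[ℝ] TS p :=
  (show E3 →L[ℝ] E3 from D φ t p)

/-- `σ` is a hyperbolic singularity. -/
def IsHypSing (g : Metric3 M) (X : ∀ x : M, TS x) (φ : ℝ → M → M) (σ : M) : Prop :=
  X σ = 0 ∧ ∃ Es Eu : Submodule ℝ (TS σ), Es ⊔ Eu = ⊤ ∧ HypSplit g σ (Dfix φ σ) (Ici 0) Es Eu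

/-- `Λ` is a sectional-hyperbolic set. -/
def IsSectionalHyperbolic (g : Metric3 M) (X : ∀ x : M, TS x) (φ : ℝ → M → M) (Λ : Set M) :
    Prop :=
  (∀ σ ∈ Λ, X σ = 0 → IsHypSing g X φ σ) ∧
  ∃ E F : ∀ x : M, Submodule ℝ (TS x), IsSplitting φ Λ E F ∧ IsDominated g φ Λ E F ∧
    IsContracting g φ Λ E ∧ IsSectExpanding g φ Λ F

/-- `X` (with semiflow `φ`) is a sectional-Anosov flow on the compact manifold `M`. -/
structure IsSectionalAnosov (g : Metric3 M) (X : ∀ x : M, TS x) (φ : ℝ → M → M) : Prop where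
  c1 : IsC1Field X
  inward : IsInward X
  flow : IsFlowOf X φ
  hyp : IsSectionalHyperbolic g X φ (maxInv φ)

/-- `O` is the orbit of a periodic point `p` of period `T > 0` with `X p ≠ 0`. -/
def IsPeriodicOrbitOf (X : ∀ x : M, TS x) (φ : ℝ → M → M) (O : Set M) (p : M) (T : ℝ) : Prop :=
  0 < T ∧ φ T p = p ∧ X p ≠ 0 ∧ O = {x | ∃ t : ℝ, 0 ≤ t ∧ φ t p = x}

/-- `O` is a hyperbolic periodic orbit: `T_p M = Es ⊕ ⟨X p⟩ ⊕ Eu`, with `Es` (`Eu`) invariant and
exponentially contracted (expanded) by the iterates of the derivative at `p` of the time-`T`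
map. -/
def IsHypPeriodicOrbit (g : Metric3 M) (X : ∀ x : M, TS x) (φ : ℝ → M → M) (O : Set M) : Prop :=
  ∃ (p : M) (T : ℝ), IsPeriodicOrbitOf X φ O p T ∧
    ∃ Es Eu : Submodule ℝ (TS p), Es ⊔ Submodule.span ℝ {X p} ⊔ Eu = ⊤ ∧
      HypSplit g p (Dfix φ p) {t | ∃ n : ℕ, t = n * T} Es Eu

/-- The stable set of `O`. -/
def stableSet (φ : ℝ → M → M) (O : Set M) : Set M :=
  {q | ∀ U, IsOpen U → O ⊆ U → ∀ᶠ t in atTop, φ t q ∈ U}

/-- The unstable set of `O`: points with a full backward orbit converging to `O`. -/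
def unstableSet (φ : ℝ → M → M) (O : Set M) : Set M :=
  {q | ∃ γ : ℝ → M, γ 0 = q ∧ (∀ s t, 0 ≤ t → φ t (γ s) = γ (s + t)) ∧
    ∀ U, IsOpen U → O ⊆ U → ∀ᶠ t in atTop, γ (-t) ∈ U}

/-- The vectors at `q` whose forward orbit under the derivative of the flow is bounded.  For `q`
in the stable manifold of a hyperbolic periodic orbit `O` this is `T_q W^s(O)`. -/
def stableDir (g : Metric3 M) (φ : ℝ → M → M) (q : M) : Set (TS q) :=
  {v | ∃ C : ℝ, ∀ t : ℝ, 0 ≤ t → nrm g (φ t q) (D φ t q v) ≤ C}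

/-- The vectors at `q` whose backward orbit under the derivative of the flow is bounded.  For `q`
in the unstable manifold of a hyperbolic periodic orbit `O` this is `T_q W^u(O)`. -/
def unstableDir (g : Metric3 M) (φ : ℝ → M → M) (q : M) : Set (TS q) :=
  {v | ∃ C : ℝ, ∀ t : ℝ, 0 ≤ t → ∃ w : TangentBundle (𝓡∂ 3) M,
    (⟨φ t w.1, D φ t w.1 w.2⟩ : TangentBundle (𝓡∂ 3) M) = ⟨q, v⟩ ∧ nrm g w.1 w.2 ≤ C}

/-- `q` belongs to a transverse homoclinic orbit of `O`: it lies in the stable and in the unstable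
set of `O` and `T_q W^s(O) + T_q W^u(O) = T_q M`. -/
def IsTransHom (g : Metric3 M) (φ : ℝ → M → M) (O : Set M) (q : M) : Prop :=
  q ∈ stableSet φ O ∧ q ∈ unstableSet φ O ∧
    ∀ v : TS q, ∃ a ∈ stableDir g φ q, ∃ b ∈ unstableDir g φ q, a + b = v

/-- The homoclinic class `H(O)`: closure of the union of the transverse homoclinic orbits. -/
def homClass (g : Metric3 M) (φ : ℝ → M → M) (O : Set M) : Set M :=
  closure {q | IsTransHom g φ O q}

/-- The homoclinic class in the convention where `O` itself is not a homoclinic orbit. -/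
def homClass' (g : Metric3 M) (φ : ℝ → M → M) (O : Set M) : Set M :=
  closure {q | q ∉ O ∧ IsTransHom g φ O q}

/-- `W^u(Sing(X))`: the union of the unstable manifolds of the singularities in `M(X)`. -/
def wuSing (X : ∀ x : M, TS x) (φ : ℝ → M → M) : Set M :=
  ⋃ σ ∈ {σ ∈ maxInv φ | X σ = 0}, unstableSet φ {σ}

/-- A Venice mask: a sectional-Anosov flow whose periodic orbits are dense in `M(X)` and such
that `M(X)` is not transitive, i.e. not the omega-limit set of a point of `M(X)`. -/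
def IsVeniceMask (g : Metric3 M) (X : ∀ x : M, TS x) (φ : ℝ → M → M) : Prop :=
  IsSectionalAnosov g X φ ∧
  maxInv φ ⊆ closure {x | ∃ (O : Set M) (T : ℝ), IsPeriodicOrbitOf X φ O x T} ∧
  ¬ ∃ p ∈ maxInv φ, maxInv φ = {y | MapClusterPt y atTop (fun t : ℝ => φ t p)}

end

/-- The inclusion of `MP_509a24` for a flow and for a notion of homoclinic class `H`: for any two
hyperbolic periodic orbits with different classes, the intersection of the classes is contained
in the closure of `W^u(Sing(X))`. -/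
def IntersectionsInClosure {M : Type u} [TopologicalSpace M]
    [ChartedSpace (EuclideanHalfSpace 3) M] [IsManifold (𝓡∂ 3) ∞ M]
    (g : Metric3 M) (X : ∀ x : M, TS x) (φ : ℝ → M → M) (H : Set M → Set M) : Prop :=
  ∀ O₁ O₂ : Set M, IsHypPeriodicOrbit g X φ O₁ → IsHypPeriodicOrbit g X φ O₂ →
    H O₁ ≠ H O₂ → H O₁ ∩ H O₂ ⊆ closure (wuSing X φ)

/-- For every sectional-Anosov flow on a compact 3-manifold (possibly with boundary) the
intersection of two different homoclinic classes is contained in the closure of the union of the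
unstable manifolds of the singularities (for both conventions on homoclinic orbits). -/
def SectionalAnosovStatement : Prop :=
  ∀ (M : Type u) [TopologicalSpace M] [ChartedSpace (EuclideanHalfSpace 3) M]
    [IsManifold (𝓡∂ 3) ∞ M] [CompactSpace M] [T2Space M]
    (g : Metric3 M) (X : ∀ x : M, TS x) (φ : ℝ → M → M), IsSectionalAnosov g X φ →
      IntersectionsInClosure g X φ (homClass g φ) ∧ IntersectionsInClosure g X φ (homClass' g φ)

/-- Question Q1 of `MP_509a24` (Venice masks). -/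
def VeniceMaskStatement : Prop :=
  ∀ (M : Type u) [TopologicalSpace M] [ChartedSpace (EuclideanHalfSpace 3) M]
    [IsManifold (𝓡∂ 3) ∞ M] [CompactSpace M] [T2Space M]
    (g : Metric3 M) (X : ∀ x : M, TS x) (φ : ℝ → M → M), IsVeniceMask g X φ →
      IntersectionsInClosure g X φ (homClass g φ) ∧ IntersectionsInClosure g X φ (homClass' g φ)

theorem venice_of_sectionalAnosov (h : SectionalAnosovStatement.{u}) :
    VeniceMaskStatement.{u} :=
  fun M _ _ _ _ _ g X φ hV => h M g X φ hV.1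

end VeniceMask
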