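import Pool.Agent.helper75.VM.Defs
import Pool.Agent.helper75.VM.Abs

/-!
# Geometric definitions for the proof of `MP_509a24_an`
-/

open Set Filter Topology Bundle
open scoped ContDiff Manifold

namespace VeniceMask

universe u

/-- The plane with the euclidean norm replaced by the sup norm; `V3 = ℝ × ℝ × ℝ`. -/
abbrev TM (M : Type u) [TopologicalSpace M] [ChartedSpace (EuclideanHalfSpace 3) M]
    [IsManifold (𝓡∂ 3) ∞ M] : Type u :=
  TangentBundle (𝓡∂ 3) M

section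

variable {M : Type u} [TopologicalSpace M] [ChartedSpace (EuclideanHalfSpace 3) M]

/-- A local `C¹` parametrisation of the interior of `M`. -/
structure IsC1Param {V : Type} [NormedAddCommGroup V] [NormedSpace ℝ V]
    (e : OpenPartialHomeomorph V M) : Prop where
  smooth : ContMDiffOn 𝓘(ℝ, V) (𝓡∂ 3) 1 e e.source
  smooth_symm : ContMDiffOn (𝓡∂ 3) 𝓘(ℝ, V) 1 e.symm e.target
  interior : e.target ⊆ (𝓡∂ 3).interior M

/-- The derivative of a parametrisation `e` (or of any map from a vector space to `M`). -/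
noncomputable def DP {V : Type} [NormedAddCommGroup V] [NormedSpace ℝ V] (e : V → M) (z : V) :
    V →L[ℝ] TS (e z) :=
  mfderiv 𝓘(ℝ, V) (𝓡∂ 3) e z

/-- The two-sided flow: `φ t x` for `t ≥ 0` and the (unique) preimage of `x` under `φ (-t)` for
`t < 0`, when it exists. -/
noncomputable def G2 (φ : ℝ → M → M) (t : ℝ) (x : M) : M :=
  if 0 ≤ t then φ t x else @Function.invFun M M ⟨x⟩ (φ (-t)) x

/-- The points of `M(X)` with `dim E = d`. -/
def Ld (φ : ℝ → M → M) (E : ∀ x : M, Submodule ℝ (TS x)) (d : ℕ) : Set M :=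
  {x ∈ maxInv φ | Module.finrank ℝ (E x) = d}

variable [IsManifold (𝓡∂ 3) ∞ M]

/-- The standing hypotheses of the geometric part: a sectional-Anosov flow with its
splitting. -/
structure Hyp (g : Metric3 M) (X : ∀ x : M, TS x) (φ : ℝ → M → M)
    (E F : ∀ x : M, Submodule ℝ (TS x)) : Prop where
  c1 : IsC1Field X
  inward : IsInward X
  flow : IsFlowOf X φ
  sing : ∀ σ ∈ maxInv φ, X σ = 0 → IsHypSing g X φ σ
  split : IsSplitting φ (maxInv φ) E F
  dom : IsDominated g φ (maxInv φ) E F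
  contr : IsContracting g φ (maxInv φ) E
  sect : IsSectExpanding g φ (maxInv φ) F

/-- A good box: a `C¹` box such that in box coordinates `F` is `{(τ, h, m q h)}` and `E` is in
the cone `|h| ≤ |v| / 8`. -/
structure GoodBox (E F : ∀ x : M, Submodule ℝ (TS x)) {A : AFlow M} (B : Box A) : Prop where
  c1 : IsC1Param B.e
  slope : ∀ (t : ℝ) (q : Q2), |t| ≤ B.δ → ‖q‖ ≤ 1 → B.e (t, q) ∈ A.L → ∀ τ h : ℝ,
    DP B.e (t, q) (τ, h, B.m q * h) ∈ F (B.e (t, q))
  econe : ∀ q : Q2, ‖q‖ ≤ 1 → B.pt q ∈ A.L → ∀ ξ : V3, DP B.e (0, q) ξ ∈ E (B.e (0, q)) →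
    |ξ.2.1| ≤ 1 / 8 * |ξ.2.2|

/-- A finite family of charts with normalised frames along the points of `Ld φ E 1`: at
`x` the frame `N x` maps the first axis into `E` and the plane `0 × ℝ²` into `F` (both read in
the chart `c (i x)`). -/
structure Frames (φ : ℝ → M → M) (E F : ∀ x : M, Submodule ℝ (TS x)) where
  ι : Type u
  fin : Finite ι
  c : ι → OpenPartialHomeomorph E3 M
  K : ι → Set M
  i : M → ι
  N : M → (V3 ≃L[ℝ] E3)
  C : ℝ
  C_pos : 0 < C
  c1 : ∀ j, IsC1Param (c j)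
  K_compact : ∀ j, IsCompact (K j)
  K_sub : ∀ j, K j ⊆ (c j).target
  mem : ∀ x ∈ Ld φ E 1, x ∈ K (i x)
  N_le : ∀ x ∈ Ld φ E 1, ∀ y : V3, ‖N x y‖ ≤ C * ‖y‖
  N_ge : ∀ x ∈ Ld φ E 1, ∀ y : V3, ‖y‖ ≤ C * ‖N x y‖
  N_E : ∀ x ∈ Ld φ E 1, ∀ s : ℝ,
    (show E3 from DP (c (i x)) ((c (i x)).symm x) (N x (s, 0))) ∈
      (show Submodule ℝ E3 from E x)
  N_F : ∀ x ∈ Ld φ E 1, ∀ q : Q2,
    (show E3 from DP (c (i x)) ((c (i x)).symm x) (N x (0, q))) ∈
      (show Submodule ℝ E3 from F x)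

/-- The centred normalised chart at `x`. -/
noncomputable def Frames.κ {φ : ℝ → M → M} {E F : ∀ x : M, Submodule ℝ (TS x)}
    (Fr : Frames φ E F) (x : M) (y : V3) : M :=
  Fr.c (Fr.i x) ((Fr.c (Fr.i x)).symm x + Fr.N x y)

/-- The inverse of the centred normalised chart at `x`. -/
noncomputable def Frames.κinv {φ : ℝ → M → M} {E F : ∀ x : M, Submodule ℝ (TS x)}
    (Fr : Frames φ E F) (x : M) (z : M) : V3 :=
  (Fr.N x).symm ((Fr.c (Fr.i x)).symm z - (Fr.c (Fr.i x)).symm x)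

/-- The time-`T` map read in the centred normalised charts. -/
noncomputable def Frames.f {φ : ℝ → M → M} {E F : ∀ x : M, Submodule ℝ (TS x)}
    (Fr : Frames φ E F) (T : ℝ) (x : M) (y : V3) : V3 :=
  Fr.κinv (φ T x) (φ T (Fr.κ x y))

end

end VeniceMask
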