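import Pool.Agent.helper75.VM.Abs

/-!
# MP_509a24_an, module B0: basic facts on `AFlow`, `FlowBox`, `Ret`, `IsUCurve`
-/

open Set Filter Topology Bundle
open scoped ContDiff Manifold

namespace VeniceMask

universe u

variable {M : Type u} [TopologicalSpace M] (F : AFlow M)

set_option linter.unusedVariables false

theorem AFlow.G_inj {t : ℝ} (ht : 0 ≤ t) : Function.Injective (F.G t) := fun x y h => by
  rw [← F.inv' t ht x, h, F.inv' t ht y]

theorem AFlow.G_neg_G {x : M} (hx : x ∈ F.L) (t : ℝ) : F.G (-t) (F.G t x) = x := by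
  rw [← F.add' (-t) t x hx, neg_add_cancel, F.zero']

theorem AFlow.G_G_neg {x : M} (hx : x ∈ F.L) (t : ℝ) : F.G t (F.G (-t) x) = x := by
  rw [← F.add' t (-t) x hx, add_neg_cancel, F.zero']

theorem AFlow.mem_iff {x : M} {t : ℝ} (ht : 0 ≤ t) : F.G t x ∈ F.L ↔ x ∈ F.L := by
  constructor
  · intro h
    have := F.mapsTo' (-t) _ h
    rwa [F.inv' t ht x] at this
  · exact fun h => F.mapsTo' t x h

theorem AFlow.Ws_iff {O : Set M} {x : M} {t : ℝ} (ht : 0 ≤ t) :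
    F.G t x ∈ F.Ws O ↔ x ∈ F.Ws O := by
  constructor
  · intro h U hU hO
    obtain ⟨a, ha⟩ := eventually_atTop.1 (h U hU hO)
    refine eventually_atTop.2 ⟨max a 0 + t, fun s hs => ?_⟩
    have h1 : max a 0 ≤ s - t := by linarith
    have h2 := ha (s - t) ((le_max_left a 0).trans h1)
    rw [← F.add_nonneg' (s - t) t ((le_max_right a 0).trans h1) ht x] at h2
    simpa using h2
  · intro h U hU hO
    obtain ⟨a, ha⟩ := eventually_atTop.1 (h U hU hO)
    refine eventually_atTop.2 ⟨max a 0, fun s hs => ?_⟩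
    rw [← F.add_nonneg' s t ((le_max_right a 0).trans hs) ht x]
    exact ha (s + t) (by linarith [(le_max_left a 0).trans hs])

theorem AFlow.Ws_iff' {O : Set M} {x : M} (hx : x ∈ F.L) (t : ℝ) :
    F.G t x ∈ F.Ws O ↔ x ∈ F.Ws O := by
  rcases le_total 0 t with ht | ht
  · exact F.Ws_iff ht
  · have h := F.Ws_iff (O := O) (x := F.G t x) (t := -t) (by linarith)
    rw [F.G_neg_G hx t] at h
    exact h.symm

theorem AFlow.Wu_iff {O : Set M} {x : M} (hx : x ∈ F.L) (t : ℝ) :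
    F.G t x ∈ F.Wu O ↔ x ∈ F.Wu O := by
  constructor
  · rintro ⟨-, h⟩
    refine ⟨hx, fun U hU hO => ?_⟩
    obtain ⟨a, ha⟩ := eventually_atTop.1 (h U hU hO)
    refine eventually_atTop.2 ⟨a - t, fun s hs => ?_⟩
    have h1 := ha (s + t) (by linarith)
    rw [← F.add' (-(s + t)) t x hx] at h1
    have e : -(s + t) + t = -s := by ring
    rwa [e] at h1
  · rintro ⟨-, h⟩
    refine ⟨F.mapsTo' t x hx, fun U hU hO => ?_⟩
    obtain ⟨a, ha⟩ := eventually_atTop.1 (h U hU hO)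
    refine eventually_atTop.2 ⟨a + t, fun s hs => ?_⟩
    have h1 := ha (s - t) (by linarith)
    rw [← F.add' (-s) t x hx]
    have e : -s + t = -(s - t) := by ring
    rwa [e]

theorem AFlow.Sing_iff {x : M} (hx : x ∈ F.L) (t : ℝ) :
    F.G t x ∈ F.Sing ↔ x ∈ F.Sing := by
  constructor
  · intro h
    have h1 := h.2 (-t)
    rw [F.G_neg_G hx t] at h1
    rwa [← h1] at h
  · intro h
    rwa [h.2 t]

theorem AFlow.Sing_sub : F.Sing ⊆ F.WuSing := by
  intro x hx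
  refine mem_iUnion₂.2 ⟨x, hx, hx.1, fun U hU hO => ?_⟩
  exact Eventually.of_forall fun t => by
    rw [hx.2 (-t)]
    exact hO rfl

theorem AFlow.IsPer.sub {O : Set M} {p : M} {T : ℝ} (h : F.IsPer O p T) : O ⊆ F.L := by
  intro x hx
  rw [h.eq] at hx
  obtain ⟨t, rfl⟩ := hx
  exact F.mapsTo' t p h.mem

private theorem per_cont {p : M} (hp : p ∈ F.L) : Continuous fun t => F.G t p := by
  have h1 : ContinuousOn (fun t : ℝ => ((t, p) : ℝ × M)) univ := by fun_prop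
  have h2 := F.cont'.comp h1 (fun t _ => ⟨trivial, hp⟩)
  exact continuousOn_univ.1 h2

private theorem per_per {O : Set M} {p : M} {T : ℝ} (h : F.IsPer O p T) :
    Function.Periodic (fun t => F.G t p) T := by
  intro t
  show F.G (t + T) p = F.G t p
  rw [F.add' t T p h.mem, h.per]

theorem AFlow.IsPer.compact {O : Set M} {p : M} {T : ℝ} (h : F.IsPer O p T) :
    IsCompact O := by
  have e : O = (fun t => F.G t p) '' Icc 0 T := by
    apply Subset.antisymm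
    · intro x hx
      rw [h.eq] at hx
      obtain ⟨t, rfl⟩ := hx
      obtain ⟨y, hy, hy2⟩ := (per_per F h).exists_mem_Ico₀ h.T_pos t
      exact ⟨y, ⟨hy.1, hy.2.le⟩, hy2.symm⟩
    · rintro x ⟨t, -, rfl⟩
      rw [h.eq]
      exact ⟨t, rfl⟩
  rw [e]
  exact isCompact_Icc.image (per_cont F h.mem)

theorem AFlow.IsPer.inv {O : Set M} {p : M} {T : ℝ} (h : F.IsPer O p T) :
    ∀ t, ∀ x ∈ O, F.G t x ∈ O := by
  intro t x hx
  rw [h.eq] at hx ⊢
  obtain ⟨s, rfl⟩ := hx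
  exact ⟨t + s, F.add' t s p h.mem⟩

theorem AFlow.IsPer.mem_self {O : Set M} {p : M} {T : ℝ} (h : F.IsPer O p T) : p ∈ O := by
  rw [h.eq]
  exact ⟨0, F.zero' p⟩

theorem AFlow.IsPer.mem_of {O : Set M} {p : M} {T : ℝ} (h : F.IsPer O p T) {x : M} (hx : x ∈ O) :
    F.IsPer O x T := by
  have hx' := hx
  rw [h.eq] at hx'
  obtain ⟨s, rfl⟩ := hx'
  refine ⟨h.T_pos, F.mapsTo' s p h.mem, ?_, ?_, ?_⟩
  · rw [← F.add' T s p h.mem, add_comm, F.add' s T p h.mem, h.per]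
  · rw [F.Sing_iff h.mem]
    exact h.reg
  · ext y
    constructor
    · intro hy
      rw [h.eq] at hy
      obtain ⟨t, rfl⟩ := hy
      refine ⟨t - s, ?_⟩
      rw [← F.add' (t - s) s p h.mem, sub_add_cancel]
    · rintro ⟨t, rfl⟩
      exact AFlow.IsPer.inv F h t _ hx

theorem AFlow.IsPer.disj {O : Set M} {p : M} {T : ℝ} (h : F.IsPer O p T) :
    Disjoint O F.Sing := by
  rw [Set.disjoint_left]
  intro x hx hs
  exact (AFlow.IsPer.mem_of F h hx).reg hs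

/-- points of a neighbourhood of a periodic orbit pass near `p` within one period, both for
positive and for negative times -/
theorem AFlow.IsPer.near {O : Set M} {p : M} {T : ℝ} (h : F.IsPer O p T) {N : Set M}
    (hN : N ∈ 𝓝 p) : ∃ U, IsOpen U ∧ O ⊆ U ∧ ∀ x ∈ F.L, x ∈ U →
      (∃ t, 0 ≤ t ∧ t ≤ T ∧ F.G t x ∈ N) ∧ (∃ t, 0 ≤ t ∧ t ≤ T ∧ F.G (-t) x ∈ N) := by
  set W : Set M := {x | x ∈ F.L → (∃ t, 0 ≤ t ∧ t ≤ T ∧ F.G t x ∈ N) ∧
    (∃ t, 0 ≤ t ∧ t ≤ T ∧ F.G (-t) x ∈ N)} with hW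
  refine ⟨interior W, isOpen_interior, ?_, fun x hx hxU => interior_subset hxU hx⟩
  intro o ho
  rw [mem_interior_iff_mem_nhds]
  have ho' := AFlow.IsPer.mem_of F h ho
  have hcont : ∀ t : ℝ, F.G t o = p → ∀ᶠ x in 𝓝 o, x ∈ F.L → F.G t x ∈ N := by
    intro t hto
    have h1 : ContinuousWithinAt (fun q : ℝ × M => F.G q.1 q.2) (univ ×ˢ F.L) (t, o) :=
      F.cont' (t, o) ⟨trivial, ho'.mem⟩
    have h2 : ContinuousWithinAt (fun x : M => ((t, x) : ℝ × M)) F.L o := by fun_prop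
    have h3 : ContinuousWithinAt (fun x : M => F.G t x) F.L o :=
      ContinuousWithinAt.comp (t := univ ×ˢ F.L) (f := fun x : M => ((t, x) : ℝ × M))
        (g := fun q : ℝ × M => F.G q.1 q.2) h1 h2 (fun x hx => ⟨trivial, hx⟩)
    have h4 : ∀ᶠ x in 𝓝[F.L] o, F.G t x ∈ N := by
      apply h3
      show N ∈ 𝓝 (F.G t o)
      rw [hto]
      exact hN
    exact eventually_nhdsWithin_iff.1 h4
  have hp : p ∈ O := AFlow.IsPer.mem_self F h
  rw [ho'.eq] at hp
  obtain ⟨s, hs⟩ := hp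
  have hper := per_per F ho'
  obtain ⟨t1, ht1, ht1'⟩ := hper.exists_mem_Ico₀ h.T_pos s
  have hper2 : Function.Periodic (fun t => F.G (-t) o) T := by
    intro t
    show F.G (-(t + T)) o = F.G (-t) o
    have := hper (-(t + T))
    have e : -(t + T) + T = -t := by ring
    simp only [e] at this
    exact this.symm
  obtain ⟨t2, ht2, ht2'⟩ := hper2.exists_mem_Ico₀ h.T_pos (-s)
  have e1 : F.G t1 o = p := by rw [← hs]; exact ht1'.symm
  have e2 : F.G (-t2) o = p := by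
    have : F.G (- -s) o = F.G (-t2) o := ht2'
    rw [← this, neg_neg]
    exact hs
  filter_upwards [hcont t1 e1, hcont (-t2) e2] with x hx1 hx2 hxL
  exact ⟨⟨t1, ht1.1, ht1.2.le, hx1 hxL⟩, ⟨t2, ht2.1, ht2.2.le, hx2 hxL⟩⟩

variable {F}

private theorem FlowBox.e_eq (B : FlowBox F) {t : ℝ} {q : Q2} (ht : |t| ≤ B.δ) (hq : ‖q‖ ≤ 1) :
    F.G t (B.pt q) = B.e (t, q) := by
  rcases le_total 0 t with h0 | h0
  · have h := B.flow 0 t q (by simpa using B.δ_pos.le) (by simpa using ht) h0 hq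
    rw [zero_add] at h
    exact h.symm
  · have h := B.flow t (-t) q ht (by simpa using B.δ_pos.le) (by linarith) hq
    rw [add_neg_cancel] at h
    show F.G t (B.e (0, q)) = B.e (t, q)
    rw [h]
    have h2 := F.inv' (-t) (by linarith) (B.e (t, q))
    rwa [neg_neg] at h2

theorem FlowBox.G_pt (B : FlowBox F) {t : ℝ} {q : Q2} (ht : |t| ≤ B.δ) (hq : ‖q‖ ≤ 1)
    (hL : B.pt q ∈ F.L) : F.G t (B.pt q) = B.e (t, q) := B.e_eq ht hq

theorem FlowBox.mem_iff (B : FlowBox F) {t : ℝ} {q : Q2} (ht : |t| ≤ B.δ) (hq : ‖q‖ ≤ 1) :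
    B.e (t, q) ∈ F.L ↔ B.pt q ∈ F.L := by
  rcases le_total 0 t with h0 | h0
  · rw [← B.e_eq ht hq]
    exact F.mem_iff h0
  · have h := B.flow t (-t) q ht (by simpa using B.δ_pos.le) (by linarith) hq
    rw [add_neg_cancel] at h
    show _ ↔ B.e (0, q) ∈ F.L
    rw [h]
    exact (F.mem_iff (by linarith)).symm

theorem FlowBox.pt_eq (B : FlowBox F) {t : ℝ} {q : Q2} (ht : |t| ≤ B.δ) (hq : ‖q‖ ≤ 1)
    (hL : B.e (t, q) ∈ F.L) : B.pt q = F.G (-t) (B.e (t, q)) := by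
  rw [← B.e_eq ht hq, F.G_neg_G ((B.mem_iff ht hq).1 hL)]

private theorem FlowBox.src0 (B : FlowBox F) {q : Q2} (hq : ‖q‖ ≤ 1) :
    ((0 : ℝ), q) ∈ B.e.source := B.src 0 q (by simpa using B.δ_pos.le) hq

theorem FlowBox.pt_inj (B : FlowBox F) {q q' : Q2} (hq : ‖q‖ ≤ 1) (hq' : ‖q'‖ ≤ 1)
    (h : B.pt q = B.pt q') : q = q' :=
  congrArg Prod.snd (B.e.injOn (B.src0 hq) (B.src0 hq') h)

/-- `e (t, q)` with `0 < |t| ≤ δ` is not in the section -/
theorem FlowBox.not_mem_section (B : FlowBox F) {t : ℝ} {q q' : Q2} (ht : |t| ≤ B.δ)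
    (ht0 : t ≠ 0) (hq : ‖q‖ ≤ 1) (hq' : ‖q'‖ ≤ 1) : B.e (t, q) ≠ B.pt q' := fun h =>
  ht0 (congrArg Prod.fst (B.e.injOn (B.src t q ht hq) (B.src0 hq') h))

/-- different visits to the section are separated in time by more than `δ` -/
theorem FlowBox.sep (B : FlowBox F) {s : ℝ} {q q' : Q2} (hq : ‖q‖ ≤ 1) (hq' : ‖q'‖ ≤ 1)
    (hL : B.pt q ∈ F.L) (hs : |s| ≤ B.δ) (h : F.G s (B.pt q) = B.pt q') : s = 0 := by
  by_contra h0
  rw [B.e_eq hs hq] at h
  exact B.not_mem_section hs h0 hq hq' h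

theorem FlowBox.compact_image (B : FlowBox F) {S : Set V3} (hS : IsClosed S)
    (hS' : ∀ z ∈ S, |z.1| ≤ B.δ ∧ ‖z.2‖ ≤ 1) : IsCompact (B.e '' S) := by
  have h1 : IsCompact ((Icc (-B.δ) B.δ) ×ˢ (Metric.closedBall (0 : Q2) 1)) :=
    isCompact_Icc.prod (isCompact_closedBall 0 1)
  have h2 : IsCompact S := h1.of_isClosed_subset hS (fun z hz => by
    obtain ⟨a, b⟩ := hS' z hz
    exact ⟨abs_le.1 a, by simpa using b⟩)
  exact h2.image_of_continuousOn (B.e.continuousOn.mono fun z hz =>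
    B.src z.1 z.2 (hS' z hz).1 (hS' z hz).2)

theorem FlowBox.open_image (B : FlowBox F) {r ρ : ℝ} (hr : r ≤ B.δ) (hρ : ρ ≤ 1) :
    IsOpen (B.e '' {z : V3 | |z.1| < r ∧ ‖z.2‖ < ρ}) := by
  apply B.e.isOpen_image_of_subset_source
  · have h1 : IsOpen {z : V3 | |z.1| < r} := isOpen_lt continuous_fst.abs continuous_const
    have h2 : IsOpen {z : V3 | ‖z.2‖ < ρ} := isOpen_lt continuous_snd.norm continuous_const
    exact h1.inter h2
  · intro z hz
    exact B.src z.1 z.2 (hz.1.le.trans hr) (hz.2.le.trans hρ)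

theorem FlowBox.pt_cont (B : FlowBox F) : ContinuousOn B.pt {q : Q2 | ‖q‖ ≤ 1} := by
  have h1 : ContinuousOn (fun q : Q2 => ((0 : ℝ), q)) {q : Q2 | ‖q‖ ≤ 1} := by fun_prop
  exact B.e.continuousOn.comp h1 (fun q hq => B.src0 hq)

theorem Ret.step {B : FlowBox F} {O : Set M} (R : Ret B O) {q : Q2} (hq : ‖q‖ ≤ 1)
    (hPq : ‖R.P q‖ ≤ 1) : ∃ t, B.δ < t ∧ t ≤ R.T + B.δ ∧ F.G t (B.pt q) = B.pt (R.P q) := by
  obtain ⟨u, hu, -, he⟩ := R.ret q hq
  obtain ⟨hu1, hu2⟩ := abs_le.1 hu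
  have hT := R.δ_lt
  refine ⟨R.T - u, by linarith, by linarith, ?_⟩
  rcases le_total 0 u with h0 | h0
  · apply F.G_inj h0
    rw [← F.add_nonneg' u (R.T - u) h0 (by linarith [B.δ_pos]), add_sub_cancel, he,
      B.e_eq hu hPq]
  · have h := B.flow u (-u) (R.P q) hu (by simpa using B.δ_pos.le) (by linarith) hPq
    rw [add_neg_cancel] at h
    show _ = B.e (0, R.P q)
    rw [h, ← he, ← F.add_nonneg' (-u) R.T (by linarith) R.T_pos.le]
    congr 1
    ring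

theorem IsUCurve.restrict {B : Box F} {g : ℝ → ℝ} {a b a' b' : ℝ} (h : IsUCurve B g a b)
    (h1 : a ≤ a') (h2 : a' ≤ b') (h3 : b' ≤ b) : IsUCurve B g a' b' where
  le := h2
  norm_le := fun x hx => h.norm_le x ⟨h1.trans hx.1, hx.2.trans h3⟩
  mem := fun x hx => h.mem x ⟨h1.trans hx.1, hx.2.trans h3⟩
  der := fun x hx => (h.der x ⟨h1.trans hx.1, hx.2.trans h3⟩).mono (Icc_subset_Icc h1 h3)

theorem IsUCurve.congr {B : Box F} {g g' : ℝ → ℝ} {a b : ℝ} (h : IsUCurve B g a b)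
    (h1 : ∀ x ∈ Icc a b, g' x = g x) : IsUCurve B g' a b where
  le := h.le
  norm_le := fun x hx => by rw [h1 x hx]; exact h.norm_le x hx
  mem := fun x hx => by rw [h1 x hx]; exact h.mem x hx
  der := fun x hx => by
    rw [h1 x hx]
    exact (h.der x hx).congr h1 (h1 x hx)

theorem IsUCurve.lip {B : Box F} {g : ℝ → ℝ} {a b : ℝ} (h : IsUCurve B g a b)
    {x y : ℝ} (hx : x ∈ Icc a b) (hy : y ∈ Icc a b) : |g x - g y| ≤ 1 / 4 * |x - y| := by
  have := Convex.norm_image_sub_le_of_norm_hasDerivWithin_le (f := g)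
    (f' := fun x => B.m (x, g x)) (C := 1 / 4) (s := Icc a b) h.der
    (fun z hz => B.m_le _ (h.norm_le z hz) (h.mem z hz)) (convex_Icc a b) hy hx
  simpa [Real.norm_eq_abs] using this

end VeniceMask
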