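import Pool.Agent.helper75.VM.Geo

/-!
# MP_509a24_an, module CH1: existence of parametrisations, inverse function theorem
-/

open Set Filter Topology Bundle
open scoped ContDiff Manifold

namespace VeniceMask

universe u

variable {M : Type u} [TopologicalSpace M] [ChartedSpace (EuclideanHalfSpace 3) M]
  [IsManifold (𝓡∂ 3) ∞ M]

/-- the model with corners restricted to the interior of the half space -/
private noncomputable def halfInt96 : OpenPartialHomeomorph E3 (EuclideanHalfSpace 3) where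
  toFun := (𝓡∂ 3).symm
  invFun := 𝓡∂ 3
  source := interior (range (𝓡∂ 3))
  target := (𝓡∂ 3) ⁻¹' interior (range (𝓡∂ 3))
  map_source' y hy := by
    have : (𝓡∂ 3) ((𝓡∂ 3).symm y) = y := (𝓡∂ 3).right_inv (interior_subset hy)
    rw [mem_preimage, this]
    exact hy
  map_target' h hh := hh
  left_inv' y hy := (𝓡∂ 3).right_inv (interior_subset hy)
  right_inv' h _ := (𝓡∂ 3).left_inv h
  open_source := isOpen_interior
  open_target := isOpen_interior.preimage (𝓡∂ 3).continuous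
  continuousOn_toFun := (𝓡∂ 3).continuous_symm.continuousOn
  continuousOn_invFun := (𝓡∂ 3).continuous.continuousOn

theorem exists_param {x : M} (hx : x ∈ (𝓡∂ 3).interior M) :
    ∃ e : OpenPartialHomeomorph E3 M, IsC1Param e ∧ x ∈ e.target := by
  have : IsManifold (𝓡∂ 3) 1 M := IsManifold.of_le (n := ∞) (by decide)
  let c := chartAt (EuclideanHalfSpace 3) x
  let e : OpenPartialHomeomorph E3 M := halfInt96.trans c.symm
  have hsrc : e.source ⊆ (extChartAt (𝓡∂ 3) x).target := by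
    intro y hy
    have h1 : y ∈ interior (range (𝓡∂ 3)) ∩ (𝓡∂ 3).symm ⁻¹' c.target := hy
    rw [extChartAt_target]
    exact ⟨h1.2, interior_subset h1.1⟩
  have htgt : ∀ m ∈ e.target, m ∈ c.source ∧ (𝓡∂ 3) (c m) ∈ interior (range (𝓡∂ 3)) := by
    intro m hm
    exact hm
  refine ⟨e, ⟨?_, ?_, ?_⟩, ?_⟩
  · exact (contMDiffOn_extChartAt_symm (n := 1) x).mono hsrc
  · exact (contMDiffOn_extChartAt (n := 1) (x := x)).mono fun m hm => (htgt m hm).1
  · intro m hm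
    obtain ⟨h1, h2⟩ := htgt m hm
    refine ((𝓡∂ 3).isInteriorPoint_iff_of_mem_atlas (n := 1) one_ne_zero
      (chart_mem_atlas _ x) h1).2 ?_
    exact c.mem_interior_extend_target (c.map_source h1) h2
  · exact ⟨mem_chart_source _ x, hx⟩

variable {V W : Type} [NormedAddCommGroup V] [NormedSpace ℝ V] [FiniteDimensional ℝ V]

/-- inverse function theorem -/
theorem exists_param_of_bijective {f : V → M} {z : V}
    (hf : ContMDiffAt 𝓘(ℝ, V) (𝓡∂ 3) 1 f z) (hz : f z ∈ (𝓡∂ 3).interior M)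
    (hb : Function.Bijective (DP f z)) : ∃ e : OpenPartialHomeomorph V M, IsC1Param e ∧
      z ∈ e.source ∧ (∀ y ∈ e.source, e y = f y) ∧ ∀ y ∈ e.source, ∀ ξ : V,
        (show E3 from DP e y ξ) = DP f y ξ := by
  have : IsManifold (𝓡∂ 3) 1 M := IsManifold.of_le (n := ∞) (by decide)
  have : CompleteSpace V := FiniteDimensional.complete ℝ V
  obtain ⟨e0, he0, hze0⟩ := exists_param hz
  -- `e0.symm` is `C¹` at the points of the target
  have hsymm : ∀ m ∈ e0.target, ContMDiffAt (𝓡∂ 3) 𝓘(ℝ, E3) 1 e0.symm m := fun m hm =>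
    (he0.smooth_symm m hm).contMDiffAt (e0.open_target.mem_nhds hm)
  have hsm : ∀ y ∈ e0.source, ContMDiffAt 𝓘(ℝ, E3) (𝓡∂ 3) 1 e0 y := fun y hy =>
    (he0.smooth y hy).contMDiffAt (e0.open_source.mem_nhds hy)
  set F0 : V → E3 := fun y => e0.symm (f y) with hF0
  have hF0c : ContMDiffAt 𝓘(ℝ, V) 𝓘(ℝ, E3) 1 F0 z := (hsymm _ hze0).comp z hf
  have hF0d : ContDiffAt ℝ 1 F0 z := contMDiffAt_iff_contDiffAt.1 hF0c
  -- the derivative of `F0` at `z` is bijective
  have hder : mfderiv 𝓘(ℝ, V) 𝓘(ℝ, E3) F0 z =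
      (mfderiv (𝓡∂ 3) 𝓘(ℝ, E3) e0.symm (f z)).comp (mfderiv 𝓘(ℝ, V) (𝓡∂ 3) f z) :=
    mfderiv_comp z ((hsymm _ hze0).mdifferentiableAt one_ne_zero) (hf.mdifferentiableAt one_ne_zero)
  have hbsymm : Function.Bijective (mfderiv (𝓡∂ 3) 𝓘(ℝ, E3) e0.symm (f z)) := by
    have hy : e0.symm (f z) ∈ e0.source := e0.map_target hze0
    have h1 : mfderiv (𝓡∂ 3) (𝓡∂ 3) (e0 ∘ e0.symm) (f z) =
        (mfderiv 𝓘(ℝ, E3) (𝓡∂ 3) e0 (e0.symm (f z))).comp
          (mfderiv (𝓡∂ 3) 𝓘(ℝ, E3) e0.symm (f z)) :=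
      mfderiv_comp (f z) ((hsm _ hy).mdifferentiableAt one_ne_zero)
        ((hsymm _ hze0).mdifferentiableAt one_ne_zero)
    have h2 : (e0 ∘ e0.symm : M → M) =ᶠ[𝓝 (f z)] id := by
      filter_upwards [e0.open_target.mem_nhds hze0] with m hm
      exact e0.right_inv hm
    have h3 := h2.mfderiv_eq (I := 𝓡∂ 3) (I' := 𝓡∂ 3)
    rw [mfderiv_id] at h3
    have hinj : Function.Injective (mfderiv (𝓡∂ 3) 𝓘(ℝ, E3) e0.symm (f z)) := by
      intro v w hvw
      have h4 : (mfderiv (𝓡∂ 3) (𝓡∂ 3) (e0 ∘ e0.symm) (f z)) v =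
          (mfderiv (𝓡∂ 3) (𝓡∂ 3) (e0 ∘ e0.symm) (f z)) w := by
        rw [h1]
        exact congrArg (mfderiv 𝓘(ℝ, E3) (𝓡∂ 3) e0 (e0.symm (f z))) hvw
      rw [h3] at h4
      exact h4
    let B : E3 →L[ℝ] E3 := mfderiv (𝓡∂ 3) 𝓘(ℝ, E3) e0.symm (f z)
    have hsur : Function.Surjective (B : E3 →ₗ[ℝ] E3) :=
      LinearMap.injective_iff_surjective.1 hinj
    exact ⟨hinj, hsur⟩
  have hbF : Function.Bijective (fderiv ℝ F0 z) := by
    rw [mfderiv_eq_fderiv] at hder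
    rw [hder]
    exact hbsymm.comp hb
  let L : V ≃L[ℝ] E3 := (LinearEquiv.ofBijective (fderiv ℝ F0 z : V →ₗ[ℝ] E3)
    hbF).toContinuousLinearEquiv
  have hL : (L : V →L[ℝ] E3) = fderiv ℝ F0 z := by
    ext v; rfl
  have hfd : HasFDerivAt F0 (L : V →L[ℝ] E3) z := by
    rw [hL]
    exact (hF0d.differentiableAt one_ne_zero).hasFDerivAt
  let P := hF0d.toOpenPartialHomeomorph F0 hfd one_ne_zero
  have hzP : z ∈ P.source := hF0d.mem_toOpenPartialHomeomorph_source hfd one_ne_zero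
  -- good points
  have hev : ∀ᶠ y in 𝓝 z, ContMDiffAt 𝓘(ℝ, V) (𝓡∂ 3) 1 f y ∧ f y ∈ e0.target ∧
      fderiv ℝ F0 y ∈ range ((↑) : (V ≃L[ℝ] E3) → V →L[ℝ] E3) := by
    refine ((contMDiffAt_iff_contMDiffAt_nhds (by simp)).1 hf).and ((hf.continuousAt.eventually_mem
      (e0.open_target.mem_nhds hze0)).and ?_)
    have hc : ContinuousAt (fderiv ℝ F0) z :=
      (hF0d.fderiv_right (m := 0) (by simp)).continuousAt
    refine hc.eventually_mem ?_
    rw [← hL]
    exact ContinuousLinearEquiv.nhds L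
  obtain ⟨U, hU, hUo, hzU⟩ := mem_nhds_iff.1 hev
  let P' := P.restrOpen U hUo
  let e := P'.trans e0
  have hesrc : ∀ y ∈ e.source, y ∈ P.source ∧ y ∈ U ∧ F0 y ∈ e0.source := by
    intro y hy
    exact ⟨hy.1.1, hy.1.2, hy.2⟩
  have heq : ∀ y ∈ e.source, e y = f y := by
    intro y hy
    have h1 := (hU (hesrc y hy).2.1).2.1
    exact e0.right_inv h1
  have hetgt : ∀ m ∈ e.target, m ∈ e0.target ∧ e0.symm m ∈ P'.target := by
    intro m hm
    exact ⟨hm.1, hm.2⟩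
  have hF0C : ∀ y ∈ U, ContDiffAt ℝ 1 F0 y := by
    intro y hy
    have h1 := hU hy
    exact contMDiffAt_iff_contDiffAt.1 ((hsymm _ h1.2.1).comp y h1.1)
  refine ⟨e, ⟨?_, ?_, ?_⟩, ?_, heq, ?_⟩
  · intro y hy
    have h1 : ContMDiffAt 𝓘(ℝ, V) (𝓡∂ 3) 1 f y := (hU (hesrc y hy).2.1).1
    refine ContMDiffAt.contMDiffWithinAt (h1.congr_of_eventuallyEq ?_)
    filter_upwards [e.open_source.mem_nhds hy] with y' hy'
    exact heq y' hy'
  · intro m hm
    obtain ⟨h1, h2⟩ := hetgt m hm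
    have h3 : P'.symm (e0.symm m) ∈ P'.source := P'.map_target h2
    have h3' : P'.symm (e0.symm m) ∈ U := h3.2
    obtain ⟨L', hL'⟩ := (hU h3').2.2
    have h4 : ContDiffAt ℝ 1 P'.symm (e0.symm m) := by
      refine P'.contDiffAt_symm (f₀' := L') h2 ?_ ?_
      · rw [hL']
        exact ((hF0C _ h3').differentiableAt one_ne_zero).hasFDerivAt
      · exact hF0C _ h3'
    exact ((contMDiffAt_iff_contDiffAt.2 h4).comp m (hsymm m h1)).contMDiffWithinAt
  · intro m hm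
    exact he0.interior (hetgt m hm).1
  · refine ⟨⟨hzP, hzU⟩, ?_⟩
    exact e0.map_target hze0
  · intro y hy ξ
    have h1 : (e : V → M) =ᶠ[𝓝 y] f := by
      filter_upwards [e.open_source.mem_nhds hy] with y' hy'
      exact heq y' hy'
    have h2 := h1.mfderiv_eq (I := 𝓘(ℝ, V)) (I' := 𝓡∂ 3)
    unfold DP
    rw [h2]
    rfl

end VeniceMask
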