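import Pool.Agent.helper75.VM.M_CO2
import Pool.Agent.helper75.VM.M_CH1

/-!
# MP_509a24_an, module IS: finitely many singularities
-/

open Set Filter Topology Bundle
open scoped ContDiff Manifold

namespace VeniceMask

universe u

variable {M : Type u} [TopologicalSpace M] [ChartedSpace (EuclideanHalfSpace 3) M]
  [IsManifold (𝓡∂ 3) ∞ M] [CompactSpace M] [T2Space M]
  {g : Metric3 M} {X : ∀ x : M, TS x} {φ : ℝ → M → M} {E F : ∀ x : M, Submodule ℝ (TS x)}

omit [CompactSpace M] [T2Space M] in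
theorem IS_dfix_add (h3 : IsFlowOf X φ) {x : M} (hx : ∀ t, 0 ≤ t → φ t x = x) {s t : ℝ}
    (hs : 0 ≤ s) (ht : 0 ≤ t) (v : TS x) : Dfix φ x (s + t) v = Dfix φ x s (Dfix φ x t v) := by
  have h1 := D_add h3 hs ht x v
  have h2 : ∀ y : M, y = x → ∀ w : E3, (show E3 from D φ s y w) = (show E3 from D φ s x w) := by
    rintro y rfl w
    rfl
  exact h1.trans (h2 _ (hx t ht) (D φ t x v))

omit [CompactSpace M] [T2Space M] in
/-- at a hyperbolic singularity the derivative of the time one map has no eigenvalue 1 -/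
theorem IS_no_fixed (h3 : IsFlowOf X φ) {x : M} (hx : ∀ t, 0 ≤ t → φ t x = x)
    (hh : IsHypSing g X φ x) {v : TS x} (hv : Dfix φ x 1 v = v) : v = 0 := by
  obtain ⟨-, Es, Eu, hsup, -, -, C, hC, l, hl, hs, hu⟩ := hh
  have hn : ∀ n : ℕ, Dfix φ x n v = v := by
    intro n
    induction n with
    | zero =>
      rw [Nat.cast_zero]
      exact D_zero h3 x v
    | succ n ih =>
      rw [Nat.cast_succ, IS_dfix_add h3 hx (Nat.cast_nonneg n) zero_le_one, hv, ih]
  obtain ⟨a, ha, b, hb, hab⟩ := Submodule.mem_sup.1 (hsup ▸ Submodule.mem_top : v ∈ Es ⊔ Eu)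
  have hlim : Tendsto (fun n : ℕ => C * Real.exp (-l * n)) atTop (𝓝 0) := by
    have h1 : Tendsto (fun n : ℕ => -l * (n : ℝ)) atTop atBot :=
      tendsto_natCast_atTop_atTop.const_mul_atTop_of_neg (by linarith)
    have h2 := (Real.tendsto_exp_atBot.comp h1).const_mul C
    rw [mul_zero] at h2
    exact h2
  have hneg : ∀ w : TS x, nrm g x (-w) = nrm g x w := by
    intro w
    have h1 := nrm_smul g x (-1) w
    have h2 : (-1 : ℝ) • w = -w := by simp
    rw [h2] at h1
    rw [h1]; simp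
  have hb0 : b = 0 := by
    have hle : ∀ n : ℕ, nrm g x b ≤ C * Real.exp (-l * n) * (nrm g x v + C * nrm g x a) := by
      intro n
      have h1 := hu n (mem_Ici.2 (Nat.cast_nonneg n)) b hb
      refine h1.trans (mul_le_mul_of_nonneg_left ?_ (by positivity))
      have h2 : Dfix φ x n b = v + -(Dfix φ x n a) := by
        have h3 : Dfix φ x n v = Dfix φ x n a + Dfix φ x n b := by rw [← hab, map_add]
        rw [hn n] at h3
        rw [h3]
        abel
      rw [h2]
      refine (nrm_add_le g x _ _).trans (add_le_add le_rfl ?_)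
      rw [hneg]
      have h4 := hs n (mem_Ici.2 (Nat.cast_nonneg n)) a ha
      refine h4.trans (mul_le_mul_of_nonneg_right ?_ (nrm_nonneg g x a))
      have h5 : Real.exp (-l * n) ≤ 1 := by
        apply Real.exp_le_one_iff.2
        have : 0 ≤ l * n := by positivity
        linarith
      calc C * Real.exp (-l * n) ≤ C * 1 := mul_le_mul_of_nonneg_left h5 hC.le
        _ = C := mul_one C
    have h1 : nrm g x b ≤ 0 := by
      have h2 := hlim.mul_const (nrm g x v + C * nrm g x a)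
      rw [zero_mul] at h2
      exact ge_of_tendsto' h2 hle
    exact (nrm_eq_zero g x b).1 (le_antisymm h1 (nrm_nonneg g x b))
  have hva : v = a := by rw [← hab, hb0, add_zero]
  have hle : ∀ n : ℕ, nrm g x v ≤ C * Real.exp (-l * n) * nrm g x v := by
    intro n
    have h1 := hs n (mem_Ici.2 (Nat.cast_nonneg n)) v (hva ▸ ha)
    rwa [hn n] at h1
  have h1 : nrm g x v ≤ 0 := by
    have h2 := hlim.mul_const (nrm g x v)
    rw [zero_mul] at h2
    exact ge_of_tendsto' h2 hle
  exact (nrm_eq_zero g x v).1 (le_antisymm h1 (nrm_nonneg g x v))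

theorem IS_isolated (H : Hyp g X φ E F) {σ : M} (hσ : σ ∈ maxInv φ) (hX : X σ = 0) :
    ∀ᶠ x in 𝓝 σ, φ 1 x = x → x = σ := by
  have hfix : ∀ t, 0 ≤ t → φ t σ = σ := (X_eq_zero_iff H.c1 H.inward H.flow hσ).1 hX
  have hhyp := H.sing σ hσ hX
  obtain ⟨e, he, hσe⟩ := exists_param (maxInv_interior H.inward H.flow hσ)
  obtain ⟨z, hz, rfl⟩ : ∃ z ∈ e.source, e z = σ := ⟨e.symm σ, e.map_target hσe, e.right_inv hσe⟩
  have hfix1 := hfix 1 zero_le_one
  obtain ⟨h1, h2⟩ := he.rep he (f := φ 1) hz (flow_smooth_at H.flow zero_le_one (e z))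
    (by rw [hfix1]; exact hσe)
  set f : E3 → E3 := fun y => e.symm (φ 1 (e y)) with hf
  have hfz : e.symm (φ 1 (e z)) = z := by rw [hfix1, e.left_inv hz]
  have hker : ∀ ξ : E3, fderiv ℝ f z ξ = ξ → ξ = 0 := by
    intro ξ hξ
    have h3 := h2 ξ
    rw [hξ] at h3
    have h4 : ∀ w : E3, w = z → (show E3 from DP e w ξ) = (show E3 from DP e z ξ) := by
      rintro w rfl
      rfl
    have h5 : Dfix φ (e z) 1 (DP e z ξ) = DP e z ξ := h3.symm.trans (h4 _ hfz)
    have h6 := IS_no_fixed H.flow hfix hhyp h5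
    have h7 := (he.bij hz).1
    apply h7
    rw [h6, map_zero]
  have hd : HasFDerivAt (fun y => f y - y) (fderiv ℝ f z - ContinuousLinearMap.id ℝ E3) z :=
    (h1.differentiableAt one_ne_zero).hasFDerivAt.sub (hasFDerivAt_id z)
  have hanti : ∃ C, AntilipschitzWith C (fderiv ℝ f z - ContinuousLinearMap.id ℝ E3) := by
    obtain ⟨K, -, hK⟩ := LinearMap.exists_antilipschitzWith
      ((fderiv ℝ f z - ContinuousLinearMap.id ℝ E3 : E3 →L[ℝ] E3) : E3 →ₗ[ℝ] E3) (by
        rw [LinearMap.ker_eq_bot']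
        intro ξ hξ
        apply hker
        exact sub_eq_zero.1 hξ)
    exact ⟨K, hK⟩
  have hev := hd.eventually_ne hanti (c := 0)
  rw [eventually_nhdsWithin_iff] at hev
  have hc : Tendsto e.symm (𝓝 (e z)) (𝓝 z) := by
    have := e.continuousAt_symm hσe
    rwa [ContinuousAt, e.left_inv hz] at this
  filter_upwards [hc.eventually hev, e.open_target.mem_nhds hσe] with x hx hxt hφ
  by_contra hne
  have h3 : e.symm x ≠ z := by
    intro h
    apply hne
    rw [← h, e.right_inv hxt]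
  apply hx h3
  show e.symm (φ 1 (e (e.symm x))) - e.symm x = 0
  rw [e.right_inv hxt, hφ, sub_self]

theorem sing_finite (H : Hyp g X φ E F) : {x ∈ maxInv φ | X x = 0}.Finite := by
  by_contra hinf
  obtain ⟨σ, hσ, hacc⟩ := Set.Infinite.exists_accPt_of_subset_isCompact hinf
    (maxInv_compact H.flow) (fun x hx => hx.1)
  have hcl : IsClosed {x : M | ∀ t : ℝ, 0 ≤ t → φ t x = x} := by
    simp only [ofPred_forall]
    exact isClosed_iInter fun t => isClosed_iInter fun ht =>
      isClosed_eq (FL2_cont H.flow ht) continuous_id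
  have hσfix : ∀ t, 0 ≤ t → φ t σ = σ := by
    have h1 : σ ∈ closure {x ∈ maxInv φ | X x = 0} := hacc.clusterPt.mem_closure
    have h2 : closure {x ∈ maxInv φ | X x = 0} ⊆ {x : M | ∀ t : ℝ, 0 ≤ t → φ t x = x} :=
      closure_minimal (fun x hx => (X_eq_zero_iff H.c1 H.inward H.flow hx.1).1 hx.2) hcl
    exact h2 h1
  have hX : X σ = 0 := (X_eq_zero_iff H.c1 H.inward H.flow hσ).2 hσfix
  have hiso := IS_isolated H hσ hX
  rw [accPt_iff_frequently] at hacc
  obtain ⟨x, ⟨hne, hx⟩, hx2⟩ := (hacc.and_eventually hiso).exists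
  exact hne (hx2 ((X_eq_zero_iff H.c1 H.inward H.flow hx.1).1 hx.2 1 zero_le_one))

end VeniceMask
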