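import Pool.Agent.helper75.VM.M_SP2
import Pool.Agent.helper75.VM.M_IS
import Pool.Agent.helper75.VM.M_B0

/-!
# MP_509a24_an, module AF: the abstract flows
-/

open Set Filter Topology Bundle
open scoped ContDiff Manifold

namespace VeniceMask

universe u

variable {M : Type u} [TopologicalSpace M] [ChartedSpace (EuclideanHalfSpace 3) M]
  [IsManifold (𝓡∂ 3) ∞ M] [CompactSpace M] [T2Space M]
  {g : Metric3 M} {X : ∀ x : M, TS x} {φ : ℝ → M → M} {E F : ∀ x : M, Submodule ℝ (TS x)}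
  (H : Hyp g X φ E F)

include H in
omit [CompactSpace M] in
theorem AF_inv {t : ℝ} (ht : 0 ≤ t) (x : M) : G2 φ (-t) (G2 φ t x) = x := by
  rw [G2_nonneg ht]
  exact G2_neg H.c1 H.inward H.flow ht x

include H in
omit [CompactSpace M] in
/-- fixed by all forward times iff fixed by all times -/
theorem AF_fixed {x : M} (hx : x ∈ maxInv φ) : (∀ t, G2 φ t x = x) ↔ X x = 0 := by
  rw [X_eq_zero_iff H.c1 H.inward H.flow hx]
  constructor
  · intro h t ht
    rw [← G2_nonneg (φ := φ) ht]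
    exact h t
  · intro h t
    rcases le_total 0 t with ht | ht
    · rw [G2_nonneg ht]; exact h t ht
    · have h1 := AF_inv H (t := -t) (by linarith) x
      rw [G2_nonneg (by linarith : (0 : ℝ) ≤ -t), h (-t) (by linarith), neg_neg] at h1
      exact h1

/-- The abstract flow on the set `Ld φ E d`. -/
noncomputable def aflow (d : ℕ) : AFlow M where
  G := G2 φ
  L := Ld φ E d
  N := (Ld_open H d).choose
  zero' := fun x => by rw [G2_nonneg le_rfl]; exact H.flow.zero x
  add_nonneg' := fun s t hs ht x => by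
    rw [G2_nonneg hs, G2_nonneg ht, G2_nonneg (add_nonneg hs ht)]
    exact H.flow.add s t hs ht x
  inv' := fun t ht x => AF_inv H ht x
  cont_nonneg' := by
    apply (flow_cont H.flow).congr
    rintro ⟨t, x⟩ ⟨ht, -⟩
    exact G2_nonneg ht x
  compact' := Ld_compact H d
  mapsTo' := fun t x hx => Ld_inv H d hx t
  add' := fun s t x hx => G2_add H.c1 H.inward H.flow hx.1 s t
  cont' := (G2_cont H.c1 H.inward H.flow).mono (prod_mono_right (fun x hx => hx.1))
  open' := (Ld_open H d).choose_spec.1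
  sub' := fun x hx => by
    have h := (Ld_open H d).choose_spec.2
    rw [h] at hx
    exact hx.2
  max' := fun x hx h => by
    have h1 := (Ld_open H d).choose_spec.2
    rw [h1]
    refine ⟨mem_maxInv fun t ht => ?_, hx⟩
    obtain ⟨y, hy⟩ := h t ht
    exact ⟨y, by rw [← G2_nonneg (φ := φ) ht]; exact hy⟩
  sing' := by
    apply (sing_finite H).subset
    rintro x ⟨hx, h⟩
    exact ⟨hx.1, (AF_fixed H hx.1).1 h⟩

theorem aflow_G (d : ℕ) : (aflow H d).G = G2 φ := rfl

theorem aflow_L (d : ℕ) : (aflow H d).L = Ld φ E d := rfl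

theorem aflow_Sing (d : ℕ) {x : M} (hx : x ∈ Ld φ E d) :
    x ∈ (aflow H d).Sing ↔ X x = 0 := by
  rw [← AF_fixed H hx.1]
  constructor
  · intro h; exact h.2
  · intro h; exact ⟨hx, h⟩

theorem aflow_Ws (d : ℕ) (O : Set M) : (aflow H d).Ws O = stableSet φ O := by
  ext x
  constructor
  · intro h U hU hOU
    filter_upwards [h U hU hOU, eventually_ge_atTop (0 : ℝ)] with t ht ht0
    rw [← G2_nonneg (φ := φ) ht0]
    exact ht
  · intro h U hU hOU
    filter_upwards [h U hU hOU, eventually_ge_atTop (0 : ℝ)] with t ht ht0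
    show G2 φ t x ∈ U
    rw [G2_nonneg ht0]
    exact ht

omit [CompactSpace M] [T2Space M] in
theorem unstableSet_sub (O : Set M) : unstableSet φ O ⊆ maxInv φ := by
  rintro q ⟨γ, h0, hγ, -⟩
  apply mem_maxInv
  intro t ht
  refine ⟨γ (-t), ?_⟩
  rw [hγ (-t) t ht, neg_add_cancel, h0]

theorem aflow_Wu (d : ℕ) {O : Set M} (hO : O ⊆ Ld φ E d) :
    (aflow H d).Wu O = unstableSet φ O := by
  ext x
  constructor
  · rintro ⟨hx, h⟩
    refine ⟨fun t => G2 φ t x, ?_, ?_, h⟩
    · show G2 φ 0 x = x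
      rw [G2_nonneg le_rfl]; exact H.flow.zero x
    · intro s t ht
      show φ t (G2 φ s x) = G2 φ (s + t) x
      rw [add_comm s t, G2_add H.c1 H.inward H.flow hx.1 t s, G2_nonneg ht]
  · intro hx
    have hxΛ := unstableSet_sub O hx
    obtain ⟨γ, h0, hγ, hlim⟩ := hx
    -- `γ (-t) = G2 (-t) x`
    have hγG : ∀ t, 0 ≤ t → γ (-t) = G2 φ (-t) x := by
      intro t ht
      have h1 := hγ (-t) t ht
      rw [neg_add_cancel, h0] at h1
      rw [← h1]
      exact (G2_neg H.c1 H.inward H.flow ht _).symm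
    have hconv : ∀ U, IsOpen U → O ⊆ U → ∀ᶠ t in atTop, G2 φ (-t) x ∈ U := by
      intro U hU hOU
      filter_upwards [hlim U hU hOU, eventually_ge_atTop (0 : ℝ)] with t ht ht0
      rw [← hγG t ht0]
      exact ht
    refine ⟨?_, hconv⟩
    -- `x ∈ Ld`
    obtain ⟨N, hN, hNL⟩ := Ld_open H d
    have hON : O ⊆ N := fun y hy => by
      have := hO hy
      rw [hNL] at this
      exact this.2
    obtain ⟨t, ht⟩ := (hconv N hN hON).exists
    have h2 : G2 φ (-t) x ∈ Ld φ E d := by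
      rw [hNL]
      exact ⟨G2_mem H.c1 H.inward H.flow hxΛ _, ht⟩
    have h3 := Ld_inv H d h2 t
    rw [← G2_add H.c1 H.inward H.flow hxΛ, add_neg_cancel, G2_nonneg le_rfl,
      H.flow.zero] at h3
    exact h3

theorem aflow_WuSing (d : ℕ) : (aflow H d).WuSing ⊆ wuSing X φ := by
  intro x hx
  obtain ⟨σ, hσ, hxσ⟩ := mem_iUnion₂.1 hx
  have hσL : σ ∈ Ld φ E d := hσ.1
  have h0 : X σ = 0 := (aflow_Sing H d hσL).1 hσ
  rw [aflow_Wu H d (singleton_subset_iff.2 hσL)] at hxσ
  exact mem_biUnion (show σ ∈ {σ ∈ maxInv φ | X σ = 0} from ⟨hσL.1, h0⟩) hxσ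

omit [CompactSpace M] [T2Space M] [IsManifold (𝓡∂ 3) ∞ M] in
theorem AF_mul (h3 : IsFlowOf X φ) {p : M} {T : ℝ} (hT : 0 < T) (hp : φ T p = p) (n : ℕ) :
    φ (n * T) p = p := by
  induction n with
  | zero => simp [h3.zero]
  | succ n ih =>
    have e : ((n + 1 : ℕ) : ℝ) * T = T + n * T := by push_cast; ring
    rw [e, h3.add _ _ hT.le (by positivity), ih, hp]

omit [CompactSpace M] [T2Space M] in
theorem periodic_mem (h3 : IsFlowOf X φ) {O : Set M} {p : M} {T : ℝ}
    (hO : IsPeriodicOrbitOf X φ O p T) :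
    p ∈ maxInv φ := by
  obtain ⟨hT, hp, -, -⟩ := hO
  apply mem_maxInv
  intro t ht
  obtain ⟨n, hn⟩ := exists_nat_ge (t / T)
  rw [div_le_iff₀ hT] at hn
  refine ⟨φ (n * T - t) p, ?_⟩
  rw [← h3.add t (n * T - t) ht (by linarith)]
  have : t + (n * T - t) = n * T := by ring
  rw [this]
  exact AF_mul h3 hT hp n

theorem aflow_IsPer (d : ℕ) {O : Set M} {p : M} {T : ℝ} (hO : IsPeriodicOrbitOf X φ O p T)
    (hp : p ∈ Ld φ E d) : (aflow H d).IsPer O p T := by
  have hO' := hO
  obtain ⟨hT, hpT, hX, hOe⟩ := hO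
  refine ⟨hT, hp, ?_, ?_, ?_⟩
  · show G2 φ T p = p
    rw [G2_nonneg hT.le]; exact hpT
  · intro h
    exact hX ((aflow_Sing H d hp).1 h)
  · rw [hOe]
    ext x
    constructor
    · rintro ⟨t, ht, rfl⟩
      exact ⟨t, G2_nonneg ht p⟩
    · rintro ⟨t, rfl⟩
      -- reduce to a nonnegative time
      obtain ⟨n, hn⟩ := exists_nat_ge (-t / T)
      rw [div_le_iff₀ hT] at hn
      refine ⟨t + n * T, by linarith, ?_⟩
      show φ (t + n * T) p = G2 φ t p
      rw [← G2_nonneg (φ := φ) (by linarith : 0 ≤ t + n * T),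
        G2_add H.c1 H.inward H.flow hp.1 t (n * T),
        G2_nonneg (φ := φ) (show (0 : ℝ) ≤ n * T by positivity)]
      rw [AF_mul H.flow hT hpT n]

end VeniceMask
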