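import Pool.Agent.helper75.VM.M_BX2

/-!
# MP_509a24_an, module AR: areas in good boxes
-/

open Set Filter Topology Bundle
open scoped ContDiff Manifold

namespace VeniceMask

universe u

variable {M : Type u} [TopologicalSpace M] [ChartedSpace (EuclideanHalfSpace 3) M]
  [IsManifold (𝓡∂ 3) ∞ M] [CompactSpace M] [T2Space M]
  {g : Metric3 M} {X : ∀ x : M, TS x} {φ : ℝ → M → M} {E F : ∀ x : M, Submodule ℝ (TS x)}

/-- the compact parameter set -/
private def AR_K (δ : ℝ) : Set (V3 × ℝ) :=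
  (Icc (-δ) δ ×ˢ Metric.closedBall (0 : Q2) 1) ×ˢ Icc (-(1 / 4) : ℝ) (1 / 4)

private theorem AR_K_compact (δ : ℝ) : IsCompact (AR_K δ) :=
  (isCompact_Icc.prod (isCompact_closedBall _ _)).prod isCompact_Icc

/-- the area of the parallelogram spanned by the images of `(1,0,0)` and `(0,1,m)` -/
private noncomputable def AR_f (g : Metric3 M) (e : V3 → M) (p : V3 × ℝ) : ℝ :=
  area g (e p.1) (DP e p.1 (1, 0)) (DP e p.1 (0, 1, p.2))

omit [CompactSpace M] [T2Space M] in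
private theorem AR_cont {A : AFlow M} (g : Metric3 M) (B : FlowBox A) (hB : IsC1Param B.e) :
    ContinuousOn (AR_f g B.e) (AR_K B.δ) := by
  have hsrc : ∀ p ∈ AR_K B.δ, p.1 ∈ B.e.source := by
    rintro ⟨⟨t, q⟩, m⟩ ⟨⟨h1, h2⟩, -⟩
    exact B.src t q (abs_le.2 h1) (mem_closedBall_zero_iff.1 h2)
  rw [continuousOn_iff_continuous_domRestrict, continuous_iff_continuousAt]
  intro x₀
  have h1 : Tendsto (fun i : AR_K B.δ => i.1.1) (𝓝 x₀) (𝓝 x₀.1.1) :=
    (continuous_fst.comp continuous_subtype_val).tendsto x₀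
  have h2 : Tendsto (fun i : AR_K B.δ => i.1.2) (𝓝 x₀) (𝓝 x₀.1.2) :=
    (continuous_snd.comp continuous_subtype_val).tendsto x₀
  refine tendsto_area (M := M) (g := g) ?_ ?_
  · exact (hB.tendsto_iff (fun i : AR_K B.δ => hsrc i.1 i.2) (hsrc x₀.1 x₀.2)).2
      ⟨h1, tendsto_const_nhds⟩
  · exact (hB.tendsto_iff (fun i : AR_K B.δ => hsrc i.1 i.2) (hsrc x₀.1 x₀.2)).2
      ⟨h1, tendsto_const_nhds.prodMk_nhds (tendsto_const_nhds.prodMk_nhds h2)⟩

omit [CompactSpace M] [T2Space M] in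
private theorem AR_pos {A : AFlow M} (g : Metric3 M) (B : FlowBox A) (hB : IsC1Param B.e)
    {p : V3 × ℝ} (hp : p ∈ AR_K B.δ) : 0 < AR_f g B.e p := by
  obtain ⟨⟨t, q⟩, m⟩ := p
  obtain ⟨⟨h1, h2⟩, -⟩ := hp
  have hs : ((t, q) : V3) ∈ B.e.source :=
    B.src t q (abs_le.2 h1) (mem_closedBall_zero_iff.1 h2)
  have hinj := (hB.bij hs).1
  refine lt_of_le_of_ne (area_nonneg _ _ _ _) (fun h => ?_)
  have hu : DP B.e (t, q) (1, 0) ≠ 0 := by
    intro h0
    have : ((1, 0) : V3) = 0 := hinj (by rw [h0, map_zero])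
    have := congrArg Prod.fst this
    simp at this
  obtain ⟨c, hc⟩ := area_eq_zero _ _ _ _ hu h.symm
  rw [← map_smul] at hc
  have := congrArg (fun z : V3 => z.2.1) (hinj hc)
  simp at this

theorem GoodBox.area_compare (H : Hyp g X φ E F) {B : Box (aflow H 1)} (hB : GoodBox E F B) :
    ∃ C > 0, ∀ (t : ℝ) (q : Q2), |t| ≤ B.δ → ‖q‖ ≤ 1 → B.e (t, q) ∈ Ld φ E 1 →
      ∀ τ h : ℝ,
        |h| ≤ C * area g (B.e (t, q)) (X (B.e (t, q))) (DP B.e (t, q) (τ, h, B.m q * h)) ∧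
        area g (B.e (t, q)) (X (B.e (t, q))) (DP B.e (t, q) (τ, h, B.m q * h)) ≤ C * |h| := by
  have hne : (AR_K B.δ).Nonempty :=
    ⟨((0, 0), 0), ⟨⟨by linarith [B.δ_pos], B.δ_pos.le⟩, by simp⟩, by norm_num, by norm_num⟩
  obtain ⟨p₀, hp₀, hmin⟩ :=
    (AR_K_compact B.δ).exists_isMinOn hne (AR_cont g B.toFlowBox hB.c1)
  obtain ⟨p₁, hp₁, hmax⟩ :=
    (AR_K_compact B.δ).exists_isMaxOn hne (AR_cont g B.toFlowBox hB.c1)
  have hpos := AR_pos g B.toFlowBox hB.c1 hp₀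
  have hpos₁ := AR_pos g B.toFlowBox hB.c1 hp₁
  set m₀ := AR_f g B.e p₀ with hm₀
  set m₁ := AR_f g B.e p₁ with hm₁
  refine ⟨max m₀⁻¹ m₁, lt_max_of_lt_left (inv_pos.2 hpos), ?_⟩
  intro t q ht hq hL τ h
  have hL0 : B.e (0, q) ∈ (aflow H 1).L := (B.toFlowBox.mem_iff ht hq).1 hL
  have hpK : (((t, q), B.m q) : V3 × ℝ) ∈ AR_K B.δ :=
    ⟨⟨abs_le.1 ht, mem_closedBall_zero_iff.2 hq⟩, abs_le.1 (B.m_le q hq hL0)⟩
  have hXe : X (B.e (t, q)) = DP B.e (t, q) (1, 0) := by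
    have := flowBox_X B.toFlowBox hB.c1 ht hq 1
    rw [one_smul] at this
    exact this.symm
  have hdec : ((τ, h, B.m q * h) : V3) = h • ((0, 1, B.m q) : V3) + τ • ((1, 0) : V3) := by
    ext
    · simp
    · simp
    · simp [mul_comm]
  have key : area g (B.e (t, q)) (X (B.e (t, q))) (DP B.e (t, q) (τ, h, B.m q * h)) =
      |h| * AR_f g B.e ((t, q), B.m q) := by
    rw [hXe, hdec, map_add, map_smul, map_smul, area_add_smul, area_smul_right]
    rfl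
  rw [key]
  have h1 : m₀ ≤ AR_f g B.e ((t, q), B.m q) := hmin hpK
  have h2 : AR_f g B.e ((t, q), B.m q) ≤ m₁ := hmax hpK
  have hh := abs_nonneg h
  constructor
  · calc |h| = m₀⁻¹ * (|h| * m₀) := by field_simp
      _ ≤ max m₀⁻¹ m₁ * (|h| * AR_f g B.e ((t, q), B.m q)) := by
          refine mul_le_mul (le_max_left _ _) (mul_le_mul_of_nonneg_left h1 hh)
            (by positivity) ?_
          exact le_max_of_le_left (inv_pos.2 hpos).le
  · calc |h| * AR_f g B.e ((t, q), B.m q) ≤ |h| * max m₀⁻¹ m₁ :=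
          mul_le_mul_of_nonneg_left (h2.trans (le_max_right _ _)) hh
      _ = max m₀⁻¹ m₁ * |h| := mul_comm _ _

end VeniceMask
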