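import Pool.Agent.helper75.VM.M_MB2

/-!
# MP_509a24_an, module CH2: parametrisations and the tangent bundle
-/

open Set Filter Topology Bundle
open scoped ContDiff Manifold

namespace VeniceMask

universe u

variable {M : Type u} [TopologicalSpace M] [ChartedSpace (EuclideanHalfSpace 3) M]
  [IsManifold (𝓡∂ 3) ∞ M]

variable {V W : Type} [NormedAddCommGroup V] [NormedSpace ℝ V] [FiniteDimensional ℝ V]

omit [IsManifold (𝓡∂ 3) ∞ M] [FiniteDimensional ℝ V] in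
theorem CH2_mdiff {e : OpenPartialHomeomorph V M} (he : IsC1Param e) :
    e.MDifferentiable 𝓘(ℝ, V) (𝓡∂ 3) :=
  ⟨he.smooth.mdifferentiableOn one_ne_zero, he.smooth_symm.mdifferentiableOn one_ne_zero⟩

omit [IsManifold (𝓡∂ 3) ∞ M] [FiniteDimensional ℝ V] in
theorem IsC1Param.bij {e : OpenPartialHomeomorph V M} (he : IsC1Param e) {z : V}
    (hz : z ∈ e.source) : Function.Bijective (DP e z) :=
  (CH2_mdiff he).mfderiv_bijective hz

/-- convergence in the tangent bundle of a vector space -/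
theorem CH2_model {V : Type} [NormedAddCommGroup V] [NormedSpace ℝ V] {ι : Type*} {l : Filter ι}
    {z : ι → V} {z₀ : V} {ξ : ι → V} {ξ₀ : V} :
    Tendsto (fun i => (⟨z i, ξ i⟩ : TangentBundle 𝓘(ℝ, V) V)) l
      (𝓝 (⟨z₀, ξ₀⟩ : TangentBundle 𝓘(ℝ, V) V)) ↔ Tendsto z l (𝓝 z₀) ∧ Tendsto ξ l (𝓝 ξ₀) := by
  have h1 := (tangentBundleModelSpaceHomeomorph 𝓘(ℝ, V)).isInducing.tendsto_nhds_iff
    (l := l) (f := fun i => (⟨z i, ξ i⟩ : TangentBundle 𝓘(ℝ, V) V)) (y := ⟨z₀, ξ₀⟩)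
  rw [h1]
  have h2 : ((tangentBundleModelSpaceHomeomorph 𝓘(ℝ, V) : TangentBundle 𝓘(ℝ, V) V → ModelProd V V) ∘
      fun i => (⟨z i, ξ i⟩ : TangentBundle 𝓘(ℝ, V) V)) = fun i => (z i, ξ i) := rfl
  have h3 : (tangentBundleModelSpaceHomeomorph 𝓘(ℝ, V) : TangentBundle 𝓘(ℝ, V) V → ModelProd V V)
      ⟨z₀, ξ₀⟩ = (z₀, ξ₀) := rfl
  rw [h2, h3]
  exact Prod.tendsto_iff _ _

omit [FiniteDimensional ℝ V] in
theorem IsC1Param.tendsto_iff {e : OpenPartialHomeomorph V M} (he : IsC1Param e) {ι : Type*}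
    {l : Filter ι} {z : ι → V} {z₀ : V} (hz : ∀ i, z i ∈ e.source) (hz₀ : z₀ ∈ e.source)
    {ξ : ι → V} {ξ₀ : V} :
    Tendsto (fun i => (⟨e (z i), DP e (z i) (ξ i)⟩ : TM M)) l
        (𝓝 (⟨e z₀, DP e z₀ ξ₀⟩ : TM M)) ↔ Tendsto z l (𝓝 z₀) ∧ Tendsto ξ l (𝓝 ξ₀) := by
  constructor
  · intro h
    -- continuity of the tangent map of the inverse
    have hc := he.smooth_symm.continuousOn_tangentMapWithin le_rfl
      e.open_target.uniqueMDiffOn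
    have hval : ∀ y ∈ e.source, ∀ η : V,
        tangentMapWithin (𝓡∂ 3) 𝓘(ℝ, V) e.symm e.target (⟨e y, DP e y η⟩ : TM M) =
          (⟨y, η⟩ : TangentBundle 𝓘(ℝ, V) V) := by
      intro y hy η
      have h1 : mfderivWithin (𝓡∂ 3) 𝓘(ℝ, V) e.symm e.target (e y) =
          mfderiv (𝓡∂ 3) 𝓘(ℝ, V) e.symm (e y) :=
        mfderivWithin_of_isOpen e.open_target (e.map_source hy)
      have h2 := (CH2_mdiff he).symm_comp_deriv hy
      have h3 : (mfderiv (𝓡∂ 3) 𝓘(ℝ, V) e.symm (e y)) (DP e y η) = η :=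
        congrArg (fun L : V →L[ℝ] V => L η) h2
      have h4 : tangentMapWithin (𝓡∂ 3) 𝓘(ℝ, V) e.symm e.target (⟨e y, DP e y η⟩ : TM M) =
          (⟨e.symm (e y), mfderivWithin (𝓡∂ 3) 𝓘(ℝ, V) e.symm e.target (e y) (DP e y η)⟩ :
            TangentBundle 𝓘(ℝ, V) V) := rfl
      rw [h4, h1]
      have h5 : e.symm (e y) = y := e.left_inv hy
      refine TotalSpace.ext h5 ?_
      exact heq_of_eq h3
    have h1 : ContinuousWithinAt (tangentMapWithin (𝓡∂ 3) 𝓘(ℝ, V) e.symm e.target)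
        (TotalSpace.proj ⁻¹' e.target) (⟨e z₀, DP e z₀ ξ₀⟩ : TM M) :=
      hc _ (e.map_source hz₀)
    have h2 : Tendsto (fun i => (⟨e (z i), DP e (z i) (ξ i)⟩ : TM M)) l
        (𝓝[TotalSpace.proj ⁻¹' e.target] (⟨e z₀, DP e z₀ ξ₀⟩ : TM M)) :=
      tendsto_nhdsWithin_iff.2 ⟨h, Eventually.of_forall fun i => e.map_source (hz i)⟩
    have h3 := h1.tendsto.comp h2
    rw [hval z₀ hz₀ ξ₀] at h3
    have h4 : (tangentMapWithin (𝓡∂ 3) 𝓘(ℝ, V) e.symm e.target ∘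
        fun i => (⟨e (z i), DP e (z i) (ξ i)⟩ : TM M)) =
        fun i => (⟨z i, ξ i⟩ : TangentBundle 𝓘(ℝ, V) V) := by
      funext i
      exact hval (z i) (hz i) (ξ i)
    rw [h4] at h3
    exact CH2_model.1 h3
  · intro h
    have hc := he.smooth.continuousOn_tangentMapWithin le_rfl e.open_source.uniqueMDiffOn
    have hval : ∀ y ∈ e.source, ∀ η : V,
        tangentMapWithin 𝓘(ℝ, V) (𝓡∂ 3) e e.source (⟨y, η⟩ : TangentBundle 𝓘(ℝ, V) V) =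
          (⟨e y, DP e y η⟩ : TM M) := by
      intro y hy η
      have h1 : mfderivWithin 𝓘(ℝ, V) (𝓡∂ 3) e e.source y = mfderiv 𝓘(ℝ, V) (𝓡∂ 3) e y :=
        mfderivWithin_of_isOpen e.open_source hy
      have h4 : tangentMapWithin 𝓘(ℝ, V) (𝓡∂ 3) e e.source (⟨y, η⟩ : TangentBundle 𝓘(ℝ, V) V) =
          (⟨e y, mfderivWithin 𝓘(ℝ, V) (𝓡∂ 3) e e.source y η⟩ : TM M) := rfl
      rw [h4, h1]
      rfl
    have h1 : ContinuousWithinAt (tangentMapWithin 𝓘(ℝ, V) (𝓡∂ 3) e e.source)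
        (TotalSpace.proj ⁻¹' e.source) (⟨z₀, ξ₀⟩ : TangentBundle 𝓘(ℝ, V) V) :=
      hc _ hz₀
    have h2 : Tendsto (fun i => (⟨z i, ξ i⟩ : TangentBundle 𝓘(ℝ, V) V)) l
        (𝓝[TotalSpace.proj ⁻¹' e.source] (⟨z₀, ξ₀⟩ : TangentBundle 𝓘(ℝ, V) V)) :=
      tendsto_nhdsWithin_iff.2 ⟨CH2_model.2 h, Eventually.of_forall fun i => hz i⟩
    have h3 := h1.tendsto.comp h2
    rw [hval z₀ hz₀ ξ₀] at h3
    have h4 : (tangentMapWithin 𝓘(ℝ, V) (𝓡∂ 3) e e.source ∘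
        fun i => (⟨z i, ξ i⟩ : TangentBundle 𝓘(ℝ, V) V)) =
        fun i => (⟨e (z i), DP e (z i) (ξ i)⟩ : TM M) := by
      funext i
      exact hval (z i) (hz i) (ξ i)
    rwa [h4] at h3

theorem IsC1Param.norm_compare {e : OpenPartialHomeomorph V M} (he : IsC1Param e)
    (g : Metric3 M) {K : Set V} (hK : IsCompact K) (hKs : K ⊆ e.source) :
    ∃ C > 0, ∀ z ∈ K, ∀ ξ : V, ‖ξ‖ ≤ C * nrm g (e z) (DP e z ξ) ∧
      nrm g (e z) (DP e z ξ) ≤ C * ‖ξ‖ := by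
  have hKS : IsCompact (K ×ˢ Metric.sphere (0 : V) 1) := hK.prod (isCompact_sphere 0 1)
  have hcont : ContinuousOn (fun p : V × V => nrm g (e p.1) (DP e p.1 p.2))
      (K ×ˢ Metric.sphere (0 : V) 1) := by
    rw [continuousOn_iff_continuous_domRestrict, continuous_iff_continuousAt]
    intro p₀
    have h1 : Tendsto (fun p : ↥(K ×ˢ Metric.sphere (0 : V) 1) => (p : V × V).1)
        (𝓝 p₀) (𝓝 (p₀ : V × V).1) :=
      (continuous_fst.comp continuous_subtype_val).tendsto p₀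
    have h2 : Tendsto (fun p : ↥(K ×ˢ Metric.sphere (0 : V) 1) => (p : V × V).2)
        (𝓝 p₀) (𝓝 (p₀ : V × V).2) :=
      (continuous_snd.comp continuous_subtype_val).tendsto p₀
    have h3 := (he.tendsto_iff (z := fun p : ↥(K ×ˢ Metric.sphere (0 : V) 1) => (p : V × V).1)
      (ξ := fun p => (p : V × V).2) (fun p => hKs p.2.1) (hKs p₀.2.1)).2 ⟨h1, h2⟩
    exact tendsto_nrm g h3
  have hpos : ∀ p ∈ K ×ˢ Metric.sphere (0 : V) 1, 0 < nrm g (e p.1) (DP e p.1 p.2) := by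
    rintro ⟨z, ξ⟩ ⟨hz, hξ⟩
    refine lt_of_le_of_ne (nrm_nonneg g _ _) fun h => ?_
    have h1 : DP e z ξ = 0 := (nrm_eq_zero g _ _).1 h.symm
    have h2 : ξ = 0 := (he.bij (hKs hz)).1 (by rw [h1, map_zero])
    rw [h2] at hξ
    simp at hξ
  obtain ⟨a, ha, hle⟩ := hKS.exists_forall_le' hcont hpos
  obtain ⟨b, hb⟩ := hKS.bddAbove_image hcont
  have hb' : ∀ p ∈ K ×ˢ Metric.sphere (0 : V) 1, nrm g (e p.1) (DP e p.1 p.2) ≤ b :=
    fun p hp => hb ⟨p, hp, rfl⟩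
  refine ⟨max a⁻¹ b, lt_max_of_lt_left (inv_pos.2 ha), ?_⟩
  intro z hz ξ
  by_cases hξ : ξ = 0
  · subst hξ
    have h0 : nrm g (e z) (DP e z 0) = 0 := by
      rw [map_zero]; exact (nrm_eq_zero g _ _).2 rfl
    rw [h0, norm_zero, mul_zero]
    exact ⟨le_rfl, le_rfl⟩
  · have hn : 0 < ‖ξ‖ := norm_pos_iff.2 hξ
    have hu : (z, ‖ξ‖⁻¹ • ξ) ∈ K ×ˢ Metric.sphere (0 : V) 1 := by
      refine ⟨hz, ?_⟩
      rw [mem_sphere_zero_iff_norm]
      show ‖‖ξ‖⁻¹ • ξ‖ = 1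
      rw [norm_smul, norm_inv, norm_norm]
      exact inv_mul_cancel₀ hn.ne'
    have h1 : nrm g (e z) (DP e z ξ) = ‖ξ‖ * nrm g (e z) (DP e z (‖ξ‖⁻¹ • ξ)) := by
      have h2 : DP e z ξ = ‖ξ‖ • DP e z (‖ξ‖⁻¹ • ξ) := by
        rw [← map_smul, smul_smul, mul_inv_cancel₀ hn.ne', one_smul]
      conv_lhs => rw [h2]
      rw [nrm_smul, abs_of_pos hn]
    have h3 := hle _ hu
    have h4 := hb' _ hu
    simp only at h3 h4
    rw [h1]
    constructor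
    · have h5 : 1 ≤ max a⁻¹ b * nrm g (e z) (DP e z (‖ξ‖⁻¹ • ξ)) := by
        have h6 : a⁻¹ * a ≤ max a⁻¹ b * nrm g (e z) (DP e z (‖ξ‖⁻¹ • ξ)) :=
          mul_le_mul (le_max_left _ _) h3 ha.le
            (le_trans (inv_pos.2 ha).le (le_max_left _ _))
        rwa [inv_mul_cancel₀ ha.ne'] at h6
      calc ‖ξ‖ = 1 * ‖ξ‖ := (one_mul _).symm
        _ ≤ (max a⁻¹ b * nrm g (e z) (DP e z (‖ξ‖⁻¹ • ξ))) * ‖ξ‖ :=
          mul_le_mul_of_nonneg_right h5 hn.le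
        _ = _ := by ring
    · rw [mul_comm ‖ξ‖]
      exact mul_le_mul_of_nonneg_right (h4.trans (le_max_right _ _)) hn.le

end VeniceMask
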