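import Pool.Agent.helper75.VM.M_FB2
import Pool.Agent.helper75.VM.M_CH2

/-!
# MP_509a24_an, module BX1: slopes in small flow boxes
-/

open Set Filter Topology Bundle
open scoped ContDiff Manifold

namespace VeniceMask

universe u

section BX1aux

variable {M : Type u} [TopologicalSpace M] [ChartedSpace (EuclideanHalfSpace 3) M]

theorem BX1_mem_congr (F : ∀ x : M, Submodule ℝ (TS x)) {x y : M} (h : x = y) {v : TS x}
    {w : TS y} (hvw : (show E3 from v) = w) : v ∈ F x ↔ w ∈ F y := by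
  subst h
  have h' : v = w := hvw
  rw [h']

variable [IsManifold (𝓡∂ 3) ∞ M]

theorem BX1_cont {A : AFlow M} (B : FlowBox A) (hB : IsC1Param B.e) :
    ContinuousOn (fun p : Q2 × V3 => (⟨B.e (0, p.1), DP B.e (0, p.1) p.2⟩ : TM M))
      {p : Q2 × V3 | ‖p.1‖ ≤ 1} := by
  rw [continuousOn_iff_continuous_domRestrict, continuous_iff_continuousAt]
  intro p
  have h := (hB.tendsto_iff (l := 𝓝 p)
    (z := fun i : {p : Q2 × V3 | ‖p.1‖ ≤ 1} => ((0 : ℝ), i.1.1)) (z₀ := ((0 : ℝ), p.1.1))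
    (fun i => B.src 0 i.1.1 (by simpa using B.δ_pos.le) i.2)
    (B.src 0 p.1.1 (by simpa using B.δ_pos.le) p.2)
    (ξ := fun i : {p : Q2 × V3 | ‖p.1‖ ≤ 1} => i.1.2) (ξ₀ := p.1.2)).2
    ⟨by
      have : Continuous (fun i : {p : Q2 × V3 | ‖p.1‖ ≤ 1} => ((0 : ℝ), i.1.1)) := by fun_prop
      exact this.continuousAt, by
      have : Continuous (fun i : {p : Q2 × V3 | ‖p.1‖ ≤ 1} => i.1.2) := by fun_prop
      exact this.continuousAt⟩
  exact h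

theorem BX1_closed {A : AFlow M} (B : FlowBox A) (hB : IsC1Param B.e)
    (F : ∀ x : M, Submodule ℝ (TS x)) {Λ : Set M}
    (hcl : IsClosed {p : TM M | p.1 ∈ Λ ∧ p.2 ∈ F p.1}) :
    IsClosed {p : Q2 × V3 | ‖p.1‖ ≤ 1 ∧ B.pt p.1 ∈ Λ ∧
      DP B.e (0, p.1) p.2 ∈ F (B.e (0, p.1))} := by
  have h := (BX1_cont B hB).preimage_isClosed_of_isClosed
    (isClosed_le (by fun_prop) continuous_const) hcl
  exact h

theorem BX1_base_closed {A : AFlow M} (B : FlowBox A) (hB : IsC1Param B.e) {Λ : Set M}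
    (hcl : IsClosed Λ) : IsClosed {p : Q2 × V3 | ‖p.1‖ ≤ 1 ∧ B.pt p.1 ∈ Λ} := by
  have hc : ContinuousOn (fun p : Q2 × V3 => B.pt p.1) {p : Q2 × V3 | ‖p.1‖ ≤ 1} := by
    have h1 := BX1_cont B hB
    have h2 : Continuous (fun p : TM M => p.1) :=
      FiberBundle.continuous_proj E3 (fun x : M => TangentSpace (𝓡∂ 3) x)
    exact h2.comp_continuousOn h1
  exact hc.preimage_isClosed_of_isClosed (isClosed_le (by fun_prop) continuous_const) hcl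

/-- a closed set of pairs without unit vectors over `0` has none over a neighbourhood of `0` -/
theorem BX1_nhds {S : Set (Q2 × V3)} (hS : IsClosed S) (h1 : ∀ p ∈ S, ‖p.1‖ ≤ 1)
    (h2 : ∀ ξ : V3, ‖ξ‖ = 1 → ((0 : Q2), ξ) ∉ S) :
    ∃ ρ > 0, ρ ≤ 1 ∧ ∀ q : Q2, ‖q‖ ≤ ρ → ∀ ξ : V3, ‖ξ‖ = 1 → (q, ξ) ∉ S := by
  have hK : IsCompact (S ∩ {p : Q2 × V3 | ‖p.2‖ = 1}) := by
    have hcl : IsClosed (S ∩ {p : Q2 × V3 | ‖p.2‖ = 1}) :=
      hS.inter (isClosed_eq (by fun_prop) continuous_const)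
    refine (isCompact_closedBall (0 : Q2 × V3) 1).of_isClosed_subset hcl ?_
    rintro p ⟨hp, hp2⟩
    rw [mem_closedBall_zero_iff, Prod.norm_def]
    exact max_le (h1 p hp) (le_of_eq hp2)
  have hK' : IsClosed (Prod.fst '' (S ∩ {p : Q2 × V3 | ‖p.2‖ = 1})) :=
    (hK.image continuous_fst).isClosed
  have h0 : (0 : Q2) ∈ (Prod.fst '' (S ∩ {p : Q2 × V3 | ‖p.2‖ = 1}))ᶜ := by
    rintro ⟨p, ⟨hp, hp2⟩, hp3⟩
    apply h2 p.2 hp2
    rw [← hp3]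
    exact hp
  obtain ⟨r, hr, hball⟩ := Metric.isOpen_iff.1 hK'.isOpen_compl 0 h0
  refine ⟨min 1 (r / 2), lt_min one_pos (half_pos hr), min_le_left _ _, ?_⟩
  intro q hq ξ hξ hmem
  have hq' : q ∈ Metric.ball (0 : Q2) r := by
    rw [mem_ball_zero_iff]
    exact lt_of_le_of_lt (hq.trans (min_le_right _ _)) (half_lt_self hr)
  exact hball hq' ⟨(q, ξ), ⟨hmem, hξ⟩, rfl⟩

end BX1aux

variable {M : Type u} [TopologicalSpace M] [ChartedSpace (EuclideanHalfSpace 3) M]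
  [IsManifold (𝓡∂ 3) ∞ M] [CompactSpace M] [T2Space M]
  {g : Metric3 M} {X : ∀ x : M, TS x} {φ : ℝ → M → M} {E F : ∀ x : M, Submodule ℝ (TS x)}
  (H : Hyp g X φ E F)

section BX1cones

variable {w : M} (hw : w ∈ Ld φ E 1) (f e : TS w) (hf : f ∈ F w)
    (he : e ∈ E w) (hli : LinearIndependent ℝ ![X w, f, e]) (B : FlowBox (aflow H 1))
    (hB : IsC1Param B.e) (hBw : B.pt 0 = w) {ρ : ℝ} (hρ : 0 < ρ)
    (hD : ∀ ξ : V3, (show E3 from DP B.e (0, 0) ξ) =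
          (show E3 from ξ.1 • X w + (ρ * ξ.2.1) • f + (ρ * ξ.2.2) • e))

include hw hf he hli hB hBw hρ hD

theorem BX1_F0 {ξ : V3} (hξ : DP B.e (0, (0 : Q2)) ξ ∈ F (B.e (0, (0 : Q2)))) :
    ξ.2.2 = 0 := by
  have h1 : ξ.1 • X w + (ρ * ξ.2.1) • f + (ρ * ξ.2.2) • e ∈ F w :=
    (BX1_mem_congr F hBw (hD ξ)).1 hξ
  have hXF := X_mem_F H hw.1
  have h2 : (ρ * ξ.2.2) • e ∈ F w := by
    have h3 := Submodule.sub_mem _ h1 (Submodule.add_mem _ (Submodule.smul_mem _ ξ.1 hXF)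
      (Submodule.smul_mem _ (ρ * ξ.2.1) hf))
    simpa using h3
  have h3 : (ρ * ξ.2.2) • e ∈ E w := Submodule.smul_mem _ _ he
  have h4 := (Submodule.disjoint_def.1 (H.split.compl w hw.1).disjoint) _ h3 h2
  have h5 : e ≠ 0 := by
    have := hli.ne_zero 2
    simpa using this
  have h6 := (smul_eq_zero.1 h4).resolve_right h5
  exact (mul_eq_zero.1 h6).resolve_left hρ.ne'

theorem BX1_E0 {ξ : V3} (hξ : DP B.e (0, (0 : Q2)) ξ ∈ E (B.e (0, (0 : Q2)))) :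
    ξ.1 = 0 ∧ ξ.2.1 = 0 := by
  have h1 : ξ.1 • X w + (ρ * ξ.2.1) • f + (ρ * ξ.2.2) • e ∈ E w :=
    (BX1_mem_congr E hBw (hD ξ)).1 hξ
  have hXF := X_mem_F H hw.1
  have h2 : ξ.1 • X w + (ρ * ξ.2.1) • f ∈ E w := by
    have h3 := Submodule.sub_mem _ h1 (Submodule.smul_mem _ (ρ * ξ.2.2) he)
    simpa using h3
  have h3 : ξ.1 • X w + (ρ * ξ.2.1) • f ∈ F w :=
    Submodule.add_mem _ (Submodule.smul_mem _ ξ.1 hXF) (Submodule.smul_mem _ (ρ * ξ.2.1) hf)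
  have h4 := (Submodule.disjoint_def.1 (H.split.compl w hw.1).disjoint) _ h2 h3
  have h5 := Fintype.linearIndependent_iff.1 hli ![ξ.1, ρ * ξ.2.1, 0] (by
    simpa [Fin.sum_univ_three] using h4)
  have h6 := h5 0
  have h7 := h5 1
  simp at h6 h7
  exact ⟨h6, h7.resolve_left hρ.ne'⟩

/-- the cones near `0` -/
theorem BX1_cones : ∃ ρ₀ > 0, ρ₀ ≤ 1 ∧ ∀ q : Q2, ‖q‖ ≤ ρ₀ → B.pt q ∈ Ld φ E 1 →
    (∀ ξ : V3, ξ.1 = 0 → DP B.e (0, q) ξ ∈ F (B.e (0, q)) → |ξ.2.2| ≤ 1 / 4 * |ξ.2.1|) ∧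
    (∀ ξ : V3, DP B.e (0, q) ξ ∈ E (B.e (0, q)) → |ξ.2.1| ≤ 1 / 8 * |ξ.2.2|) := by
  have hFc := BX1_closed B hB F H.split.closedF
  have hEc := BX1_closed B hB E H.split.closedE
  obtain ⟨ρ₁, hρ₁, hρ₁1, h1⟩ := BX1_nhds (S := {p : Q2 × V3 | ‖p.1‖ ≤ 1 ∧ B.pt p.1 ∈ maxInv φ ∧
      DP B.e (0, p.1) p.2 ∈ F (B.e (0, p.1))} ∩
      {p : Q2 × V3 | p.2.1 = 0} ∩ {p : Q2 × V3 | 1 / 4 * |p.2.2.1| ≤ |p.2.2.2|})
    ((hFc.inter (isClosed_eq (by fun_prop) continuous_const)).inter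
      (isClosed_le (by fun_prop) (by fun_prop))) (fun p hp => hp.1.1.1) (by
      rintro ⟨t, h, v⟩ hn ⟨⟨⟨-, -, hF⟩, h0⟩, hle⟩
      have h2 := BX1_F0 H hw f e hf he hli B hB hBw hρ hD hF
      simp only [mem_ofPred_eq] at h0 hle h2
      subst h0
      subst h2
      have h3 : h = 0 := by
        have := abs_nonneg h
        simp only [abs_zero] at hle
        exact abs_eq_zero.1 (by linarith)
      subst h3
      simp at hn)
  obtain ⟨ρ₂, hρ₂, hρ₂1, h2⟩ := BX1_nhds (S := {p : Q2 × V3 | ‖p.1‖ ≤ 1 ∧ B.pt p.1 ∈ maxInv φ ∧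
      DP B.e (0, p.1) p.2 ∈ E (B.e (0, p.1))} ∩
      {p : Q2 × V3 | 1 / 8 * |p.2.2.2| ≤ |p.2.2.1|})
    (hEc.inter (isClosed_le (by fun_prop) (by fun_prop))) (fun p hp => hp.1.1) (by
      rintro ⟨t, h, v⟩ hn ⟨⟨-, -, hE⟩, hle⟩
      obtain ⟨h3, h4⟩ := BX1_E0 H hw f e hf he hli B hB hBw hρ hD hE
      simp only [mem_ofPred_eq] at h3 h4 hle
      subst h3
      subst h4
      have h3 : v = 0 := by
        have := abs_nonneg v
        simp only [abs_zero] at hle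
        exact abs_eq_zero.1 (by linarith)
      subst h3
      simp at hn)
  refine ⟨min ρ₁ ρ₂, lt_min hρ₁ hρ₂, (min_le_left _ _).trans hρ₁1, ?_⟩
  intro q hq hL
  constructor
  · intro ξ hξ0 hξ
    by_contra hcon
    push Not at hcon
    have hne : ‖ξ‖ ≠ 0 := by
      intro h
      rw [norm_eq_zero] at h
      subst h
      simp at hcon
    have hpos : 0 < ‖ξ‖ := lt_of_le_of_ne (norm_nonneg _) (Ne.symm hne)
    apply h1 q (hq.trans (min_le_left _ _)) (‖ξ‖⁻¹ • ξ)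
      (by rw [norm_smul, norm_inv, norm_norm, inv_mul_cancel₀ hne])
    refine ⟨⟨⟨(hq.trans (min_le_left _ _)).trans hρ₁1, hL.1, ?_⟩, ?_⟩, ?_⟩
    · show DP B.e (0, q) (‖ξ‖⁻¹ • ξ) ∈ F (B.e (0, q))
      rw [map_smul]
      exact Submodule.smul_mem _ _ hξ
    · show (‖ξ‖⁻¹ • ξ).1 = 0
      simp [hξ0]
    · show 1 / 4 * |(‖ξ‖⁻¹ • ξ).2.1| ≤ |(‖ξ‖⁻¹ • ξ).2.2|
      simp only [Prod.smul_snd, Prod.smul_fst, smul_eq_mul, abs_mul, abs_inv, abs_norm]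
      rw [← mul_assoc, mul_comm (1 / 4 : ℝ), mul_assoc]
      exact mul_le_mul_of_nonneg_left hcon.le (by positivity)
  · intro ξ hξ
    by_contra hcon
    push Not at hcon
    have hne : ‖ξ‖ ≠ 0 := by
      intro h
      rw [norm_eq_zero] at h
      subst h
      simp at hcon
    have hpos : 0 < ‖ξ‖ := lt_of_le_of_ne (norm_nonneg _) (Ne.symm hne)
    apply h2 q (hq.trans (min_le_right _ _)) (‖ξ‖⁻¹ • ξ)
      (by rw [norm_smul, norm_inv, norm_norm, inv_mul_cancel₀ hne])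
    refine ⟨⟨(hq.trans (min_le_right _ _)).trans hρ₂1, hL.1, ?_⟩, ?_⟩
    · show DP B.e (0, q) (‖ξ‖⁻¹ • ξ) ∈ E (B.e (0, q))
      rw [map_smul]
      exact Submodule.smul_mem _ _ hξ
    · show 1 / 8 * |(‖ξ‖⁻¹ • ξ).2.2| ≤ |(‖ξ‖⁻¹ • ξ).2.1|
      simp only [Prod.smul_snd, Prod.smul_fst, smul_eq_mul, abs_mul, abs_inv, abs_norm]
      rw [← mul_assoc, mul_comm (1 / 8 : ℝ), mul_assoc]
      exact mul_le_mul_of_nonneg_left hcon.le (by positivity)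

end BX1cones


section BX1slope

/-- existence of the slope at a point -/
theorem BX1_slope_exists (B : FlowBox (aflow H 1)) (hB : IsC1Param B.e) {q : Q2}
    (hq : ‖q‖ ≤ 1) (hL : B.pt q ∈ Ld φ E 1)
    (hc : ∀ ξ : V3, ξ.1 = 0 → DP B.e (0, q) ξ ∈ F (B.e (0, q)) → |ξ.2.2| ≤ 1 / 4 * |ξ.2.1|) :
    ∃ m : ℝ, DP B.e (0, q) (0, 1, m) ∈ F (B.e (0, q)) := by
  have hδ : |(0 : ℝ)| ≤ B.δ := by simpa using B.δ_pos.le
  have hbij := hB.bij (B.src 0 q hδ hq)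
  -- the submodule read in the box
  set S : Submodule ℝ V3 := (F (B.e (0, q))).comap (DP B.e (0, q) : V3 →ₗ[ℝ] TS (B.e (0, q)))
    with hS
  have hmem : ∀ ξ : V3, ξ ∈ S ↔ DP B.e (0, q) ξ ∈ F (B.e (0, q)) := fun ξ => Iff.rfl
  have hX1 : ((1 : ℝ), (0 : ℝ × ℝ)) ∈ S := by
    rw [hmem, flowBox_X B hB hδ hq 1]
    exact Submodule.smul_mem _ _ (X_mem_F H hL.1)
  have hrank : Module.finrank ℝ S = 2 := by
    have h1 : Module.finrank ℝ (F (B.e (0, q))) = 2 := by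
      have h2 := finrank_F H hL.1
      have h3 : Module.finrank ℝ (E (B.e (0, q))) = 1 := hL.2
      change Module.finrank ℝ (E (B.e (0, q))) + Module.finrank ℝ (F (B.e (0, q))) = 3 at h2
      omega
    let L : V3 ≃ₗ[ℝ] TS (B.e (0, q)) :=
      LinearEquiv.ofBijective (DP B.e (0, q) : V3 →ₗ[ℝ] TS (B.e (0, q))) hbij
    have h2 : S = (F (B.e (0, q))).map (L.symm : TS (B.e (0, q)) →ₗ[ℝ] V3) := by
      rw [← Submodule.comap_equiv_eq_map_symm]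
      rfl
    rw [h2, LinearEquiv.finrank_map_eq, h1]
  -- a vector of `S` outside the line of the field
  have hex : ∃ ξ ∈ S, ξ ∉ Submodule.span ℝ {((1 : ℝ), (0 : ℝ × ℝ))} := by
    by_contra hcon
    push Not at hcon
    have h1 : Module.finrank ℝ S ≤ Module.finrank ℝ (Submodule.span ℝ {((1 : ℝ), (0 : ℝ × ℝ))}) :=
      Submodule.finrank_mono hcon
    have h2 := finrank_span_singleton (K := ℝ) (v := ((1 : ℝ), (0 : ℝ × ℝ))) (by simp)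
    omega
  obtain ⟨ξ, hξ, hξn⟩ := hex
  have hξ' : ((0 : ℝ), ξ.2) ∈ S := by
    have h1 := Submodule.sub_mem _ hξ (Submodule.smul_mem _ ξ.1 hX1)
    have h2 : ξ - ξ.1 • ((1 : ℝ), (0 : ℝ × ℝ)) = ((0 : ℝ), ξ.2) := by
      ext <;> simp
    rwa [h2] at h1
  have hh : ξ.2.1 ≠ 0 := by
    intro h0
    have h1 := hc _ rfl ((hmem _).1 hξ')
    simp only [h0, abs_zero, mul_zero] at h1
    have h2 : ξ.2.2 = 0 := abs_eq_zero.1 (le_antisymm h1 (abs_nonneg _))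
    apply hξn
    rw [Submodule.mem_span_singleton]
    refine ⟨ξ.1, ?_⟩
    ext <;> simp [h0, h2]
  refine ⟨ξ.2.1⁻¹ * ξ.2.2, ?_⟩
  have h1 := Submodule.smul_mem _ ξ.2.1⁻¹ hξ'
  have h2 : ξ.2.1⁻¹ • ((0 : ℝ), ξ.2) = (0, 1, ξ.2.1⁻¹ * ξ.2.2) := by
    ext <;> simp [hh]
  rw [h2] at h1
  exact h1

open Classical in
/-- the slope -/
noncomputable def BX1_m (F : ∀ x : M, Submodule ℝ (TS x)) {A : AFlow M} (B : FlowBox A)
    (q : Q2) : ℝ :=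
  if h : ∃ m : ℝ, DP B.e (0, q) (0, 1, m) ∈ F (B.e (0, q)) then h.choose else 0

theorem BX1_m_spec (B : FlowBox (aflow H 1)) (hB : IsC1Param B.e) {q : Q2}
    (hq : ‖q‖ ≤ 1) (hL : B.pt q ∈ Ld φ E 1)
    (hc : ∀ ξ : V3, ξ.1 = 0 → DP B.e (0, q) ξ ∈ F (B.e (0, q)) → |ξ.2.2| ≤ 1 / 4 * |ξ.2.1|) :
    DP B.e (0, q) (0, 1, BX1_m F B q) ∈ F (B.e (0, q)) ∧ |BX1_m F B q| ≤ 1 / 4 ∧
      ∀ m : ℝ, DP B.e (0, q) (0, 1, m) ∈ F (B.e (0, q)) → m = BX1_m F B q := by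
  have h := BX1_slope_exists H B hB hq hL hc
  have h1 : DP B.e (0, q) (0, 1, BX1_m F B q) ∈ F (B.e (0, q)) := by
    rw [BX1_m, dif_pos h]
    exact h.choose_spec
  refine ⟨h1, by simpa using hc _ rfl h1, ?_⟩
  intro m hm
  have h2 := Submodule.sub_mem _ hm h1
  rw [← map_sub] at h2
  have h3 := hc _ (by simp) h2
  simp at h3
  linarith

/-- continuity of the slope -/
theorem BX1_m_cont (B : FlowBox (aflow H 1)) (hB : IsC1Param B.e) {ρ₀ : ℝ} (hρ₀ : ρ₀ ≤ 1)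
    (hc : ∀ q : Q2, ‖q‖ ≤ ρ₀ → B.pt q ∈ Ld φ E 1 → ∀ ξ : V3, ξ.1 = 0 →
      DP B.e (0, q) ξ ∈ F (B.e (0, q)) → |ξ.2.2| ≤ 1 / 4 * |ξ.2.1|) :
    ContinuousOn (BX1_m F B) {q | ‖q‖ ≤ ρ₀ ∧ B.pt q ∈ Ld φ E 1} := by
  have hFc := BX1_closed B hB F H.split.closedF
  intro q hq
  rw [ContinuousWithinAt, tendsto_iff_ultrafilter]
  intro 𝒰 h𝒰
  have hS : {q | ‖q‖ ≤ ρ₀ ∧ B.pt q ∈ Ld φ E 1} ∈ 𝒰 := h𝒰 self_mem_nhdsWithin
  have hq' : Tendsto (fun q : Q2 => q) (𝒰 : Filter Q2) (𝓝 q) := h𝒰.trans nhdsWithin_le_nhds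
  have hmem : ∀ᶠ q' in (𝒰 : Filter Q2), BX1_m F B q' ∈ Icc (-(1 / 4) : ℝ) (1 / 4) := by
    filter_upwards [hS] with q' h'
    exact abs_le.1 (BX1_m_spec H B hB (h'.1.trans hρ₀) h'.2 (hc q' h'.1 h'.2)).2.1
  obtain ⟨m₀, hm₀, hlim⟩ := isCompact_Icc.ultrafilter_le_nhds (𝒰.map (BX1_m F B)) (by
    rw [le_principal_iff]
    exact hmem)
  have hlim' : Tendsto (BX1_m F B) (𝒰 : Filter Q2) (𝓝 m₀) := hlim
  have ht : Tendsto (fun q' : Q2 => ((q', ((0 : ℝ), (1 : ℝ), BX1_m F B q')) : Q2 × V3))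
      (𝒰 : Filter Q2) (𝓝 (q, ((0 : ℝ), (1 : ℝ), m₀))) :=
    hq'.prodMk_nhds (tendsto_const_nhds.prodMk_nhds (tendsto_const_nhds.prodMk_nhds hlim'))
  have h1 := hFc.mem_of_tendsto ht (by
    filter_upwards [hS] with q' h'
    exact ⟨h'.1.trans hρ₀, h'.2.1,
      (BX1_m_spec H B hB (h'.1.trans hρ₀) h'.2 (hc q' h'.1 h'.2)).1⟩)
  have h2 := (BX1_m_spec H B hB (hq.1.trans hρ₀) hq.2 (hc q hq.1 hq.2)).2.2 m₀ h1.2.2
  rw [← h2]
  exact hlim'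

end BX1slope

/-- a small enough rescaling of an adapted flow box carries a good box -/
theorem exists_slopes {w : M} (hw : w ∈ Ld φ E 1) (hX : X w ≠ 0) (f e : TS w) (hf : f ∈ F w)
    (he : e ∈ E w) (hli : LinearIndependent ℝ ![X w, f, e]) (B : FlowBox (aflow H 1))
    (hB : IsC1Param B.e) (hBw : B.pt 0 = w) {ρ : ℝ} (hρ : 0 < ρ)
    (hD : ∀ ξ : V3, (show E3 from DP B.e (0, 0) ξ) =
          (show E3 from ξ.1 • X w + (ρ * ξ.2.1) • f + (ρ * ξ.2.2) • e)) :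
    ∃ ρ₀ > 0, ρ₀ ≤ 1 ∧ ∀ B' : FlowBox (aflow H 1), IsC1Param B'.e → B'.δ ≤ B.δ →
      ∀ ρ' : ℝ, 0 < ρ' → ρ' ≤ ρ₀ → (∀ z : V3, B'.e z = B.e (z.1, ρ' • z.2)) →
      (∀ z ξ : V3, z ∈ B'.e.source →
        (show E3 from DP B'.e z ξ) = DP B.e (z.1, ρ' • z.2) (ξ.1, ρ' • ξ.2)) →
      ∃ B'' : Box (aflow H 1), B''.toFlowBox = B' ∧ GoodBox E F B'' := by
  obtain ⟨ρ₀, hρ₀, hρ₀1, hcone⟩ := BX1_cones H hw f e hf he hli B hB hBw hρ hD
  refine ⟨ρ₀, hρ₀, hρ₀1, ?_⟩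
  intro B' hB' _ ρ' hρ' hρ'ρ hz hDP
  have hc : ∀ q : Q2, ‖q‖ ≤ ρ₀ → B.pt q ∈ Ld φ E 1 → ∀ ξ : V3, ξ.1 = 0 →
      DP B.e (0, q) ξ ∈ F (B.e (0, q)) → |ξ.2.2| ≤ 1 / 4 * |ξ.2.1| :=
    fun q h1 h2 => (hcone q h1 h2).1
  have hsc : ∀ q : Q2, ‖q‖ ≤ 1 → ‖ρ' • q‖ ≤ ρ₀ := by
    intro q hq
    rw [norm_smul, Real.norm_eq_abs, abs_of_pos hρ']
    calc ρ' * ‖q‖ ≤ ρ' * 1 := mul_le_mul_of_nonneg_left hq hρ'.le
      _ ≤ ρ₀ := by rw [mul_one]; exact hρ'ρ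
  have hpt : ∀ q : Q2, B'.pt q = B.pt (ρ' • q) := fun q => hz (0, q)
  have hδ' : |(0 : ℝ)| ≤ B'.δ := by simpa using B'.δ_pos.le
  have hD0 : ∀ q : Q2, ‖q‖ ≤ 1 → ∀ ξ : V3,
      (show E3 from DP B'.e (0, q) ξ) = DP B.e (0, ρ' • q) (ξ.1, ρ' • ξ.2) :=
    fun q hq ξ => hDP (0, q) ξ (B'.src 0 q hδ' hq)
  have hspec : ∀ q : Q2, ‖q‖ ≤ 1 → B'.pt q ∈ Ld φ E 1 →
      DP B.e (0, ρ' • q) (0, 1, BX1_m F B (ρ' • q)) ∈ F (B.e (0, ρ' • q)) ∧
        |BX1_m F B (ρ' • q)| ≤ 1 / 4 := by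
    intro q hq hL
    rw [hpt] at hL
    have h1 := BX1_m_spec H B hB ((hsc q hq).trans hρ₀1) hL (hc _ (hsc q hq) hL)
    exact ⟨h1.1, h1.2.1⟩
  refine ⟨{ toFlowBox := B'
            m := fun q => BX1_m F B (ρ' • q)
            m_cont := ?_
            m_le := ?_ }, rfl, ?_⟩
  · have h1 := BX1_m_cont H B hB hρ₀1 hc
    refine h1.comp (f := fun q : Q2 => ρ' • q) (by fun_prop) ?_
    rintro q ⟨hq, hL⟩
    refine ⟨hsc q hq, ?_⟩
    rw [← hpt]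
    exact hL
  · intro q hq hL
    exact (hspec q hq hL).2
  · refine ⟨hB', ?_, ?_⟩
    · intro t q ht hq hL τ h
      show DP B'.e (t, q) (τ, h, BX1_m F B (ρ' • q) * h) ∈ F (B'.e (t, q))
      change B'.e (t, q) ∈ Ld φ E 1 at hL
      change |t| ≤ B'.δ at ht
      have hL0 : B'.pt q ∈ Ld φ E 1 := (B'.mem_iff ht hq).1 hL
      have h0 : DP B'.e (0, q) (0, h, BX1_m F B (ρ' • q) * h) ∈ F (B'.e (0, q)) := by
        refine (BX1_mem_congr F (hpt q) (hD0 q hq _)).2 ?_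
        have h1 := Submodule.smul_mem _ (ρ' * h) (hspec q hq hL0).1
        rw [← map_smul] at h1
        have h2 : (ρ' * h) • (((0 : ℝ), (1 : ℝ), BX1_m F B (ρ' • q)) : V3) =
            (((0 : ℝ), h, BX1_m F B (ρ' • q) * h).1,
              ρ' • ((0 : ℝ), h, BX1_m F B (ρ' • q) * h).2) := by
          ext
          · simp
          · simp
          · simp
            ring
        rw [h2] at h1
        exact h1
      have hsplit : (τ, h, BX1_m F B (ρ' • q) * h) =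
          ((τ, 0) : V3) + (0, h, BX1_m F B (ρ' • q) * h) := by
        ext <;> simp
      rw [hsplit, map_add]
      refine Submodule.add_mem _ ?_ ?_
      · rw [flowBox_X B' hB' ht hq τ]
        exact Submodule.smul_mem _ _ (X_mem_F H hL.1)
      · rcases le_total 0 t with h0t | h0t
        · have h3 := flowBox_D B' hB' (t := 0) (s := t) hδ' (by simpa using ht) h0t hq
            (0, h, BX1_m F B (ρ' • q) * h)
          have h4 := H.split.invF _ hL0.1 t h0t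
          have h5 : D φ t (B'.pt q) (DP B'.e (0, q) (0, h, BX1_m F B (ρ' • q) * h)) ∈
              F (φ t (B'.pt q)) := by
            rw [← h4]
            exact Submodule.mem_map_of_mem h0
          have h6 : φ t (B'.pt q) = B'.e (t, q) := by
            have h7 := B'.G_pt ht hq hL0
            rw [← h7, aflow_G, G2_nonneg h0t]
          refine (BX1_mem_congr F h6 ?_).1 h5
          have h8 : ((0 : ℝ) + t, q) = (t, q) := by rw [zero_add]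
          rw [h8] at h3
          exact h3
        · have hs : 0 ≤ -t := by linarith
          have h3 := flowBox_D B' hB' (t := t) (s := -t) ht (by simpa using hδ') hs hq
            (0, h, BX1_m F B (ρ' • q) * h)
          have h4 := H.split.invF _ hL.1 (-t) hs
          have h6 : φ (-t) (B'.e (t, q)) = B'.e (0, q) := by
            have h7 := B'.pt_eq ht hq hL
            rw [aflow_G, G2_nonneg hs] at h7
            exact h7.symm
          have h8 : (t + -t, q) = ((0 : ℝ), q) := by rw [add_neg_cancel]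
          rw [h8] at h3
          have h9 : D φ (-t) (B'.e (t, q)) (DP B'.e (t, q) (0, h, BX1_m F B (ρ' • q) * h)) ∈
              F (φ (-t) (B'.e (t, q))) := (BX1_mem_congr F h6 h3).2 h0
          rw [← h4] at h9
          obtain ⟨v, hv, hv2⟩ := h9
          have h10 := (D_bijective H.c1 H.inward H.flow hs hL.1).1 hv2
          rw [← h10]
          exact hv
    · intro q hq hL ξ hξ
      change B'.pt q ∈ Ld φ E 1 at hL
      change DP B'.e (0, q) ξ ∈ E (B'.e (0, q)) at hξ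
      have h1 := (BX1_mem_congr E (hpt q) (hD0 q hq ξ)).1 hξ
      rw [hpt] at hL
      have h2 := (hcone _ (hsc q hq) hL).2 _ h1
      simp only [Prod.smul_fst, Prod.smul_snd, smul_eq_mul, abs_mul, abs_of_pos hρ'] at h2
      have h3 : ρ' * |ξ.2.1| ≤ ρ' * (1 / 8 * |ξ.2.2|) := by linarith
      exact le_of_mul_le_mul_left h3 hρ'

end VeniceMask
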