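import Pool.Agent.helper75.VM.M_FL1

/-!
# MP_509a24_an, module CO1: the derivative cocycle
-/

open Set Filter Topology Bundle
open scoped ContDiff Manifold

namespace VeniceMask

universe u

variable {M : Type u} [TopologicalSpace M] [ChartedSpace (EuclideanHalfSpace 3) M]
  [IsManifold (𝓡∂ 3) ∞ M] {X : ∀ x : M, TS x} {φ : ℝ → M → M}

theorem flow_smooth_at (h3 : IsFlowOf X φ) {t : ℝ} (ht : 0 ≤ t) (x : M) :
    ContMDiffAt (𝓡∂ 3) (𝓡∂ 3) 1 (φ t) x := by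
  have h : ContMDiffOn (𝓡∂ 3) (𝓡∂ 3) 1 (fun y : M => φ t y) univ :=
    h3.smooth.comp ((contMDiff_const (c := t)).prodMk contMDiff_id).contMDiffOn
      (fun y _ => ⟨ht, trivial⟩)
  exact h.contMDiffAt univ_mem

theorem flow_joint_smooth (h3 : IsFlowOf X φ) {t : ℝ} (ht : 0 < t) (x : M) :
    ContMDiffAt (𝓘(ℝ, ℝ).prod (𝓡∂ 3)) (𝓡∂ 3) 1 (fun p : ℝ × M => φ p.1 p.2) (t, x) :=
  h3.smooth.contMDiffAt (prod_mem_nhds (Ici_mem_nhds ht) univ_mem)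

theorem flow_time_deriv (h3 : IsFlowOf X φ) {t : ℝ} (ht : 0 < t) (x : M) :
    HasMFDerivAt 𝓘(ℝ, ℝ) (𝓡∂ 3) (fun s => φ s x) t
      ((1 : ℝ →L[ℝ] ℝ).smulRight (X (φ t x))) :=
  (h3.integral x t ht.le).hasMFDerivAt (Ici_mem_nhds ht)

theorem D_zero (h3 : IsFlowOf X φ) (x : M) (v : TS x) :
    (show E3 from D φ 0 x v) = v := by
  have key : ∀ f : M → M, f = id →
      (show E3 from mfderiv (𝓡∂ 3) (𝓡∂ 3) f x v) = (show E3 from v) := by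
    intro f hf
    subst hf
    rw [mfderiv_id]
    rfl
  exact key (φ 0) (funext h3.zero)

theorem D_add (h3 : IsFlowOf X φ) {s t : ℝ} (hs : 0 ≤ s) (ht : 0 ≤ t) (x : M) (v : TS x) :
    (show E3 from D φ (s + t) x v) = D φ s (φ t x) (D φ t x v) := by
  have key : ∀ f : M → M, f = φ s ∘ φ t →
      (show E3 from mfderiv (𝓡∂ 3) (𝓡∂ 3) f x v)
        = (show E3 from mfderiv (𝓡∂ 3) (𝓡∂ 3) (φ s) (φ t x)
          (mfderiv (𝓡∂ 3) (𝓡∂ 3) (φ t) x v)) := by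
    intro f hf
    subst hf
    rw [mfderiv_comp x ((flow_smooth_at h3 hs _).mdifferentiableAt (by norm_num))
      ((flow_smooth_at h3 ht _).mdifferentiableAt (by norm_num))]
    rfl
  exact key (φ (s + t)) (funext fun y => h3.add s t hs ht y)

theorem D_X (h1 : IsC1Field X) (h2 : IsInward X) (h3 : IsFlowOf X φ) {t : ℝ} (ht : 0 ≤ t)
    (x : M) : D φ t x (X x) = X (φ t x) := by
  have h0 : HasMFDerivWithinAt 𝓘(ℝ, ℝ) (𝓡∂ 3) (fun s => φ s x) (Ici (0 : ℝ)) 0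
      ((1 : ℝ →L[ℝ] ℝ).smulRight (X (φ 0 x))) := h3.integral x 0 (by simp)
  have hA : HasMFDerivWithinAt 𝓘(ℝ, ℝ) (𝓡∂ 3) (fun s => φ t (φ s x)) (Ici (0 : ℝ)) 0
      ((mfderiv (𝓡∂ 3) (𝓡∂ 3) (φ t) (φ 0 x)).comp ((1 : ℝ →L[ℝ] ℝ).smulRight (X (φ 0 x)))) :=
    HasMFDerivAt.comp_hasMFDerivWithinAt (0 : ℝ)
      ((flow_smooth_at h3 ht (φ 0 x)).mdifferentiableAt (by norm_num)).hasMFDerivAt h0
  have h1' : HasMFDerivWithinAt 𝓘(ℝ, ℝ) (𝓡∂ 3) (fun s => φ s x) (Ici (0 : ℝ)) (t + 0)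
      ((1 : ℝ →L[ℝ] ℝ).smulRight (X (φ (t + 0) x))) := h3.integral x (t + 0) (by simpa using ht)
  have hadd : HasMFDerivWithinAt 𝓘(ℝ, ℝ) 𝓘(ℝ, ℝ) (fun s : ℝ => t + s) (Ici (0 : ℝ)) 0
      (ContinuousLinearMap.id ℝ ℝ) := by
    apply HasFDerivWithinAt.hasMFDerivWithinAt
    exact ((hasFDerivWithinAt_id (0 : ℝ) (Ici 0)).const_add t)
  have hB : HasMFDerivWithinAt 𝓘(ℝ, ℝ) (𝓡∂ 3) (fun s => φ (t + s) x) (Ici (0 : ℝ)) 0
      (((1 : ℝ →L[ℝ] ℝ).smulRight (X (φ (t + 0) x))).comp (ContinuousLinearMap.id ℝ ℝ)) :=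
    HasMFDerivWithinAt.comp (0 : ℝ) h1' hadd (fun s hs => by
      simp only [mem_Ici, mem_preimage] at hs ⊢; linarith)
  have hB' : HasMFDerivWithinAt 𝓘(ℝ, ℝ) (𝓡∂ 3) (fun s => φ t (φ s x)) (Ici (0 : ℝ)) 0
      (((1 : ℝ →L[ℝ] ℝ).smulRight (X (φ (t + 0) x))).comp (ContinuousLinearMap.id ℝ ℝ)) := by
    refine hB.congr_of_eventuallyEq ?_ ?_
    · filter_upwards [self_mem_nhdsWithin] with s hs
      exact (h3.add t s ht hs x).symm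
    · exact (h3.add t 0 ht le_rfl x).symm
  have hu : UniqueMDiffWithinAt 𝓘(ℝ, ℝ) (Ici (0 : ℝ)) 0 :=
    (uniqueDiffOn_Ici (0 : ℝ) 0 (by simp)).uniqueMDiffWithinAt
  have heq := UniqueMDiffWithinAt.eq hu hA hB'
  have h5 := congrArg (fun L : ℝ →L[ℝ] E3 => L 1) heq
  have h6 : (show E3 from mfderiv (𝓡∂ 3) (𝓡∂ 3) (φ t) (φ 0 x) (X (φ 0 x)))
      = (show E3 from X (φ (t + 0) x)) := by
    have h7 : (show E3 from mfderiv (𝓡∂ 3) (𝓡∂ 3) (φ t) (φ 0 x) ((1 : ℝ) • X (φ 0 x)))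
      = (show E3 from (1 : ℝ) • X (φ (t + 0) x)) := h5
    rw [one_smul] at h7
    simpa using h7
  have key : ∀ y : M, y = x → ∀ r : ℝ, r = t →
      (show E3 from mfderiv (𝓡∂ 3) (𝓡∂ 3) (φ t) y (X y)) = (show E3 from X (φ r x)) →
      (show E3 from mfderiv (𝓡∂ 3) (𝓡∂ 3) (φ t) x (X x)) = (show E3 from X (φ t x)) := by
    intro y hy r hr h
    subst hy
    subst hr
    exact h
  exact key (φ 0 x) (h3.zero x) (t + 0) (add_zero t) h6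

theorem X_cont (h1 : IsC1Field X) : Continuous (fun x => (⟨x, X x⟩ : TM M)) :=
  ContMDiff.continuous h1

end VeniceMask
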