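import Pool.Agent.helper75.VM.M_CH2

/-!
# MP_509a24_an, module CH3: maps read in parametrisations
-/

open Set Filter Topology Bundle
open scoped ContDiff Manifold

namespace VeniceMask

universe u

variable {M : Type u} [TopologicalSpace M] [ChartedSpace (EuclideanHalfSpace 3) M]
  [IsManifold (𝓡∂ 3) ∞ M]

variable {V W : Type} [NormedAddCommGroup V] [NormedSpace ℝ V] [FiniteDimensional ℝ V]
  [NormedAddCommGroup W] [NormedSpace ℝ W] [FiniteDimensional ℝ W]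

/-- a `C¹` map read in two parametrisations -/
theorem IsC1Param.rep {e : OpenPartialHomeomorph V M} (he : IsC1Param e)
    {e' : OpenPartialHomeomorph W M} (he' : IsC1Param e') {f : M → M} {z : V}
    (hz : z ∈ e.source) (hf : ContMDiffAt (𝓡∂ 3) (𝓡∂ 3) 1 f (e z)) (hfz : f (e z) ∈ e'.target) :
    ContDiffAt ℝ 1 (fun y => e'.symm (f (e y))) z ∧ ∀ ξ : V,
      (show E3 from DP e' (e'.symm (f (e z))) (fderiv ℝ (fun y => e'.symm (f (e y))) z ξ)) =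
        mfderiv (𝓡∂ 3) (𝓡∂ 3) f (e z) (DP e z ξ) := by
  have : IsManifold (𝓡∂ 3) 1 M := IsManifold.of_le (n := ∞) (by decide)
  have h1 : ContMDiffAt 𝓘(ℝ, V) (𝓡∂ 3) 1 e z :=
    (he.smooth z hz).contMDiffAt (e.open_source.mem_nhds hz)
  have h2 : ContMDiffAt (𝓡∂ 3) 𝓘(ℝ, W) 1 e'.symm (f (e z)) :=
    (he'.smooth_symm _ hfz).contMDiffAt (e'.open_target.mem_nhds hfz)
  have h3 : ContMDiffAt 𝓘(ℝ, V) (𝓡∂ 3) 1 (fun y => f (e y)) z := hf.comp z h1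
  have h4 : ContMDiffAt 𝓘(ℝ, V) 𝓘(ℝ, W) 1 (fun y => e'.symm (f (e y))) z := h2.comp z h3
  have hw : e'.symm (f (e z)) ∈ e'.source := e'.map_target hfz
  have h5 : ContMDiffAt 𝓘(ℝ, W) (𝓡∂ 3) 1 e' (e'.symm (f (e z))) :=
    (he'.smooth _ hw).contMDiffAt (e'.open_source.mem_nhds hw)
  refine ⟨contMDiffAt_iff_contDiffAt.1 h4, fun ξ => ?_⟩
  set g : V → W := fun y => e'.symm (f (e y)) with hg
  have hc1 : mfderiv 𝓘(ℝ, V) (𝓡∂ 3) (e' ∘ g) z =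
      (mfderiv 𝓘(ℝ, W) (𝓡∂ 3) e' (g z)).comp (mfderiv 𝓘(ℝ, V) 𝓘(ℝ, W) g z) :=
    mfderiv_comp z (h5.mdifferentiableAt one_ne_zero) (h4.mdifferentiableAt one_ne_zero)
  have hc2 : mfderiv 𝓘(ℝ, V) (𝓡∂ 3) (f ∘ e) z =
      (mfderiv (𝓡∂ 3) (𝓡∂ 3) f (e z)).comp (mfderiv 𝓘(ℝ, V) (𝓡∂ 3) e z) :=
    mfderiv_comp z (hf.mdifferentiableAt one_ne_zero) (h1.mdifferentiableAt one_ne_zero)
  have hev : (e' ∘ g) =ᶠ[𝓝 z] (f ∘ e) := by
    have : ∀ᶠ y in 𝓝 z, f (e y) ∈ e'.target :=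
      h3.continuousAt.eventually (e'.open_target.mem_nhds hfz)
    filter_upwards [this] with y hy
    exact e'.right_inv hy
  have hc3 := hev.mfderiv_eq (I := 𝓘(ℝ, V)) (I' := 𝓡∂ 3)
  have hgd : mfderiv 𝓘(ℝ, V) 𝓘(ℝ, W) g z = fderiv ℝ g z := mfderiv_eq_fderiv
  have e1 : (show E3 from mfderiv 𝓘(ℝ, V) (𝓡∂ 3) (e' ∘ g) z ξ) =
      (show E3 from mfderiv 𝓘(ℝ, V) (𝓡∂ 3) (f ∘ e) z ξ) := by
    exact congrArg (fun L : V →L[ℝ] E3 => L ξ) hc3
  have e2 : (show E3 from mfderiv 𝓘(ℝ, V) (𝓡∂ 3) (e' ∘ g) z ξ) =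
      (show E3 from DP e' (g z) (fderiv ℝ g z ξ)) := by
    rw [hc1, hgd]
    rfl
  have e3 : (show E3 from mfderiv 𝓘(ℝ, V) (𝓡∂ 3) (f ∘ e) z ξ) =
      (show E3 from mfderiv (𝓡∂ 3) (𝓡∂ 3) f (e z) (DP e z ξ)) := by
    rw [hc2]
    rfl
  exact e2.symm.trans (e1.trans e3)

/-- change of parametrisation -/
theorem IsC1Param.change {e : OpenPartialHomeomorph V M} (he : IsC1Param e)
    {e' : OpenPartialHomeomorph W M} (he' : IsC1Param e') {z : V}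
    (hz : z ∈ e.source) (hz' : e z ∈ e'.target) :
    ContDiffAt ℝ 1 (fun y => e'.symm (e y)) z ∧ ∀ ξ : V,
      (show E3 from DP e' (e'.symm (e z)) (fderiv ℝ (fun y => e'.symm (e y)) z ξ)) =
        DP e z ξ := by
  obtain ⟨h1, h2⟩ := he.rep he' (f := id) hz contMDiffAt_id hz'
  refine ⟨h1, fun ξ => (h2 ξ).trans ?_⟩
  rw [mfderiv_id]
  rfl

/-- uniform strict differentiability of a `C¹` map on a compact set -/
theorem uniform_strict {f : V → W} {K : Set V} (hK : IsCompact K)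
    (hf : ∀ z ∈ K, ContDiffAt ℝ 1 f z) {ε : ℝ} (hε : 0 < ε) :
    ∃ r > 0, ∀ z ∈ K, ∀ y y' : V, ‖y - z‖ ≤ r → ‖y' - z‖ ≤ r →
      ‖f y - f y' - fderiv ℝ f z (y - y')‖ ≤ ε * ‖y - y'‖ := by
  have key : ∀ z : K, ∃ δ > 0, (∀ y ∈ Metric.ball (z : V) δ, ∀ y' ∈ Metric.ball (z : V) δ,
      ‖f y - f y' - fderiv ℝ f z (y - y')‖ ≤ ε / 2 * ‖y - y'‖) ∧
      ∀ z' ∈ Metric.ball (z : V) δ, ‖fderiv ℝ f z' - fderiv ℝ f z‖ ≤ ε / 2 := by
    intro z
    have h1 := (hf z z.2).hasStrictFDerivAt one_ne_zero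
    have h2 := h1.isLittleO.def (half_pos hε)
    rw [Metric.eventually_nhds_iff_ball] at h2
    obtain ⟨δ1, hδ1, h2⟩ := h2
    have h3 : ContinuousAt (fderiv ℝ f) z :=
      ((hf z z.2).fderiv_right (m := 0) (by simp)).continuousAt
    rw [Metric.continuousAt_iff] at h3
    obtain ⟨δ2, hδ2, h3⟩ := h3 (ε / 2) (half_pos hε)
    refine ⟨min δ1 δ2, lt_min hδ1 hδ2, ?_, ?_⟩
    · intro y hy y' hy'
      refine h2 (y, y') ?_
      rw [← ball_prod_same]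
      exact ⟨Metric.ball_subset_ball (min_le_left _ _) hy,
        Metric.ball_subset_ball (min_le_left _ _) hy'⟩
    · intro z' hz'
      have := h3 (Metric.ball_subset_ball (min_le_right _ _) hz')
      rw [dist_eq_norm] at this
      exact this.le
  choose δ hδ h1 h2 using key
  obtain ⟨r, hr, hr2⟩ := lebesgue_number_lemma_of_metric (c := fun z : K => Metric.ball (z : V) (δ z))
    hK (fun z => Metric.isOpen_ball) (fun z hz => mem_iUnion.2 ⟨⟨z, hz⟩,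
      Metric.mem_ball_self (hδ ⟨z, hz⟩)⟩)
  refine ⟨r / 2, half_pos hr, ?_⟩
  intro z hz y y' hy hy'
  obtain ⟨w, hw⟩ := hr2 z hz
  have hb : ∀ x : V, ‖x - z‖ ≤ r / 2 → x ∈ Metric.ball (w : V) (δ w) := by
    intro x hx
    apply hw
    rw [Metric.mem_ball, dist_eq_norm]
    linarith
  have e1 := h1 w y (hb y hy) y' (hb y' hy')
  have e2 := h2 w z (hw (Metric.mem_ball_self hr))
  have e3 : f y - f y' - fderiv ℝ f z (y - y') = (f y - f y' - fderiv ℝ f w (y - y')) -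
      (fderiv ℝ f z - fderiv ℝ f w) (y - y') := by
    rw [ContinuousLinearMap.sub_apply]
    abel
  rw [e3]
  calc ‖(f y - f y' - fderiv ℝ f w (y - y')) - (fderiv ℝ f z - fderiv ℝ f w) (y - y')‖
      ≤ ‖f y - f y' - fderiv ℝ f w (y - y')‖ + ‖(fderiv ℝ f z - fderiv ℝ f w) (y - y')‖ :=
        norm_sub_le _ _
    _ ≤ ε / 2 * ‖y - y'‖ + ε / 2 * ‖y - y'‖ := by
        refine add_le_add e1 ?_
        exact (ContinuousLinearMap.le_opNorm _ _).trans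
          (mul_le_mul_of_nonneg_right e2 (norm_nonneg _))
    _ = ε * ‖y - y'‖ := by ring

end VeniceMask
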