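import Pool.Agent.helper75.VM.M_FL1

/-!
# MP_509a24_an, module FL2: the two-sided flow on the maximal invariant set
-/

open Set Filter Topology Bundle
open scoped ContDiff Manifold

namespace VeniceMask

universe u

variable {M : Type u} [TopologicalSpace M] [ChartedSpace (EuclideanHalfSpace 3) M]
  [IsManifold (𝓡∂ 3) ∞ M] {X : ∀ x : M, TS x} {φ : ℝ → M → M}

theorem FL2_cont (h3 : IsFlowOf X φ) {t : ℝ} (ht : 0 ≤ t) : Continuous (φ t) := by
  rw [← continuousOn_univ]
  exact (flow_cont h3).comp (f := fun x : M => (t, x)) (by fun_prop)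
    (fun x _ => ⟨ht, mem_univ _⟩)

theorem maxInv_compact [CompactSpace M] [T2Space M] (h3 : IsFlowOf X φ) :
    IsCompact (maxInv φ) := by
  have : IsClosed (maxInv φ) :=
    isClosed_biInter fun t ht => (isCompact_range (FL2_cont h3 ht)).isClosed
  exact this.isCompact

theorem maxInv_interior (h2 : IsInward X) (h3 : IsFlowOf X φ) :
    maxInv φ ⊆ (𝓡∂ 3).interior M := by
  intro x hx
  obtain ⟨y, rfl⟩ := mem_iInter₂.1 hx 1 (zero_le_one : (0 : ℝ) ≤ 1)
  exact flow_interior h2 h3 one_pos y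

theorem G2_nonneg {t : ℝ} (ht : 0 ≤ t) (x : M) : G2 φ t x = φ t x := by
  unfold G2
  rw [if_pos ht]

theorem G2_neg [T2Space M] (h1 : IsC1Field X) (h2 : IsInward X) (h3 : IsFlowOf X φ) {t : ℝ}
    (ht : 0 ≤ t) (x : M) : G2 φ (-t) (φ t x) = x := by
  rcases ht.eq_or_lt with h | h
  · rw [← h, neg_zero, G2_nonneg le_rfl, h3.zero, h3.zero]
  · unfold G2
    rw [if_neg (by linarith), neg_neg]
    haveI : Nonempty M := ⟨x⟩
    exact Function.leftInverse_invFun (flow_injective h1 h2 h3 ht) x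

/-- the basic formula for the two-sided flow -/
theorem FL2_formula [T2Space M] (h1 : IsC1Field X) (h2 : IsInward X) (h3 : IsFlowOf X φ) {r N : ℝ}
    (hN : 0 ≤ N) (hr : 0 ≤ r + N) (y : M) : G2 φ r (φ N y) = φ (r + N) y := by
  by_cases h : 0 ≤ r
  · rw [G2_nonneg h, h3.add r N h hN]
  · have h4 : φ N y = φ (-r) (φ (r + N) y) := by
      rw [← h3.add (-r) (r + N) (by linarith) hr]
      congr 1
      ring
    rw [h4]
    have := G2_neg h1 h2 h3 (t := -r) (by linarith) (φ (r + N) y)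
    rwa [neg_neg] at this

theorem FL2_exists {x : M} (hx : x ∈ maxInv φ) {N : ℝ} (hN : 0 ≤ N) : ∃ y, φ N y = x :=
  mem_iInter₂.1 hx N hN

theorem mem_maxInv {x : M} (h : ∀ t, 0 ≤ t → ∃ y, φ t y = x) : x ∈ maxInv φ :=
  mem_iInter₂.2 fun t ht => h t ht

theorem G2_mem [CompactSpace M] [T2Space M] (h1 : IsC1Field X) (h2 : IsInward X)
    (h3 : IsFlowOf X φ) {x : M} (hx : x ∈ maxInv φ) (t : ℝ) : G2 φ t x ∈ maxInv φ := by
  refine mem_maxInv fun s hs => ?_
  have hN : 0 ≤ s + |t| := by positivity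
  obtain ⟨y, rfl⟩ := FL2_exists hx hN
  have h4 : -|t| ≤ t := neg_abs_le t
  rw [FL2_formula h1 h2 h3 hN (by linarith)]
  refine ⟨φ (t + |t|) y, ?_⟩
  rw [← h3.add s (t + |t|) hs (by linarith)]
  congr 1
  ring

theorem G2_add [CompactSpace M] [T2Space M] (h1 : IsC1Field X) (h2 : IsInward X)
    (h3 : IsFlowOf X φ) {x : M} (hx : x ∈ maxInv φ) (s t : ℝ) :
    G2 φ (s + t) x = G2 φ s (G2 φ t x) := by
  have hs := neg_abs_le s
  have ht := neg_abs_le t
  have hs0 := abs_nonneg s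
  have ht0 := abs_nonneg t
  have hN : 0 ≤ |s| + |t| := by positivity
  obtain ⟨y, rfl⟩ := FL2_exists hx hN
  rw [FL2_formula h1 h2 h3 hN (by linarith), FL2_formula h1 h2 h3 hN (by linarith),
    FL2_formula h1 h2 h3 (by linarith) (by linarith)]
  congr 1
  ring

theorem FL2_cont_neg [CompactSpace M] [T2Space M] (h1 : IsC1Field X) (h2 : IsInward X)
    (h3 : IsFlowOf X φ) {n : ℝ} (hn : 0 ≤ n) : ContinuousOn (G2 φ (-n)) (maxInv φ) := by
  haveI : CompactSpace (maxInv φ) := isCompact_iff_compactSpace.1 (maxInv_compact h3)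
  let f : maxInv φ ≃ maxInv φ :=
    { toFun := fun x => ⟨G2 φ n x, G2_mem h1 h2 h3 x.2 n⟩
      invFun := fun x => ⟨G2 φ (-n) x, G2_mem h1 h2 h3 x.2 (-n)⟩
      left_inv := fun x => by
        refine Subtype.ext ?_
        show G2 φ (-n) (G2 φ n x) = x
        rw [← G2_add h1 h2 h3 x.2, neg_add_cancel, G2_nonneg le_rfl, h3.zero]
      right_inv := fun x => by
        refine Subtype.ext ?_
        show G2 φ n (G2 φ (-n) x) = x
        rw [← G2_add h1 h2 h3 x.2, add_neg_cancel, G2_nonneg le_rfl, h3.zero] }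
  have hf : Continuous f := by
    refine Continuous.subtype_mk ?_ _
    have : (fun x : maxInv φ => G2 φ n (x : M)) = fun x : maxInv φ => φ n (x : M) := by
      funext x
      exact G2_nonneg hn _
    rw [this]
    exact (FL2_cont h3 hn).comp continuous_subtype_val
  let F := hf.homeoOfEquivCompactToT2
  have h4 : Continuous (fun x : maxInv φ => ((F.symm x : maxInv φ) : M)) :=
    continuous_subtype_val.comp F.symm.continuous
  rw [continuousOn_iff_continuous_restrict]
  exact h4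

theorem G2_cont [CompactSpace M] [T2Space M] (h1 : IsC1Field X) (h2 : IsInward X)
    (h3 : IsFlowOf X φ) :
    ContinuousOn (fun p : ℝ × M => G2 φ p.1 p.2) (univ ×ˢ maxInv φ) := by
  rintro ⟨t, x⟩ ⟨-, hx⟩
  have ht := neg_abs_le t
  have hn : 0 ≤ |t| + 1 := by positivity
  set n : ℝ := |t| + 1 with hn'
  have h4 : ContinuousOn (fun p : ℝ × M => φ (p.1 + n) (G2 φ (-n) p.2))
      (Ioi (t - 1) ×ˢ maxInv φ) := by
    refine (flow_cont h3).comp (f := fun p : ℝ × M => (p.1 + n, G2 φ (-n) p.2)) ?_ ?_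
    · refine ContinuousOn.prodMk (by fun_prop) ?_
      exact (FL2_cont_neg h1 h2 h3 hn).comp continuous_snd.continuousOn fun p hp => hp.2
    · rintro ⟨s, y⟩ ⟨hs, -⟩
      refine ⟨?_, mem_univ _⟩
      have hs' : t - 1 < s := hs
      show 0 ≤ s + n
      linarith
  have h5 : ContinuousOn (fun p : ℝ × M => G2 φ p.1 p.2) (Ioi (t - 1) ×ˢ maxInv φ) := by
    refine h4.congr ?_
    rintro ⟨s, y⟩ ⟨hs, hy⟩
    have hs' : t - 1 < s := hs
    show G2 φ s y = φ (s + n) (G2 φ (-n) y)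
    rw [← G2_nonneg (φ := φ) (show 0 ≤ s + n by linarith), ← G2_add h1 h2 h3 hy]
    congr 1
    ring
  have h6 := h5 (t, x) ⟨by simp, hx⟩
  refine h6.mono_of_mem_nhdsWithin ?_
  rw [nhdsWithin_prod_eq, nhdsWithin_univ]
  exact Filter.prod_mem_prod (Ioi_mem_nhds (by linarith)) self_mem_nhdsWithin

end VeniceMask
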