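import Pool.Agent.helper75.VM.M_CO1
import Pool.Agent.helper75.VM.M_FL2
import Pool.Agent.helper75.VM.M_CH3

/-!
# MP_509a24_an, module CO2: continuity and invertibility of the derivative cocycle
-/

open Set Filter Topology Bundle
open scoped ContDiff Manifold

namespace VeniceMask

universe u

variable {M : Type u} [TopologicalSpace M] [ChartedSpace (EuclideanHalfSpace 3) M]
  [IsManifold (𝓡∂ 3) ∞ M] {X : ∀ x : M, TS x} {φ : ℝ → M → M}

/-- the derivative of the flow read in the trivialisations, as a function of `(t, x)` -/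
theorem CO2_inCoord (h3 : IsFlowOf X φ) (x₀ : ℝ × M) (hx₀ : 0 ≤ x₀.1) :
    ContinuousWithinAt (inTangentCoordinates (𝓡∂ 3) (𝓡∂ 3) (Prod.snd : ℝ × M → M)
      (fun x => φ x.1 x.2) (fun x => D φ x.1 x.2) x₀) (Ici (0 : ℝ) ×ˢ univ) x₀ := by
  have : IsManifold (𝓡∂ 3) 1 M := IsManifold.of_le (n := ∞) (by simp)
  have hp0 : x₀.1 ∈ Ici (0 : ℝ) := hx₀
  have hf : ContMDiffWithinAt ((𝓘(ℝ, ℝ).prod (𝓡∂ 3)).prod (𝓡∂ 3)) (𝓡∂ 3) 1
      (Function.uncurry (fun (x : ℝ × M) (y : M) => φ x.1 y))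
      ((Ici (0 : ℝ) ×ˢ (univ : Set M)) ×ˢ (univ : Set M)) (x₀, x₀.2) := by
    have h1 : ContMDiffWithinAt (𝓘(ℝ, ℝ).prod (𝓡∂ 3)) (𝓡∂ 3) 1 (fun p : ℝ × M => φ p.1 p.2)
      (Ici (0 : ℝ) ×ˢ univ) (x₀.1, x₀.2) := h3.smooth _ ⟨hp0, mem_univ _⟩
    have h2 : ContMDiffWithinAt ((𝓘(ℝ, ℝ).prod (𝓡∂ 3)).prod (𝓡∂ 3))
        (𝓘(ℝ, ℝ).prod (𝓡∂ 3)) 1 (fun z : (ℝ × M) × M => ((z.1.1, z.2) : ℝ × M))
        ((Ici (0 : ℝ) ×ˢ (univ : Set M)) ×ˢ (univ : Set M)) (x₀, x₀.2) :=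
      ((contMDiffAt_fst.fst).prodMk contMDiffAt_snd).contMDiffWithinAt
    exact ContMDiffWithinAt.comp (t := Ici (0 : ℝ) ×ˢ (univ : Set M)) (x₀, x₀.2) h1 h2
      (fun z hz => ⟨hz.1.1, mem_univ _⟩)
  have A := ContMDiffWithinAt.mfderivWithin (m := 0) hf
    (contMDiffWithinAt_snd) (x₀ := x₀) (t := Ici (0 : ℝ) ×ˢ (univ : Set M)) (u := univ)
    ⟨hp0, mem_univ _⟩ (mapsTo_univ _ _) (by simp) uniqueMDiffOn_univ
  have A1 := A.continuousWithinAt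
  simp only [mfderivWithin_univ] at A1
  exact A1

theorem D_cont (h3 : IsFlowOf X φ) :
    ContinuousOn (fun p : ℝ × TM M => (⟨φ p.1 p.2.1, D φ p.1 p.2.1 p.2.2⟩ : TM M))
      (Ici (0 : ℝ) ×ˢ univ) := by
  intro p₀ hp₀
  have hp0 : p₀.1 ∈ Ici (0 : ℝ) := hp₀.1
  let x₀ : ℝ × M := (p₀.1, p₀.2.1)
  have A1 := CO2_inCoord h3 x₀ hp0
  have A2 : ContinuousWithinAt (fun p : ℝ × TM M => ((p.1, p.2.1) : ℝ × M))
      (Ici (0 : ℝ) ×ˢ univ) p₀ := by
    apply Continuous.continuousWithinAt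
    exact continuous_fst.prodMk ((FiberBundle.continuous_proj E3
      (TangentSpace (𝓡∂ 3) (M := M))).comp continuous_snd)
  have A3 := ContinuousWithinAt.comp (x := p₀) (t := Ici (0 : ℝ) ×ˢ (univ : Set M)) A1 A2
    (fun p hp => ⟨hp.1, mem_univ _⟩)
  apply ContinuousWithinAt.clm_apply_of_inCoordinates (𝕜 := ℝ) (F₁ := E3) (F₂ := E3)
    (E₁ := fun x : M => TangentSpace (𝓡∂ 3) x) (E₂ := fun x : M => TangentSpace (𝓡∂ 3) x)
    (b₁ := fun p : ℝ × TM M => p.2.1) (b₂ := fun p : ℝ × TM M => φ p.1 p.2.1)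
    (ϕ := fun p => D φ p.1 p.2.1) (v := fun p => p.2.2)
  · exact A3
  · exact continuous_snd.continuousWithinAt
  · have h1 : ContinuousOn (fun p : ℝ × M => φ p.1 p.2) (Ici (0 : ℝ) ×ˢ univ) := flow_cont h3
    have h2 := h1 x₀ ⟨hp0, mem_univ _⟩
    exact ContinuousWithinAt.comp (x := p₀) (t := Ici (0 : ℝ) ×ˢ (univ : Set M)) h2 A2
      (fun p hp => ⟨hp.1, mem_univ _⟩)

/-- local injectivity near time `0` -/
theorem CO2_local (h3 : IsFlowOf X φ) (x₀ : M) :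
    ∃ ε > 0, ∃ U ∈ 𝓝 x₀, ∀ x ∈ U, ∀ t : ℝ, 0 ≤ t → t < ε → Function.Injective (D φ t x) := by
  have hx00 : (0 : ℝ) ≤ (((0 : ℝ), x₀) : ℝ × M).1 := le_rfl
  have A := CO2_inCoord h3 ((0 : ℝ), x₀) hx00
  set 𝒜 := inTangentCoordinates (𝓡∂ 3) (𝓡∂ 3) (Prod.snd : ℝ × M → M)
      (fun x => φ x.1 x.2) (fun x => D φ x.1 x.2) ((0 : ℝ), x₀) with h𝒜
  -- determinant
  have hdet : ContinuousWithinAt (fun p => (𝒜 p).det)
      (Ici (0 : ℝ) ×ˢ univ) ((0 : ℝ), x₀) :=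
    ContinuousLinearMap.continuous_det.continuousAt.comp_continuousWithinAt A
  -- formula
  have hform : ∀ p : ℝ × M, p.2 ∈ (trivializationAt E3 (TangentSpace (𝓡∂ 3)) x₀).baseSet →
      φ p.1 p.2 ∈ (trivializationAt E3 (TangentSpace (𝓡∂ 3)) (φ 0 x₀)).baseSet →
      (Function.Injective (𝒜 p) ↔ Function.Injective (D φ p.1 p.2)) := by
    intro p hp1 hp2
    have e1 : 𝒜 p = _ := ContinuousLinearMap.inCoordinates_eq (ϕ := D φ p.1 p.2) hp1 hp2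
    rw [e1]
    set a := (trivializationAt E3 (TangentSpace (𝓡∂ 3)) (φ 0 x₀)).continuousLinearEquivAt ℝ
      (φ p.1 p.2) hp2
    set b := (trivializationAt E3 (TangentSpace (𝓡∂ 3)) x₀).continuousLinearEquivAt ℝ p.2 hp1
    constructor
    · intro h v w hvw
      have h1 : ((a : TangentSpace (𝓡∂ 3) (φ p.1 p.2) →L[ℝ] E3).comp
          ((D φ p.1 p.2).comp (b.symm : E3 →L[ℝ] TangentSpace (𝓡∂ 3) p.2))) (b v) =
        ((a : TangentSpace (𝓡∂ 3) (φ p.1 p.2) →L[ℝ] E3).comp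
          ((D φ p.1 p.2).comp (b.symm : E3 →L[ℝ] TangentSpace (𝓡∂ 3) p.2))) (b w) := by
        simp only [ContinuousLinearMap.comp_apply, ContinuousLinearEquiv.coe_coe,
          ContinuousLinearEquiv.symm_apply_apply]
        rw [hvw]
      exact b.injective (h h1)
    · intro h v w hvw
      simp only [ContinuousLinearMap.comp_apply, ContinuousLinearEquiv.coe_coe] at hvw
      exact b.symm.injective (h (a.injective hvw))
  have hb1 : x₀ ∈ (trivializationAt E3 (TangentSpace (𝓡∂ 3)) x₀).baseSet :=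
    FiberBundle.mem_baseSet_trivializationAt' x₀
  have hb2 : φ 0 x₀ ∈ (trivializationAt E3 (TangentSpace (𝓡∂ 3)) (φ 0 x₀)).baseSet :=
    FiberBundle.mem_baseSet_trivializationAt' (φ 0 x₀)
  have hinj0 : Function.Injective (D φ 0 x₀) := by
    intro v w hvw
    have h1 := D_zero h3 x₀ v
    have h2 := D_zero h3 x₀ w
    have h4 : (show E3 from D φ 0 x₀ v) = (show E3 from D φ 0 x₀ w) := hvw
    rw [h1, h2] at h4
    exact h4
  have hval : (𝒜 ((0 : ℝ), x₀)).det ≠ 0 := by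
    intro h0
    have h1 := LinearMap.bot_lt_ker_of_det_eq_zero (f := ((𝒜 ((0 : ℝ), x₀)) : E3 →ₗ[ℝ] E3)) h0
    have h2 : Function.Injective (𝒜 ((0 : ℝ), x₀)) := (hform _ hb1 hb2).2 hinj0
    have h5 : LinearMap.ker ((𝒜 ((0 : ℝ), x₀)) : E3 →ₗ[ℝ] E3) = ⊥ :=
      LinearMap.ker_eq_bot.2 h2
    rw [h5] at h1
    exact lt_irrefl _ h1
  have hne : ∀ᶠ p in 𝓝[Ici (0 : ℝ) ×ˢ univ] ((0 : ℝ), x₀), (𝒜 p).det ≠ 0 :=
    hdet.eventually_ne hval
  have hφc : ContinuousWithinAt (fun p : ℝ × M => φ p.1 p.2) (Ici (0 : ℝ) ×ˢ univ)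
      ((0 : ℝ), x₀) := flow_cont h3 _ ⟨self_mem_Ici, mem_univ _⟩
  have hs2 : ∀ᶠ p in 𝓝[Ici (0 : ℝ) ×ˢ univ] ((0 : ℝ), x₀),
      φ p.1 p.2 ∈ (trivializationAt E3 (TangentSpace (𝓡∂ 3)) (φ 0 x₀)).baseSet :=
    hφc ((trivializationAt E3 (TangentSpace (𝓡∂ 3)) (φ 0 x₀)).open_baseSet.mem_nhds hb2)
  have hs1 : ∀ᶠ p in 𝓝[Ici (0 : ℝ) ×ˢ univ] ((0 : ℝ), x₀),
      p.2 ∈ (trivializationAt E3 (TangentSpace (𝓡∂ 3)) x₀).baseSet :=
    (continuous_snd.continuousWithinAt (s := Ici (0 : ℝ) ×ˢ (univ : Set M))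
      (x := ((0 : ℝ), x₀)))
      ((trivializationAt E3 (TangentSpace (𝓡∂ 3)) x₀).open_baseSet.mem_nhds hb1)
  have hall := hne.and (hs1.and hs2)
  rw [nhdsWithin_prod_eq, nhdsWithin_univ] at hall
  obtain ⟨T, hT, U, hU, hTU⟩ := mem_prod_iff.1 hall
  obtain ⟨ε, hε, hεT⟩ := mem_nhdsGE_iff_exists_Ico_subset.1 hT
  refine ⟨ε, hε, U, hU, fun x hx t ht0 htε => ?_⟩
  obtain ⟨h1, h2, h4⟩ := hTU (show ((t, x) : ℝ × M) ∈ T ×ˢ U from ⟨hεT ⟨ht0, htε⟩, hx⟩)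
  apply (hform (t, x) h2 h4).1
  have h5 : LinearMap.det ((𝒜 (t, x)) : E3 →ₗ[ℝ] E3) ≠ 0 := h1
  exact (LinearMap.equivOfDetNeZero _ h5).injective

theorem D_bijective [CompactSpace M] [T2Space M] (h1 : IsC1Field X) (h2 : IsInward X)
    (h3 : IsFlowOf X φ) {t : ℝ} (ht : 0 ≤ t) {x : M} (hx : x ∈ maxInv φ) :
    Function.Bijective (D φ t x) := by
  -- uniform injectivity for small times
  have hunif : ∃ ε > 0, ∀ x ∈ maxInv φ, ∀ t : ℝ, 0 ≤ t → t < ε →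
      Function.Injective (D φ t x) := by
    apply (maxInv_compact h3).induction_on (p := fun A => ∃ ε > 0, ∀ x ∈ A, ∀ t : ℝ, 0 ≤ t →
      t < ε → Function.Injective (D φ t x))
    · exact ⟨1, one_pos, fun x hx => hx.elim⟩
    · rintro A A' hAA' ⟨ε, hε, h⟩
      exact ⟨ε, hε, fun x hx => h x (hAA' hx)⟩
    · rintro A A' ⟨ε, hε, h⟩ ⟨ε', hε', h'⟩
      refine ⟨min ε ε', lt_min hε hε', fun x hx t ht0 ht => ?_⟩
      rcases hx with hx | hx
      · exact h x hx t ht0 (ht.trans_le (min_le_left _ _))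
      · exact h' x hx t ht0 (ht.trans_le (min_le_right _ _))
    · intro x _
      obtain ⟨ε, hε, U, hU, h⟩ := CO2_local h3 x
      exact ⟨U, mem_nhdsWithin_of_mem_nhds hU, ε, hε, h⟩
  obtain ⟨ε, hε, hinj⟩ := hunif
  -- iterate
  obtain ⟨n, hn⟩ := exists_nat_gt (t / ε)
  have hn0 : (0 : ℝ) < n := lt_of_le_of_lt (div_nonneg ht hε.le) hn
  set s : ℝ := t / n with hs
  have hs0 : 0 ≤ s := div_nonneg ht hn0.le
  have hsε : s < ε := by
    rw [hs, div_lt_iff₀ hn0]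
    rw [div_lt_iff₀ hε] at hn
    linarith
  have hφmem : ∀ k : ℕ, φ (k * s) x ∈ maxInv φ := by
    intro k
    have := G2_mem h1 h2 h3 hx (k * s)
    rwa [G2_nonneg (by positivity)] at this
  have hit : ∀ k : ℕ, Function.Injective (D φ (k * s) x) := by
    intro k
    induction k with
    | zero =>
      intro v w hvw
      have e : ((0 : ℕ) : ℝ) * s = 0 := by simp
      rw [e] at hvw
      have h5 := D_zero h3 x v
      have h6 := D_zero h3 x w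
      have h7 : (show E3 from D φ 0 x v) = (show E3 from D φ 0 x w) := hvw
      rw [h5, h6] at h7
      exact h7
    | succ k ih =>
      intro v w hvw
      have e : ((k + 1 : ℕ) : ℝ) * s = s + k * s := by push_cast; ring
      rw [e] at hvw
      have h5 := D_add h3 hs0 (show (0 : ℝ) ≤ k * s by positivity) x v
      have h6 := D_add h3 hs0 (show (0 : ℝ) ≤ k * s by positivity) x w
      have h7 : (show E3 from D φ (s + k * s) x v) = (show E3 from D φ (s + k * s) x w) := hvw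
      rw [h5, h6] at h7
      exact ih (hinj _ (hφmem k) s hs0 hsε h7)
  have hfin : Function.Injective (D φ t x) := by
    have := hit n
    have e : (n : ℝ) * s = t := by rw [hs]; field_simp
    rwa [e] at this
  refine ⟨hfin, ?_⟩
  exact (LinearMap.injective_iff_surjective
    (f := (show E3 →ₗ[ℝ] E3 from (D φ t x : TS x →ₗ[ℝ] TS (φ t x))))).1 hfin

end VeniceMask
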