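import Pool.Agent.helper75.VM.M_AF
import Pool.Agent.helper75.VM.M_CH1
import Pool.Agent.helper75.VM.M_CH2
import Pool.Agent.helper75.VM.M_CO1
import Pool.Agent.helper75.VM.M_CO2
import Pool.Agent.helper75.VM.M_FL2

/-!
# MP_509a24_an, module FB1: existence of flow boxes
-/

open Set Filter Topology Bundle
open scoped ContDiff Manifold

namespace VeniceMask

universe u

variable {M : Type u} [TopologicalSpace M] [ChartedSpace (EuclideanHalfSpace 3) M]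
  [IsManifold (𝓡∂ 3) ∞ M] [CompactSpace M] [T2Space M]
  {g : Metric3 M} {X : ∀ x : M, TS x} {φ : ℝ → M → M} {E F : ∀ x : M, Submodule ℝ (TS x)}
  (H : Hyp g X φ E F)

namespace FB1

/-- the affine map -/
def aff (z0 a b : E3) (p : V3) : E3 := z0 + p.2.1 • a + p.2.2 • b

theorem aff_zero (z0 a b : E3) : aff z0 a b 0 = z0 := by simp [aff]

theorem aff_contDiff (z0 a b : E3) : ContDiff ℝ 1 (aff z0 a b) := by
  unfold aff
  fun_prop

theorem aff_fderiv (z0 a b : E3) (p : V3) :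
    HasFDerivAt (aff z0 a b)
      ((((ContinuousLinearMap.fst ℝ ℝ ℝ).comp (ContinuousLinearMap.snd ℝ ℝ (ℝ × ℝ))).smulRight a)
        + (((ContinuousLinearMap.snd ℝ ℝ ℝ).comp
          (ContinuousLinearMap.snd ℝ ℝ (ℝ × ℝ))).smulRight b)) p := by
  have h1 : HasFDerivAt (fun p : V3 => p.2.1 • a)
      (((ContinuousLinearMap.fst ℝ ℝ ℝ).comp
        (ContinuousLinearMap.snd ℝ ℝ (ℝ × ℝ))).smulRight a) p :=
    (((ContinuousLinearMap.fst ℝ ℝ ℝ).comp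
        (ContinuousLinearMap.snd ℝ ℝ (ℝ × ℝ))).smulRight a).hasFDerivAt
  have h2 : HasFDerivAt (fun p : V3 => p.2.2 • b)
      (((ContinuousLinearMap.snd ℝ ℝ ℝ).comp
        (ContinuousLinearMap.snd ℝ ℝ (ℝ × ℝ))).smulRight b) p :=
    (((ContinuousLinearMap.snd ℝ ℝ ℝ).comp
        (ContinuousLinearMap.snd ℝ ℝ (ℝ × ℝ))).smulRight b).hasFDerivAt
  exact (h1.const_add z0).add h2

/-- the parametrisation before rescaling -/
def Psi (φ : ℝ → M → M) (e0 : OpenPartialHomeomorph E3 M) (z0 a b : E3) (p : V3) : M :=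
  φ (1 + p.1) (e0 (aff z0 a b p))

omit [CompactSpace M] [T2Space M] in
theorem base_smooth {e0 : OpenPartialHomeomorph E3 M} (he0 : IsC1Param e0) {z0 : E3}
    (hz0 : z0 ∈ e0.source) (a b : E3) :
    ContMDiffAt 𝓘(ℝ, V3) (𝓡∂ 3) 1 (fun p : V3 => e0 (aff z0 a b p)) 0 := by
  have h1 : ContMDiffAt 𝓘(ℝ, E3) (𝓡∂ 3) 1 e0 (aff z0 a b 0) := by
    rw [aff_zero]
    exact he0.smooth.contMDiffAt (e0.open_source.mem_nhds hz0)
  have h2 : ContMDiffAt 𝓘(ℝ, V3) 𝓘(ℝ, E3) 1 (aff z0 a b) 0 :=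
    (aff_contDiff z0 a b).contMDiff.contMDiffAt
  exact ContMDiffAt.comp (0 : V3) h1 h2

omit [CompactSpace M] [T2Space M] in
theorem Psi_smooth (h3 : IsFlowOf X φ) {e0 : OpenPartialHomeomorph E3 M} (he0 : IsC1Param e0)
    {z0 : E3} (hz0 : z0 ∈ e0.source) (a b : E3) :
    ContMDiffAt 𝓘(ℝ, V3) (𝓡∂ 3) 1 (Psi φ e0 z0 a b) 0 := by
  have h1 : ContMDiffAt 𝓘(ℝ, V3) 𝓘(ℝ, ℝ) 1 (fun p : V3 => 1 + p.1) 0 := by
    apply ContDiffAt.contMDiffAt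
    fun_prop
  have h2 := base_smooth he0 hz0 a b
  have h4 : ContMDiffAt 𝓘(ℝ, V3) (𝓘(ℝ, ℝ).prod (𝓡∂ 3)) 1
      (fun p : V3 => (1 + p.1, e0 (aff z0 a b p))) 0 := h1.prodMk h2
  have h5 : ContMDiffAt (𝓘(ℝ, ℝ).prod (𝓡∂ 3)) (𝓡∂ 3) 1 (fun p : ℝ × M => φ p.1 p.2)
      ((fun p : V3 => (1 + p.1, e0 (aff z0 a b p))) 0) :=
    flow_joint_smooth h3 (by simp) _
  exact ContMDiffAt.comp (0 : V3) h5 h4

omit [CompactSpace M] [T2Space M] in
theorem Psi_deriv (h3 : IsFlowOf X φ) {e0 : OpenPartialHomeomorph E3 M} (he0 : IsC1Param e0)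
    {z0 : E3} (hz0 : z0 ∈ e0.source) (a b : E3) (ξ : V3) :
    (show E3 from DP (Psi φ e0 z0 a b) 0 ξ) =
      (show E3 from ξ.1 • X (φ 1 (e0 z0))) +
        (show E3 from D φ 1 (e0 z0) (DP e0 z0 (ξ.2.1 • a + ξ.2.2 • b))) := by
  have hΨ : MDifferentiableAt 𝓘(ℝ, V3) (𝓡∂ 3) (Psi φ e0 z0 a b) 0 :=
    (Psi_smooth h3 he0 hz0 a b).mdifferentiableAt (by norm_num)
  have hΨ' : HasMFDerivAt 𝓘(ℝ, V3) (𝓡∂ 3) (Psi φ e0 z0 a b) 0 (DP (Psi φ e0 z0 a b) 0) :=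
    hΨ.hasMFDerivAt
  -- time direction
  have ht : (show E3 from DP (Psi φ e0 z0 a b) 0 ((ξ.1, 0) : V3))
      = (show E3 from ξ.1 • X (φ 1 (e0 z0))) := by
    have hin : HasMFDerivAt 𝓘(ℝ, ℝ) 𝓘(ℝ, V3) (fun s : ℝ => ((s, 0) : V3)) 0
        (ContinuousLinearMap.inl ℝ ℝ (ℝ × ℝ)) := by
      apply HasFDerivAt.hasMFDerivAt
      exact (ContinuousLinearMap.inl ℝ ℝ (ℝ × ℝ)).hasFDerivAt
    have hΨ0 : HasMFDerivAt 𝓘(ℝ, V3) (𝓡∂ 3) (Psi φ e0 z0 a b) ((fun s : ℝ => ((s, 0) : V3)) 0)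
        (DP (Psi φ e0 z0 a b) 0) := hΨ'
    have c1 : HasMFDerivAt 𝓘(ℝ, ℝ) (𝓡∂ 3) (Psi φ e0 z0 a b ∘ fun s : ℝ => ((s, 0) : V3)) 0
        ((DP (Psi φ e0 z0 a b) 0).comp (ContinuousLinearMap.inl ℝ ℝ (ℝ × ℝ))) :=
      HasMFDerivAt.comp (0 : ℝ) hΨ0 hin
    have hadd : HasMFDerivAt 𝓘(ℝ, ℝ) 𝓘(ℝ, ℝ) (fun s : ℝ => 1 + s) 0
        (ContinuousLinearMap.id ℝ ℝ) := by
      apply HasFDerivAt.hasMFDerivAt
      exact ((hasFDerivAt_id (0 : ℝ)).const_add 1)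
    have hfl : HasMFDerivAt 𝓘(ℝ, ℝ) (𝓡∂ 3) (fun s => φ s (e0 z0)) ((fun s : ℝ => 1 + s) 0)
        ((1 : ℝ →L[ℝ] ℝ).smulRight (X (φ (1 + 0) (e0 z0)))) :=
      flow_time_deriv h3 (by norm_num) _
    have c2 : HasMFDerivAt 𝓘(ℝ, ℝ) (𝓡∂ 3) ((fun s => φ s (e0 z0)) ∘ fun s : ℝ => 1 + s) 0
        (((1 : ℝ →L[ℝ] ℝ).smulRight (X (φ (1 + 0) (e0 z0)))).comp
          (ContinuousLinearMap.id ℝ ℝ)) :=
      HasMFDerivAt.comp (0 : ℝ) hfl hadd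
    have c3 : HasMFDerivAt 𝓘(ℝ, ℝ) (𝓡∂ 3) (Psi φ e0 z0 a b ∘ fun s : ℝ => ((s, 0) : V3)) 0
        (((1 : ℝ →L[ℝ] ℝ).smulRight (X (φ (1 + 0) (e0 z0)))).comp
          (ContinuousLinearMap.id ℝ ℝ)) := by
      refine c2.congr_of_eventuallyEq ?_
      refine Filter.Eventually.of_forall fun s => ?_
      show φ (1 + s) (e0 (aff z0 a b (s, 0))) = φ (1 + s) (e0 z0)
      have : aff z0 a b ((s, 0) : V3) = z0 := by simp [aff]
      rw [this]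
    have heq := hasMFDerivAt_unique c1 c3
    have h5 := congrArg (fun L : ℝ →L[ℝ] E3 => L ξ.1) heq
    have key : ∀ r : ℝ, r = 1 → (show E3 from DP (Psi φ e0 z0 a b) 0 ((ξ.1, 0) : V3))
        = (show E3 from ξ.1 • X (φ r (e0 z0))) →
        (show E3 from DP (Psi φ e0 z0 a b) 0 ((ξ.1, 0) : V3))
        = (show E3 from ξ.1 • X (φ 1 (e0 z0))) := by
      intro r hr h
      subst hr
      exact h
    exact key (1 + 0) (by norm_num) h5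
  have hq : (show E3 from DP (Psi φ e0 z0 a b) 0 ((0, ξ.2) : V3))
      = (show E3 from D φ 1 (e0 z0) (DP e0 z0 (ξ.2.1 • a + ξ.2.2 • b))) := by
    have hin : HasMFDerivAt 𝓘(ℝ, ℝ × ℝ) 𝓘(ℝ, V3) (fun q : ℝ × ℝ => ((0, q) : V3)) 0
        (ContinuousLinearMap.inr ℝ ℝ (ℝ × ℝ)) := by
      apply HasFDerivAt.hasMFDerivAt
      exact (ContinuousLinearMap.inr ℝ ℝ (ℝ × ℝ)).hasFDerivAt
    have hΨ0 : HasMFDerivAt 𝓘(ℝ, V3) (𝓡∂ 3) (Psi φ e0 z0 a b)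
        ((fun q : ℝ × ℝ => ((0, q) : V3)) 0) (DP (Psi φ e0 z0 a b) 0) := hΨ'
    have c1 : HasMFDerivAt 𝓘(ℝ, ℝ × ℝ) (𝓡∂ 3)
        (Psi φ e0 z0 a b ∘ fun q : ℝ × ℝ => ((0, q) : V3)) 0
        ((DP (Psi φ e0 z0 a b) 0).comp (ContinuousLinearMap.inr ℝ ℝ (ℝ × ℝ))) :=
      HasMFDerivAt.comp (0 : ℝ × ℝ) hΨ0 hin
    set A : (ℝ × ℝ) →L[ℝ] E3 := ((ContinuousLinearMap.fst ℝ ℝ ℝ).smulRight a)
        + ((ContinuousLinearMap.snd ℝ ℝ ℝ).smulRight b) with hA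
    have haff : HasMFDerivAt 𝓘(ℝ, ℝ × ℝ) 𝓘(ℝ, E3) (fun q : ℝ × ℝ => z0 + A q) 0 A := by
      apply HasFDerivAt.hasMFDerivAt
      exact A.hasFDerivAt.const_add z0
    have he : HasMFDerivAt 𝓘(ℝ, E3) (𝓡∂ 3) e0 z0 (DP e0 z0) :=
      ((he0.smooth.contMDiffAt (e0.open_source.mem_nhds hz0)).mdifferentiableAt
        (by norm_num)).hasMFDerivAt
    have hf : HasMFDerivAt (𝓡∂ 3) (𝓡∂ 3) (φ 1) (e0 z0) (D φ 1 (e0 z0)) :=
      ((flow_smooth_at h3 zero_le_one (e0 z0)).mdifferentiableAt (by norm_num)).hasMFDerivAt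
    have hfe : HasMFDerivAt 𝓘(ℝ, E3) (𝓡∂ 3) (φ 1 ∘ e0) z0 ((D φ 1 (e0 z0)).comp (DP e0 z0)) :=
      HasMFDerivAt.comp z0 hf he
    have hfe' : HasMFDerivAt 𝓘(ℝ, E3) (𝓡∂ 3) (φ 1 ∘ e0) ((fun q : ℝ × ℝ => z0 + A q) 0)
        ((D φ 1 (e0 z0)).comp (DP e0 z0)) := by
      have : (fun q : ℝ × ℝ => z0 + A q) 0 = z0 := by simp
      rw [this]
      exact hfe
    have c2 : HasMFDerivAt 𝓘(ℝ, ℝ × ℝ) (𝓡∂ 3) ((φ 1 ∘ e0) ∘ fun q : ℝ × ℝ => z0 + A q) 0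
        (((D φ 1 (e0 z0)).comp (DP e0 z0)).comp A) :=
      HasMFDerivAt.comp (0 : ℝ × ℝ) hfe' haff
    have c3 : HasMFDerivAt 𝓘(ℝ, ℝ × ℝ) (𝓡∂ 3)
        (Psi φ e0 z0 a b ∘ fun q : ℝ × ℝ => ((0, q) : V3)) 0
        (((D φ 1 (e0 z0)).comp (DP e0 z0)).comp A) := by
      refine c2.congr_of_eventuallyEq ?_
      refine Filter.Eventually.of_forall fun q => ?_
      show φ (1 + 0) (e0 (aff z0 a b (0, q))) = φ 1 (e0 (z0 + A q))
      have h6 : aff z0 a b ((0, q) : V3) = z0 + A q := by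
        simp [aff, hA, add_assoc]
      rw [h6, add_zero]
    have heq := hasMFDerivAt_unique c1 c3
    have h5 := congrArg (fun L : (ℝ × ℝ) →L[ℝ] E3 => L ξ.2) heq
    exact h5
  have hsplit : ξ = ((ξ.1, 0) : V3) + ((0, ξ.2) : V3) := by
    ext <;> simp
  have hlin : (show E3 from DP (Psi φ e0 z0 a b) 0 ξ)
      = (show E3 from DP (Psi φ e0 z0 a b) 0 ((ξ.1, 0) : V3))
        + (show E3 from DP (Psi φ e0 z0 a b) 0 ((0, ξ.2) : V3)) := by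
    conv_lhs => rw [hsplit]
    exact (DP (Psi φ e0 z0 a b) 0).map_add _ _
  rw [hlin, ht, hq]

/-- the rescaling of the plane coordinates -/
noncomputable def scl (ρ : ℝ) (hρ : 0 < ρ) : V3 ≃L[ℝ] V3 :=
  (ContinuousLinearEquiv.refl ℝ ℝ).prodCongr
    (ContinuousLinearEquiv.smulLeft (Units.mk0 ρ hρ.ne'))

theorem scl_apply (ρ : ℝ) (hρ : 0 < ρ) (p : V3) : scl ρ hρ p = (p.1, ρ • p.2) := rfl

omit [CompactSpace M] [T2Space M] in
/-- a parametrisation precomposed with a linear isomorphism -/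
theorem trans_isC1 {e : OpenPartialHomeomorph V3 M} (he : IsC1Param e) (L : V3 ≃L[ℝ] V3) :
    IsC1Param (L.toHomeomorph.transOpenPartialHomeomorph e) where
  smooth := by
    have h1 : ContMDiffOn 𝓘(ℝ, V3) (𝓡∂ 3) 1 (e ∘ L) (L ⁻¹' e.source) :=
      he.smooth.comp (L.contDiff.contMDiff.contMDiffOn) (fun y hy => hy)
    exact h1
  smooth_symm := by
    have h1 : ContMDiffOn (𝓡∂ 3) 𝓘(ℝ, V3) 1 (L.symm ∘ e.symm) e.target :=
      (L.symm.contDiff.contMDiff.contMDiffOn (s := univ)).comp he.smooth_symm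
        (fun y hy => trivial)
    have h2 : (L.toHomeomorph.transOpenPartialHomeomorph e).target = e.target := by
      simp [Homeomorph.transOpenPartialHomeomorph]
    rw [h2]
    exact h1
  interior := by
    have h2 : (L.toHomeomorph.transOpenPartialHomeomorph e).target = e.target := by
      simp [Homeomorph.transOpenPartialHomeomorph]
    rw [h2]
    exact he.interior

omit [CompactSpace M] [T2Space M] in
theorem exists_pre (φ : ℝ → M → M) {w : M} (h : ∃ w', w' ∈ maxInv φ ∧ φ 1 w' = w)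
    (P : M → Prop) (hP : ∀ w', w' ∈ maxInv φ → P (φ 1 w')) : P w := by
  obtain ⟨w', h1, rfl⟩ := h
  exact hP w' h1

end FB1

include H in
theorem exists_flowBox_aux (d : ℕ) (w' : M) (hw' : w' ∈ maxInv φ) (hw : φ 1 w' ∈ Ld φ E d)
    (f e : TS (φ 1 w')) (hli : LinearIndependent ℝ ![X (φ 1 w'), f, e]) {N : Set M}
    (hN : N ∈ 𝓝 (φ 1 w')) :
    ∃ B : FlowBox (aflow H d), IsC1Param B.e ∧ B.pt 0 = φ 1 w' ∧
      (∀ (t : ℝ) (q : Q2), |t| ≤ B.δ → ‖q‖ ≤ 1 → B.e (t, q) ∈ N) ∧ ∃ ρ > 0, ∀ ξ : V3,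
        (show E3 from DP B.e (0, 0) ξ) =
          (show E3 from ξ.1 • X (φ 1 w') + (ρ * ξ.2.1) • f + (ρ * ξ.2.2) • e) := by
  obtain ⟨e0, he0, hw't⟩ := exists_param (maxInv_interior H.inward H.flow hw')
  obtain ⟨z0, hz0, hz0w⟩ : ∃ z0, z0 ∈ e0.source ∧ e0 z0 = w' :=
    ⟨e0.symm w', e0.map_target hw't, e0.right_inv hw't⟩
  subst hz0w
  have hb1 : Function.Bijective (D φ 1 (e0 z0)) :=
    D_bijective H.c1 H.inward H.flow zero_le_one hw'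
  have hb0 : Function.Bijective (DP e0 z0) := he0.bij hz0
  obtain ⟨f', hf'⟩ := hb1.2 f
  obtain ⟨a, ha⟩ := hb0.2 f'
  obtain ⟨e', he'⟩ := hb1.2 e
  obtain ⟨b, hb⟩ := hb0.2 e'
  set Ψ := FB1.Psi φ e0 z0 a b with hΨ
  have hΨs : ContMDiffAt 𝓘(ℝ, V3) (𝓡∂ 3) 1 Ψ 0 := FB1.Psi_smooth H.flow he0 hz0 a b
  have hΨ0 : Ψ 0 = φ 1 (e0 z0) := by
    show φ (1 + (0 : V3).1) (e0 (FB1.aff z0 a b 0)) = _
    rw [FB1.aff_zero]; simp
  have hD : ∀ ξ : V3, (show E3 from DP Ψ 0 ξ) =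
      (show E3 from ξ.1 • X (φ 1 (e0 z0)) + ξ.2.1 • f + ξ.2.2 • e) := by
    intro ξ
    rw [hΨ, FB1.Psi_deriv H.flow he0 hz0 a b ξ]
    have h1 : (show E3 from D φ 1 (e0 z0) (DP e0 z0 (ξ.2.1 • a + ξ.2.2 • b)))
        = (show E3 from ξ.2.1 • f + ξ.2.2 • e) := by
      have h2 : DP e0 z0 (ξ.2.1 • a + ξ.2.2 • b) = ξ.2.1 • f' + ξ.2.2 • e' := by
        rw [map_add, map_smul, map_smul, ha, hb]
      rw [h2]
      have h3 : D φ 1 (e0 z0) (ξ.2.1 • f' + ξ.2.2 • e') = ξ.2.1 • f + ξ.2.2 • e := by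
        rw [map_add, map_smul, map_smul, hf', he']
      exact h3
    rw [h1]
    exact (add_assoc (G := E3) _ _ _).symm
  have hinj : Function.Injective (DP Ψ 0) := by
    intro ξ η hξη
    have h1 : DP Ψ 0 (ξ - η) = 0 := by rw [map_sub, hξη, sub_self]
    have h2 := hD (ξ - η)
    have h3 : (show E3 from DP Ψ 0 (ξ - η)) = 0 := h1
    rw [h3] at h2
    have h4 := Fintype.linearIndependent_iff.1 hli ![(ξ - η).1, (ξ - η).2.1, (ξ - η).2.2]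
      (by
        rw [Fin.sum_univ_three]
        exact h2.symm)
    have e1 : (ξ - η).1 = 0 := h4 0
    have e2 : (ξ - η).2.1 = 0 := h4 1
    have e3 : (ξ - η).2.2 = 0 := h4 2
    have : ξ - η = 0 := by
      ext
      · exact e1
      · exact e2
      · exact e3
    exact sub_eq_zero.1 this
  have hbij : Function.Bijective (DP Ψ 0) := by
    refine ⟨hinj, ?_⟩
    have hfr : Module.finrank ℝ V3 = Module.finrank ℝ E3 := by simp
    let L : V3 →L[ℝ] E3 := DP Ψ 0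
    have hL : Function.Injective (L : V3 →ₗ[ℝ] E3) := hinj
    exact (LinearMap.injective_iff_surjective_of_finrank_eq_finrank hfr).1 hL
  have hint : Ψ 0 ∈ (𝓡∂ 3).interior M := by
    rw [hΨ0]
    exact flow_interior H.inward H.flow one_pos _
  obtain ⟨e1, he1, h0s, heq, hDeq⟩ := exists_param_of_bijective hΨs hint hbij
  -- the radius
  have hNe : e1 ⁻¹' N ∈ 𝓝 (0 : V3) := by
    apply (e1.continuousAt h0s).preimage_mem_nhds
    rw [heq 0 h0s, hΨ0]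
    exact hN
  obtain ⟨r, hr, hball⟩ := Metric.mem_nhds_iff.1
    (Filter.inter_mem (e1.open_source.mem_nhds h0s) hNe)
  set ρ : ℝ := min (r / 2) 1 with hρ
  have hρ0 : 0 < ρ := lt_min (by positivity) one_pos
  have hρ1 : ρ ≤ 1 := min_le_right _ _
  have hρr : ρ < r := lt_of_le_of_lt (min_le_left _ _) (by linarith)
  have hmem : ∀ (t : ℝ) (q : Q2), |t| ≤ ρ → ‖q‖ ≤ 1 →
      ((t, ρ • q) : V3) ∈ e1.source ∩ e1 ⁻¹' N := by
    intro t q ht hq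
    apply hball
    rw [mem_ball_zero_iff]
    rw [Prod.norm_def]
    apply max_lt
    · exact lt_of_le_of_lt ht hρr
    · show ‖ρ • q‖ < r
      rw [norm_smul, Real.norm_eq_abs, abs_of_pos hρ0]
      calc ρ * ‖q‖ ≤ ρ * 1 := mul_le_mul_of_nonneg_left hq hρ0.le
        _ < r := by linarith
  set S := FB1.scl ρ hρ0 with hS
  set e2 : OpenPartialHomeomorph V3 M := S.toHomeomorph.transOpenPartialHomeomorph e1 with he2
  have he2a : ∀ p : V3, e2 p = e1 (S p) := fun p => rfl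
  have he2s : ∀ p : V3, p ∈ e2.source ↔ S p ∈ e1.source := fun p => Iff.rfl
  let B : FlowBox (aflow H d) :=
    { e := e2
      δ := ρ
      δ_pos := hρ0
      src := fun t q ht hq => (hmem t q ht hq).1
      flow := by
        intro t s q ht hts hs hq
        have h1 := (hmem t q ht hq).1
        have h2 := (hmem (t + s) q hts hq).1
        rw [he2a, he2a]
        show e1 ((t + s, ρ • q) : V3) = G2 φ s (e1 ((t, ρ • q) : V3))
        rw [heq _ h1, heq _ h2, G2_nonneg hs]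
        show φ (1 + (t + s)) (e0 (FB1.aff z0 a b (t + s, ρ • q)))
          = φ s (φ (1 + t) (e0 (FB1.aff z0 a b (t, ρ • q))))
        have h3 : FB1.aff z0 a b ((t + s, ρ • q) : V3) = FB1.aff z0 a b ((t, ρ • q) : V3) := rfl
        have h4 : 0 ≤ 1 + t := by
          have := (abs_le.1 ht).1
          linarith
        rw [h3, ← H.flow.add s (1 + t) hs h4]
        congr 1
        ring }
  refine ⟨B, FB1.trans_isC1 he1 S, ?_, fun t q ht hq => (hmem t q ht hq).2, ρ, hρ0, ?_⟩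
  · show e1 ((0, ρ • (0 : Q2)) : V3) = _
    have h5 : ((0, ρ • (0 : Q2)) : V3) = 0 := by simp
    rw [h5, heq 0 h0s, hΨ0]
  · intro ξ
    have hS0 : S 0 = 0 := map_zero S
    have h6 : HasMFDerivAt 𝓘(ℝ, V3) (𝓡∂ 3) e1 (S 0) (DP e1 0) := by
      rw [hS0]
      exact ((he1.smooth.contMDiffAt (e1.open_source.mem_nhds h0s)).mdifferentiableAt
        (by norm_num)).hasMFDerivAt
    have h7 : HasMFDerivAt 𝓘(ℝ, V3) 𝓘(ℝ, V3) S 0 (S : V3 →L[ℝ] V3) :=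
      (S : V3 →L[ℝ] V3).hasFDerivAt.hasMFDerivAt
    have h8 : HasMFDerivAt 𝓘(ℝ, V3) (𝓡∂ 3) (e1 ∘ S) 0 ((DP e1 0).comp (S : V3 →L[ℝ] V3)) :=
      HasMFDerivAt.comp (0 : V3) h6 h7
    have h9 : (show E3 from DP e2 (0, 0) ξ) = (show E3 from DP e1 0 (S ξ)) := by
      have h10 : mfderiv 𝓘(ℝ, V3) (𝓡∂ 3) (e1 ∘ S) 0 = (DP e1 0).comp (S : V3 →L[ℝ] V3) :=
        h8.mfderiv
      exact congrArg (fun L : V3 →L[ℝ] E3 => L ξ) h10
    have h11 : (show E3 from DP e1 0 (S ξ)) = (show E3 from DP Ψ 0 (S ξ)) := hDeq 0 h0s (S ξ)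
    exact (h9.trans h11).trans (hD (S ξ))

theorem exists_flowBox (d : ℕ) {w : M} (hw : w ∈ Ld φ E d) (hX : X w ≠ 0) (f e : TS w)
    (hli : LinearIndependent ℝ ![X w, f, e]) {N : Set M} (hN : N ∈ 𝓝 w) :
    ∃ B : FlowBox (aflow H d), IsC1Param B.e ∧ B.pt 0 = w ∧
      (∀ (t : ℝ) (q : Q2), |t| ≤ B.δ → ‖q‖ ≤ 1 → B.e (t, q) ∈ N) ∧ ∃ ρ > 0, ∀ ξ : V3,
        (show E3 from DP B.e (0, 0) ξ) =
          (show E3 from ξ.1 • X w + (ρ * ξ.2.1) • f + (ρ * ξ.2.2) • e) := by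
  have hpre : ∃ w', w' ∈ maxInv φ ∧ φ 1 w' = w := by
    refine ⟨G2 φ (-1) w, G2_mem H.c1 H.inward H.flow hw.1 (-1), ?_⟩
    have h1 := G2_add H.c1 H.inward H.flow hw.1 1 (-1)
    rw [add_neg_cancel, G2_nonneg le_rfl, H.flow.zero, G2_nonneg zero_le_one] at h1
    exact h1.symm
  obtain ⟨w', hw', rfl⟩ := hpre
  exact exists_flowBox_aux H d w' hw' hw f e hli hN

end VeniceMask
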