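import Pool.Agent.helper75.VM.M_BX1
import Pool.Agent.helper75.VM.M_FB1

/-!
# MP_509a24_an, module BX2: good boxes
-/

open Set Filter Topology Bundle
open scoped ContDiff Manifold

namespace VeniceMask

universe u

/-- linear algebra behind `exists_frame` -/
theorem BX2_frame (E F : Submodule ℝ E3) (hc : IsCompl E F) (h1 : Module.finrank ℝ E = 1)
    (h2 : Module.finrank ℝ E + Module.finrank ℝ F = 3) (X : E3) (hX : X ≠ 0) (hXF : X ∈ F) :
    ∃ f ∈ F, ∃ e ∈ E, LinearIndependent ℝ ![X, f, e] := by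
  have hF : Module.finrank ℝ F = 2 := by omega
  obtain ⟨e, he, he0⟩ : ∃ e ∈ E, e ≠ 0 := by
    refine Submodule.exists_mem_ne_zero_of_ne_bot ?_
    rintro rfl
    simp at h1
  obtain ⟨f, hf, hfX⟩ : ∃ f ∈ F, f ∉ Submodule.span ℝ {X} := by
    by_contra hcon
    push Not at hcon
    have h3 : F ≤ Submodule.span ℝ {X} := hcon
    have h4 := Submodule.finrank_mono h3
    rw [finrank_span_singleton hX, hF] at h4
    omega
  refine ⟨f, hf, e, he, ?_⟩
  rw [Fintype.linearIndependent_iff]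
  intro c hcsum
  rw [Fin.sum_univ_three] at hcsum
  have hsum : c 0 • X + c 1 • f + c 2 • e = 0 := hcsum
  have hc2e : c 2 • e ∈ F := by
    have h3 : c 2 • e = -(c 0 • X + c 1 • f) := by
      rw [eq_neg_iff_add_eq_zero, add_comm]; exact hsum
    rw [h3]
    exact F.neg_mem (F.add_mem (F.smul_mem _ hXF) (F.smul_mem _ hf))
  have h4 : c 2 • e = 0 := Submodule.disjoint_def.1 hc.disjoint _ (E.smul_mem _ he) hc2e
  have hc2 : c 2 = 0 := (smul_eq_zero.1 h4).resolve_right he0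
  rw [h4, add_zero] at hsum
  have hc1 : c 1 = 0 := by
    by_contra hne
    refine hfX (Submodule.mem_span_singleton.2 ⟨-(c 0 / c 1), ?_⟩)
    have h5 : c 1 • f = -(c 0 • X) := by
      rw [eq_neg_iff_add_eq_zero, add_comm]; exact hsum
    have h6 : f = (c 1)⁻¹ • (c 1 • f) := (inv_smul_smul₀ hne f).symm
    rw [h6, h5, smul_neg, neg_smul, smul_smul, div_eq_inv_mul]
  rw [hc1, zero_smul, add_zero] at hsum
  have hc0 : c 0 = 0 := (smul_eq_zero.1 hsum).resolve_right hX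
  intro i
  fin_cases i
  · exact hc0
  · exact hc1
  · exact hc2

variable {M : Type u} [TopologicalSpace M] [ChartedSpace (EuclideanHalfSpace 3) M]
  [IsManifold (𝓡∂ 3) ∞ M] [CompactSpace M] [T2Space M]
  {g : Metric3 M} {X : ∀ x : M, TS x} {φ : ℝ → M → M} {E F : ∀ x : M, Submodule ℝ (TS x)}
  (H : Hyp g X φ E F)

include H

theorem exists_frame {w : M} (hw : w ∈ Ld φ E 1) (hX : X w ≠ 0) :
    ∃ f ∈ F w, ∃ e ∈ E w, LinearIndependent ℝ ![X w, f, e] :=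
  BX2_frame (E w) (F w) (H.split.compl w hw.1) hw.2 (finrank_F H hw.1) (X w) hX
    (X_mem_F H hw.1)

theorem exists_goodBox {w : M} (hw : w ∈ Ld φ E 1) (hX : X w ≠ 0) {N : Set M}
    (hN : N ∈ 𝓝 w) : ∃ B : Box (aflow H 1), GoodBox E F B ∧ B.pt 0 = w ∧
      ∀ (t : ℝ) (q : Q2), |t| ≤ B.δ → ‖q‖ ≤ 1 → B.e (t, q) ∈ N := by
  obtain ⟨f, hf, e, he, hli⟩ := exists_frame H hw hX
  obtain ⟨B, hB, hBw, hBN, ρ, hρ, hD⟩ := exists_flowBox H 1 hw hX f e hli hN
  obtain ⟨ρ₀, hρ₀, hρ₀1, hsl⟩ := exists_slopes H hw hX f e hf he hli B hB hBw hρ hD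
  obtain ⟨B', hB', hδ', he', hsrc', hsymm', hDP'⟩ :=
    flowBox_rescale B hB hρ₀ hρ₀1 B.δ_pos le_rfl
  obtain ⟨B'', hB''B', hG⟩ := hsl B' hB' hδ'.le ρ₀ hρ₀ le_rfl he' hDP'
  refine ⟨B'', hG, ?_, ?_⟩
  · show B''.toFlowBox.pt 0 = w
    rw [hB''B', ← hBw]
    show B'.e (0, 0) = B.e (0, 0)
    rw [he', smul_zero]
  · intro t q ht hq
    have h1 : B''.toFlowBox.e (t, q) = B'.e (t, q) := by rw [hB''B']
    have h2 : B''.toFlowBox.δ = B'.δ := by rw [hB''B']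
    rw [h1, he']
    refine hBN t _ (by rw [h2, hδ'] at ht; exact ht) ?_
    rw [norm_smul, Real.norm_of_nonneg hρ₀.le]
    calc ρ₀ * ‖q‖ ≤ 1 * 1 := by gcongr
      _ = 1 := mul_one _

/-- in a good box `F` is exactly the set `{(τ, h, m q * h)}` -/
theorem GoodBox.slope_iff {B : Box (aflow H 1)} (hB : GoodBox E F B) {t : ℝ} {q : Q2}
    (ht : |t| ≤ B.δ) (hq : ‖q‖ ≤ 1) (hL : B.e (t, q) ∈ Ld φ E 1) (ξ : V3) :
    DP B.e (t, q) ξ ∈ F (B.e (t, q)) ↔ ξ.2.2 = B.m q * ξ.2.1 := by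
  have hbij := IsC1Param.bij hB.c1 (B.src t q ht hq)
  have hsl := hB.slope t q ht hq hL
  constructor
  · intro hξ
    by_contra hne
    have h1 : DP B.e (t, q) (0, 0, ξ.2.2 - B.m q * ξ.2.1) ∈ F (B.e (t, q)) := by
      have h2 := (F (B.e (t, q))).sub_mem hξ (hsl ξ.1 ξ.2.1)
      rw [← map_sub] at h2
      have h3 : ξ - (ξ.1, ξ.2.1, B.m q * ξ.2.1) = (0, 0, ξ.2.2 - B.m q * ξ.2.1) := by
        ext <;> simp
      rwa [h3] at h2
    have hv : ξ.2.2 - B.m q * ξ.2.1 ≠ 0 := sub_ne_zero.2 hne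
    have hall : ∀ ζ : V3, DP B.e (t, q) ζ ∈ F (B.e (t, q)) := by
      intro ζ
      have h2 := (F (B.e (t, q))).smul_mem
        ((ζ.2.2 - B.m q * ζ.2.1) / (ξ.2.2 - B.m q * ξ.2.1)) h1
      have h3 := (F (B.e (t, q))).add_mem h2 (hsl ζ.1 ζ.2.1)
      rw [← map_smul, ← map_add] at h3
      have h4 : ((ζ.2.2 - B.m q * ζ.2.1) / (ξ.2.2 - B.m q * ξ.2.1)) •
          ((0, 0, ξ.2.2 - B.m q * ξ.2.1) : V3) + (ζ.1, ζ.2.1, B.m q * ζ.2.1) = ζ := by
        ext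
        · simp
        · simp
        · simp [div_mul_cancel₀ _ hv]
      rwa [h4] at h3
    have htop : F (B.e (t, q)) = ⊤ := by
      refine Submodule.eq_top_iff'.2 fun y => ?_
      obtain ⟨ζ, rfl⟩ := hbij.surjective y
      exact hall ζ
    have h5 := finrank_F H hL.1
    rw [hL.2, htop] at h5
    have h6 : Module.finrank ℝ (⊤ : Submodule ℝ E3) = 3 := by
      rw [finrank_top]
      simp
    have h7 : Module.finrank ℝ (⊤ : Submodule ℝ (TS (B.e (t, q)))) = 3 := h6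
    omega
  · intro h
    have h2 := hsl ξ.1 ξ.2.1
    rw [← h] at h2
    exact h2

end VeniceMask
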