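import Pool.Agent.helper75.VM.Abs

/-!
# MP_509a24_an, module C1: abstract strong stable curves
-/

set_option linter.all false

open Set Filter Topology Bundle
open scoped ContDiff Manifold

namespace VeniceMask

universe u

theorem C1_pullback {β κ ε r : ℝ} (hβ : 0 < β) (hκ : 0 < κ) (hκ1 : κ ≤ 1) (hε0 : 0 < ε)
    (hε : ε ≤ 1 / 8) (hη : β * ε * (1 + κ) ≤ κ / 4) (hr : 0 < r) (f : V3 → V3) (a : ℝ)
    (B : Q2 ≃L[ℝ] Q2) (ha : |a| ≤ 1 / 4) (hB : ∀ q, ‖B.symm q‖ ≤ β * ‖q‖)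
    (haB : ∀ q, |a| * ‖B.symm q‖ ≤ 1 / 4 * ‖q‖) (hf0 : f 0 = 0)
    (hf : ∀ y y' : V3, ‖y‖ ≤ r → ‖y'‖ ≤ r →
      ‖f y - f y' - (a * (y.1 - y'.1), B (y.2 - y'.2))‖ ≤ ε * ‖y - y'‖)
    (k1 : ℝ → Q2) (hk0 : k1 0 = 0)
    (hk : ∀ s ∈ Icc (-r) r, ∀ s' ∈ Icc (-r) r, ‖k1 s - k1 s'‖ ≤ κ * |s - s'|) :
    ∃ k0 : ℝ → Q2, k0 0 = 0 ∧
      (∀ s ∈ Icc (-r) r, ∀ s' ∈ Icc (-r) r, ‖k0 s - k0 s'‖ ≤ κ * |s - s'|) ∧
      ∀ s ∈ Icc (-r) r, ∃ s1, |s1| ≤ |s| / 2 ∧ f (s, k0 s) = (s1, k1 s1) := by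
  set b : ℝ := ‖(B.symm : Q2 →L[ℝ] Q2)‖ with hb
  have hb0 : 0 ≤ b := norm_nonneg _
  have hbβ : b ≤ β := ContinuousLinearMap.opNorm_le_bound _ hβ.le hB
  have hab : |a| * b ≤ 1 / 4 := by
    have h1 : ‖a • (B.symm : Q2 →L[ℝ] Q2)‖ ≤ 1 / 4 := by
      refine ContinuousLinearMap.opNorm_le_bound _ (by norm_num) fun q => ?_
      have := haB q
      simpa [norm_smul] using this
    rwa [norm_smul, Real.norm_eq_abs] at h1
  have hbq : ∀ q : Q2, ‖B.symm q‖ ≤ b * ‖q‖ := fun q =>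
    (B.symm : Q2 →L[ℝ] Q2).le_opNorm q
  -- first components
  have hf1 : ∀ y y' : V3, ‖y‖ ≤ r → ‖y'‖ ≤ r →
      |(f y).1 - (f y').1| ≤ |a| * |y.1 - y'.1| + ε * ‖y - y'‖ := by
    intro y y' hy hy'
    have h := (norm_fst_le _).trans (hf y y' hy hy')
    simp only [Prod.fst_sub, Real.norm_eq_abs] at h
    have h2 : (f y).1 - (f y').1 = ((f y).1 - (f y').1 - a * (y.1 - y'.1)) + a * (y.1 - y'.1) := by
      ring
    rw [h2]
    calc _ ≤ |(f y).1 - (f y').1 - a * (y.1 - y'.1)| + |a * (y.1 - y'.1)| := abs_add_le _ _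
      _ ≤ _ := by rw [abs_mul]; linarith
  have hf2 : ∀ y y' : V3, ‖y‖ ≤ r → ‖y'‖ ≤ r →
      ‖(f y).2 - (f y').2 - B (y.2 - y'.2)‖ ≤ ε * ‖y - y'‖ := by
    intro y y' hy hy'
    have h := (norm_snd_le _).trans (hf y y' hy hy')
    simpa only [Prod.snd_sub] using h
  have hsmall : ∀ y : V3, ‖y‖ ≤ r → ‖y‖ ≤ |y.1| → |(f y).1| ≤ |y.1| / 2 := by
    intro y hy hy1
    have h := hf1 y 0 hy (by simpa using hr.le)
    rw [hf0] at h
    simp only [Prod.fst_zero, sub_zero] at h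
    have h3 : |a| * |y.1| ≤ 1 / 4 * |y.1| := mul_le_mul_of_nonneg_right ha (abs_nonneg _)
    have h4 : ε * ‖y‖ ≤ 1 / 8 * |y.1| := mul_le_mul hε hy1 (norm_nonneg _) (by norm_num)
    have h5 := abs_nonneg y.1
    linarith
  -- the map
  let Φ : V3 → Q2 := fun y => y.2 + B.symm (k1 (f y).1 - (f y).2)
  have hΦ : ∀ y y' : V3, ‖y‖ ≤ r → ‖y'‖ ≤ r → ‖y‖ ≤ |y.1| → ‖y'‖ ≤ |y'.1| →
      ‖Φ y - Φ y'‖ ≤ κ / 4 * |y.1 - y'.1| + β * ε * (1 + κ) * ‖y - y'‖ := by
    intro y y' hy hy' hy1 hy1'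
    have e1 : Φ y - Φ y' = B.symm ((k1 (f y).1 - k1 (f y').1) -
        ((f y).2 - (f y').2 - B (y.2 - y'.2))) := by
      simp only [Φ, map_sub, ContinuousLinearEquiv.symm_apply_apply]
      abel
    have hI : ∀ z : V3, ‖z‖ ≤ r → ‖z‖ ≤ |z.1| → (f z).1 ∈ Icc (-r) r := by
      intro z hz hz1
      have h1 := hsmall z hz hz1
      have h2 : |z.1| ≤ r := le_trans (by simpa using norm_fst_le z) hz
      have h3 := abs_nonneg z.1
      refine abs_le.mp ?_
      linarith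
    have h1 := hk _ (hI y hy hy1) _ (hI y' hy' hy1')
    have h2 := hf1 y y' hy hy'
    have h3 := hf2 y y' hy hy'
    rw [e1]
    have h4 : ‖(k1 (f y).1 - k1 (f y').1) - ((f y).2 - (f y').2 - B (y.2 - y'.2))‖ ≤
        κ * (|a| * |y.1 - y'.1| + ε * ‖y - y'‖) + ε * ‖y - y'‖ := by
      refine (norm_sub_le _ _).trans (add_le_add (h1.trans ?_) h3)
      exact mul_le_mul_of_nonneg_left h2 hκ.le
    have h5 := (hbq _).trans (mul_le_mul_of_nonneg_left h4 hb0)
    refine h5.trans ?_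
    have e2 : b * (κ * (|a| * |y.1 - y'.1| + ε * ‖y - y'‖) + ε * ‖y - y'‖) =
        κ * (|a| * b) * |y.1 - y'.1| + b * ε * (1 + κ) * ‖y - y'‖ := by ring
    rw [e2]
    have hn := norm_nonneg (y - y')
    have hs := abs_nonneg (y.1 - y'.1)
    refine add_le_add ?_ ?_
    · refine mul_le_mul_of_nonneg_right ?_ hs
      have := mul_le_mul_of_nonneg_left hab hκ.le
      linarith
    · refine mul_le_mul_of_nonneg_right ?_ hn
      have h1k : 0 ≤ 1 + κ := by linarith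
      exact mul_le_mul_of_nonneg_right (mul_le_mul_of_nonneg_right hbβ hε0.le) h1k
  have hη4 : β * ε * (1 + κ) ≤ 1 / 4 := by linarith
  have hη0 : 0 ≤ β * ε * (1 + κ) := by positivity
  have hΦ0 : Φ 0 = 0 := by
    simp [Φ, hf0, hk0]
  have hnorm : ∀ (s : ℝ) (u : Q2), ‖u‖ ≤ κ * |s| → ‖((s, u) : V3)‖ ≤ |s| := by
    intro s u hu
    rw [Prod.norm_def]
    refine max_le (by simp) (hu.trans ?_)
    have := mul_le_mul_of_nonneg_right hκ1 (abs_nonneg s)
    simpa using this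
  -- fixed points
  have hfix : ∀ s ∈ Icc (-r) r, ∃ u : Q2, ‖u‖ ≤ κ * |s| ∧ Φ (s, u) = u := by
    intro s hs
    have hsr : |s| ≤ r := abs_le.mpr hs
    have hmaps : MapsTo (fun u : Q2 => Φ (s, u)) (Metric.closedBall 0 (κ * |s|))
        (Metric.closedBall 0 (κ * |s|)) := by
      intro u hu
      rw [mem_closedBall_zero_iff] at hu ⊢
      have hn := hnorm s u hu
      have h := hΦ (s, u) 0 (hn.trans hsr) (by simpa using hr.le) hn (by simp)
      rw [hΦ0] at h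
      simp only [sub_zero, Prod.fst_zero] at h
      have h2 : β * ε * (1 + κ) * ‖((s, u) : V3)‖ ≤ κ / 4 * |s| :=
        mul_le_mul hη hn (norm_nonneg _) (by positivity)
      have h3 : 0 ≤ κ * |s| := by positivity
      show ‖Φ (s, u)‖ ≤ κ * |s|
      linarith
    have hcontr : ContractingWith ⟨1 / 4, by norm_num⟩ (hmaps.restrict _ _ _) := by
      refine ⟨(NNReal.coe_lt_coe (r₁ := ⟨1 / 4, by norm_num⟩) (r₂ := 1)).mp
        (by show (1 / 4 : ℝ) < ((1 : NNReal) : ℝ); norm_num), ?_⟩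
      refine LipschitzWith.of_dist_le_mul fun u u' => ?_
      have hu := mem_closedBall_zero_iff.mp u.2
      have hu' := mem_closedBall_zero_iff.mp u'.2
      have hn := hnorm s u.1 hu
      have hn' := hnorm s u'.1 hu'
      have h := hΦ (s, u.1) (s, u'.1) (hn.trans hsr) (hn'.trans hsr) hn hn'
      rw [Subtype.dist_eq, Subtype.dist_eq, dist_eq_norm, dist_eq_norm]
      simp only [MapsTo.val_restrict_apply]
      refine h.trans ?_
      have e : ‖((s, u.1) : V3) - (s, u'.1)‖ = ‖u.1 - u'.1‖ := by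
        rw [Prod.norm_def]
        simp
      rw [e]
      simp only [sub_self, abs_zero, mul_zero, zero_add, NNReal.coe_mk]
      exact mul_le_mul_of_nonneg_right hη4 (norm_nonneg _)
    obtain ⟨u, hu, hfu, -⟩ := ContractingWith.exists_fixedPoint'
      (Metric.isClosed_closedBall.isComplete) hmaps hcontr
      (x := 0) (by rw [mem_closedBall_zero_iff]; simpa using (by positivity : 0 ≤ κ * |s|))
      (edist_ne_top _ _)
    exact ⟨u, mem_closedBall_zero_iff.mp hu, hfu⟩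
  have hfix' : ∀ s : ℝ, ∃ u : Q2, s ∈ Icc (-r) r → ‖u‖ ≤ κ * |s| ∧ Φ (s, u) = u := by
    intro s
    by_cases hs : s ∈ Icc (-r) r
    · obtain ⟨u, hu⟩ := hfix s hs
      exact ⟨u, fun _ => hu⟩
    · exact ⟨0, fun h => absurd h hs⟩
  choose k0 hk0' using hfix'
  refine ⟨k0, ?_, ?_, ?_⟩
  · have h0 : (0 : ℝ) ∈ Icc (-r) r := ⟨by linarith, hr.le⟩
    have := (hk0' 0 h0).1
    simpa using this
  · intro s hs s' hs'
    obtain ⟨hu, hfu⟩ := hk0' s hs
    obtain ⟨hu', hfu'⟩ := hk0' s' hs'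
    have hsr : |s| ≤ r := abs_le.mpr hs
    have hsr' : |s'| ≤ r := abs_le.mpr hs'
    have hn := hnorm s _ hu
    have hn' := hnorm s' _ hu'
    have h := hΦ (s, k0 s) (s', k0 s') (hn.trans hsr) (hn'.trans hsr') hn hn'
    rw [hfu, hfu'] at h
    have e : ‖((s, k0 s) : V3) - (s', k0 s')‖ ≤ |s - s'| + ‖k0 s - k0 s'‖ := by
      rw [Prod.norm_def]
      refine max_le ?_ ?_
      · simp
      · simp
    have h2 : β * ε * (1 + κ) * ‖((s, k0 s) : V3) - (s', k0 s')‖ ≤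
        κ / 4 * |s - s'| + 1 / 4 * ‖k0 s - k0 s'‖ := by
      refine (mul_le_mul_of_nonneg_left e hη0).trans ?_
      rw [mul_add]
      exact add_le_add (mul_le_mul_of_nonneg_right hη (abs_nonneg _))
        (mul_le_mul_of_nonneg_right hη4 (norm_nonneg _))
    simp only at h
    have h3 : 0 ≤ κ * |s - s'| := by positivity
    linarith
  · intro s hs
    obtain ⟨hu, hfu⟩ := hk0' s hs
    have hsr : |s| ≤ r := abs_le.mpr hs
    have hn := hnorm s _ hu
    refine ⟨(f (s, k0 s)).1, hsmall (s, k0 s) (hn.trans hsr) hn, ?_⟩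
    have h1 : B.symm (k1 (f (s, k0 s)).1 - (f (s, k0 s)).2) = 0 := by
      have : k0 s + B.symm (k1 (f (s, k0 s)).1 - (f (s, k0 s)).2) = k0 s := hfu
      simpa using this
    have h2 : k1 (f (s, k0 s)).1 - (f (s, k0 s)).2 = 0 :=
      B.symm.injective (h1.trans (map_zero B.symm).symm)
    refine Prod.ext rfl ?_
    exact (sub_eq_zero.mp h2).symm

theorem C1_finite {β κ ε r : ℝ} (hβ : 0 < β) (hκ : 0 < κ) (hκ1 : κ ≤ 1) (hε0 : 0 < ε)
    (hε : ε ≤ 1 / 8) (hη : β * ε * (1 + κ) ≤ κ / 4) (hr : 0 < r) (f : ℕ → V3 → V3) (a : ℕ → ℝ)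
    (B : ℕ → (Q2 ≃L[ℝ] Q2)) (ha : ∀ n, |a n| ≤ 1 / 4) (hB : ∀ n q, ‖(B n).symm q‖ ≤ β * ‖q‖)
    (haB : ∀ n q, |a n| * ‖(B n).symm q‖ ≤ 1 / 4 * ‖q‖) (hf0 : ∀ n, f n 0 = 0)
    (hf : ∀ n, ∀ y y' : V3, ‖y‖ ≤ r → ‖y'‖ ≤ r →
      ‖f n y - f n y' - (a n * (y.1 - y'.1), B n (y.2 - y'.2))‖ ≤ ε * ‖y - y'‖) (N : ℕ) :
    ∀ n, ∃ k : ℝ → Q2, k 0 = 0 ∧
      (∀ s ∈ Icc (-r) r, ∀ s' ∈ Icc (-r) r, ‖k s - k s'‖ ≤ κ * |s - s'|) ∧
      ∀ s ∈ Icc (-r) r, ∃ y : ℕ → V3, y 0 = (s, k s) ∧ (∀ j < N, y (j + 1) = f (n + j) (y j)) ∧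
        ∀ j ≤ N, ‖y j‖ ≤ (1 / 2) ^ j * |s| := by
  induction N with
  | zero =>
    intro n
    refine ⟨fun _ => 0, rfl, fun s _ s' _ => by simpa using (by positivity : 0 ≤ κ * |s - s'|), ?_⟩
    intro s _
    refine ⟨fun _ => (s, 0), rfl, fun j hj => absurd hj (Nat.not_lt_zero _), ?_⟩
    intro j hj
    obtain rfl : j = 0 := Nat.le_zero.mp hj
    simp [Prod.norm_def]
  | succ N ih =>
    intro n
    obtain ⟨k1, hk10, hk1, hy1⟩ := ih (n + 1)
    obtain ⟨k0, hk00, hk0, hs1⟩ := C1_pullback hβ hκ hκ1 hε0 hε hη hr (f n) (a n) (B n) (ha n)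
      (hB n) (haB n) (hf0 n) (hf n) k1 hk10 hk1
    refine ⟨k0, hk00, hk0, fun s hs => ?_⟩
    obtain ⟨s1, hs1a, hs1b⟩ := hs1 s hs
    have hsr : |s| ≤ r := abs_le.mpr hs
    have hs1r : s1 ∈ Icc (-r) r := by
      have := abs_nonneg s
      exact abs_le.mp (by linarith)
    obtain ⟨y, hy0, hyj, hyn⟩ := hy1 s1 hs1r
    refine ⟨fun j => Nat.casesOn j (s, k0 s) y, rfl, ?_, ?_⟩
    · intro j hj
      cases j with
      | zero =>
        show y 0 = f (n + 0) (s, k0 s)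
        rw [hy0, Nat.add_zero, hs1b]
      | succ j =>
        show y (j + 1) = f (n + (j + 1)) (y j)
        rw [hyj j (by omega)]
        congr 1
        omega
    · intro j hj
      cases j with
      | zero =>
        show ‖((s, k0 s) : V3)‖ ≤ _
        rw [Prod.norm_def]
        have h0 : (0 : ℝ) ∈ Icc (-r) r := ⟨by linarith, hr.le⟩
        have h1 := hk0 s hs 0 h0
        rw [hk00, sub_zero, sub_zero] at h1
        have h2 := mul_le_mul_of_nonneg_right hκ1 (abs_nonneg s)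
        refine max_le (by simp) ?_
        simpa using h1.trans h2
      | succ j =>
        show ‖y j‖ ≤ _
        refine (hyn j (by omega)).trans ?_
        rw [pow_succ]
        have : (0 : ℝ) ≤ (1 / 2) ^ j := by positivity
        calc (1 / 2 : ℝ) ^ j * |s1| ≤ (1 / 2) ^ j * (|s| / 2) :=
              mul_le_mul_of_nonneg_left hs1a this
          _ = _ := by ring

theorem strong_stable_abstract {β κ : ℝ} (hβ : 0 < β) (hκ : 0 < κ) (hκ1 : κ ≤ 1) :
    ∃ ε > 0, ∀ r : ℝ, 0 < r → ∀ (f : ℕ → V3 → V3) (a : ℕ → ℝ) (B : ℕ → (Q2 ≃L[ℝ] Q2)),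
      (∀ n, |a n| ≤ 1 / 4) → (∀ n q, ‖(B n).symm q‖ ≤ β * ‖q‖) →
      (∀ n q, |a n| * ‖(B n).symm q‖ ≤ 1 / 4 * ‖q‖) → (∀ n, f n 0 = 0) →
      (∀ n y y', ‖y‖ ≤ r → ‖y'‖ ≤ r →
        ‖f n y - f n y' - (a n * (y.1 - y'.1), B n (y.2 - y'.2))‖ ≤ ε * ‖y - y'‖) →
      ∃ k : ℝ → Q2, k 0 = 0 ∧
        (∀ s ∈ Icc (-r) r, ∀ s' ∈ Icc (-r) r, ‖k s - k s'‖ ≤ κ * |s - s'|) ∧
        ∀ s ∈ Icc (-r) r, ∃ y : ℕ → V3, y 0 = (s, k s) ∧ (∀ n, y (n + 1) = f n (y n)) ∧
          ∀ n, ‖y n‖ ≤ (1 / 2) ^ n * r := by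
  have h1k : 0 < 1 + κ := by linarith
  refine ⟨min (1 / 8) (κ / (4 * (β * (1 + κ)))), lt_min (by norm_num) (by positivity), ?_⟩
  intro r hr f a B ha hB haB hf0 hf
  set ε := min (1 / 8 : ℝ) (κ / (4 * (β * (1 + κ)))) with hεdef
  have hε0 : 0 < ε := lt_min (by norm_num) (by positivity)
  have hε : ε ≤ 1 / 8 := min_le_left _ _
  have hη : β * ε * (1 + κ) ≤ κ / 4 := by
    have h1 : ε ≤ κ / (4 * (β * (1 + κ))) := min_le_right _ _
    have h2 : β * ε * (1 + κ) = (β * (1 + κ)) * ε := by ring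
    rw [h2]
    refine (mul_le_mul_of_nonneg_left h1 (by positivity)).trans (le_of_eq ?_)
    field_simp
  have key := fun N => C1_finite hβ hκ hκ1 hε0 hε hη hr f a B ha hB haB hf0 hf N 0
  choose k hk0 hklip hky using key
  have hY : ∀ (N : ℕ) (s : ℝ), ∃ y : ℕ → V3, s ∈ Icc (-r) r → (y 0 = (s, k N s) ∧
      (∀ j < N, y (j + 1) = f (0 + j) (y j)) ∧ ∀ j ≤ N, ‖y j‖ ≤ (1 / 2) ^ j * |s|) := by
    intro N s
    by_cases hs : s ∈ Icc (-r) r
    · obtain ⟨y, hy⟩ := hky N s hs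
      exact ⟨y, fun _ => hy⟩
    · exact ⟨fun _ => 0, fun h => absurd h hs⟩
  choose Y hY' using hY
  have hbd : ∀ s ∈ Icc (-r) r, ∀ j N, j ≤ N → ‖Y N s j‖ ≤ (1 / 2) ^ j * r := by
    intro s hs j N hj
    refine ((hY' N s hs).2.2 j hj).trans ?_
    exact mul_le_mul_of_nonneg_left (abs_le.mpr hs) (by positivity)
  have hge : ∀ j : ℕ, ∀ᶠ N in (hyperfilter ℕ : Filter ℕ), j ≤ N := by
    intro j
    have h1 : ∀ᶠ N in (cofinite : Filter ℕ), j ≤ N := by
      rw [Nat.cofinite_eq_atTop]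
      exact eventually_ge_atTop j
    exact h1.filter_mono (hyperfilter_le_cofinite (α := ℕ))
  have hlim : ∀ (s : ℝ) (j : ℕ), ∃ z : V3, s ∈ Icc (-r) r →
      Tendsto (fun N => Y N s j) (hyperfilter ℕ : Filter ℕ) (𝓝 z) := by
    intro s j
    by_cases hs : s ∈ Icc (-r) r
    · have hc : IsCompact (Metric.closedBall (0 : V3) ((1 / 2) ^ j * r)) :=
        isCompact_closedBall _ _
      have hmem : ∀ᶠ N in (hyperfilter ℕ : Filter ℕ),
          Y N s j ∈ Metric.closedBall (0 : V3) ((1 / 2) ^ j * r) := by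
        filter_upwards [hge j] with N hN
        rw [mem_closedBall_zero_iff]
        exact hbd s hs j N hN
      obtain ⟨z, -, hz⟩ := hc.ultrafilter_le_nhds ((hyperfilter ℕ).map (fun N => Y N s j))
        (by
          rw [Ultrafilter.coe_map]
          exact le_principal_iff.mpr hmem)
      exact ⟨z, fun _ => hz⟩
    · exact ⟨0, fun h => absurd h hs⟩
  choose y hy using hlim
  have hzero : (0 : ℝ) ∈ Icc (-r) r := ⟨by linarith, hr.le⟩
  have hk_lim : ∀ s ∈ Icc (-r) r,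
      Tendsto (fun N => k N s) (hyperfilter ℕ : Filter ℕ) (𝓝 (y s 0).2) := by
    intro s hs
    have h1 := (continuous_snd.tendsto _).comp (hy s 0 hs)
    refine h1.congr fun N => ?_
    simp [(hY' N s hs).1]
  have hy_bd : ∀ s ∈ Icc (-r) r, ∀ j, ‖y s j‖ ≤ (1 / 2) ^ j * r := by
    intro s hs j
    refine le_of_tendsto (hy s j hs).norm ?_
    filter_upwards [hge j] with N hN
    exact hbd s hs j N hN
  have hcont : ∀ n, ContinuousOn (f n) (Metric.closedBall 0 r) := by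
    intro n
    have hlin : Continuous fun y : V3 => ((a n * y.1, B n y.2) : V3) := by fun_prop
    have h2 : ContinuousOn (fun y : V3 => f n y - ((a n * y.1, B n y.2) : V3))
        (Metric.closedBall 0 r) := by
      have hL : LipschitzOnWith ⟨ε, hε0.le⟩ (fun y : V3 => f n y - ((a n * y.1, B n y.2) : V3))
          (Metric.closedBall 0 r) := by
        refine LipschitzOnWith.of_dist_le_mul fun y hy y' hy' => ?_
        rw [dist_eq_norm, dist_eq_norm]
        have h := hf n y y' (mem_closedBall_zero_iff.mp hy) (mem_closedBall_zero_iff.mp hy')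
        have e : f n y - ((a n * y.1, B n y.2) : V3) - (f n y' - ((a n * y'.1, B n y'.2) : V3)) =
            f n y - f n y' - (a n * (y.1 - y'.1), B n (y.2 - y'.2)) := by
          refine Prod.ext ?_ ?_
          · simp only [Prod.fst_sub]
            ring
          · simp only [Prod.snd_sub, map_sub]
            abel
        rw [e]
        exact h
      exact hL.continuousOn
    have h3 := h2.add hlin.continuousOn
    refine h3.congr fun y _ => ?_
    simp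
  refine ⟨fun s => (y s 0).2, ?_, ?_, ?_⟩
  · have h1 := hk_lim 0 hzero
    have h2 : Tendsto (fun N => k N 0) (hyperfilter ℕ : Filter ℕ) (𝓝 0) := by
      refine tendsto_const_nhds.congr fun N => ?_
      rw [hk0 N]
    exact tendsto_nhds_unique h1 h2
  · intro s hs s' hs'
    have h1 := ((hk_lim s hs).sub (hk_lim s' hs')).norm
    exact le_of_tendsto h1 (Eventually.of_forall fun N => hklip N s hs s' hs')
  · intro s hs
    refine ⟨y s, ?_, ?_, hy_bd s hs⟩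
    · have h1 := (continuous_fst.tendsto _).comp (hy s 0 hs)
      have h2 : Tendsto (fun N => (Y N s 0).1) (hyperfilter ℕ : Filter ℕ) (𝓝 s) := by
        refine tendsto_const_nhds.congr fun N => ?_
        rw [(hY' N s hs).1]
      have h3 : (y s 0).1 = s := tendsto_nhds_unique h1 h2
      exact Prod.ext h3 rfl
    · intro n
      have hball : ∀ j N, j ≤ N → Y N s j ∈ Metric.closedBall (0 : V3) r := by
        intro j N hj
        rw [mem_closedBall_zero_iff]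
        refine (hbd s hs j N hj).trans ?_
        have : (1 / 2 : ℝ) ^ j ≤ 1 := pow_le_one₀ (by norm_num) (by norm_num)
        nlinarith
      have hyball : y s n ∈ Metric.closedBall (0 : V3) r := by
        rw [mem_closedBall_zero_iff]
        refine (hy_bd s hs n).trans ?_
        have : (1 / 2 : ℝ) ^ n ≤ 1 := pow_le_one₀ (by norm_num) (by norm_num)
        nlinarith
      have h1 : Tendsto (fun N => f n (Y N s n)) (hyperfilter ℕ : Filter ℕ)
          (𝓝 (f n (y s n))) := by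
        refine (hcont n (y s n) hyball).tendsto.comp ?_
        rw [tendsto_nhdsWithin_iff]
        refine ⟨hy s n hs, ?_⟩
        filter_upwards [hge n] with N hN
        exact hball n N hN
      have h2 := hy s (n + 1) hs
      refine tendsto_nhds_unique h2 (h1.congr' ?_)
      filter_upwards [hge (n + 1)] with N hN
      have := (hY' N s hs).2.1 n (by omega)
      rw [this, Nat.zero_add]

end VeniceMask
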