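import Pool.Agent.helper75.VM.M_LU2

/-!
# MP_509a24_an, module CL: the cut lemma
-/

open Set Filter Topology Bundle
open scoped ContDiff Manifold

namespace VeniceMask

universe u

variable {M : Type u} [TopologicalSpace M]

/-- if all cluster points of the backward orbit of `e` are in `O ∪ Sing`, then `e` is in `Wu O`
or in `WuSing` -/
theorem CL_final [T2Space M] (F : AFlow M) {O : Set M} {p : M} {T : ℝ} (hO : F.IsPer O p T)
    {e : M} (he : e ∈ F.L)
    (hα : ∀ w, MapClusterPt w atTop (fun t : ℝ => F.G (-t) e) → w ∈ O ∪ F.Sing) :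
    e ∈ F.Wu O ∪ F.WuSing := by
  -- the backward orbit
  set γ : ℝ → M := fun t => F.G (-t) e with hγ
  have hγc : Continuous γ := by
    have h1 : Continuous (fun t : ℝ => ((-t, e) : ℝ × M)) := by fun_prop
    have h2 := F.cont'.comp_continuous h1 (fun t => ⟨mem_univ _, he⟩)
    exact h2
  have hγL : ∀ t, γ t ∈ F.L := fun t => F.mapsTo' _ _ he
  -- eventually in every open neighbourhood of `O ∪ Sing`
  have hev : ∀ U, IsOpen U → O ∪ F.Sing ⊆ U → ∀ᶠ t in atTop, γ t ∈ U := by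
    intro U hU hOU
    by_contra hcon
    have hfr : ∃ᶠ t in atTop, γ t ∈ F.L \ U := by
      rw [not_eventually] at hcon
      exact hcon.mono fun t ht => ⟨hγL t, ht⟩
    obtain ⟨w, hw, hcl⟩ := (F.compact'.diff hU).exists_mapClusterPt_of_frequently hfr
    exact hw.2 (hOU (hα w hcl))
  have hSfin : F.Sing.Finite := F.sing'
  have hOc := AFlow.IsPer.compact F hO
  have hdisj := AFlow.IsPer.disj F hO
  obtain ⟨U₀, V₀, hU₀, hV₀, hOU₀, hSV₀, hUV⟩ :=
    SeparatedNhds.of_isCompact_isCompact hOc hSfin.isCompact hdisj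
  have h1 := hev (U₀ ∪ V₀) (hU₀.union hV₀) (union_subset_union hOU₀ hSV₀)
  obtain ⟨t₀, ht₀⟩ := eventually_atTop.1 h1
  have hconn : IsPreconnected (γ '' Ici t₀) :=
    isPreconnected_Ici.image _ hγc.continuousOn
  have hsub : γ '' Ici t₀ ⊆ U₀ ∪ V₀ := by
    rintro _ ⟨t, ht, rfl⟩
    exact ht₀ t ht
  rcases hconn.subset_or_subset hU₀ hV₀ hUV hsub with hcase | hcase
  · left
    refine ⟨he, fun U hU hOU => ?_⟩
    have h2 := hev (U ∪ V₀) (hU.union hV₀) (union_subset_union hOU hSV₀)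
    filter_upwards [h2, eventually_ge_atTop t₀] with t ht htt
    rcases ht with h | h
    · exact h
    · exact (disjoint_left.1 hUV (hcase ⟨t, htt, rfl⟩) h).elim
  · right
    obtain ⟨W, hW, hWd⟩ := hSfin.t2_separation
    -- eventually in the union of the `W σ`
    have h3 := hev (U₀ ∪ ⋃ σ ∈ F.Sing, W σ)
      (hU₀.union (isOpen_biUnion fun σ _ => (hW σ).2))
      (union_subset_union hOU₀ fun σ hσ => mem_biUnion hσ (hW σ).1)
    obtain ⟨t₁, ht₁⟩ := eventually_atTop.1 h3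
    set t₂ := max t₀ t₁ with ht₂
    have hV : ∀ t, t₂ ≤ t → γ t ∈ V₀ := fun t ht =>
      hcase ⟨t, le_trans (le_max_left _ _) ht, rfl⟩
    have hin : ∀ t, t₂ ≤ t → γ t ∈ ⋃ σ ∈ F.Sing, W σ := by
      intro t ht
      rcases ht₁ t (le_trans (le_max_right _ _) ht) with h | h
      · exact (disjoint_left.1 hUV h (hV t ht)).elim
      · exact h
    obtain ⟨σ, hσ, hσ2⟩ := mem_iUnion₂.1 (hin t₂ le_rfl)
    have hconn2 : IsPreconnected (γ '' Ici t₂) :=
      isPreconnected_Ici.image _ hγc.continuousOn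
    have hopen2 : IsOpen (⋃ τ ∈ F.Sing \ {σ}, W τ) :=
      isOpen_biUnion fun τ _ => (hW τ).2
    have hd2 : Disjoint (W σ) (⋃ τ ∈ F.Sing \ {σ}, W τ) := by
      rw [disjoint_iUnion₂_right]
      intro τ hτ
      exact hWd hσ hτ.1 (fun h => hτ.2 (by rw [h]; rfl))
    have hsub2 : γ '' Ici t₂ ⊆ W σ ∪ ⋃ τ ∈ F.Sing \ {σ}, W τ := by
      rintro _ ⟨t, ht, rfl⟩
      obtain ⟨τ, hτ, hτ2⟩ := mem_iUnion₂.1 (hin t ht)
      by_cases h : τ = σ
      · left; rw [← h]; exact hτ2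
      · right; exact mem_biUnion (show τ ∈ F.Sing \ {σ} from ⟨hτ, h⟩) hτ2
    have hall := hconn2.subset_left_of_subset_union (hW σ).2 hopen2 hd2 hsub2
      ⟨γ t₂, ⟨t₂, self_mem_Ici, rfl⟩, hσ2⟩
    refine mem_biUnion hσ ⟨he, fun U hU hσU => ?_⟩
    have h4 := hev (U ∪ (⋃ τ ∈ F.Sing \ {σ}, W τ) ∪ U₀) ((hU.union hopen2).union hU₀) (by
      rintro x (hx | hx)
      · exact Or.inr (hOU₀ hx)
      · left
        by_cases h : x = σ
        · left; exact hσU h
        · right; exact mem_biUnion (show x ∈ F.Sing \ {σ} from ⟨hx, h⟩) (hW x).1)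
    filter_upwards [h4, eventually_ge_atTop t₂] with t ht htt
    have hta := hall ⟨t, htt, rfl⟩
    rcases ht with (h | h) | h
    · exact h
    · exact (disjoint_left.1 hd2 hta h).elim
    · exact (disjoint_left.1 hUV h (hV t htt)).elim

/-- uniform backward convergence on compact subintervals -/
theorem CL_unif [T2Space M] (S : System M) {B : Box S.toAFlow} (hB : Linked S B)
    {O : Set M} {p : M} {T : ℝ} (hO : S.IsPer O p T) {g : ℝ → ℝ} {a b : ℝ}
    (hg : IsUCurve B g a b) {K : Set ℝ} (hK : IsCompact K) (hKab : K ⊆ Icc a b)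
    (hW : ∀ s ∈ K, B.pt (s, g s) ∈ S.Wu O) {U : Set M} (hU : IsOpen U) (hOU : O ⊆ U) :
    ∃ t₀ : ℝ, ∀ t ≥ t₀, ∀ s ∈ K, S.G (-t) (B.pt (s, g s)) ∈ U := by
  apply hK.induction_on (p := fun A => ∃ t₀ : ℝ, ∀ t ≥ t₀, ∀ s ∈ A,
    S.G (-t) (B.pt (s, g s)) ∈ U)
  · exact ⟨0, fun t _ s hs => hs.elim⟩
  · rintro A A' hAA' ⟨t₀, h⟩
    exact ⟨t₀, fun t ht s hs => h t ht s (hAA' hs)⟩
  · rintro A A' ⟨t₀, h⟩ ⟨t₁, h'⟩
    refine ⟨max t₀ t₁, fun t ht s hs => ?_⟩
    rcases hs with hs | hs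
    · exact h t (le_trans (le_max_left _ _) ht) s hs
    · exact h' t (le_trans (le_max_right _ _) ht) s hs
  · intro s hs
    obtain ⟨ε, hε, h⟩ := ucurve_conv S hB hO hg (hKab hs) (hW s hs)
    obtain ⟨t₀, ht₀⟩ := h U hU hOU
    refine ⟨K ∩ {x | |x - s| ≤ ε}, ?_, t₀, fun t ht x hx => ht₀ t ht x (hKab hx.1) hx.2⟩
    refine inter_mem self_mem_nhdsWithin (mem_nhdsWithin_of_mem_nhds ?_)
    filter_upwards [Metric.closedBall_mem_nhds s hε] with x hx
    rwa [Metric.mem_closedBall, Real.dist_eq] at hx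

/-- persistence of one visit under a small change of the parameter -/
theorem CL_persist [T2Space M] {F : AFlow M} {B W : Box F} {C : ℝ} (hC : 0 < C)
    (hT : Transp B W C) {g : ℝ → ℝ} {a b : ℝ} (hg : IsUCurve B g a b) {s : ℝ}
    (hs : s ∈ Icc a b) {t : ℝ} (ht : 0 ≤ t) {q : Q2} (hq : ‖q‖ < 1)
    (hv : F.G (-t) (B.pt (s, g s)) = W.pt q) {ν : ℝ} (hν : 0 < ν) :
    ∀ᶠ s' in 𝓝[Icc a b] s, ∃ (t' : ℝ) (q' : Q2), |t' - t| < ν ∧ ‖q' - q‖ ≤ 2 * C * |s' - s| ∧
      F.G (-t') (B.pt (s', g s')) = W.pt q' := by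
  have hL : ∀ x ∈ Icc a b, B.pt (x, g x) ∈ F.L := hg.mem
  -- the transported curve
  set y : ℝ → M := fun s' => F.G (-t) (B.pt (s', g s')) with hy
  have hgc : ContinuousOn g (Icc a b) := fun x hx => (hg.der x hx).continuousWithinAt
  have hyc : ContinuousWithinAt y (Icc a b) s := by
    have h1 : ContinuousOn (fun s' : ℝ => ((s', g s') : Q2)) (Icc a b) :=
      continuousOn_id.prodMk hgc
    have h2 : ContinuousOn (fun s' => B.pt (s', g s')) (Icc a b) :=
      (FlowBox.pt_cont B.toFlowBox).comp h1 (fun x hx => hg.norm_le x hx)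
    have h3 : ContinuousOn (fun s' => ((-t, B.pt (s', g s')) : ℝ × M)) (Icc a b) :=
      continuousOn_const.prodMk h2
    exact (F.cont'.comp h3 (fun x hx => ⟨mem_univ _, hL x hx⟩)) s hs
  have hq0 : (0, q) ∈ W.e.source := W.src 0 q (by simpa using W.δ_pos.le) hq.le
  have hys : y s = W.e (0, q) := hv
  have htgt : y s ∈ W.e.target := by rw [hys]; exact W.e.map_source hq0
  have hsymm : W.e.symm (y s) = (0, q) := by rw [hys]; exact W.e.left_inv hq0
  have hzc : ContinuousWithinAt (fun s' => W.e.symm (y s')) (Icc a b) s :=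
    (W.e.continuousAt_symm htgt).comp_continuousWithinAt hyc
  obtain ⟨c, hc0, hc1, -, hder⟩ := hT g a b hg (-t) s hs 0 q (by simpa using W.δ_pos.le) hq.le hv
  have hcC : |c| ≤ C := hc1 (by linarith)
  have hm : |W.m q| ≤ 1 / 4 := by
    apply W.m_le q hq.le
    have : W.e (0, q) = y s := hys.symm
    rw [this]
    exact F.mapsTo' _ _ (hL s hs)
  -- derivative estimate
  have hnorm : ‖((c, c * W.m q) : ℝ × ℝ)‖ ≤ C := by
    rw [Prod.norm_def]
    simp only [Real.norm_eq_abs, abs_mul]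
    apply max_le hcC
    nlinarith [abs_nonneg c, abs_nonneg (W.m q)]
  have hbound : ∀ᶠ s' in 𝓝[Icc a b] s,
      ‖(W.e.symm (y s')).2 - q‖ ≤ 2 * C * |s' - s| := by
    have h1 := hder.isLittleO
    have h2 := h1.def hC
    filter_upwards [h2] with s' hs'
    have e1 : (W.e.symm (F.G (-t) (B.pt (s, g s)))).2 = q := by
      have := hsymm
      simp only [hy] at this
      rw [this]
    have e3 : (W.e.symm (y s')).2 - q =
        ((W.e.symm (F.G (-t) (B.pt (s', g s')))).2 - (W.e.symm (F.G (-t) (B.pt (s, g s)))).2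
          - (s' - s) • ((c, c * W.m q) : ℝ × ℝ)) + (s' - s) • ((c, c * W.m q) : ℝ × ℝ) := by
      rw [e1]; simp [hy]
    rw [e3]
    refine (norm_add_le _ _).trans ?_
    have e4 : ‖(s' - s) • ((c, c * W.m q) : ℝ × ℝ)‖ ≤ C * |s' - s| := by
      rw [norm_smul, Real.norm_eq_abs, mul_comm]
      exact mul_le_mul_of_nonneg_right hnorm (abs_nonneg _)
    have e5 : ‖(W.e.symm (F.G (-t) (B.pt (s', g s')))).2 -
        (W.e.symm (F.G (-t) (B.pt (s, g s)))).2
          - (s' - s) • ((c, c * W.m q) : ℝ × ℝ)‖ ≤ C * |s' - s| := by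
      simpa [Real.norm_eq_abs] using hs'
    linarith
  have hz1 : ∀ᶠ s' in 𝓝[Icc a b] s, |(W.e.symm (y s')).1| < min ν W.δ := by
    have h1 : Tendsto (fun s' => |(W.e.symm (y s')).1|) (𝓝[Icc a b] s) (𝓝 0) := by
      have := (continuous_abs.comp continuous_fst).continuousAt.comp_continuousWithinAt hzc
      have h2 : (fun z : V3 => |z.1|) (W.e.symm (y s)) = 0 := by rw [hsymm]; simp
      have h3 : Tendsto (fun s' => |(W.e.symm (y s')).1|) (𝓝[Icc a b] s)
        (𝓝 (|(W.e.symm (y s)).1|)) := this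
      rw [hsymm] at h3
      simpa using h3
    exact h1.eventually_lt_const (lt_min hν W.δ_pos)
  have hz2 : ∀ᶠ s' in 𝓝[Icc a b] s, ‖(W.e.symm (y s')).2‖ < 1 := by
    have h3 : Tendsto (fun s' => ‖(W.e.symm (y s')).2‖) (𝓝[Icc a b] s)
        (𝓝 (‖(W.e.symm (y s)).2‖)) :=
      (continuous_norm.comp continuous_snd).continuousAt.comp_continuousWithinAt hzc
    rw [hsymm] at h3
    exact h3.eventually_lt_const hq
  have hz3 : ∀ᶠ s' in 𝓝[Icc a b] s, y s' ∈ W.e.target :=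
    hyc (W.e.open_target.mem_nhds htgt)
  filter_upwards [hbound, hz1, hz2, hz3, self_mem_nhdsWithin] with s' h1 h2 h3 h4 h5
  set z := W.e.symm (y s') with hz
  have hez : W.e (z.1, z.2) = y s' := W.e.right_inv h4
  have hz1δ : |z.1| ≤ W.δ := (h2.le.trans (min_le_right _ _))
  have hyL : y s' ∈ F.L := F.mapsTo' _ _ (hL s' h5)
  have hpt : W.pt z.2 = F.G (-z.1) (W.e (z.1, z.2)) :=
    FlowBox.pt_eq W.toFlowBox hz1δ h3.le (by rw [hez]; exact hyL)
  refine ⟨t + z.1, z.2, ?_, h1, ?_⟩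
  · have : t + z.1 - t = z.1 := by ring
    rw [this]
    exact lt_of_lt_of_le h2 (min_le_left _ _)
  · have e1 : -(t + z.1) = -z.1 + -t := by ring
    rw [e1, F.add' _ _ _ (hL s' h5), hpt, hez]

/-- many visits at the end point -/
theorem CL_visits {F : AFlow M} {W : Box F} {e : M} (he : e ∈ F.L)
    (hcl : MapClusterPt (W.pt 0) atTop (fun t : ℝ => F.G (-t) e)) (n : ℕ) :
    ∃ τ : Fin n → ℝ, Function.Injective τ ∧ ∀ i, 0 < τ i ∧ ∃ q : Q2, ‖q‖ ≤ 1 / 2 ∧
      F.G (-τ i) e = W.pt q := by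
  have hδ := W.δ_pos
  set N : Set M := W.e '' {z : V3 | |z.1| < W.δ ∧ ‖z.2‖ < 1 / 2} with hN
  have hNo : IsOpen N := FlowBox.open_image W.toFlowBox le_rfl (by norm_num)
  have hNw : W.pt 0 ∈ N := ⟨(0, 0), by simpa using hδ, rfl⟩
  have hfr := hcl.frequently (hNo.mem_nhds hNw)
  have hfr2 : ∀ a : ℝ, ∃ t, a ≤ t ∧ F.G (-t) e ∈ N := by
    intro a
    obtain ⟨t, ht, ht2⟩ := (hfr.and_eventually (eventually_ge_atTop a)).exists
    exact ⟨t, ht2, ht⟩
  choose f hf1 hf2 using hfr2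
  -- times of passage
  set t : ℕ → ℝ := fun n => Nat.rec (f (2 * W.δ)) (fun _ t => f (t + 3 * W.δ)) n with ht
  have ht0 : t 0 = f (2 * W.δ) := rfl
  have hts : ∀ n, t (n + 1) = f (t n + 3 * W.δ) := fun n => rfl
  have htN : ∀ n, F.G (-t n) e ∈ N := by
    intro n
    cases n with
    | zero => rw [ht0]; exact hf2 _
    | succ n => rw [hts]; exact hf2 _
  have htge : ∀ n, 2 * W.δ ≤ t n := by
    intro n
    induction n with
    | zero => rw [ht0]; exact hf1 _
    | succ n ih => rw [hts]; have := hf1 (t n + 3 * W.δ); linarith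
  have htstep : ∀ n, t n + 3 * W.δ ≤ t (n + 1) := fun n => by rw [hts]; exact hf1 _
  have hvis : ∀ n, ∃ v : ℝ, |v - t n| < W.δ ∧ ∃ q : Q2, ‖q‖ ≤ 1 / 2 ∧ F.G (-v) e = W.pt q := by
    intro n
    obtain ⟨z, ⟨hz1, hz2⟩, hz3⟩ := htN n
    have hL : W.e (z.1, z.2) ∈ F.L := by
      rw [show ((z.1, z.2) : V3) = z from rfl, hz3]; exact F.mapsTo' _ _ he
    have hpt := FlowBox.pt_eq W.toFlowBox hz1.le (hz2.le.trans (by norm_num)) hL
    refine ⟨t n + z.1, ?_, z.2, hz2.le, ?_⟩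
    · have : t n + z.1 - t n = z.1 := by ring
      rwa [this]
    · have e1 : -(t n + z.1) = -z.1 + -t n := by ring
      rw [e1, F.add' _ _ _ he, ← hz3]
      exact hpt.symm
  choose v hv1 hv2 using hvis
  have hvm : StrictMono v := by
    apply strictMono_nat_of_lt_succ
    intro n
    have h1 := abs_lt.1 (hv1 n)
    have h2 := abs_lt.1 (hv1 (n + 1))
    have h3 := htstep n
    linarith
  refine ⟨fun i => v i, fun i j hij => Fin.ext (hvm.injective hij), fun i => ⟨?_, hv2 i⟩⟩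
  have h1 := abs_lt.1 (hv1 i)
  have h2 := htge i
  linarith

/-- counting visits -/
theorem CL_count {F : AFlow M} {W : Box F} {x : M} (hx : x ∈ F.L) {T : ℝ} {n : ℕ}
    {τ : Fin n → ℝ} (hτ : Function.Injective τ) (h0 : ∀ i, 0 < τ i) (hT : ∀ i, τ i ≤ T)
    (hv : ∀ i, ∃ q : Q2, ‖q‖ ≤ 1 ∧ F.G (-τ i) x = W.pt q) : n ≤ ⌊T / W.δ⌋₊ + 1 := by
  have hδ := W.δ_pos
  have hinj : Function.Injective (fun i : Fin n =>
      (⟨⌊τ i / W.δ⌋₊, Nat.lt_succ_of_le (Nat.floor_le_floor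
        (div_le_div_of_nonneg_right (hT i) hδ.le))⟩ : Fin (⌊T / W.δ⌋₊ + 1))) := by
    intro i j hij
    have h1 : ⌊τ i / W.δ⌋₊ = ⌊τ j / W.δ⌋₊ := congrArg Fin.val hij
    have hi := Nat.floor_le (div_nonneg (h0 i).le hδ.le)
    have hi' := Nat.lt_floor_add_one (τ i / W.δ)
    have hj := Nat.floor_le (div_nonneg (h0 j).le hδ.le)
    have hj' := Nat.lt_floor_add_one (τ j / W.δ)
    rw [h1] at hi hi'
    rw [div_lt_iff₀ hδ] at hi' hj'
    rw [le_div_iff₀ hδ] at hi hj
    have hdiff : |τ i - τ j| ≤ W.δ := by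
      rw [abs_le]
      constructor <;> nlinarith
    obtain ⟨qi, hqi, hvi⟩ := hv i
    obtain ⟨qj, hqj, hvj⟩ := hv j
    -- G (τ i - τ j) (pt qi) = pt qj
    have hL : W.pt qi ∈ F.L := by rw [← hvi]; exact F.mapsTo' _ _ hx
    have e1 : F.G (τ i - τ j) (W.pt qi) = W.pt qj := by
      rw [← hvi, ← F.add' _ _ _ hx, ← hvj]
      congr 1
      ring
    have e2 := FlowBox.sep W.toFlowBox hqi hqj hL hdiff e1
    exact hτ (by linarith)
  have := Fintype.card_le_of_injective _ hinj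
  simpa using this

/-- the end point of an unstable curve cannot accumulate backward on a regular point outside
the orbit -/
theorem CL_no_regular [T2Space M] (S : System M) {B : Box S.toAFlow} (hB : Linked S B)
    {O : Set M} {p : M} {T : ℝ} (hO : S.IsPer O p T) {g : ℝ → ℝ} {a b : ℝ} (hab : a < b)
    (hg : IsUCurve B g a b) (hW : ∀ s ∈ Ico a b, B.pt (s, g s) ∈ S.Wu O)
    {W : Box S.toAFlow} (hWb : W ∈ S.boxes)
    (hWO : ∀ (t : ℝ) (q : Q2), |t| ≤ W.δ → ‖q‖ ≤ 1 → W.e (t, q) ∉ O)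
    (hWB : ∀ (t : ℝ) (q q' : Q2) , |t| ≤ W.δ → ‖q‖ ≤ 1 → ‖q'‖ ≤ 1 → W.e (t, q) ≠ B.pt q') :
    ¬ MapClusterPt (W.pt 0) atTop (fun t : ℝ => S.G (-t) (B.pt (b, g b))) := by
  intro hcl
  have hδ := W.δ_pos
  obtain ⟨C, hC, hT⟩ := hB.1 W hWb
  have hL : ∀ s ∈ Icc a b, B.pt (s, g s) ∈ S.L := hg.mem
  set ρ : ℝ := min (b - a) (1 / (8 * C)) with hρ
  have hρ0 : 0 < ρ := lt_min (by linarith) (by positivity)
  have hρa : ρ ≤ b - a := min_le_left _ _
  have hρC : 2 * C * ρ ≤ 1 / 4 := by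
    have h1 : ρ ≤ 1 / (8 * C) := min_le_right _ _
    have h2 : 2 * C * ρ ≤ 2 * C * (1 / (8 * C)) := by gcongr
    have h3 : 2 * C * (1 / (8 * C)) = 1 / 4 := by field_simp; norm_num
    linarith
  -- the complement of the closed image of the box
  set K : Set M := W.e '' {z : V3 | |z.1| ≤ W.δ ∧ ‖z.2‖ ≤ 1} with hK
  have hKc : IsCompact K := by
    apply FlowBox.compact_image W.toFlowBox _ (fun z hz => hz)
    exact (isClosed_le (continuous_abs.comp continuous_fst) continuous_const).inter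
      (isClosed_le (continuous_norm.comp continuous_snd) continuous_const)
  have hKo : IsOpen Kᶜ := hKc.isClosed.isOpen_compl
  have hOK : O ⊆ Kᶜ := by
    rintro x hx ⟨z, hz, rfl⟩
    exact hWO z.1 z.2 hz.1 hz.2 hx
  have hptK : ∀ q : Q2, ‖q‖ ≤ 1 → W.pt q ∈ K := fun q hq =>
    ⟨(0, q), ⟨by simpa using hδ.le, hq⟩, rfl⟩
  -- the property
  let A (n : ℕ) : Set ℝ := {r | ∃ τ : Fin n → ℝ, Function.Injective τ ∧ ∀ i, 0 < τ i ∧
    ∃ q : Q2, ‖q‖ ≤ 1 / 2 + 2 * C * r ∧ S.G (-τ i) (B.pt (b - r, g (b - r))) = W.pt q}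
  have hmem : ∀ r ∈ Icc (0 : ℝ) ρ, b - r ∈ Icc a b := fun r hr =>
    ⟨by linarith [hr.2], by linarith [hr.1]⟩
  have hA0 : ∀ n, (0 : ℝ) ∈ A n := by
    intro n
    obtain ⟨τ, h1, h2⟩ := CL_visits (hL b ⟨hab.le, le_rfl⟩) hcl n
    refine ⟨τ, h1, fun i => ⟨(h2 i).1, ?_⟩⟩
    obtain ⟨q, hq, hq2⟩ := (h2 i).2
    refine ⟨q, by simpa using hq, ?_⟩
    simpa using hq2
  have hopen : ∀ n, ∀ r ∈ A n ∩ Ico 0 ρ, ∀ y ∈ Ioi r, (A n ∩ Ioc r y).Nonempty := by
    rintro n r ⟨⟨τ, hinj, hτ⟩, hr⟩ y hy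
    have hrI : r ∈ Icc (0 : ℝ) ρ := ⟨hr.1, hr.2.le⟩
    have hrR : 1 / 2 + 2 * C * r ≤ 3 / 4 := by
      have : 2 * C * r ≤ 2 * C * ρ := by gcongr; exact hr.2.le
      linarith
    have hL' := hL _ (hmem r hrI)
    choose hτ0 q hq hv using hτ
    have hev : ∀ᶠ s' in 𝓝[Icc a b] (b - r), ∀ i, ∃ (t' : ℝ) (q' : Q2),
        |t' - τ i| < min (τ i) (W.δ / 4) ∧ ‖q' - q i‖ ≤ 2 * C * |s' - (b - r)| ∧
          S.G (-t') (B.pt (s', g s')) = W.pt q' := by
      rw [eventually_all]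
      intro i
      exact CL_persist hC hT hg (hmem r hrI) (hτ0 i).le
        (lt_of_le_of_lt (hq i) (by linarith)) (hv i) (lt_min (hτ0 i) (by linarith))
    -- choose a nearby parameter to the left
    have hev2 : ∀ᶠ r' in 𝓝[>] r, ∀ i, ∃ (t' : ℝ) (q' : Q2),
        |t' - τ i| < min (τ i) (W.δ / 4) ∧ ‖q' - q i‖ ≤ 2 * C * |(b - r') - (b - r)| ∧
          S.G (-t') (B.pt (b - r', g (b - r'))) = W.pt q' := by
      have ht : Tendsto (fun r' : ℝ => b - r') (𝓝[>] r) (𝓝[Icc a b] (b - r)) := by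
        apply tendsto_nhdsWithin_of_tendsto_nhds_of_eventually_within
        · exact ((continuous_const.sub continuous_id).tendsto r).mono_left nhdsWithin_le_nhds
        · have : Ioc r ρ ∈ 𝓝[>] r := Ioc_mem_nhdsGT hr.2
          filter_upwards [this] with r' hr'
          exact hmem r' ⟨hr.1.trans hr'.1.le, hr'.2⟩
      exact ht.eventually hev
    have hlt : r < min y ρ := lt_min hy hr.2
    obtain ⟨r', hr', hr'2⟩ := (hev2.and (Ioc_mem_nhdsGT hlt)).exists
    refine ⟨r', ⟨?_, hr'2.1, hr'2.2.trans (min_le_left _ _)⟩⟩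
    choose t' q' h1 h2 h3 using hr'
    refine ⟨t', ?_, fun i => ⟨?_, q' i, ?_, h3 i⟩⟩
    · intro i j hij
      by_contra hne
      have h4 := (h1 i).trans_le (min_le_right _ _)
      have h5 := (h1 j).trans_le (min_le_right _ _)
      rw [abs_lt] at h4 h5
      have h6 : |τ i - τ j| ≤ W.δ := by
        rw [abs_le]
        constructor <;> linarith
      have hLi : W.pt (q i) ∈ S.L := by
        rw [← hv i]; exact S.mapsTo' _ _ hL'
      have h7 : S.G (τ i - τ j) (W.pt (q i)) = W.pt (q j) := by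
        rw [← hv i, ← S.add' _ _ _ hL', ← hv j]
        congr 1
        ring
      have h8 := FlowBox.sep W.toFlowBox ((hq i).trans (by linarith))
        ((hq j).trans (by linarith)) hLi h6 h7
      exact hne (hinj (by linarith))
    · have h4 := (h1 i).trans_le (min_le_left _ _)
      rw [abs_lt] at h4
      linarith
    · have h4 : |(b - r') - (b - r)| = r' - r := by
        have : (b - r') - (b - r) = -(r' - r) := by ring
        rw [this, abs_neg, abs_of_pos (by linarith [hr'2.1])]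
      have h5 := h2 i
      rw [h4] at h5
      calc ‖q' i‖ = ‖(q' i - q i) + q i‖ := by congr 1; abel
        _ ≤ ‖q' i - q i‖ + ‖q i‖ := norm_add_le _ _
        _ ≤ 2 * C * (r' - r) + (1 / 2 + 2 * C * r) := add_le_add h5 (hq i)
        _ = 1 / 2 + 2 * C * r' := by ring
  have hgc : ContinuousOn g (Icc a b) := fun x hx => (hg.der x hx).continuousWithinAt
  have hxc : ContinuousOn (fun s => B.pt (s, g s)) (Icc a b) :=
    (FlowBox.pt_cont B.toFlowBox).comp (continuousOn_id.prodMk hgc)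
      (fun x hx => hg.norm_le x hx)
  have hclosed : ∀ n, IsClosed (A n ∩ Icc 0 ρ) := by
    intro n
    apply IsSeqClosed.isClosed
    intro r r₀ hr hr₀
    have hr₀I : r₀ ∈ Icc (0 : ℝ) ρ := isClosed_Icc.mem_of_tendsto hr₀
      (Eventually.of_forall fun k => (hr k).2)
    refine ⟨?_, hr₀I⟩
    rcases eq_or_lt_of_le hr₀I.1 with h0 | h0
    · rw [← h0]; exact hA0 n
    -- uniform bound for the times
    have hK1 : Icc (b - ρ) (b - r₀ / 2) ⊆ Icc a b := fun s hs =>
      ⟨by linarith [hs.1], by linarith [hs.2]⟩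
    obtain ⟨T₁, hT₁⟩ := CL_unif S hB hO hg (isCompact_Icc (a := b - ρ) (b := b - r₀ / 2)) hK1
      (fun s hs => hW s ⟨by linarith [hs.1], by linarith [hs.2]⟩) hKo hOK
    obtain ⟨k₀, hk₀⟩ := eventually_atTop.1 (hr₀.eventually (lt_mem_nhds (half_lt_self h0)))
    set v : ℕ → ℝ := fun k => r (k + k₀) with hvdef
    have hvlim : Tendsto v atTop (𝓝 r₀) := (tendsto_add_atTop_iff_nat k₀).2 hr₀
    have hvI : ∀ k, v k ∈ Icc (0 : ℝ) ρ := fun k => (hr _).2
    have hvhalf : ∀ k, r₀ / 2 < v k := fun k => hk₀ _ (Nat.le_add_left _ _)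
    have hvA : ∀ k, v k ∈ A n := fun k => (hr _).1
    choose τ hinj hτ using hvA
    choose hτ0 q hq hv using hτ
    have hR : ∀ k, 1 / 2 + 2 * C * v k ≤ 3 / 4 := by
      intro k
      have : 2 * C * v k ≤ 2 * C * ρ := by gcongr; exact (hvI k).2
      linarith
    have hτT : ∀ k i, τ k i ≤ T₁ := by
      intro k i
      by_contra hcon
      rw [not_le] at hcon
      apply hT₁ (τ k i) hcon.le (b - v k) ⟨by linarith [(hvI k).2], by linarith [hvhalf k]⟩
      rw [hv k i]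
      exact hptK _ ((hq k i).trans (by linarith [hR k]))
    have hcomp : IsCompact (Set.pi univ (fun _ : Fin n => Icc (0 : ℝ) T₁)) :=
      isCompact_univ_pi fun _ => isCompact_Icc
    obtain ⟨θ, -, ψ, hψ, hθ⟩ := hcomp.tendsto_subseq (x := τ)
      (fun k => fun i _ => ⟨(hτ0 k i).le, hτT k i⟩)
    have hθi : ∀ i, Tendsto (fun k => τ (ψ k) i) atTop (𝓝 (θ i)) := fun i =>
      (tendsto_pi_nhds.1 hθ) i
    have hvψ : Tendsto (fun k => v (ψ k)) atTop (𝓝 r₀) := hvlim.comp hψ.tendsto_atTop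
    have hbr : b - r₀ ∈ Icc a b := hmem r₀ hr₀I
    -- limits of the visits
    have hvis : ∀ i, ∃ q : Q2, ‖q‖ ≤ 1 / 2 + 2 * C * r₀ ∧
        S.G (-θ i) (B.pt (b - r₀, g (b - r₀))) = W.pt q := by
      intro i
      have h1 : Tendsto (fun k => B.pt (b - v (ψ k), g (b - v (ψ k)))) atTop
          (𝓝[S.L] (B.pt (b - r₀, g (b - r₀)))) := by
        apply tendsto_nhdsWithin_of_tendsto_nhds_of_eventually_within
        · have h2 : Tendsto (fun k => b - v (ψ k)) atTop (𝓝[Icc a b] (b - r₀)) := by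
            apply tendsto_nhdsWithin_of_tendsto_nhds_of_eventually_within
            · exact tendsto_const_nhds.sub hvψ
            · exact Eventually.of_forall fun k => hmem _ (hvI _)
          exact (hxc _ hbr).tendsto.comp h2
        · exact Eventually.of_forall fun k => hL _ (hmem _ (hvI _))
      have h3 : Tendsto (fun k => S.G (-τ (ψ k) i) (B.pt (b - v (ψ k), g (b - v (ψ k)))))
          atTop (𝓝 (S.G (-θ i) (B.pt (b - r₀, g (b - r₀))))) := by
        have h4 := S.cont' (-θ i, B.pt (b - r₀, g (b - r₀))) ⟨mem_univ _, hL _ hbr⟩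
        have h5 : Tendsto (fun k => ((-τ (ψ k) i, B.pt (b - v (ψ k), g (b - v (ψ k)))) :
            ℝ × M)) atTop (𝓝[univ ×ˢ S.L] (-θ i, B.pt (b - r₀, g (b - r₀)))) := by
          rw [nhdsWithin_prod_eq, nhdsWithin_univ]
          exact (hθi i).neg.prodMk h1
        exact h4.tendsto.comp h5
      set y := S.G (-θ i) (B.pt (b - r₀, g (b - r₀))) with hy
      have hyK : y ∈ K := by
        apply hKc.isClosed.mem_of_tendsto h3
        filter_upwards with k
        rw [hv]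
        exact hptK _ ((hq _ _).trans (by linarith [hR (ψ k)]))
      obtain ⟨z, hz, hzy⟩ := hyK
      have hzs : z ∈ W.e.source := W.src z.1 z.2 hz.1 hz.2
      have hyt : y ∈ W.e.target := by rw [← hzy]; exact W.e.map_source hzs
      have hsy : W.e.symm y = z := by rw [← hzy]; exact W.e.left_inv hzs
      have h6 : Tendsto (fun k => W.e.symm (S.G (-τ (ψ k) i)
          (B.pt (b - v (ψ k), g (b - v (ψ k)))))) atTop (𝓝 z) := by
        have := (W.e.continuousAt_symm hyt).tendsto.comp h3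
        rwa [hsy] at this
      have h7 : ∀ k, W.e.symm (S.G (-τ (ψ k) i) (B.pt (b - v (ψ k), g (b - v (ψ k))))) =
          (0, q (ψ k) i) := by
        intro k
        rw [hv]
        exact W.e.left_inv (W.src 0 _ (by simpa using hδ.le)
          ((hq _ _).trans (by linarith [hR (ψ k)])))
      simp_rw [h7] at h6
      have hz1 : z.1 = 0 := by
        have := (continuous_fst.tendsto z).comp h6
        exact tendsto_nhds_unique this tendsto_const_nhds
      have hz2 : ‖z.2‖ ≤ 1 / 2 + 2 * C * r₀ := by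
        have h8 : Tendsto (fun k => ‖q (ψ k) i‖) atTop (𝓝 ‖z.2‖) :=
          ((continuous_norm.comp continuous_snd).tendsto z).comp h6
        have h9 : Tendsto (fun k => 1 / 2 + 2 * C * v (ψ k)) atTop
            (𝓝 (1 / 2 + 2 * C * r₀)) := (hvψ.const_mul _).const_add _
        exact le_of_tendsto_of_tendsto' h8 h9 (fun k => hq _ _)
      refine ⟨z.2, hz2, ?_⟩
      rw [← hzy]
      show W.e z = W.e (0, z.2)
      rw [← hz1]
    have hRr : 1 / 2 + 2 * C * r₀ ≤ 3 / 4 := by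
      have : 2 * C * r₀ ≤ 2 * C * ρ := by gcongr; exact hr₀I.2
      linarith
    refine ⟨θ, ?_, fun i => ⟨?_, hvis i⟩⟩
    · intro i j hij
      by_contra hne
      have h1 : ∀ k, W.δ ≤ |τ (ψ k) i - τ (ψ k) j| := by
        intro k
        by_contra hcon
        rw [not_le] at hcon
        have hL' := hL _ (hmem _ (hvI (ψ k)))
        have hLi : W.pt (q (ψ k) i) ∈ S.L := by
          rw [← hv]; exact S.mapsTo' _ _ hL'
        have h7 : S.G (τ (ψ k) i - τ (ψ k) j) (W.pt (q (ψ k) i)) = W.pt (q (ψ k) j) := by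
          rw [← hv, ← S.add' _ _ _ hL', ← hv (ψ k) j]
          congr 1
          ring
        have h8 := FlowBox.sep W.toFlowBox ((hq (ψ k) i).trans (by linarith [hR (ψ k)]))
          ((hq (ψ k) j).trans (by linarith [hR (ψ k)])) hLi hcon.le h7
        exact hne (hinj _ (by linarith))
      have h2 : Tendsto (fun k => |τ (ψ k) i - τ (ψ k) j|) atTop (𝓝 |θ i - θ j|) :=
        ((hθi i).sub (hθi j)).abs
      have h3 := ge_of_tendsto' h2 h1
      rw [hij, sub_self, abs_zero] at h3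
      linarith
    · have h1 : 0 ≤ θ i := ge_of_tendsto' (hθi i) (fun k => (hτ0 _ _).le)
      rcases eq_or_lt_of_le h1 with h2 | h2
      · exfalso
        obtain ⟨q', hq', hv'⟩ := hvis i
        rw [← h2, neg_zero, S.zero'] at hv'
        exact hWB 0 q' (b - r₀, g (b - r₀)) (by simpa using hδ.le) (by linarith)
          (hg.norm_le _ hbr) hv'.symm
      · exact h2
  have hall : ∀ n, ρ ∈ A n := by
    intro n
    have := IsClosed.Icc_subset_of_forall_exists_gt (hclosed n) (hA0 n) (hopen n)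
    exact this ⟨hρ0.le, le_rfl⟩
  -- contradiction by counting
  have hs1 : b - ρ ∈ Ico a b := ⟨by linarith, by linarith⟩
  obtain ⟨hs1L, hs1W⟩ := hW _ hs1
  obtain ⟨T₁, hT₁⟩ := eventually_atTop.1 (hs1W _ hKo hOK)
  obtain ⟨τ, hinj, hτ⟩ := hall (⌊T₁ / W.δ⌋₊ + 2)
  have hle : ⌊T₁ / W.δ⌋₊ + 2 ≤ ⌊T₁ / W.δ⌋₊ + 1 := by
    apply CL_count (W := W) hs1L hinj (fun i => (hτ i).1)
    · intro i
      by_contra hcon
      rw [not_le] at hcon
      obtain ⟨q, hq, hv⟩ := (hτ i).2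
      apply hT₁ (τ i) hcon.le
      rw [hv]
      exact hptK q (by linarith)
    · intro i
      obtain ⟨q, hq, hv⟩ := (hτ i).2
      exact ⟨q, by linarith, hv⟩
  omega

theorem cut_lemma [T2Space M] (S : System M) {B : Box S.toAFlow} (hB : Linked S B)
    {O : Set M} {p : M} {T : ℝ} (hO : S.IsPer O p T) {g : ℝ → ℝ} {a b : ℝ} (hab : a < b)
    (hg : IsUCurve B g a b) (hW : ∀ s ∈ Ico a b, B.pt (s, g s) ∈ S.Wu O) :
    B.pt (b, g b) ∈ S.Wu O ∪ S.WuSing := by
  have hbI : b ∈ Icc a b := ⟨hab.le, le_rfl⟩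
  have he : B.pt (b, g b) ∈ S.L := hg.mem b hbI
  have hδ := B.δ_pos
  apply CL_final S.toAFlow hO he
  intro w hw
  by_contra hcon
  -- `w` is in `L`
  have hγL : ∀ t : ℝ, S.G (-t) (B.pt (b, g b)) ∈ S.L := fun t => S.mapsTo' _ _ he
  have hLcl : IsClosed S.L := S.compact'.isClosed
  have hwL : w ∈ S.L := by
    by_contra hn
    obtain ⟨t, ht⟩ := (hw.frequently (hLcl.isOpen_compl.mem_nhds hn)).exists
    exact ht (hγL t)
  set Sec : Set M := B.pt '' {q : Q2 | ‖q‖ ≤ 1} with hSec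
  have hSecc : IsCompact Sec := by
    apply IsCompact.image_of_continuousOn _ (FlowBox.pt_cont B.toFlowBox)
    have : {q : Q2 | ‖q‖ ≤ 1} = Metric.closedBall 0 1 := by ext q; simp
    rw [this]
    exact isCompact_closedBall _ _
  -- replace `w` by a point outside the section
  obtain ⟨w', hw', hw'L, hw'O, hw'Sec⟩ : ∃ w', MapClusterPt w' atTop
      (fun t : ℝ => S.G (-t) (B.pt (b, g b))) ∧ w' ∈ S.L ∧ w' ∉ O ∪ S.Sing ∧ w' ∉ Sec := by
    by_cases hwSec : w ∈ Sec
    · obtain ⟨q, hq, rfl⟩ := hwSec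
      refine ⟨S.G (B.δ / 2) (B.pt q), ?_, S.mapsTo' _ _ hwL, ?_, ?_⟩
      · apply MapClusterPt.of_comp (φ := fun t : ℝ => t - B.δ / 2) (p := atTop)
          (tendsto_atTop_add_const_right _ _ tendsto_id)
        rw [mapClusterPt_iff_frequently]
        intro N hN
        have h1 : ContinuousOn (fun x => S.G (B.δ / 2) x) S.L :=
          S.cont'.comp (continuousOn_const.prodMk continuousOn_id)
            (fun x hx => ⟨mem_univ _, hx⟩)
        have h2 := (h1 _ hwL) hN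
        rw [mem_map, mem_nhdsWithin] at h2
        obtain ⟨V, hVo, hwV, hV⟩ := h2
        refine (hw.frequently (hVo.mem_nhds hwV)).mono fun t ht => ?_
        have h3 : S.G (B.δ / 2) (S.G (-t) (B.pt (b, g b))) ∈ N := hV ⟨ht, hγL t⟩
        rw [← S.add' _ _ _ he] at h3
        have : B.δ / 2 + -t = -(t - B.δ / 2) := by ring
        rw [this] at h3
        exact h3
      · rintro (h | h)
        · apply hcon; left
          have := AFlow.IsPer.inv _ hO (-(B.δ / 2)) _ h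
          rwa [AFlow.G_neg_G S.toAFlow hwL] at this
        · apply hcon; right
          exact (AFlow.Sing_iff S.toAFlow hwL (B.δ / 2)).1 h
      · rintro ⟨q', hq', h⟩
        have hb2 : |B.δ / 2| ≤ B.δ := by rw [abs_of_pos (by linarith)]; linarith
        have h1 := FlowBox.G_pt B.toFlowBox hb2 hq hwL
        have h2 := FlowBox.not_mem_section B.toFlowBox hb2 (by linarith) hq hq'
        apply h2
        rw [← h1]
        exact h.symm
    · exact ⟨w, hw, hwL, hcon, hwSec⟩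
  have hOc := (AFlow.IsPer.compact _ hO).isClosed
  have hN : (O ∪ Sec)ᶜ ∈ 𝓝 w' := by
    apply (hOc.union hSecc.isClosed).isOpen_compl.mem_nhds
    rintro (h | h)
    · exact hw'O (Or.inl h)
    · exact hw'Sec h
  obtain ⟨W, hWb, hW0, hWN⟩ := S.exist w' hw'L (fun h => hw'O (Or.inr h)) _ hN
  apply CL_no_regular S hB hO hab hg hW hWb
  · intro t q ht hq h
    exact hWN t q ht hq (Or.inl h)
  · intro t q q' ht hq hq' h
    apply hWN t q ht hq
    right
    exact ⟨q', hq', h.symm⟩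
  · rw [hW0]
    exact hw'

end VeniceMask
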