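import Pool.Agent.helper75.VM.M_UE2

/-!
# MP_509a24_an, module CR: crossing near `z`
-/

open Set Filter Topology Bundle
open scoped ContDiff Manifold

namespace VeniceMask

universe u

variable {M : Type u} [TopologicalSpace M]

/-- points of the closure of `A ⊆ L` near the centre of a box can be shifted to the section -/
theorem CR_shift {F : AFlow M} (B : FlowBox F) {A : Set M}
    (hA : ∀ x ∈ A, x ∈ F.L) (hG : ∀ x ∈ A, ∀ t, F.G t x ∈ A)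
    (hz : B.pt 0 ∈ closure A) {ρ : ℝ} (hρ : 0 < ρ) (hρ1 : ρ ≤ 1) :
    ∃ q : Q2, ‖q‖ < ρ ∧ B.pt q ∈ A := by
  have hopen : IsOpen (B.e '' {z : V3 | |z.1| < B.δ ∧ ‖z.2‖ < ρ}) :=
    B.open_image le_rfl hρ1
  have hmem : B.pt 0 ∈ B.e '' {z : V3 | |z.1| < B.δ ∧ ‖z.2‖ < ρ} :=
    ⟨(0, 0), ⟨by simpa using B.δ_pos, by simpa using hρ⟩, rfl⟩
  obtain ⟨x, hxU, hxA⟩ := mem_closure_iff.1 hz _ hopen hmem
  obtain ⟨⟨t, q⟩, ⟨ht, hq⟩, rfl⟩ := hxU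
  have ht' : |t| ≤ B.δ := le_of_lt ht
  have hq' : ‖q‖ ≤ 1 := le_trans (le_of_lt hq) hρ1
  refine ⟨q, hq, ?_⟩
  rw [B.pt_eq ht' hq' (hA _ hxA)]
  exact hG _ hxA _

theorem cross_near [T2Space M] (S : System M) {O₁ O₂ : Set M} {p₁ p₂ : M} {T₁ T₂ : ℝ}
    (hO₁ : S.IsPer O₁ p₁ T₁) (hO₂ : S.IsPer O₂ p₂ T₂) {z : M} (hz : z ∈ S.L)
    (hK : z ∉ closure S.WuSing) (h1 : z ∈ closure (S.Ws O₁ ∩ S.Wu O₁))
    (h2 : z ∈ closure (S.Ws O₂ ∩ S.Wu O₂)) : (S.Wu O₁ ∩ S.Ws O₂).Nonempty := by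
  have hsing : z ∉ S.Sing := fun h => hK (subset_closure (S.Sing_sub h))
  obtain ⟨B, hB, hB0, hBN⟩ := S.exist z hz hsing ((closure S.WuSing)ᶜ)
    (isClosed_closure.isOpen_compl.mem_nhds hK)
  have hK' : ∀ q : Q2, ‖q‖ ≤ 1 → B.pt q ∉ S.WuSing := fun q hq h =>
    hBN 0 q (by simpa using B.δ_pos.le) hq (subset_closure h)
  obtain ⟨η, hη, hSS⟩ := S.strong B hB
  set η' : ℝ := min η (1 / 4) with hη'
  have hη'0 : 0 < η' := lt_min hη (by norm_num)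
  have hη'1 : η' ≤ η := min_le_left _ _
  have hη'2 : η' ≤ 1 / 4 := min_le_right _ _
  have hinv : ∀ O : Set M, ∀ x ∈ S.Ws O ∩ S.Wu O, ∀ t, S.G t x ∈ S.Ws O ∩ S.Wu O := by
    intro O x hx t
    exact ⟨(S.Ws_iff' hx.2.1 t).2 hx.1, (S.Wu_iff hx.2.1 t).2 hx.2⟩
  obtain ⟨q₁, hq₁, hx₁⟩ := CR_shift B.toFlowBox (A := S.Ws O₁ ∩ S.Wu O₁)
    (fun x hx => hx.2.1) (hinv O₁) (by rw [show B.toFlowBox.pt 0 = z from hB0]; exact h1)
    (ρ := η' / 32) (by positivity) (by linarith)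
  obtain ⟨q₂, hq₂, hx₂⟩ := CR_shift B.toFlowBox (A := S.Ws O₂ ∩ S.Wu O₂)
    (fun x hx => hx.2.1) (hinv O₂) (by rw [show B.toFlowBox.pt 0 = z from hB0]; exact h2)
    (ρ := η' / 32) (by positivity) (by linarith)
  obtain ⟨g, hg, hg0, hgW⟩ := extend_both S (linked_of_mem S hB) hO₁ hK'
    (q := q₁) (by linarith) hx₁.2
  obtain ⟨k, hk0, hkL, hkW⟩ := hSS q₂ (by linarith) hx₂.2.1
  have hn1 : |q₁.1| ≤ η' / 32 := le_trans (norm_fst_le q₁) hq₁.le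
  have hn2 : |q₁.2| ≤ η' / 32 := le_trans (norm_snd_le q₁) hq₁.le
  have hn3 : |q₂.1| ≤ η' / 32 := le_trans (norm_fst_le q₂) hq₂.le
  have hn4 : |q₂.2| ≤ η' / 32 := le_trans (norm_snd_le q₂) hq₂.le
  rw [abs_le] at hn1 hn2 hn3 hn4
  have hJ : ∀ v ∈ Icc (q₂.2 - η') (q₂.2 + η'), v ∈ Icc (q₂.2 - η) (q₂.2 + η) := by
    intro v hv
    exact ⟨by linarith [hv.1], by linarith [hv.2]⟩
  have hc2 : q₂.2 ∈ Icc (q₂.2 - η) (q₂.2 + η) := ⟨by linarith, by linarith⟩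
  have hkc : ∀ v ∈ Icc (q₂.2 - η') (q₂.2 + η'), |k v - q₂.1| ≤ η' / 4 := by
    intro v hv
    have h := hkL v (hJ v hv) q₂.2 hc2
    rw [hk0] at h
    have h' : |v - q₂.2| ≤ η' := abs_le.2 ⟨by linarith [hv.1], by linarith [hv.2]⟩
    linarith
  have hkd : ∀ v ∈ Icc (q₂.2 - η') (q₂.2 + η'), k v ∈ Icc (q₁.1 - 1 / 2) (q₁.1 + 1 / 2) := by
    intro v hv
    have h := abs_le.1 (hkc v hv)
    exact ⟨by linarith [h.1], by linarith [h.2]⟩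
  have hq1d : q₁.1 ∈ Icc (q₁.1 - 1 / 2) (q₁.1 + 1 / 2) := ⟨by linarith, by linarith⟩
  have hgk : ∀ v ∈ Icc (q₂.2 - η') (q₂.2 + η'), |g (k v) - q₁.2| ≤ η' / 8 := by
    intro v hv
    have h := hg.lip (hkd v hv) hq1d
    rw [hg0] at h
    have h2 := abs_le.1 (hkc v hv)
    have h3 : |k v - q₁.1| ≤ η' / 2 := abs_le.2 ⟨by linarith [h2.1], by linarith [h2.2]⟩
    linarith
  have hgc : ContinuousOn g (Icc (q₁.1 - 1 / 2) (q₁.1 + 1 / 2)) := fun h hh =>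
    (hg.der h hh).continuousWithinAt
  have hkcont : ContinuousOn k (Icc (q₂.2 - η') (q₂.2 + η')) := by
    refine LipschitzOnWith.continuousOn (K := 1 / 4) (LipschitzOnWith.of_dist_le_mul ?_)
    intro v hv w hw
    have := hkL v (hJ v hv) w (hJ w hw)
    simpa [Real.dist_eq] using this
  have hcont : ContinuousOn (fun v => g (k v) - v) (Icc (q₂.2 - η') (q₂.2 + η')) :=
    (hgc.comp hkcont hkd).sub continuousOn_id
  have hle : q₂.2 - η' ≤ q₂.2 + η' := by linarith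
  have hl : q₂.2 - η' ∈ Icc (q₂.2 - η') (q₂.2 + η') := left_mem_Icc.2 hle
  have hr : q₂.2 + η' ∈ Icc (q₂.2 - η') (q₂.2 + η') := right_mem_Icc.2 hle
  have hel := abs_le.1 (hgk _ hl)
  have her := abs_le.1 (hgk _ hr)
  have h0 : (0 : ℝ) ∈ Icc (g (k (q₂.2 + η')) - (q₂.2 + η')) (g (k (q₂.2 - η')) - (q₂.2 - η')) :=
    ⟨by linarith [her.2], by linarith [hel.1]⟩
  obtain ⟨v, hv, hv0⟩ := intermediate_value_Icc' hle hcont h0
  have hgv : g (k v) = v := by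
    have : g (k v) - v = 0 := hv0
    linarith
  refine ⟨B.pt (k v, v), ?_, ?_⟩
  · have := hgW (k v) (hkd v hv)
    rwa [hgv] at this
  · exact hkW v (hJ v hv) O₂ (AFlow.IsPer.sub _ hO₂) (AFlow.IsPer.compact _ hO₂)
      (fun t _ x hx => AFlow.IsPer.inv _ hO₂ t x hx) hx₂.1

end VeniceMask
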