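import Pool.Agent.helper75.VM.M_AF
import Pool.Agent.helper75.VM.M_B0

/-!
# MP_509a24_an, module FB2: the derivative in flow boxes, rescaling
-/

open Set Filter Topology Bundle
open scoped ContDiff Manifold

namespace VeniceMask

universe u

section FB2aux

variable {M : Type u} [TopologicalSpace M] [ChartedSpace (EuclideanHalfSpace 3) M]
  [IsManifold (𝓡∂ 3) ∞ M]

theorem FB2_diff {V : Type} [NormedAddCommGroup V] [NormedSpace ℝ V]
    {e : OpenPartialHomeomorph V M} (he : IsC1Param e) {z : V} (hz : z ∈ e.source) :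
    HasMFDerivAt 𝓘(ℝ, V) (𝓡∂ 3) e z (DP e z) :=
  ((he.smooth.contMDiffAt (e.open_source.mem_nhds hz)).mdifferentiableAt
    (by norm_num)).hasMFDerivAt

theorem FB2_map {A : AFlow M} (B : FlowBox A) {q : Q2} (hq : ‖q‖ ≤ 1) {s : ℝ}
    (hs : |s| ≤ B.δ) : B.e (s, q) = A.G (s + B.δ) (B.e (-B.δ, q)) := by
  have h0 : 0 ≤ s + B.δ := by linarith [(abs_le.1 hs).1]
  have h2 : -B.δ + (s + B.δ) = s := by ring
  have h1 := B.flow (-B.δ) (s + B.δ) q (by rw [abs_neg, abs_of_pos B.δ_pos])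
    (by rw [h2]; exact hs) h0 hq
  rw [h2] at h1
  exact h1

/-- the rescaling of the section coordinates -/
noncomputable def FB2_lin (ρ : ℝ) (hρ : ρ ≠ 0) : V3 ≃L[ℝ] V3 :=
  ContinuousLinearEquiv.equivOfInverse
    ((ContinuousLinearMap.fst ℝ ℝ Q2).prod (ρ • ContinuousLinearMap.snd ℝ ℝ Q2))
    ((ContinuousLinearMap.fst ℝ ℝ Q2).prod (ρ⁻¹ • ContinuousLinearMap.snd ℝ ℝ Q2))
    (fun z => by
      ext <;> simp [hρ])
    (fun z => by
      ext <;> simp [hρ])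

theorem FB2_lin_apply (ρ : ℝ) (hρ : ρ ≠ 0) (z : V3) : FB2_lin ρ hρ z = (z.1, ρ • z.2) := rfl

theorem FB2_lin_symm_apply (ρ : ℝ) (hρ : ρ ≠ 0) (z : V3) :
    (FB2_lin ρ hρ).symm z = (z.1, ρ⁻¹ • z.2) := rfl

end FB2aux

variable {M : Type u} [TopologicalSpace M] [ChartedSpace (EuclideanHalfSpace 3) M]
  [IsManifold (𝓡∂ 3) ∞ M] [CompactSpace M] [T2Space M]
  {g : Metric3 M} {X : ∀ x : M, TS x} {φ : ℝ → M → M} {E F : ∀ x : M, Submodule ℝ (TS x)}
  {H : Hyp g X φ E F}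

theorem flowBox_X {d : ℕ} (B : FlowBox (aflow H d)) (hB : IsC1Param B.e) {t : ℝ} {q : Q2}
    (ht : |t| ≤ B.δ) (hq : ‖q‖ ≤ 1) (c : ℝ) :
    DP B.e (t, q) (c, 0) = c • X (B.e (t, q)) := by
  set y : M := B.e (-B.δ, q) with hy
  have hδ := B.δ_pos
  have hmap : ∀ s ∈ Icc (-B.δ) B.δ, B.e (s, q) = φ (s + B.δ) y := by
    intro s hs
    rw [FB2_map B hq (abs_le.2 hs), aflow_G, G2_nonneg (by linarith [hs.1])]
  have htI : t ∈ Icc (-B.δ) B.δ := abs_le.1 ht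
  -- first derivative
  have h1 : HasMFDerivWithinAt 𝓘(ℝ, ℝ) (𝓡∂ 3) (fun s : ℝ => B.e (s, q)) (Icc (-B.δ) B.δ) t
      ((DP B.e (t, q)).comp ((ContinuousLinearMap.id ℝ ℝ).prod 0)) := by
    have ha := FB2_diff hB (B.src t q ht hq)
    have hb : HasMFDerivWithinAt 𝓘(ℝ, ℝ) 𝓘(ℝ, V3) (fun s : ℝ => ((s, q) : V3))
        (Icc (-B.δ) B.δ) t ((ContinuousLinearMap.id ℝ ℝ).prod (0 : ℝ →L[ℝ] Q2)) := by
      apply HasFDerivWithinAt.hasMFDerivWithinAt
      exact (hasFDerivWithinAt_id t _).prodMk (hasFDerivWithinAt_const q t _)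
    exact HasMFDerivAt.comp_hasMFDerivWithinAt t ha hb
  -- second derivative
  have h2 : HasMFDerivWithinAt 𝓘(ℝ, ℝ) (𝓡∂ 3) (fun s : ℝ => φ (s + B.δ) y)
      (Icc (-B.δ) B.δ) t
      (((1 : ℝ →L[ℝ] ℝ).smulRight (X (φ (t + B.δ) y))).comp (ContinuousLinearMap.id ℝ ℝ)) := by
    have ha : HasMFDerivWithinAt 𝓘(ℝ, ℝ) (𝓡∂ 3) (fun s => φ s y) (Ici (0 : ℝ)) (t + B.δ)
        ((1 : ℝ →L[ℝ] ℝ).smulRight (X (φ (t + B.δ) y))) :=
      H.flow.integral y (t + B.δ) (by simp only [mem_Ici]; linarith [htI.1])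
    have hb : HasMFDerivWithinAt 𝓘(ℝ, ℝ) 𝓘(ℝ, ℝ) (fun s : ℝ => s + B.δ) (Icc (-B.δ) B.δ) t
        (ContinuousLinearMap.id ℝ ℝ) := by
      apply HasFDerivWithinAt.hasMFDerivWithinAt
      exact (hasFDerivWithinAt_id t _).add_const B.δ
    exact HasMFDerivWithinAt.comp t ha hb (fun s hs => by
      simp only [mem_Ici, mem_preimage]; linarith [hs.1])
  have h2' : HasMFDerivWithinAt 𝓘(ℝ, ℝ) (𝓡∂ 3) (fun s : ℝ => B.e (s, q))
      (Icc (-B.δ) B.δ) t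
      (((1 : ℝ →L[ℝ] ℝ).smulRight (X (φ (t + B.δ) y))).comp (ContinuousLinearMap.id ℝ ℝ)) := by
    refine h2.congr_of_eventuallyEq ?_ (hmap t htI)
    filter_upwards [self_mem_nhdsWithin] with s hs
    exact hmap s hs
  have hu : UniqueMDiffWithinAt 𝓘(ℝ, ℝ) (Icc (-B.δ) B.δ) t :=
    (uniqueDiffOn_Icc (by linarith) t htI).uniqueMDiffWithinAt
  have heq := UniqueMDiffWithinAt.eq hu h1 h2'
  have h5 := congrArg (fun L : ℝ →L[ℝ] E3 => L c) heq
  have h6 : (show E3 from DP B.e (t, q) (c, 0)) = (show E3 from c • X (φ (t + B.δ) y)) := h5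
  have key : ∀ z : M, z = B.e (t, q) →
      (show E3 from DP B.e (t, q) (c, 0)) = (show E3 from c • X z) →
      (show E3 from DP B.e (t, q) (c, 0)) = (show E3 from c • X (B.e (t, q))) := by
    intro z hz h
    subst hz
    exact h
  exact key _ (hmap t htI).symm h6

/-- the derivative of the flow inside a flow box -/
theorem flowBox_D {d : ℕ} (B : FlowBox (aflow H d)) (hB : IsC1Param B.e) {t s : ℝ} {q : Q2}
    (ht : |t| ≤ B.δ) (hts : |t + s| ≤ B.δ) (hs : 0 ≤ s) (hq : ‖q‖ ≤ 1) (ξ : V3) :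
    (show E3 from D φ s (B.e (t, q)) (DP B.e (t, q) ξ)) = DP B.e (t + s, q) ξ := by
  have hmap : ∀ q' : Q2, ‖q'‖ ≤ 1 → B.e (t + s, q') = φ s (B.e (t, q')) := by
    intro q' hq'
    rw [B.flow t s q' ht hts hs hq', aflow_G, G2_nonneg hs]
  have hqI : q ∈ Metric.closedBall (0 : Q2) 1 := by simpa using hq
  have hφ : HasMFDerivAt (𝓡∂ 3) (𝓡∂ 3) (φ s) (B.e (t, q)) (D φ s (B.e (t, q))) :=
    ((flow_smooth_at H.flow hs _).mdifferentiableAt (by norm_num)).hasMFDerivAt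
  have hin : ∀ r : ℝ, HasMFDerivWithinAt 𝓘(ℝ, Q2) 𝓘(ℝ, V3) (fun q' : Q2 => ((r, q') : V3))
      (Metric.closedBall (0 : Q2) 1) q ((0 : Q2 →L[ℝ] ℝ).prod (ContinuousLinearMap.id ℝ Q2)) := by
    intro r
    apply HasFDerivWithinAt.hasMFDerivWithinAt
    exact (hasFDerivWithinAt_const r q _).prodMk (hasFDerivWithinAt_id q _)
  have h1 : HasMFDerivWithinAt 𝓘(ℝ, Q2) (𝓡∂ 3) (fun q' : Q2 => φ s (B.e (t, q')))
      (Metric.closedBall (0 : Q2) 1) q
      ((D φ s (B.e (t, q))).comp ((DP B.e (t, q)).comp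
        ((0 : Q2 →L[ℝ] ℝ).prod (ContinuousLinearMap.id ℝ Q2)))) := by
    have ha := FB2_diff hB (B.src t q ht hq)
    have hb := HasMFDerivAt.comp_hasMFDerivWithinAt q ha (hin t)
    exact HasMFDerivAt.comp_hasMFDerivWithinAt q hφ hb
  have h2 : HasMFDerivWithinAt 𝓘(ℝ, Q2) (𝓡∂ 3) (fun q' : Q2 => B.e (t + s, q'))
      (Metric.closedBall (0 : Q2) 1) q
      ((DP B.e (t + s, q)).comp ((0 : Q2 →L[ℝ] ℝ).prod (ContinuousLinearMap.id ℝ Q2))) := by
    have ha := FB2_diff hB (B.src (t + s) q hts hq)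
    exact HasMFDerivAt.comp_hasMFDerivWithinAt q ha (hin (t + s))
  have h2' : HasMFDerivWithinAt 𝓘(ℝ, Q2) (𝓡∂ 3) (fun q' : Q2 => φ s (B.e (t, q')))
      (Metric.closedBall (0 : Q2) 1) q
      ((DP B.e (t + s, q)).comp ((0 : Q2 →L[ℝ] ℝ).prod (ContinuousLinearMap.id ℝ Q2))) := by
    refine h2.congr_of_eventuallyEq ?_ (hmap q hq).symm
    filter_upwards [self_mem_nhdsWithin] with q' hq'
    exact (hmap q' (by simpa using hq')).symm
  have hu : UniqueMDiffWithinAt 𝓘(ℝ, Q2) (Metric.closedBall (0 : Q2) 1) q := by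
    apply UniqueDiffWithinAt.uniqueMDiffWithinAt
    apply uniqueDiffWithinAt_convex (convex_closedBall _ _)
    · exact ⟨0, by
        rw [interior_closedBall _ one_ne_zero]
        simp⟩
    · exact subset_closure hqI
  have heq := UniqueMDiffWithinAt.eq hu h1 h2'
  have h5 := congrArg (fun L : Q2 →L[ℝ] E3 => L ξ.2) heq
  have h6 : (show E3 from D φ s (B.e (t, q)) (DP B.e (t, q) (0, ξ.2))) =
      (show E3 from DP B.e (t + s, q) (0, ξ.2)) := h5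
  have h7 : (show E3 from D φ s (B.e (t, q)) (DP B.e (t, q) (ξ.1, 0))) =
      (show E3 from DP B.e (t + s, q) (ξ.1, 0)) := by
    rw [flowBox_X B hB ht hq, flowBox_X B hB hts hq, map_smul, D_X H.c1 H.inward H.flow hs]
    have key : ∀ z : M, z = B.e (t + s, q) →
        (show E3 from ξ.1 • X z) = (show E3 from ξ.1 • X (B.e (t + s, q))) := by
      intro z hz
      subst hz
      rfl
    exact key _ (hmap q hq).symm
  have hξ : ξ = ((ξ.1, 0) : V3) + (0, ξ.2) := by ext <;> simp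
  calc (show E3 from D φ s (B.e (t, q)) (DP B.e (t, q) ξ))
      = (show E3 from D φ s (B.e (t, q)) (DP B.e (t, q) (((ξ.1, 0) : V3) + (0, ξ.2)))) := by
        rw [← hξ]
    _ = (show E3 from D φ s (B.e (t, q)) (DP B.e (t, q) (ξ.1, 0))) +
        (show E3 from D φ s (B.e (t, q)) (DP B.e (t, q) (0, ξ.2))) := by
        rw [map_add, map_add]
        rfl
    _ = (show E3 from DP B.e (t + s, q) (ξ.1, 0)) +
        (show E3 from DP B.e (t + s, q) (0, ξ.2)) := by rw [h6, h7]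
    _ = (show E3 from DP B.e (t + s, q) (((ξ.1, 0) : V3) + (0, ξ.2))) := by
        rw [map_add]
        rfl
    _ = (show E3 from DP B.e (t + s, q) ξ) := by rw [← hξ]

/-- rescaling of a flow box -/
theorem flowBox_rescale {A : AFlow M} (B : FlowBox A) (hB : IsC1Param B.e) {ρ δ' : ℝ}
    (hρ : 0 < ρ) (hρ1 : ρ ≤ 1) (hδ' : 0 < δ') (hδ : δ' ≤ B.δ) :
    ∃ B' : FlowBox A, IsC1Param B'.e ∧ B'.δ = δ' ∧ (∀ z : V3, B'.e z = B.e (z.1, ρ • z.2)) ∧
      (∀ z : V3, z ∈ B'.e.source ↔ (z.1, ρ • z.2) ∈ B.e.source) ∧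
      (∀ y : M, B'.e.symm y = ((B.e.symm y).1, ρ⁻¹ • (B.e.symm y).2)) ∧
      ∀ z ξ : V3, z ∈ B'.e.source →
        (show E3 from DP B'.e z ξ) = DP B.e (z.1, ρ • z.2) (ξ.1, ρ • ξ.2) := by
  set L : V3 ≃L[ℝ] V3 := FB2_lin ρ hρ.ne' with hL
  have hLa : ∀ z : V3, L z = (z.1, ρ • z.2) := fun z => rfl
  set e' : OpenPartialHomeomorph V3 M := L.toHomeomorph.transOpenPartialHomeomorph B.e with he'
  have hea : ∀ z : V3, e' z = B.e (z.1, ρ • z.2) := fun z => rfl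
  have hes : ∀ z : V3, z ∈ e'.source ↔ (z.1, ρ • z.2) ∈ B.e.source := by
    intro z
    rw [he', Homeomorph.transOpenPartialHomeomorph_source]
    rfl
  have hsm : ContMDiff 𝓘(ℝ, V3) 𝓘(ℝ, V3) 1 L := L.contDiff.contMDiff
  have hsm' : ContMDiff 𝓘(ℝ, V3) 𝓘(ℝ, V3) 1 L.symm := L.symm.contDiff.contMDiff
  have hball : ∀ q : Q2, ‖q‖ ≤ 1 → ‖ρ • q‖ ≤ 1 := by
    intro q hq
    rw [norm_smul, Real.norm_eq_abs, abs_of_pos hρ]
    exact mul_le_one₀ hρ1 (norm_nonneg _) hq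
  refine ⟨{ e := e'
            δ := δ'
            δ_pos := hδ'
            src := fun t q ht hq => (hes (t, q)).2 (B.src t _ (ht.trans hδ) (hball q hq))
            flow := fun t s q ht hts hs hq =>
              B.flow t s _ (ht.trans hδ) (hts.trans hδ) hs (hball q hq) }, ?_, rfl, hea, hes,
          fun y => rfl, ?_⟩
  · refine ⟨?_, ?_, ?_⟩
    · exact hB.smooth.comp hsm.contMDiffOn (fun z hz => (hes z).1 hz)
    · exact hsm'.comp_contMDiffOn hB.smooth_symm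
    · exact hB.interior
  · intro z ξ hz
    have h1 := FB2_diff hB ((hes z).1 hz)
    have h2 : HasMFDerivAt 𝓘(ℝ, V3) 𝓘(ℝ, V3) L z (L : V3 →L[ℝ] V3) :=
      L.hasFDerivAt.hasMFDerivAt
    have h3 : HasMFDerivAt 𝓘(ℝ, V3) (𝓡∂ 3) e' z ((DP B.e (L z)).comp (L : V3 →L[ℝ] V3)) :=
      HasMFDerivAt.comp (g := B.e) (f := L) z h1 h2
    have h4 : DP e' z = (DP B.e (L z)).comp (L : V3 →L[ℝ] V3) := h3.mfderiv
    show (show E3 from DP e' z ξ) = DP B.e (z.1, ρ • z.2) (ξ.1, ρ • ξ.2)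
    rw [h4]
    rfl

end VeniceMask
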