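import Pool.Agent.helper75.VM.Geo

/-!
# MP_509a24_an, module FL1: interior, injectivity, fixed points of the semiflow
-/

open Set Filter Topology Bundle
open scoped ContDiff Manifold

namespace VeniceMask

universe u

variable {M : Type u} [TopologicalSpace M] [ChartedSpace (EuclideanHalfSpace 3) M]
  [IsManifold (𝓡∂ 3) ∞ M] {X : ∀ x : M, TS x} {φ : ℝ → M → M}

theorem flow_interior (h2 : IsInward X) (h3 : IsFlowOf X φ) {t : ℝ} (ht : 0 < t) (x : M) :
    φ t x ∈ (𝓡∂ 3).interior M := by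
  by_contra hcon
  have hb : φ t x ∈ (𝓡∂ 3).boundary M := by
    rw [← ModelWithCorners.compl_interior]; exact hcon
  have hpos := h2 _ hb
  have hat : IsMIntegralCurveAt (fun s => φ s x) X t :=
    (h3.integral x).isMIntegralCurveAt (Ici_mem_nhds ht)
  have hder := hat.eventually_hasDerivAt.self_of_nhds
  rw [tangentCoordChange_self (mem_extChartAt_source (I := 𝓡∂ 3) (φ t x))] at hder
  have hder0 : HasDerivAt (fun s => (extChartAt (𝓡∂ 3) (φ t x) (φ s x)) 0)
      ((show E3 from X (φ t x)) 0) t := by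
    have h := (hasDerivAt_pi.1 ((EuclideanSpace.equiv (Fin 3) ℝ).toContinuousLinearMap.hasFDerivAt.comp_hasDerivAt t hder)) 0
    exact h
  have hzero : (extChartAt (𝓡∂ 3) (φ t x) (φ t x)) 0 = 0 := by
    have h1 : extChartAt (𝓡∂ 3) (φ t x) (φ t x) ∈ frontier (range (𝓡∂ 3)) := hb
    rw [frontier_range_modelWithCornersEuclideanHalfSpace] at h1
    exact h1.symm
  have hmin : IsLocalMin (fun s => (extChartAt (𝓡∂ 3) (φ t x) (φ s x)) 0) t := by
    refine Eventually.of_forall fun s => ?_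
    show (extChartAt (𝓡∂ 3) (φ t x) (φ t x)) 0 ≤ (extChartAt (𝓡∂ 3) (φ t x) (φ s x)) 0
    rw [hzero]
    have h1 : extChartAt (𝓡∂ 3) (φ t x) (φ s x) ∈ range (𝓡∂ 3) := by
      rw [extChartAt_coe]; exact mem_range_self _
    rw [range_modelWithCornersEuclideanHalfSpace] at h1
    exact h1
  have := hmin.hasDerivAt_eq_zero hder0
  linarith

theorem FL1_eqOn [T2Space M] (h1 : IsC1Field X) (h2 : IsInward X) (h3 : IsFlowOf X φ) (x : M)
    {γ : ℝ → M} {b : ℝ} (hγ : IsMIntegralCurveOn γ X (Ioo 0 b)) {t : ℝ} (ht : t ∈ Ioo 0 b)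
    (h : φ t x = γ t) : EqOn (fun s => φ s x) γ (Ioo 0 b) :=
  isMIntegralCurveOn_Ioo_eqOn_of_contMDiff (I := 𝓡∂ 3) ht
    (fun s hs => flow_interior h2 h3 hs.1 x) h1
    ((h3.integral x).mono fun s hs => hs.1.le) hγ h

theorem flow_injective [T2Space M] (h1 : IsC1Field X) (h2 : IsInward X) (h3 : IsFlowOf X φ)
    {t : ℝ} (ht : 0 ≤ t) : Function.Injective (φ t) := by
  intro x y hxy
  rcases ht.eq_or_lt with rfl | ht
  · rwa [h3.zero, h3.zero] at hxy
  have heq : EqOn (fun s => φ s x) (fun s => φ s y) (Ioo 0 (t + 1)) :=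
    FL1_eqOn h1 h2 h3 x ((h3.integral y).mono fun s hs => hs.1.le) ⟨ht, by linarith⟩ hxy
  have hx : Tendsto (fun s => φ s x) (𝓝[>] 0) (𝓝 x) := by
    have h := ((h3.integral x).continuousWithinAt (mem_Ici.2 (le_refl (0 : ℝ)))).tendsto
    simp only [h3.zero] at h
    exact h.mono_left (nhdsWithin_mono _ Ioi_subset_Ici_self)
  have hy : Tendsto (fun s => φ s y) (𝓝[>] 0) (𝓝 y) := by
    have h := ((h3.integral y).continuousWithinAt (mem_Ici.2 (le_refl (0 : ℝ)))).tendsto
    simp only [h3.zero] at h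
    exact h.mono_left (nhdsWithin_mono _ Ioi_subset_Ici_self)
  refine tendsto_nhds_unique (hx.congr' ?_) hy
  filter_upwards [Ioo_mem_nhdsGT (show (0 : ℝ) < t + 1 by linarith)] with s hs
  exact heq hs

theorem flow_cont (h3 : IsFlowOf X φ) :
    ContinuousOn (fun p : ℝ × M => φ p.1 p.2) (Ici (0 : ℝ) ×ˢ univ) := h3.smooth.continuousOn

theorem X_eq_zero_iff [T2Space M] (h1 : IsC1Field X) (h2 : IsInward X) (h3 : IsFlowOf X φ)
    {x : M} (hx : x ∈ maxInv φ) : X x = 0 ↔ ∀ t, 0 ≤ t → φ t x = x := by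
  constructor
  · intro hX t ht
    have hx1 : x ∈ range (φ 1) := by
      have := mem_iInter₂.1 hx 1 (by simp)
      exact this
    obtain ⟨y, hy⟩ := hx1
    have hconst : IsMIntegralCurveOn (fun _ : ℝ => x) X (Ioo 0 (t + 2)) := by
      intro s hs
      have h := hasMFDerivWithinAt_const (I := 𝓘(ℝ, ℝ)) (I' := 𝓡∂ 3) (s := Ioo 0 (t + 2)) x s
      refine h.congr_mfderiv ?_
      rw [hX]
      ext
      simp
      rfl
    have heq := FL1_eqOn h1 h2 h3 y hconst (t := 1) ⟨by norm_num, by linarith⟩ hy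
    have h4 : φ (t + 1) y = x := heq ⟨by linarith, by linarith⟩
    rw [h3.add t 1 ht (by norm_num), hy] at h4
    exact h4
  · intro h
    have h0 : (0 : ℝ) ∈ Ici (0 : ℝ) := mem_Ici.2 le_rfl
    have hd := (h3.integral x).hasDerivWithinAt h0 (by
      exact mem_extChartAt_source (I := 𝓡∂ 3) (φ 0 x))
    rw [tangentCoordChange_self (mem_extChartAt_source (I := 𝓡∂ 3) (φ 0 x))] at hd
    have hc : HasDerivWithinAt ((extChartAt (𝓡∂ 3) (φ 0 x)) ∘ fun s => φ s x) (0 : E3)
        (Ici 0) 0 := by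
      refine (hasDerivWithinAt_const (0 : ℝ) (Ici 0) (extChartAt (𝓡∂ 3) (φ 0 x) x)).congr ?_ ?_
      · intro s hs
        simp only [Function.comp_apply]
        rw [h s hs]
      · simp only [Function.comp_apply]
        rw [h 0 le_rfl]
    have hu := (uniqueDiffOn_Ici (0 : ℝ) 0 h0).eq_deriv _ hd hc
    have h5 : φ 0 x = x := h3.zero x
    have h6 : (show E3 from X (φ 0 x)) = 0 := hu
    have h7 : (show E3 from X (φ 0 x)) = (show E3 from X x) := by rw [h5]
    exact h7.symm.trans h6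

end VeniceMask
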