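import Pool.Agent.helper75.VM.M_PM

/-!
# MP_509a24_an, module GA: the local unstable set is a graph
-/

open Set Filter Topology Bundle
open scoped ContDiff Manifold

namespace VeniceMask

universe u

variable (S : PMap)

/-- two infinite backward orbits stay in the horizontal cone of each other -/
private theorem PMap.gam_cone {u u' : ℕ → Q2} (hu : ∀ n, ‖u n‖ ≤ 1) (hu' : ∀ n, ‖u' n‖ ≤ 1)
    (hP : ∀ n, S.P (u (n + 1)) = u n) (hP' : ∀ n, S.P (u' (n + 1)) = u' n) (n : ℕ) :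
    |(u n).2 - (u' n).2| ≤ |(u n).1 - (u' n).1| := by
  by_contra hc
  push Not at hc
  have key : ∀ j, |(u (n + j)).1 - (u' (n + j)).1| ≤ |(u (n + j)).2 - (u' (n + j)).2| ∧
      |(u n).2 - (u' n).2| ≤ (1 / 2) ^ j * |(u (n + j)).2 - (u' (n + j)).2| := by
    intro j
    induction j with
    | zero => exact ⟨hc.le, by simp⟩
    | succ j ih =>
      obtain ⟨i1, i2⟩ := ih
      have hcone : |(S.P (u (n + j + 1))).1 - (S.P (u' (n + j + 1))).1| ≤
          |(S.P (u (n + j + 1))).2 - (S.P (u' (n + j + 1))).2| := by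
        rw [hP, hP']; exact i1
      obtain ⟨c1, c2⟩ := S.vert (hu _) (hu' _) hcone
      rw [hP, hP'] at c2
      refine ⟨c1, i2.trans ?_⟩
      rw [pow_succ, mul_assoc]
      exact mul_le_mul_of_nonneg_left c2 (by positivity)
  have h2 : ∀ j : ℕ, |(u n).2 - (u' n).2| ≤ 2 * (1 / 2) ^ j := by
    intro j
    have a1 : |(u (n + j)).2| ≤ 1 := (norm_snd_le (u (n + j))).trans (hu _)
    have a2 : |(u' (n + j)).2| ≤ 1 := (norm_snd_le (u' (n + j))).trans (hu' _)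
    have a3 : |(u (n + j)).2 - (u' (n + j)).2| ≤ 2 := by
      have := abs_sub (u (n + j)).2 (u' (n + j)).2
      linarith
    calc |(u n).2 - (u' n).2| ≤ (1 / 2) ^ j * |(u (n + j)).2 - (u' (n + j)).2| := (key j).2
      _ ≤ (1 / 2) ^ j * 2 := mul_le_mul_of_nonneg_left a3 (by positivity)
      _ = 2 * (1 / 2) ^ j := by ring
  have h3 : |(u n).2 - (u' n).2| ≤ 0 := by
    have hlim : Tendsto (fun j : ℕ => (2 : ℝ) * (1 / 2) ^ j) atTop (𝓝 (2 * 0)) :=
      (tendsto_pow_atTop_nhds_zero_of_lt_one (by norm_num) (by norm_num)).const_mul 2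
    rw [mul_zero] at hlim
    exact ge_of_tendsto' hlim h2
  have h4 := abs_nonneg ((u n).1 - (u' n).1)
  linarith

/-- two infinite backward orbits are horizontally close and contract -/
theorem PMap.gam_contract {u u' : ℕ → Q2} (hu : ∀ n, ‖u n‖ ≤ 1) (hu' : ∀ n, ‖u' n‖ ≤ 1)
    (hP : ∀ n, S.P (u (n + 1)) = u n) (hP' : ∀ n, S.P (u' (n + 1)) = u' n) (n : ℕ) :
    |(u n).2 - (u' n).2| ≤ 1 / 4 * |(u n).1 - (u' n).1| ∧
      ‖u n - u' n‖ ≤ (1 / 3) ^ n * |(u 0).1 - (u' 0).1| := by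
  have hc := S.gam_cone hu hu' hP hP'
  have hstep : ∀ n, |(u n).2 - (u' n).2| ≤ 1 / 4 * |(u n).1 - (u' n).1| ∧
      3 * |(u (n + 1)).1 - (u' (n + 1)).1| ≤ |(u n).1 - (u' n).1| := by
    intro n
    have := S.horiz (hu (n + 1)) (hu' (n + 1)) (hc (n + 1))
    rwa [hP, hP'] at this
  have hfst : ∀ n, |(u n).1 - (u' n).1| ≤ (1 / 3) ^ n * |(u 0).1 - (u' 0).1| := by
    intro n
    induction n with
    | zero => simp
    | succ n ih =>
      have := (hstep n).2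
      rw [pow_succ]
      linarith
  refine ⟨(hstep n).1, ?_⟩
  rw [Prod.norm_def]
  exact max_le (hfst n) ((hc n).trans (hfst n))

/-- backward orbits of length `n` over every `h` -/
private theorem PMap.exists_orbit (n : ℕ) : ∃ g : ℝ → ℝ,
    (∀ h ∈ Icc (-1 : ℝ) 1, |g h| ≤ 1) ∧
    (∀ h ∈ Icc (-1 : ℝ) 1, ∀ h' ∈ Icc (-1 : ℝ) 1, |g h - g h'| ≤ |h - h'|) ∧
    ∀ h ∈ Icc (-1 : ℝ) 1, ∃ w : ℕ → Q2, w 0 = (h, g h) ∧ (∀ j, ‖w j‖ ≤ 1) ∧
      ∀ j < n, S.P (w (j + 1)) = w j := by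
  induction n with
  | zero =>
    refine ⟨fun _ => 0, by simp, by simp, fun h hh => ⟨fun _ => (h, 0), rfl, fun _ => ?_, by simp⟩⟩
    rw [Prod.norm_def]
    exact max_le (abs_le.mpr ⟨hh.1, hh.2⟩) (by simp)
  | succ n ih =>
    obtain ⟨g, hg1, hg2, hg3⟩ := ih
    obtain ⟨g', r, h1, h2⟩ := S.gtf g hg1 hg2
    refine ⟨g', fun h hh => (h1 h hh).2.1, fun h hh h' hh' => ?_, fun h hh => ?_⟩
    · refine (h2 h hh h' hh').2.trans ?_
      have := abs_nonneg (h - h')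
      linarith
    · obtain ⟨hr, hg', hP⟩ := h1 h hh
      obtain ⟨w, w0, w1, w2⟩ := hg3 (r h) hr
      refine ⟨fun j => if j = 0 then (h, g' h) else w (j - 1), by simp, fun j => ?_, fun j hj => ?_⟩
      · by_cases hj : j = 0
        · simp only [hj, if_true]
          rw [Prod.norm_def]
          exact max_le (abs_le.mpr ⟨hh.1, hh.2⟩) hg'
        · simp only [hj, if_false]
          exact w1 _
      · rcases Nat.eq_zero_or_pos j with hj0 | hj0
        · subst hj0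
          simp only [zero_add, one_ne_zero, if_false, if_true, Nat.sub_self]
          rw [w0]; exact hP
        · have e1 : j + 1 ≠ 0 := by omega
          have e2 : j ≠ 0 := by omega
          simp only [e1, e2, if_false]
          have := w2 (j - 1) (by omega)
          rwa [show j - 1 + 1 = j + 1 - 1 by omega] at this

/-- infinite backward orbits over every `h` -/
private theorem PMap.exists_inf {h : ℝ} (hh : h ∈ Icc (-1 : ℝ) 1) : ∃ y : ℝ, (h, y) ∈ S.Gam := by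
  have hex : ∀ n : ℕ, ∃ w : ℕ → Q2, (w 0).1 = h ∧ (∀ j, ‖w j‖ ≤ 1) ∧
      ∀ j < n, S.P (w (j + 1)) = w j := by
    intro n
    obtain ⟨g, _, _, hg3⟩ := S.exists_orbit n
    obtain ⟨w, w0, w1, w2⟩ := hg3 h hh
    exact ⟨w, by rw [w0], w1, w2⟩
  choose w w0 w1 w2 using hex
  have hcpt : IsCompact (Metric.closedBall (0 : Q2) 1) := isCompact_closedBall _ _
  have hlim : ∀ j : ℕ, ∃ x ∈ Metric.closedBall (0 : Q2) 1,
      Tendsto (fun n => w n j) (hyperfilter ℕ : Ultrafilter ℕ) (𝓝 x) := by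
    intro j
    have h1 : ((hyperfilter ℕ).map (fun n => w n j) : Filter Q2) ≤
        𝓟 (Metric.closedBall (0 : Q2) 1) := by
      rw [le_principal_iff, Ultrafilter.coe_map, mem_map]
      exact Filter.Eventually.of_forall fun n => mem_closedBall_zero_iff.mpr (w1 n j)
    obtain ⟨x, hx, hx2⟩ := hcpt.ultrafilter_le_nhds _ h1
    exact ⟨x, hx, hx2⟩
  choose v hv1 hv2 using hlim
  refine ⟨(v 0).2, ?_⟩
  have hv0 : (v 0).1 = h := by
    have h1 : Tendsto (fun n => (w n 0).1) (hyperfilter ℕ : Ultrafilter ℕ) (𝓝 (v 0).1) :=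
      (continuous_fst.tendsto _).comp (hv2 0)
    simp_rw [w0] at h1
    exact tendsto_nhds_unique h1 tendsto_const_nhds
  have hvn : ∀ n, ‖v n‖ ≤ 1 := fun n => by simpa using hv1 n
  refine ⟨v, ?_, hvn, ?_⟩
  · exact Prod.ext hv0 rfl
  · intro n
    have h1 : Tendsto (fun k => S.P (w k (n + 1))) (hyperfilter ℕ : Ultrafilter ℕ)
        (𝓝 (S.P (v (n + 1)))) := by
      have hc := S.cont (v (n + 1)) (hvn _)
      refine hc.tendsto.comp ?_
      rw [tendsto_nhdsWithin_iff]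
      exact ⟨hv2 (n + 1), Filter.Eventually.of_forall fun k => w1 k _⟩
    have h2 : Tendsto (fun k => S.P (w k (n + 1))) (hyperfilter ℕ : Ultrafilter ℕ)
        (𝓝 (v n)) := by
      refine (hv2 n).congr' ?_
      have h3 : ∀ᶠ k in (atTop : Filter ℕ), n < k := eventually_gt_atTop n
      have h4 : ((hyperfilter ℕ : Ultrafilter ℕ) : Filter ℕ) ≤ atTop := by
        rw [← Nat.cofinite_eq_atTop]
        exact hyperfilter_le_cofinite
      have h5 : ∀ᶠ k in ((hyperfilter ℕ : Ultrafilter ℕ) : Filter ℕ), n < k := h4 h3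
      exact h5.mono fun k hk => (w2 k n hk).symm
    exact tendsto_nhds_unique h1 h2

theorem PMap.exists_gamma : ∃ γ : ℝ → ℝ, γ 0 = 0 ∧ (∀ h ∈ Icc (-1 : ℝ) 1, (h, γ h) ∈ S.Gam) ∧
    (∀ q ∈ S.Gam, γ q.1 = q.2) ∧
    ∀ h ∈ Icc (-1 : ℝ) 1, ∀ h' ∈ Icc (-1 : ℝ) 1, |γ h - γ h'| ≤ 1 / 4 * |h - h'| := by
  have hex : ∀ h : ℝ, ∃ y : ℝ, h ∈ Icc (-1 : ℝ) 1 → (h, y) ∈ S.Gam := by
    intro h
    by_cases hh : h ∈ Icc (-1 : ℝ) 1
    · obtain ⟨y, hy⟩ := S.exists_inf hh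
      exact ⟨y, fun _ => hy⟩
    · exact ⟨0, fun h' => absurd h' hh⟩
  choose γ hγ using hex
  have hlip : ∀ q ∈ S.Gam, ∀ q' ∈ S.Gam, |q.2 - q'.2| ≤ 1 / 4 * |q.1 - q'.1| := by
    rintro q ⟨u, u0, u1, u2⟩ q' ⟨u', u0', u1', u2'⟩
    have := (S.gam_contract u1 u1' u2 u2' 0).1
    rwa [u0, u0'] at this
  have huniq : ∀ q ∈ S.Gam, γ q.1 = q.2 := by
    intro q hq
    have hq1 : q.1 ∈ Icc (-1 : ℝ) 1 := by
      obtain ⟨u, u0, u1, u2⟩ := hq
      have : |q.1| ≤ 1 := by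
        rw [← u0]
        exact (norm_fst_le (u 0)).trans (u1 0)
      exact abs_le.mp this
    have h1 := hlip _ (hγ q.1 hq1) q hq
    simp only [sub_self, abs_zero, mul_zero] at h1
    exact sub_eq_zero.mp (abs_eq_zero.mp (le_antisymm h1 (abs_nonneg _)))
  refine ⟨γ, ?_, hγ, huniq, ?_⟩
  · have h0 : (0 : Q2) ∈ S.Gam := ⟨fun _ => 0, rfl, fun _ => by simp, fun _ => S.P0⟩
    exact huniq 0 h0
  · intro h hh h' hh'
    exact hlip _ (hγ h hh) _ (hγ h' hh')

end VeniceMask
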