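import Pool.Agent.helper75.VM.M_GA

/-!
# MP_509a24_an, module GD: the local unstable graph is an unstable curve
-/

open Set Filter Topology Bundle
open scoped ContDiff Manifold

namespace VeniceMask

universe u

/-- points of `Gam` are on the graph of `γ` -/
theorem GD_graph (S : PMap) {γ : ℝ → ℝ} (h1 : ∀ h ∈ Icc (-1 : ℝ) 1, (h, γ h) ∈ S.Gam) {q : Q2}
    (hq : q ∈ S.Gam) : q.1 ∈ Icc (-1 : ℝ) 1 ∧ γ q.1 = q.2 := by
  obtain ⟨u, hu0, hu1, hu2⟩ := hq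
  have h2 : |q.1| ≤ 1 := by
    have := hu1 0
    rw [hu0] at this
    exact (norm_fst_le q).trans this
  have h3 : q.1 ∈ Icc (-1 : ℝ) 1 := abs_le.1 h2
  refine ⟨h3, ?_⟩
  obtain ⟨u', hu0', hu1', hu2'⟩ := h1 q.1 h3
  have h4 := (S.gam_contract hu1' hu1 hu2' hu2 0).1
  rw [hu0, hu0'] at h4
  simp only [sub_self, abs_zero, mul_zero] at h4
  have h5 := abs_nonpos_iff.1 h4
  linarith

theorem GD_mem_K (S : PSad) {q : Q2} (hq : q ∈ S.Gam) : q ∈ S.K := by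
  obtain ⟨u, hu0, hu1, hu2⟩ := hq
  rw [← hu0]
  exact S.K_max u hu1 hu2

/-- the one step estimate -/
theorem GD_step (S : PSad) {γ : ℝ → ℝ} (h1 : ∀ h ∈ Icc (-1 : ℝ) 1, (h, γ h) ∈ S.Gam) {κ : ℝ}
    (hκ : 0 < κ) (H : ∀ q ∈ S.Gam, ∀ᶠ h in 𝓝[Icc (-1 : ℝ) 1] q.1,
      |γ h - q.2 - S.m q * (h - q.1)| ≤ κ * |h - q.1|) :
    ∀ q ∈ S.Gam, ∀ᶠ h in 𝓝[Icc (-1 : ℝ) 1] q.1,
      |γ h - q.2 - S.m q * (h - q.1)| ≤ (2 / 3 * κ) * |h - q.1| := by
  intro q hq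
  have hqK := GD_mem_K S hq
  obtain ⟨u, hu0, hu1, hu2⟩ := hq
  set p : Q2 := u 1 with hp
  have hpG : p ∈ S.Gam := ⟨fun n => u (n + 1), rfl, fun n => hu1 _, fun n => hu2 _⟩
  have hPp : S.P p = q := by rw [hp, hu2 0, hu0]
  obtain ⟨A, c, hA, hAc, hAe⟩ := S.der p (GD_mem_K S hpG) (by rw [hPp]; exact hqK)
  rw [hPp] at hAc
  have hmq := S.m_le q hqK
  have h2 : ∀ᶠ x in 𝓝 p, ‖S.P x - S.P p - A (x - p)‖ ≤ (κ / 6) * ‖x - p‖ :=
    hA.isLittleO.def (by positivity)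
  obtain ⟨δ₁, hδ₁, h3⟩ := Metric.eventually_nhds_iff.1 h2
  obtain ⟨δ₂, hδ₂, h4⟩ := Metric.mem_nhdsWithin_iff.1 (H p hpG)
  rw [Filter.Eventually, Metric.mem_nhdsWithin_iff]
  refine ⟨min δ₁ δ₂, lt_min hδ₁ hδ₂, ?_⟩
  rintro h ⟨hh1, hh2⟩
  rw [Metric.mem_ball, Real.dist_eq] at hh1
  show |γ h - q.2 - S.m q * (h - q.1)| ≤ (2 / 3 * κ) * |h - q.1|
  obtain ⟨u', hu0', hu1', hu2'⟩ := h1 h hh2
  set p' : Q2 := u' 1 with hp'
  have hpG' : p' ∈ S.Gam := ⟨fun n => u' (n + 1), rfl, fun n => hu1' _, fun n => hu2' _⟩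
  have hPp' : S.P p' = (h, γ h) := by rw [hp', hu2' 0, hu0']
  have h5 := (S.toPMap.gam_contract hu1' hu1 hu2' hu2 1).2
  rw [hu0, hu0', pow_one, ← hp, ← hp'] at h5
  simp only at h5
  have h6 : |p'.1 - p.1| ≤ ‖p' - p‖ := norm_fst_le (p' - p)
  have h0 : 0 ≤ |h - q.1| := abs_nonneg _
  have h7 : ‖p' - p‖ < min δ₁ δ₂ := by linarith
  have h8 := h3 (show dist p' p < δ₁ by
    rw [dist_eq_norm]; exact h7.trans_le (min_le_left _ _))
  obtain ⟨hg1, hg2⟩ := GD_graph S.toPMap h1 hpG'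
  have h9 : |γ p'.1 - p.2 - S.m p * (p'.1 - p.1)| ≤ κ * |p'.1 - p.1| :=
    h4 ⟨by
      rw [Metric.mem_ball, Real.dist_eq]
      exact (h6.trans_lt h7).trans_le (min_le_right _ _), hg1⟩
  rw [hg2] at h9
  set s : ℝ := p'.1 - p.1 with hs
  set e : ℝ := p'.2 - p.2 - S.m p * s with he
  set R : Q2 := S.P p' - S.P p - A (p' - p) with hR
  have h10 : p' - p = s • ((1 : ℝ), S.m p) + ((0 : ℝ), e) := by
    ext
    · simp [hs]
    · simp only [Prod.snd_sub, Prod.snd_add, Prod.smul_snd, smul_eq_mul, he]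
      ring
  set X : Q2 := A ((0 : ℝ), e) with hX
  have h11 : A (p' - p) = s • (c, c * S.m q) + X := by
    rw [h10, map_add, map_smul, hAc]
  have h12 : ‖X - ((0 : ℝ), S.b * e)‖ ≤ S.ε * |e| := by
    have := hAe ((0 : ℝ), e)
    simpa [Prod.norm_def] using this
  have h13 : |X.1| ≤ S.ε * |e| := by
    have := (norm_fst_le (X - ((0 : ℝ), S.b * e))).trans h12
    simpa using this
  have h14 : |X.2 - S.b * e| ≤ S.ε * |e| := by
    have := (norm_snd_le (X - ((0 : ℝ), S.b * e))).trans h12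
    simpa using this
  have h15 : (h, γ h) - q = s • (c, c * S.m q) + X + R := by
    rw [hR, h11, hPp, hPp']
    abel
  have h16 : h - q.1 = s * c + X.1 + R.1 := by
    have := congrArg Prod.fst h15
    simpa using this
  have h17 : γ h - q.2 = s * (c * S.m q) + X.2 + R.2 := by
    have := congrArg Prod.snd h15
    simpa using this
  have h18 : γ h - q.2 - S.m q * (h - q.1) = X.2 + R.2 - S.m q * (X.1 + R.1) := by
    rw [h16, h17]; ring
  have hR1 : |R.1| ≤ (κ / 6) * ‖p' - p‖ := (norm_fst_le R).trans h8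
  have hR2 : |R.2| ≤ (κ / 6) * ‖p' - p‖ := (norm_snd_le R).trans h8
  have hεb := S.hεb
  have hb := S.hb
  have he0 : 0 ≤ |e| := abs_nonneg e
  have h19 : |X.2| ≤ 17 / 64 * |e| := by
    have h20 : |X.2| ≤ |X.2 - S.b * e| + |S.b * e| := by
      have := abs_add_le (X.2 - S.b * e) (S.b * e)
      simpa using this
    rw [abs_mul] at h20
    have h21 : |S.b| * |e| ≤ 1 / 4 * |e| := mul_le_mul_of_nonneg_right hb he0
    have h22 : S.ε * |e| ≤ 1 / 64 * |e| := mul_le_mul_of_nonneg_right (by linarith) he0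
    linarith
  have h23 : |X.1| ≤ 1 / 64 * |e| :=
    h13.trans (mul_le_mul_of_nonneg_right (by linarith) he0)
  have h24 : |S.m q * (X.1 + R.1)| ≤ 1 / 4 * (|X.1| + |R.1|) := by
    rw [abs_mul]
    exact mul_le_mul hmq (abs_add_le _ _) (abs_nonneg _) (by norm_num)
  have h25 : |X.2 + R.2 - S.m q * (X.1 + R.1)| ≤ |X.2| + |R.2| + 1 / 4 * (|X.1| + |R.1|) := by
    have h26 := abs_sub (X.2 + R.2) (S.m q * (X.1 + R.1))
    have h27 := abs_add_le X.2 R.2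
    linarith
  rw [h18]
  have h28 : |e| ≤ κ * (1 / 3 * |h - q.1|) := by
    refine h9.trans (mul_le_mul_of_nonneg_left ?_ hκ.le)
    linarith
  have h29 : (κ / 6) * ‖p' - p‖ ≤ (κ / 6) * (1 / 3 * |h - q.1|) :=
    mul_le_mul_of_nonneg_left h5 (by positivity)
  have h30 : 0 ≤ κ * |h - q.1| := by positivity
  nlinarith

theorem PSad.gamma_der (S : PSad) (γ : ℝ → ℝ) (h1 : ∀ h ∈ Icc (-1 : ℝ) 1, (h, γ h) ∈ S.Gam) :
    S.IsUOn γ (Icc (-1) 1) := by
  have key : ∀ n : ℕ, ∀ q ∈ S.Gam, ∀ᶠ h in 𝓝[Icc (-1 : ℝ) 1] q.1,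
      |γ h - q.2 - S.m q * (h - q.1)| ≤ ((2 / 3) ^ n) * |h - q.1| := by
    intro n
    induction n with
    | zero =>
      intro q hq
      filter_upwards [self_mem_nhdsWithin] with h hh
      have hqK := GD_mem_K S hq
      have hmq := S.m_le q hqK
      obtain ⟨u, hu0, hu1, hu2⟩ := hq
      obtain ⟨u', hu0', hu1', hu2'⟩ := h1 h hh
      have h4 := (S.toPMap.gam_contract hu1' hu1 hu2' hu2 0).1
      rw [hu0, hu0'] at h4
      simp only at h4
      have h5 : |S.m q * (h - q.1)| ≤ 1 / 4 * |h - q.1| := by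
        rw [abs_mul]
        exact mul_le_mul_of_nonneg_right hmq (abs_nonneg _)
      have h6 := abs_sub (γ h - q.2) (S.m q * (h - q.1))
      have h7 : 0 ≤ |h - q.1| := abs_nonneg _
      rw [pow_zero]
      linarith
    | succ n ih =>
      intro q hq
      have := GD_step S h1 (κ := (2 / 3) ^ n) (by positivity) ih q hq
      rw [pow_succ, mul_comm ((2 / 3 : ℝ) ^ n)]
      exact this
  intro h0 hh0
  have hG := h1 h0 hh0
  refine ⟨GD_mem_K S hG, ?_⟩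
  rw [hasDerivWithinAt_iff_isLittleO, Asymptotics.isLittleO_iff]
  intro c hc
  obtain ⟨n, hn⟩ := exists_pow_lt_of_lt_one hc (show (2 / 3 : ℝ) < 1 by norm_num)
  filter_upwards [key n _ hG] with h hh
  rw [smul_eq_mul, Real.norm_eq_abs, Real.norm_eq_abs, mul_comm (h - h0)]
  exact hh.trans (mul_le_mul_of_nonneg_right hn.le (abs_nonneg _))

end VeniceMask
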