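import Pool.Agent.helper75.VM.M_TV
import Pool.Agent.helper75.VM.M_B0

/-!
# MP_509a24_an, module HC: the two conventions for homoclinic classes
-/

open Set Filter Topology Bundle
open scoped ContDiff Manifold

namespace VeniceMask

universe u

variable {M : Type u} [TopologicalSpace M] [ChartedSpace (EuclideanHalfSpace 3) M]
  [IsManifold (𝓡∂ 3) ∞ M] [CompactSpace M] [T2Space M]
  {g : Metric3 M} {X : ∀ x : M, TS x} {φ : ℝ → M → M} {E F : ∀ x : M, Submodule ℝ (TS x)}

theorem homClass'_eq (H : Hyp g X φ E F) {O : Set M} {p : M} {T : ℝ}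
    (hO : IsPeriodicOrbitOf X φ O p T) (hne : (homClass' g φ O).Nonempty) :
    homClass' g φ O = homClass g φ O := by
  have hpΛ := periodic_mem H.flow hO
  set d := Module.finrank ℝ (E p) with hd
  have hp : p ∈ Ld φ E d := ⟨hpΛ, rfl⟩
  have hPer := aflow_IsPer H d hO hp
  have hOL : O ⊆ Ld φ E d := AFlow.IsPer.sub _ hPer
  have hOc : IsCompact O := AFlow.IsPer.compact _ hPer
  -- a transverse homoclinic point outside `O`
  obtain ⟨q, hqO, hq⟩ : {q | q ∉ O ∧ IsTransHom g φ O q}.Nonempty := by
    rw [← closure_nonempty_iff]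
    exact hne
  have hqu := hq.2.1
  rw [← aflow_Wu H d hOL] at hqu
  have hqL : q ∈ Ld φ E d := hqu.1
  -- the forward orbit of `q`
  have horb : ∀ t : ℝ, 0 ≤ t → G2 φ t q ∉ O ∧ IsTransHom g φ O (G2 φ t q) := by
    intro t ht
    have h1 : G2 φ t q ∈ stableSet φ O := by
      have := (AFlow.Ws_iff (aflow H d) (O := O) (x := q) ht).2 (by
        rw [aflow_Ws]; exact hq.1)
      rw [aflow_Ws] at this
      exact this
    have h2 : G2 φ t q ∈ unstableSet φ O := by
      have := (AFlow.Wu_iff (aflow H d) (O := O) (x := q) hqL t).2 hqu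
      rw [aflow_Wu H d hOL] at this
      exact this
    refine ⟨?_, h1, h2, fun v => trans_of_homoclinic H hO h1 h2 v⟩
    intro hcon
    apply hqO
    have h3 := AFlow.IsPer.inv _ hPer (-t) _ hcon
    have h4 : (aflow H d).G (-t) ((aflow H d).G t q) = q := AFlow.G_neg_G (aflow H d) hqL t
    rw [show G2 φ t q = (aflow H d).G t q from rfl, h4] at h3
    exact h3
  -- a cluster point of the forward orbit
  have hfr : ∃ᶠ t : ℝ in atTop, G2 φ t q ∈ Ld φ E d :=
    (Eventually.of_forall fun t => Ld_inv H d hqL t).frequently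
  obtain ⟨w, hwL, hw⟩ := (Ld_compact H d).exists_mapClusterPt_of_frequently hfr
  have hwO : w ∈ O := by
    by_contra hcon
    obtain ⟨U, V, hU, hV, hOU, hwV, hUV⟩ := SeparatedNhds.of_isCompact_isCompact hOc
      (isCompact_singleton (x := w)) (disjoint_singleton_right.2 hcon)
    have h1 := hw.frequently (hV.mem_nhds (hwV rfl))
    have h2 : ∀ᶠ t : ℝ in atTop, G2 φ t q ∈ U := by
      have h3 := hq.1 U hU hOU
      filter_upwards [h3, eventually_ge_atTop (0 : ℝ)] with t ht ht0
      rw [G2_nonneg ht0]; exact ht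
    obtain ⟨t, ht1, ht2⟩ := (h1.and_eventually h2).exists
    exact disjoint_left.1 hUV ht2 ht1
  -- all of `O` is in the closure of the orbit
  have hOsub : O ⊆ homClass' g φ O := by
    intro y hy
    have hPw := AFlow.IsPer.mem_of _ hPer hwO
    rw [hPw.eq] at hy
    obtain ⟨s, hs⟩ := hy
    rw [homClass', mem_closure_iff_nhds]
    intro N hN
    -- continuity of `G s` at `w`
    have hcont : ContinuousOn (fun x => G2 φ s x) (Ld φ E d) :=
      (aflow H d).cont'.comp (continuousOn_const.prodMk continuousOn_id)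
        (fun x hx => ⟨mem_univ _, hx⟩)
    have h1 : (fun x => G2 φ s x) ⁻¹' N ∈ 𝓝[Ld φ E d] w := by
      apply hcont w hwL
      show N ∈ 𝓝 (G2 φ s w)
      have : G2 φ s w = y := hs
      rw [this]
      exact hN
    obtain ⟨V, hV, hwV, hVN⟩ := mem_nhdsWithin.1 h1
    have h2 := hw.frequently (hV.mem_nhds hwV)
    obtain ⟨t, ht1, ht2⟩ := (h2.and_eventually (eventually_ge_atTop (max 0 (-s)))).exists
    have h3 : G2 φ s (G2 φ t q) ∈ N := hVN ⟨ht1, Ld_inv H d hqL t⟩
    rw [← G2_add H.c1 H.inward H.flow hqL.1] at h3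
    refine ⟨G2 φ (s + t) q, h3, horb (s + t) ?_⟩
    have := le_max_right 0 (-s)
    linarith
  apply subset_antisymm
  · exact closure_mono fun x hx => hx.2
  · apply closure_minimal _ isClosed_closure
    intro x hx
    by_cases hxO : x ∈ O
    · exact hOsub hxO
    · exact subset_closure ⟨hxO, hx⟩

end VeniceMask
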