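import Pool.Agent.helper75.VM.M_GA

/-!
# MP_509a24_an, module LP: an unstable curve through a point of `Γ` is locally in `Γ`
-/

open Set Filter Topology Bundle
open scoped ContDiff Manifold

namespace VeniceMask

universe u

/-- the inverse of the plane map on the unit square -/
noncomputable def LP_Q (S : PMap) : Q2 → Q2 := Function.invFunOn S.P {q : Q2 | ‖q‖ ≤ 1}

theorem LP_Q_P (S : PMap) {z : Q2} (hz : ‖z‖ ≤ 1) : LP_Q S (S.P z) = z := by
  have h : ∃ a ∈ {q : Q2 | ‖q‖ ≤ 1}, S.P a = S.P z := ⟨z, hz, rfl⟩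
  exact S.inj (Function.invFunOn_mem h) hz (Function.invFunOn_eq h)

theorem LP_ball_nhds {z : Q2} (hz : ‖z‖ < 1) : {q : Q2 | ‖q‖ < 1} ∈ 𝓝 z :=
  (isOpen_lt continuous_norm continuous_const).mem_nhds hz

theorem LP_Q_tendsto (S : PMap) {z : Q2} (hz : ‖z‖ < 1) :
    Tendsto (LP_Q S) (𝓝 (S.P z)) (𝓝 z) := by
  intro N hN
  have := S.image_nhds hz (inter_mem hN (LP_ball_nhds hz))
  rw [mem_map]
  refine mem_of_superset this ?_
  rintro _ ⟨q, ⟨hq, hq1⟩, rfl⟩
  show LP_Q S (S.P q) ∈ N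
  rw [LP_Q_P S (le_of_lt hq1)]
  exact hq

theorem LP_P_Q (S : PMap) {z : Q2} (hz : ‖z‖ < 1) :
    ∀ᶠ y in 𝓝 (S.P z), S.P (LP_Q S y) = y := by
  filter_upwards [S.image_nhds hz (LP_ball_nhds hz)] with y hy
  obtain ⟨q, hq, rfl⟩ := hy
  rw [LP_Q_P S (le_of_lt hq)]

theorem LP_eps (S : PMap) : S.ε ≤ 1 / 64 := by
  have h1 := S.hεb
  have h2 := S.hb
  linarith

/-- a linear map close to `diag (a, b)` is injective -/
theorem LP_ker (S : PMap) (A : Q2 →L[ℝ] Q2)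
    (hA : ∀ x : Q2, ‖A x - (S.a * x.1, S.b * x.2)‖ ≤ S.ε * ‖x‖) (x : Q2) (hx : A x = 0) :
    x = 0 := by
  have h := hA x
  rw [hx, zero_sub, norm_neg, Prod.norm_def, Prod.norm_def] at h
  simp only [Real.norm_eq_abs, abs_mul] at h
  have hε := S.hε
  have hb := S.hb
  have ha := S.ha
  have hεb := S.hεb
  have h1 : |S.a| * |x.1| ≤ S.ε * max |x.1| |x.2| := le_trans (le_max_left _ _) h
  have h2 : |S.b| * |x.2| ≤ S.ε * max |x.1| |x.2| := le_trans (le_max_right _ _) h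
  have key : max |x.1| |x.2| ≤ 0 := by
    rcases le_total |x.1| |x.2| with h3 | h3
    · rw [max_eq_right h3] at h2 ⊢
      by_contra hc
      push Not at hc
      nlinarith
    · rw [max_eq_left h3] at h1 ⊢
      by_contra hc
      push Not at hc
      nlinarith [LP_eps S]
  have h3 : |x.1| ≤ 0 := le_trans (le_max_left _ _) key
  have h4 : |x.2| ≤ 0 := le_trans (le_max_right _ _) key
  ext
  · simpa using h3
  · simpa using h4

/-- derivative of the lifted curve -/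
theorem LP_der (S : PSad) {w : ℝ → Q2} {J : Set ℝ} {t c : ℝ} {z : Q2} (hz : ‖z‖ < 1)
    (hP : S.P z = w t) (hK : w t ∈ S.K)
    (hw : HasDerivWithinAt w (c, c * S.m (w t)) J t) :
    z ∈ S.K ∧ ∃ c₀ : ℝ, 3 < |c₀| ∧
      HasDerivWithinAt (fun y => LP_Q S.toPMap (w y)) (c / c₀, c / c₀ * S.m z) J t := by
  have hzK : z ∈ S.K := S.K_bwd z hz.le (by rw [hP]; exact hK)
  refine ⟨hzK, ?_⟩
  obtain ⟨A, c₀, hA, hAm, hAε⟩ := S.der z hzK (by rw [hP]; exact hK)
  have hm := S.m_le z hzK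
  have hc₀ : 3 < |c₀| := by
    have h := hAε (1, S.m z)
    rw [hAm] at h
    have h1 : ‖((1, S.m z) : Q2)‖ = 1 := by
      rw [Prod.norm_def]
      simp only [Real.norm_eq_abs, abs_one]
      exact max_eq_left (by linarith)
    rw [h1, mul_one] at h
    have h2 : |c₀ - S.a| ≤ S.ε := by
      have := le_trans (norm_fst_le _) h
      simpa using this
    have h3 := LP_eps S.toPMap
    have h4 := S.ha
    have h5 : |S.a| - |c₀| ≤ |c₀ - S.a| := by
      have := abs_sub_abs_le_abs_sub S.a c₀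
      rwa [abs_sub_comm] at this
    linarith
  have hc₀' : c₀ ≠ 0 := by
    intro h
    rw [h, abs_zero] at hc₀
    linarith
  refine ⟨c₀, hc₀, ?_⟩
  have hker : LinearMap.ker (A : Q2 →ₗ[ℝ] Q2) = ⊥ := by
    rw [LinearMap.ker_eq_bot']
    intro x hx
    exact LP_ker S.toPMap A hAε x hx
  have hsurj : Function.Surjective (A : Q2 →ₗ[ℝ] Q2) :=
    LinearMap.injective_iff_surjective.1 (LinearMap.ker_eq_bot.1 hker)
  let e : Q2 ≃L[ℝ] Q2 := ContinuousLinearEquiv.ofBijective A hker (LinearMap.range_eq_top.2 hsurj)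
  have he : (e : Q2 →L[ℝ] Q2) = A := ContinuousLinearEquiv.coe_ofBijective A _ _
  have hQ0 : LP_Q S.toPMap (w t) = z := by rw [← hP]; exact LP_Q_P S.toPMap hz.le
  have hQ : HasFDerivAt (LP_Q S.toPMap) (e.symm : Q2 →L[ℝ] Q2) (w t) := by
    apply HasFDerivAt.of_local_left_inverse (f := S.P)
    · show Tendsto _ _ _
      rw [hQ0, ← hP]
      exact LP_Q_tendsto S.toPMap hz
    · rw [hQ0, he]
      exact hA
    · rw [← hP]
      exact LP_P_Q S.toPMap hz
  have h1 := hQ.comp_hasDerivWithinAt t hw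
  have h2 : e.symm (c, c * S.m (w t)) = (c / c₀, c / c₀ * S.m z) := by
    rw [ContinuousLinearEquiv.symm_apply_eq]
    have h3 : e (c / c₀, c / c₀ * S.m z) = A (c / c₀, c / c₀ * S.m z) := by
      rw [← he]; rfl
    have h4 : ((c / c₀, c / c₀ * S.m z) : Q2) = (c / c₀) • ((1, S.m z) : Q2) := by
      simp
    rw [h3, h4, map_smul, hAm, hP]
    ext
    · simp [div_mul_cancel₀ _ hc₀']
    · simp only [Prod.smul_snd, smul_eq_mul]
      rw [← mul_assoc, div_mul_cancel₀ _ hc₀']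
  have h5 : (e.symm : Q2 →L[ℝ] Q2) (c, c * S.m (w t)) = (c / c₀, c / c₀ * S.m z) := h2
  rw [h5] at h1
  exact h1

/-- lifting of curves by the plane map -/
theorem LP_lift (S : PSad) {w : ℝ → Q2} {κ : ℝ} (hκ : 0 < κ) {u : Q2} (hu : ‖u‖ + κ / 3 < 1)
    (hP : S.P u = w 0) (hw : ∀ t ∈ Icc (0 : ℝ) 1, w t ∈ S.K ∧ ∃ c : ℝ, |c| ≤ κ ∧
      HasDerivWithinAt w (c, c * S.m (w t)) (Icc 0 1) t) :
    (LP_Q S.toPMap (w 0) = u) ∧ (∀ t ∈ Icc (0 : ℝ) 1, ‖LP_Q S.toPMap (w t)‖ ≤ 1 ∧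
      S.P (LP_Q S.toPMap (w t)) = w t) ∧
      ∀ t ∈ Icc (0 : ℝ) 1, LP_Q S.toPMap (w t) ∈ S.K ∧ ∃ c : ℝ, |c| ≤ κ / 3 ∧
        HasDerivWithinAt (fun y => LP_Q S.toPMap (w y)) (c, c * S.m (LP_Q S.toPMap (w t)))
          (Icc 0 1) t := by
  have hnorm : ∀ t ∈ Icc (0 : ℝ) 1, ∀ z : Q2, ‖z - u‖ ≤ κ / 3 * t → ‖z‖ < 1 := by
    intro t ht z hz
    have h1 : ‖z‖ ≤ ‖z - u‖ + ‖u‖ := by
      have := norm_add_le (z - u) u
      rwa [sub_add_cancel] at this
    have h2 : κ / 3 * t ≤ κ / 3 := by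
      have : κ / 3 * t ≤ κ / 3 * 1 := mul_le_mul_of_nonneg_left ht.2 (by positivity)
      linarith
    linarith
  have hu1 : ‖u‖ < 1 := by
    have : 0 < κ / 3 := by positivity
    linarith
  have hwc : ContinuousOn w (Icc 0 1) := fun t ht => by
    obtain ⟨-, c, -, hc⟩ := hw t ht
    exact hc.continuousWithinAt
  -- the crucial set
  let s : Set ℝ := {t | ∃ z : Q2, ‖z - u‖ ≤ κ / 3 * t ∧ S.P z = w t}
  have hs : Icc (0 : ℝ) 1 ⊆ s := by
    apply IsClosed.Icc_subset_of_forall_exists_gt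
    · -- closed
      let T : Set (ℝ × Q2) := {p | p.1 ∈ Icc (0 : ℝ) 1 ∧ ‖p.2‖ ≤ 1 ∧ ‖p.2 - u‖ ≤ κ / 3 * p.1}
      have hT : IsClosed T := by
        apply IsClosed.inter (isClosed_Icc.preimage continuous_fst)
        apply IsClosed.inter
        · exact isClosed_le (continuous_norm.comp continuous_snd) continuous_const
        · exact isClosed_le (f := fun p : ℝ × Q2 => ‖p.2 - u‖) (g := fun p => κ / 3 * p.1)
            (by fun_prop) (by fun_prop)
      let T' : Set (ℝ × Q2) := T ∩ (fun p => S.P p.2 - w p.1) ⁻¹' {0}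
      have hT' : IsClosed T' := by
        apply ContinuousOn.preimage_isClosed_of_isClosed _ hT isClosed_singleton
        apply ContinuousOn.sub
        · exact S.cont.comp continuousOn_snd (fun p hp => hp.2.1)
        · exact hwc.comp continuousOn_fst (fun p hp => hp.1)
      have hTc : IsCompact T' := by
        apply IsCompact.of_isClosed_subset
          (isCompact_Icc.prod (isCompact_closedBall (0 : Q2) 1)) hT'
        rintro ⟨t, z⟩ ⟨⟨h1, h2, -⟩, -⟩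
        exact ⟨h1, by simpa using h2⟩
      have : s ∩ Icc 0 1 = Prod.fst '' T' := by
        ext t
        constructor
        · rintro ⟨⟨z, hz, hz'⟩, ht⟩
          exact ⟨(t, z), ⟨⟨ht, (hnorm t ht z hz).le, hz⟩, by simp [hz']⟩, rfl⟩
        · rintro ⟨⟨t', z⟩, ⟨⟨h1, h2, h3⟩, h4⟩, rfl⟩
          refine ⟨⟨z, h3, ?_⟩, h1⟩
          have : S.P z - w t' = 0 := h4
          exact sub_eq_zero.1 this
      rw [this]
      exact (hTc.image continuous_fst).isClosed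
    · exact ⟨u, by simp, hP⟩
    · rintro t ⟨⟨z, hz, hz'⟩, ht⟩ y hy
      have ht' : t ∈ Icc (0 : ℝ) 1 := ⟨ht.1, ht.2.le⟩
      have hz1 := hnorm t ht' z hz
      obtain ⟨hwK, c, hc, hcd⟩ := hw t ht'
      obtain ⟨hzK, c₀, hc₀, hd⟩ := LP_der S hz1 hz' hwK hcd
      have hQ0 : LP_Q S.toPMap (w t) = z := by rw [← hz']; exact LP_Q_P S.toPMap hz1.le
      have hm := S.m_le z hzK
      have hc' : |c / c₀| < κ / 3 := by
        rw [abs_div, div_lt_div_iff₀ (by linarith) (by norm_num)]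
        nlinarith [abs_nonneg c]
      have hδ : 0 < κ / 3 - |c / c₀| := by linarith
      have hE1 : ∀ᶠ y in 𝓝[Icc 0 1] t, ‖LP_Q S.toPMap (w y) - z‖ ≤ κ / 3 * |y - t| := by
        rw [hasDerivWithinAt_iff_isLittleO] at hd
        filter_upwards [hd.def hδ] with y hy
        rw [hQ0] at hy
        have h1 : ‖LP_Q S.toPMap (w y) - z‖ ≤
            ‖LP_Q S.toPMap (w y) - z - (y - t) • ((c / c₀, c / c₀ * S.m z) : Q2)‖ +
            ‖(y - t) • ((c / c₀, c / c₀ * S.m z) : Q2)‖ := by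
          have := norm_add_le (LP_Q S.toPMap (w y) - z -
            (y - t) • ((c / c₀, c / c₀ * S.m z) : Q2))
            ((y - t) • ((c / c₀, c / c₀ * S.m z) : Q2))
          rwa [sub_add_cancel] at this
        have h2 : ‖(y - t) • ((c / c₀, c / c₀ * S.m z) : Q2)‖ = |y - t| * |c / c₀| := by
          rw [norm_smul, Real.norm_eq_abs, Prod.norm_def]
          congr 1
          simp only [Real.norm_eq_abs]
          rw [abs_mul]
          apply max_eq_left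
          nlinarith [abs_nonneg (c / c₀)]
        rw [h2] at h1
        rw [Real.norm_eq_abs] at hy
        nlinarith
      have hE2 : ∀ᶠ y in 𝓝[Icc 0 1] t, S.P (LP_Q S.toPMap (w y)) = w y := by
        have h1 : Tendsto w (𝓝[Icc 0 1] t) (𝓝 (S.P z)) := by
          rw [hz']
          exact hcd.continuousWithinAt
        exact h1.eventually (LP_P_Q S.toPMap hz1)
      have hE3 : ∀ᶠ y' in 𝓝[>] t, y' ∈ Ioc t y ∧ y' ∈ Icc (0 : ℝ) 1 := by
        have h1 : Ioc t (min y 1) ∈ 𝓝[>] t := Ioc_mem_nhdsGT (lt_min hy ht.2)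
        filter_upwards [h1] with y' hy'
        refine ⟨⟨hy'.1, le_trans hy'.2 (min_le_left _ _)⟩, ?_, le_trans hy'.2 (min_le_right _ _)⟩
        linarith [ht.1, hy'.1]
      have hle : 𝓝[Icc 0 1 ∩ Ioi t] t ≤ 𝓝[Icc 0 1] t := nhdsWithin_mono _ inter_subset_left
      have hle2 : 𝓝[Icc 0 1 ∩ Ioi t] t = 𝓝[>] t := by
        apply nhdsWithin_inter_of_mem
        filter_upwards [hE3] with y' hy'
        exact hy'.2
      have hE4 : ∀ᶠ y' in 𝓝[>] t, ‖LP_Q S.toPMap (w y') - z‖ ≤ κ / 3 * |y' - t| ∧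
          S.P (LP_Q S.toPMap (w y')) = w y' := by
        rw [← hle2]
        exact hle (hE1.and hE2)
      obtain ⟨y', ⟨h1, h2⟩, h3, h4⟩ := (hE4.and hE3).exists
      refine ⟨y', ⟨LP_Q S.toPMap (w y'), ?_, h2⟩, h3⟩
      have h5 : |y' - t| = y' - t := abs_of_pos (by linarith [h3.1])
      rw [h5] at h1
      have h6 : ‖LP_Q S.toPMap (w y') - u‖ ≤ ‖LP_Q S.toPMap (w y') - z‖ + ‖z - u‖ := by
        have := norm_add_le (LP_Q S.toPMap (w y') - z) (z - u)
        rwa [sub_add_sub_cancel] at this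
      nlinarith
  have hmain : ∀ t ∈ Icc (0 : ℝ) 1, ‖LP_Q S.toPMap (w t)‖ < 1 ∧
      S.P (LP_Q S.toPMap (w t)) = w t := by
    intro t ht
    obtain ⟨z, hz, hz'⟩ := hs ht
    have hz1 := hnorm t ht z hz
    have hQ0 : LP_Q S.toPMap (w t) = z := by rw [← hz']; exact LP_Q_P S.toPMap hz1.le
    rw [hQ0]
    exact ⟨hz1, hz'⟩
  refine ⟨?_, fun t ht => ⟨(hmain t ht).1.le, (hmain t ht).2⟩, ?_⟩
  · rw [← hP]
    exact LP_Q_P S.toPMap hu1.le
  · intro t ht
    obtain ⟨h1, h2⟩ := hmain t ht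
    obtain ⟨hwK, c, hc, hcd⟩ := hw t ht
    obtain ⟨hzK, c₀, hc₀, hd⟩ := LP_der S h1 h2 hwK hcd
    refine ⟨hzK, c / c₀, ?_, hd⟩
    rw [abs_div, div_le_div_iff₀ (by linarith) (by norm_num)]
    nlinarith [abs_nonneg c]

theorem PSad.local_gamma (S : PSad) (g : ℝ → ℝ) (a b : ℝ) (hg : S.IsUOn g (Icc a b)) (s₀ : ℝ)
    (hs₀ : s₀ ∈ Icc a b) (h0 : (s₀, g s₀) ∈ S.Gam) (h1 : |s₀| < 1) :
    ∃ ε > 0, ∀ s ∈ Icc a b, |s - s₀| ≤ ε → (s, g s) ∈ S.Gam := by
  obtain ⟨u, hu0, hu1, huP⟩ := h0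
  have hP0 := S.P0
  have hun : ∀ n, ‖u n‖ ≤ |s₀| := by
    intro n
    have h := (S.toPMap.gam_contract (u := u) (u' := fun _ => 0) hu1 (by simp) huP
      (by intro n; exact hP0) n).2
    simp only [sub_zero, hu0, Prod.fst_zero] at h
    refine le_trans h ?_
    have h2 : (1 / 3 : ℝ) ^ n ≤ 1 := pow_le_one₀ (by norm_num) (by norm_num)
    nlinarith [abs_nonneg s₀]
  refine ⟨1 - |s₀|, by linarith, ?_⟩
  intro s hs hss
  set κ : ℝ := 1 - |s₀| with hκd
  have hκ : 0 < κ := by linarith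
  -- the curve
  let w : ℝ → Q2 := fun t => (s₀ + t * (s - s₀), g (s₀ + t * (s - s₀)))
  have hmem : ∀ t ∈ Icc (0 : ℝ) 1, s₀ + t * (s - s₀) ∈ Icc a b := by
    intro t ht
    have h3 : s₀ + t * (s - s₀) = (1 - t) * s₀ + t * s := by ring
    rw [h3]
    constructor
    · nlinarith [ht.1, ht.2, hs₀.1, hs.1]
    · nlinarith [ht.1, ht.2, hs₀.2, hs.2]
  have hw : ∀ t ∈ Icc (0 : ℝ) 1, w t ∈ S.K ∧ ∃ c : ℝ, |c| ≤ κ ∧
      HasDerivWithinAt w (c, c * S.m (w t)) (Icc 0 1) t := by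
    intro t ht
    obtain ⟨h2, h3⟩ := hg _ (hmem t ht)
    refine ⟨h2, s - s₀, hss, ?_⟩
    have h4 : HasDerivWithinAt (fun t : ℝ => s₀ + t * (s - s₀)) (s - s₀) (Icc 0 1) t := by
      have := ((hasDerivAt_id t).mul_const (s - s₀)).const_add s₀
      simp only [id, one_mul] at this
      exact this.hasDerivWithinAt
    apply HasDerivWithinAt.prodMk h4
    have h5 := HasDerivWithinAt.scomp (h := fun t : ℝ => s₀ + t * (s - s₀)) t h3 h4 hmem
    exact h5
  -- iteration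
  have key : ∀ n : ℕ, ((LP_Q S.toPMap)^[n] (w 0) = u n) ∧
      ∀ t ∈ Icc (0 : ℝ) 1, (LP_Q S.toPMap)^[n] (w t) ∈ S.K ∧ ∃ c : ℝ, |c| ≤ κ ∧
        HasDerivWithinAt (fun y => (LP_Q S.toPMap)^[n] (w y))
          (c, c * S.m ((LP_Q S.toPMap)^[n] (w t))) (Icc 0 1) t := by
    intro n
    induction n with
    | zero =>
      refine ⟨?_, fun t ht => hw t ht⟩
      simp [w, hu0]
    | succ n ih =>
      have h2 := LP_lift S (w := fun y => (LP_Q S.toPMap)^[n] (w y)) hκ (u := u (n + 1))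
        (by have := hun (n + 1); linarith) (by simp only [ih.1]; exact huP n) ih.2
      simp only [Function.iterate_succ', Function.comp_apply]
      refine ⟨h2.1, fun t ht => ?_⟩
      obtain ⟨h3, c, h4, h5⟩ := h2.2.2 t ht
      exact ⟨h3, c, by linarith, h5⟩
  refine ⟨fun n => (LP_Q S.toPMap)^[n] (w 1), ?_, ?_, ?_⟩
  · simp [w]
  · intro n
    exact S.K_sub _ ((key n).2 1 ⟨by norm_num, le_rfl⟩).1
  · intro n
    have h2 := LP_lift S (w := fun y => (LP_Q S.toPMap)^[n] (w y)) hκ (u := u (n + 1))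
        (by have := hun (n + 1); linarith) (by simp only [(key n).1]; exact huP n) (key n).2
    have := (h2.2.1 1 ⟨by norm_num, le_rfl⟩).2
    simp only [Function.iterate_succ', Function.comp_apply]
    exact this

end VeniceMask
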