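import Pool.Agent.helper75.VM.Abs

/-!
# MP_509a24_an, module RE1: reparametrisation, crossing (pure analysis)
-/

open Set Filter Topology Bundle
open scoped ContDiff Manifold

namespace VeniceMask

universe u

theorem RE1_core {a b m M : ℝ} (hab : a < b) {H V c μ : ℝ → ℝ} (hc : ∀ s ∈ Icc a b, c s ≠ 0)
    (hH : ∀ s ∈ Icc a b, HasDerivWithinAt H (c s) (Icc a b) s)
    (hV : ∀ s ∈ Icc a b, HasDerivWithinAt V (c s * μ s) (Icc a b) s)
    (hinj : InjOn H (Icc a b)) (himg : H '' Icc a b = Icc m M) :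
    ∃ σ : ℝ → ℝ,
      ContinuousOn σ (Icc m M) ∧ (∀ s ∈ Icc a b, H s ∈ Icc m M ∧ σ (H s) = s) ∧
      ∀ h ∈ Icc m M, σ h ∈ Icc a b ∧ H (σ h) = h ∧
        HasDerivWithinAt (fun x => V (σ x)) (μ (σ h)) (Icc m M) h := by
  classical
  have hcont : ContinuousOn H (Icc a b) := fun s hs => (hH s hs).continuousWithinAt
  have hmem : ∀ s ∈ Icc a b, H s ∈ Icc m M := fun s hs => himg ▸ mem_image_of_mem H hs
  let f : Icc a b → Icc m M := fun s => ⟨H s, hmem s s.2⟩
  have hfb : Function.Bijective f := by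
    constructor
    · intro x y hxy
      exact Subtype.ext (hinj x.2 y.2 (congrArg Subtype.val hxy))
    · intro y
      have hy : (y : ℝ) ∈ H '' Icc a b := by rw [himg]; exact y.2
      obtain ⟨s, hs, hsy⟩ := hy
      exact ⟨⟨s, hs⟩, Subtype.ext hsy⟩
  have hfc : Continuous f := by
    refine Continuous.subtype_mk ?_ _
    exact continuousOn_iff_continuous_domRestrict.mp hcont
  let e : Icc a b ≃ Icc m M := Equiv.ofBijective f hfb
  have hec : Continuous e := hfc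
  let hom := Continuous.homeoOfEquivCompactToT2 (f := e) hec
  let σ : ℝ → ℝ := fun h => if hh : h ∈ Icc m M then (hom.symm ⟨h, hh⟩ : ℝ) else a
  have hσ : ∀ (h : ℝ) (hh : h ∈ Icc m M), σ h = (hom.symm ⟨h, hh⟩ : ℝ) := by
    intro h hh
    exact dif_pos hh
  have hσc : ContinuousOn σ (Icc m M) := by
    rw [continuousOn_iff_continuous_domRestrict]
    have h1 : (Icc m M).domRestrict σ = fun y => (hom.symm y : ℝ) := by
      funext y
      exact hσ y y.2
    rw [h1]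
    exact continuous_subtype_val.comp hom.symm.continuous
  have hσm : ∀ h ∈ Icc m M, σ h ∈ Icc a b := by
    intro h hh
    rw [hσ h hh]
    exact (hom.symm ⟨h, hh⟩).2
  have hHσ : ∀ h ∈ Icc m M, H (σ h) = h := by
    intro h hh
    rw [hσ h hh]
    have h1 : hom (hom.symm ⟨h, hh⟩) = ⟨h, hh⟩ := hom.apply_symm_apply _
    exact congrArg Subtype.val h1
  refine ⟨σ, hσc, fun s hs => ⟨hmem s hs, ?_⟩, fun h hh => ⟨hσm h hh, hHσ h hh, ?_⟩⟩
  · exact hinj (hσm _ (hmem s hs)) hs (hHσ _ (hmem s hs))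
  · have h1 := hH _ (hσm h hh)
    have h2 := hV _ (hσm h hh)
    have hne := hc _ (hσm h hh)
    have h3 : HasFDerivWithinAt H
        (ContinuousLinearEquiv.unitsEquivAut ℝ (Units.mk0 (c (σ h)) hne) : ℝ →L[ℝ] ℝ)
        (Icc a b) (σ h) := h1
    have ht : Tendsto σ (𝓝[Icc m M] h) (𝓝[Icc a b] (σ h)) :=
      tendsto_nhdsWithin_of_tendsto_nhds_of_eventually_within _ (hσc h hh)
        (eventually_nhdsWithin_of_forall hσm)
    have h4 := h3.of_local_left_inverse ht hh (eventually_nhdsWithin_of_forall hHσ)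
    have h5 : HasDerivWithinAt σ ((c (σ h))⁻¹) (Icc m M) h := h4
    have h6 := h2.comp h h5 (fun x hx => hσm x hx)
    have h7 : c (σ h) * μ (σ h) * (c (σ h))⁻¹ = μ (σ h) := by
      field_simp
    rw [h7] at h6
    exact h6

theorem reparam {a b : ℝ} (hab : a < b) {H V c μ : ℝ → ℝ} (hc : ∀ s ∈ Icc a b, c s ≠ 0)
    (hH : ∀ s ∈ Icc a b, HasDerivWithinAt H (c s) (Icc a b) s)
    (hV : ∀ s ∈ Icc a b, HasDerivWithinAt V (c s * μ s) (Icc a b) s) :
    min (H a) (H b) < max (H a) (H b) ∧ ∃ σ : ℝ → ℝ,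
      ContinuousOn σ (Icc (min (H a) (H b)) (max (H a) (H b))) ∧
      (∀ s ∈ Icc a b, H s ∈ Icc (min (H a) (H b)) (max (H a) (H b)) ∧ σ (H s) = s) ∧
      (∀ s ∈ Ioo a b, H s ∈ Ioo (min (H a) (H b)) (max (H a) (H b))) ∧
      ∀ h ∈ Icc (min (H a) (H b)) (max (H a) (H b)), σ h ∈ Icc a b ∧ H (σ h) = h ∧
        HasDerivWithinAt (fun x => V (σ x)) (μ (σ h))
          (Icc (min (H a) (H b)) (max (H a) (H b))) h := by
  have hcont : ContinuousOn H (Icc a b) := fun s hs => (hH s hs).continuousWithinAt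
  have ha : a ∈ Icc a b := left_mem_Icc.2 hab.le
  have hb : b ∈ Icc a b := right_mem_Icc.2 hab.le
  have hderiv : ∀ x ∈ interior (Icc a b), HasDerivWithinAt H (c x) (interior (Icc a b)) x := by
    intro x hx
    exact (hH x (interior_subset hx)).mono interior_subset
  rcases hasDerivWithinAt_forall_lt_or_forall_gt_of_forall_ne (convex_Icc a b) hH hc with hneg | hpos
  · have hanti : StrictAntiOn H (Icc a b) :=
      strictAntiOn_of_hasDerivWithinAt_neg (convex_Icc a b) hcont hderiv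
        (fun x hx => hneg x (interior_subset hx))
    have hlt : H b < H a := hanti ha hb hab
    have hmin : min (H a) (H b) = H b := min_eq_right hlt.le
    have hmax : max (H a) (H b) = H a := max_eq_left hlt.le
    rw [hmin, hmax]
    have himg : H '' Icc a b = Icc (H b) (H a) := by
      apply Subset.antisymm
      · rintro _ ⟨s, hs, rfl⟩
        exact ⟨hanti.antitoneOn hs hb hs.2, hanti.antitoneOn ha hs hs.1⟩
      · exact intermediate_value_Icc' hab.le hcont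
    obtain ⟨σ, h1, h2, h3⟩ := RE1_core hab hc hH hV hanti.injOn himg
    refine ⟨hlt, σ, h1, h2, fun s hs => ?_, h3⟩
    exact ⟨hanti (Ioo_subset_Icc_self hs) hb hs.2, hanti ha (Ioo_subset_Icc_self hs) hs.1⟩
  · have hmono : StrictMonoOn H (Icc a b) :=
      strictMonoOn_of_hasDerivWithinAt_pos (convex_Icc a b) hcont hderiv
        (fun x hx => hpos x (interior_subset hx))
    have hlt : H a < H b := hmono ha hb hab
    have hmin : min (H a) (H b) = H a := min_eq_left hlt.le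
    have hmax : max (H a) (H b) = H b := max_eq_right hlt.le
    rw [hmin, hmax]
    have himg : H '' Icc a b = Icc (H a) (H b) := by
      apply Subset.antisymm
      · rintro _ ⟨s, hs, rfl⟩
        exact ⟨hmono.monotoneOn ha hs hs.1, hmono.monotoneOn hs hb hs.2⟩
      · exact intermediate_value_Icc hab.le hcont
    obtain ⟨σ, h1, h2, h3⟩ := RE1_core hab hc hH hV hmono.injOn himg
    refine ⟨hlt, σ, h1, h2, fun s hs => ?_, h3⟩
    exact ⟨hmono ha (Ioo_subset_Icc_self hs) hs.1, hmono (Ioo_subset_Icc_self hs) hb hs.2⟩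

theorem RE1_lower_aux {a b c₀ : ℝ} {H c : ℝ → ℝ} (hc : ∀ s ∈ Icc a b, c₀ ≤ |c s|)
    (hH : ∀ s ∈ Icc a b, HasDerivWithinAt H (c s) (Icc a b) s) {s s' : ℝ} (hs : s ∈ Icc a b)
    (hs' : s' ∈ Icc a b) (hss : s < s') : c₀ * |s - s'| ≤ |H s - H s'| := by
  have hsub : Icc s s' ⊆ Icc a b := Icc_subset_Icc hs.1 hs'.2
  have hcont : ContinuousOn H (Icc s s') := fun x hx =>
    ((hH x (hsub hx)).mono hsub).continuousWithinAt
  have hder : ∀ x ∈ Ioo s s', HasDerivAt H (c x) x := by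
    intro x hx
    refine (hH x (hsub (Ioo_subset_Icc_self hx))).hasDerivAt ?_
    exact Icc_mem_nhds (lt_of_le_of_lt hs.1 hx.1) (lt_of_lt_of_le hx.2 hs'.2)
  obtain ⟨ξ, hξ, hξe⟩ := exists_hasDerivAt_eq_slope H c hss hcont hder
  have h1 := hc ξ (hsub (Ioo_subset_Icc_self hξ))
  have hpos : 0 < s' - s := by linarith
  have h2 : H s' - H s = c ξ * (s' - s) := by
    rw [hξe]
    field_simp
  rw [abs_sub_comm s s', abs_sub_comm (H s) (H s'), h2, abs_mul]
  exact mul_le_mul_of_nonneg_right h1 (abs_nonneg _)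

theorem lower_bound {a b c₀ : ℝ} {H c : ℝ → ℝ} (hc : ∀ s ∈ Icc a b, c₀ ≤ |c s|) (hc₀ : 0 < c₀)
    (hH : ∀ s ∈ Icc a b, HasDerivWithinAt H (c s) (Icc a b) s) {s s' : ℝ} (hs : s ∈ Icc a b)
    (hs' : s' ∈ Icc a b) : c₀ * |s - s'| ≤ |H s - H s'| := by
  rcases lt_trichotomy s s' with h | h | h
  · exact RE1_lower_aux hc hH hs hs' h
  · subst h
    simp
  · rw [abs_sub_comm s s', abs_sub_comm (H s) (H s')]
    exact RE1_lower_aux hc hH hs' hs h

theorem crossing {g k : ℝ → ℝ} {h₁ v₁ h₂ v₂ η ρ : ℝ} (hρ : 0 ≤ ρ) (hη : 8 * ρ ≤ η)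
    (hg1 : g h₁ = v₁) (hk1 : k v₂ = h₂) (hh : |h₁ - h₂| ≤ ρ) (hv : |v₁ - v₂| ≤ ρ)
    (hg : ∀ x ∈ Icc (h₁ - η) (h₁ + η), ∀ y ∈ Icc (h₁ - η) (h₁ + η),
      |g x - g y| ≤ 1 / 4 * |x - y|)
    (hk : ∀ x ∈ Icc (v₂ - η) (v₂ + η), ∀ y ∈ Icc (v₂ - η) (v₂ + η),
      |k x - k y| ≤ 1 / 4 * |x - y|) :
    ∃ h ∈ Icc (h₁ - η) (h₁ + η), g h ∈ Icc (v₂ - η) (v₂ + η) ∧ k (g h) = h ∧
      |h - h₁| ≤ 4 * ρ := by
  have hI : ∀ x, |x - h₁| ≤ 4 * ρ → x ∈ Icc (h₁ - η) (h₁ + η) := by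
    intro x hx
    rw [abs_le] at hx
    constructor <;> linarith [hx.1, hx.2]
  have hh1 : h₁ ∈ Icc (h₁ - η) (h₁ + η) := by
    apply hI
    rw [sub_self, abs_zero]
    linarith
  have hv2 : v₂ ∈ Icc (v₂ - η) (v₂ + η) := by
    constructor <;> linarith
  have hgb : ∀ x, |x - h₁| ≤ 4 * ρ → |g x - v₂| ≤ 2 * ρ := by
    intro x hx
    have h1 := hg x (hI x hx) h₁ hh1
    rw [hg1] at h1
    have h2 := abs_sub_le (g x) v₁ v₂
    linarith
  have hgm : ∀ x, |x - h₁| ≤ 4 * ρ → g x ∈ Icc (v₂ - η) (v₂ + η) := by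
    intro x hx
    have h1 := hgb x hx
    rw [abs_le] at h1
    constructor <;> linarith [h1.1, h1.2]
  have hkb : ∀ x, |x - h₁| ≤ 4 * ρ → |k (g x) - h₁| ≤ 3 / 2 * ρ := by
    intro x hx
    have h1 := hk (g x) (hgm x hx) v₂ hv2
    rw [hk1] at h1
    have h2 := hgb x hx
    have h3 := abs_sub_le (k (g x)) h₂ h₁
    rw [abs_sub_comm h₂ h₁] at h3
    linarith
  have habs : ∀ x ∈ Icc (h₁ - 4 * ρ) (h₁ + 4 * ρ), |x - h₁| ≤ 4 * ρ := by
    intro x hx
    rw [abs_le]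
    constructor <;> linarith [hx.1, hx.2]
  have hcont : ContinuousOn (fun x => x - k (g x)) (Icc (h₁ - 4 * ρ) (h₁ + 4 * ρ)) := by
    refine continuousOn_id.sub ?_
    have hL : LipschitzOnWith (1 / 16) (fun x => k (g x)) (Icc (h₁ - 4 * ρ) (h₁ + 4 * ρ)) := by
      refine LipschitzOnWith.of_dist_le_mul fun x hx y hy => ?_
      rw [Real.dist_eq, Real.dist_eq]
      have h1 := hk _ (hgm x (habs x hx)) _ (hgm y (habs y hy))
      have h2 := hg x (hI x (habs x hx)) y (hI y (habs y hy))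
      have h3 : (((1 / 16 : NNReal)) : ℝ) = 1 / 16 := by push_cast; rfl
      rw [h3]
      linarith
    exact hL.continuousOn
  have hle : h₁ - 4 * ρ ≤ h₁ + 4 * ρ := by linarith
  have h0 : (0 : ℝ) ∈ Icc ((fun x => x - k (g x)) (h₁ - 4 * ρ))
      ((fun x => x - k (g x)) (h₁ + 4 * ρ)) := by
    have h1 := hkb (h₁ - 4 * ρ) (habs _ (left_mem_Icc.2 hle))
    have h2 := hkb (h₁ + 4 * ρ) (habs _ (right_mem_Icc.2 hle))
    rw [abs_le] at h1 h2
    constructor
    · change h₁ - 4 * ρ - k (g (h₁ - 4 * ρ)) ≤ 0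
      linarith [h1.1]
    · change 0 ≤ h₁ + 4 * ρ - k (g (h₁ + 4 * ρ))
      linarith [h2.2]
  obtain ⟨x, hx, hx0⟩ := intermediate_value_Icc hle hcont h0
  have hx0' : x - k (g x) = 0 := hx0
  exact ⟨x, hI x (habs x hx), hgm x (habs x hx), by linarith, habs x hx⟩

end VeniceMask
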