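import Pool.Agent.helper75.VM.M_B0

/-!
# MP_509a24_an, module RP: returns of points of `Wu` and `Ws`
-/

open Set Filter Topology Bundle
open scoped ContDiff Manifold

namespace VeniceMask

universe u

variable {M : Type u} [TopologicalSpace M] [T2Space M] {F : AFlow M}

omit [T2Space M] in
/-- near the center, the time-`τ` map goes into a small box -/
theorem RP_choose (B : FlowBox F) {τ : ℝ} (hτ : F.G τ (B.pt 0) = B.pt 0)
    (hp : B.pt 0 ∈ F.L) {ρ : ℝ} (hρ : 0 < ρ) :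
    ∃ r : ℝ, 0 < r ∧ r ≤ ρ ∧ ∀ q : Q2, ‖q‖ < r → B.pt q ∈ F.L →
      F.G τ (B.pt q) ∈ B.e '' {z : V3 | |z.1| < B.δ / 2 ∧ ‖z.2‖ < 1} := by
  have hδ := B.δ_pos
  have hopen : IsOpen (B.e '' {z : V3 | |z.1| < B.δ / 2 ∧ ‖z.2‖ < 1}) :=
    B.open_image (by linarith) le_rfl
  have hcont : ContinuousOn (fun x => F.G τ x) F.L := by
    have h1 : ContinuousOn (fun x : M => ((τ, x) : ℝ × M)) F.L :=
      (continuous_const.prodMk continuous_id).continuousOn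
    exact F.cont'.comp h1 (fun x hx => ⟨mem_univ _, hx⟩)
  have h0 : B.pt 0 ∈ B.e '' {z : V3 | |z.1| < B.δ / 2 ∧ ‖z.2‖ < 1} := by
    refine ⟨(0, 0), ?_, rfl⟩
    simp only [mem_ofPred_eq, abs_zero, norm_zero]
    exact ⟨by linarith, by norm_num⟩
  have hw := hcont (B.pt 0) hp
  have hmem : B.e '' {z : V3 | |z.1| < B.δ / 2 ∧ ‖z.2‖ < 1} ∈ 𝓝 (F.G τ (B.pt 0)) := by
    rw [hτ]
    exact hopen.mem_nhds h0
  have h2 := hw.preimage_mem_nhdsWithin hmem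
  rw [mem_nhdsWithin_iff_exists_mem_nhds_inter] at h2
  obtain ⟨W, hW, hWsub⟩ := h2
  have hball : {q : Q2 | ‖q‖ ≤ 1} ∈ 𝓝 (0 : Q2) := by
    have := Metric.closedBall_mem_nhds (0 : Q2) (zero_lt_one)
    refine Filter.mem_of_superset this ?_
    intro q hq
    simpa [Metric.mem_closedBall, dist_zero_right] using hq
  have hpt : ContinuousAt B.pt 0 := B.pt_cont.continuousAt hball
  have h3 : ∀ᶠ q in 𝓝 (0 : Q2), B.pt q ∈ W := hpt hW
  rw [Metric.eventually_nhds_iff] at h3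
  obtain ⟨ε, hε, h3⟩ := h3
  refine ⟨min ρ ε, lt_min hρ hε, min_le_left _ _, ?_⟩
  intro q hq hL
  have hq' : dist q 0 < ε := by
    rw [dist_zero_right]
    exact lt_of_lt_of_le hq (min_le_right _ _)
  exact hWsub ⟨h3 hq', hL⟩

/-- the part of the box away from the axis -/
theorem RP_away (B : FlowBox F) {O : Set M} (R : Ret B O) {r : ℝ} (hr : 0 < r) :
    ∃ U : Set M, IsOpen U ∧ O ⊆ U ∧ ∀ q : Q2, ‖q‖ ≤ 1 → B.pt q ∈ U → ‖q‖ < r := by
  have hS : IsClosed {z : V3 | |z.1| ≤ B.δ ∧ r ≤ ‖z.2‖ ∧ ‖z.2‖ ≤ 1} := by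
    refine IsClosed.inter ?_ (IsClosed.inter ?_ ?_)
    · exact isClosed_le (continuous_abs.comp continuous_fst) continuous_const
    · exact isClosed_le continuous_const (continuous_norm.comp continuous_snd)
    · exact isClosed_le (continuous_norm.comp continuous_snd) continuous_const
  have hK : IsCompact (B.e '' {z : V3 | |z.1| ≤ B.δ ∧ r ≤ ‖z.2‖ ∧ ‖z.2‖ ≤ 1}) :=
    B.compact_image hS (fun z hz => ⟨hz.1, hz.2.2⟩)
  refine ⟨(B.e '' {z : V3 | |z.1| ≤ B.δ ∧ r ≤ ‖z.2‖ ∧ ‖z.2‖ ≤ 1})ᶜ, hK.isClosed.isOpen_compl,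
    ?_, ?_⟩
  · rintro x hx ⟨⟨t, q⟩, ⟨h1, h2, h3⟩, rfl⟩
    have hq := R.axis t q h1 h3 hx
    rw [hq] at h2
    simp only [norm_zero] at h2
    linarith
  · intro q hq hU
    by_contra hcon
    push Not at hcon
    exact hU ⟨(0, q), ⟨by simpa using B.δ_pos.le, hcon, hq⟩, rfl⟩

omit [T2Space M] in
/-- sequences from a step -/
theorem RP_seq {α : Type*} (P : α → Prop) (S : α → α → Prop) (a : α) (ha : P a)
    (h : ∀ x, P x → ∃ y, P y ∧ S x y) : ∃ v : ℕ → α, v 0 = a ∧ (∀ n, P (v n)) ∧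
      ∀ n, S (v n) (v (n + 1)) := by
  choose f hf1 hf2 using h
  let w : ℕ → {x // P x} := fun n =>
    Nat.rec ⟨a, ha⟩ (fun _ z => ⟨f z.1 z.2, hf1 z.1 z.2⟩) n
  exact ⟨fun n => (w n).1, rfl, fun n => (w n).2, fun n => hf2 (w n).1 (w n).2⟩

theorem Ret.bwd {B : FlowBox F} {O : Set M} {p : M} {T : ℝ} (hO : F.IsPer O p T) (R : Ret B O)
    {y : M} (hy : y ∈ F.Wu O) {ρ : ℝ} (hρ : 0 < ρ) (hρ1 : ρ ≤ 1) (t₁ : ℝ) :
    ∃ t₀ ≥ t₁, ∃ u : ℕ → Q2, B.pt (u 0) = F.G (-t₀) y ∧ (∀ n, ‖u n‖ ≤ ρ) ∧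
      (∀ n, R.P (u (n + 1)) = u n) ∧ ∀ n, B.pt (u n) ∈ F.L := by
  have hδ := B.δ_pos
  have hO' : F.IsPer O (B.pt 0) T := hO.mem_of F R.center
  have hyL : y ∈ F.L := hy.1
  have hpL : B.pt 0 ∈ F.L := hO'.mem
  have hadd : ∀ a b : ℝ, F.G a (F.G b y) = F.G (a + b) y := fun a b => (F.add' a b y hyL).symm
  have hback : F.G (-R.T) (B.pt 0) = B.pt 0 := by
    have h := F.G_neg_G hpL R.T
    rwa [R.per] at h
  obtain ⟨r, hr, hrρ, hstep⟩ := RP_choose B hback hpL hρ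
  obtain ⟨U, hU, hOU, hUr⟩ := RP_away B R hr
  obtain ⟨T₀, hT₀⟩ := eventually_atTop.1 (hy.2 U hU hOU)
  have hN : B.e '' {z : V3 | |z.1| < B.δ ∧ ‖z.2‖ < r} ∈ 𝓝 (B.pt 0) := by
    refine (B.open_image le_rfl (hrρ.trans hρ1)).mem_nhds ⟨(0, 0), ?_, rfl⟩
    simp only [mem_ofPred_eq, abs_zero, norm_zero]
    exact ⟨hδ, hr⟩
  obtain ⟨U', hU', hOU', hnear⟩ := hO'.near F hN
  obtain ⟨T₀', hT₀'⟩ := eventually_atTop.1 (hy.2 U' hU' hOU')
  -- the first visit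
  set a : ℝ := max T₀ (max T₀' t₁) + 2 * B.δ with ha
  have ha1 : T₀ + 2 * B.δ ≤ a := by
    have := le_max_left T₀ (max T₀' t₁)
    linarith
  have ha2 : T₀' + 2 * B.δ ≤ a := by
    have := (le_max_left T₀' t₁).trans (le_max_right T₀ (max T₀' t₁))
    linarith
  have ha3 : t₁ + 2 * B.δ ≤ a := by
    have := (le_max_right T₀' t₁).trans (le_max_right T₀ (max T₀' t₁))
    linarith
  obtain ⟨-, t, ht0, -, htN⟩ := hnear (F.G (-a) y) (F.mapsTo' _ _ hyL)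
    (hT₀' a (by linarith))
  obtain ⟨⟨t', q⟩, ⟨ht', hq⟩, heq⟩ := htN
  simp only at ht' hq
  have hq1 : ‖q‖ ≤ 1 := by linarith
  have hLe : B.e (t', q) ∈ F.L := by
    rw [heq]
    exact F.mapsTo' _ _ (F.mapsTo' _ _ hyL)
  have hptq : B.pt q = F.G (-(a + t + t')) y := by
    rw [B.pt_eq ht'.le hq1 hLe, heq, hadd, hadd]
    congr 1
    ring
  have ht'2 := abs_lt.1 ht'
  obtain ⟨v, hv0, hvP, hvS⟩ := RP_seq
    (fun z : ℝ × Q2 => B.pt z.2 = F.G (-z.1) y ∧ ‖z.2‖ < r ∧ T₀ + B.δ ≤ z.1)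
    (fun z z' : ℝ × Q2 => R.P z'.2 = z.2) (a + t + t', q)
    ⟨hptq, hq, by simp only; linarith⟩ (by
      rintro ⟨s, q⟩ ⟨h1, h2, h3⟩
      simp only at h1 h2 h3
      have hqL : B.pt q ∈ F.L := by
        rw [h1]
        exact F.mapsTo' _ _ hyL
      have hq1 : ‖q‖ ≤ 1 := by linarith
      obtain ⟨⟨u', q'⟩, ⟨hu', hq'⟩, heq'⟩ := hstep q h2 hqL
      simp only at hu' hq'
      have hu'2 := abs_lt.1 hu'
      have hTδ := R.δ_lt
      have hu'δ : |u'| ≤ B.δ := by linarith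
      have hLe' : B.e (u', q') ∈ F.L := by
        rw [heq']
        exact F.mapsTo' _ _ hqL
      have hpt' : B.pt q' = F.G (-(s + R.T + u')) y := by
        rw [B.pt_eq hu'δ hq'.le hLe', heq', h1, hadd, hadd]
        congr 1
        ring
      have hpt'L : B.pt q' ∈ F.L := by
        rw [hpt']
        exact F.mapsTo' _ _ hyL
      refine ⟨(s + R.T + u', q'), ⟨hpt', ?_, ?_⟩, ?_⟩
      · refine hUr q' hq'.le ?_
        rw [hpt']
        exact hT₀ _ (by linarith)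
      · simp only
        linarith
      · simp only
        obtain ⟨u'', -, hsrc, hret⟩ := R.ret q' hq'.le
        have e1 : F.G R.T (B.pt q') = B.e (-u', q) := by
          rw [← B.G_pt (by rwa [abs_neg]) hq1 hqL, hpt', h1, hadd, hadd]
          congr 1
          ring
        have e2 := B.e.injOn hsrc (B.src (-u') q (by rwa [abs_neg]) hq1) (hret.symm.trans e1)
        exact (Prod.ext_iff.1 e2).2)
  refine ⟨a + t + t', by linarith, fun n => (v n).2, ?_, ?_, ?_, ?_⟩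
  · simp only [hv0]
    exact hptq
  · intro n
    exact ((hvP n).2.1).le.trans hrρ
  · intro n
    exact hvS n
  · intro n
    simp only [(hvP n).1]
    exact F.mapsTo' _ _ hyL

theorem Ret.fwd {B : FlowBox F} {O : Set M} {p : M} {T : ℝ} (hO : F.IsPer O p T) (R : Ret B O)
    {y : M} (hy : y ∈ F.Ws O) (hyL : y ∈ F.L) {ρ : ℝ} (hρ : 0 < ρ) (hρ1 : ρ ≤ 1) (t₁ : ℝ) :
    ∃ t₀ ≥ t₁, ∃ u : ℕ → Q2, B.pt (u 0) = F.G t₀ y ∧ (∀ n, ‖u n‖ ≤ ρ) ∧
      (∀ n, R.P (u n) = u (n + 1)) ∧ ∀ n, B.pt (u n) ∈ F.L := by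
  have hδ := B.δ_pos
  have hO' : F.IsPer O (B.pt 0) T := hO.mem_of F R.center
  have hpL : B.pt 0 ∈ F.L := hO'.mem
  have hadd : ∀ a b : ℝ, F.G a (F.G b y) = F.G (a + b) y := fun a b => (F.add' a b y hyL).symm
  obtain ⟨r, hr, hrρ, hstep⟩ := RP_choose B R.per hpL hρ
  obtain ⟨U, hU, hOU, hUr⟩ := RP_away B R hr
  obtain ⟨T₀, hT₀⟩ := eventually_atTop.1 (hy U hU hOU)
  have hN : B.e '' {z : V3 | |z.1| < B.δ ∧ ‖z.2‖ < r} ∈ 𝓝 (B.pt 0) := by
    refine (B.open_image le_rfl (hrρ.trans hρ1)).mem_nhds ⟨(0, 0), ?_, rfl⟩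
    simp only [mem_ofPred_eq, abs_zero, norm_zero]
    exact ⟨hδ, hr⟩
  obtain ⟨U', hU', hOU', hnear⟩ := hO'.near F hN
  obtain ⟨T₀', hT₀'⟩ := eventually_atTop.1 (hy U' hU' hOU')
  set a : ℝ := max T₀ (max T₀' t₁) + 2 * B.δ with ha
  have ha1 : T₀ + 2 * B.δ ≤ a := by
    have := le_max_left T₀ (max T₀' t₁)
    linarith
  have ha2 : T₀' + 2 * B.δ ≤ a := by
    have := (le_max_left T₀' t₁).trans (le_max_right T₀ (max T₀' t₁))
    linarith
  have ha3 : t₁ + 2 * B.δ ≤ a := by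
    have := (le_max_right T₀' t₁).trans (le_max_right T₀ (max T₀' t₁))
    linarith
  obtain ⟨⟨t, ht0, -, htN⟩, -⟩ := hnear (F.G a y) (F.mapsTo' _ _ hyL)
    (hT₀' a (by linarith))
  obtain ⟨⟨t', q⟩, ⟨ht', hq⟩, heq⟩ := htN
  simp only at ht' hq
  have hq1 : ‖q‖ ≤ 1 := by linarith
  have hLe : B.e (t', q) ∈ F.L := by
    rw [heq]
    exact F.mapsTo' _ _ (F.mapsTo' _ _ hyL)
  have hptq : B.pt q = F.G (a + t - t') y := by
    rw [B.pt_eq ht'.le hq1 hLe, heq, hadd, hadd]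
    congr 1
    ring
  have ht'2 := abs_lt.1 ht'
  obtain ⟨v, hv0, hvP, hvS⟩ := RP_seq
    (fun z : ℝ × Q2 => B.pt z.2 = F.G z.1 y ∧ ‖z.2‖ < r ∧ T₀ + B.δ ≤ z.1)
    (fun z z' : ℝ × Q2 => R.P z.2 = z'.2) (a + t - t', q)
    ⟨hptq, hq, by simp only; linarith⟩ (by
      rintro ⟨s, q⟩ ⟨h1, h2, h3⟩
      simp only at h1 h2 h3
      have hqL : B.pt q ∈ F.L := by
        rw [h1]
        exact F.mapsTo' _ _ hyL
      have hq1 : ‖q‖ ≤ 1 := by linarith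
      obtain ⟨⟨u', q'⟩, ⟨hu', hq'⟩, heq'⟩ := hstep q h2 hqL
      simp only at hu' hq'
      have hu'2 := abs_lt.1 hu'
      have hTδ := R.δ_lt
      have hu'δ : |u'| ≤ B.δ := by linarith
      have hLe' : B.e (u', q') ∈ F.L := by
        rw [heq']
        exact F.mapsTo' _ _ hqL
      have hpt' : B.pt q' = F.G (s + R.T - u') y := by
        rw [B.pt_eq hu'δ hq'.le hLe', heq', h1, hadd, hadd]
        congr 1
        ring
      refine ⟨(s + R.T - u', q'), ⟨hpt', ?_, ?_⟩, ?_⟩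
      · refine hUr q' hq'.le ?_
        rw [hpt']
        exact hT₀ _ (by linarith)
      · simp only
        linarith
      · simp only
        obtain ⟨u'', -, hsrc, hret⟩ := R.ret q hq1
        have e2 := B.e.injOn hsrc (B.src u' q' hu'δ hq'.le) (hret.symm.trans heq'.symm)
        exact (Prod.ext_iff.1 e2).2)
  refine ⟨a + t - t', by linarith, fun n => (v n).2, ?_, ?_, ?_, ?_⟩
  · simp only [hv0]
    exact hptq
  · intro n
    exact ((hvP n).2.1).le.trans hrρ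
  · intro n
    exact hvS n
  · intro n
    simp only [(hvP n).1]
    exact F.mapsTo' _ _ hyL

end VeniceMask
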