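import Pool.Agent.helper75.VM.M_B0
import Pool.Agent.helper75.VM.M_GA

/-!
# MP_509a24_an, module SA: the planar saddle of a `Saddle`
-/

open Set Filter Topology Bundle
open scoped ContDiff Manifold

namespace VeniceMask

universe u

variable {M : Type u} [TopologicalSpace M] {F : AFlow M}

theorem Box.trace_closed [T2Space M] (B : Box F) : IsClosed B.trace := by
  have h1 : IsClosed {q : Q2 | ‖q‖ ≤ 1} := isClosed_le continuous_norm continuous_const
  have h2 : IsClosed F.L := F.compact'.isClosed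
  exact B.toFlowBox.pt_cont.preimage_isClosed_of_isClosed h1 h2

theorem Saddle.trace_fwd {B : Box F} {O : Set M} (S : Saddle B O) {q : Q2} (hq : q ∈ B.trace)
    (hP : ‖S.P q‖ ≤ 1) : S.P q ∈ B.trace := by
  obtain ⟨t, _, _, h⟩ := S.toRet.step hq.1 hP
  refine ⟨hP, ?_⟩
  have h2 : F.G t (B.pt q) ∈ F.L := F.mapsTo' t _ hq.2
  rw [h] at h2
  exact h2

theorem Saddle.trace_bwd {B : Box F} {O : Set M} (S : Saddle B O) {q : Q2} (hq : ‖q‖ ≤ 1)
    (hP : S.P q ∈ B.trace) : q ∈ B.trace := by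
  obtain ⟨t, h0, _, h⟩ := S.toRet.step hq hP.1
  refine ⟨hq, ?_⟩
  have ht : 0 ≤ t := (B.δ_pos.trans h0).le
  have h2 : F.G t (B.pt q) ∈ F.L := by
    rw [h]; exact hP.2
  exact (F.mem_iff ht).1 h2

/-- times of the backward orbit -/
private theorem Saddle.SA_times {B : Box F} {O : Set M} (S : Saddle B O)
    (u : ℕ → Q2) (hu : ∀ n, ‖u n‖ ≤ 1) (hP : ∀ n, S.P (u (n + 1)) = u n) :
    ∃ τ : ℕ → ℝ, τ 0 = 0 ∧ (∀ n, B.δ < τ (n + 1) - τ n ∧ τ (n + 1) - τ n ≤ S.T + B.δ) ∧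
      ∀ n, F.G (τ n) (B.pt (u n)) = B.pt (u 0) := by
  have hst : ∀ n, ∃ t, B.δ < t ∧ t ≤ S.T + B.δ ∧ F.G t (B.pt (u (n + 1))) = B.pt (u n) := by
    intro n
    have := S.toRet.step (hu (n + 1)) (by rw [hP]; exact hu n)
    rw [hP] at this
    exact this
  choose tt h1 h2 h3 using hst
  have hpos : ∀ n, 0 ≤ tt n := fun n => (B.δ_pos.trans (h1 n)).le
  refine ⟨fun n => ∑ i ∈ Finset.range n, tt i, by simp, ?_, ?_⟩
  · intro n
    have : (∑ i ∈ Finset.range (n + 1), tt i) - ∑ i ∈ Finset.range n, tt i = tt n := by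
      rw [Finset.sum_range_succ]; ring
    simp only [this]
    exact ⟨h1 n, h2 n⟩
  · intro n
    induction n with
    | zero => simp only [Finset.range_zero, Finset.sum_empty]; exact F.zero' _
    | succ n ih =>
      simp only [Finset.sum_range_succ]
      rw [F.add_nonneg' _ _ (Finset.sum_nonneg fun i _ => hpos i) (hpos n), h3 n]
      exact ih

private theorem SA_tau_ge {τ : ℕ → ℝ} {d D : ℝ} (h0 : τ 0 = 0)
    (h : ∀ n, d < τ (n + 1) - τ n ∧ τ (n + 1) - τ n ≤ D) (n : ℕ) :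
    n * d ≤ τ n ∧ τ n ≤ n * D := by
  induction n with
  | zero => simp [h0]
  | succ n ih =>
    obtain ⟨a, b⟩ := h n
    push_cast
    constructor <;> linarith [ih.1, ih.2]

private theorem Saddle.SA_small {B : Box F} {O : Set M} (S : Saddle B O)
    (u : ℕ → Q2) (hu : ∀ n, ‖u n‖ ≤ 1) (hP : ∀ n, S.P (u (n + 1)) = u n) (n : ℕ) :
    ‖u n‖ ≤ (1 / 3) ^ n := by
  have h := (S.pmap.gam_contract (u := u) (u' := fun _ => 0) hu (by simp) hP
    (fun _ => S.P0) n).2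
  rw [sub_zero] at h
  refine h.trans ?_
  have h1 : |(u 0).1 - (0 : Q2).1| ≤ 1 := by
    rw [Prod.fst_zero, sub_zero]
    exact (norm_fst_le (u 0)).trans (hu 0)
  have h2 : (0 : ℝ) ≤ (1 / 3) ^ n := by positivity
  calc (1 / 3 : ℝ) ^ n * |(u 0).1 - (0 : Q2).1| ≤ (1 / 3) ^ n * 1 :=
        mul_le_mul_of_nonneg_left h1 h2
    _ = (1 / 3) ^ n := mul_one _

theorem Saddle.trace_max {B : Box F} {O : Set M} (S : Saddle B O) (hO : B.pt 0 ∈ F.L)
    (u : ℕ → Q2) (hu : ∀ n, ‖u n‖ ≤ 1) (hP : ∀ n, S.P (u (n + 1)) = u n) :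
    u 0 ∈ B.trace := by
  have hsm := S.SA_small u hu hP
  -- the orbit tends to 0
  have hlim : Tendsto u atTop (𝓝 0) := by
    rw [tendsto_zero_iff_norm_tendsto_zero]
    exact squeeze_zero (fun n => norm_nonneg _) hsm
      (tendsto_pow_atTop_nhds_zero_of_lt_one (by norm_num) (by norm_num))
  have hball : {q : Q2 | ‖q‖ ≤ 1} ∈ 𝓝 (0 : Q2) := by
    have : Metric.closedBall (0 : Q2) 1 ∈ 𝓝 (0 : Q2) :=
      Metric.closedBall_mem_nhds _ one_pos
    refine mem_of_superset this ?_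
    intro q hq
    rw [mem_closedBall_zero_iff] at hq
    exact hq
  have hcont : ContinuousAt B.pt 0 := B.toFlowBox.pt_cont.continuousAt hball
  have hN : ∀ᶠ n in atTop, B.pt (u n) ∈ F.N :=
    (hcont.tendsto.comp hlim).eventually (F.open'.mem_nhds (F.sub' hO))
  obtain ⟨n, hn⟩ := hN.exists
  -- infinite backward orbit of `pt (u n)`
  have hback : ∀ t, 0 ≤ t → ∃ y, F.G t y = B.pt (u n) := by
    intro t ht
    obtain ⟨τ, h0, h1, h2⟩ := S.SA_times (fun k => u (n + k)) (fun k => hu _) (fun k => hP _)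
    obtain ⟨k, hk⟩ := exists_nat_ge (t / B.δ)
    have hk2 : t ≤ k * B.δ := (div_le_iff₀ B.δ_pos).1 hk
    have hk3 := (SA_tau_ge h0 h1 k).1
    refine ⟨F.G (τ k - t) (B.pt (u (n + k))), ?_⟩
    rw [← F.add_nonneg' t (τ k - t) ht (by linarith)]
    rw [show t + (τ k - t) = τ k by ring]
    exact h2 k
  have hL : u n ∈ B.trace := ⟨hu n, F.max' _ hn hback⟩
  have hdesc : ∀ m, m ≤ n → u (n - m) ∈ B.trace := by
    intro m
    induction m with
    | zero => intro _; exact hL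
    | succ m ih =>
      intro hm
      have h1 := ih (by omega)
      have h2 : S.P (u (n - m)) = u (n - (m + 1)) := by
        have := hP (n - (m + 1))
        rw [show n - (m + 1) + 1 = n - m by omega] at this
        exact this
      rw [← h2]
      exact S.trace_fwd h1 (by rw [h2]; exact hu _)
  have := hdesc n le_rfl
  rw [Nat.sub_self] at this
  exact this

/-- the planar saddle -/
def Saddle.psad [T2Space M] {B : Box F} {O : Set M} (S : Saddle B O) (hO : B.pt 0 ∈ F.L) :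
    PSad where
  toPMap := S.pmap
  K := B.trace
  m := B.m
  K_sub := fun _ hq => hq.1
  K_closed := B.trace_closed
  m_cont := B.m_cont
  m_le := fun q hq => B.m_le q hq.1 hq.2
  K_fwd := fun _ hq hP => S.trace_fwd hq hP
  K_bwd := fun _ hq hP => S.trace_bwd hq hP
  K_max := fun u hu hP => S.trace_max hO u hu hP
  der := fun q hq hPq => S.der q hq.1 hq.2 hPq.1

/-- uniform backward convergence of `Γ` to the orbit -/
theorem Saddle.gam_Wu {B : Box F} {O : Set M} {p : M} {T : ℝ} (S : Saddle B O)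
    (hO : F.IsPer O p T) {U : Set M} (hU : IsOpen U) (hOU : O ⊆ U) :
    ∃ t₀ : ℝ, ∀ t ≥ t₀, ∀ q ∈ S.pmap.Gam, F.G (-t) (B.pt q) ∈ U := by
  have hc : B.pt 0 ∈ O := S.center
  have hcL : B.pt 0 ∈ F.L := hO.sub F hc
  set D : ℝ := S.T + B.δ with hD
  have hDpos : 0 < D := add_pos S.T_pos B.δ_pos
  -- tube lemma
  have htube : ∃ v ∈ 𝓝 (0 : Q2), ∀ q ∈ v, q ∈ B.trace → ∀ s ∈ Icc (-D) 0,
      F.G s (B.pt q) ∈ U := by
    have hcont : ContinuousOn (fun z : ℝ × Q2 => F.G z.1 (B.pt z.2))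
        (Icc (-D) 0 ×ˢ B.trace) := by
      have h1 : ContinuousOn (fun z : ℝ × Q2 => (z.1, B.pt z.2)) (Icc (-D) 0 ×ˢ B.trace) := by
        refine continuousOn_fst.prodMk ?_
        exact B.toFlowBox.pt_cont.comp continuousOn_snd fun z hz => hz.2.1
      exact F.cont'.comp h1 fun z hz => ⟨mem_univ _, hz.2.2⟩
    obtain ⟨n, hn, hn2⟩ := continuousOn_iff'.1 hcont U hU
    have hsub : Icc (-D) 0 ×ˢ ({0} : Set Q2) ⊆ n := by
      rintro ⟨s, q⟩ ⟨hs, hq⟩
      rw [mem_singleton_iff] at hq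
      simp only at hs hq
      subst hq
      have hmem : ((s, (0 : Q2)) : ℝ × Q2) ∈
          (fun z : ℝ × Q2 => F.G z.1 (B.pt z.2)) ⁻¹' U ∩ (Icc (-D) 0 ×ˢ B.trace) := by
        refine ⟨hOU (hO.inv F s _ hc), hs, ?_⟩
        exact ⟨by simp, hcL⟩
      rw [hn2] at hmem
      exact hmem.1
    obtain ⟨u', v, hu', hv, h1, h2, h3⟩ :=
      generalized_tube_lemma isCompact_Icc isCompact_singleton hn hsub
    refine ⟨v, hv.mem_nhds (h2 rfl), ?_⟩
    intro q hq hqt s hs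
    have hmem : ((s, q) : ℝ × Q2) ∈ n ∩ (Icc (-D) 0 ×ˢ B.trace) :=
      ⟨h3 ⟨h1 hs, hq⟩, hs, hqt⟩
    rw [← hn2] at hmem
    exact hmem.1
  obtain ⟨v, hv, hv2⟩ := htube
  obtain ⟨ρ, hρ, hρv⟩ := Metric.mem_nhds_iff.1 hv
  obtain ⟨n₁, hn₁⟩ := exists_pow_lt_of_lt_one hρ (show (1 / 3 : ℝ) < 1 by norm_num)
  refine ⟨n₁ * D, ?_⟩
  intro t ht q hq
  obtain ⟨u, hu0, hu, hP⟩ := hq
  have hP' : ∀ n, S.P (u (n + 1)) = u n := hP
  obtain ⟨τ, h0, h1, h2⟩ := S.SA_times u hu hP'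
  have hmem : ∀ n, u n ∈ B.trace := by
    intro n
    have := S.trace_max hcL (fun k => u (n + k)) (fun k => hu _) (fun k => hP' _)
    exact this
  have hex : ∃ n, t < τ n := by
    obtain ⟨k, hk⟩ := exists_nat_gt (t / B.δ)
    exact ⟨k, ((div_lt_iff₀ B.δ_pos).1 hk).trans_le (SA_tau_ge h0 h1 k).1⟩
  classical
  have hfind := Nat.find_spec hex
  have hne : Nat.find hex ≠ 0 := by
    intro h
    rw [h, h0] at hfind
    have : 0 ≤ (n₁ : ℝ) * D := by positivity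
    linarith
  obtain ⟨m, hm⟩ := Nat.exists_eq_succ_of_ne_zero hne
  rw [hm] at hfind
  have hle : τ m ≤ t := by
    have := Nat.find_min hex (m := m) (by omega)
    linarith [not_lt.1 this]
  have hmn : n₁ ≤ m := by
    have h5 := (SA_tau_ge h0 h1 (m + 1)).2
    have h6 : (n₁ : ℝ) * D < ((m + 1 : ℕ) : ℝ) * D := lt_of_le_of_lt ht (hfind.trans_le h5)
    have h7 : (n₁ : ℝ) < ((m + 1 : ℕ) : ℝ) := lt_of_mul_lt_mul_right h6 hDpos.le
    have h8 : n₁ < m + 1 := by exact_mod_cast h7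
    omega
  have hum : u m ∈ v := by
    refine hρv ?_
    rw [mem_ball_zero_iff]
    refine (S.SA_small u hu hP' m).trans_lt (lt_of_le_of_lt ?_ hn₁)
    exact pow_le_pow_of_le_one (by norm_num) (by norm_num) hmn
  have hkey := hv2 (u m) hum (hmem m) (-(t - τ m)) ⟨by linarith [(h1 m).2], by linarith⟩
  have hptq : F.G (-(τ m)) (B.pt q) = B.pt (u m) := by
    rw [← hu0, ← h2 m]
    exact F.G_neg_G (hmem m).2 _
  have hqL : B.pt q ∈ F.L := by
    rw [← hu0]; exact (hmem 0).2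
  have hfin : F.G (-t) (B.pt q) = F.G (-(t - τ m)) (B.pt (u m)) := by
    rw [← hptq, ← F.add' _ _ _ hqL]
    congr 1
    ring
  rw [hfin]
  exact hkey

end VeniceMask
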