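import Pool.Agent.helper75.VM.M_B0
import Pool.Agent.helper75.VM.M_GD
import Pool.Agent.helper75.VM.M_GA
import Pool.Agent.helper75.VM.M_LP
import Pool.Agent.helper75.VM.M_RE1
import Pool.Agent.helper75.VM.M_SA
import Pool.Agent.helper75.VM.M_RP

/-!
# MP_509a24_an, module LU2: unstable curves through a point of `Wu`: convergence and uniqueness
-/

open Set Filter Topology Bundle
open scoped ContDiff Manifold

namespace VeniceMask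

universe u

section aux

variable {M : Type u} [TopologicalSpace M] {F : AFlow M} {B₁ B₂ : Box F}

theorem LU2_cont {g : ℝ → ℝ} {a b : ℝ} (hg : IsUCurve B₁ g a b) (t : ℝ) :
    ContinuousOn (fun s => F.G t (B₁.pt (s, g s))) (Icc a b) := by
  have hgc : ContinuousOn g (Icc a b) := fun h hh => (hg.der h hh).continuousWithinAt
  have h1 : ContinuousOn (fun s : ℝ => ((s, g s) : Q2)) (Icc a b) :=
    continuousOn_id.prodMk hgc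
  have h2 : ContinuousOn (fun s : ℝ => B₁.pt (s, g s)) (Icc a b) :=
    B₁.toFlowBox.pt_cont.comp h1 (fun s hs => hg.norm_le s hs)
  have h3 : ContinuousOn (fun s : ℝ => ((t, B₁.pt (s, g s)) : ℝ × M)) (Icc a b) :=
    continuousOn_const.prodMk h2
  exact F.cont'.comp h3 (fun s hs => ⟨mem_univ _, hg.mem s hs⟩)

/-- the transported point in the chart of `B₂` -/
noncomputable def LU2z (F : AFlow M) (B₁ B₂ : Box F) (g : ℝ → ℝ) (t s : ℝ) : V3 :=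
  B₂.e.symm (F.G t (B₁.pt (s, g s)))

theorem LU2_near {g : ℝ → ℝ} {a b s₀ t : ℝ} (hg : IsUCurve B₁ g a b) (hs : s₀ ∈ Icc a b)
    {q₀ : Q2} (hq₀ : ‖q₀‖ < 1) (h0 : F.G t (B₁.pt (s₀, g s₀)) = B₂.e (0, q₀))
    {r : ℝ} (hr : 0 < r) :
    LU2z F B₁ B₂ g t s₀ = (0, q₀) ∧
    ∃ ε > 0, ∀ s ∈ Icc a b, |s - s₀| ≤ ε →
      B₂.e (LU2z F B₁ B₂ g t s) = F.G t (B₁.pt (s, g s)) ∧
      |(LU2z F B₁ B₂ g t s).1| ≤ r ∧ |(LU2z F B₁ B₂ g t s).1| ≤ B₂.δ ∧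
      ‖(LU2z F B₁ B₂ g t s).2‖ ≤ 1 ∧ |(LU2z F B₁ B₂ g t s).2.1 - q₀.1| ≤ r := by
  have hsrc : ((0, q₀) : V3) ∈ B₂.e.source :=
    B₂.src 0 q₀ (by rw [abs_zero]; exact B₂.δ_pos.le) hq₀.le
  have hz0 : LU2z F B₁ B₂ g t s₀ = (0, q₀) := by
    unfold LU2z
    rw [h0]
    exact B₂.e.left_inv hsrc
  refine ⟨hz0, ?_⟩
  have hΦ := (LU2_cont hg t) s₀ hs
  have htgt : F.G t (B₁.pt (s₀, g s₀)) ∈ B₂.e.target := by
    rw [h0]; exact B₂.e.map_source hsrc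
  have hsymm : ContinuousAt B₂.e.symm (F.G t (B₁.pt (s₀, g s₀))) :=
    B₂.e.continuousAt_symm htgt
  have hz : ContinuousWithinAt (fun s => LU2z F B₁ B₂ g t s) (Icc a b) s₀ :=
    ContinuousAt.comp_continuousWithinAt (f := fun s => F.G t (B₁.pt (s, g s))) hsymm hΦ
  have hev1 : ∀ᶠ s in 𝓝[Icc a b] s₀, F.G t (B₁.pt (s, g s)) ∈ B₂.e.target :=
    hΦ (B₂.e.open_target.mem_nhds htgt)
  have hopen : IsOpen {z : V3 | |z.1| < min r B₂.δ ∧ ‖z.2‖ < 1 ∧ |z.2.1 - q₀.1| < r} := by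
    have h1 : IsOpen {z : V3 | |z.1| < min r B₂.δ} :=
      isOpen_lt (by fun_prop) continuous_const
    have h2 : IsOpen {z : V3 | ‖z.2‖ < 1} := isOpen_lt (by fun_prop) continuous_const
    have h3 : IsOpen {z : V3 | |z.2.1 - q₀.1| < r} := isOpen_lt (by fun_prop) continuous_const
    exact h1.inter (h2.inter h3)
  have hmem : LU2z F B₁ B₂ g t s₀ ∈
      {z : V3 | |z.1| < min r B₂.δ ∧ ‖z.2‖ < 1 ∧ |z.2.1 - q₀.1| < r} := by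
    rw [hz0]
    refine ⟨?_, hq₀, ?_⟩
    · show |(0 : ℝ)| < _
      rw [abs_zero]; exact lt_min hr B₂.δ_pos
    · show |q₀.1 - q₀.1| < r
      rw [sub_self, abs_zero]; exact hr
  have hev2 := hz (hopen.mem_nhds hmem)
  have hev := hev1.and hev2
  rw [Filter.Eventually, Metric.mem_nhdsWithin_iff] at hev
  obtain ⟨ε, hε, hεs⟩ := hev
  refine ⟨ε / 2, by positivity, fun s hs hss => ?_⟩
  have hball : s ∈ Metric.ball s₀ ε ∩ Icc a b := by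
    refine ⟨?_, hs⟩
    rw [Metric.mem_ball, Real.dist_eq]
    linarith
  obtain ⟨h1, h2, h3, h4⟩ := hεs hball
  refine ⟨B₂.e.right_inv h1, ?_, ?_, h3.le, h4.le⟩
  · exact (h2.le.trans (min_le_left _ _))
  · exact (h2.le.trans (min_le_right _ _))

/-- reparametrisation of the transported curve -/
theorem LU2_rep {g : ℝ → ℝ} {a b t C : ℝ} (hab : a < b) (hg : IsUCurve B₁ g a b)
    (hT : Transp B₁ B₂ C)
    (hn : ∀ s ∈ Icc a b, B₂.e (LU2z F B₁ B₂ g t s) = F.G t (B₁.pt (s, g s)) ∧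
      |(LU2z F B₁ B₂ g t s).1| ≤ B₂.δ ∧ ‖(LU2z F B₁ B₂ g t s).2‖ ≤ 1) :
    ∃ (h₁ h₂ : ℝ) (σ : ℝ → ℝ),
      (∀ s ∈ Icc a b, (LU2z F B₁ B₂ g t s).2.1 ∈ Icc h₁ h₂ ∧
        σ ((LU2z F B₁ B₂ g t s).2.1) = s) ∧
      ∀ h ∈ Icc h₁ h₂, σ h ∈ Icc a b ∧ (LU2z F B₁ B₂ g t (σ h)).2.1 = h ∧
        HasDerivWithinAt (fun x => (LU2z F B₁ B₂ g t (σ x)).2.2)
          (B₂.m (h, (LU2z F B₁ B₂ g t (σ h)).2.2)) (Icc h₁ h₂) h := by
  have hc : ∀ s : ℝ, ∃ c : ℝ, s ∈ Icc a b → c ≠ 0 ∧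
      HasDerivWithinAt (fun s' => (LU2z F B₁ B₂ g t s').2)
        (c, c * B₂.m (LU2z F B₁ B₂ g t s).2) (Icc a b) s := by
    intro s
    by_cases hs : s ∈ Icc a b
    · obtain ⟨h1, h2, h3⟩ := hn s hs
      obtain ⟨c, hc0, -, -, hd⟩ := hT g a b hg t s hs (LU2z F B₁ B₂ g t s).1
        (LU2z F B₁ B₂ g t s).2 h2 h3 h1.symm
      exact ⟨c, fun _ => ⟨hc0, hd⟩⟩
    · exact ⟨0, fun h => absurd h hs⟩
  choose c hc using hc
  have hH : ∀ s ∈ Icc a b, HasDerivWithinAt (fun s => (LU2z F B₁ B₂ g t s).2.1) (c s)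
      (Icc a b) s := by
    intro s hs
    have := (hasFDerivAt_fst (𝕜 := ℝ) (E := ℝ) (F := ℝ)
      (p := (LU2z F B₁ B₂ g t s).2)).comp_hasDerivWithinAt s (hc s hs).2
    exact this
  have hV : ∀ s ∈ Icc a b, HasDerivWithinAt (fun s => (LU2z F B₁ B₂ g t s).2.2)
      (c s * B₂.m (LU2z F B₁ B₂ g t s).2) (Icc a b) s := by
    intro s hs
    have := (hasFDerivAt_snd (𝕜 := ℝ) (E := ℝ) (F := ℝ)
      (p := (LU2z F B₁ B₂ g t s).2)).comp_hasDerivWithinAt s (hc s hs).2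
    exact this
  obtain ⟨-, σ, -, hσ1, -, hσ2⟩ := reparam hab (c := c)
    (μ := fun s => B₂.m (LU2z F B₁ B₂ g t s).2) (fun s hs => (hc s hs).1) hH hV
  refine ⟨_, _, σ, hσ1, fun h hh => ?_⟩
  obtain ⟨h1, h2, h3⟩ := hσ2 h hh
  refine ⟨h1, h2, ?_⟩
  have he : (LU2z F B₁ B₂ g t (σ h)).2 = (h, (LU2z F B₁ B₂ g t (σ h)).2.2) :=
    Prod.ext h2 rfl
  rw [← he]
  exact h3

end aux

variable {M : Type u} [TopologicalSpace M] [T2Space M] (S : System M) {B : Box S.toAFlow} (hB : Linked S B)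
  {O : Set M} {p : M} {T : ℝ} (hO : S.IsPer O p T)

theorem LU2_pull {S : System M} {B : Box S.toAFlow} {Bp : Box S.toAFlow} {C : ℝ} (hT : Transp B Bp C)
    (Sd : Saddle Bp O) (hp : Bp.pt 0 ∈ S.L) {g : ℝ → ℝ} {a b s₀ : ℝ}
    (hg : IsUCurve B g a b) (hs : s₀ ∈ Icc a b) {t : ℝ} {w : Q2}
    (hw0 : w ∈ Sd.pmap.Gam) (hwn : ‖w‖ ≤ 1 / 8)
    (hw : S.G t (B.pt (s₀, g s₀)) = Bp.pt w) {r : ℝ} (hr : 0 < r) :
    ∃ ε > 0, ∀ s ∈ Icc a b, |s - s₀| ≤ ε →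
      ∃ (v : ℝ) (q : Q2), |v| ≤ r ∧ |v| ≤ Bp.δ ∧ ‖q‖ ≤ 1 ∧ q ∈ Sd.pmap.Gam ∧
        |q.1 - w.1| ≤ r ∧ S.G t (B.pt (s, g s)) = Bp.e (v, q) := by
  have hw1 : ‖w‖ < 1 := by linarith
  obtain ⟨hz0, ε, hε, hn⟩ := LU2_near hg hs hw1 hw hr
  rcases eq_or_lt_of_le hg.le with hab | hab
  · refine ⟨ε, hε, fun s hs' hss => ?_⟩
    have hs0 : s = s₀ := by
      have h1 := hs.1; have h2 := hs.2; have h3 := hs'.1; have h4 := hs'.2
      linarith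
    subst hs0
    refine ⟨0, w, by rw [abs_zero]; exact hr.le, by rw [abs_zero]; exact Bp.δ_pos.le, hw1.le,
      hw0, by rw [sub_self, abs_zero]; exact hr.le, hw⟩
  · -- the sub-interval
    have ha' : max a (s₀ - ε) < min b (s₀ + ε) := by
      have h1 := hs.1; have h2 := hs.2
      refine max_lt (lt_min hab (by linarith)) (lt_min ?_ (by linarith))
      linarith
    have hsub : ∀ s, s ∈ Icc (max a (s₀ - ε)) (min b (s₀ + ε)) ↔ s ∈ Icc a b ∧ |s - s₀| ≤ ε := by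
      intro s
      rw [mem_Icc, mem_Icc, max_le_iff, le_min_iff, abs_le]
      constructor
      · rintro ⟨⟨h1, h2⟩, h3, h4⟩
        exact ⟨⟨h1, h3⟩, by linarith, by linarith⟩
      · rintro ⟨⟨h1, h2⟩, h3, h4⟩
        exact ⟨⟨h1, by linarith⟩, h2, by linarith⟩
    have hg' : IsUCurve B g (max a (s₀ - ε)) (min b (s₀ + ε)) :=
      hg.restrict (le_max_left _ _) ha'.le (min_le_left _ _)
    obtain ⟨h₁, h₂, σ, hσ1, hσ2⟩ := LU2_rep (t := t) ha' hg' hT (fun s hs' => by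
      obtain ⟨h1, h2⟩ := (hsub s).1 hs'
      obtain ⟨h3, -, h4, h5, -⟩ := hn s h1 h2
      exact ⟨h3, h4, h5⟩)
    have hs0' : s₀ ∈ Icc (max a (s₀ - ε)) (min b (s₀ + ε)) :=
      (hsub s₀).2 ⟨hs, by rw [sub_self, abs_zero]; exact hε.le⟩
    have hw1' : (LU2z S.toAFlow B Bp g t s₀).2.1 = w.1 := by rw [hz0]
    have hU : (Sd.psad hp).IsUOn (fun x => (LU2z S.toAFlow B Bp g t (σ x)).2.2) (Icc h₁ h₂) := by
      intro h hh
      obtain ⟨h1, h2, h3⟩ := hσ2 h hh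
      refine ⟨?_, h3⟩
      have h4 := hn (σ h) ((hsub _).1 h1).1 ((hsub _).1 h1).2
      have he : ((h, (LU2z S.toAFlow B Bp g t (σ h)).2.2) : Q2) =
          (LU2z S.toAFlow B Bp g t (σ h)).2 := Prod.ext h2.symm rfl
      show ((h, (LU2z S.toAFlow B Bp g t (σ h)).2.2) : Q2) ∈ Bp.trace
      rw [he]
      refine ⟨h4.2.2.2.1, ?_⟩
      have h5 := Bp.toFlowBox.mem_iff (t := (LU2z S.toAFlow B Bp g t (σ h)).1) h4.2.2.1 h4.2.2.2.1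
      refine h5.1 ?_
      show Bp.e (LU2z S.toAFlow B Bp g t (σ h)) ∈ _
      rw [h4.1]
      exact S.mapsTo' _ _ (hg.mem _ ((hsub _).1 h1).1)
    have hσ0 := hσ1 s₀ hs0'
    rw [hw1'] at hσ0
    have hwmem : ((w.1, (fun x => (LU2z S.toAFlow B Bp g t (σ x)).2.2) w.1) : Q2) ∈
        (Sd.psad hp).toPMap.Gam := by
      have : ((w.1, (fun x => (LU2z S.toAFlow B Bp g t (σ x)).2.2) w.1) : Q2) = w := by
        show ((w.1, (LU2z S.toAFlow B Bp g t (σ w.1)).2.2) : Q2) = w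
        rw [hσ0.2, hz0]
      rw [this]
      exact hw0
    have hwabs : |w.1| < 1 := by
      have h1 : ‖w.1‖ ≤ ‖w‖ := norm_fst_le w
      rw [Real.norm_eq_abs] at h1
      linarith
    obtain ⟨ε₁, hε₁, hloc⟩ := (Sd.psad hp).local_gamma _ h₁ h₂ hU w.1 hσ0.1 hwmem hwabs
    obtain ⟨-, ε₂, hε₂, hn₂⟩ := LU2_near (t := t) (r := min ε₁ r) hg hs hw1 hw (lt_min hε₁ hr)
    refine ⟨min ε ε₂, lt_min hε hε₂, fun s hs' hss => ?_⟩
    have h1 := hn s hs' (hss.trans (min_le_left _ _))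
    have h2 := hn₂ s hs' (hss.trans (min_le_right _ _))
    have h3 := hσ1 s ((hsub s).2 ⟨hs', hss.trans (min_le_left _ _)⟩)
    have h4 := hloc _ h3.1 (h2.2.2.2.2.trans (min_le_left _ _))
    refine ⟨(LU2z S.toAFlow B Bp g t s).1, (LU2z S.toAFlow B Bp g t s).2, h1.2.1, h1.2.2.1,
      h1.2.2.2.1, ?_, h1.2.2.2.2, h1.1.symm⟩
    have he : (((LU2z S.toAFlow B Bp g t s).2.1,
        (fun x => (LU2z S.toAFlow B Bp g t (σ x)).2.2) (LU2z S.toAFlow B Bp g t s).2.1) : Q2) =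
        (LU2z S.toAFlow B Bp g t s).2 := by
      show (((LU2z S.toAFlow B Bp g t s).2.1,
        (LU2z S.toAFlow B Bp g t (σ (LU2z S.toAFlow B Bp g t s).2.1)).2.2) : Q2) = _
      rw [h3.2]
    rw [he] at h4
    exact h4

include hB hO

theorem ucurve_conv {g : ℝ → ℝ} {a b s₀ : ℝ} (hg : IsUCurve B g a b) (hs : s₀ ∈ Icc a b)
    (hy : B.pt (s₀, g s₀) ∈ S.Wu O) :
    ∃ ε > 0, ∀ U, IsOpen U → O ⊆ U → ∃ t₀ : ℝ, ∀ t ≥ t₀, ∀ s ∈ Icc a b, |s - s₀| ≤ ε →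
      S.G (-t) (B.pt (s, g s)) ∈ U := by
  obtain ⟨Bp, hBp, hBp0, ⟨Sd⟩⟩ := S.saddle O p T hO
  have hp : Bp.pt 0 ∈ S.L := by rw [hBp0]; exact hO.mem
  obtain ⟨C, -, hT⟩ := hB.1 Bp hBp
  obtain ⟨t₀, -, u, hu0, hun, huP, -⟩ := Ret.bwd hO Sd.toRet hy (ρ := 1 / 8) (by norm_num)
    (by norm_num) 0
  have hGam : u 0 ∈ Sd.pmap.Gam := ⟨u, rfl, fun n => (hun n).trans (by norm_num), huP⟩
  obtain ⟨ε, hε, h⟩ := LU2_pull (S := S) hT Sd hp hg hs hGam (hun 0) hu0.symm (r := 1) one_pos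
  refine ⟨ε, hε, fun U hU hOU => ?_⟩
  obtain ⟨t₁, ht₁⟩ := Sd.gam_Wu hO hU hOU
  refine ⟨t₀ + Bp.δ + t₁, fun t ht s hs' hss => ?_⟩
  obtain ⟨v, q, -, hv, hq, hqG, -, he⟩ := h s hs' hss
  have hmem := hg.mem s hs'
  have hL : Bp.e (v, q) ∈ S.L := by rw [← he]; exact S.mapsTo' _ _ hmem
  have hLq : Bp.pt q ∈ S.L := (Bp.toFlowBox.mem_iff hv hq).1 hL
  have h1 : S.G (-t) (B.pt (s, g s)) = S.G (-(t - t₀ - v)) (Bp.pt q) := by
    have e1 : -t = -(t - t₀) + -t₀ := by ring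
    rw [e1, S.add' _ _ _ hmem, he]
    have e2 : Bp.e (v, q) = S.G v (Bp.pt q) := (Bp.toFlowBox.G_pt hv hq hLq).symm
    rw [e2, ← S.add' _ _ _ hLq]
    congr 1
    ring
  rw [h1]
  refine ht₁ _ ?_ q hqG
  have := (abs_le.1 hv).2
  linarith

theorem ucurve_unique {g₁ g₂ : ℝ → ℝ} {a₁ b₁ a₂ b₂ s₀ : ℝ} (hg₁ : IsUCurve B g₁ a₁ b₁)
    (hg₂ : IsUCurve B g₂ a₂ b₂) (hs₁ : s₀ ∈ Icc a₁ b₁) (hs₂ : s₀ ∈ Icc a₂ b₂)
    (h12 : g₁ s₀ = g₂ s₀) (hn : ‖((s₀, g₁ s₀) : Q2)‖ < 1) (hy : B.pt (s₀, g₁ s₀) ∈ S.Wu O) :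
    ∃ ε > 0, ∀ s ∈ Icc a₁ b₁, s ∈ Icc a₂ b₂ → |s - s₀| ≤ ε → g₁ s = g₂ s := by
  obtain ⟨Bp, hBp, hBp0, ⟨Sd⟩⟩ := S.saddle O p T hO
  have hp : Bp.pt 0 ∈ S.L := by rw [hBp0]; exact hO.mem
  obtain ⟨C, -, hT⟩ := hB.1 Bp hBp
  obtain ⟨C', -, hT'⟩ := hB.2 Bp hBp
  obtain ⟨t₀, -, u, hu0, hun, huP, -⟩ := Ret.bwd hO Sd.toRet hy (ρ := 1 / 8) (by norm_num)
    (by norm_num) 0
  have hGam : u 0 ∈ Sd.pmap.Gam := ⟨u, rfl, fun n => (hun n).trans (by norm_num), huP⟩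
  -- the curve γ
  obtain ⟨γ, -, hγ1, hγ2, -⟩ := Sd.pmap.exists_gamma
  have hγU := (Sd.psad hp).gamma_der γ hγ1
  have hγ : IsUCurve Bp γ (-1) 1 :=
    { le := by norm_num
      norm_le := fun h hh => (hγU h hh).1.1
      mem := fun h hh => (hγU h hh).1.2
      der := fun h hh => (hγU h hh).2 }
  have habs : |(u 0).1| ≤ 1 / 8 := by
    have h1 : ‖(u 0).1‖ ≤ ‖u 0‖ := norm_fst_le (u 0)
    rw [Real.norm_eq_abs] at h1
    exact h1.trans (hun 0)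
  have hs1 : (u 0).1 ∈ Icc (-1 : ℝ) 1 := by
    obtain ⟨h1, h2⟩ := abs_le.1 habs
    exact ⟨by linarith, by linarith⟩
  have hγu : (((u 0).1, γ (u 0).1) : Q2) = u 0 := Prod.ext rfl (hγ2 _ hGam)
  have hyL : B.pt (s₀, g₁ s₀) ∈ S.L := hy.1
  have hstart : S.G t₀ (Bp.pt ((u 0).1, γ (u 0).1)) = B.e (0, (s₀, g₁ s₀)) := by
    rw [hγu]
    have hh : S.G t₀ (Bp.pt (u 0)) = S.G t₀ (S.G (-t₀) (B.pt (s₀, g₁ s₀))) :=
      congrArg _ hu0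
    exact hh.trans (S.toAFlow.G_G_neg hyL t₀)
  obtain ⟨hz0, ε', hε', hn'⟩ := LU2_near (t := t₀) (r := 1) hγ hs1 hn hstart one_pos
  -- interval around (u 0).1
  set ε'' := min ε' (1 / 2) with hε''
  have hε''pos : 0 < ε'' := lt_min hε' (by norm_num)
  have hsub : ∀ s, s ∈ Icc ((u 0).1 - ε'') ((u 0).1 + ε'') →
      s ∈ Icc (-1 : ℝ) 1 ∧ |s - (u 0).1| ≤ ε' := by
    intro s hs
    have h1 : ε'' ≤ 1 / 2 := min_le_right _ _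
    have h2 : ε'' ≤ ε' := min_le_left _ _
    obtain ⟨h3, h4⟩ := abs_le.1 habs
    refine ⟨⟨by linarith [hs.1], by linarith [hs.2]⟩, ?_⟩
    rw [abs_le]
    exact ⟨by linarith [hs.1], by linarith [hs.2]⟩
  have hγ' : IsUCurve Bp γ ((u 0).1 - ε'') ((u 0).1 + ε'') := by
    have h1 : ε'' ≤ 1 / 2 := min_le_right _ _
    obtain ⟨h3, h4⟩ := abs_le.1 habs
    exact hγ.restrict (by linarith) (by linarith) (by linarith)
  obtain ⟨h₁, h₂, σ, hσ1, -⟩ := LU2_rep (t := t₀) (by linarith) hγ' hT' (fun s hs' => by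
    obtain ⟨h1, h2⟩ := hsub s hs'
    obtain ⟨h3, -, h4, h5, -⟩ := hn' s h1 h2
    exact ⟨h3, h4, h5⟩)
  -- pull back both curves
  have hr : 0 < min ε'' B.δ := lt_min hε''pos B.δ_pos
  obtain ⟨ε₁, hε₁, hp₁⟩ := LU2_pull (S := S) hT Sd hp hg₁ hs₁ hGam (hun 0) hu0.symm hr
  obtain ⟨ε₂, hε₂, hp₂⟩ := LU2_pull (S := S) hT Sd hp hg₂ hs₂ hGam (hun 0)
    (by rw [← h12]; exact hu0.symm) hr
  -- the key computation
  have key : ∀ {g : ℝ → ℝ} {a b : ℝ}, IsUCurve B g a b → ∀ s ∈ Icc a b, ∀ (v : ℝ) (q : Q2),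
      |v| ≤ min ε'' B.δ → |v| ≤ Bp.δ → ‖q‖ ≤ 1 → q ∈ Sd.pmap.Gam →
      |q.1 - (u 0).1| ≤ min ε'' B.δ → S.G (-t₀) (B.pt (s, g s)) = Bp.e (v, q) →
      q.1 ∈ Icc ((u 0).1 - ε'') ((u 0).1 + ε'') ∧
        (LU2z S.toAFlow Bp B γ t₀ q.1).2 = (s, g s) := by
    intro g a b hg s hs v q hv hv' hq hqG hq1 he
    have hmem := hg.mem s hs
    have hL : Bp.e (v, q) ∈ S.L := by rw [← he]; exact S.mapsTo' _ _ hmem
    have hLq : Bp.pt q ∈ S.L := (Bp.toFlowBox.mem_iff hv' hq).1 hL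
    have hvB : |-v| ≤ B.δ := by rw [abs_neg]; exact hv.trans (min_le_right _ _)
    refine ⟨?_, ?_⟩
    · obtain ⟨h1, h2⟩ := abs_le.1 (hq1.trans (min_le_left _ _))
      exact ⟨by linarith, by linarith⟩
    · have hγq : ((q.1, γ q.1) : Q2) = q := Prod.ext rfl (hγ2 q hqG)
      have h1 : S.G t₀ (Bp.pt (q.1, γ q.1)) = B.e (-v, (s, g s)) := by
        rw [hγq]
        have e1 : Bp.pt q = S.G (-v) (Bp.e (v, q)) := Bp.toFlowBox.pt_eq hv' hq hL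
        rw [e1, ← he, ← S.add' _ _ _ hmem]
        have e2 : S.G (-v + -t₀) (B.pt (s, g s)) ∈ S.L := S.mapsTo' _ _ hmem
        rw [← S.add' _ _ _ hmem]
        have e3 : t₀ + (-v + -t₀) = -v := by ring
        rw [e3]
        exact B.toFlowBox.G_pt hvB (hg.norm_le s hs) hmem
      unfold LU2z
      rw [h1, B.e.left_inv (B.src _ _ hvB (hg.norm_le s hs))]
  refine ⟨min ε₁ ε₂, lt_min hε₁ hε₂, fun s hs hs' hss => ?_⟩
  obtain ⟨v, q, h1, h2, h3, h4, h5, h6⟩ := hp₁ s hs (hss.trans (min_le_left _ _))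
  obtain ⟨v', q', h1', h2', h3', h4', h5', h6'⟩ := hp₂ s hs' (hss.trans (min_le_right _ _))
  obtain ⟨k1, k2⟩ := key hg₁ s hs v q h1 h2 h3 h4 h5 h6
  obtain ⟨k1', k2'⟩ := key hg₂ s hs' v' q' h1' h2' h3' h4' h5' h6'
  have e1 := (hσ1 _ k1).2
  have e2 := (hσ1 _ k1').2
  rw [k2] at e1
  rw [k2'] at e2
  have e3 : q.1 = q'.1 := e1.symm.trans e2
  have e4 : ((s, g₁ s) : Q2) = (s, g₂ s) := by rw [← k2, ← k2', e3]
  exact congrArg Prod.snd e4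

end VeniceMask
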