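import Pool.Agent.helper75.VM.M_PM

/-!
# MP_509a24_an, module PB: pulling vertical curves back
-/

open Set Filter Topology Bundle
open scoped ContDiff Manifold

namespace VeniceMask

universe u

/-- projection to `[v₀ - η, v₀ + η]` -/
private noncomputable def PB_clamp (v₀ η v : ℝ) : ℝ := max (v₀ - η) (min v (v₀ + η))

private theorem PB_clamp_mem {v₀ η : ℝ} (hη : 0 < η) (v : ℝ) :
    PB_clamp v₀ η v ∈ Icc (v₀ - η) (v₀ + η) :=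
  ⟨le_max_left _ _, max_le (by linarith) (min_le_right _ _)⟩

private theorem PB_clamp_of_mem {v₀ η v : ℝ} (hv : v ∈ Icc (v₀ - η) (v₀ + η)) :
    PB_clamp v₀ η v = v := by
  unfold PB_clamp
  rw [min_eq_left hv.2, max_eq_right hv.1]

private theorem PB_clamp_lip (v₀ η v v' : ℝ) :
    |PB_clamp v₀ η v - PB_clamp v₀ η v'| ≤ |v - v'| := by
  unfold PB_clamp
  refine (abs_max_sub_max_le_max _ _ _ _).trans (max_le (by simp) ?_)
  exact (abs_min_sub_min_le_max v (v₀ + η) v' (v₀ + η)).trans (by simp)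

private theorem PB_aux (S : PMap) (k₀ : ℝ → ℝ) (v₀ : ℝ) (_hv₀ : |v₀| ≤ 1)
    (h1 : ∀ v ∈ Icc (-1 : ℝ) 1, |k₀ v| ≤ 1)
    (h2 : ∀ v ∈ Icc (-1 : ℝ) 1, ∀ v' ∈ Icc (-1 : ℝ) 1, |k₀ v - k₀ v'| ≤ 1 / 4 * |v - v'|)
    (θ : ℕ → Q2) (h0 : θ 0 = (k₀ v₀, v₀)) (hθ : ∀ n, ‖θ n‖ ≤ 1)
    (hP : ∀ n, S.P (θ (n + 1)) = θ n) (n : ℕ) :
    ∃ K s : ℝ → ℝ, (∀ v ∈ Icc (-1 : ℝ) 1, |K v| ≤ 1) ∧
      (∀ v ∈ Icc (-1 : ℝ) 1, ∀ v' ∈ Icc (-1 : ℝ) 1, |K v - K v'| ≤ 1 / 4 * |v - v'|) ∧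
      (∀ v ∈ Icc (-1 : ℝ) 1, s v ∈ Icc (-1 : ℝ) 1) ∧
      (∀ v ∈ Icc (-1 : ℝ) 1, ∀ v' ∈ Icc (-1 : ℝ) 1, |s v - s v'| ≤ (1 / 2) ^ n * |v - v'|) ∧
      (∀ v ∈ Icc (-1 : ℝ) 1, ∃ w : ℕ → Q2, w 0 = (K v, v) ∧ (∀ j ≤ n, ‖w j‖ ≤ 1) ∧
        (∀ j < n, S.P (w j) = w (j + 1)) ∧ w n = (k₀ (s v), s v)) ∧
      θ n = (K (θ n).2, (θ n).2) ∧ s (θ n).2 = v₀ := by
  have hnorm : ∀ (K : ℝ → ℝ), (∀ v ∈ Icc (-1 : ℝ) 1, |K v| ≤ 1) → ∀ v ∈ Icc (-1 : ℝ) 1,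
      ‖((K v, v) : Q2)‖ ≤ 1 := by
    intro K hK v hv
    rw [Prod.norm_def]
    exact max_le (hK v hv) (abs_le.mpr ⟨hv.1, hv.2⟩)
  have hθ2 : ∀ n, (θ n).2 ∈ Icc (-1 : ℝ) 1 := fun n =>
    abs_le.mp ((norm_snd_le (θ n)).trans (hθ n))
  induction n with
  | zero =>
    refine ⟨k₀, fun v => v, h1, h2, fun v hv => hv, fun v _ v' _ => by simp, ?_, ?_, ?_⟩
    · intro v hv
      exact ⟨fun _ => (k₀ v, v), rfl, fun j _ => hnorm k₀ h1 v hv, fun j hj => absurd hj (by omega),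
        rfl⟩
    · rw [h0]
    · rw [h0]
  | succ n ih =>
    obtain ⟨K, s, a1, a2, a3, a4, a5, a6, a7⟩ := ih
    obtain ⟨K', s', b1, b2⟩ := S.gtb K a1 (fun v hv v' hv' =>
      (a2 v hv v' hv').trans (by have := abs_nonneg (v - v'); linarith))
    have hK1 : ∀ v ∈ Icc (-1 : ℝ) 1, |K' v| ≤ 1 := fun v hv => (b1 v hv).2.1
    have hself := hθ2 (n + 1)
    -- the point `θ (n+1)` is on the new graph
    have hgraph : θ (n + 1) = (K' (θ (n + 1)).2, (θ (n + 1)).2) := by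
      set v := (θ (n + 1)).2 with hv
      have hc : |(S.P (K' v, v)).1 - (S.P (θ (n + 1))).1| ≤
          |(S.P (K' v, v)).2 - (S.P (θ (n + 1))).2| := by
        rw [(b1 v hself).2.2, hP n, a6]
        refine (a2 _ (b1 v hself).1 _ (hθ2 n)).trans ?_
        have := abs_nonneg (s' v - (θ n).2)
        show 1 / 4 * |s' v - (θ n).2| ≤ |s' v - (θ n).2|
        linarith
      have hv1 := (S.vert (hnorm K' hK1 v hself) (hθ (n + 1)) hc).1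
      have e : |(v : ℝ) - (θ (n + 1)).2| = 0 := by rw [hv, sub_self, abs_zero]
      have hv2 : |K' v - (θ (n + 1)).1| ≤ 0 := by
        calc |K' v - (θ (n + 1)).1| ≤ |v - (θ (n + 1)).2| := hv1
          _ = 0 := e
      have hv3 : K' v = (θ (n + 1)).1 :=
        sub_eq_zero.mp (abs_eq_zero.mp (le_antisymm hv2 (abs_nonneg _)))
      exact Prod.ext hv3.symm rfl
    refine ⟨K', fun v => s (s' v), hK1, fun v hv v' hv' => (b2 v hv v' hv').2,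
      fun v hv => a3 _ (b1 v hv).1, ?_, ?_, hgraph, ?_⟩
    · intro v hv v' hv'
      refine (a4 _ (b1 v hv).1 _ (b1 v' hv').1).trans ?_
      rw [pow_succ, mul_assoc]
      exact mul_le_mul_of_nonneg_left (b2 v hv v' hv').1 (by positivity)
    · intro v hv
      obtain ⟨w, w0, w1, w2, w3⟩ := a5 _ (b1 v hv).1
      refine ⟨fun j => if j = 0 then (K' v, v) else w (j - 1), by simp, ?_, ?_, ?_⟩
      · intro j hj
        rcases Nat.eq_zero_or_pos j with h | h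
        · simp only [h, if_true]; exact hnorm K' hK1 v hv
        · simp only [h.ne', if_false]; exact w1 _ (by omega)
      · intro j hj
        rcases Nat.eq_zero_or_pos j with h | h
        · subst h
          simp only [if_true, zero_add, one_ne_zero, if_false, Nat.sub_self]
          rw [(b1 v hv).2.2, w0]
        · simp only [h.ne', if_false, Nat.add_sub_cancel, Nat.succ_ne_zero]
          have := w2 (j - 1) (by omega)
          rw [Nat.sub_add_cancel h] at this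
          exact this
      · simp only [Nat.succ_ne_zero, if_false, Nat.add_sub_cancel]
        exact w3
    · -- image of θ (n+1)
      have e1 := (b1 _ hself).2.2
      rw [← hgraph, hP n] at e1
      have e2 : s' (θ (n + 1)).2 = (θ n).2 := by rw [e1]
      show s (s' (θ (n + 1)).2) = v₀
      rw [e2, a7]

theorem PMap.pull (S : PMap) (k : ℝ → ℝ) (v₀ η : ℝ) (hη : 0 < η) (hη1 : η ≤ 1 / 4)
    (hk : ∀ v ∈ Icc (v₀ - η) (v₀ + η), ∀ v' ∈ Icc (v₀ - η) (v₀ + η),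
      |k v - k v'| ≤ 1 / 4 * |v - v'|) (θ : ℕ → Q2) (h0 : θ 0 = (k v₀, v₀))
    (hθ : ∀ n, ‖θ n‖ ≤ 1 / 8) (hP : ∀ n, S.P (θ (n + 1)) = θ n) :
    ∃ n₀ : ℕ, ∀ n ≥ n₀, ∃ k' : ℝ → ℝ,
      (∀ v ∈ Icc (-1 : ℝ) 1, ∀ v' ∈ Icc (-1 : ℝ) 1, |k' v - k' v'| ≤ 1 / 4 * |v - v'|) ∧
      ∀ v ∈ Icc (-1 : ℝ) 1, ∃ w : ℕ → Q2, w 0 = (k' v, v) ∧ (∀ j ≤ n, ‖w j‖ ≤ 1) ∧
        (∀ j < n, S.P (w j) = w (j + 1)) ∧ ∃ s ∈ Icc (v₀ - η) (v₀ + η), w n = (k s, s) := by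
  have hv₀self : v₀ ∈ Icc (v₀ - η) (v₀ + η) := ⟨by linarith, by linarith⟩
  have hn0 := hθ 0
  rw [h0, Prod.norm_def] at hn0
  have hk₀ : |k v₀| ≤ 1 / 8 := (le_max_left _ _).trans hn0
  have hv₀ : |v₀| ≤ 1 / 8 := (le_max_right _ _).trans hn0
  set k₀ : ℝ → ℝ := fun v => k (PB_clamp v₀ η v) with hk₀def
  have hlip : ∀ v v', |k₀ v - k₀ v'| ≤ 1 / 4 * |v - v'| := fun v v' =>
    (hk _ (PB_clamp_mem hη v) _ (PB_clamp_mem hη v')).trans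
      (mul_le_mul_of_nonneg_left (PB_clamp_lip _ _ _ _) (by norm_num))
  have hbound : ∀ v ∈ Icc (-1 : ℝ) 1, |k₀ v| ≤ 1 := by
    intro v _
    have hm := PB_clamp_mem hη (v₀ := v₀) v
    have h1 := hk _ hm _ hv₀self
    have h2 : |PB_clamp v₀ η v - v₀| ≤ η := abs_le.mpr ⟨by linarith [hm.1], by linarith [hm.2]⟩
    have h3 := abs_sub_abs_le_abs_sub (k (PB_clamp v₀ η v)) (k v₀)
    show |k (PB_clamp v₀ η v)| ≤ 1
    linarith
  have hk₀v₀ : k₀ v₀ = k v₀ := by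
    show k (PB_clamp v₀ η v₀) = k v₀
    rw [PB_clamp_of_mem hv₀self]
  obtain ⟨n₀, hn₀⟩ := exists_pow_lt_of_lt_one (show (0 : ℝ) < η / 2 by linarith)
    (show (1 / 2 : ℝ) < 1 by norm_num)
  refine ⟨n₀, fun n hn => ?_⟩
  obtain ⟨K, s, a1, a2, a3, a4, a5, a6, a7⟩ := PB_aux S k₀ v₀ (by linarith) hbound
    (fun v _ v' _ => hlip v v') θ (by rw [h0, hk₀v₀]) (fun n => (hθ n).trans (by norm_num)) hP n
  refine ⟨K, a2, fun v hv => ?_⟩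
  obtain ⟨w, w0, w1, w2, w3⟩ := a5 v hv
  have hθ2 : (θ n).2 ∈ Icc (-1 : ℝ) 1 :=
    abs_le.mp ((norm_snd_le (θ n)).trans ((hθ n).trans (by norm_num)))
  have h1 := a4 v hv _ hθ2
  rw [a7] at h1
  have h2 : |v - (θ n).2| ≤ 2 := abs_le.mpr ⟨by linarith [hv.1, hθ2.2], by linarith [hv.2, hθ2.1]⟩
  have h3 : ((1 : ℝ) / 2) ^ n ≤ (1 / 2) ^ n₀ :=
    pow_le_pow_of_le_one (by norm_num) (by norm_num) hn
  have h4 : |s v - v₀| ≤ η := by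
    have h5 : (0 : ℝ) ≤ (1 / 2) ^ n := by positivity
    nlinarith
  have h5 : s v ∈ Icc (v₀ - η) (v₀ + η) := by
    have := abs_le.mp h4
    exact ⟨by linarith [this.1], by linarith [this.2]⟩
  refine ⟨w, w0, w1, w2, s v, h5, ?_⟩
  rw [w3]
  show (k (PB_clamp v₀ η (s v)), s v) = _
  rw [PB_clamp_of_mem h5]

end VeniceMask
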