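import Pool.Agent.helper75.VM.M_PM

/-!
# MP_509a24_an, module PU: pushing unstable curves forward
-/

open Set Filter Topology Bundle
open scoped ContDiff Manifold

namespace VeniceMask

universe u

theorem PU.norm_le_one {x y : ℝ} (hx : x ∈ Icc (-1 : ℝ) 1) (hy : |y| ≤ 1) :
    ‖((x, y) : Q2)‖ ≤ 1 := by
  rw [Prod.norm_def]
  exact max_le (by rw [Real.norm_eq_abs]; exact abs_le.2 hx) (by rwa [Real.norm_eq_abs])

theorem PU.snd_le {q : Q2} {r : ℝ} (h : ‖q‖ ≤ r) : |q.2| ≤ r := by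
  have := norm_snd_le q
  rw [Real.norm_eq_abs] at this
  exact this.trans h

theorem PU.fst_le {q : Q2} {r : ℝ} (h : ‖q‖ ≤ r) : |q.1| ≤ r := by
  have := norm_fst_le q
  rw [Real.norm_eq_abs] at this
  exact this.trans h

/-- one step -/
theorem PSad.push_one (S : PSad) (g g' r : ℝ → ℝ) (J : Set ℝ) (hJ : J ⊆ Icc (-1) 1)
    (hg : S.IsUOn g J)
    (h1 : ∀ h ∈ Icc (-1 : ℝ) 1, r h ∈ Icc (-1 : ℝ) 1 ∧ |g' h| ≤ 1 ∧
        S.P (r h, g (r h)) = (h, g' h))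
    (h2 : ∀ h ∈ Icc (-1 : ℝ) 1, ∀ h' ∈ Icc (-1 : ℝ) 1, |r h - r h'| ≤ 1 / 3 * |h - h'|) :
    S.IsUOn g' {h | h ∈ Icc (-1 : ℝ) 1 ∧ r h ∈ J} := by
  clear hJ
  rintro h ⟨hI, hrJ⟩
  obtain ⟨hzK, hzd⟩ := hg (r h) hrJ
  obtain ⟨-, hg'1, hP⟩ := h1 h hI
  have hPK : S.P (r h, g (r h)) ∈ S.K :=
    S.K_fwd _ hzK (by rw [hP]; exact PU.norm_le_one hI hg'1)
  have hK : (h, g' h) ∈ S.K := by rwa [hP] at hPK
  refine ⟨hK, ?_⟩
  obtain ⟨A, c, hA, hAc, -⟩ := S.der _ hzK hPK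
  rw [hP] at hAc
  set μ := S.m (h, g' h) with hμ
  -- the composite function
  have hΦ : HasDerivWithinAt (fun s => ((s, g s) : Q2)) (1, S.m (r h, g (r h))) J (r h) :=
    (hasDerivWithinAt_id (r h) J).prodMk hzd
  have hPΦ : HasDerivWithinAt (fun s => S.P (s, g s)) (A (1, S.m (r h, g (r h)))) J (r h) :=
    HasFDerivAt.comp_hasDerivWithinAt (r h) hA hΦ
  rw [hAc] at hPΦ
  have hψ : HasDerivWithinAt (fun s => (S.P (s, g s)).2 - μ * (S.P (s, g s)).1)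
      (c * μ - μ * c) J (r h) := by
    refine HasDerivWithinAt.sub ?_ (HasDerivWithinAt.const_mul μ ?_)
    · exact ((ContinuousLinearMap.snd ℝ ℝ ℝ).hasFDerivAt).comp_hasDerivWithinAt (r h) hPΦ
    · exact ((ContinuousLinearMap.fst ℝ ℝ ℝ).hasFDerivAt).comp_hasDerivWithinAt (r h) hPΦ
  have hlo := hasDerivWithinAt_iff_isLittleO.1 hψ
  set J' : Set ℝ := {h | h ∈ Icc (-1 : ℝ) 1 ∧ r h ∈ J} with hJ'
  have hrb : (fun x => r x - r h) =O[𝓝[J'] h] fun x => x - h := by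
    refine Asymptotics.IsBigO.of_bound (1 / 3) ?_
    filter_upwards [self_mem_nhdsWithin] with x hx
    rw [Real.norm_eq_abs, Real.norm_eq_abs]
    exact h2 x hx.1 h hI
  have hrt : Tendsto r (𝓝[J'] h) (𝓝[J] (r h)) := by
    refine tendsto_nhdsWithin_iff.2 ⟨?_, ?_⟩
    · rw [tendsto_iff_dist_tendsto_zero]
      refine squeeze_zero' (Eventually.of_forall fun _ => dist_nonneg)
        (g := fun x => 1 / 3 * |x - h|) ?_ ?_
      · filter_upwards [self_mem_nhdsWithin] with x hx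
        rw [Real.dist_eq]
        exact h2 x hx.1 h hI
      · have : Tendsto (fun x : ℝ => 1 / 3 * |x - h|) (𝓝 h) (𝓝 (1 / 3 * |h - h|)) :=
          ((continuous_const.mul (continuous_id.sub continuous_const).abs).tendsto h)
        rw [sub_self, abs_zero, mul_zero] at this
        exact this.mono_left nhdsWithin_le_nhds
    · filter_upwards [self_mem_nhdsWithin] with x hx
      exact hx.2
  have hlo2 := (hlo.comp_tendsto hrt).trans_isBigO hrb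
  rw [hasDerivWithinAt_iff_isLittleO]
  refine hlo2.congr' ?_ (EventuallyEq.refl _ _)
  filter_upwards [self_mem_nhdsWithin] with x hx
  have e1 := (h1 x hx.1).2.2
  simp only [Function.comp_apply]
  rw [e1, hP]
  simp only [smul_eq_mul]
  ring

/-- the inductive construction for the iterated push forward -/
theorem PU.main (S : PSad) (gh : ℝ → ℝ) (J : Set ℝ) (s₀ : ℝ)
    (hJ : J ⊆ Icc (-1) 1)
    (hg : S.IsUOn gh J) (hg1 : ∀ h ∈ Icc (-1 : ℝ) 1, |gh h| ≤ 1)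
    (hg2 : ∀ h ∈ Icc (-1 : ℝ) 1, ∀ h' ∈ Icc (-1 : ℝ) 1, |gh h - gh h'| ≤ |h - h'|)
    (θ : ℕ → Q2) (h0 : θ 0 = (s₀, gh s₀)) (hθ : ∀ n, ‖θ n‖ ≤ 1 / 8)
    (hP : ∀ n, S.P (θ n) = θ (n + 1)) (n : ℕ) :
    ∃ g' R : ℝ → ℝ, (∀ h ∈ Icc (-1 : ℝ) 1, |g' h| ≤ 1) ∧
      (∀ h ∈ Icc (-1 : ℝ) 1, ∀ h' ∈ Icc (-1 : ℝ) 1, |g' h - g' h'| ≤ |h - h'|) ∧
      S.IsUOn g' {h | h ∈ Icc (-1 : ℝ) 1 ∧ R h ∈ J} ∧
      (∀ h ∈ Icc (-1 : ℝ) 1, R h ∈ Icc (-1 : ℝ) 1) ∧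
      (∀ h ∈ Icc (-1 : ℝ) 1, ∀ h' ∈ Icc (-1 : ℝ) 1, |R h - R h'| ≤ (1 / 3) ^ n * |h - h'|) ∧
      R (θ n).1 = s₀ ∧ g' (θ n).1 = (θ n).2 ∧
      ∀ h ∈ Icc (-1 : ℝ) 1, ∃ w : ℕ → Q2, w 0 = (h, g' h) ∧ (∀ j ≤ n, ‖w j‖ ≤ 1) ∧
        (∀ j < n, S.P (w (j + 1)) = w j) ∧ w n = (R h, gh (R h)) := by
  have hθI : ∀ n, (θ n).1 ∈ Icc (-1 : ℝ) 1 := fun n =>
    abs_le.1 ((PU.fst_le (hθ n)).trans (by norm_num))
  induction n with
  | zero =>
    refine ⟨gh, id, hg1, hg2, ?_, fun h hh => hh, fun h _ h' _ => by simp, by rw [h0]; rfl,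
      by rw [h0], fun h hh => ⟨fun _ => (h, gh h), rfl, fun j _ => PU.norm_le_one hh (hg1 h hh),
        fun j hj => by omega, rfl⟩⟩
    have : {h | h ∈ Icc (-1 : ℝ) 1 ∧ id h ∈ J} = J := by
      ext h
      exact ⟨fun hh => hh.2, fun hh => ⟨hJ hh, hh⟩⟩
    rw [this]
    exact hg
  | succ n ih =>
    obtain ⟨g₁, R, a1, a2, a3, a4, a5, a6, a7, a8⟩ := ih
    obtain ⟨g', r, b1, b2⟩ := S.gtf g₁ a1 a2
    have hpush : S.IsUOn g' {h | h ∈ Icc (-1 : ℝ) 1 ∧ R (r h) ∈ J} := by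
      have := S.push_one g₁ g' r {h | h ∈ Icc (-1 : ℝ) 1 ∧ R h ∈ J} (fun h hh => hh.1) a3 b1
        (fun h hh h' hh' => (b2 h hh h' hh').1)
      have e : {h | h ∈ Icc (-1 : ℝ) 1 ∧ r h ∈ {h | h ∈ Icc (-1 : ℝ) 1 ∧ R h ∈ J}} =
          {h | h ∈ Icc (-1 : ℝ) 1 ∧ R (r h) ∈ J} := by
        ext h
        exact ⟨fun hh => ⟨hh.1, hh.2.2⟩, fun hh => ⟨hh.1, (b1 h hh.1).1, hh.2⟩⟩
      rwa [e] at this
    have hkey : r (θ (n + 1)).1 = (θ n).1 ∧ g' (θ (n + 1)).1 = (θ (n + 1)).2 := by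
      obtain ⟨c1, c2, c3⟩ := b1 _ (hθI (n + 1))
      set h := (θ (n + 1)).1 with hh
      have hq' : θ n = ((θ n).1, g₁ (θ n).1) := by rw [a7]
      have hq : ‖((r h, g₁ (r h)) : Q2)‖ ≤ 1 := PU.norm_le_one c1 (a1 _ c1)
      have hq'1 : ‖θ n‖ ≤ 1 := (hθ n).trans (by norm_num)
      have h3 := (S.horiz hq hq'1 (by
        show |g₁ (r h) - (θ n).2| ≤ |r h - (θ n).1|
        rw [← a7]
        exact a2 _ c1 _ (hθI n))).2
      rw [c3, hP n] at h3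
      have h4 : |r h - (θ n).1| ≤ 0 := by
        have : |(h, g' h).1 - (θ (n + 1)).1| = 0 := by rw [← hh]; simp
        rw [this] at h3
        have h5 : 3 * |r h - (θ n).1| ≤ 0 := h3
        linarith
      have h5 : r h = (θ n).1 := sub_eq_zero.1 (abs_nonpos_iff.1 h4)
      refine ⟨h5, ?_⟩
      rw [h5, ← hq', hP n] at c3
      rw [c3]
    refine ⟨g', fun h => R (r h), fun h hh => (b1 h hh).2.1,
      fun h hh h' hh' => (b2 h hh h' hh').2.trans ?_, hpush, fun h hh => a4 _ (b1 h hh).1,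
      fun h hh h' hh' => ?_, ?_, hkey.2, fun h hh => ?_⟩
    · have := abs_nonneg (h - h')
      linarith
    · refine (a5 _ (b1 h hh).1 _ (b1 h' hh').1).trans ?_
      rw [pow_succ, mul_assoc]
      exact mul_le_mul_of_nonneg_left (b2 h hh h' hh').1 (by positivity)
    · show R (r (θ (n + 1)).1) = s₀
      rw [hkey.1, a6]
    · obtain ⟨w, w0, w1, w2, w3⟩ := a8 (r h) (b1 h hh).1
      refine ⟨fun j => Nat.casesOn j (h, g' h) w, rfl, ?_, ?_, w3⟩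
      · intro j hj
        cases j with
        | zero => exact PU.norm_le_one hh (b1 h hh).2.1
        | succ j => exact w1 j (by omega)
      · intro j hj
        cases j with
        | zero =>
          show S.P (w 0) = (h, g' h)
          rw [w0]
          exact (b1 h hh).2.2
        | succ j => exact w2 j (by omega)

/-- iterated push forward of a small unstable curve through a point of the local stable set -/
theorem PSad.push (S : PSad) (g : ℝ → ℝ) (s₀ η : ℝ) (hη : 0 < η)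
    (hJ : Icc (s₀ - η) (s₀ + η) ⊆ Icc (-1) 1)
    (hg : S.IsUOn g (Icc (s₀ - η) (s₀ + η))) (θ : ℕ → Q2) (h0 : θ 0 = (s₀, g s₀))
    (hθ : ∀ n, ‖θ n‖ ≤ 1 / 8) (hP : ∀ n, S.P (θ n) = θ (n + 1)) :
    ∃ n₀ : ℕ, ∀ n ≥ n₀, ∃ g' : ℝ → ℝ, S.IsUOn g' (Icc (-1) 1) ∧
      ∀ h ∈ Icc (-1 : ℝ) 1, ∃ w : ℕ → Q2, w 0 = (h, g' h) ∧ (∀ j ≤ n, ‖w j‖ ≤ 1) ∧
        (∀ j < n, S.P (w (j + 1)) = w j) ∧ ∃ s ∈ Icc (s₀ - η) (s₀ + η), w n = (s, g s) := by
  have hle : s₀ - η ≤ s₀ + η := by linarith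
  set gh : ℝ → ℝ := fun x => g (projIcc (s₀ - η) (s₀ + η) hle x) with hgh
  have hghJ : ∀ x ∈ Icc (s₀ - η) (s₀ + η), gh x = g x := by
    intro x hx
    simp only [hgh]
    rw [projIcc_of_mem hle hx]
  have hlip : ∀ x ∈ Icc (s₀ - η) (s₀ + η), ∀ y ∈ Icc (s₀ - η) (s₀ + η),
      |g x - g y| ≤ 1 / 4 * |x - y| := by
    intro x hx y hy
    have := (convex_Icc (s₀ - η) (s₀ + η)).norm_image_sub_le_of_norm_hasDerivWithin_le
      (f := g) (f' := fun h => S.m (h, g h)) (C := 1 / 4) (fun z hz => (hg z hz).2)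
      (fun z hz => by rw [Real.norm_eq_abs]; exact S.m_le _ (hg z hz).1) hy hx
    rwa [Real.norm_eq_abs, Real.norm_eq_abs] at this
  have hproj : ∀ x y : ℝ, |((projIcc (s₀ - η) (s₀ + η) hle x : ℝ)) -
      (projIcc (s₀ - η) (s₀ + η) hle y : ℝ)| ≤ |x - y| := by
    intro x y
    rw [coe_projIcc, coe_projIcc]
    refine (abs_max_sub_max_le_max _ _ _ _).trans (max_le (by simp) ?_)
    exact (abs_min_sub_min_le_max _ _ _ _).trans (max_le (by simp) le_rfl)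
  have hgh1 : ∀ h ∈ Icc (-1 : ℝ) 1, |gh h| ≤ 1 := by
    intro h _
    have := S.K_sub _ (hg _ (projIcc (s₀ - η) (s₀ + η) hle h).2).1
    exact PU.snd_le this
  have hgh2 : ∀ h ∈ Icc (-1 : ℝ) 1, ∀ h' ∈ Icc (-1 : ℝ) 1, |gh h - gh h'| ≤ |h - h'| := by
    intro h _ h' _
    refine (hlip _ (projIcc (s₀ - η) (s₀ + η) hle h).2 _
      (projIcc (s₀ - η) (s₀ + η) hle h').2).trans ?_
    have h5 := hproj h h'
    have h6 := abs_nonneg (h - h')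
    linarith
  have hghU : S.IsUOn gh (Icc (s₀ - η) (s₀ + η)) := by
    intro h hh
    rw [hghJ h hh]
    exact ⟨(hg h hh).1, (hg h hh).2.congr (fun x hx => hghJ x hx) (hghJ h hh)⟩
  have hs₀ : s₀ ∈ Icc (s₀ - η) (s₀ + η) := ⟨by linarith, by linarith⟩
  have ht : Tendsto (fun n : ℕ => (1 / 3 : ℝ) ^ n * 2) atTop (𝓝 (0 * 2)) :=
    (tendsto_pow_atTop_nhds_zero_of_lt_one (by norm_num) (by norm_num)).mul_const _
  rw [zero_mul] at ht
  obtain ⟨n₀, hn₀⟩ := eventually_atTop.1 (ht.eventually (ge_mem_nhds hη))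
  refine ⟨n₀, fun n hn => ?_⟩
  obtain ⟨g', R, -, -, a3, -, a5, a6, -, a8⟩ := PU.main S gh (Icc (s₀ - η) (s₀ + η)) s₀ hJ hghU
    hgh1 hgh2 θ (by rw [hghJ s₀ hs₀]; exact h0) hθ hP n
  have hθI : (θ n).1 ∈ Icc (-1 : ℝ) 1 := abs_le.1 ((PU.fst_le (hθ n)).trans (by norm_num))
  have hR : ∀ h ∈ Icc (-1 : ℝ) 1, R h ∈ Icc (s₀ - η) (s₀ + η) := by
    intro h hh
    have h5 := a5 h hh _ hθI
    rw [a6] at h5
    have h6 : |h - (θ n).1| ≤ 2 := by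
      rw [abs_le]
      constructor <;> linarith [hh.1, hh.2, hθI.1, hθI.2]
    have h7 : |R h - s₀| ≤ η :=
      h5.trans ((mul_le_mul_of_nonneg_left h6 (by positivity)).trans (hn₀ n hn))
    rw [abs_le] at h7
    exact ⟨by linarith [h7.1], by linarith [h7.2]⟩
  refine ⟨g', ?_, fun h hh => ?_⟩
  · have e : {h | h ∈ Icc (-1 : ℝ) 1 ∧ R h ∈ Icc (s₀ - η) (s₀ + η)} = Icc (-1 : ℝ) 1 := by
      ext h
      exact ⟨fun hh => hh.1, fun hh => ⟨hh, hR h hh⟩⟩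
    rwa [e] at a3
  · obtain ⟨w, w0, w1, w2, w3⟩ := a8 h hh
    exact ⟨w, w0, w1, w2, R h, hR h hh, by rw [w3, hghJ _ (hR h hh)]⟩

end VeniceMask
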