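import Pool.Agent.helper75.VM.M_LU1
import Pool.Agent.helper75.VM.M_LU2
import Pool.Agent.helper75.VM.M_PU
import Pool.Agent.helper75.VM.M_PB

/-!
# MP_509a24_an, module IN: inclination
-/

open Set Filter Topology Bundle
open scoped ContDiff Manifold

namespace VeniceMask

universe u

variable {M : Type u} [TopologicalSpace M]

theorem IN_wu {F : AFlow M} {B : FlowBox F} {O O' : Set M} (R : Ret B O) {w : ℕ → Q2} :
    ∀ n : ℕ, (∀ j ≤ n, ‖w j‖ ≤ 1) → (∀ j < n, R.P (w (j + 1)) = w j) → B.pt (w n) ∈ F.Wu O' →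
      B.pt (w 0) ∈ F.Wu O' := by
  intro n
  induction n with
  | zero => intro _ _ h; exact h
  | succ n ih =>
    intro hw hP h
    refine ih (fun j hj => hw j (by omega)) (fun j hj => hP j (by omega)) ?_
    have h1 : R.P (w (n + 1)) = w n := hP n (by omega)
    obtain ⟨t, ht1, ht2, ht3⟩ := R.step (hw (n + 1) le_rfl) (by rw [h1]; exact hw n (by omega))
    rw [h1] at ht3
    rw [← ht3, F.Wu_iff h.1]
    exact h

theorem IN_ws {F : AFlow M} {B : FlowBox F} {O O' : Set M} (R : Ret B O) {w : ℕ → Q2} :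
    ∀ n : ℕ, (∀ j ≤ n, ‖w j‖ ≤ 1) → (∀ j < n, R.P (w j) = w (j + 1)) → B.pt (w n) ∈ F.Ws O' →
      B.pt (w 0) ∈ F.Ws O' := by
  intro n
  induction n with
  | zero => intro _ _ h; exact h
  | succ n ih =>
    intro hw hP h
    refine ih (fun j hj => hw j (by omega)) (fun j hj => hP j (by omega)) ?_
    have h1 : R.P (w n) = w (n + 1) := hP n (by omega)
    obtain ⟨t, ht1, ht2, ht3⟩ := R.step (hw n (by omega)) (by rw [h1]; exact hw (n + 1) le_rfl)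
    rw [h1] at ht3
    rw [← ht3, F.Ws_iff (B.δ_pos.le.trans ht1.le)] at h
    exact h

theorem IN_push [T2Space M] (S : System M) {O₁ O₂ : Set M} {p₁ p₂ : M} {T₁ T₂ : ℝ}
    (hO₁ : S.IsPer O₁ p₁ T₁) (hO₂ : S.IsPer O₂ p₂ T₂)
    (h21 : (S.Wu O₂ ∩ S.Ws O₁).Nonempty) {B : Box S.toAFlow} (hB : B ∈ S.boxes)
    (hpt : B.pt 0 = p₁) (Sd : Saddle B O₁) (α : ℕ → Q2) (hα : ∀ n, ‖α n‖ ≤ 1 / 8)
    (hαP : ∀ n, Sd.P (α (n + 1)) = α n) :
    ∃ n₀ : ℕ, ∀ n ≥ n₀, ∃ g : ℝ → ℝ, IsUCurve B g (-1) 1 ∧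
      (∀ h ∈ Icc (-1 : ℝ) 1, B.pt (h, g h) ∈ S.Wu O₂) ∧
      |g (α 0).1 - (α 0).2| ≤ 2 * (1 / 2) ^ n := by
  obtain ⟨d, hd2, hd1⟩ := h21
  have hdL : d ∈ S.L := hd2.1
  obtain ⟨t₃, -, θ, hθ0, hθn, hθP, hθL⟩ :=
    Sd.toRet.fwd hO₁ hd1 hdL (ρ := 1 / 8) (by norm_num) (by norm_num) 0
  have hθ0' : B.pt (θ 0) = S.G t₃ d := hθ0
  have hθW : B.pt (θ 0) ∈ S.Wu O₂ := by
    rw [hθ0', S.toAFlow.Wu_iff hdL]
    exact hd2
  have hL := linked_of_mem S hB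
  have hθ1 : ‖θ 0‖ < 1 := (hθn 0).trans_lt (by norm_num)
  obtain ⟨ε, hε, g, hg, hg0⟩ := exists_ucurve S hL hO₂ hθ1 hθW
  have hmem0 : (θ 0).1 ∈ Icc ((θ 0).1 - ε) ((θ 0).1 + ε) := ⟨by linarith, by linarith⟩
  have hθW' : B.pt ((θ 0).1, g (θ 0).1) ∈ S.Wu O₂ := by
    rw [hg0]; exact hθW
  obtain ⟨ε', hε', hconv⟩ := ucurve_conv S hL hO₂ hg hmem0 hθW'
  set η : ℝ := min (min ε ε') (1 / 4) with hη_def
  have hη : 0 < η := by positivity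
  have hη1 : η ≤ ε := (min_le_left _ _).trans (min_le_left _ _)
  have hη2 : η ≤ ε' := (min_le_left _ _).trans (min_le_right _ _)
  have hη3 : η ≤ 1 / 4 := min_le_right _ _
  have hθ01 : |(θ 0).1| ≤ 1 / 8 := by
    have := norm_fst_le (θ 0)
    rw [Real.norm_eq_abs] at this
    exact this.trans (hθn 0)
  have hθ01' := abs_le.1 hθ01
  have hJ : Icc ((θ 0).1 - η) ((θ 0).1 + η) ⊆ Icc (-1 : ℝ) 1 := by
    intro x hx
    exact ⟨by linarith [hx.1, hθ01'.1], by linarith [hx.2, hθ01'.2]⟩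
  have hpt' : B.pt 0 ∈ S.L := by rw [hpt]; exact hO₁.mem
  have hres : IsUCurve B g ((θ 0).1 - η) ((θ 0).1 + η) :=
    hg.restrict (by linarith) (by linarith) (by linarith)
  have hgO : (Sd.psad hpt').IsUOn g (Icc ((θ 0).1 - η) ((θ 0).1 + η)) := by
    intro h hh
    exact ⟨⟨hres.norm_le h hh, hres.mem h hh⟩, hres.der h hh⟩
  have hwu : ∀ s ∈ Icc ((θ 0).1 - η) ((θ 0).1 + η), B.pt (s, g s) ∈ S.Wu O₂ := by
    intro s hs
    refine ⟨hres.mem s hs, fun U hU hOU => ?_⟩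
    obtain ⟨t₀, ht₀⟩ := hconv U hU hOU
    filter_upwards [eventually_ge_atTop t₀] with t ht
    refine ht₀ t ht s ⟨by linarith [hs.1], by linarith [hs.2]⟩ ?_
    rw [abs_le]
    exact ⟨by linarith [hs.1], by linarith [hs.2]⟩
  obtain ⟨n₀, hn₀⟩ := (Sd.psad hpt').push g (θ 0).1 η hη hJ hgO θ
    (Prod.ext rfl hg0.symm) hθn hθP
  refine ⟨n₀, fun n hn => ?_⟩
  obtain ⟨g', hg', hgw⟩ := hn₀ n hn
  refine ⟨g', ⟨by norm_num, fun h hh => (hg' h hh).1.1, fun h hh => (hg' h hh).1.2,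
    fun h hh => (hg' h hh).2⟩, ?_, ?_⟩
  · intro h hh
    obtain ⟨w, hw0, hw1, hwP, s, hs, hws⟩ := hgw h hh
    rw [← hw0]
    refine IN_wu Sd.toRet n hw1 hwP ?_
    rw [hws]
    exact hwu s hs
  · have hα1 : |(α 0).1| ≤ 1 / 8 := by
      have := norm_fst_le (α 0)
      rw [Real.norm_eq_abs] at this
      exact this.trans (hα 0)
    have hα1' := abs_le.1 hα1
    obtain ⟨w, hw0, hw1, hwP, -⟩ := hgw (α 0).1 ⟨by linarith [hα1'.1], by linarith [hα1'.2]⟩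
    have h1 := Sd.pmap.vert_close (n := n) (w := w) (w' := α) hw1
      (fun j _ => (hα j).trans (by norm_num)) hwP (fun j _ => hαP j) (by rw [hw0])
    rw [hw0] at h1
    exact h1

theorem IN_pull [T2Space M] (S : System M) {O₁ O₂ : Set M} {p₁ p₂ : M} {T₁ T₂ : ℝ}
    (hO₁ : S.IsPer O₁ p₁ T₁) (hO₂ : S.IsPer O₂ p₂ T₂)
    (h12 : (S.Wu O₁ ∩ S.Ws O₂).Nonempty) {B : Box S.toAFlow} (hB : B ∈ S.boxes)
    (Sd : Saddle B O₁) (β : ℕ → Q2) (hβ : ∀ n, ‖β n‖ ≤ 1 / 8)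
    (hβP : ∀ n, Sd.P (β n) = β (n + 1)) :
    ∃ n₀ : ℕ, ∀ n ≥ n₀, ∃ k : ℝ → ℝ,
      (∀ v ∈ Icc (-1 : ℝ) 1, ∀ v' ∈ Icc (-1 : ℝ) 1, |k v - k v'| ≤ 1 / 4 * |v - v'|) ∧
      (∀ v ∈ Icc (-1 : ℝ) 1, B.pt (k v, v) ∈ S.Ws O₂) ∧
      |k (β 0).2 - (β 0).1| ≤ 2 * (1 / 3) ^ n := by
  obtain ⟨c, hc1, hc2⟩ := h12
  have hcL : c ∈ S.L := hc1.1
  obtain ⟨t₄, -, τ, hτ0, hτn, hτP, hτL⟩ :=
    Sd.toRet.bwd hO₁ hc1 (ρ := 1 / 8) (by norm_num) (by norm_num) 0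
  have hτ0' : B.pt (τ 0) = S.G (-t₄) c := hτ0
  have hτW : B.pt (τ 0) ∈ S.Ws O₂ := by
    rw [hτ0', S.toAFlow.Ws_iff' hcL]
    exact hc2
  obtain ⟨η, hη, hst⟩ := S.strong B hB
  obtain ⟨k, hk0, hk1, hk2⟩ := hst (τ 0) ((hτn 0).trans (by norm_num)) (hτL 0)
  have hk3 : ∀ v ∈ Icc ((τ 0).2 - η) ((τ 0).2 + η), B.pt (k v, v) ∈ S.Ws O₂ :=
    fun v hv => hk2 v hv O₂ hO₂.sub hO₂.compact (fun t _ x hx => AFlow.IsPer.inv S.toAFlow hO₂ t x hx) hτW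
  set η' : ℝ := min η (1 / 4) with hη'_def
  have hη' : 0 < η' := by positivity
  have hη'1 : η' ≤ η := min_le_left _ _
  have hη'2 : η' ≤ 1 / 4 := min_le_right _ _
  have hsub : Icc ((τ 0).2 - η') ((τ 0).2 + η') ⊆ Icc ((τ 0).2 - η) ((τ 0).2 + η) :=
    Icc_subset_Icc (by linarith) (by linarith)
  obtain ⟨n₀, hn₀⟩ := Sd.pmap.pull k (τ 0).2 η' hη' hη'2
    (fun v hv v' hv' => hk1 v (hsub hv) v' (hsub hv')) τ (Prod.ext hk0.symm rfl) hτn hτP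
  refine ⟨n₀, fun n hn => ?_⟩
  obtain ⟨k', hk', hkw⟩ := hn₀ n hn
  refine ⟨k', hk', ?_, ?_⟩
  · intro v hv
    obtain ⟨w, hw0, hw1, hwP, s, hs, hws⟩ := hkw v hv
    rw [← hw0]
    refine IN_ws Sd.toRet n hw1 hwP ?_
    rw [hws]
    exact hk3 s (hsub hs)
  · have hβ1 : |(β 0).2| ≤ 1 / 8 := by
      have := norm_snd_le (β 0)
      rw [Real.norm_eq_abs] at this
      exact this.trans (hβ 0)
    have hβ1' := abs_le.1 hβ1
    obtain ⟨w, hw0, hw1, hwP, -⟩ := hkw (β 0).2 ⟨by linarith [hβ1'.1], by linarith [hβ1'.2]⟩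
    have h1 := Sd.pmap.horiz_close (n := n) (w := w) (w' := β) hw1
      (fun j _ => (hβ j).trans (by norm_num)) hwP (fun j _ => hβP j) (by rw [hw0])
    rw [hw0] at h1
    exact h1

theorem IN_transport [T2Space M] (S : System M) {O₂ : Set M}
    {B : Box S.toAFlow} (hB : B ∈ S.boxes) {t : ℝ} (ht : 0 ≤ t) {α β : Q2} (hα : ‖α‖ ≤ 1 / 8)
    (hβ : ‖β‖ ≤ 1 / 8) (h : S.G t (B.pt α) = B.pt β) :
    ∃ η₁ > 0, ∀ r > 0, ∃ δ' > 0, ∀ g : ℝ → ℝ, IsUCurve B g (-1) 1 →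
      (∀ h ∈ Icc (-1 : ℝ) 1, B.pt (h, g h) ∈ S.Wu O₂) → |g α.1 - α.2| < δ' →
      ∃ (g' : ℝ → ℝ) (h₁ : ℝ), IsUCurve B g' (h₁ - η₁) (h₁ + η₁) ∧
        (∀ h ∈ Icc (h₁ - η₁) (h₁ + η₁), B.pt (h, g' h) ∈ S.Wu O₂) ∧
        |h₁ - β.1| < r ∧ |g' h₁ - β.2| < r := by
  obtain ⟨C, hC, hT⟩ := S.transp B hB B hB
  have hGt : Continuous (S.G t) := by
    have h1 : ContinuousOn ((fun p : ℝ × M => S.G p.1 p.2) ∘ fun x : M => (t, x)) univ :=
      S.cont_nonneg'.comp (by fun_prop) (fun x _ => ⟨ht, mem_univ _⟩)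
    rw [continuousOn_univ] at h1
    exact h1
  have hW : IsOpen (B.e '' {z : V3 | |z.1| < B.δ ∧ ‖z.2‖ < 1}) := B.open_image le_rfl le_rfl
  have hαI : {q : Q2 | ‖q‖ ≤ 1} ∈ 𝓝 α := by
    have : {q : Q2 | ‖q‖ < 1} ∈ 𝓝 α :=
      (isOpen_lt continuous_norm continuous_const).mem_nhds (hα.trans_lt (by norm_num))
    exact mem_of_superset this fun q (hq : ‖q‖ < 1) => (le_of_lt hq : ‖q‖ ≤ 1)
  have hptα : ContinuousAt B.pt α := B.pt_cont.continuousAt hαI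
  have hcα : ContinuousAt (fun q => S.G t (B.pt q)) α :=
    ContinuousAt.comp (g := S.G t) hGt.continuousAt hptα
  have hβsrc : ((0 : ℝ), β) ∈ B.e.source :=
    B.src 0 β (by rw [abs_zero]; exact B.δ_pos.le) (hβ.trans (by norm_num))
  have hβe : B.pt β = B.e (0, β) := rfl
  have hβW : B.pt β ∈ B.e '' {z : V3 | |z.1| < B.δ ∧ ‖z.2‖ < 1} :=
    ⟨(0, β), ⟨by simpa using B.δ_pos, hβ.trans_lt (by norm_num)⟩, rfl⟩
  have hev1 : ∀ᶠ q in 𝓝 α, S.G t (B.pt q) ∈ B.e '' {z : V3 | |z.1| < B.δ ∧ ‖z.2‖ < 1} := by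
    refine hcα.eventually (hW.mem_nhds ?_)
    change S.G t (B.pt α) ∈ _
    rw [h]; exact hβW
  have hsymm : ContinuousAt B.e.symm (B.pt β) :=
    B.e.continuousAt_symm (by rw [hβe]; exact B.e.map_source hβsrc)
  set Φ : Q2 → Q2 := fun q => (B.e.symm (S.G t (B.pt q))).2 with hΦ_def
  have hΦc : ContinuousAt Φ α := by
    have h1 : ContinuousAt (fun q => B.e.symm (S.G t (B.pt q))) α := by
      refine ContinuousAt.comp (g := B.e.symm) ?_ hcα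
      rw [h]; exact hsymm
    exact h1.snd
  have hΦα : Φ α = β := by
    simp only [hΦ_def]
    rw [h, hβe, B.e.left_inv hβsrc]
  obtain ⟨r₀, hr₀, hr₀'⟩ := Metric.eventually_nhds_iff.1 (hev1.and (eventually_of_mem hαI fun q hq => hq))
  have hα1 : |α.1| ≤ 1 / 8 := by
    have := norm_fst_le α
    rw [Real.norm_eq_abs] at this
    exact this.trans hα
  have hα1' := abs_le.1 hα1
  set η₀ : ℝ := min (r₀ / 2) (1 / 2) with hη₀_def
  have hη₀ : 0 < η₀ := by positivity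
  have hη₀1 : η₀ ≤ r₀ / 2 := min_le_left _ _
  have hη₀2 : η₀ ≤ 1 / 2 := min_le_right _ _
  refine ⟨C⁻¹ * η₀, by positivity, fun r hr => ?_⟩
  obtain ⟨r₁, hr₁, hr₁'⟩ := Metric.eventually_nhds_iff.1 (hΦc.eventually (Metric.ball_mem_nhds _ hr))
  refine ⟨min (r₀ / 2) r₁, by positivity, fun g hg hgW hgα => ?_⟩
  have hJ : Icc (α.1 - η₀) (α.1 + η₀) ⊆ Icc (-1 : ℝ) 1 := fun x hx =>
    ⟨by linarith [hx.1, hα1'.1], by linarith [hx.2, hα1'.2]⟩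
  have hαJ : α.1 ∈ Icc (α.1 - η₀) (α.1 + η₀) := ⟨by linarith, by linarith⟩
  have hres : IsUCurve B g (α.1 - η₀) (α.1 + η₀) :=
    hg.restrict (by linarith [hα1'.1]) (by linarith) (by linarith [hα1'.2])
  -- all the points of the curve are transported in the box
  have hin : ∀ s ∈ Icc (α.1 - η₀) (α.1 + η₀), ∃ u : ℝ, |u| < B.δ ∧ ‖Φ (s, g s)‖ < 1 ∧
      S.G t (B.pt (s, g s)) = B.e (u, Φ (s, g s)) := by
    intro s hs
    have hd : dist ((s, g s) : Q2) α < r₀ := by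
      rw [Prod.dist_eq]
      have hsα : |s - α.1| ≤ η₀ := by
        rw [abs_le]; exact ⟨by linarith [hs.1], by linarith [hs.2]⟩
      have h1 : |g s - g α.1| ≤ 1 / 4 * |s - α.1| := hg.lip (hJ hs) (hJ hαJ)
      have h2 : |g s - α.2| ≤ |g s - g α.1| + |g α.1 - α.2| := abs_sub_le _ _ _
      have h3 : |g α.1 - α.2| < r₀ / 2 := hgα.trans_le (min_le_left _ _)
      refine max_lt ?_ ?_
      · rw [Real.dist_eq]; linarith
      · rw [Real.dist_eq]; linarith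
    obtain ⟨⟨z, hz, hze⟩, -⟩ := hr₀' hd
    have hzs : z ∈ B.e.source := B.src z.1 z.2 hz.1.le hz.2.le
    have hΦz : Φ (s, g s) = z.2 := by
      simp only [hΦ_def]
      rw [← hze, B.e.left_inv hzs]
    refine ⟨z.1, hz.1, ?_, ?_⟩
    · rw [hΦz]; exact hz.2
    · rw [hΦz, ← hze]
  have hinL : ∀ s ∈ Icc (α.1 - η₀) (α.1 + η₀), B.pt (Φ (s, g s)) ∈ S.Wu O₂ := by
    intro s hs
    obtain ⟨u, hu, hn, he⟩ := hin s hs
    have h1 : S.G t (B.pt (s, g s)) ∈ S.Wu O₂ := by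
      rw [S.toAFlow.Wu_iff (hgW s (hJ hs)).1]
      exact hgW s (hJ hs)
    rw [he] at h1
    have h2 : B.pt (Φ (s, g s)) = S.G (-u) (B.e (u, Φ (s, g s))) :=
      B.toFlowBox.pt_eq hu.le hn.le h1.1
    rw [h2, S.toAFlow.Wu_iff h1.1]
    exact h1
  have hder : ∀ s ∈ Icc (α.1 - η₀) (α.1 + η₀), ∃ c : ℝ, c ≠ 0 ∧ C⁻¹ ≤ |c| ∧
      HasDerivWithinAt (fun s' => Φ (s', g s')) (c, c * B.m (Φ (s, g s)))
        (Icc (α.1 - η₀) (α.1 + η₀)) s := by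
    intro s hs
    obtain ⟨u, hu, hn, he⟩ := hin s hs
    obtain ⟨c, hc1, -, hc3, hc4⟩ := hT g _ _ hres t s hs u (Φ (s, g s)) hu.le hn.le he
    exact ⟨c, hc1, hc3 ht, hc4⟩
  choose! c hc0 hcC hcd using hder
  set H : ℝ → ℝ := fun s => (Φ (s, g s)).1 with hH_def
  set V : ℝ → ℝ := fun s => (Φ (s, g s)).2 with hV_def
  have hH : ∀ s ∈ Icc (α.1 - η₀) (α.1 + η₀), HasDerivWithinAt H (c s)
      (Icc (α.1 - η₀) (α.1 + η₀)) s := fun s hs => (hcd s hs).fst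
  have hV : ∀ s ∈ Icc (α.1 - η₀) (α.1 + η₀), HasDerivWithinAt V (c s * B.m (Φ (s, g s)))
      (Icc (α.1 - η₀) (α.1 + η₀)) s := fun s hs => (hcd s hs).snd
  obtain ⟨hlt, σ, hσc, hσ1, hσ2, hσ3⟩ := reparam (by linarith) hc0 hH hV
  set lo : ℝ := min (H (α.1 - η₀)) (H (α.1 + η₀)) with hlo_def
  set hi : ℝ := max (H (α.1 - η₀)) (H (α.1 + η₀)) with hhi_def
  have hcurve : IsUCurve B (fun x => V (σ x)) lo hi := by
    have hpt : ∀ x ∈ Icc lo hi, ((x, V (σ x)) : Q2) = Φ (σ x, g (σ x)) := by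
      intro x hx
      exact Prod.ext (hσ3 x hx).2.1.symm rfl
    refine ⟨hlt.le, fun x hx => ?_, fun x hx => ?_, fun x hx => ?_⟩
    · rw [hpt x hx]
      obtain ⟨u, hu, hn, he⟩ := hin (σ x) (hσ3 x hx).1
      exact hn.le
    · rw [hpt x hx]
      exact (hinL (σ x) (hσ3 x hx).1).1
    · rw [hpt x hx]
      exact (hσ3 x hx).2.2
  have hcurveW : ∀ x ∈ Icc lo hi, B.pt (x, V (σ x)) ∈ S.Wu O₂ := by
    intro x hx
    have hpt : ((x, V (σ x)) : Q2) = Φ (σ x, g (σ x)) := Prod.ext (hσ3 x hx).2.1.symm rfl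
    rw [hpt]
    exact hinL (σ x) (hσ3 x hx).1
  have hleft : α.1 - η₀ ∈ Icc (α.1 - η₀) (α.1 + η₀) := ⟨le_rfl, by linarith⟩
  have hright : α.1 + η₀ ∈ Icc (α.1 - η₀) (α.1 + η₀) := ⟨by linarith, le_rfl⟩
  have hl1 := lower_bound hcC (by positivity) hH hleft hαJ
  have hl2 := lower_bound hcC (by positivity) hH hright hαJ
  have e1 : |α.1 - η₀ - α.1| = η₀ := by
    rw [show α.1 - η₀ - α.1 = -η₀ by ring, abs_neg, abs_of_pos hη₀]
  have e2 : |α.1 + η₀ - α.1| = η₀ := by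
    rw [show α.1 + η₀ - α.1 = η₀ by ring, abs_of_pos hη₀]
  rw [e1] at hl1
  rw [e2] at hl2
  have hmid := hσ2 α.1 ⟨by linarith, by linarith⟩
  have hsub1 : lo ≤ H α.1 - C⁻¹ * η₀ := by
    rcases min_choice (H (α.1 - η₀)) (H (α.1 + η₀)) with h' | h'
    · have : lo = H (α.1 - η₀) := h'
      rw [← this, abs_of_neg (by linarith [hmid.1])] at hl1
      linarith
    · have : lo = H (α.1 + η₀) := h'
      rw [← this, abs_of_neg (by linarith [hmid.1])] at hl2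
      linarith
  have hsub2 : H α.1 + C⁻¹ * η₀ ≤ hi := by
    rcases max_choice (H (α.1 - η₀)) (H (α.1 + η₀)) with h' | h'
    · have : hi = H (α.1 - η₀) := h'
      rw [← this, abs_of_pos (by linarith [hmid.2])] at hl1
      linarith
    · have : hi = H (α.1 + η₀) := h'
      rw [← this, abs_of_pos (by linarith [hmid.2])] at hl2
      linarith
  have hpos : 0 < C⁻¹ * η₀ := by positivity
  have hΦn : dist (Φ (α.1, g α.1)) (Φ α) < r := by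
    refine hr₁' ?_
    rw [Prod.dist_eq]
    refine max_lt (by simpa using hr₁) ?_
    rw [Real.dist_eq]
    exact hgα.trans_le (min_le_right _ _)
  rw [hΦα, Prod.dist_eq, max_lt_iff, Real.dist_eq, Real.dist_eq] at hΦn
  refine ⟨fun x => V (σ x), H α.1, hcurve.restrict hsub1 (by linarith) hsub2,
    fun x hx => hcurveW x ⟨hsub1.trans hx.1, hx.2.trans hsub2⟩, hΦn.1, ?_⟩
  have : σ (H α.1) = α.1 := (hσ1 α.1 hαJ).2
  simp only [this]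
  exact hΦn.2

theorem inclination [T2Space M] (S : System M) {O₁ O₂ : Set M} {p₁ p₂ : M} {T₁ T₂ : ℝ}
    (hO₁ : S.IsPer O₁ p₁ T₁) (hO₂ : S.IsPer O₂ p₂ T₂) (h12 : (S.Wu O₁ ∩ S.Ws O₂).Nonempty)
    (h21 : (S.Wu O₂ ∩ S.Ws O₁).Nonempty) :
    S.Ws O₁ ∩ S.Wu O₁ ⊆ closure (S.Ws O₂ ∩ S.Wu O₂) := by
  rintro y ⟨hys, hyu⟩
  have hyL : y ∈ S.L := hyu.1
  obtain ⟨B, hB, hpt, ⟨Sd⟩⟩ := S.saddle O₁ p₁ T₁ hO₁
  obtain ⟨t₁, ht₁, α, hα0, hαn, hαP, hαL⟩ :=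
    Sd.toRet.bwd hO₁ hyu (ρ := 1 / 8) (by norm_num) (by norm_num) 0
  obtain ⟨t₂, ht₂, β, hβ0, hβn, hβP, hβL⟩ :=
    Sd.toRet.fwd hO₁ hys hyL (ρ := 1 / 8) (by norm_num) (by norm_num) 0
  have hα0' : B.pt (α 0) = S.G (-t₁) y := hα0
  have hβ0' : B.pt (β 0) = S.G t₂ y := hβ0
  have htt : S.G (t₁ + t₂) (B.pt (α 0)) = B.pt (β 0) := by
    rw [hα0', hβ0', ← S.add' _ _ y hyL]
    congr 1
    ring
  obtain ⟨n₀, hpush⟩ := IN_push S hO₁ hO₂ h21 hB hpt Sd α hαn hαP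
  obtain ⟨n₁, hpull⟩ := IN_pull S hO₁ hO₂ h12 hB Sd β hβn hβP
  obtain ⟨η₁, hη₁, htr⟩ := IN_transport S (O₂ := O₂) hB (add_nonneg ht₁ ht₂) (hαn 0) (hβn 0) htt
  have hβ2 : |(β 0).2| ≤ 1 / 8 := by
    have := norm_snd_le (β 0)
    rw [Real.norm_eq_abs] at this
    exact this.trans (hβn 0)
  have hβ2' := abs_le.1 hβ2
  -- main claim
  have key : ∀ r > 0, ∃ q : Q2, ‖q‖ ≤ 1 ∧ dist q (β 0) < r ∧ B.pt q ∈ S.Wu O₂ ∧
      B.pt q ∈ S.Ws O₂ := by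
    intro r hr
    set η : ℝ := min η₁ (1 / 4) with hη_def
    have hη : 0 < η := by positivity
    have hη1 : η ≤ η₁ := min_le_left _ _
    have hη2 : η ≤ 1 / 4 := min_le_right _ _
    set ρ : ℝ := min (η / 8) (r / 8) with hρ_def
    have hρ : 0 < ρ := by positivity
    have hρ1 : 8 * ρ ≤ η := by
      have : ρ ≤ η / 8 := min_le_left _ _
      linarith
    have hρ2 : 8 * ρ ≤ r := by
      have : ρ ≤ r / 8 := min_le_right _ _
      linarith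
    obtain ⟨δ', hδ', hδ⟩ := htr (ρ / 2) (by positivity)
    have hlim1 : Tendsto (fun n : ℕ => 2 * (1 / 2 : ℝ) ^ n) atTop (𝓝 0) := by
      have := (tendsto_pow_atTop_nhds_zero_of_lt_one (r := (1 / 2 : ℝ)) (by norm_num)
        (by norm_num)).const_mul 2
      simpa using this
    have hlim2 : Tendsto (fun n : ℕ => 2 * (1 / 3 : ℝ) ^ n) atTop (𝓝 0) := by
      have := (tendsto_pow_atTop_nhds_zero_of_lt_one (r := (1 / 3 : ℝ)) (by norm_num)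
        (by norm_num)).const_mul 2
      simpa using this
    obtain ⟨n, hn1, hn2, hn3, hn4⟩ := ((hlim1.eventually (gt_mem_nhds hδ')).and
      ((hlim2.eventually (gt_mem_nhds (show 0 < ρ / 2 by positivity))).and
        ((eventually_ge_atTop n₀).and (eventually_ge_atTop n₁)))).exists
    obtain ⟨g, hg1, hg2, hg3⟩ := hpush n hn3
    obtain ⟨k, hk1, hk2, hk3⟩ := hpull n hn4
    obtain ⟨g', h₁, hg'1, hg'2, hg'3, hg'4⟩ := hδ g hg1 hg2 (hg3.trans_lt hn1)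
    have hsub : Icc (h₁ - η) (h₁ + η) ⊆ Icc (h₁ - η₁) (h₁ + η₁) :=
      Icc_subset_Icc (by linarith) (by linarith)
    have hsub2 : Icc ((β 0).2 - η) ((β 0).2 + η) ⊆ Icc (-1 : ℝ) 1 := fun x hx =>
      ⟨by linarith [hx.1, hβ2'.1], by linarith [hx.2, hβ2'.2]⟩
    have hh : |h₁ - k (β 0).2| ≤ ρ := by
      have h1 : |h₁ - k (β 0).2| ≤ |h₁ - (β 0).1| + |(β 0).1 - k (β 0).2| := abs_sub_le _ _ _
      rw [abs_sub_comm (β 0).1] at h1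
      linarith
    obtain ⟨h, hh1, hh2, hh3, hh4⟩ := crossing (g := g') (k := k) (h₁ := h₁) (v₁ := g' h₁)
      (h₂ := k (β 0).2) (v₂ := (β 0).2) (η := η) (ρ := ρ) hρ.le hρ1 rfl rfl hh (by linarith)
      (fun x hx y hy => hg'1.lip (hsub hx) (hsub hy))
      (fun x hx y hy => hk1 x (hsub2 hx) y (hsub2 hy))
    refine ⟨(h, g' h), hg'1.norm_le h (hsub hh1), ?_, hg'2 h (hsub hh1), ?_⟩
    · have hh₁mem : h₁ ∈ Icc (h₁ - η) (h₁ + η) := ⟨by linarith, by linarith⟩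
      have h1 : |g' h - g' h₁| ≤ 1 / 4 * |h - h₁| := hg'1.lip (hsub hh1) (hsub hh₁mem)
      have h2 : |g' h - (β 0).2| ≤ |g' h - g' h₁| + |g' h₁ - (β 0).2| := abs_sub_le _ _ _
      have h3 : |h - (β 0).1| ≤ |h - h₁| + |h₁ - (β 0).1| := abs_sub_le _ _ _
      rw [Prod.dist_eq]
      refine max_lt ?_ ?_
      · rw [Real.dist_eq]
        linarith
      · rw [Real.dist_eq]
        linarith
    · have h1 := hk2 (g' h) (hsub2 hh2)
      rw [hh3] at h1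
      exact h1
  -- conclusion
  have hyβ : y = S.G (-t₂) (B.pt (β 0)) := by
    rw [hβ0', S.toAFlow.G_neg_G hyL]
  rw [mem_closure_iff_nhds]
  intro U hU
  have hcont : ContinuousWithinAt (fun q : Q2 => S.G (-t₂) (B.pt q))
      {q : Q2 | ‖q‖ ≤ 1 ∧ B.pt q ∈ S.L} (β 0) := by
    have h1 : ContinuousOn (fun x : M => S.G (-t₂) x) S.L := by
      have : ContinuousOn ((fun p : ℝ × M => S.G p.1 p.2) ∘ fun x : M => (-t₂, x)) S.L :=
        S.cont'.comp (by fun_prop) (fun x hx => ⟨mem_univ _, hx⟩)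
      exact this
    have h2 : ContinuousOn B.pt {q : Q2 | ‖q‖ ≤ 1 ∧ B.pt q ∈ S.L} :=
      B.pt_cont.mono fun q hq => hq.1
    exact (h1.comp h2 fun q hq => hq.2) (β 0) ⟨(hβn 0).trans (by norm_num), hβL 0⟩
  have hU' : U ∈ 𝓝 (S.G (-t₂) (B.pt (β 0))) := by rw [← hyβ]; exact hU
  have hev := hcont hU'
  rw [mem_map, mem_nhdsWithin_iff_exists_mem_nhds_inter] at hev
  obtain ⟨V, hV, hVU⟩ := hev
  obtain ⟨r, hr, hrV⟩ := Metric.mem_nhds_iff.1 hV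
  obtain ⟨q, hq1, hq2, hq3, hq4⟩ := key r hr
  refine ⟨S.G (-t₂) (B.pt q), hVU ⟨hrV hq2, hq1, hq3.1⟩, ?_, ?_⟩
  · rw [S.toAFlow.Ws_iff' hq3.1]; exact hq4
  · rw [S.toAFlow.Wu_iff hq3.1]; exact hq3

end VeniceMask
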