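import Pool.Agent.helper75.VM.M_B0
import Pool.Agent.helper75.VM.M_GD
import Pool.Agent.helper75.VM.M_RE1
import Pool.Agent.helper75.VM.M_SA
import Pool.Agent.helper75.VM.M_RP

/-!
# MP_509a24_an, module LU1: local existence of unstable curves
-/

open Set Filter Topology Bundle
open scoped ContDiff Manifold

namespace VeniceMask

universe u

section aux

variable {M : Type u} [TopologicalSpace M] {F : AFlow M}

/-- continuity of the transported curve -/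
theorem LU1_cont {B₁ : Box F} {g : ℝ → ℝ} {a b : ℝ} (hg : IsUCurve B₁ g a b) (t : ℝ) :
    ContinuousOn (fun s => F.G t (B₁.pt (s, g s))) (Icc a b) := by
  have h1 : ContinuousOn (fun s => ((s, g s) : Q2)) (Icc a b) :=
    continuousOn_id.prodMk (fun s hs => (hg.der s hs).continuousWithinAt)
  have h2 : ContinuousOn (fun s => B₁.pt (s, g s)) (Icc a b) :=
    B₁.toFlowBox.pt_cont.comp h1 (fun s hs => hg.norm_le s hs)
  have h3 : ContinuousOn (fun s => ((t, B₁.pt (s, g s)) : ℝ × M)) (Icc a b) :=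
    continuousOn_const.prodMk h2
  exact F.cont'.comp h3 (fun s hs => ⟨mem_univ _, hg.mem s hs⟩)

/-- local transport of an unstable curve from the box `B₁` to the box `B₂` -/
theorem LU1_local {B₁ B₂ : Box F} {C : ℝ} (hT : Transp B₁ B₂ C) {g : ℝ → ℝ} {a b : ℝ}
    (hg : IsUCurve B₁ g a b) {t s₀ u₀ r : ℝ} {q₀ : Q2} (hs₀ : s₀ ∈ Icc a b) (hu : |u₀| < B₂.δ)
    (hr : r ≤ 1) (hq : ‖q₀‖ < r) (h : F.G t (B₁.pt (s₀, g s₀)) = B₂.e (u₀, q₀)) :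
    ∃ ε > 0, ∃ (w : ℝ → V3) (c : ℝ → ℝ), w s₀ = (u₀, q₀) ∧
      ∀ s ∈ Icc a b, |s - s₀| ≤ ε → |(w s).1| < B₂.δ ∧ ‖(w s).2‖ < r ∧
        F.G t (B₁.pt (s, g s)) = B₂.e (w s) ∧ B₂.pt (w s).2 ∈ F.L ∧ c s ≠ 0 ∧
        HasDerivWithinAt (fun s' => (w s').2) (c s, c s * B₂.m (w s).2) (Icc a b) s := by
  classical
  set f : ℝ → M := fun s => F.G t (B₁.pt (s, g s)) with hf
  set w : ℝ → V3 := fun s => B₂.e.symm (f s) with hw
  have hsrc : ∀ z : V3, |z.1| ≤ B₂.δ → ‖z.2‖ ≤ 1 → z ∈ B₂.e.source := fun z h1 h2 =>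
    B₂.src z.1 z.2 h1 h2
  have hV : IsOpen (B₂.e '' {z : V3 | |z.1| < B₂.δ ∧ ‖z.2‖ < r}) :=
    B₂.toFlowBox.open_image le_rfl hr
  have hfV : f s₀ ∈ B₂.e '' {z : V3 | |z.1| < B₂.δ ∧ ‖z.2‖ < r} := ⟨(u₀, q₀), ⟨hu, hq⟩, h.symm⟩
  have hc := (LU1_cont hg t) s₀ hs₀
  have hev : ∀ᶠ s in 𝓝[Icc a b] s₀, f s ∈ B₂.e '' {z : V3 | |z.1| < B₂.δ ∧ ‖z.2‖ < r} :=
    hc.eventually (hV.mem_nhds hfV)
  obtain ⟨ε, hε, hb⟩ := Metric.mem_nhdsWithin_iff.1 hev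
  have key : ∀ s ∈ Icc a b, |s - s₀| ≤ ε / 2 → |(w s).1| < B₂.δ ∧ ‖(w s).2‖ < r ∧
      F.G t (B₁.pt (s, g s)) = B₂.e (w s) ∧ B₂.pt (w s).2 ∈ F.L := by
    intro s hs hse
    have h1 : f s ∈ B₂.e '' {z : V3 | |z.1| < B₂.δ ∧ ‖z.2‖ < r} := by
      apply hb
      refine ⟨?_, hs⟩
      rw [Metric.mem_ball, Real.dist_eq]
      linarith
    obtain ⟨z, ⟨hz1, hz2⟩, hz⟩ := h1
    have hz' : w s = z := by
      simp only [hw]
      rw [← hz]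
      exact B₂.e.left_inv (hsrc z hz1.le (hz2.le.trans hr))
    rw [hz']
    refine ⟨hz1, hz2, hz.symm, ?_⟩
    have hL : f s ∈ F.L := F.mapsTo' t _ (hg.mem s hs)
    rw [← hz] at hL
    exact (B₂.toFlowBox.mem_iff hz1.le (hz2.le.trans hr)).1 hL
  have hder : ∀ s, ∃ c : ℝ, s ∈ Icc a b → |s - s₀| ≤ ε / 2 → c ≠ 0 ∧
      HasDerivWithinAt (fun s' => (w s').2) (c, c * B₂.m (w s).2) (Icc a b) s := by
    intro s
    by_cases hs : s ∈ Icc a b ∧ |s - s₀| ≤ ε / 2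
    · obtain ⟨h1, h2, h3, h4⟩ := key s hs.1 hs.2
      obtain ⟨c, hc0, -, -, hcd⟩ := hT g a b hg t s hs.1 (w s).1 (w s).2 h1.le
        (h2.le.trans hr) h3
      exact ⟨c, fun _ _ => ⟨hc0, hcd⟩⟩
    · exact ⟨0, fun h1 h2 => absurd ⟨h1, h2⟩ hs⟩
  choose c hc using hder
  refine ⟨ε / 2, by positivity, w, c, ?_, fun s hs hse => ?_⟩
  · simp only [hw, hf]
    rw [h]
    exact B₂.e.left_inv (hsrc _ hu.le (hq.le.trans hr))
  · obtain ⟨h1, h2, h3, h4⟩ := key s hs hse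
    exact ⟨h1, h2, h3, h4, (hc s hs hse).1, (hc s hs hse).2⟩

end aux

variable {M : Type u} [TopologicalSpace M] [T2Space M] (S : System M) {B : Box S.toAFlow} (hB : Linked S B)
  {O : Set M} {p : M} {T : ℝ} (hO : S.IsPer O p T)

/-- the local unstable graph of the saddle is an unstable curve -/
theorem LU1_gamma {Bp : Box S.toAFlow} (Sd : Saddle Bp O) (hp : Bp.pt 0 ∈ S.L) :
    ∃ γ : ℝ → ℝ, γ 0 = 0 ∧ (∀ h ∈ Icc (-1 : ℝ) 1, (h, γ h) ∈ Sd.pmap.Gam) ∧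
      (∀ q ∈ Sd.pmap.Gam, γ q.1 = q.2) ∧ IsUCurve Bp γ (-1) 1 := by
  obtain ⟨γ, h0, h1, h2, h3⟩ := Sd.pmap.exists_gamma
  have h4 := (Sd.psad hp).gamma_der γ h1
  refine ⟨γ, h0, h1, h2, ⟨by norm_num, ?_, ?_, ?_⟩⟩
  · intro h hh
    exact (h4 h hh).1.1
  · intro h hh
    exact (h4 h hh).1.2
  · intro h hh
    exact (h4 h hh).2

include hB hO

theorem exists_ucurve {q : Q2} (hq : ‖q‖ < 1) (hy : B.pt q ∈ S.Wu O) :
    ∃ ε > 0, ∃ g : ℝ → ℝ, IsUCurve B g (q.1 - ε) (q.1 + ε) ∧ g q.1 = q.2 := by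
  obtain ⟨Bp, hBp, hpt, ⟨Sd⟩⟩ := S.saddle O p T hO
  have hpL : Bp.pt 0 ∈ S.L := by rw [hpt]; exact hO.mem
  obtain ⟨γ, hγ0, hγ1, hγ2, hγ⟩ := LU1_gamma S Sd hpL
  obtain ⟨t₀, ht₀, u, hu0, hu1, hu2, hu3⟩ := Ret.bwd hO Sd.toRet hy (ρ := 1 / 8) (by norm_num)
    (by norm_num) 0
  have hGam : u 0 ∈ Sd.pmap.Gam := ⟨u, rfl, fun n => (hu1 n).trans (by norm_num), hu2⟩
  have hγs : γ (u 0).1 = (u 0).2 := hγ2 _ hGam
  have hs1 : |(u 0).1| ≤ 1 / 8 := (norm_fst_le (u 0)).trans (hu1 0)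
  have hyL : B.pt q ∈ S.L := hy.1
  have hG : S.G t₀ (Bp.pt ((u 0).1, γ (u 0).1)) = B.e (0, q) := by
    rw [hγs]
    have : Bp.pt ((u 0).1, (u 0).2) = S.G (-t₀) (B.pt q) := hu0
    rw [this]
    exact S.toAFlow.G_G_neg hyL t₀
  obtain ⟨C, hC, hT⟩ := hB.2 Bp hBp
  have hs1' : (u 0).1 ∈ Icc (-1 : ℝ) 1 := by
    have := abs_le.1 hs1
    constructor <;> linarith [this.1, this.2]
  obtain ⟨ε, hε, w, c, hw0, hw⟩ := LU1_local hT hγ (t := t₀) (s₀ := (u 0).1) (u₀ := 0)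
    (q₀ := q) (r := 1) hs1' (by simpa using B.δ_pos) le_rfl hq hG
  set s₁ : ℝ := (u 0).1 with hs₁
  set ε₁ : ℝ := min ε (1 / 2) with hε₁
  have hε₁0 : 0 < ε₁ := lt_min hε (by norm_num)
  have hε₁1 : ε₁ ≤ 1 / 2 := min_le_right _ _
  have hsub : Icc (s₁ - ε₁) (s₁ + ε₁) ⊆ Icc (-1 : ℝ) 1 := by
    intro s hs
    have := abs_le.1 hs1
    constructor <;> linarith [this.1, this.2, hs.1, hs.2]
  have hloc : ∀ s ∈ Icc (s₁ - ε₁) (s₁ + ε₁), |s - s₁| ≤ ε := by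
    intro s hs
    rw [abs_le]
    have : ε₁ ≤ ε := min_le_left _ _
    constructor <;> linarith [hs.1, hs.2]
  have hH : ∀ s ∈ Icc (s₁ - ε₁) (s₁ + ε₁), HasDerivWithinAt (fun s => (w s).2.1) (c s)
      (Icc (s₁ - ε₁) (s₁ + ε₁)) s := fun s hs =>
    (((hw s (hsub hs) (hloc s hs)).2.2.2.2.2).mono hsub).fst
  have hV : ∀ s ∈ Icc (s₁ - ε₁) (s₁ + ε₁), HasDerivWithinAt (fun s => (w s).2.2)
      (c s * B.m (w s).2) (Icc (s₁ - ε₁) (s₁ + ε₁)) s := fun s hs =>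
    (((hw s (hsub hs) (hloc s hs)).2.2.2.2.2).mono hsub).snd
  obtain ⟨hlt, σ, hσc, hσ1, hσ2, hσ3⟩ := reparam (a := s₁ - ε₁) (b := s₁ + ε₁) (by linarith)
    (H := fun s => (w s).2.1) (V := fun s => (w s).2.2) (c := c) (μ := fun s => B.m (w s).2)
    (fun s hs => (hw s (hsub hs) (hloc s hs)).2.2.2.2.1) hH hV
  have hs₁m : s₁ ∈ Icc (s₁ - ε₁) (s₁ + ε₁) := ⟨by linarith, by linarith⟩
  have hs₁o : s₁ ∈ Ioo (s₁ - ε₁) (s₁ + ε₁) := ⟨by linarith, by linarith⟩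
  have hq1 := hσ2 s₁ hs₁o
  have hw2 : (w s₁).2 = q := by rw [hw0]
  rw [hw2] at hq1
  set lo := min (w (s₁ - ε₁)).2.1 (w (s₁ + ε₁)).2.1 with hlo
  set hi := max (w (s₁ - ε₁)).2.1 (w (s₁ + ε₁)).2.1 with hhi
  set ε₂ : ℝ := min (q.1 - lo) (hi - q.1) with hε₂
  have hε₂0 : 0 < ε₂ := lt_min (by linarith [hq1.1]) (by linarith [hq1.2])
  have hsub2 : Icc (q.1 - ε₂) (q.1 + ε₂) ⊆ Icc lo hi := by
    intro h hh
    have h1 : ε₂ ≤ q.1 - lo := min_le_left _ _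
    have h2 : ε₂ ≤ hi - q.1 := min_le_right _ _
    constructor <;> linarith [hh.1, hh.2]
  have hpt2 : ∀ h ∈ Icc (q.1 - ε₂) (q.1 + ε₂), ((h, (w (σ h)).2.2) : Q2) = (w (σ h)).2 := by
    intro h hh
    have := (hσ3 h (hsub2 hh)).2.1
    exact Prod.ext this.symm rfl
  refine ⟨ε₂, hε₂0, fun x => (w (σ x)).2.2, ⟨by linarith, ?_, ?_, ?_⟩, ?_⟩
  · intro h hh
    rw [hpt2 h hh]
    have hm := (hσ3 h (hsub2 hh)).1
    exact (hw (σ h) (hsub hm) (hloc _ hm)).2.1.le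
  · intro h hh
    rw [hpt2 h hh]
    have hm := (hσ3 h (hsub2 hh)).1
    exact (hw (σ h) (hsub hm) (hloc _ hm)).2.2.2.1
  · intro h hh
    rw [hpt2 h hh]
    exact ((hσ3 h (hsub2 hh)).2.2).mono hsub2
  · have h1 := (hσ1 s₁ hs₁m).2
    have h2 : (w s₁).2.1 = q.1 := by rw [hw2]
    rw [h2] at h1
    show (w (σ q.1)).2.2 = q.2
    rw [h1, hw2]

end VeniceMask
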