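import Pool.Agent.helper75.VM.Geo

/-!
# MP_509a24_an, module MB1: metric algebra
-/

open Set Filter Topology Bundle
open scoped ContDiff Manifold

namespace VeniceMask

universe u

variable {M : Type u} [TopologicalSpace M] [ChartedSpace (EuclideanHalfSpace 3) M]
  [IsManifold (𝓡∂ 3) ∞ M] (g : Metric3 M)

private theorem inner_self_nonneg' (x : M) (v : TS x) : 0 ≤ g.inner x v v := by
  by_cases hv : v = 0
  · subst hv; simp
  · exact (g.pos x v hv).le

private theorem inner_symm' (x : M) (v w : TS x) : g.inner x v w = g.inner x w v := g.symm x v w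

theorem nrm_nonneg (x : M) (v : TS x) : 0 ≤ nrm g x v := Real.sqrt_nonneg _

theorem nrm_sq (x : M) (v : TS x) : nrm g x v ^ 2 = g.inner x v v :=
  Real.sq_sqrt (inner_self_nonneg' g x v)

theorem nrm_eq_zero (x : M) (v : TS x) : nrm g x v = 0 ↔ v = 0 := by
  constructor
  · intro h
    by_contra hv
    have h1 := g.pos x v hv
    rw [← nrm_sq, h] at h1
    norm_num at h1
  · rintro rfl
    simp [nrm]

theorem nrm_smul (x : M) (c : ℝ) (v : TS x) : nrm g x (c • v) = |c| * nrm g x v := by
  unfold nrm
  have : g.inner x (c • v) (c • v) = c ^ 2 * g.inner x v v := by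
    simp only [map_smul, ContinuousLinearMap.smul_apply, smul_eq_mul]
    ring
  rw [this, Real.sqrt_mul (sq_nonneg c), Real.sqrt_sq_eq_abs]

/-- Cauchy-Schwarz -/
private theorem cs' (x : M) (v w : TS x) :
    (g.inner x v w) ^ 2 ≤ g.inner x v v * g.inner x w w := by
  by_cases hw : w = 0
  · subst hw; simp
  have hpos := g.pos x w hw
  set a := g.inner x v v with ha
  set b := g.inner x v w with hb
  set c := g.inner x w w with hc
  have h := inner_self_nonneg' g x (c • v - b • w)
  have e : g.inner x (c • v - b • w) (c • v - b • w) = c * (a * c - b ^ 2) := by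
    simp only [map_sub, map_smul, ContinuousLinearMap.sub_apply, ContinuousLinearMap.smul_apply,
      smul_eq_mul]
    rw [inner_symm' g x w v, ← ha, ← hb, ← hc]
    ring
  rw [e] at h
  have h2 : 0 ≤ a * c - b ^ 2 := by
    by_contra hneg
    push Not at hneg
    have : c * (a * c - b ^ 2) < 0 := mul_neg_of_pos_of_neg hpos hneg
    linarith
  linarith

theorem inner_le_nrm (x : M) (v w : TS x) : |g.inner x v w| ≤ nrm g x v * nrm g x w := by
  unfold nrm
  rw [← Real.sqrt_mul (inner_self_nonneg' g x v)]
  exact Real.abs_le_sqrt (cs' g x v w)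

theorem nrm_add_le (x : M) (v w : TS x) : nrm g x (v + w) ≤ nrm g x v + nrm g x w := by
  have h0 : 0 ≤ nrm g x v + nrm g x w := add_nonneg (nrm_nonneg g x v) (nrm_nonneg g x w)
  have h1 := nrm_sq g x (v + w)
  have e : g.inner x (v + w) (v + w) = g.inner x v v + 2 * g.inner x v w + g.inner x w w := by
    simp only [map_add, ContinuousLinearMap.add_apply]
    rw [inner_symm' g x w v]; ring
  have h2 := (abs_le.mp (inner_le_nrm g x v w)).2
  have h3 := nrm_sq g x v
  have h4 := nrm_sq g x w
  refine le_of_sq_le_sq ?_ h0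
  rw [h1, e]
  nlinarith

theorem area_nonneg (x : M) (u v : TS x) : 0 ≤ area g x u v := Real.sqrt_nonneg _

private theorem area_sq' (x : M) (u v : TS x) :
    area g x u v ^ 2 = g.inner x u u * g.inner x v v - (g.inner x u v) ^ 2 :=
  Real.sq_sqrt (by have := cs' g x u v; linarith)

theorem area_le (x : M) (u v : TS x) : area g x u v ≤ nrm g x u * nrm g x v := by
  unfold area nrm
  rw [← Real.sqrt_mul (inner_self_nonneg' g x u)]
  apply Real.sqrt_le_sqrt
  linarith [sq_nonneg (g.inner x u v)]

theorem area_of_inner_zero (x : M) (u v : TS x) (h : g.inner x u v = 0) :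
    area g x u v = nrm g x u * nrm g x v := by
  unfold area nrm
  rw [← Real.sqrt_mul (inner_self_nonneg' g x u), h]
  simp

theorem area_add_smul (x : M) (u v : TS x) (c : ℝ) : area g x u (v + c • u) = area g x u v := by
  unfold area
  congr 1
  simp only [map_add, map_smul, ContinuousLinearMap.add_apply, ContinuousLinearMap.smul_apply,
    smul_eq_mul]
  rw [inner_symm' g x v u]
  ring

theorem area_smul_right (x : M) (u v : TS x) (c : ℝ) :
    area g x u (c • v) = |c| * area g x u v := by
  unfold area
  have : g.inner x u u * g.inner x (c • v) (c • v) - (g.inner x u (c • v)) ^ 2 =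
      c ^ 2 * (g.inner x u u * g.inner x v v - (g.inner x u v) ^ 2) := by
    simp only [map_smul, ContinuousLinearMap.smul_apply, smul_eq_mul]
    ring
  rw [this, Real.sqrt_mul (sq_nonneg c), Real.sqrt_sq_eq_abs]

theorem area_eq_zero (x : M) (u v : TS x) (hu : u ≠ 0) (h : area g x u v = 0) :
    ∃ c : ℝ, v = c • u := by
  have hpos := g.pos x u hu
  have h1 := area_sq' g x u v
  rw [h] at h1
  set a := g.inner x u u with ha
  set b := g.inner x u v with hb
  set c := g.inner x v v with hc
  refine ⟨b / a, ?_⟩
  have e : g.inner x (v - (b / a) • u) (v - (b / a) • u) = c - b ^ 2 / a := by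
    simp only [map_sub, map_smul, ContinuousLinearMap.sub_apply, ContinuousLinearMap.smul_apply,
      smul_eq_mul]
    rw [inner_symm' g x v u, ← ha, ← hb, ← hc]
    field_simp
    ring
  have e2 : c - b ^ 2 / a = 0 := by
    field_simp
    linarith
  rw [e2] at e
  by_contra hne
  have h3 := g.pos x (v - (b / a) • u) (sub_ne_zero.mpr hne)
  rw [e] at h3
  exact lt_irrefl _ h3

end VeniceMask
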