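import Pool.Agent.helper75.VM.M_MB1

/-!
# MP_509a24_an, module MB2: convergence in the tangent bundle
-/

open Set Filter Topology Bundle
open scoped ContDiff Manifold

namespace VeniceMask

universe u

variable {M : Type u} [TopologicalSpace M] [ChartedSpace (EuclideanHalfSpace 3) M]
  [IsManifold (𝓡∂ 3) ∞ M] (g : Metric3 M)

theorem MB2_gen {B F : Type*} {E : B → Type*} [TopologicalSpace B] [TopologicalSpace F]
    [∀ b, TopologicalSpace (E b)] [TopologicalSpace (TotalSpace F E)] [FiberBundle F E]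
    {ι : Type*} {l : Filter ι} {b : ι → B} {v : ∀ i, E (b i)} {x : B} {v₀ : E x} :
    Tendsto (fun i => (⟨b i, v i⟩ : TotalSpace F E)) l (𝓝 (⟨x, v₀⟩ : TotalSpace F E)) ↔
      Tendsto b l (𝓝 x) ∧
      Tendsto (fun i => (trivializationAt F E x (⟨b i, v i⟩ : TotalSpace F E)).2) l
        (𝓝 (trivializationAt F E x (⟨x, v₀⟩ : TotalSpace F E)).2) :=
  (trivializationAt F E x).tendsto_nhds_iff
    (z := (⟨x, v₀⟩ : TotalSpace F E))
    ((Trivialization.mem_source _).2 (FiberBundle.mem_baseSet_trivializationAt F E x))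

/-- the preferred trivialisation of the tangent bundle at `x`. -/
noncomputable abbrev MB2_triv (x : M) :
    Trivialization E3 (π E3 (fun y : M => TangentSpace (𝓡∂ 3) y)) :=
  trivializationAt E3 (fun y : M => TangentSpace (𝓡∂ 3) y) x

theorem MB2_tendsto_iff {ι : Type*} {l : Filter ι} {b : ι → M} {v : ∀ i, TS (b i)} {x : M}
    {v₀ : TS x} : Tendsto (fun i => (⟨b i, v i⟩ : TM M)) l (𝓝 (⟨x, v₀⟩ : TM M)) ↔
      Tendsto b l (𝓝 x) ∧
      Tendsto (fun i => (MB2_triv x (⟨b i, v i⟩ : TM M)).2) l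
        (𝓝 (MB2_triv x (⟨x, v₀⟩ : TM M)).2) :=
  MB2_gen (F := E3) (E := fun y : M => TangentSpace (𝓡∂ 3) y)

theorem tendsto_base {ι : Type*} {l : Filter ι} {b : ι → M} {v : ∀ i, TS (b i)} {x : M}
    {v₀ : TS x} (hv : Tendsto (fun i => (⟨b i, v i⟩ : TM M)) l (𝓝 (⟨x, v₀⟩ : TM M))) :
    Tendsto b l (𝓝 x) := (MB2_tendsto_iff.1 hv).1

theorem tendsto_inner {ι : Type*} {l : Filter ι} {b : ι → M} {v w : ∀ i, TS (b i)} {x : M}
    {v₀ w₀ : TS x} (hv : Tendsto (fun i => (⟨b i, v i⟩ : TM M)) l (𝓝 (⟨x, v₀⟩ : TM M)))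
    (hw : Tendsto (fun i => (⟨b i, w i⟩ : TM M)) l (𝓝 (⟨x, w₀⟩ : TM M))) :
    Tendsto (fun i => g.inner (b i) (v i) (w i)) l (𝓝 (g.inner x v₀ w₀)) := by
  let _ : TopologicalSpace (Option ι) := nhdsAdjoint none (l.map some)
  let bb : Option ι → M := fun o => o.elim x b
  let vv : ∀ o, TS (bb o) := fun o => match o with
    | none => v₀
    | some i => v i
  let ww : ∀ o, TS (bb o) := fun o => match o with
    | none => w₀
    | some i => w i
  have hnh : 𝓝 (none : Option ι) = pure none ⊔ l.map some := nhds_nhdsAdjoint_same _ _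
  have hbb : ContinuousAt bb none := by
    rw [ContinuousAt, hnh, tendsto_sup, tendsto_map'_iff]
    exact ⟨tendsto_pure_nhds _ _, tendsto_base hv⟩
  have hvv : ContinuousAt (fun o => (⟨bb o, vv o⟩ : TM M)) none := by
    rw [ContinuousAt, hnh, tendsto_sup, tendsto_map'_iff]
    exact ⟨tendsto_pure_nhds _ _, hv⟩
  have hww : ContinuousAt (fun o => (⟨bb o, ww o⟩ : TM M)) none := by
    rw [ContinuousAt, hnh, tendsto_sup, tendsto_map'_iff]
    exact ⟨tendsto_pure_nhds _ _, hw⟩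
  have key : ContinuousAt (fun o => TotalSpace.mk' ℝ (E := Bundle.Trivial M ℝ) (bb o)
      (g.inner (bb o) (vv o) (ww o))) none :=
    (ContinuousAt.comp (x := (none : Option ι)) (f := bb) g.continuous.continuousAt
      hbb).clm_bundle_apply₂ (F₁ := E3) (F₂ := E3) hvv hww
  simp only [FiberBundle.continuousAt_totalSpace] at key
  have key2 := key.2
  rw [ContinuousAt, hnh, tendsto_sup, tendsto_map'_iff] at key2
  exact key2.2

theorem tendsto_nrm {ι : Type*} {l : Filter ι} {b : ι → M} {v : ∀ i, TS (b i)} {x : M}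
    {v₀ : TS x} (hv : Tendsto (fun i => (⟨b i, v i⟩ : TM M)) l (𝓝 (⟨x, v₀⟩ : TM M))) :
    Tendsto (fun i => nrm g (b i) (v i)) l (𝓝 (nrm g x v₀)) :=
  (Real.continuous_sqrt.tendsto _).comp (tendsto_inner g hv hv)

theorem tendsto_area {ι : Type*} {l : Filter ι} {b : ι → M} {v w : ∀ i, TS (b i)} {x : M}
    {v₀ w₀ : TS x} (hv : Tendsto (fun i => (⟨b i, v i⟩ : TM M)) l (𝓝 (⟨x, v₀⟩ : TM M)))
    (hw : Tendsto (fun i => (⟨b i, w i⟩ : TM M)) l (𝓝 (⟨x, w₀⟩ : TM M))) :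
    Tendsto (fun i => area g (b i) (v i) (w i)) l (𝓝 (area g x v₀ w₀)) :=
  (Real.continuous_sqrt.tendsto _).comp
    (((tendsto_inner g hv hv).mul (tendsto_inner g hw hw)).sub ((tendsto_inner g hv hw).pow 2))

theorem MB2_add (x : M) {y : M} (hy : y ∈ (MB2_triv x).baseSet) (v w : TS y) :
    (MB2_triv x (⟨y, v + w⟩ : TM M)).2 =
      (MB2_triv x (⟨y, v⟩ : TM M)).2 + (MB2_triv x (⟨y, w⟩ : TM M)).2 :=
  ((MB2_triv x).linear ℝ hy).map_add v w

theorem MB2_smul (x : M) {y : M} (hy : y ∈ (MB2_triv x).baseSet) (c : ℝ) (v : TS y) :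
    (MB2_triv x (⟨y, c • v⟩ : TM M)).2 = c • (MB2_triv x (⟨y, v⟩ : TM M)).2 :=
  ((MB2_triv x).linear ℝ hy).map_smul c v

theorem MB2_mem_base (x : M) : x ∈ (MB2_triv x).baseSet :=
  FiberBundle.mem_baseSet_trivializationAt' x

theorem MB2_ev {ι : Type*} {l : Filter ι} {b : ι → M} {x : M} (hb : Tendsto b l (𝓝 x)) :
    ∀ᶠ i in l, b i ∈ (MB2_triv x).baseSet :=
  hb ((MB2_triv x).open_baseSet.mem_nhds (MB2_mem_base x))

theorem tendsto_add {ι : Type*} {l : Filter ι} {b : ι → M} {v w : ∀ i, TS (b i)} {x : M}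
    {v₀ w₀ : TS x} (hv : Tendsto (fun i => (⟨b i, v i⟩ : TM M)) l (𝓝 (⟨x, v₀⟩ : TM M)))
    (hw : Tendsto (fun i => (⟨b i, w i⟩ : TM M)) l (𝓝 (⟨x, w₀⟩ : TM M))) :
    Tendsto (fun i => (⟨b i, v i + w i⟩ : TM M)) l (𝓝 (⟨x, v₀ + w₀⟩ : TM M)) := by
  rw [MB2_tendsto_iff] at hv hw ⊢
  refine ⟨hv.1, ?_⟩
  rw [MB2_add x (MB2_mem_base x)]
  refine (hv.2.add hw.2).congr' ?_
  filter_upwards [MB2_ev hv.1] with i hi
  exact (MB2_add x hi _ _).symm

theorem tendsto_smul {ι : Type*} {l : Filter ι} {b : ι → M} {v : ∀ i, TS (b i)} {x : M}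
    {v₀ : TS x} {c : ι → ℝ} {c₀ : ℝ} (hc : Tendsto c l (𝓝 c₀))
    (hv : Tendsto (fun i => (⟨b i, v i⟩ : TM M)) l (𝓝 (⟨x, v₀⟩ : TM M))) :
    Tendsto (fun i => (⟨b i, c i • v i⟩ : TM M)) l (𝓝 (⟨x, c₀ • v₀⟩ : TM M)) := by
  rw [MB2_tendsto_iff] at hv ⊢
  refine ⟨hv.1, ?_⟩
  rw [MB2_smul x (MB2_mem_base x)]
  refine (hc.smul hv.2).congr' ?_
  filter_upwards [MB2_ev hv.1] with i hi
  exact (MB2_smul x hi _ _).symm

/-- the trivialisation at `x` is locally bounded -/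
theorem MB2_bound (x : M) : ∃ C > 0, ∀ᶠ y in 𝓝 x, ∀ v : TS y,
    ‖(MB2_triv x (⟨y, v⟩ : TM M)).2‖ ≤ C * nrm g y v := by
  let _ : RiemannianBundle (fun y : M => TangentSpace (𝓡∂ 3) y) := ⟨g.toRiemannianMetric⟩
  obtain ⟨C, hC, h⟩ := eventually_norm_trivializationAt_lt E3
    (fun y : M => TangentSpace (𝓡∂ 3) y) x
  refine ⟨C, hC, ?_⟩
  filter_upwards [h, (MB2_triv x).open_baseSet.mem_nhds (MB2_mem_base x)] with y hy hyb v
  have h1 := ((MB2_triv x).continuousLinearMapAt ℝ y).le_opNorm v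
  have h2 : (MB2_triv x).continuousLinearMapAt ℝ y v = (MB2_triv x (⟨y, v⟩ : TM M)).2 := by
    rw [Trivialization.continuousLinearMapAt_apply, Trivialization.linearMapAt_apply, if_pos hyb]
  rw [h2] at h1
  have h3 : ‖v‖ = nrm g y v := norm_eq_sqrt_real_inner v
  rw [h3] at h1
  refine h1.trans (mul_le_mul_of_nonneg_right hy.le (nrm_nonneg g y v))

theorem compact_ball {K : Set M} (hK : IsCompact K) (C : ℝ) :
    IsCompact {p : TM M | p.1 ∈ K ∧ nrm g p.1 p.2 ≤ C} := by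
  rw [isCompact_iff_ultrafilter_le_nhds]
  intro f hf
  have hfK : (f.map (fun p : TM M => p.1) : Filter M) ≤ 𝓟 K := by
    rw [Ultrafilter.coe_map, le_principal_iff, mem_map]
    exact Filter.mem_of_superset (le_principal_iff.1 hf) (fun p hp => hp.1)
  obtain ⟨x, hxK, hx⟩ := (isCompact_iff_ultrafilter_le_nhds.1 hK) (f.map (fun p : TM M => p.1)) hfK
  have hbase : Tendsto (fun p : TM M => p.1) f (𝓝 x) := hx
  obtain ⟨C', hC', hb⟩ := MB2_bound g x
  -- the coordinate is bounded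
  have hball : ∀ᶠ p : TM M in (f : Filter (TM M)),
      (MB2_triv x p).2 ∈ Metric.closedBall (0 : E3) (C' * C) := by
    filter_upwards [hbase hb, le_principal_iff.1 hf] with p hp1 hp2
    rw [mem_closedBall_zero_iff]
    exact (hp1 p.2).trans (mul_le_mul_of_nonneg_left hp2.2 hC'.le)
  obtain ⟨w, -, hw⟩ := (isCompact_iff_ultrafilter_le_nhds.1
    (isCompact_closedBall (0 : E3) (C' * C))) (f.map (fun p : TM M => (MB2_triv x p).2))
    (by rw [Ultrafilter.coe_map, le_principal_iff, mem_map]; exact hball)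
  have hcoord : Tendsto (fun p : TM M => (MB2_triv x p).2) f (𝓝 w) := hw
  let v₀ : TS x := (MB2_triv x).symm x w
  have hv₀ : (MB2_triv x (⟨x, v₀⟩ : TM M)).2 = w := by
    have := (MB2_triv x).apply_mk_symm (MB2_mem_base x) w
    rw [this]
  have hconv : Tendsto (fun p : TM M => (⟨p.1, p.2⟩ : TM M)) f (𝓝 (⟨x, v₀⟩ : TM M)) := by
    rw [MB2_tendsto_iff, hv₀]
    exact ⟨hbase, hcoord⟩
  refine ⟨⟨x, v₀⟩, ⟨hxK, ?_⟩, hconv⟩
  refine le_of_tendsto (tendsto_nrm g hconv) ?_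
  filter_upwards [le_principal_iff.1 hf] with p hp using hp.2

theorem t2_tm [T2Space M] : T2Space (TM M) := by
  rw [t2_iff_ultrafilter]
  rintro ⟨x, v⟩ ⟨y, w⟩ f hx hy
  have hx' : Tendsto (fun p : TM M => (⟨p.1, p.2⟩ : TM M)) f (𝓝 (⟨x, v⟩ : TM M)) := hx
  have hy' : Tendsto (fun p : TM M => (⟨p.1, p.2⟩ : TM M)) f (𝓝 (⟨y, w⟩ : TM M)) := hy
  have hxy : x = y := tendsto_nhds_unique (tendsto_base hx') (tendsto_base hy')
  subst hxy
  have h1 := (MB2_tendsto_iff.1 hx').2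
  have h2 := (MB2_tendsto_iff.1 hy').2
  have h3 := tendsto_nhds_unique h1 h2
  have hinj : (⟨x, v⟩ : TM M) = ⟨x, w⟩ := by
    apply (MB2_triv x).injOn (by exact (Trivialization.mem_source _).2 (MB2_mem_base x))
      (by exact (Trivialization.mem_source _).2 (MB2_mem_base x))
    apply Prod.ext
    · exact ((MB2_triv x).coe_fst' (x := (⟨x, v⟩ : TM M)) (MB2_mem_base x)).trans
        ((MB2_triv x).coe_fst' (x := (⟨x, w⟩ : TM M)) (MB2_mem_base x)).symm
    · exact h3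
  exact hinj

end VeniceMask
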