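import Pool.Agent.helper75.VM.M_RT
import Pool.Agent.helper75.VM.M_BX2

/-!
# MP_509a24_an, module SD: saddles
-/

open Set Filter Topology Bundle
open scoped ContDiff Manifold

namespace VeniceMask

universe u

variable {M : Type u} [TopologicalSpace M] [ChartedSpace (EuclideanHalfSpace 3) M]
  [IsManifold (𝓡∂ 3) ∞ M] [CompactSpace M] [T2Space M]
  {g : Metric3 M} {X : ∀ x : M, TS x} {φ : ℝ → M → M} {E F : ∀ x : M, Submodule ℝ (TS x)}

/-! ### transport along equalities of base points -/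

omit [IsManifold (𝓡∂ 3) ∞ M] [CompactSpace M] [T2Space M] in
theorem SD_mem_cast {S : ∀ x : M, Submodule ℝ (TS x)} {x y : M} (h : x = y) {v : E3}
    (hv : (show TS x from v) ∈ S x) : (show TS y from v) ∈ S y := by
  subst h; exact hv

omit [CompactSpace M] [T2Space M] in
theorem SD_area_cast {x y : M} (h : x = y) (u v : E3) :
    area g x (show TS x from u) (show TS x from v) =
      area g y (show TS y from u) (show TS y from v) := by
  subst h; rfl

omit [CompactSpace M] [T2Space M] in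
theorem SD_nrm_cast {x y : M} (h : x = y) (u : E3) :
    nrm g x (show TS x from u) = nrm g y (show TS y from u) := by
  subst h; rfl

omit [IsManifold (𝓡∂ 3) ∞ M] [CompactSpace M] [T2Space M] in
theorem SD_X_cast {x y : M} (h : x = y) : (show E3 from X x) = (show E3 from X y) := by
  subst h; rfl

omit [IsManifold (𝓡∂ 3) ∞ M] [CompactSpace M] [T2Space M] in
theorem SD_D_cast {x y : M} (h : x = y) (t : ℝ) (v : E3) :
    (show E3 from D φ t x (show TS x from v)) = (show E3 from D φ t y (show TS y from v)) := by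
  subst h; rfl

/-! ### the derivative at a periodic point -/

theorem SD_coeffs (H : Hyp g X φ E F) {p : M} (hp : p ∈ Ld φ E 1) {f e : TS p} (hf : f ∈ F p)
    (he : e ∈ E p) (hli : LinearIndependent ℝ ![X p, f, e]) {t : ℝ} (ht : 0 ≤ t)
    (hper : φ t p = p) : ∃ a b c : ℝ,
      (show E3 from D φ t p f) = a • (show E3 from f) + c • (show E3 from X p) ∧
      (show E3 from D φ t p e) = b • (show E3 from e) := by
  have hX := X_mem_F H hp.1
  have hfin := finrank_F H hp.1
  rw [hp.2] at hfin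
  have hF2 : Module.finrank ℝ (F p) = 2 := by omega
  have hli2 : LinearIndependent ℝ ![X p, f] := by
    have h := hli.comp ![(0 : Fin 3), 1] (by decide)
    convert h using 1
    funext i
    fin_cases i <;> rfl
  have he0 : e ≠ 0 := hli.ne_zero 2
  have : FiniteDimensional ℝ (TS p) := inferInstanceAs (FiniteDimensional ℝ E3)
  have hspanF : Submodule.span ℝ (Set.range ![X p, f]) = F p := by
    refine Submodule.eq_of_le_of_finrank_le ?_ ?_
    · rw [Submodule.span_le]
      rintro _ ⟨i, rfl⟩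
      fin_cases i
      · exact hX
      · exact hf
    · rw [hF2, finrank_span_eq_card hli2]; simp
  have hspanE : Submodule.span ℝ {e} = E p := by
    refine Submodule.eq_of_le_of_finrank_le ?_ ?_
    · rw [Submodule.span_le, Set.singleton_subset_iff]; exact he
    · rw [hp.2, finrank_span_singleton he0]
  have h1 : (show TS p from D φ t p f) ∈ F p := by
    refine SD_mem_cast hper ?_
    have := H.split.invF p hp.1 t ht
    rw [← this]
    exact ⟨f, hf, rfl⟩
  have h2 : (show TS p from D φ t p e) ∈ E p := by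
    refine SD_mem_cast hper ?_
    have := H.split.invE p hp.1 t ht
    rw [← this]
    exact ⟨e, he, rfl⟩
  rw [← hspanF] at h1
  rw [← hspanE] at h2
  have hr : Set.range ![X p, f] = {X p, f} := by
    rw [Matrix.range_cons, Matrix.range_cons, Matrix.range_empty]
    rw [Set.union_empty]; rfl
  rw [hr, Submodule.mem_span_pair] at h1
  rw [Submodule.mem_span_singleton] at h2
  obtain ⟨c, a, h1⟩ := h1
  obtain ⟨b, h2⟩ := h2
  refine ⟨a, b, c, ?_, h2.symm⟩
  rw [add_comm]
  exact h1.symm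

theorem SD_b_ne (H : Hyp g X φ E F) {p : M} (hp : p ∈ Ld φ E 1) {f e : TS p}
    (hli : LinearIndependent ℝ ![X p, f, e]) {t : ℝ} (ht : 0 ≤ t) {b : ℝ}
    (hb : (show E3 from D φ t p e) = b • (show E3 from e)) : b ≠ 0 := by
  rintro rfl
  have he0 : e ≠ 0 := hli.ne_zero 2
  have hbij := D_bijective H.c1 H.inward H.flow ht hp.1
  apply he0
  apply hbij.1
  rw [map_zero]
  have : (show E3 from D φ t p e) = 0 := by rw [hb, zero_smul]
  exact this

theorem SD_b_le {p : M} (hp : p ∈ Ld φ E 1) {f e : TS p}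
    (he : e ∈ E p) (hli : LinearIndependent ℝ ![X p, f, e]) {C l : ℝ}
    (hC : ∀ x ∈ maxInv φ, ∀ t : ℝ, 0 ≤ t → ∀ e ∈ E x,
      nrm g (φ t x) (D φ t x e) ≤ C * Real.exp (-l * t) * nrm g x e) {t : ℝ} (ht : 0 ≤ t)
    (hper : φ t p = p) {b : ℝ} (hb : (show E3 from D φ t p e) = b • (show E3 from e)) :
    |b| ≤ C * Real.exp (-l * t) := by
  have he0 : e ≠ 0 := hli.ne_zero 2
  have h1 := hC p hp.1 t ht e he
  have h2 : nrm g (φ t p) (D φ t p e) = |b| * nrm g p e := by
    have h3 := SD_nrm_cast (g := g) hper (show E3 from D φ t p e)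
    have h4 : nrm g (φ t p) (D φ t p e) = nrm g p (show TS p from b • (show E3 from e)) := by
      rw [← hb]; exact h3
    rw [h4]
    exact nrm_smul g p b e
  rw [h2] at h1
  have h5 : 0 < nrm g p e :=
    lt_of_le_of_ne (nrm_nonneg g p e) fun h => he0 ((nrm_eq_zero g p e).1 h.symm)
  exact le_of_mul_le_mul_right h1 h5

theorem SD_a_ge (H : Hyp g X φ E F) {p : M} (hp : p ∈ Ld φ E 1) {f e : TS p}
    (hf : f ∈ F p) (hli : LinearIndependent ℝ ![X p, f, e]) {K l : ℝ}
    (hK : ∀ x ∈ maxInv φ, ∀ t : ℝ, 0 ≤ t → ∀ u ∈ F x, ∀ v ∈ F x,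
      K⁻¹ * Real.exp (l * t) * area g x u v ≤ area g (φ t x) (D φ t x u) (D φ t x v))
    {t : ℝ} (ht : 0 ≤ t) (hper : φ t p = p) {a c : ℝ}
    (ha : (show E3 from D φ t p f) = a • (show E3 from f) + c • (show E3 from X p)) :
    K⁻¹ * Real.exp (l * t) ≤ |a| := by
  have hX := X_mem_F H hp.1
  have hX0 : X p ≠ 0 := hli.ne_zero 0
  have hli2 : LinearIndependent ℝ ![X p, f] := by
    have h := hli.comp ![(0 : Fin 3), 1] (by decide)
    convert h using 1
    funext i
    fin_cases i <;> rfl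
  have h1 := hK p hp.1 t ht (X p) hX f hf
  have h2 : area g (φ t p) (D φ t p (X p)) (D φ t p f) = |a| * area g p (X p) f := by
    rw [D_X H.c1 H.inward H.flow ht p]
    have h3 := SD_area_cast (g := g) hper (show E3 from X (φ t p)) (show E3 from D φ t p f)
    have h4 : area g (φ t p) (X (φ t p)) (D φ t p f) =
        area g p (show TS p from X p) (show TS p from
          a • (show E3 from f) + c • (show E3 from X p)) := by
      rw [← ha, ← SD_X_cast (X := X) hper]; exact h3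
    rw [h4]
    have h5 := area_add_smul g p (X p) (a • f) c
    have h6 := area_smul_right g p (X p) f a
    rw [← h6, ← h5]
    rfl
  rw [h2] at h1
  have h5 : 0 < area g p (X p) f := by
    refine lt_of_le_of_ne (area_nonneg g p (X p) f) fun h => ?_
    obtain ⟨c', hc'⟩ := area_eq_zero g p (X p) f hX0 h.symm
    rw [LinearIndependent.pair_iff] at hli2
    have := hli2 c' (-1) (by rw [hc']; simp)
    simp at this
  exact le_of_mul_le_mul_right h1 h5

theorem SD_iter (H : Hyp g X φ E F) {p : M} {T : ℝ} (hT : 0 < T) (hper : φ T p = p) (k : ℕ) :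
    φ (k * T) p = p := by
  induction k with
  | zero => simpa using H.flow.zero p
  | succ n ih =>
    have : ((n + 1 : ℕ) : ℝ) * T = n * T + T := by push_cast; ring
    rw [this, H.flow.add _ _ (by positivity) hT.le, hper, ih]

theorem exists_saddle (H : Hyp g X φ E F) {O : Set M} {p : M} {T : ℝ}
    (hO : (aflow H 1).IsPer O p T) : ∃ B : Box (aflow H 1), GoodBox E F B ∧ B.pt 0 = p ∧
      Nonempty (Saddle B O) := by
  have hT := hO.T_pos
  have hp : p ∈ Ld φ E 1 := hO.mem
  have hX : X p ≠ 0 := fun h => hO.reg ((aflow_Sing H 1 hp).2 h)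
  have hper1 : φ T p = p := by
    have h := hO.per
    rw [aflow_G, G2_nonneg hT.le] at h
    exact h
  have hper := SD_iter H hT hper1
  obtain ⟨f, hf, e, he, hli⟩ := exists_frame H hp hX
  obtain ⟨B, hB, hBp, -, ρ1, hρ1, hD⟩ := exists_flowBox H 1 hp hX f e hli (N := univ) univ_mem
  obtain ⟨C, hC0, l, hl, hC⟩ := H.contr
  obtain ⟨K, hK0, l', hl', hK⟩ := H.sect
  -- choice of `k`
  have ev1 : Tendsto (fun k : ℕ => (k : ℝ) * T) atTop atTop :=
    tendsto_natCast_atTop_atTop.atTop_mul_const hT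
  have ev2 : Tendsto (fun k : ℕ => K⁻¹ * Real.exp (l' * (k * T))) atTop atTop := by
    refine Tendsto.const_mul_atTop (by positivity) (Real.tendsto_exp_atTop.comp ?_)
    exact Tendsto.const_mul_atTop hl' ev1
  have ev3 : Tendsto (fun k : ℕ => C * Real.exp (-l * (k * T))) atTop (𝓝 (C * 0)) := by
    refine Tendsto.const_mul _ (Real.tendsto_exp_atBot.comp ?_)
    exact Tendsto.const_mul_atTop_of_neg (by linarith) ev1
  rw [mul_zero] at ev3
  obtain ⟨k, hk1, hk2, hk3⟩ := ((ev1.eventually_gt_atTop (2 * B.δ)).and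
    ((ev2.eventually_ge_atTop 4).and
      (ev3.eventually (Iic_mem_nhds (show (0 : ℝ) < 1 / 4 by norm_num))))).exists
  have hk3' : C * Real.exp (-l * (k * T)) ≤ 1 / 4 := hk3
  have hkT : (0 : ℝ) ≤ k * T := by positivity
  obtain ⟨a, b, c, ha, hb⟩ := SD_coeffs H hp hf he hli hkT (hper k)
  have hb0 := SD_b_ne H hp hli hkT hb
  have hb1 := (SD_b_le hp he hli hC hkT (hper k) hb).trans hk3'
  have ha1 := hk2.trans (SD_a_ge H hp hf hli hK hkT (hper k) ha)
  -- the linear map
  let A : Q2 →L[ℝ] Q2 := (a • ContinuousLinearMap.fst ℝ ℝ ℝ).prod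
    (b • ContinuousLinearMap.snd ℝ ℝ ℝ)
  have hA' : ∀ x : Q2, A x = (a * x.1, b * x.2) := fun x => rfl
  have hε : 0 < |b| / 16 := by positivity
  have hBp' : B.e (0, 0) = p := hBp
  have hO' : (aflow H 1).IsPer O (B.pt 0) T := by rw [hBp]; exact hO
  have hA : ∀ q : Q2, ∃ τ : ℝ,
      (show E3 from D φ (k * T) (B.e (0, 0)) (DP B.e (0, 0) (0, q))) =
        DP B.e (0, 0) (τ, A q) := by
    intro q
    refine ⟨ρ1 * q.1 * c, ?_⟩
    have h1 := hD ((0 : ℝ), q)
    have h2 := hD (ρ1 * q.1 * c, A q)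
    have h3 := SD_D_cast (φ := φ) hBp' (k * T) (show E3 from DP B.e (0, 0) ((0 : ℝ), q))
    have h4 : (show E3 from D φ (k * T) p (show TS p from (show E3 from
        (0 : ℝ) • X p + (ρ1 * q.1) • f + (ρ1 * q.2) • e))) =
        (show E3 from (ρ1 * q.1 * c) • X p + (ρ1 * (A q).1) • f + (ρ1 * (A q).2) • e) := by
      have h5 : (D φ (k * T) p (show TS p from
        (0 : ℝ) • X p + (ρ1 * q.1) • f + (ρ1 * q.2) • e)) =
          (ρ1 * q.1) • D φ (k * T) p f + (ρ1 * q.2) • D φ (k * T) p e := by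
        rw [zero_smul, zero_add, map_add, map_smul, map_smul]
      have h6 : (show E3 from (ρ1 * q.1) • D φ (k * T) p f + (ρ1 * q.2) • D φ (k * T) p e) =
          (ρ1 * q.1) • (show E3 from D φ (k * T) p f) +
            (ρ1 * q.2) • (show E3 from D φ (k * T) p e) := rfl
      have h7 : (show E3 from (ρ1 * q.1 * c) • X p + (ρ1 * (A q).1) • f + (ρ1 * (A q).2) • e) =
        (ρ1 * q.1 * c) • (show E3 from X p) + (ρ1 * (a * q.1)) • (show E3 from f) +
          (ρ1 * (b * q.2)) • (show E3 from e) := rfl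
      rw [h7]
      refine Eq.trans (congrArg (fun z : TS (φ (k * T) p) => (show E3 from z)) h5) ?_
      refine h6.trans ?_
      rw [ha, hb]
      module
    refine h3.trans ?_
    rw [h1]
    refine h4.trans ?_
    exact h2.symm
  obtain ⟨δ₀, hδ₀, hδ₀B, hret⟩ := exists_ret H 1 B hB hO' k hk1 A hA hε
  obtain ⟨ρ₀, hρ₀, hρ₀1, hret⟩ := hret δ₀ hδ₀ le_rfl
  obtain ⟨ρ₂, hρ₂, hρ₂1, hslo⟩ := exists_slopes H hp hX f e hf he hli B hB hBp hρ1 hD
  set ρ := min ρ₀ ρ₂ with hρdef
  have hρ : 0 < ρ := lt_min hρ₀ hρ₂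
  obtain ⟨B', hB', hδ', he', hs', hsymm', hDP'⟩ :=
    flowBox_rescale B hB hρ ((min_le_left _ _).trans hρ₀1) hδ₀ hδ₀B
  obtain ⟨R, hRT, hlip, hder⟩ := hret ρ hρ (min_le_left _ _) B' hB' hδ' he' hs' hsymm'
  obtain ⟨B'', rfl, hG⟩ := hslo B' hB' (by rw [hδ']; exact hδ₀B) ρ hρ (min_le_right _ _) he' hDP'
  refine ⟨B'', hG, ?_, ⟨⟨R, a, b, |b| / 16, ha1, hb1, hε, by linarith, ?_, ?_⟩⟩⟩
  · show B''.e (0, 0) = p
    rw [he' (0, 0)]
    simpa using hBp'
  · intro q q' hq hq'
    exact hlip q q' hq hq'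
  · intro q hq hqL hPq
    obtain ⟨A', hA'd, hA'n, u, hu, hφu, hξ⟩ := hder q hq
    have hqL' : B''.e (0, q) ∈ Ld φ E 1 := hqL
    obtain ⟨τ, hτ⟩ := hξ (1, B''.m q)
    have hδpos : 0 ≤ B''.δ := B''.δ_pos.le
    -- the vector `(0, 1, m q)` is in `F`
    have hF1 : DP B''.e (0, q) ((0 : ℝ), ((1 : ℝ), B''.m q)) ∈ F (B''.e (0, q)) := by
      have := hG.slope 0 q (by simpa using hδpos) hq hqL 0 1
      rwa [mul_one] at this
    have hF2 : D φ (k * T) (B''.e (0, q)) (DP B''.e (0, q) ((0 : ℝ), ((1 : ℝ), B''.m q))) ∈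
        F (φ (k * T) (B''.e (0, q))) := by
      rw [← H.split.invF _ hqL'.1 _ hkT]
      exact ⟨_, hF1, rfl⟩
    have hF3 := SD_mem_cast (S := F) hφu (v := (show E3 from
      D φ (k * T) (B''.e (0, q)) (DP B''.e (0, q) ((0 : ℝ), ((1 : ℝ), B''.m q))))) hF2
    rw [hτ] at hF3
    have hL2 : B''.e (u, R.P q) ∈ Ld φ E 1 := by
      rw [← hφu, ← G2_nonneg (φ := φ) hkT (B''.e (0, q))]
      exact Ld_inv H 1 hqL' _
    have hF4 := (GoodBox.slope_iff H hG hu hPq hL2 (τ, A' (1, B''.m q))).1 hF3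
    refine ⟨A', (A' (1, B''.m q)).1, hA'd, ?_, ?_⟩
    · refine Prod.ext rfl ?_
      rw [mul_comm]
      exact hF4
    · intro x
      have h := (A' - A).le_opNorm x
      have h2 : (A' - A) x = A' x - (a * x.1, b * x.2) := rfl
      rw [h2] at h
      exact h.trans (mul_le_mul_of_nonneg_right hA'n (norm_nonneg _))

end VeniceMask
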