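import Pool.Agent.helper75.VM.M_UC1

/-!
# MP_509a24_an, module UC2: the time-`T` map in normalised charts
-/

set_option linter.unusedSectionVars false

open Set Filter Topology Bundle
open scoped ContDiff Manifold

namespace VeniceMask

universe u

variable {M : Type u} [TopologicalSpace M] [ChartedSpace (EuclideanHalfSpace 3) M]
  [IsManifold (𝓡∂ 3) ∞ M] [CompactSpace M] [T2Space M]
  {g : Metric3 M} {X : ∀ x : M, TS x} {φ : ℝ → M → M} {E F : ∀ x : M, Submodule ℝ (TS x)}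

/-- the derivative of the flow, as a map of `ℝ³` -/
noncomputable def UC2.Dm (φ : ℝ → M → M) (T : ℝ) (x : M) : E3 →L[ℝ] E3 :=
  (show E3 →L[ℝ] E3 from D φ T x)

/-- the base point of the chart at `x` -/
noncomputable def UC2.zb (Fr : Frames φ E F) (x : M) : E3 := (Fr.c (Fr.i x)).symm x

/-- the derivative of the chart at `x`, as a map of `ℝ³` -/
noncomputable def UC2.Cm (Fr : Frames φ E F) (x : M) : E3 →L[ℝ] E3 :=
  (show E3 →L[ℝ] E3 from DP (Fr.c (Fr.i x)) (UC2.zb Fr x))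

/-- the derivative of the normalised chart at `x`, as a map to `ℝ³` -/
noncomputable def UC2.Pm (Fr : Frames φ E F) (x : M) : V3 →L[ℝ] E3 :=
  (UC2.Cm Fr x).comp (Fr.N x : V3 →L[ℝ] E3)

open UC2

theorem UC2.nrm_congr (g : Metric3 M) {x y : M} (h : x = y) (v : E3) :
    nrm g x (show TS x from v) = nrm g y (show TS y from v) := by
  subst h; rfl

theorem UC2.mf_congr {f : M → M} {x y : M} (h : x = y) (v : E3) :
    (show E3 from mfderiv (𝓡∂ 3) (𝓡∂ 3) f x v) =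
      (show E3 from mfderiv (𝓡∂ 3) (𝓡∂ 3) f y v) := by
  subst h; rfl

section
variable (Fr : Frames φ E F) {x : M} (hx : x ∈ Ld φ E 1)
include hx

theorem UC2.mem_target : x ∈ (Fr.c (Fr.i x)).target := Fr.K_sub _ (Fr.mem x hx)

theorem UC2.zb_source : zb Fr x ∈ (Fr.c (Fr.i x)).source :=
  (Fr.c (Fr.i x)).map_target (mem_target Fr hx)

theorem UC2.c_zb : Fr.c (Fr.i x) (zb Fr x) = x :=
  (Fr.c (Fr.i x)).right_inv (mem_target Fr hx)

theorem UC2.Cm_bij : Function.Bijective (Cm Fr x) :=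
  IsC1Param.bij (Fr.c1 (Fr.i x)) (zb_source Fr hx)

theorem UC2.Pm_inj : Function.Injective (Pm Fr x) := by
  intro y y' h
  exact (Fr.N x).injective ((Cm_bij Fr hx).1 h)

theorem UC2.Pm_E (s : ℝ) : Pm Fr x (s, 0) ∈ (show Submodule ℝ E3 from E x) := Fr.N_E x hx s

theorem UC2.Pm_F (q : Q2) : Pm Fr x (0, q) ∈ (show Submodule ℝ E3 from F x) := Fr.N_F x hx q

end

theorem UC2.disj (H : Hyp g X φ E F) {x : M} (hx : x ∈ Ld φ E 1) {v : E3}
    (h1 : v ∈ (show Submodule ℝ E3 from E x)) (h2 : v ∈ (show Submodule ℝ E3 from F x)) :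
    v = 0 := by
  have h := (H.split.compl x hx.1).disjoint
  rw [Submodule.disjoint_def] at h
  exact h v h1 h2

theorem UC2.eq_E (H : Hyp g X φ E F) (Fr : Frames φ E F) {x : M} (hx : x ∈ Ld φ E 1) {y : V3}
    (h : Pm Fr x y ∈ (show Submodule ℝ E3 from E x)) : y.2 = 0 := by
  have h1 : Pm Fr x y = Pm Fr x (y.1, 0) + Pm Fr x (0, y.2) := by
    rw [← map_add]
    congr 1
    simp
  have h2 : Pm Fr x (0, y.2) = Pm Fr x y - Pm Fr x (y.1, 0) := by
    rw [h1]; abel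
  have h3 : Pm Fr x (0, y.2) = 0 := by
    apply disj H hx
    · rw [h2]
      exact Submodule.sub_mem _ h (Pm_E Fr hx _)
    · exact Pm_F Fr hx _
  have h4 := Pm_inj Fr hx (h3.trans (map_zero _).symm)
  simpa using h4

theorem UC2.eq_F (H : Hyp g X φ E F) (Fr : Frames φ E F) {x : M} (hx : x ∈ Ld φ E 1) {y : V3}
    (h : Pm Fr x y ∈ (show Submodule ℝ E3 from F x)) : y.1 = 0 := by
  have h1 : Pm Fr x y = Pm Fr x (y.1, 0) + Pm Fr x (0, y.2) := by
    rw [← map_add]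
    congr 1
    simp
  have h2 : Pm Fr x (y.1, 0) = Pm Fr x y - Pm Fr x (0, y.2) := by
    rw [h1]; abel
  have h3 : Pm Fr x (y.1, 0) = 0 := by
    apply disj H hx
    · exact Pm_E Fr hx _
    · rw [h2]
      exact Submodule.sub_mem _ h (Pm_F Fr hx _)
  have h4 := Pm_inj Fr hx (h3.trans (map_zero _).symm)
  simpa using h4

theorem UC2.Dm_E (H : Hyp g X φ E F) {T : ℝ} (hT : 0 ≤ T) {x : M} (hx : x ∈ Ld φ E 1) {v : E3}
    (h : v ∈ (show Submodule ℝ E3 from E x)) :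
    Dm φ T x v ∈ (show Submodule ℝ E3 from E (φ T x)) := by
  have h1 := H.split.invE x hx.1 T hT
  have h2 : D φ T x v ∈ E (φ T x) := by
    rw [← h1]
    exact Submodule.mem_map_of_mem h
  exact h2

theorem UC2.Dm_F (H : Hyp g X φ E F) {T : ℝ} (hT : 0 ≤ T) {x : M} (hx : x ∈ Ld φ E 1) {v : E3}
    (h : v ∈ (show Submodule ℝ E3 from F x)) :
    Dm φ T x v ∈ (show Submodule ℝ E3 from F (φ T x)) := by
  have h1 := H.split.invF x hx.1 T hT
  have h2 : D φ T x v ∈ F (φ T x) := by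
    rw [← h1]
    exact Submodule.mem_map_of_mem h
  exact h2

theorem UC2.mem_Ld (H : Hyp g X φ E F) {T : ℝ} (hT : 0 ≤ T) {x : M} (hx : x ∈ Ld φ E 1) :
    φ T x ∈ Ld φ E 1 := by
  have h := Ld_inv H 1 hx T
  rwa [G2_nonneg hT] at h

/-- the time-`T` map read in the charts at `x` and `φ T x` -/
noncomputable def UC2.R (Fr : Frames φ E F) (T : ℝ) (j j' : Fr.ι) (z : E3) : E3 :=
  (Fr.c j').symm (φ T (Fr.c j z))

theorem UC2.R_smooth (H : Hyp g X φ E F) (Fr : Frames φ E F) {T : ℝ} (hT : 0 ≤ T) {j j' : Fr.ι}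
    {z : E3} (hz : z ∈ (Fr.c j).source) (hz' : φ T (Fr.c j z) ∈ (Fr.c j').target) :
    ContDiffAt ℝ 1 (R Fr T j j') z :=
  (IsC1Param.rep (Fr.c1 j) (Fr.c1 j') hz (flow_smooth_at H.flow hT _) hz').1

theorem UC2.R_deriv (H : Hyp g X φ E F) (Fr : Frames φ E F) {T : ℝ} (hT : 0 ≤ T) {x : M}
    (hx : x ∈ Ld φ E 1) (y : V3) :
    Cm Fr (φ T x) (fderiv ℝ (R Fr T (Fr.i x) (Fr.i (φ T x))) (zb Fr x) (Fr.N x y)) =
      Dm φ T x (Pm Fr x y) := by
  have hx' := mem_Ld H hT hx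
  have h1 := (IsC1Param.rep (Fr.c1 (Fr.i x)) (Fr.c1 (Fr.i (φ T x))) (f := φ T) (z := zb Fr x)
    (zb_source Fr hx) (flow_smooth_at H.flow hT _) (by rw [c_zb Fr hx]; exact mem_target Fr hx')).2
    (Fr.N x y)
  rw [c_zb Fr hx] at h1
  exact h1

theorem UC2.Dm_inj (H : Hyp g X φ E F) {T : ℝ} (hT : 0 ≤ T) {x : M} (hx : x ∈ Ld φ E 1) :
    Function.Injective (Dm φ T x) :=
  (D_bijective H.c1 H.inward H.flow hT hx.1).1

theorem UC2.exists_aB (H : Hyp g X φ E F) (Fr : Frames φ E F) {T : ℝ} (hT : 0 ≤ T) {x : M}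
    (hx : x ∈ Ld φ E 1) : ∃ (a : ℝ) (B : Q2 ≃L[ℝ] Q2), ∀ y : V3,
      fderiv ℝ (R Fr T (Fr.i x) (Fr.i (φ T x))) (zb Fr x) (Fr.N x y) =
        Fr.N (φ T x) (a * y.1, B y.2) := by
  have hx' := mem_Ld H hT hx
  set L : V3 →L[ℝ] V3 := ((Fr.N (φ T x)).symm : E3 →L[ℝ] V3).comp
    ((fderiv ℝ (R Fr T (Fr.i x) (Fr.i (φ T x))) (zb Fr x)).comp (Fr.N x : V3 →L[ℝ] E3)) with hL
  have hNL : ∀ y, Fr.N (φ T x) (L y) =
      fderiv ℝ (R Fr T (Fr.i x) (Fr.i (φ T x))) (zb Fr x) (Fr.N x y) := by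
    intro y
    simp [hL]
  have hPL : ∀ y, Pm Fr (φ T x) (L y) = Dm φ T x (Pm Fr x y) := by
    intro y
    rw [← R_deriv H Fr hT hx y, ← hNL]
    rfl
  have h1 : ∀ s : ℝ, (L (s, 0)).2 = 0 := by
    intro s
    apply eq_E H Fr hx'
    rw [hPL]
    exact Dm_E H hT hx (Pm_E Fr hx s)
  have h2 : ∀ q : Q2, (L (0, q)).1 = 0 := by
    intro q
    apply eq_F H Fr hx'
    rw [hPL]
    exact Dm_F H hT hx (Pm_F Fr hx q)
  let B0 : Q2 →ₗ[ℝ] Q2 := (LinearMap.snd ℝ ℝ Q2).comp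
    ((L : V3 →ₗ[ℝ] V3).comp (LinearMap.inr ℝ ℝ Q2))
  have hB0 : ∀ q, B0 q = (L (0, q)).2 := fun q => rfl
  have hinj : Function.Injective B0 := by
    rw [injective_iff_map_eq_zero]
    intro q hq
    have h3 : L (0, q) = 0 := Prod.ext (h2 q) (by rw [← hB0, hq]; rfl)
    have h4 : Dm φ T x (Pm Fr x (0, q)) = 0 := by
      rw [← hPL, h3, map_zero]
    have h5 := Dm_inj H hT hx (h4.trans (map_zero _).symm)
    have h6 := Pm_inj Fr hx (h5.trans (map_zero _).symm)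
    simpa using h6
  refine ⟨(L (1, 0)).1, (LinearEquiv.ofInjectiveEndo B0 hinj).toContinuousLinearEquiv, ?_⟩
  intro y
  rw [← hNL]
  congr 1
  have h7 : L y = y.1 • L (1, 0) + L (0, y.2) := by
    rw [← map_smul, ← map_add]
    congr 1
    ext <;> simp
  rw [h7]
  refine Prod.ext ?_ ?_
  · simp only [Prod.fst_add, Prod.smul_fst, smul_eq_mul]
    rw [h2]
    ring
  · simp only [Prod.snd_add, Prod.smul_snd]
    rw [h1]
    simp only [smul_zero, zero_add]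
    rfl

/-- comparison of norms, uniform in `x` -/
theorem UC2.compare (Fr : Frames φ E F) : ∃ C > 0, ∀ x ∈ Ld φ E 1, ∀ y : V3,
    ‖y‖ ≤ C * nrm g x (show TS x from Pm Fr x y) ∧
      nrm g x (show TS x from Pm Fr x y) ≤ C * ‖y‖ := by
  have h : ∀ j : Fr.ι, ∃ C > 0, ∀ x ∈ Fr.K j, ∀ ξ : E3,
      ‖ξ‖ ≤ C * nrm g (Fr.c j ((Fr.c j).symm x)) (DP (Fr.c j) ((Fr.c j).symm x) ξ) ∧
      nrm g (Fr.c j ((Fr.c j).symm x)) (DP (Fr.c j) ((Fr.c j).symm x) ξ) ≤ C * ‖ξ‖ := by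
    intro j
    have hK : IsCompact ((Fr.c j).symm '' Fr.K j) :=
      (Fr.K_compact j).image_of_continuousOn ((Fr.c j).continuousOn_symm.mono (Fr.K_sub j))
    obtain ⟨C, hC, h⟩ := IsC1Param.norm_compare (Fr.c1 j) g hK (by
      rintro _ ⟨x, hx, rfl⟩
      exact (Fr.c j).map_target (Fr.K_sub j hx))
    exact ⟨C, hC, fun x hx ξ => h _ ⟨x, hx, rfl⟩ ξ⟩
  choose C hC h using h
  have := Fr.fin
  have := Fintype.ofFinite Fr.ι
  set C1 := ∑ j, C j with hC1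
  have hC1j : ∀ j, C j ≤ C1 := fun j =>
    Finset.single_le_sum (fun i _ => (hC i).le) (Finset.mem_univ j)
  have hC10 : 0 ≤ C1 := Finset.sum_nonneg fun i _ => (hC i).le
  refine ⟨C1 * Fr.C + 1, by have := mul_nonneg hC10 Fr.C_pos.le; linarith, ?_⟩
  intro x hx y
  have h1 := h (Fr.i x) x (Fr.mem x hx) (Fr.N x y)
  have hn : nrm g (Fr.c (Fr.i x) ((Fr.c (Fr.i x)).symm x))
      (DP (Fr.c (Fr.i x)) ((Fr.c (Fr.i x)).symm x) (Fr.N x y)) =
      nrm g x (show TS x from Pm Fr x y) := by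
    exact nrm_congr g (c_zb Fr hx) _
  rw [hn] at h1
  set n := nrm g x (show TS x from Pm Fr x y) with hnd
  have hn0 : 0 ≤ n := nrm_nonneg g x _
  constructor
  · calc ‖y‖ ≤ Fr.C * ‖Fr.N x y‖ := Fr.N_ge x hx y
      _ ≤ Fr.C * (C (Fr.i x) * n) := mul_le_mul_of_nonneg_left h1.1 Fr.C_pos.le
      _ ≤ Fr.C * (C1 * n) := mul_le_mul_of_nonneg_left
          (mul_le_mul_of_nonneg_right (hC1j _) hn0) Fr.C_pos.le
      _ ≤ (C1 * Fr.C + 1) * n := by nlinarith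
  · calc n ≤ C (Fr.i x) * ‖Fr.N x y‖ := h1.2
      _ ≤ C1 * ‖Fr.N x y‖ := mul_le_mul_of_nonneg_right (hC1j _) (norm_nonneg _)
      _ ≤ C1 * (Fr.C * ‖y‖) := mul_le_mul_of_nonneg_left (Fr.N_le x hx y) hC10
      _ ≤ (C1 * Fr.C + 1) * ‖y‖ := by nlinarith [norm_nonneg y]

theorem UC2.nrm_cont (g : Metric3 M) : Continuous (fun p : TM M => nrm g p.1 p.2) := by
  rw [continuous_iff_continuousAt]
  intro p
  exact tendsto_nrm g (b := fun p : TM M => p.1) (v := fun p => p.2) (x := p.1) (v₀ := p.2)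
    tendsto_id

/-- the derivative of the time-`T` map is uniformly bounded below on `Ld φ E 1` -/
theorem UC2.lower (H : Hyp g X φ E F) {T : ℝ} (hT : 0 ≤ T) : ∃ c > 0, ∀ x ∈ Ld φ E 1, ∀ v : E3,
    nrm g x (show TS x from v) ≤ c * nrm g (φ T x) (show TS (φ T x) from Dm φ T x v) := by
  set S : Set (TM M) := {p : TM M | p.1 ∈ Ld φ E 1 ∧ nrm g p.1 p.2 ≤ 1} ∩
    {p : TM M | nrm g p.1 p.2 = 1} with hS
  have hSc : IsCompact S := (compact_ball g (Ld_compact H 1) 1).inter_right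
    (isClosed_eq (nrm_cont g) continuous_const)
  have hc1 : Continuous (fun p : TM M => (⟨φ T p.1, D φ T p.1 p.2⟩ : TM M)) :=
    (D_cont H.flow).comp_continuous (f := fun p : TM M => ((T, p) : ℝ × TM M)) (by fun_prop)
      (fun p => ⟨hT, mem_univ _⟩)
  have hc : Continuous (fun p : TM M => nrm g (φ T p.1) (D φ T p.1 p.2)) :=
    (nrm_cont g).comp hc1
  have key : ∃ c > 0, ∀ x ∈ Ld φ E 1, ∀ v : TS x, nrm g x v = 1 →
      1 ≤ c * nrm g (φ T x) (D φ T x v) := by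
    rcases S.eq_empty_or_nonempty with he | hne
    · refine ⟨1, one_pos, fun x hx v hv => ?_⟩
      have : (⟨x, v⟩ : TM M) ∈ S := ⟨⟨hx, hv.le⟩, hv⟩
      rw [he] at this
      exact absurd this (notMem_empty _)
    · obtain ⟨p, hp, hmin⟩ := hSc.exists_isMinOn hne hc.continuousOn
      have hpos : 0 < nrm g (φ T p.1) (D φ T p.1 p.2) := by
        refine lt_of_le_of_ne (nrm_nonneg g _ _) fun h0 => ?_
        have h1 := (nrm_eq_zero g _ _).1 h0.symm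
        have h2 : p.2 = 0 := Dm_inj H hT hp.1.1 (h1.trans (map_zero _).symm)
        have h3 := hp.2
        have h4 : nrm g p.1 p.2 = 0 := (nrm_eq_zero g _ _).2 h2
        exact zero_ne_one (h4.symm.trans h3)
      refine ⟨(nrm g (φ T p.1) (D φ T p.1 p.2))⁻¹, inv_pos.2 hpos, fun x hx v hv => ?_⟩
      have h5 := hmin (show (⟨x, v⟩ : TM M) ∈ S from ⟨⟨hx, hv.le⟩, hv⟩)
      have h6 : nrm g (φ T p.1) (D φ T p.1 p.2) ≤ nrm g (φ T x) (D φ T x v) := h5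
      rw [inv_mul_eq_div, one_le_div hpos]
      exact h6
  obtain ⟨c, hc0, hc⟩ := key
  refine ⟨c, hc0, fun x hx v => ?_⟩
  by_cases h0 : nrm g x (show TS x from v) = 0
  · rw [h0]
    exact mul_nonneg hc0.le (nrm_nonneg g _ _)
  · have hn : 0 < nrm g x (show TS x from v) :=
      lt_of_le_of_ne (nrm_nonneg g _ _) (Ne.symm h0)
    have h7 := hc x hx ((nrm g x (show TS x from v))⁻¹ • (show TS x from v)) (by
      rw [nrm_smul, abs_of_pos (inv_pos.2 hn), inv_mul_cancel₀ h0])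
    rw [map_smul, nrm_smul, abs_of_pos (inv_pos.2 hn)] at h7
    have h8 : nrm g x (show TS x from v) * 1 ≤ nrm g x (show TS x from v) *
        (c * ((nrm g x (show TS x from v))⁻¹ * nrm g (φ T x) (D φ T x v))) :=
      mul_le_mul_of_nonneg_left h7 hn.le
    calc nrm g x (show TS x from v) = nrm g x (show TS x from v) * 1 := by ring
      _ ≤ _ := h8
      _ = c * nrm g (φ T x) (show TS (φ T x) from Dm φ T x v) * (nrm g x (show TS x from v) *
        (nrm g x (show TS x from v))⁻¹) := by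
          change _ = c * nrm g (φ T x) (D φ T x v) * _
          ring
      _ = _ := by rw [mul_inv_cancel₀ h0, mul_one]

theorem UC2.exists_lower {κ : Type*} [Finite κ] (f : κ → ℝ) (hf : ∀ k, 0 < f k) :
    ∃ r > 0, ∀ k, r ≤ f k := by
  rcases isEmpty_or_nonempty κ with h | h
  · exact ⟨1, one_pos, fun k => (h.false k).elim⟩
  · obtain ⟨k0, hk0⟩ := Finite.exists_min f
    exact ⟨f k0, hf k0, hk0⟩

theorem UC2.phi_cont (H : Hyp g X φ E F) {T : ℝ} (hT : 0 ≤ T) : Continuous (φ T) :=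
  continuous_iff_continuousAt.2 fun x => (flow_smooth_at H.flow hT x).continuousAt

/-- uniform strict differentiability of the charts representation -/
theorem UC2.uniform (H : Hyp g X φ E F) (Fr : Frames φ E F) {T : ℝ} (hT : 0 ≤ T) {ε : ℝ}
    (hε : 0 < ε) : ∃ r > 0, ∀ x ∈ Ld φ E 1,
      (∀ w w' : E3, ‖w‖ ≤ r → ‖w'‖ ≤ r →
        ‖R Fr T (Fr.i x) (Fr.i (φ T x)) (zb Fr x + w) -
          R Fr T (Fr.i x) (Fr.i (φ T x)) (zb Fr x + w') -
          fderiv ℝ (R Fr T (Fr.i x) (Fr.i (φ T x))) (zb Fr x) (w - w')‖ ≤ ε * ‖w - w'‖) ∧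
      ∀ w : E3, ‖w‖ ≤ r →
        φ T (Fr.c (Fr.i x) (zb Fr x + w)) ∈ (Fr.c (Fr.i (φ T x))).target := by
  have h : ∀ p : Fr.ι × Fr.ι, ∃ r > 0, ∀ x ∈ Ld φ E 1, x ∈ Fr.K p.1 → φ T x ∈ Fr.K p.2 →
      (∀ w w' : E3, ‖w‖ ≤ r → ‖w'‖ ≤ r →
        ‖R Fr T p.1 p.2 ((Fr.c p.1).symm x + w) - R Fr T p.1 p.2 ((Fr.c p.1).symm x + w') -
          fderiv ℝ (R Fr T p.1 p.2) ((Fr.c p.1).symm x) (w - w')‖ ≤ ε * ‖w - w'‖) ∧
      ∀ w : E3, ‖w‖ ≤ r → φ T (Fr.c p.1 ((Fr.c p.1).symm x + w)) ∈ (Fr.c p.2).target := by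
    rintro ⟨j, j'⟩
    set A : Set M := (Ld φ E 1 ∩ Fr.K j) ∩ (φ T) ⁻¹' Fr.K j' with hA
    have hAc : IsCompact A := ((Ld_compact H 1).inter (Fr.K_compact j)).inter_right
      ((Fr.K_compact j').isClosed.preimage (phi_cont H hT))
    have hKc : IsCompact ((Fr.c j).symm '' A) :=
      hAc.image_of_continuousOn ((Fr.c j).continuousOn_symm.mono
        (fun x hx => Fr.K_sub j hx.1.2))
    set O : Set E3 := (Fr.c j).source ∩ (Fr.c j) ⁻¹' ((φ T) ⁻¹' (Fr.c j').target) with hO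
    have hOo : IsOpen O := (Fr.c j).continuousOn.isOpen_inter_preimage (Fr.c j).open_source
      ((Fr.c j').open_target.preimage (phi_cont H hT))
    have hKO : (Fr.c j).symm '' A ⊆ O := by
      rintro _ ⟨x, hx, rfl⟩
      refine ⟨(Fr.c j).map_target (Fr.K_sub j hx.1.2), ?_⟩
      rw [mem_preimage, mem_preimage, (Fr.c j).right_inv (Fr.K_sub j hx.1.2)]
      exact Fr.K_sub j' hx.2
    obtain ⟨r1, hr1, h1⟩ := uniform_strict hKc (f := R Fr T j j') (fun z hz =>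
      R_smooth H Fr hT (hKO hz).1 (hKO hz).2) hε
    obtain ⟨r2, hr2, h2⟩ := hKc.exists_cthickening_subset_open hOo hKO
    refine ⟨min r1 r2, lt_min hr1 hr2, fun x hx hx1 hx2 => ⟨fun w w' hw hw' => ?_, fun w hw => ?_⟩⟩
    · have hxA : x ∈ A := ⟨⟨hx, hx1⟩, hx2⟩
      have h3 := h1 _ ⟨x, hxA, rfl⟩ ((Fr.c j).symm x + w) ((Fr.c j).symm x + w')
        (by simpa using hw.trans (min_le_left _ _)) (by simpa using hw'.trans (min_le_left _ _))
      simpa using h3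
    · have hxA : x ∈ A := ⟨⟨hx, hx1⟩, hx2⟩
      have h4 : (Fr.c j).symm x + w ∈ Metric.cthickening r2 ((Fr.c j).symm '' A) := by
        apply Metric.mem_cthickening_of_dist_le _ ((Fr.c j).symm x) _ _ (mem_image_of_mem _ hxA)
        simpa using hw.trans (min_le_right _ _)
      exact (h2 h4).2
  choose r hr h using h
  have := Fr.fin
  obtain ⟨r0, hr0, hr0'⟩ := exists_lower r hr
  refine ⟨r0, hr0, fun x hx => ?_⟩
  have h5 := h (Fr.i x, Fr.i (φ T x)) x hx (Fr.mem x hx) (Fr.mem _ (mem_Ld H hT hx))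
  exact ⟨fun w w' hw hw' => h5.1 w w' (hw.trans (hr0' _)) (hw'.trans (hr0' _)),
    fun w hw => h5.2 w (hw.trans (hr0' _))⟩

variable (H : Hyp g X φ E F) (Fr : Frames φ E F)

include H

/-- UC2 : estimates for the time `T` map read in the normalised charts -/
theorem Frames.time_map : ∃ T₀ > 0, ∀ T ≥ T₀, ∃ (β : ℝ) (a : M → ℝ) (B : M → (Q2 ≃L[ℝ] Q2)),
    0 < β ∧ (∀ x ∈ Ld φ E 1, |a x| ≤ 1 / 4 ∧ (∀ q, ‖(B x).symm q‖ ≤ β * ‖q‖) ∧
      (∀ q, |a x| * ‖(B x).symm q‖ ≤ 1 / 4 * ‖q‖) ∧ Fr.f T x 0 = 0) ∧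
    ∀ ε > 0, ∃ r > 0, ∀ x ∈ Ld φ E 1,
      (∀ y y' : V3, ‖y‖ ≤ r → ‖y'‖ ≤ r →
        ‖Fr.f T x y - Fr.f T x y' - (a x * (y.1 - y'.1), B x (y.2 - y'.2))‖ ≤ ε * ‖y - y'‖) ∧
      ∀ y : V3, ‖y‖ ≤ r → Fr.κ (φ T x) (Fr.f T x y) = φ T (Fr.κ x y) := by
  obtain ⟨C1, hC1, hcmp⟩ := compare (g := g) Fr
  obtain ⟨Kd, hKd, ld, hld, hdom⟩ := H.dom
  obtain ⟨Kc, hKc, lc, hlc, hcon⟩ := H.contr
  have hlim : ∀ l > 0, ∀ K : ℝ, ∃ T₀ : ℝ, ∀ T ≥ T₀, K * Real.exp (-l * T) ≤ 1 / 4 := by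
    intro l hl K
    have h1 : Tendsto (fun T : ℝ => K * Real.exp (-l * T)) atTop (𝓝 (K * 0)) := by
      refine Tendsto.const_mul _ ?_
      refine Real.tendsto_exp_atBot.comp ?_
      exact Filter.tendsto_id.const_mul_atTop_of_neg (by linarith)
    rw [mul_zero] at h1
    have h2 := h1.eventually (ge_mem_nhds (show (0 : ℝ) < 1 / 4 by norm_num))
    obtain ⟨T₀, hT₀⟩ := eventually_atTop.1 h2
    exact ⟨T₀, hT₀⟩
  obtain ⟨Ta, hTa⟩ := hlim lc hlc (C1 ^ 2 * Kc)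
  obtain ⟨Tb, hTb⟩ := hlim ld hld (C1 ^ 4 * Kd)
  refine ⟨max 1 (max Ta Tb), lt_of_lt_of_le one_pos (le_max_left _ _), fun T hT => ?_⟩
  have hT1 : 1 ≤ T := (le_max_left _ _).trans hT
  have hT0 : 0 ≤ T := zero_le_one.trans hT1
  have hTa' := hTa T (((le_max_left _ _).trans (le_max_right _ _)).trans hT)
  have hTb' := hTb T (((le_max_right _ _).trans (le_max_right _ _)).trans hT)
  obtain ⟨c, hc, hlow⟩ := lower H hT0
  have hex : ∀ x : M, ∃ (a : ℝ) (B : Q2 ≃L[ℝ] Q2), x ∈ Ld φ E 1 → ∀ y : V3,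
      fderiv ℝ (R Fr T (Fr.i x) (Fr.i (φ T x))) (zb Fr x) (Fr.N x y) =
        Fr.N (φ T x) (a * y.1, B y.2) := by
    intro x
    by_cases hx : x ∈ Ld φ E 1
    · obtain ⟨a, B, h⟩ := exists_aB H Fr hT0 hx
      exact ⟨a, B, fun _ => h⟩
    · exact ⟨0, ContinuousLinearEquiv.refl ℝ Q2, fun h => (hx h).elim⟩
  choose a B hB using hex
  have hPa : ∀ x ∈ Ld φ E 1, ∀ y : V3, Dm φ T x (Pm Fr x y) =
      Pm Fr (φ T x) (a x * y.1, B x y.2) := by
    intro x hx y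
    rw [← R_deriv H Fr hT0 hx y, hB x hx y]
    rfl
  have hf : ∀ x ∈ Ld φ E 1, ∀ y : V3, Fr.f T x y =
      (Fr.N (φ T x)).symm (R Fr T (Fr.i x) (Fr.i (φ T x)) (zb Fr x + Fr.N x y) -
        zb Fr (φ T x)) := fun x hx y => rfl
  have hR0 : ∀ x ∈ Ld φ E 1, R Fr T (Fr.i x) (Fr.i (φ T x)) (zb Fr x) = zb Fr (φ T x) := by
    intro x hx
    unfold R
    rw [c_zb Fr hx]
    rfl
  refine ⟨C1 ^ 2 * c, a, B, by positivity, fun x hx => ⟨?_, ?_, ?_, ?_⟩, fun ε hε => ?_⟩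
  · have hx' := mem_Ld H hT0 hx
    have h1 := (hcmp _ hx' (a x * ((1, 0) : V3).1, B x ((1, 0) : V3).2)).1
    rw [← hPa x hx (1, 0)] at h1
    have h2 := hcon x hx.1 T hT0 (Pm Fr x (1, 0)) (Pm_E Fr hx 1)
    have h3 := (hcmp _ hx (1, 0)).2
    have h4 : ‖((1, 0) : V3)‖ = 1 := by simp [Prod.norm_def]
    have h5 : ‖((a x * ((1, 0) : V3).1, B x ((1, 0) : V3).2) : V3)‖ = |a x| := by
      simp [Prod.norm_def]
    rw [h5] at h1
    rw [h4, mul_one] at h3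
    have hexp := Real.exp_pos (-lc * T)
    calc |a x| ≤ C1 * nrm g (φ T x) (show TS (φ T x) from Dm φ T x (Pm Fr x (1, 0))) := h1
      _ ≤ C1 * (Kc * Real.exp (-lc * T) * nrm g x (show TS x from Pm Fr x (1, 0))) :=
          mul_le_mul_of_nonneg_left h2 hC1.le
      _ ≤ C1 * (Kc * Real.exp (-lc * T) * C1) := by gcongr
      _ = C1 ^ 2 * Kc * Real.exp (-lc * T) := by ring
      _ ≤ 1 / 4 := hTa'
  · intro q
    have hx' := mem_Ld H hT0 hx
    have h1 := (hcmp _ hx (0, (B x).symm q)).1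
    have h2 := hlow x hx (Pm Fr x (0, (B x).symm q))
    rw [hPa x hx (0, (B x).symm q)] at h2
    have h3 := (hcmp _ hx' (a x * ((0, (B x).symm q) : V3).1,
      B x ((0, (B x).symm q) : V3).2)).2
    have h5 : ‖((a x * ((0, (B x).symm q) : V3).1, B x ((0, (B x).symm q) : V3).2) : V3)‖ =
        ‖q‖ := by
      simp [Prod.norm_def]
    have h6 : ‖((0, (B x).symm q) : V3)‖ = ‖(B x).symm q‖ := by
      rw [Prod.norm_def]
      simp
    rw [h5] at h3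
    rw [h6] at h1
    calc ‖(B x).symm q‖ ≤ C1 * nrm g x (show TS x from Pm Fr x (0, (B x).symm q)) := h1
      _ ≤ C1 * (c * (C1 * ‖q‖)) := by
          apply mul_le_mul_of_nonneg_left _ hC1.le
          exact h2.trans (mul_le_mul_of_nonneg_left h3 hc.le)
      _ = C1 ^ 2 * c * ‖q‖ := by ring
  · intro q
    have hx' := mem_Ld H hT0 hx
    have h1 := (hcmp _ hx' (a x * ((1, 0) : V3).1, B x ((1, 0) : V3).2)).1
    rw [← hPa x hx (1, 0)] at h1
    have h3 := (hcmp _ hx (1, 0)).2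
    have h4 : ‖((1, 0) : V3)‖ = 1 := by simp [Prod.norm_def]
    have h5 : ‖((a x * ((1, 0) : V3).1, B x ((1, 0) : V3).2) : V3)‖ = |a x| := by
      simp [Prod.norm_def]
    rw [h5] at h1
    rw [h4, mul_one] at h3
    have k1 := (hcmp _ hx (0, (B x).symm q)).1
    have k3 := (hcmp _ hx' (a x * ((0, (B x).symm q) : V3).1,
      B x ((0, (B x).symm q) : V3).2)).2
    have k5 : ‖((a x * ((0, (B x).symm q) : V3).1, B x ((0, (B x).symm q) : V3).2) : V3)‖ =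
        ‖q‖ := by
      simp [Prod.norm_def]
    have k6 : ‖((0, (B x).symm q) : V3)‖ = ‖(B x).symm q‖ := by
      rw [Prod.norm_def]
      simp
    rw [k5, ← hPa x hx (0, (B x).symm q)] at k3
    rw [k6] at k1
    have hd := hdom x hx.1 T hT0 (Pm Fr x (1, 0)) (Pm_E Fr hx 1) (Pm Fr x (0, (B x).symm q))
      (Pm_F Fr hx _)
    have hexp := Real.exp_pos (-ld * T)
    set n1 := nrm g (φ T x) (show TS (φ T x) from Dm φ T x (Pm Fr x (1, 0))) with hn1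
    set n2 := nrm g x (show TS x from Pm Fr x (0, (B x).symm q)) with hn2
    set n3 := nrm g (φ T x) (show TS (φ T x) from Dm φ T x (Pm Fr x (0, (B x).symm q))) with hn3
    set n4 := nrm g x (show TS x from Pm Fr x (1, 0)) with hn4
    have e1 : 0 ≤ n1 := nrm_nonneg g _ _
    have e2 : 0 ≤ n2 := nrm_nonneg g _ _
    have e3 : 0 ≤ n3 := nrm_nonneg g _ _
    have e4 : 0 ≤ n4 := nrm_nonneg g _ _
    have hd' : n1 * n2 ≤ Kd * Real.exp (-ld * T) * (n3 * n4) := hd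
    calc |a x| * ‖(B x).symm q‖ ≤ (C1 * n1) * (C1 * n2) :=
          mul_le_mul h1 k1 (norm_nonneg _) (mul_nonneg hC1.le e1)
      _ = C1 ^ 2 * (n1 * n2) := by ring
      _ ≤ C1 ^ 2 * (Kd * Real.exp (-ld * T) * (n3 * n4)) :=
          mul_le_mul_of_nonneg_left hd' (by positivity)
      _ ≤ C1 ^ 2 * (Kd * Real.exp (-ld * T) * ((C1 * ‖q‖) * C1)) := by gcongr
      _ = (C1 ^ 4 * Kd * Real.exp (-ld * T)) * ‖q‖ := by ring
      _ ≤ 1 / 4 * ‖q‖ := mul_le_mul_of_nonneg_right hTb' (norm_nonneg _)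
  · rw [hf x hx, map_zero, add_zero, hR0 x hx, sub_self, map_zero]
  · have hCC := Fr.C_pos
    obtain ⟨r, hr, hrr⟩ := uniform H Fr hT0 (ε := ε / (Fr.C * Fr.C)) (by positivity)
    refine ⟨r / Fr.C, by positivity, fun x hx => ⟨fun y y' hy hy' => ?_, fun y hy => ?_⟩⟩
    · have hx' := mem_Ld H hT0 hx
      have hNy : ∀ y : V3, ‖y‖ ≤ r / Fr.C → ‖Fr.N x y‖ ≤ r := fun y hy =>
        calc ‖Fr.N x y‖ ≤ Fr.C * ‖y‖ := Fr.N_le x hx y
          _ ≤ Fr.C * (r / Fr.C) := mul_le_mul_of_nonneg_left hy hCC.le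
          _ = r := by field_simp
      have h1 := (hrr x hx).1 (Fr.N x y) (Fr.N x y') (hNy y hy) (hNy y' hy')
      have h2 : Fr.f T x y - Fr.f T x y' - (a x * (y.1 - y'.1), B x (y.2 - y'.2)) =
          (Fr.N (φ T x)).symm (R Fr T (Fr.i x) (Fr.i (φ T x)) (zb Fr x + Fr.N x y) -
          R Fr T (Fr.i x) (Fr.i (φ T x)) (zb Fr x + Fr.N x y') -
          fderiv ℝ (R Fr T (Fr.i x) (Fr.i (φ T x))) (zb Fr x) (Fr.N x y - Fr.N x y')) := by
        have h3 : fderiv ℝ (R Fr T (Fr.i x) (Fr.i (φ T x))) (zb Fr x) (Fr.N x y - Fr.N x y') =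
            Fr.N (φ T x) (a x * (y.1 - y'.1), B x (y.2 - y'.2)) := by
          rw [← map_sub (Fr.N x), hB x hx]
          rfl
        rw [h3, map_sub ((Fr.N (φ T x)).symm), ContinuousLinearEquiv.symm_apply_apply,
          hf x hx, hf x hx, ← map_sub]
        congr 2
        abel
      rw [h2]
      have h4 := Fr.N_ge (φ T x) hx' ((Fr.N (φ T x)).symm
        (R Fr T (Fr.i x) (Fr.i (φ T x)) (zb Fr x + Fr.N x y) -
          R Fr T (Fr.i x) (Fr.i (φ T x)) (zb Fr x + Fr.N x y') -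
          fderiv ℝ (R Fr T (Fr.i x) (Fr.i (φ T x))) (zb Fr x) (Fr.N x y - Fr.N x y')))
      rw [ContinuousLinearEquiv.apply_symm_apply] at h4
      have h5 : ‖Fr.N x y - Fr.N x y'‖ ≤ Fr.C * ‖y - y'‖ := by
        rw [← map_sub]
        exact Fr.N_le x hx _
      calc _ ≤ _ := h4
        _ ≤ Fr.C * (ε / (Fr.C * Fr.C) * (Fr.C * ‖y - y'‖)) := by
            apply mul_le_mul_of_nonneg_left _ hCC.le
            exact h1.trans (mul_le_mul_of_nonneg_left h5 (by positivity))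
        _ = ε * ‖y - y'‖ := by field_simp
    · have hNy : ‖Fr.N x y‖ ≤ r := 
        calc ‖Fr.N x y‖ ≤ Fr.C * ‖y‖ := Fr.N_le x hx y
          _ ≤ Fr.C * (r / Fr.C) := mul_le_mul_of_nonneg_left hy hCC.le
          _ = r := by field_simp
      have h1 := (hrr x hx).2 (Fr.N x y) hNy
      unfold Frames.κ Frames.f Frames.κinv
      rw [ContinuousLinearEquiv.apply_symm_apply, add_sub_cancel]
      exact (Fr.c (Fr.i (φ T x))).right_inv h1

end VeniceMask
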