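import Pool.Agent.helper75.VM.M_UC1

/-!
# MP_509a24_an, module UC3: uniform continuity of normalised charts
-/

set_option linter.unusedSectionVars false

open Set Filter Topology Bundle
open scoped ContDiff Manifold

namespace VeniceMask

universe u

variable {M : Type u} [TopologicalSpace M] [ChartedSpace (EuclideanHalfSpace 3) M]
  [IsManifold (𝓡∂ 3) ∞ M] [CompactSpace M] [T2Space M]
  {g : Metric3 M} {X : ∀ x : M, TS x} {φ : ℝ → M → M} {E F : ∀ x : M, Submodule ℝ (TS x)}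
  (H : Hyp g X φ E F) (Fr : Frames φ E F)

theorem UC3.one (c : OpenPartialHomeomorph E3 M) {K : Set M} (hK : IsCompact K)
    (hKc : K ⊆ c.target) {O U : Set M} (hO : IsCompact O) (hU : IsOpen U) (hOU : O ⊆ U) :
    ∃ V, IsOpen V ∧ O ⊆ V ∧ ∃ ρ > 0, ∀ x ∈ K, x ∈ V → ∀ w : E3, ‖w‖ ≤ ρ →
      c (c.symm x + w) ∈ U := by
  have hK1 : IsCompact (K ∩ O) := hK.inter hO
  have hKc1 : K ∩ O ⊆ c.target := fun x hx => hKc hx.1
  have hK2 : IsCompact (c.symm '' (K ∩ O)) :=
    hK1.image_of_continuousOn (c.continuousOn_symm.mono hKc1)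
  have hOo : IsOpen (c.source ∩ c ⁻¹' U) := c.continuousOn.isOpen_inter_preimage c.open_source hU
  have hsub : c.symm '' (K ∩ O) ⊆ c.source ∩ c ⁻¹' U := by
    rintro _ ⟨x, hx, rfl⟩
    refine ⟨c.map_target (hKc1 hx), ?_⟩
    rw [mem_preimage, c.right_inv (hKc1 hx)]
    exact hOU hx.2
  obtain ⟨δ, hδ, hδs⟩ := hK2.exists_cthickening_subset_open hOo hsub
  refine ⟨Kᶜ ∪ (c.target ∩ c.symm ⁻¹' (Metric.thickening (δ / 2) (c.symm '' (K ∩ O)))),
    hK.isClosed.isOpen_compl.union (c.continuousOn_symm.isOpen_inter_preimage c.open_target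
      Metric.isOpen_thickening), ?_, δ / 2, by positivity, ?_⟩
  · intro o ho
    by_cases hoK : o ∈ K
    · refine Or.inr ⟨hKc hoK, ?_⟩
      exact Metric.self_subset_thickening (by positivity) _ (mem_image_of_mem _ ⟨hoK, ho⟩)
    · exact Or.inl hoK
  · intro x hx hxV w hw
    rcases hxV with h | h
    · exact (h hx).elim
    · have h1 : c.symm x ∈ Metric.thickening (δ / 2) (c.symm '' (K ∩ O)) := h.2
      rw [Metric.mem_thickening_iff] at h1
      obtain ⟨z, hz, hdz⟩ := h1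
      have h2 : c.symm x + w ∈ Metric.cthickening δ (c.symm '' (K ∩ O)) := by
        apply Metric.mem_cthickening_of_dist_le _ z _ _ hz
        calc dist (c.symm x + w) z ≤ dist (c.symm x + w) (c.symm x) + dist (c.symm x) z :=
              dist_triangle _ _ _
          _ ≤ δ / 2 + δ / 2 := by
              refine add_le_add ?_ hdz.le
              simpa using hw
          _ = δ := by ring
      exact (hδs h2).2

include H

/-- UC3 : uniform continuity of the charts at the centre -/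
theorem Frames.small (O : Set M) (hO : O ⊆ Ld φ E 1) (hOc : IsCompact O) (U : Set M)
    (hU : IsOpen U) (hOU : O ⊆ U) : ∃ V, IsOpen V ∧ O ⊆ V ∧ ∃ ρ > 0, ∀ x ∈ Ld φ E 1, x ∈ V →
      ∀ y : V3, ‖y‖ ≤ ρ → Fr.κ x y ∈ U := by
  have h := fun j => UC3.one (Fr.c j) (Fr.K_compact j) (Fr.K_sub j) hOc hU hOU
  choose V hV hOV ρ hρ h using h
  have := Fr.fin
  obtain ⟨r, hr, hr'⟩ : ∃ r > 0, ∀ j, r ≤ ρ j := by
    rcases isEmpty_or_nonempty Fr.ι with h | h
    · exact ⟨1, one_pos, fun k => (h.false k).elim⟩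
    · obtain ⟨k0, hk0⟩ := Finite.exists_min ρ
      exact ⟨ρ k0, hρ k0, hk0⟩
  have hC := Fr.C_pos
  refine ⟨⋂ j, V j, isOpen_iInter_of_finite hV, subset_iInter hOV, r / Fr.C, by positivity,
    fun x hx hxV y hy => ?_⟩
  refine h (Fr.i x) x (Fr.mem x hx) (mem_iInter.1 hxV _) (Fr.N x y) ?_
  calc ‖Fr.N x y‖ ≤ Fr.C * ‖y‖ := Fr.N_le x hx y
    _ ≤ Fr.C * (r / Fr.C) := mul_le_mul_of_nonneg_left hy hC.le
    _ = r := by field_simp
    _ ≤ ρ (Fr.i x) := hr' _

end VeniceMask
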