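import Pool.Agent.helper75.VM.M_UC1
import Pool.Agent.helper75.VM.M_BX2

/-!
# MP_509a24_an, module UC4: normalised charts read in a good box
-/

open Set Filter Topology Bundle
open scoped ContDiff Manifold

namespace VeniceMask

universe u

theorem UC4_exists_pos {ι : Type*} [Finite ι] (f : ι → ℝ) (hf : ∀ j, 0 < f j) :
    ∃ r > 0, ∀ j, r ≤ f j := by
  rcases isEmpty_or_nonempty ι with h | h
  · exact ⟨1, one_pos, fun j => (h.false j).elim⟩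
  · obtain ⟨j₀, hj₀⟩ := Finite.exists_min f
    exact ⟨f j₀, hf j₀, hj₀⟩

theorem UC4_exists_bound {ι : Type*} [Finite ι] (f : ι → ℝ) : ∃ C > 0, ∀ j, f j ≤ C := by
  obtain ⟨C, hC⟩ := (Set.finite_range f).bddAbove
  exact ⟨max C 1, by positivity, fun j => (hC (mem_range_self j)).trans (le_max_left _ _)⟩

section

variable {M : Type u} [TopologicalSpace M] [ChartedSpace (EuclideanHalfSpace 3) M]
  [IsManifold (𝓡∂ 3) ∞ M]

theorem UC4_nrm_eq (g : Metric3 M) {x x' : M} (h : x = x') {v : TS x} {v' : TS x'}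
    (hv : (show E3 from v) = v') : nrm g x v = nrm g x' v' := by
  subst h
  exact congrArg (nrm g x) hv

theorem UC4_mem_iff (E : ∀ x : M, Submodule ℝ (TS x)) {x x' : M} (h : x = x') {v : TS x}
    {v' : TS x'} (hv : (show E3 from v) = v') : v ∈ E x ↔ v' ∈ E x' := by
  subst h
  have : v = v' := hv
  rw [this]

end

variable {M : Type u} [TopologicalSpace M] [ChartedSpace (EuclideanHalfSpace 3) M]
  [IsManifold (𝓡∂ 3) ∞ M] [CompactSpace M] [T2Space M]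
  {g : Metric3 M} {X : ∀ x : M, TS x} {φ : ℝ → M → M} {E F : ∀ x : M, Submodule ℝ (TS x)}
  {H : Hyp g X φ E F} (Fr : Frames φ E F)

/-- vectors of `E` in box coordinates have a large last coordinate -/
theorem UC4_cone {B : Box (aflow H 1)} (hB : GoodBox E F B) : ∃ C : ℝ, 0 < C ∧ ∀ q : Q2,
    ‖q‖ ≤ 1 / 2 → B.pt q ∈ Ld φ E 1 → ∀ ξ : V3, DP B.e (0, q) ξ ∈ E (B.e (0, q)) →
      ‖ξ‖ ≤ C * |ξ.2.2| ∧ ‖ξ‖ ≤ C * nrm g (B.e (0, q)) (DP B.e (0, q) ξ) ∧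
        nrm g (B.e (0, q)) (DP B.e (0, q) ξ) ≤ C * ‖ξ‖ := by
  obtain ⟨C₁, hC₁, hang⟩ := angle H
  have hK : IsCompact (({0} : Set ℝ) ×ˢ Metric.closedBall (0 : Q2) (1 / 2)) :=
    isCompact_singleton.prod (isCompact_closedBall _ _)
  have hKs : (({0} : Set ℝ) ×ˢ Metric.closedBall (0 : Q2) (1 / 2)) ⊆ B.e.source := by
    rintro ⟨t, q⟩ ⟨ht, hq⟩
    rw [mem_singleton_iff] at ht
    rw [mem_closedBall_zero_iff] at hq
    simp only at ht hq
    subst ht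
    exact B.src 0 q (by simpa using B.δ_pos.le) (by linarith)
  obtain ⟨C₂, hC₂, hcmp⟩ := hB.c1.norm_compare g hK hKs
  refine ⟨max (C₂ * (C₁ * C₂)) C₂, by positivity, ?_⟩
  intro q hq hqL ξ hξ
  have hmem : ((0, q) : V3) ∈ (({0} : Set ℝ) ×ˢ Metric.closedBall (0 : Q2) (1 / 2)) :=
    ⟨rfl, by simpa using hq⟩
  have hmax : B.e (0, q) ∈ maxInv φ := hqL.1
  have hc1 := hcmp (0, q) hmem ξ
  refine ⟨?_, ?_, ?_⟩
  · have hcone := hB.econe q (by linarith) hqL ξ hξ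
    have hX : DP B.e (0, q) (ξ.1, 0) = ξ.1 • X (B.e (0, q)) :=
      flowBox_X B.toFlowBox hB.c1 (by simpa using B.δ_pos.le) (by linarith) ξ.1
    have hf : -(ξ.1 • X (B.e (0, q))) ∈ F (B.e (0, q)) :=
      (F _).neg_mem ((F _).smul_mem _ (X_mem_F H hmax))
    have h1 := (hang _ hmax _ hξ _ hf).1
    have h2 : DP B.e (0, q) ξ + -(ξ.1 • X (B.e (0, q))) = DP B.e (0, q) (0, ξ.2) := by
      rw [← hX, ← sub_eq_add_neg, ← map_sub]
      congr 1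
      ext <;> simp
    rw [h2] at h1
    have h3 := (hcmp (0, q) hmem (0, ξ.2)).2
    have h4 : ‖((0, ξ.2) : V3)‖ ≤ |ξ.2.2| := by
      rw [Prod.norm_def, Prod.norm_def]
      simp only [norm_zero, Real.norm_eq_abs]
      have := abs_nonneg ξ.2.2
      refine max_le this (max_le ?_ le_rfl)
      linarith
    calc ‖ξ‖ ≤ C₂ * nrm g (B.e (0, q)) (DP B.e (0, q) ξ) := hc1.1
      _ ≤ C₂ * (C₁ * nrm g (B.e (0, q)) (DP B.e (0, q) (0, ξ.2))) := by gcongr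
      _ ≤ C₂ * (C₁ * (C₂ * |ξ.2.2|)) := by gcongr; exact h3.trans (by gcongr)
      _ = (C₂ * (C₁ * C₂)) * |ξ.2.2| := by ring
      _ ≤ _ := by gcongr; exact le_max_left _ _
  · refine hc1.1.trans ?_
    gcongr
    · exact nrm_nonneg g _ _
    · exact le_max_right _ _
  · refine hc1.2.trans ?_
    gcongr
    exact le_max_right _ _

/-- UC4 : normalised charts read in a good box -/
theorem Frames.box {B : Box (aflow H 1)} (hB : GoodBox E F B) : ∃ C : ℝ, 0 < C ∧ ∀ ε > 0, ∃ r > 0,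
    ∀ q : Q2, ‖q‖ ≤ 1 / 2 → B.pt q ∈ Ld φ E 1 → ∃ A : V3 →L[ℝ] V3, (∀ y, ‖A y‖ ≤ C * ‖y‖) ∧
      |(A (1, 0)).2.1| ≤ 1 / 8 * |(A (1, 0)).2.2| ∧ C⁻¹ ≤ |(A (1, 0)).2.2| ∧
      ∀ y y' : V3, ‖y‖ ≤ r → ‖y'‖ ≤ r → Fr.κ (B.pt q) y ∈ B.e.target ∧
        ‖B.e.symm (Fr.κ (B.pt q) y) - B.e.symm (Fr.κ (B.pt q) y') - A (y - y')‖ ≤
          ε * ‖y - y'‖ := by
  have hfin : Finite Fr.ι := Fr.fin
  obtain ⟨C₅, hC₅, hcone⟩ := UC4_cone hB
  -- the compact set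
  set S₀ : Set V3 := ({0} : Set ℝ) ×ˢ Metric.closedBall (0 : Q2) (1 / 2) with hS₀
  have hS₀c : IsCompact (B.e '' S₀) := by
    refine B.toFlowBox.compact_image (isClosed_singleton.prod Metric.isClosed_closedBall) ?_
    rintro ⟨t, q⟩ ⟨ht, hq⟩
    rw [mem_singleton_iff] at ht
    rw [mem_closedBall_zero_iff] at hq
    simp only at ht hq
    subst ht
    exact ⟨by simpa using B.δ_pos.le, by simp only; linarith⟩
  have hS₀t : B.e '' S₀ ⊆ B.e.target := by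
    rintro _ ⟨⟨t, q⟩, ⟨ht, hq⟩, rfl⟩
    rw [mem_singleton_iff] at ht
    rw [mem_closedBall_zero_iff] at hq
    simp only at ht hq
    subst ht
    exact B.e.map_source (B.src 0 q (by simpa using B.δ_pos.le) (by linarith))
  set K' : Fr.ι → Set M := fun j => Fr.K j ∩ (B.e '' S₀) with hK'
  have hK'c : ∀ j, IsCompact (K' j) := fun j => (Fr.K_compact j).inter_right hS₀c.isClosed
  have hK't : ∀ j, K' j ⊆ (Fr.c j).target := fun j => inter_subset_left.trans (Fr.K_sub j)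
  set Z : Fr.ι → Set E3 := fun j => (Fr.c j).symm '' K' j with hZ
  have hZc : ∀ j, IsCompact (Z j) := fun j =>
    (hK'c j).image_of_continuousOn ((Fr.c j).continuousOn_symm.mono (hK't j))
  have hZs : ∀ j, Z j ⊆ (Fr.c j).source := by
    rintro j _ ⟨x, hx, rfl⟩
    exact (Fr.c j).map_target (hK't j hx)
  have hZt : ∀ j, ∀ z ∈ Z j, Fr.c j z ∈ B.e.target := by
    rintro j _ ⟨x, hx, rfl⟩
    rw [(Fr.c j).right_inv (hK't j hx)]
    exact hS₀t hx.2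
  set θ : Fr.ι → E3 → V3 := fun j y => B.e.symm (Fr.c j y) with hθ
  have hchg : ∀ j, ∀ z ∈ Z j, ContDiffAt ℝ 1 (θ j) z ∧ ∀ ξ : E3,
      (show E3 from DP B.e (B.e.symm (Fr.c j z)) (fderiv ℝ (θ j) z ξ)) = DP (Fr.c j) z ξ :=
    fun j z hz => (Fr.c1 j).change hB.c1 (hZs j hz) (hZt j z hz)
  -- bounds of the derivatives
  have hb1 : ∀ j, ∃ C, ∀ z ∈ Z j, ‖fderiv ℝ (θ j) z‖ ≤ C := by
    intro j
    refine (hZc j).exists_bound_of_continuousOn (f := fderiv ℝ (θ j)) ?_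
    intro z hz
    exact (((hchg j z hz).1.fderiv_right (m := 0) (by norm_num)).continuousAt).continuousWithinAt
  choose C₁' hC₁' using hb1
  obtain ⟨C₁, hC₁, hC₁j⟩ := UC4_exists_bound C₁'
  have hb2 : ∀ j, ∃ C > 0, ∀ z ∈ Z j, ∀ ξ : E3,
      ‖ξ‖ ≤ C * nrm g (Fr.c j z) (DP (Fr.c j) z ξ) ∧
      nrm g (Fr.c j z) (DP (Fr.c j) z ξ) ≤ C * ‖ξ‖ := fun j =>
    (Fr.c1 j).norm_compare g (hZc j) (hZs j)
  choose C₂' hC₂p hC₂' using hb2
  obtain ⟨C₂, hC₂, hC₂j⟩ := UC4_exists_bound C₂'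
  have hFC := Fr.C_pos
  refine ⟨max (C₁ * Fr.C) (C₅ * (C₅ * (C₂ * Fr.C))), by positivity, ?_⟩
  set C := max (C₁ * Fr.C) (C₅ * (C₅ * (C₂ * Fr.C))) with hCdef
  have hC : 0 < C := by positivity
  intro ε hε
  -- radii
  have hr1 : ∀ j, ∃ r > 0, ∀ z ∈ Z j, ∀ y y' : E3, ‖y - z‖ ≤ r → ‖y' - z‖ ≤ r →
      ‖θ j y - θ j y' - fderiv ℝ (θ j) z (y - y')‖ ≤ ε / Fr.C * ‖y - y'‖ := fun j =>
    uniform_strict (hZc j) (fun z hz => (hchg j z hz).1) (by positivity)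
  choose r₁' hr₁p hr₁' using hr1
  obtain ⟨r₁, hr₁, hr₁j⟩ := UC4_exists_pos r₁' hr₁p
  have hr2 : ∀ j, ∃ r > 0, ∀ z ∈ Z j, ∀ y : E3, ‖y - z‖ ≤ r → Fr.c j y ∈ B.e.target := by
    intro j
    have hop : IsOpen ((Fr.c j).source ∩ (Fr.c j) ⁻¹' B.e.target) :=
      (Fr.c j).isOpen_inter_preimage B.e.open_target
    obtain ⟨δ, hδ, hsub⟩ := (hZc j).exists_cthickening_subset_open hop
      (fun z hz => ⟨hZs j hz, hZt j z hz⟩)
    refine ⟨δ, hδ, fun z hz y hy => ?_⟩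
    have : y ∈ Metric.cthickening δ (Z j) := by
      apply Metric.mem_cthickening_of_dist_le y z δ _ hz
      rwa [dist_eq_norm]
    exact (hsub this).2
  choose r₂' hr₂p hr₂' using hr2
  obtain ⟨r₂, hr₂, hr₂j⟩ := UC4_exists_pos r₂' hr₂p
  refine ⟨min r₁ r₂ / Fr.C, by positivity, ?_⟩
  intro q hq hqL
  set x := B.pt q with hx
  set j := Fr.i x with hj
  set z := (Fr.c j).symm x with hz
  have hq0 : ((0, q) : V3) ∈ B.e.source := B.src 0 q (by simpa using B.δ_pos.le) (by linarith)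
  have hxK : x ∈ K' j := ⟨Fr.mem x hqL, (0, q), ⟨rfl, by simpa using hq⟩, rfl⟩
  have hzZ : z ∈ Z j := ⟨x, hxK, rfl⟩
  have hcz : Fr.c j z = x := (Fr.c j).right_inv (hK't j hxK)
  have hθz : B.e.symm (Fr.c j z) = (0, q) := by
    rw [hcz]
    exact B.e.left_inv hq0
  have hbase : B.e (B.e.symm (Fr.c j z)) = x := by rw [hθz]; rfl
  set N : V3 →L[ℝ] E3 := (Fr.N x : V3 →L[ℝ] E3) with hN
  have hNapp : ∀ y, N y = Fr.N x y := fun y => rfl
  set A : V3 →L[ℝ] V3 := (fderiv ℝ (θ j) z).comp N with hA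
  have hAapp : ∀ y, A y = fderiv ℝ (θ j) z (Fr.N x y) := fun y => rfl
  have hDP : ∀ ξ : E3, (show E3 from DP B.e (0, q) (fderiv ℝ (θ j) z ξ)) = DP (Fr.c j) z ξ := by
    intro ξ
    have h1 := (hchg j z hzZ).2 ξ
    rw [hθz] at h1
    exact h1
  have hAE : DP B.e (0, q) (A (1, 0)) ∈ E (B.e (0, q)) := by
    have h1 := Fr.N_E x hqL 1
    have h2 : (show TS (B.e (0, q)) from DP B.e (0, q) (A (1, 0))) ∈ E (B.e (0, q)) := by
      refine (UC4_mem_iff E (x := x) (x' := B.e (0, q)) rfl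
        (v := (show E3 from DP (Fr.c (Fr.i x)) ((Fr.c (Fr.i x)).symm x) (Fr.N x (1, 0)))) ?_).1 h1
      exact (hDP (Fr.N x (1, 0))).symm
    exact h2
  obtain ⟨hc1, hc2, hc3⟩ := hcone q hq hqL (A (1, 0)) hAE
  refine ⟨A, ?_, ?_, ?_, ?_⟩
  · intro y
    calc ‖A y‖ ≤ ‖fderiv ℝ (θ j) z‖ * ‖Fr.N x y‖ := (fderiv ℝ (θ j) z).le_opNorm (Fr.N x y)
      _ ≤ C₁ * (Fr.C * ‖y‖) := by
          gcongr
          · exact (hC₁' j z hzZ).trans (hC₁j j)
          · exact Fr.N_le x hqL y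
      _ = (C₁ * Fr.C) * ‖y‖ := by ring
      _ ≤ C * ‖y‖ := by gcongr; exact le_max_left _ _
  · exact hB.econe q (by linarith) hqL _ hAE
  · -- lower bound
    have h1 : (1 : ℝ) ≤ Fr.C * ‖Fr.N x (1, 0)‖ := by
      have h2 := Fr.N_ge x hqL (1, 0)
      have h3 : ‖((1, 0) : V3)‖ = 1 := by rw [Prod.norm_def]; simp
      rwa [h3] at h2
    have h2 : ‖Fr.N x (1, 0)‖ ≤ C₂ * nrm g (B.e (0, q)) (DP B.e (0, q) (A (1, 0))) := by
      have h3 := (hC₂' j z hzZ (Fr.N x (1, 0))).1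
      have h4 : nrm g (Fr.c j z) (DP (Fr.c j) z (Fr.N x (1, 0)))
          = nrm g (B.e (0, q)) (DP B.e (0, q) (A (1, 0))) :=
        UC4_nrm_eq g hcz (hDP (Fr.N x (1, 0))).symm
      rw [h4] at h3
      refine h3.trans ?_
      gcongr
      · exact nrm_nonneg g _ _
      · exact hC₂j j
    have h5 : 1 ≤ C * |(A (1, 0)).2.2| := by
      calc (1 : ℝ) ≤ Fr.C * ‖Fr.N x (1, 0)‖ := h1
        _ ≤ Fr.C * (C₂ * nrm g (B.e (0, q)) (DP B.e (0, q) (A (1, 0)))) := by gcongr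
        _ ≤ Fr.C * (C₂ * (C₅ * ‖A (1, 0)‖)) := by gcongr
        _ ≤ Fr.C * (C₂ * (C₅ * (C₅ * |(A (1, 0)).2.2|))) := by gcongr
        _ = (C₅ * (C₅ * (C₂ * Fr.C))) * |(A (1, 0)).2.2| := by ring
        _ ≤ C * |(A (1, 0)).2.2| := by gcongr; exact le_max_right _ _
    rwa [inv_le_iff_one_le_mul₀ hC, mul_comm]
  · intro y y' hy hy'
    have hNy : ∀ y : V3, ‖y‖ ≤ min r₁ r₂ / Fr.C → ‖Fr.N x y‖ ≤ min r₁ r₂ := by
      intro y hy
      calc ‖Fr.N x y‖ ≤ Fr.C * ‖y‖ := Fr.N_le x hqL y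
        _ ≤ Fr.C * (min r₁ r₂ / Fr.C) := by gcongr
        _ = min r₁ r₂ := by field_simp
    have hκ : ∀ y, Fr.κ x y = Fr.c j (z + Fr.N x y) := fun y => rfl
    have e1 := (hNy y hy).trans (min_le_left r₁ r₂)
    have e2 := (hNy y hy).trans (min_le_right r₁ r₂)
    have e3 := (hNy y' hy').trans (min_le_left r₁ r₂)
    refine ⟨?_, ?_⟩
    · rw [hκ]
      refine hr₂' j z hzZ _ ?_
      rw [add_sub_cancel_left]
      exact e2.trans (hr₂j j)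
    · have h1 := hr₁' j z hzZ (z + Fr.N x y) (z + Fr.N x y')
        (by rw [add_sub_cancel_left]; exact e1.trans (hr₁j j))
        (by rw [add_sub_cancel_left]; exact e3.trans (hr₁j j))
      have h2 : z + Fr.N x y - (z + Fr.N x y') = Fr.N x (y - y') := by
        rw [map_sub]; abel
      rw [h2] at h1
      rw [hκ, hκ, hAapp]
      refine h1.trans ?_
      calc ε / Fr.C * ‖Fr.N x (y - y')‖ ≤ ε / Fr.C * (Fr.C * ‖y - y'‖) := by
            gcongr; exact Fr.N_le x hqL _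
        _ = ε * ‖y - y'‖ := by field_simp

end VeniceMask
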