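import Pool.Agent.helper75.VM.M_C1
import Pool.Agent.helper75.VM.M_UC2
import Pool.Agent.helper75.VM.M_UC3
import Pool.Agent.helper75.VM.M_UC4

/-!
# MP_509a24_an, module SS: strong stable curves in good boxes
-/

open Set Filter Topology Bundle
open scoped ContDiff Manifold

namespace VeniceMask

universe u

/-- tube lemma for a forward invariant compact set -/
theorem SS_tube {M : Type u} [TopologicalSpace M] (A : AFlow M) {O U : Set M} (hO : IsCompact O)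
    (hinv : ∀ t, 0 ≤ t → ∀ x ∈ O, A.G t x ∈ O) (hU : IsOpen U) (hOU : O ⊆ U) (T : ℝ) :
    ∃ W, IsOpen W ∧ O ⊆ W ∧ ∀ w ∈ W, ∀ t, 0 ≤ t → t ≤ T → A.G t w ∈ U := by
  have hc : Continuous (fun p : ℝ × M => A.G (max p.1 0) p.2) :=
    A.cont_nonneg'.comp_continuous (f := fun p : ℝ × M => (max p.1 0, p.2)) (by fun_prop)
      (fun p => ⟨show (0 : ℝ) ≤ max p.1 0 from le_max_right _ _, mem_univ _⟩)
  obtain ⟨u, v, hu, hv, hsu, htv, huv⟩ := generalized_tube_lemma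
    (isCompact_Icc (a := (0:ℝ)) (b := T)) hO (hU.preimage hc) (by
      rintro ⟨t, x⟩ ⟨ht, hx⟩
      simp only [mem_preimage]
      rw [max_eq_left ht.1]
      exact hOU (hinv t ht.1 x hx))
  refine ⟨v, hv, htv, fun w hw t ht ht' => ?_⟩
  have h1 := huv (mk_mem_prod (hsu ⟨ht, ht'⟩) hw)
  simpa [max_eq_left ht] using h1

/-- reparametrisation of a curve by its last coordinate -/
theorem SS_reparam {r C : ℝ} (hr : 0 < r) (hC : 0 < C) (Θ : ℝ → V3) (w : V3)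
    (h1 : |w.2.1| ≤ 1 / 8 * |w.2.2|) (h2 : C⁻¹ ≤ |w.2.2|)
    (hΘ : ∀ s ∈ Icc (-r) r, ∀ s' ∈ Icc (-r) r,
      ‖Θ s - Θ s' - (s - s') • w‖ ≤ C⁻¹ / 50 * |s - s'|) :
    ∃ σ : ℝ → ℝ, σ (Θ 0).2.2 = 0 ∧
      (∀ v ∈ Icc ((Θ 0).2.2 - C⁻¹ * r / 2) ((Θ 0).2.2 + C⁻¹ * r / 2),
        σ v ∈ Icc (-r) r ∧ (Θ (σ v)).2.2 = v) ∧
      ∀ s ∈ Icc (-r) r, ∀ s' ∈ Icc (-r) r,
        |(Θ s).2.1 - (Θ s').2.1| ≤ 1 / 4 * |(Θ s).2.2 - (Θ s').2.2| := by
  have hCi : 0 < C⁻¹ := inv_pos.2 hC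
  set α := w.2.2 with hα
  have hα0 : 0 < |α| := lt_of_lt_of_le hCi h2
  have hv : ∀ s ∈ Icc (-r) r, ∀ s' ∈ Icc (-r) r,
      |(Θ s).2.2 - (Θ s').2.2 - (s - s') * α| ≤ |α| / 50 * |s - s'| := by
    intro s hs s' hs'
    have h3 := hΘ s hs s' hs'
    have h4 : |(Θ s - Θ s' - (s - s') • w).2.2| ≤ ‖Θ s - Θ s' - (s - s') • w‖ :=
      (norm_snd_le (Θ s - Θ s' - (s - s') • w).2).trans (norm_snd_le (Θ s - Θ s' - (s - s') • w))
    have h5 : (Θ s - Θ s' - (s - s') • w).2.2 = (Θ s).2.2 - (Θ s').2.2 - (s - s') * α := by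
      simp [hα]
    rw [h5] at h4
    have h6 : C⁻¹ / 50 * |s - s'| ≤ |α| / 50 * |s - s'| := by gcongr
    exact h4.trans (h3.trans h6)
  have hh : ∀ s ∈ Icc (-r) r, ∀ s' ∈ Icc (-r) r,
      |(Θ s).2.1 - (Θ s').2.1 - (s - s') * w.2.1| ≤ |α| / 50 * |s - s'| := by
    intro s hs s' hs'
    have h3 := hΘ s hs s' hs'
    have h4 : |(Θ s - Θ s' - (s - s') • w).2.1| ≤ ‖Θ s - Θ s' - (s - s') • w‖ :=
      (norm_fst_le (Θ s - Θ s' - (s - s') • w).2).trans (norm_snd_le (Θ s - Θ s' - (s - s') • w))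
    have h5 : (Θ s - Θ s' - (s - s') • w).2.1 = (Θ s).2.1 - (Θ s').2.1 - (s - s') * w.2.1 := by
      simp
    rw [h5] at h4
    have h6 : C⁻¹ / 50 * |s - s'| ≤ |α| / 50 * |s - s'| := by gcongr
    exact h4.trans (h3.trans h6)
  -- lower bound of the last coordinate
  have hlow : ∀ s ∈ Icc (-r) r, ∀ s' ∈ Icc (-r) r,
      49 / 50 * |α| * |s - s'| ≤ |(Θ s).2.2 - (Θ s').2.2| := by
    intro s hs s' hs'
    have h3 := hv s hs s' hs'
    have h4 : |(s - s') * α| ≤ |(Θ s).2.2 - (Θ s').2.2| +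
        |(Θ s).2.2 - (Θ s').2.2 - (s - s') * α| := by
      have : (s - s') * α = ((Θ s).2.2 - (Θ s').2.2) - ((Θ s).2.2 - (Θ s').2.2 - (s - s') * α) := by
        ring
      calc |(s - s') * α| = |((Θ s).2.2 - (Θ s').2.2) -
            ((Θ s).2.2 - (Θ s').2.2 - (s - s') * α)| := by rw [← this]
        _ ≤ _ := abs_sub _ _
    rw [abs_mul] at h4
    nlinarith [h3, h4]
  have hLip : ∀ s ∈ Icc (-r) r, ∀ s' ∈ Icc (-r) r,
      |(Θ s).2.1 - (Θ s').2.1| ≤ 1 / 4 * |(Θ s).2.2 - (Θ s').2.2| := by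
    intro s hs s' hs'
    have h3 := hh s hs s' hs'
    have h4 := hlow s hs s' hs'
    have h5 : |(Θ s).2.1 - (Θ s').2.1| ≤ |(Θ s).2.1 - (Θ s').2.1 - (s - s') * w.2.1| +
        |(s - s') * w.2.1| := by
      have : (Θ s).2.1 - (Θ s').2.1
          = ((Θ s).2.1 - (Θ s').2.1 - (s - s') * w.2.1) + (s - s') * w.2.1 := by ring
      calc |(Θ s).2.1 - (Θ s').2.1| = |((Θ s).2.1 - (Θ s').2.1 - (s - s') * w.2.1)
            + (s - s') * w.2.1| := by rw [← this]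
        _ ≤ _ := abs_add_le _ _
    rw [abs_mul] at h5
    have h6 : |s - s'| * |w.2.1| ≤ |s - s'| * (1 / 8 * |α|) :=
      mul_le_mul_of_nonneg_left h1 (abs_nonneg _)
    have h7 : 0 ≤ |α| * |s - s'| := by positivity
    nlinarith
  have h0mem : (0 : ℝ) ∈ Icc (-r) r := ⟨by linarith, hr.le⟩
  have hcont : ContinuousOn (fun s => (Θ s).2.2) (Icc (-r) r) := by
    have hL : LipschitzOnWith (Real.toNNReal (2 * |α|)) (fun s => (Θ s).2.2) (Icc (-r) r) := by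
      refine LipschitzOnWith.of_dist_le_mul fun s hs s' hs' => ?_
      rw [Real.dist_eq, Real.dist_eq, Real.coe_toNNReal _ (by positivity)]
      have h3 := hv s hs s' hs'
      have h5 : |(Θ s).2.2 - (Θ s').2.2| ≤ |(Θ s).2.2 - (Θ s').2.2 - (s - s') * α| +
          |(s - s') * α| := by
        have : (Θ s).2.2 - (Θ s').2.2
            = ((Θ s).2.2 - (Θ s').2.2 - (s - s') * α) + (s - s') * α := by ring
        calc |(Θ s).2.2 - (Θ s').2.2| = |((Θ s).2.2 - (Θ s').2.2 - (s - s') * α)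
              + (s - s') * α| := by rw [← this]
          _ ≤ _ := abs_add_le _ _
      rw [abs_mul] at h5
      have h7 : 0 ≤ |α| * |s - s'| := by positivity
      nlinarith
    exact hL.continuousOn
  have hrmem : r ∈ Icc (-r) r := ⟨by linarith, le_rfl⟩
  have hnrmem : -r ∈ Icc (-r) r := ⟨le_rfl, by linarith⟩
  have e1 := hv r hrmem 0 h0mem
  have e2 := hv (-r) hnrmem 0 h0mem
  rw [sub_zero] at e1 e2
  rw [abs_neg] at e2
  rw [abs_of_pos hr] at e1 e2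
  have hex : ∀ v ∈ Icc ((Θ 0).2.2 - C⁻¹ * r / 2) ((Θ 0).2.2 + C⁻¹ * r / 2),
      ∃ s ∈ Icc (-r) r, (Θ s).2.2 = v := by
    intro v hvm
    have hCr : C⁻¹ * r ≤ |α| * r := by gcongr
    rcases abs_cases α with ⟨ha, ha'⟩ | ⟨ha, ha'⟩
    · rw [ha] at e1 e2 hCr
      have e3 := abs_le.1 e1
      have e4 := abs_le.1 e2
      have := intermediate_value_Icc (show -r ≤ r by linarith) hcont
      obtain ⟨s, hs, hs'⟩ := this (show v ∈ Icc _ _ from
        ⟨by have := hvm.1; nlinarith [e4.2, e4.1], by have := hvm.2; nlinarith [e3.1, e3.2]⟩)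
      exact ⟨s, hs, hs'⟩
    · rw [ha] at e1 e2 hCr
      have e3 := abs_le.1 e1
      have e4 := abs_le.1 e2
      have := intermediate_value_Icc' (show -r ≤ r by linarith) hcont
      obtain ⟨s, hs, hs'⟩ := this (show v ∈ Icc _ _ from
        ⟨by have := hvm.1; nlinarith [e3.1, e3.2], by have := hvm.2; nlinarith [e4.1, e4.2]⟩)
      exact ⟨s, hs, hs'⟩
  have hinj : ∀ s ∈ Icc (-r) r, ∀ s' ∈ Icc (-r) r, (Θ s).2.2 = (Θ s').2.2 → s = s' := by
    intro s hs s' hs' h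
    have h3 := hlow s hs s' hs'
    rw [h, sub_self, abs_zero] at h3
    have h4 : |s - s'| ≤ 0 := by
      by_contra h5
      push Not at h5
      have : 0 < 49 / 50 * |α| * |s - s'| := by positivity
      linarith
    exact sub_eq_zero.1 (abs_nonpos_iff.1 h4)
  choose! σ hσ hσ' using hex
  refine ⟨σ, ?_, fun v hvm => ⟨hσ v hvm, hσ' v hvm⟩, hLip⟩
  have h0 : (Θ 0).2.2 ∈ Icc ((Θ 0).2.2 - C⁻¹ * r / 2) ((Θ 0).2.2 + C⁻¹ * r / 2) := by
    have : 0 < C⁻¹ * r := by positivity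
    exact ⟨by linarith, by linarith⟩
  exact hinj _ (hσ _ h0) _ h0mem (hσ' _ h0)

variable {M : Type u} [TopologicalSpace M] [ChartedSpace (EuclideanHalfSpace 3) M]
  [IsManifold (𝓡∂ 3) ∞ M] [CompactSpace M] [T2Space M]
  {g : Metric3 M} {X : ∀ x : M, TS x} {φ : ℝ → M → M} {E F : ∀ x : M, Submodule ℝ (TS x)}

theorem SS_kappa_zero (Fr : Frames φ E F) {x : M} (hx : x ∈ Ld φ E 1) : Fr.κ x 0 = x := by
  unfold Frames.κ
  rw [map_zero, add_zero]
  exact (Fr.c (Fr.i x)).right_inv (Fr.K_sub _ (Fr.mem x hx))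

theorem strong_goodBox (H : Hyp g X φ E F) (B : Box (aflow H 1)) (hB : GoodBox E F B) :
    ∃ η > 0, StrongStable B η := by
  obtain ⟨Fr⟩ := exists_frames H
  obtain ⟨T₀, hT₀, htm⟩ := Frames.time_map H Fr
  obtain ⟨β, a, Bm, hβ, hab, hlin⟩ := htm T₀ le_rfl
  set T := T₀ with hTdef
  obtain ⟨C, hC, hbox⟩ := Fr.box hB
  have hCi : 0 < C⁻¹ := inv_pos.2 hC
  set κ : ℝ := min 1 (C⁻¹ / (100 * C)) with hκdef
  have hκ : 0 < κ := lt_min one_pos (by positivity)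
  have hκ1 : κ ≤ 1 := min_le_left _ _
  have hκC : C * κ ≤ C⁻¹ / 100 := by
    have : κ ≤ C⁻¹ / (100 * C) := min_le_right _ _
    calc C * κ ≤ C * (C⁻¹ / (100 * C)) := by gcongr
      _ = C⁻¹ / 100 := by field_simp
  obtain ⟨ε, hε, habs⟩ := strong_stable_abstract hβ hκ hκ1
  obtain ⟨r₁, hr₁, htime⟩ := hlin ε hε
  obtain ⟨r₂, hr₂, hbx⟩ := hbox (C⁻¹ / 100) (by positivity)
  set r : ℝ := min (min r₁ r₂) (min (B.δ / (C + C⁻¹)) (1 / (2 * (C + C⁻¹)))) with hrdef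
  have hCC : 0 < C + C⁻¹ := by positivity
  have hr : 0 < r := lt_min (lt_min hr₁ hr₂) (lt_min (div_pos B.δ_pos hCC) (by positivity))
  have hrr₁ : r ≤ r₁ := (min_le_left _ _).trans (min_le_left _ _)
  have hrr₂ : r ≤ r₂ := (min_le_left _ _).trans (min_le_right _ _)
  have hrδ : (C + C⁻¹) * r ≤ B.δ := by
    have : r ≤ B.δ / (C + C⁻¹) := (min_le_right _ _).trans (min_le_left _ _)
    rwa [le_div_iff₀ hCC, mul_comm] at this
  have hr2 : (C + C⁻¹) * r ≤ 1 / 2 := by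
    have : r ≤ 1 / (2 * (C + C⁻¹)) := (min_le_right _ _).trans (min_le_right _ _)
    rw [le_div_iff₀ (by positivity)] at this
    linarith
  refine ⟨C⁻¹ * r / 2, by positivity, ?_⟩
  intro q hq hqL
  set x := B.pt q with hx
  have hxL : x ∈ Ld φ E 1 := hqL
  have hGφ : ∀ t, 0 ≤ t → ∀ z, (aflow H 1).G t z = φ t z := by
    intro t ht z
    show G2 φ t z = φ t z
    simp [G2, ht]
  -- the orbit
  set xs : ℕ → M := fun n => (aflow H 1).G (n * T) x with hxs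
  have hxsL : ∀ n, xs n ∈ Ld φ E 1 := fun n => (aflow H 1).mapsTo' _ x hxL
  have hxs0 : xs 0 = x := by simp [hxs, (aflow H 1).zero']
  have hxs1 : ∀ n, xs (n + 1) = φ T (xs n) := by
    intro n
    have h1 : ((n + 1 : ℕ) : ℝ) * T = T + n * T := by push_cast; ring
    simp only [hxs]
    rw [h1, (aflow H 1).add_nonneg' _ _ hT₀.le (by positivity), hGφ T hT₀.le]
  obtain ⟨k, hk0, hklip, hky⟩ := habs r hr (fun n => Fr.f T (xs n)) (fun n => a (xs n))
    (fun n => Bm (xs n)) (fun n => (hab _ (hxsL n)).1) (fun n => (hab _ (hxsL n)).2.1)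
    (fun n => (hab _ (hxsL n)).2.2.1) (fun n => (hab _ (hxsL n)).2.2.2)
    (fun n y y' hy hy' => (htime _ (hxsL n)).1 y y' (hy.trans hrr₁) (hy'.trans hrr₁))
  obtain ⟨AA, hAA, hcone, hlow, hlinb⟩ := hbx q hq hqL
  have h0mem : (0 : ℝ) ∈ Icc (-r) r := ⟨by linarith, hr.le⟩
  have hks : ∀ s ∈ Icc (-r) r, ‖((s, k s) : V3)‖ ≤ r := by
    intro s hs
    have h1 := hklip s hs 0 h0mem
    rw [hk0, sub_zero, sub_zero] at h1
    have h2 : |s| ≤ r := abs_le.2 hs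
    rw [Prod.norm_def]
    refine max_le h2 ?_
    calc ‖k s‖ ≤ κ * |s| := h1
      _ ≤ 1 * |s| := by gcongr
      _ ≤ r := by linarith
  set Θ : ℝ → V3 := fun s => B.e.symm (Fr.κ x (s, k s)) with hΘ
  have hΘlin : ∀ s ∈ Icc (-r) r, ∀ s' ∈ Icc (-r) r,
      ‖Θ s - Θ s' - (s - s') • AA (1, 0)‖ ≤ C⁻¹ / 50 * |s - s'| := by
    intro s hs s' hs'
    have h1 := (hlinb (s, k s) (s', k s') ((hks s hs).trans hrr₂) ((hks s' hs').trans hrr₂)).2
    have h2 : ((s, k s) : V3) - (s', k s') = (s - s') • ((1, 0) : V3) + (0, k s - k s') := by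
      ext <;> simp
    have h3 : ‖((s, k s) : V3) - (s', k s')‖ ≤ |s - s'| := by
      rw [Prod.mk_sub_mk, Prod.norm_def]
      refine max_le le_rfl ?_
      calc ‖k s - k s'‖ ≤ κ * |s - s'| := hklip s hs s' hs'
        _ ≤ 1 * |s - s'| := by gcongr
        _ = |s - s'| := one_mul _
    have h4 : ‖AA (0, k s - k s')‖ ≤ C⁻¹ / 100 * |s - s'| := by
      calc ‖AA (0, k s - k s')‖ ≤ C * ‖((0, k s - k s') : V3)‖ := hAA _
        _ = C * ‖k s - k s'‖ := by rw [Prod.norm_def]; simp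
        _ ≤ C * (κ * |s - s'|) := by gcongr; exact hklip s hs s' hs'
        _ = (C * κ) * |s - s'| := by ring
        _ ≤ _ := by gcongr
    have h5 : Θ s - Θ s' - (s - s') • AA (1, 0)
        = (Θ s - Θ s' - AA ((s, k s) - (s', k s'))) + AA (0, k s - k s') := by
      rw [h2, map_add, map_smul]
      abel
    rw [h5]
    calc _ ≤ ‖Θ s - Θ s' - AA ((s, k s) - (s', k s'))‖ + ‖AA (0, k s - k s')‖ := norm_add_le _ _
      _ ≤ C⁻¹ / 100 * |s - s'| + C⁻¹ / 100 * |s - s'| := by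
          refine add_le_add (h1.trans ?_) h4
          gcongr
      _ = _ := by ring
  have hΘ0 : Θ 0 = (0, q) := by
    simp only [hΘ, hk0]
    rw [show ((0, 0) : V3) = 0 from rfl, SS_kappa_zero Fr hxL, hx]
    exact B.e.left_inv (B.src 0 q (by simpa using B.δ_pos.le) (by linarith))
  obtain ⟨σ, hσ0, hσ, hLip⟩ := SS_reparam hr hC Θ (AA (1, 0)) hcone hlow hΘlin
  rw [hΘ0] at hσ0 hσ
  simp only at hσ0 hσ
  refine ⟨fun v => (Θ (σ v)).2.1, ?_, ?_, ?_⟩
  · simp only [hσ0, hΘ0]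
  · intro v hv v' hv'
    have := hLip _ (hσ v hv).1 _ (hσ v' hv').1
    rwa [(hσ v hv).2, (hσ v' hv').2] at this
  intro v hv O hOL hOc hOinv hxO
  obtain ⟨hs, hsv⟩ := hσ v hv
  set s := σ v with hsdef
  set z := Fr.κ x (s, k s) with hz
  have hzt : z ∈ B.e.target :=
    (hlinb (s, k s) (s, k s) ((hks s hs).trans hrr₂) ((hks s hs).trans hrr₂)).1
  -- Θ s is close to (0,q)
  have hΘs : ‖Θ s - (0, q)‖ ≤ (C + C⁻¹) * r := by
    have h1 := hΘlin s hs 0 h0mem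
    rw [hΘ0, sub_zero] at h1
    have h2 : |s| ≤ r := abs_le.2 hs
    have h3 : ‖s • AA (1, 0)‖ ≤ C * |s| := by
      rw [norm_smul, Real.norm_eq_abs, mul_comm]
      have h4 : ‖AA (1, 0)‖ ≤ C * ‖((1, 0) : V3)‖ := hAA _
      have h5 : ‖((1, 0) : V3)‖ = 1 := by rw [Prod.norm_def]; simp
      rw [h5, mul_one] at h4
      gcongr
    calc ‖Θ s - (0, q)‖ = ‖(Θ s - (0, q) - s • AA (1, 0)) + s • AA (1, 0)‖ := by
          congr 1; abel
      _ ≤ ‖Θ s - (0, q) - s • AA (1, 0)‖ + ‖s • AA (1, 0)‖ := norm_add_le _ _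
      _ ≤ C⁻¹ / 50 * |s| + C * |s| := add_le_add h1 h3
      _ ≤ (C + C⁻¹) * |s| := by nlinarith [abs_nonneg s]
      _ ≤ (C + C⁻¹) * r := by gcongr
  have hτ : |(Θ s).1| ≤ B.δ := by
    have h1 := (norm_fst_le (Θ s - (0, q))).trans (hΘs.trans hrδ)
    simpa using h1
  have hq' : ‖(Θ s).2‖ ≤ 1 := by
    have h1 := (norm_snd_le (Θ s - (0, q))).trans (hΘs.trans hr2)
    have h2 : (Θ s - (0, q)).2 = (Θ s).2 - q := by simp
    rw [h2] at h1
    calc ‖(Θ s).2‖ = ‖((Θ s).2 - q) + q‖ := by rw [sub_add_cancel]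
      _ ≤ ‖(Θ s).2 - q‖ + ‖q‖ := norm_add_le _ _
      _ ≤ 1 := by linarith
  have hzΘ : z = B.e ((Θ s).1, (Θ s).2) := by
    rw [Prod.mk.eta]
    exact (B.e.right_inv hzt).symm
  have hpt : ((fun v => (Θ (σ v)).2.1) v, v) = (Θ s).2 := by
    ext
    · rfl
    · exact hsv.symm
  rw [hpt]
  -- z is in the stable set
  have hzWs : z ∈ (aflow H 1).Ws O := by
    obtain ⟨y, hy0, hy1, hyn⟩ := hky s hs
    have hzn : ∀ n : ℕ, (aflow H 1).G (n * T) z = Fr.κ (xs n) (y n) := by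
      intro n
      induction n with
      | zero => rw [Nat.cast_zero, zero_mul, (aflow H 1).zero', hxs0, hy0]
      | succ n ih =>
        have h1 : ((n + 1 : ℕ) : ℝ) * T = T + n * T := by push_cast; ring
        have hyr : ‖y n‖ ≤ r₁ := by
          refine (hyn n).trans (le_trans ?_ hrr₁)
          have : ((1 : ℝ) / 2) ^ n ≤ 1 := pow_le_one₀ (by norm_num) (by norm_num)
          nlinarith
        rw [h1, (aflow H 1).add_nonneg' _ _ hT₀.le (by positivity), ih, hGφ T hT₀.le, hxs1, hy1,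
          (htime _ (hxsL n)).2 (y n) hyr]
    intro U hU hOU
    obtain ⟨W, hW, hOW, hWU⟩ := SS_tube (aflow H 1) hOc hOinv hU hOU T
    obtain ⟨V, hV, hOV, ρ, hρ, hsm⟩ := Frames.small H Fr O hOL hOc W hW hOW
    have h1 := hxO V hV hOV
    obtain ⟨t₁, ht₁⟩ := eventually_atTop.1 h1
    have h2 : Tendsto (fun n : ℕ => ((1 : ℝ) / 2) ^ n * r) atTop (𝓝 (0 * r)) :=
      (tendsto_pow_atTop_nhds_zero_of_lt_one (by norm_num) (by norm_num)).mul_const r
    rw [zero_mul] at h2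
    obtain ⟨n₂, hn₂⟩ := eventually_atTop.1 (h2.eventually (eventually_le_nhds hρ))
    obtain ⟨n₁, hn₁⟩ := exists_nat_ge (t₁ / T)
    set n₀ := max n₁ n₂ with hn₀
    rw [eventually_atTop]
    refine ⟨n₀ * T, fun t ht => ?_⟩
    -- write t = n T + t'
    have ht0 : 0 ≤ t := le_trans (by positivity) ht
    set n := ⌊t / T⌋₊ with hn
    have hnT : (n : ℝ) * T ≤ t := by
      rw [← le_div_iff₀ hT₀]
      exact Nat.floor_le (by positivity)
    have hnT' : t - n * T ≤ T := by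
      have := (Nat.lt_floor_add_one (t / T)).le
      rw [div_le_iff₀ hT₀] at this
      rw [← hn] at this
      linarith
    have hnn₀ : n₀ ≤ n := by
      apply Nat.le_floor
      rw [le_div_iff₀ hT₀]
      exact ht
    have hxV : xs n ∈ V := by
      apply ht₁
      rw [div_le_iff₀ hT₀] at hn₁
      refine hn₁.trans ?_
      have : (n₁ : ℝ) ≤ n := by exact_mod_cast (le_max_left _ _).trans hnn₀
      gcongr
    have hyρ : ‖y n‖ ≤ ρ := (hyn n).trans (hn₂ n ((le_max_right _ _).trans hnn₀))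
    have h3 := hsm (xs n) (hxsL n) hxV (y n) hyρ
    rw [← hzn] at h3
    have h4 := hWU _ h3 (t - n * T) (by linarith) hnT'
    rw [← (aflow H 1).add_nonneg' _ _ (by linarith) (by positivity)] at h4
    simpa using h4
  -- from z to the section
  rcases le_total 0 (Θ s).1 with h0 | h0
  · have h1 := B.flow 0 (Θ s).1 (Θ s).2 (by simpa using B.δ_pos.le) (by rwa [zero_add]) h0 hq'
    rw [zero_add, ← hzΘ] at h1
    have h2 : (aflow H 1).G (Θ s).1 (B.pt (Θ s).2) ∈ (aflow H 1).Ws O := by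
      have h3 : (aflow H 1).G (Θ s).1 (B.pt (Θ s).2) = z := h1.symm
      rw [h3]; exact hzWs
    exact ((aflow H 1).Ws_iff h0).1 h2
  · have h1 := B.flow (Θ s).1 (-(Θ s).1) (Θ s).2 hτ (by simpa using B.δ_pos.le) (by linarith) hq'
    rw [add_neg_cancel, ← hzΘ] at h1
    have h2 : B.pt (Θ s).2 = (aflow H 1).G (-(Θ s).1) z := h1
    rw [h2]
    exact ((aflow H 1).Ws_iff (by linarith)).2 hzWs

end VeniceMask
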