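import Pool.Agent.helper75.VM.M_RT
import Pool.Agent.helper75.VM.M_FB1
import Pool.Agent.helper75.VM.M_RP

/-!
# MP_509a24_an, module TD: trivial dimensions
-/

open Set Filter Topology Bundle
open scoped ContDiff Manifold

namespace VeniceMask

universe u

variable {M : Type u} [TopologicalSpace M] [ChartedSpace (EuclideanHalfSpace 3) M]
  [IsManifold (𝓡∂ 3) ∞ M] [CompactSpace M] [T2Space M]
  {g : Metric3 M} {X : ∀ x : M, TS x} {φ : ℝ → M → M} {E F : ∀ x : M, Submodule ℝ (TS x)}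

theorem TD_castE {M : Type u} [TopologicalSpace M] [ChartedSpace (EuclideanHalfSpace 3) M]
    {E : ∀ x : M, Submodule ℝ (TS x)} {x y : M} (h : x = y) {w : E3}
    (hw : w ∈ (show Submodule ℝ E3 from E x)) : w ∈ (show Submodule ℝ E3 from E y) := by
  subst h; exact hw

omit [CompactSpace M] [T2Space M] in
theorem TD_castN {x y : M} (h : x = y) (w : E3) : nrm g x w = nrm g y w := by
  subst h; rfl

omit [CompactSpace M] [T2Space M] in
theorem TD_castA {x y : M} (h : x = y) (u w : E3) : area g x u w = area g y u w := by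
  subst h; rfl

theorem TD_castX {M : Type u} [TopologicalSpace M] [ChartedSpace (EuclideanHalfSpace 3) M]
    {X : ∀ x : M, TS x} {x y : M} (h : x = y) : (show E3 from X x) = (show E3 from X y) := by
  subst h; rfl

/-- the first return map of the derivative on the plane `0 × ℝ²` -/
theorem TD_linear {d : ℕ} {H : Hyp g X φ E F} (B : FlowBox (aflow H d)) (hB : IsC1Param B.e)
    (t : ℝ) : ∃ A : Q2 →L[ℝ] Q2, ∀ q : Q2, ∃ τ : ℝ,
      (show E3 from D φ t (B.e (0, 0)) (DP B.e (0, 0) (0, q))) = DP B.e (0, 0) (τ, A q) := by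
  have h0 : ((0, 0) : V3) ∈ B.e.source := B.src 0 0 (by simpa using B.δ_pos.le) (by simp)
  have hbij := hB.bij h0
  let L : V3 →ₗ[ℝ] E3 := ((show V3 →L[ℝ] E3 from DP B.e (0, 0)) : V3 →ₗ[ℝ] E3)
  let L' : V3 ≃ₗ[ℝ] E3 := LinearEquiv.ofBijective L hbij
  let L'' : V3 ≃L[ℝ] E3 := L'.toContinuousLinearEquiv
  let DD : E3 →L[ℝ] E3 := (show E3 →L[ℝ] E3 from D φ t (B.e (0, 0)))
  let W : Q2 →L[ℝ] V3 := (L''.symm : E3 →L[ℝ] V3).comp (DD.comp ((L'' : V3 →L[ℝ] E3).comp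
    (ContinuousLinearMap.inr ℝ ℝ Q2)))
  refine ⟨(ContinuousLinearMap.snd ℝ ℝ Q2).comp W, fun q => ⟨(W q).1, ?_⟩⟩
  have h1 : L'' (W q) = DD (L'' (0, q)) := by
    show L'' (L''.symm (DD (L'' (0, q)))) = _
    simp
  exact h1.symm

theorem TD_iter {H : Hyp g X φ E F} {d : ℕ} {O : Set M} {p : M} {T : ℝ}
    (hO : (aflow H d).IsPer O p T) (k : ℕ) : φ (k * T) p = p := by
  have hT := hO.T_pos
  have h1 : φ T p = p := by
    have := hO.per
    rw [aflow_G, G2_nonneg hT.le] at this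
    exact this
  induction k with
  | zero => simp [H.flow.zero]
  | succ k ih =>
    have : ((k + 1 : ℕ) : ℝ) * T = k * T + T := by push_cast; ring
    rw [this, H.flow.add _ _ (by positivity) hT.le, h1, ih]

/-- a return map close to its linear part -/
theorem TD_ret (H : Hyp g X φ E F) {d : ℕ} (B : FlowBox (aflow H d)) (hB : IsC1Param B.e)
    {O : Set M} {T : ℝ} (hO : (aflow H d).IsPer O (B.pt 0) T) (k : ℕ) (hk : 2 * B.δ < k * T)
    (A : Q2 →L[ℝ] Q2) (hA : ∀ q : Q2, ∃ τ : ℝ,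
      (show E3 from D φ (k * T) (B.e (0, 0)) (DP B.e (0, 0) (0, q))) =
        DP B.e (0, 0) (τ, A q)) {ε : ℝ} (hε : 0 < ε) :
    ∃ (B' : FlowBox (aflow H d)) (R : Ret B' O), ∀ q : Q2, ‖q‖ ≤ 1 →
      ‖R.P q - A q‖ ≤ ε * ‖q‖ := by
  obtain ⟨δ₀, hδ0, hδB, h1⟩ := exists_ret H d B hB hO k hk A hA hε
  obtain ⟨ρ₀, hρ0, hρ1, h2⟩ := h1 δ₀ hδ0 le_rfl
  obtain ⟨B', hB', hδ', he, hs, hsym, -⟩ := flowBox_rescale B hB hρ0 hρ1 hδ0 hδB
  obtain ⟨R, -, hR, -⟩ := h2 ρ₀ hρ0 le_rfl B' hB' hδ' he hs hsym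
  refine ⟨B', R, fun q hq => ?_⟩
  have h3 := hR q 0 hq (by simp)
  rw [R.P0] at h3
  simpa using h3

/-- large multiples of the period -/
theorem TD_large {T l : ℝ} (hT : 0 < T) (hl : 0 < l) (c δ : ℝ) :
    ∃ k : ℕ, 2 * δ < k * T ∧ c * Real.exp (-l * (k * T)) ≤ 1 / 4 := by
  have h1 : Tendsto (fun k : ℕ => (k : ℝ) * T) atTop atTop :=
    tendsto_natCast_atTop_atTop.atTop_mul_const hT
  have h2 : Tendsto (fun s : ℝ => c * Real.exp (-l * s)) atTop (𝓝 (c * 0)) := by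
    apply Tendsto.const_mul
    have h3 : Tendsto (fun s : ℝ => l * s) atTop atTop := tendsto_id.const_mul_atTop hl
    have h4 := Real.tendsto_exp_neg_atTop_nhds_zero.comp h3
    refine h4.congr fun s => ?_
    simp [Function.comp]
  rw [mul_zero] at h2
  have h5 := (h2.comp h1).eventually (eventually_le_nhds (show (0 : ℝ) < 1 / 4 by norm_num))
  obtain ⟨k, hk1, hk2⟩ := ((h1.eventually (eventually_gt_atTop (2 * δ))).and h5).exists
  exact ⟨k, hk1, hk2⟩

theorem trivial_two (H : Hyp g X φ E F) {O : Set M} {p : M} {T : ℝ}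
    (hO : (aflow H 2).IsPer O p T) : (aflow H 2).Wu O ⊆ O := by
  have hp : p ∈ Ld φ E 2 := hO.mem
  have : FiniteDimensional ℝ (TS p) := inferInstanceAs (FiniteDimensional ℝ E3)
  have hX : X p ≠ 0 := fun h => hO.reg ((aflow_Sing H 2 hp).2 h)
  have hXF := X_mem_F H hp.1
  let b := Module.finBasisOfFinrankEq ℝ (E p) hp.2
  have hli : LinearIndependent ℝ ![X p, (b 0 : TS p), (b 1 : TS p)] := by
    have h1 : LinearIndependent ℝ ![(b 0 : TS p), (b 1 : TS p)] := by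
      have h2 := b.linearIndependent.map' (E p).subtype (Submodule.ker_subtype _)
      have h3 : (E p).subtype ∘ b = ![(b 0 : TS p), (b 1 : TS p)] := by
        ext i
        fin_cases i <;> rfl
      rw [h3] at h2
      exact h2
    have h4 : LinearIndependent ℝ (Fin.cons (X p) ![(b 0 : TS p), (b 1 : TS p)] :
        Fin 3 → TS p) := by
      rw [linearIndependent_finCons]
      refine ⟨h1, fun h5 => ?_⟩
      have h6 : Submodule.span ℝ (Set.range ![(b 0 : TS p), (b 1 : TS p)]) ≤ E p := by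
        rw [Submodule.span_le]
        rintro _ ⟨i, rfl⟩
        fin_cases i
        · exact (b 0).2
        · exact (b 1).2
      have h7 := h6 h5
      have h8 := (H.split.compl p hp.1).disjoint
      exact hX (Submodule.disjoint_def.1 h8 _ h7 hXF)
    exact h4
  obtain ⟨B, hB, hBp, -, ρ, hρ, hD⟩ := exists_flowBox H 2 hp hX _ _ hli (N := univ) univ_mem
  have hx0 : B.e (0, 0) = p := hBp
  rw [← hBp] at hO
  have h0 : ((0, 0) : V3) ∈ B.e.source := B.src 0 0 (by simpa using B.δ_pos.le) (by simp)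
  obtain ⟨C, hC, hnc⟩ := hB.norm_compare g (K := {((0, 0) : V3)}) isCompact_singleton
    (by simpa using h0)
  obtain ⟨C1, hC1, l, hl, hcon⟩ := H.contr
  obtain ⟨k, hk1, hk2⟩ := TD_large hO.T_pos hl (C * C1 * C) B.δ
  have hT := hO.T_pos
  have hkT : 0 ≤ (k : ℝ) * T := by positivity
  have hfix : φ (k * T) (B.e (0, 0)) = B.e (0, 0) := TD_iter hO k
  have hmem : B.e (0, 0) ∈ maxInv φ := by
    have : B.pt 0 ∈ Ld φ E 2 := hO.mem
    exact this.1
  obtain ⟨A, hA⟩ := TD_linear B hB (k * T)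
  have hE : ∀ q : Q2, DP B.e (0, 0) (0, q) ∈ E (B.e (0, 0)) := by
    intro q
    have h1 : (show E3 from DP B.e (0, 0) (0, q)) ∈ (show Submodule ℝ E3 from E p) := by
      rw [hD]
      show ((0 : ℝ) • X p + (ρ * q.1) • (b 0 : TS p) + (ρ * q.2) • (b 1 : TS p)) ∈ E p
      rw [zero_smul, zero_add]
      exact (E p).add_mem ((E p).smul_mem _ (b 0).2) ((E p).smul_mem _ (b 1).2)
    exact TD_castE hx0.symm h1
  have hAq : ∀ q : Q2, ‖A q‖ ≤ 1 / 4 * ‖q‖ := by
    intro q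
    obtain ⟨τ, hτ⟩ := hA q
    have h1 : ‖A q‖ ≤ ‖((τ, A q) : V3)‖ := by
      rw [Prod.norm_def]; exact le_max_right _ _
    have h2 := (hnc (0, 0) rfl (τ, A q)).1
    have h3 : nrm g (B.e (0, 0)) (DP B.e (0, 0) (τ, A q)) =
        nrm g (φ (k * T) (B.e (0, 0))) (D φ (k * T) (B.e (0, 0)) (DP B.e (0, 0) (0, q))) := by
      exact (congrArg (fun w : E3 => nrm g (B.e (0, 0)) w) hτ.symm).trans (TD_castN hfix.symm _)
    have h4 := hcon _ hmem (k * T) hkT _ (hE q)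
    have h5 := (hnc (0, 0) rfl (0, q)).2
    have h6 : ‖((0, q) : V3)‖ = ‖q‖ := by
      rw [Prod.norm_def]; simp
    rw [h6] at h5
    have hexp : 0 < Real.exp (-l * (k * T)) := Real.exp_pos _
    calc ‖A q‖ ≤ C * nrm g (B.e (0, 0)) (DP B.e (0, 0) (τ, A q)) := h1.trans h2
      _ ≤ C * (C1 * Real.exp (-l * (k * T)) * (C * ‖q‖)) := by
        rw [h3]
        refine mul_le_mul_of_nonneg_left (h4.trans ?_) hC.le
        exact mul_le_mul_of_nonneg_left h5 (by positivity)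
      _ = (C * C1 * C * Real.exp (-l * (k * T))) * ‖q‖ := by ring
      _ ≤ 1 / 4 * ‖q‖ := mul_le_mul_of_nonneg_right hk2 (norm_nonneg _)
  obtain ⟨B', R, hR⟩ := TD_ret H B hB hO k hk1 A hA (ε := 1 / 4) (by norm_num)
  have hP : ∀ q : Q2, ‖q‖ ≤ 1 → ‖R.P q‖ ≤ 1 / 2 * ‖q‖ := by
    intro q hq
    have h1 := hR q hq
    have h2 := hAq q
    have h3 : R.P q = (R.P q - A q) + A q := by abel
    rw [h3]
    refine (norm_add_le _ _).trans ?_
    linarith
  intro y hy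
  obtain ⟨t₀, ht₀, u, hu0, hu1, hu2, -⟩ := R.bwd hO hy (ρ := 1) one_pos le_rfl 0
  have hu : ∀ n, ‖u 0‖ ≤ (1 / 2) ^ n * ‖u n‖ := by
    intro n
    induction n with
    | zero => simp
    | succ n ih =>
      have h1 := hP (u (n + 1)) (hu1 _)
      rw [hu2 n] at h1
      calc ‖u 0‖ ≤ (1 / 2) ^ n * ‖u n‖ := ih
        _ ≤ (1 / 2) ^ n * (1 / 2 * ‖u (n + 1)‖) := mul_le_mul_of_nonneg_left h1 (by positivity)
        _ = (1 / 2) ^ (n + 1) * ‖u (n + 1)‖ := by ring
  have hu' : u 0 = 0 := by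
    rw [← norm_le_zero_iff]
    have h1 : Tendsto (fun n : ℕ => (1 / 2 : ℝ) ^ n) atTop (𝓝 0) :=
      tendsto_pow_atTop_nhds_zero_of_lt_one (by norm_num) (by norm_num)
    refine ge_of_tendsto' h1 fun n => ?_
    refine (hu n).trans ?_
    have := hu1 n
    have h3 : (0 : ℝ) < (1 / 2) ^ n := by positivity
    nlinarith
  rw [hu'] at hu0
  have h1 : (aflow H 2).G (-t₀) y ∈ O := hu0 ▸ R.center
  have h2 := AFlow.IsPer.inv _ hO t₀ _ h1
  rw [AFlow.G_G_neg _ hy.1] at h2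
  exact h2

theorem trivial_zero (H : Hyp g X φ E F) {O : Set M} {p : M} {T : ℝ}
    (hO : (aflow H 0).IsPer O p T) : (aflow H 0).Ws O ∩ (aflow H 0).L ⊆ O := by
  have hp : p ∈ Ld φ E 0 := hO.mem
  have hfin : ∀ x : M, FiniteDimensional ℝ (TS x) := fun x =>
    inferInstanceAs (FiniteDimensional ℝ E3)
  have hfr : Module.finrank ℝ (TS p) = 3 := by
    show Module.finrank ℝ E3 = 3
    simp
  have hX : X p ≠ 0 := fun h => hO.reg ((aflow_Sing H 0 hp).2 h)
  obtain ⟨f, e, hli⟩ : ∃ f e : TS p, LinearIndependent ℝ ![X p, f, e] := by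
    have h1 : LinearIndependent ℝ (![X p] : Fin 1 → TS p) := by
      rw [linearIndependent_unique_iff]; exact hX
    obtain ⟨f, hf⟩ := exists_linearIndependent_snoc_of_lt_finrank (n := 1) h1
      (by rw [hfr]; norm_num)
    obtain ⟨e, he⟩ := exists_linearIndependent_snoc_of_lt_finrank (n := 2) hf
      (by rw [hfr]; norm_num)
    refine ⟨f, e, ?_⟩
    have h2 : (Fin.snoc (Fin.snoc (![X p] : Fin 1 → TS p) f : Fin 2 → TS p) e : Fin 3 → TS p) =
        ![X p, f, e] := by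
      funext i
      fin_cases i <;> rfl
    exact h2 ▸ he
  obtain ⟨B, hB, hBp, -, ρ, hρ, hD⟩ := exists_flowBox H 0 hp hX _ _ hli (N := univ) univ_mem
  have hx0 : B.e (0, 0) = p := hBp
  rw [← hBp] at hO
  have h0 : ((0, 0) : V3) ∈ B.e.source := B.src 0 0 (by simpa using B.δ_pos.le) (by simp)
  have hmem' : B.e (0, 0) ∈ Ld φ E 0 := hO.mem
  have hmem : B.e (0, 0) ∈ maxInv φ := hmem'.1
  have hT := hO.T_pos
  have hFtop : F (B.e (0, 0)) = ⊤ := by
    have h1 := finrank_F H hmem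
    rw [hmem'.2, zero_add] at h1
    apply Submodule.eq_top_of_finrank_eq
    rw [h1]
    show 3 = Module.finrank ℝ E3
    simp
  have hX0 : X (B.e (0, 0)) ≠ 0 := fun h => hO.reg ((aflow_Sing H 0 hmem').2 h)
  obtain ⟨C, hC, hnc⟩ := hB.norm_compare g (K := {((0, 0) : V3)}) isCompact_singleton
    (by simpa using h0)
  obtain ⟨K, hK, l, hl, hsect⟩ := H.sect
  have hbij := hB.bij h0
  have hDX : ∀ c : ℝ, DP B.e (0, 0) (c, 0) = c • X (B.e (0, 0)) := fun c =>
    flowBox_X B hB (by simpa using B.δ_pos.le) (by simp) c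
  -- lower bound for the area
  obtain ⟨c, hc, hlow⟩ : ∃ c : ℝ, 0 < c ∧ ∀ q : Q2, c * ‖q‖ ≤
      area g (B.e (0, 0)) (X (B.e (0, 0))) (DP B.e (0, 0) (0, q)) := by
    let L : V3 →L[ℝ] E3 := (show V3 →L[ℝ] E3 from DP B.e (0, 0))
    have hcont : Continuous fun q : Q2 =>
        area g (B.e (0, 0)) (X (B.e (0, 0))) (DP B.e (0, 0) (0, q)) := by
      let GG : E3 →L[ℝ] E3 →L[ℝ] ℝ := (show E3 →L[ℝ] E3 →L[ℝ] ℝ from g.inner (B.e (0, 0)))
      let XX : E3 := X (B.e (0, 0))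
      have key : Continuous fun q : Q2 =>
          Real.sqrt (GG XX XX * GG (L (0, q)) (L (0, q)) - (GG XX (L (0, q))) ^ 2) := by
        fun_prop
      exact key
    have hsph : IsCompact (Metric.sphere (0 : Q2) 1) := isCompact_sphere _ _
    have hne : (Metric.sphere (0 : Q2) 1).Nonempty := ⟨(1, 0), by simp [Prod.norm_def]⟩
    obtain ⟨q₀, hq₀, hmin⟩ := hsph.exists_isMinOn hne hcont.continuousOn
    have hq₀' : ‖q₀‖ = 1 := by simpa using hq₀
    have hpos : 0 < area g (B.e (0, 0)) (X (B.e (0, 0))) (DP B.e (0, 0) (0, q₀)) := by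
      rcases (area_nonneg g (B.e (0, 0)) (X (B.e (0, 0))) (DP B.e (0, 0) (0, q₀))).lt_or_eq with
        h1 | h1
      · exact h1
      · exfalso
        obtain ⟨c, hc⟩ := area_eq_zero g _ _ _ hX0 h1.symm
        rw [← hDX c] at hc
        have h2 := hbij.1 hc
        have h3 : q₀ = 0 := (Prod.mk.inj h2).2
        rw [h3] at hq₀'
        simp at hq₀'
    refine ⟨_, hpos, fun q => ?_⟩
    rcases eq_or_ne q 0 with h1 | h1
    · rw [h1, norm_zero, mul_zero]; exact area_nonneg _ _ _ _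
    · have hn : 0 < ‖q‖ := norm_pos_iff.2 h1
      have h2 : (‖q‖⁻¹ • q) ∈ Metric.sphere (0 : Q2) 1 := by
        rw [mem_sphere_zero_iff_norm, norm_smul, norm_inv, norm_norm, inv_mul_cancel₀ hn.ne']
      have h3 := hmin h2
      have h4 : DP B.e (0, 0) (0, q) = ‖q‖ • DP B.e (0, 0) (0, ‖q‖⁻¹ • q) := by
        rw [← map_smul]
        congr 1
        ext <;> simp [hn.ne']
      rw [h4, area_smul_right, abs_of_pos hn, mul_comm]
      exact mul_le_mul_of_nonneg_left h3 hn.le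
  set NX := nrm g (B.e (0, 0)) (X (B.e (0, 0))) with hNX
  have hNXpos : 0 < NX := by
    rcases (nrm_nonneg g (B.e (0, 0)) (X (B.e (0, 0)))).lt_or_eq with h1 | h1
    · exact h1
    · exact absurd ((nrm_eq_zero g _ _).1 h1.symm) hX0
  obtain ⟨k, hk1, hk2⟩ := TD_large hO.T_pos hl (K * NX * C * c⁻¹) B.δ
  have hkT : 0 ≤ (k : ℝ) * T := by positivity
  have hfix : φ (k * T) (B.e (0, 0)) = B.e (0, 0) := TD_iter hO k
  obtain ⟨A, hA⟩ := TD_linear B hB (k * T)
  have hAq : ∀ q : Q2, 4 * ‖q‖ ≤ ‖A q‖ := by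
    intro q
    obtain ⟨τ, hτ⟩ := hA q
    have h1 := hsect _ hmem (k * T) hkT (X (B.e (0, 0))) (by rw [hFtop]; trivial)
      (DP B.e (0, 0) (0, q)) (by rw [hFtop]; trivial)
    have h2 : area g (φ (k * T) (B.e (0, 0)))
        (D φ (k * T) (B.e (0, 0)) (X (B.e (0, 0))))
        (D φ (k * T) (B.e (0, 0)) (DP B.e (0, 0) (0, q))) =
        area g (B.e (0, 0)) (X (B.e (0, 0))) (DP B.e (0, 0) (τ, A q)) := by
      rw [D_X H.c1 H.inward H.flow hkT]
      have e1 : (show E3 from X (φ (k * T) (B.e (0, 0)))) = (show E3 from X (B.e (0, 0))) :=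
        TD_castX hfix
      exact (TD_castA hfix _ _).trans
        (congrArg₂ (fun a w : E3 => area g (B.e (0, 0)) a w) e1 hτ)
    have h3 : DP B.e (0, 0) (τ, A q) = DP B.e (0, 0) (0, A q) + τ • X (B.e (0, 0)) := by
      rw [← hDX τ, ← map_add]
      congr 1
      ext <;> simp
    rw [h2, h3, area_add_smul] at h1
    have h4 := area_le g (B.e (0, 0)) (X (B.e (0, 0))) (DP B.e (0, 0) (0, A q))
    have h5 := (hnc (0, 0) rfl (0, A q)).2
    have h6 : ‖((0, A q) : V3)‖ = ‖A q‖ := by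
      rw [Prod.norm_def]; simp
    rw [h6] at h5
    have h7 := hlow q
    have hexp : 0 < Real.exp (l * (k * T)) := Real.exp_pos _
    have h8 : K⁻¹ * Real.exp (l * (k * T)) * (c * ‖q‖) ≤ NX * (C * ‖A q‖) := by
      refine (mul_le_mul_of_nonneg_left h7 (by positivity)).trans (h1.trans (h4.trans ?_))
      exact mul_le_mul_of_nonneg_left h5 hNXpos.le
    have h9 : Real.exp (-l * (k * T)) * Real.exp (l * (k * T)) = 1 := by
      rw [← Real.exp_add]; simp
    have h10 : ‖q‖ ≤ (K * NX * C * c⁻¹ * Real.exp (-l * (k * T))) * ‖A q‖ := by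
      have e1 : ‖q‖ = (K * c⁻¹ * Real.exp (-l * (k * T))) *
          (K⁻¹ * Real.exp (l * (k * T)) * (c * ‖q‖)) := by
        have : (K * c⁻¹ * Real.exp (-l * (k * T))) *
          (K⁻¹ * Real.exp (l * (k * T)) * (c * ‖q‖)) =
          (K * K⁻¹) * (c⁻¹ * c) * (Real.exp (-l * (k * T)) * Real.exp (l * (k * T))) * ‖q‖ := by
          ring
        rw [this, h9, mul_inv_cancel₀ hK.ne', inv_mul_cancel₀ hc.ne']
        ring
      rw [e1]
      calc _ ≤ (K * c⁻¹ * Real.exp (-l * (k * T))) * (NX * (C * ‖A q‖)) :=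
            mul_le_mul_of_nonneg_left h8 (by positivity)
        _ = _ := by ring
    have h11 : (K * NX * C * c⁻¹ * Real.exp (-l * (k * T))) * ‖A q‖ ≤ 1 / 4 * ‖A q‖ :=
      mul_le_mul_of_nonneg_right hk2 (norm_nonneg _)
    linarith
  obtain ⟨B', R, hR⟩ := TD_ret H B hB hO k hk1 A hA (ε := 1) one_pos
  have hP : ∀ q : Q2, ‖q‖ ≤ 1 → 2 * ‖q‖ ≤ ‖R.P q‖ := by
    intro q hq
    have h1 := hR q hq
    have h2 := hAq q
    have h3 : ‖A q‖ ≤ ‖R.P q - A q‖ + ‖R.P q‖ := by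
      have : A q = -(R.P q - A q) + R.P q := by abel
      calc ‖A q‖ = ‖-(R.P q - A q) + R.P q‖ := by rw [← this]
        _ ≤ ‖-(R.P q - A q)‖ + ‖R.P q‖ := norm_add_le _ _
        _ = _ := by rw [norm_neg]
    have := norm_nonneg q
    linarith
  intro y hy
  obtain ⟨t₀, ht₀, u, hu0, hu1, hu2, -⟩ := R.fwd hO hy.1 hy.2 (ρ := 1) one_pos le_rfl 0
  have hu : ∀ n, 2 ^ n * ‖u 0‖ ≤ ‖u n‖ := by
    intro n
    induction n with
    | zero => simp
    | succ n ih =>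
      have h1 := hP (u n) (hu1 _)
      rw [hu2 n] at h1
      calc (2 : ℝ) ^ (n + 1) * ‖u 0‖ = 2 * (2 ^ n * ‖u 0‖) := by ring
        _ ≤ 2 * ‖u n‖ := by linarith
        _ ≤ _ := h1
  have hu' : u 0 = 0 := by
    by_contra hne
    have hn : 0 < ‖u 0‖ := norm_pos_iff.2 hne
    obtain ⟨n, hn2⟩ := pow_unbounded_of_one_lt (‖u 0‖⁻¹) (one_lt_two)
    have h1 := hu n
    have h2 := hu1 n
    have h3 : ‖u 0‖⁻¹ * ‖u 0‖ < 2 ^ n * ‖u 0‖ := mul_lt_mul_of_pos_right hn2 hn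
    rw [inv_mul_cancel₀ hn.ne'] at h3
    linarith
  rw [hu'] at hu0
  have h1 : (aflow H 0).G t₀ y ∈ O := hu0 ▸ R.center
  have h2 := AFlow.IsPer.inv _ hO (-t₀) _ h1
  rw [AFlow.G_neg_G _ hy.2] at h2
  exact h2

theorem trivial_three (H : Hyp g X φ E F) {O : Set M} {p : M} {T : ℝ}
    (hO : (aflow H 3).IsPer O p T) : False := by
  have hp : p ∈ Ld φ E 3 := hO.mem
  have : FiniteDimensional ℝ (TS p) := inferInstanceAs (FiniteDimensional ℝ E3)
  have h1 := finrank_F H hp.1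
  rw [hp.2] at h1
  have h2 : Module.finrank ℝ (F p) = 0 := by omega
  have h3 : F p = ⊥ := Submodule.finrank_eq_zero.1 h2
  have h4 := X_mem_F H hp.1
  rw [h3, Submodule.mem_bot] at h4
  exact hO.reg ((aflow_Sing H 3 hp).2 h4)

end VeniceMask
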