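import Pool.Agent.helper75.VM.M_AR
import Pool.Agent.helper75.VM.M_CH3

/-!
# MP_509a24_an, module TR: transport between good boxes
-/

open Set Filter Topology Bundle
open scoped ContDiff Manifold

namespace VeniceMask

universe u

section aux

variable {M : Type u} [TopologicalSpace M] [ChartedSpace (EuclideanHalfSpace 3) M]
  [IsManifold (𝓡∂ 3) ∞ M]

omit [IsManifold (𝓡∂ 3) ∞ M] in
theorem TR_mem_congr {F : ∀ x : M, Submodule ℝ (TS x)} {x y : M} (h : x = y) {v : TS x}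
    {w : TS y} (hvw : (show E3 from v) = (show E3 from w)) : v ∈ F x ↔ w ∈ F y := by
  subst h
  have h' : v = w := hvw
  rw [h']

theorem TR_area_congr (g : Metric3 M) (X : ∀ x : M, TS x) {x y : M} (h : x = y) {v : TS x}
    {w : TS y} (hvw : (show E3 from v) = (show E3 from w)) :
    area g x (X x) v = area g y (X y) w := by
  subst h
  have h' : v = w := hvw
  rw [h']

theorem TR_curve {k : ℝ → ℝ} {m s : ℝ} {J : Set ℝ} (h : HasDerivWithinAt k m J s) :
    HasDerivWithinAt (fun s' : ℝ => ((0 : ℝ), ((s', k s') : Q2))) ((0 : ℝ), ((1, m) : Q2)) J s :=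
  (hasDerivWithinAt_const s J (0 : ℝ)).prodMk ((hasDerivWithinAt_id s J).prodMk h)

/-- derivative of an implicitly given curve -/
theorem TR_implicit {V W : Type} [NormedAddCommGroup V] [NormedSpace ℝ V] [CompleteSpace V]
    [NormedAddCommGroup W] [NormedSpace ℝ W] {R : V → W} {A : V ≃L[ℝ] W} {w : ℝ → V}
    {γ : ℝ → W} {γ' : W} {J : Set ℝ} {s : ℝ} (hs : s ∈ J)
    (hR : HasStrictFDerivAt R (A : V →L[ℝ] W) (w s)) (hw : ContinuousWithinAt w J s)
    (hγ : HasDerivWithinAt γ γ' J s) (h : ∀ᶠ s' in 𝓝[J] s, R (w s') = γ s') :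
    HasDerivWithinAt w (A.symm γ') J s := by
  have h1 : ∀ᶠ s' in 𝓝[J] s, hR.localInverse R A (w s) (R (w s')) = w s' :=
    hw.eventually hR.eventually_left_inverse
  have hs0 : R (w s) = γ s := h.self_of_nhdsWithin hs
  have h2 : HasFDerivAt (hR.localInverse R A (w s)) (A.symm : W →L[ℝ] V) (γ s) := by
    rw [← hs0]; exact hR.to_localInverse.hasFDerivAt
  have h3 := h2.comp_hasDerivWithinAt s hγ
  refine h3.congr_of_eventuallyEq ?_ ?_
  · filter_upwards [h1, h] with s' h1' h2'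
    rw [Function.comp_apply, ← h2', h1']
  · rw [Function.comp_apply, ← hs0]
    exact (h1.self_of_nhdsWithin hs).symm

end aux

variable {M : Type u} [TopologicalSpace M] [ChartedSpace (EuclideanHalfSpace 3) M]
  [IsManifold (𝓡∂ 3) ∞ M] [CompactSpace M] [T2Space M]
  {g : Metric3 M} {X : ∀ x : M, TS x} {φ : ℝ → M → M} {E F : ∀ x : M, Submodule ℝ (TS x)}

theorem transp_goodBox (H : Hyp g X φ E F) (B₁ B₂ : Box (aflow H 1)) (h₁ : GoodBox E F B₁)
    (h₂ : GoodBox E F B₂) : ∃ C > 0, Transp B₁ B₂ C := by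
  obtain ⟨C1, hC1, har1⟩ := h₁.area_compare
  obtain ⟨C2, hC2, har2⟩ := h₂.area_compare
  obtain ⟨K, hK, l, hl, hsect⟩ := H.sect
  have hCpos : 0 < C1 * C2 * K + C1 * C2 := by positivity
  refine ⟨C1 * C2 * K + C1 * C2, hCpos, ?_⟩
  intro k a b hU t s hs u q hu hq heq
  have hz0 : |(0 : ℝ)| ≤ B₁.δ := by simpa using B₁.δ_pos.le
  have hzs : ((0 : ℝ), ((s, k s) : Q2)) ∈ B₁.e.source := B₁.src 0 _ hz0 (hU.norm_le s hs)
  have hxL : B₁.e ((0 : ℝ), ((s, k s) : Q2)) ∈ Ld φ E 1 := hU.mem s hs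
  have hus : (u, q) ∈ B₂.e.source := B₂.src u q hu hq
  have hyL : B₂.e (u, q) ∈ Ld φ E 1 := by
    rw [← heq]
    exact (aflow H 1).mapsTo' t _ (hU.mem s hs)
  have heq' : G2 φ t (B₁.e ((0 : ℝ), ((s, k s) : Q2))) = B₂.e (u, q) := heq
  have hvF : DP B₁.e ((0 : ℝ), ((s, k s) : Q2)) (0, 1, B₁.m (s, k s)) ∈
      F (B₁.e ((0 : ℝ), ((s, k s) : Q2))) := by
    have := h₁.slope 0 (s, k s) hz0 (hU.norm_le s hs) hxL 0 1
    rwa [mul_one] at this
  have ha1 := (har1 0 (s, k s) hz0 (hU.norm_le s hs) hxL 0 1).1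
  have ha1' := (har1 0 (s, k s) hz0 (hU.norm_le s hs) hxL 0 1).2
  rw [mul_one, abs_one] at ha1 ha1'
  rw [mul_one] at ha1'
  set v : TS (B₁.e ((0 : ℝ), ((s, k s) : Q2))) :=
    DP B₁.e ((0 : ℝ), ((s, k s) : Q2)) (0, 1, B₁.m (s, k s)) with hvdef
  have hΓ := TR_curve (hU.der s hs)
  rcases le_or_gt 0 t with ht | ht
  · -- forward
    rw [G2_nonneg ht] at heq'
    have hft : φ t (B₁.e ((0 : ℝ), ((s, k s) : Q2))) ∈ B₂.e.target := by
      rw [heq']; exact B₂.e.map_source hus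
    have hsymm : B₂.e.symm (φ t (B₁.e ((0 : ℝ), ((s, k s) : Q2)))) = (u, q) := by
      rw [heq', B₂.e.left_inv hus]
    obtain ⟨hR, hRD⟩ := h₁.c1.rep h₂.c1 hzs (flow_smooth_at H.flow ht _) hft
    set A := fderiv ℝ (fun y => B₂.e.symm (φ t (B₁.e y))) ((0 : ℝ), ((s, k s) : Q2)) with hA
    set η : V3 := A (0, 1, B₁.m (s, k s)) with hη
    have hD : (show E3 from DP B₂.e (u, q) η) =
        (show E3 from D φ t (B₁.e ((0 : ℝ), ((s, k s) : Q2))) v) := by
      have h := hRD (0, 1, B₁.m (s, k s))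
      rw [hsymm] at h
      exact h
    have hηF : DP B₂.e (u, q) η ∈ F (B₂.e (u, q)) := by
      refine (TR_mem_congr heq' (v := D φ t (B₁.e ((0 : ℝ), ((s, k s) : Q2))) v) hD.symm).1 ?_
      rw [← H.split.invF _ hxL.1 t ht]
      exact Submodule.mem_map_of_mem hvF
    have hslope := (h₂.slope_iff H hu hq hyL η).1 hηF
    have hηeq : η = (η.1, η.2.1, B₂.m q * η.2.1) := by
      rw [← hslope]
    have hareaeq : area g (φ t (B₁.e ((0 : ℝ), ((s, k s) : Q2))))
        (X (φ t (B₁.e ((0 : ℝ), ((s, k s) : Q2)))))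
        (D φ t (B₁.e ((0 : ℝ), ((s, k s) : Q2))) v) =
        area g (B₂.e (u, q)) (X (B₂.e (u, q))) (DP B₂.e (u, q) η) :=
      TR_area_congr g X heq' hD.symm
    have har2' := har2 u q hu hq hyL η.1 η.2.1
    rw [← hηeq] at har2'
    have hse := hsect _ hxL.1 t ht (X (B₁.e ((0 : ℝ), ((s, k s) : Q2)))) (X_mem_F H hxL.1) v hvF
    rw [D_X H.c1 H.inward H.flow ht, hareaeq] at hse
    have hexp : 1 ≤ Real.exp (l * t) := Real.one_le_exp (by positivity)
    have harea0 : 0 ≤ area g (B₁.e ((0 : ℝ), ((s, k s) : Q2)))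
      (X (B₁.e ((0 : ℝ), ((s, k s) : Q2)))) v := area_nonneg g _ _ _
    have hlow : 1 ≤ (C1 * C2 * K) * |η.2.1| := by
      have e1 : K⁻¹ * area g (B₁.e ((0 : ℝ), ((s, k s) : Q2)))
          (X (B₁.e ((0 : ℝ), ((s, k s) : Q2)))) v ≤ C2 * |η.2.1| := by
        refine le_trans ?_ (hse.trans har2'.2)
        have : K⁻¹ * 1 ≤ K⁻¹ * Real.exp (l * t) := by gcongr
        calc _ = K⁻¹ * 1 * area g (B₁.e ((0 : ℝ), ((s, k s) : Q2)))
              (X (B₁.e ((0 : ℝ), ((s, k s) : Q2)))) v := by ring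
          _ ≤ _ := by gcongr
      have e2 : area g (B₁.e ((0 : ℝ), ((s, k s) : Q2)))
          (X (B₁.e ((0 : ℝ), ((s, k s) : Q2)))) v ≤ K * (C2 * |η.2.1|) := by
        rw [inv_mul_le_iff₀ hK] at e1
        exact e1
      calc (1 : ℝ) ≤ C1 * area g (B₁.e ((0 : ℝ), ((s, k s) : Q2)))
              (X (B₁.e ((0 : ℝ), ((s, k s) : Q2)))) v := ha1
        _ ≤ C1 * (K * (C2 * |η.2.1|)) := by gcongr
        _ = _ := by ring
    have hlow' : 1 ≤ (C1 * C2 * K + C1 * C2) * |η.2.1| := by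
      have : 0 ≤ C1 * C2 * |η.2.1| := by positivity
      nlinarith
    refine ⟨η.2.1, ?_, ?_, ?_, ?_⟩
    · intro h0
      rw [h0] at hlow
      simp at hlow
      linarith
    · intro ht'
      have ht0 : t = 0 := le_antisymm ht' ht
      subst ht0
      have hx0 : φ 0 (B₁.e ((0 : ℝ), ((s, k s) : Q2))) = B₁.e ((0 : ℝ), ((s, k s) : Q2)) :=
        H.flow.zero _
      have e1 : area g (B₂.e (u, q)) (X (B₂.e (u, q))) (DP B₂.e (u, q) η) =
          area g (B₁.e ((0 : ℝ), ((s, k s) : Q2))) (X (B₁.e ((0 : ℝ), ((s, k s) : Q2)))) v := by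
        rw [← hareaeq]
        exact TR_area_congr g X hx0 (D_zero H.flow _ v)
      calc |η.2.1| ≤ C2 * area g (B₂.e (u, q)) (X (B₂.e (u, q))) (DP B₂.e (u, q) η) := har2'.1
        _ ≤ C2 * C1 := by rw [e1]; gcongr
        _ ≤ C1 * C2 * K + C1 * C2 := by nlinarith [mul_pos (mul_pos hC1 hC2) hK]
    · intro _
      rw [inv_le_iff_one_le_mul₀ hCpos, mul_comm]
      exact hlow'
    · have hRd : HasFDerivAt (fun y => B₂.e.symm (φ t (B₁.e y))) A ((0 : ℝ), ((s, k s) : Q2)) :=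
        (hR.differentiableAt (by norm_num)).hasFDerivAt
      have h3 := hRd.comp_hasDerivWithinAt s hΓ
      have h4 : HasDerivWithinAt (fun s' => (B₂.e.symm (φ t (B₁.e (0, (s', k s'))))).2)
          η.2 (Icc a b) s := h3.snd
      have h5 : (η.2.1, η.2.1 * B₂.m q) = η.2 := by
        ext
        · rfl
        · simp only [hslope, mul_comm]
      rw [h5]
      refine h4.congr ?_ ?_
      · intro s' _
        show (B₂.e.symm (G2 φ t (B₁.pt (s', k s')))).2 = _
        rw [G2_nonneg ht]; rfl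
      · show (B₂.e.symm (G2 φ t (B₁.pt (s, k s)))).2 = _
        rw [G2_nonneg ht]; rfl
  · -- backward
    have ht' : 0 ≤ -t := by linarith
    have hback : ∀ x ∈ Ld φ E 1, φ (-t) (G2 φ t x) = x := by
      intro x hx
      have h := (aflow H 1).add' (-t) t x hx
      rw [neg_add_cancel, (aflow H 1).zero'] at h
      rw [← G2_nonneg (φ := φ) ht']
      exact h.symm
    have hyx : φ (-t) (B₂.e (u, q)) = B₁.e ((0 : ℝ), ((s, k s) : Q2)) := by
      rw [← heq']; exact hback _ hxL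
    have hft : φ (-t) (B₂.e (u, q)) ∈ B₁.e.target := by
      rw [hyx]; exact B₁.e.map_source hzs
    have hsymm : B₁.e.symm (φ (-t) (B₂.e (u, q))) = ((0 : ℝ), ((s, k s) : Q2)) := by
      rw [hyx, B₁.e.left_inv hzs]
    obtain ⟨hR, hRD⟩ := h₂.c1.rep h₁.c1 hus (flow_smooth_at H.flow ht' _) hft
    set A := fderiv ℝ (fun y => B₁.e.symm (φ (-t) (B₂.e y))) (u, q) with hA
    have hRD' : ∀ ξ : V3, (show E3 from DP B₁.e ((0 : ℝ), ((s, k s) : Q2)) (A ξ)) =
        (show E3 from D φ (-t) (B₂.e (u, q)) (DP B₂.e (u, q) ξ)) := by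
      intro ξ
      have h := hRD ξ
      rw [hsymm] at h
      exact h
    have hAinj : Function.Injective A := by
      rw [injective_iff_map_eq_zero]
      intro ξ hξ
      have h := hRD' ξ
      rw [hξ] at h
      have h0 : (show E3 from DP B₁.e ((0 : ℝ), ((s, k s) : Q2)) (0 : V3)) = (0 : E3) :=
        map_zero (DP B₁.e ((0 : ℝ), ((s, k s) : Q2)))
      rw [h0] at h
      have h2 : D φ (-t) (B₂.e (u, q)) (DP B₂.e (u, q) ξ) = 0 := h.symm
      have h3 : DP B₂.e (u, q) ξ = 0 :=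
        (injective_iff_map_eq_zero (D φ (-t) (B₂.e (u, q)))).1
          (D_bijective H.c1 H.inward H.flow ht' hyL.1).1 _ h2
      exact (injective_iff_map_eq_zero (DP B₂.e (u, q))).1 (h₂.c1.bij hus).1 _ h3
    let A' : V3 ≃L[ℝ] V3 := (LinearEquiv.ofInjectiveEndo (A : V3 →ₗ[ℝ] V3) hAinj).toContinuousLinearEquiv
    have hA'A : (A' : V3 →L[ℝ] V3) = A := by
      ext <;> rfl
    have hstrict : HasStrictFDerivAt (fun y => B₁.e.symm (φ (-t) (B₂.e y)))
        (A' : V3 →L[ℝ] V3) (u, q) := by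
      rw [hA'A]
      exact hR.hasStrictFDerivAt (by norm_num)
    have hw0 : B₂.e.symm (G2 φ t (B₁.e ((0 : ℝ), ((s, k s) : Q2)))) = (u, q) := by
      rw [heq', B₂.e.left_inv hus]
    -- continuity of the transported curve
    have hcurve : ContinuousWithinAt (fun s' => B₁.e ((0 : ℝ), ((s', k s') : Q2))) (Icc a b) s :=
      (B₁.e.continuousAt hzs).comp_continuousWithinAt
        (f := fun s' : ℝ => ((0 : ℝ), ((s', k s') : Q2))) hΓ.continuousWithinAt
    have hG : ContinuousWithinAt (fun s' => G2 φ t (B₁.e ((0 : ℝ), ((s', k s') : Q2))))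
        (Icc a b) s := by
      have hc := (aflow H 1).cont' (t, B₁.e ((0 : ℝ), ((s, k s) : Q2))) ⟨mem_univ _, hxL⟩
      have h1 : ContinuousWithinAt (fun s' => (t, B₁.e ((0 : ℝ), ((s', k s') : Q2))))
          (Icc a b) s := continuousWithinAt_const.prodMk hcurve
      exact hc.comp (f := fun s' => (t, B₁.e ((0 : ℝ), ((s', k s') : Q2)))) h1
        (fun s' hs' => ⟨mem_univ _, hU.mem s' hs'⟩)
    have hytgt : G2 φ t (B₁.e ((0 : ℝ), ((s, k s) : Q2))) ∈ B₂.e.target := by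
      rw [heq']; exact B₂.e.map_source hus
    have hW : ContinuousWithinAt
        (fun s' => B₂.e.symm (G2 φ t (B₁.e ((0 : ℝ), ((s', k s') : Q2))))) (Icc a b) s :=
      (B₂.e.continuousAt_symm hytgt).comp_continuousWithinAt
        (f := fun s' => G2 φ t (B₁.e ((0 : ℝ), ((s', k s') : Q2)))) hG
    have hev : ∀ᶠ s' in 𝓝[Icc a b] s,
        (fun y => B₁.e.symm (φ (-t) (B₂.e y)))
          ((fun s' => B₂.e.symm (G2 φ t (B₁.e ((0 : ℝ), ((s', k s') : Q2))))) s') =
        ((0 : ℝ), ((s', k s') : Q2)) := by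
      have h1 : ∀ᶠ s' in 𝓝[Icc a b] s,
          G2 φ t (B₁.e ((0 : ℝ), ((s', k s') : Q2))) ∈ B₂.e.target :=
        hG.eventually (B₂.e.open_target.mem_nhds hytgt)
      filter_upwards [h1, self_mem_nhdsWithin] with s' h1 hs'
      show B₁.e.symm (φ (-t) (B₂.e (B₂.e.symm _))) = _
      have hmem : B₁.e ((0 : ℝ), ((s', k s') : Q2)) ∈ Ld φ E 1 := hU.mem s' hs'
      rw [B₂.e.right_inv h1, hback _ hmem]
      exact B₁.e.left_inv (B₁.src 0 _ hz0 (hU.norm_le s' hs'))
    have hder := TR_implicit (R := fun y => B₁.e.symm (φ (-t) (B₂.e y))) (A := A')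
      (w := fun s' => B₂.e.symm (G2 φ t (B₁.e ((0 : ℝ), ((s', k s') : Q2))))) hs
      (by simpa only [hw0] using hstrict) hW hΓ hev
    set η : V3 := A'.symm ((0 : ℝ), ((1, B₁.m (s, k s)) : Q2)) with hη
    have hAη : A η = ((0 : ℝ), ((1, B₁.m (s, k s)) : Q2)) := by
      rw [← hA'A]
      exact A'.apply_symm_apply _
    have hD : (show E3 from v) =
        (show E3 from D φ (-t) (B₂.e (u, q)) (DP B₂.e (u, q) η)) := by
      have h := hRD' η
      rw [hAη] at h
      exact h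
    have hinjD := (D_bijective H.c1 H.inward H.flow ht' hyL.1).1
    have hηF : DP B₂.e (u, q) η ∈ F (B₂.e (u, q)) := by
      have h1 : D φ (-t) (B₂.e (u, q)) (DP B₂.e (u, q) η) ∈ F (φ (-t) (B₂.e (u, q))) :=
        (TR_mem_congr hyx.symm (v := v) hD).1 hvF
      rw [← H.split.invF _ hyL.1 (-t) ht'] at h1
      obtain ⟨f, hf, hfe⟩ := h1
      have : f = DP B₂.e (u, q) η := hinjD hfe
      rw [← this]; exact hf
    have hslope := (h₂.slope_iff H hu hq hyL η).1 hηF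
    have hηeq : η = (η.1, η.2.1, B₂.m q * η.2.1) := by
      rw [← hslope]
    have har2' := har2 u q hu hq hyL η.1 η.2.1
    rw [← hηeq] at har2'
    have hse := hsect _ hyL.1 (-t) ht' (X (B₂.e (u, q))) (X_mem_F H hyL.1) _ hηF
    rw [D_X H.c1 H.inward H.flow ht'] at hse
    have hareaeq : area g (φ (-t) (B₂.e (u, q))) (X (φ (-t) (B₂.e (u, q))))
        (D φ (-t) (B₂.e (u, q)) (DP B₂.e (u, q) η)) =
        area g (B₁.e ((0 : ℝ), ((s, k s) : Q2))) (X (B₁.e ((0 : ℝ), ((s, k s) : Q2)))) v :=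
      TR_area_congr g X hyx hD.symm
    rw [hareaeq] at hse
    have hexp : 1 ≤ Real.exp (l * (-t)) := Real.one_le_exp (by positivity)
    have harea0 : 0 ≤ area g (B₂.e (u, q)) (X (B₂.e (u, q))) (DP B₂.e (u, q) η) :=
      area_nonneg g _ _ _
    refine ⟨η.2.1, ?_, ?_, ?_, ?_⟩
    · intro h0
      have hη1 : η = (η.1, 0) := by
        rw [hηeq, h0]; simp
      have h1 : DP B₂.e (u, q) η = η.1 • X (B₂.e (u, q)) := by
        have := flowBox_X B₂.toFlowBox h₂.c1 hu hq η.1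
        rw [← hη1] at this
        exact this
      have h2 : (show E3 from v) = (show E3 from η.1 • X (φ (-t) (B₂.e (u, q)))) := by
        rw [hD, h1, map_smul, D_X H.c1 H.inward H.flow ht']
      have h3 : (show E3 from η.1 • X (φ (-t) (B₂.e (u, q)))) =
          (show E3 from η.1 • X (B₁.e ((0 : ℝ), ((s, k s) : Q2)))) := by
        rw [hyx]
      have h4 : v = η.1 • X (B₁.e ((0 : ℝ), ((s, k s) : Q2))) := h2.trans h3
      have h5 := flowBox_X B₁.toFlowBox h₁.c1 hz0 (hU.norm_le s hs) η.1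
      have h6 : ((0 : ℝ), ((1, B₁.m (s, k s)) : Q2)) = (η.1, (0 : Q2)) :=
        (h₁.c1.bij hzs).1 (h4.trans h5.symm)
      have h7 : ((1, B₁.m (s, k s)) : Q2) = 0 := congrArg Prod.snd h6
      have h8 : (1 : ℝ) = 0 := congrArg Prod.fst h7
      exact one_ne_zero h8
    · intro _
      have e1 : K⁻¹ * area g (B₂.e (u, q)) (X (B₂.e (u, q))) (DP B₂.e (u, q) η) ≤ C1 := by
        refine le_trans ?_ (hse.trans ha1')
        have : K⁻¹ * 1 ≤ K⁻¹ * Real.exp (l * (-t)) := by gcongr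
        calc _ = K⁻¹ * 1 * area g (B₂.e (u, q)) (X (B₂.e (u, q))) (DP B₂.e (u, q) η) := by ring
          _ ≤ _ := by gcongr
      rw [inv_mul_le_iff₀ hK] at e1
      calc |η.2.1| ≤ C2 * area g (B₂.e (u, q)) (X (B₂.e (u, q))) (DP B₂.e (u, q) η) := har2'.1
        _ ≤ C2 * (K * C1) := by gcongr
        _ ≤ C1 * C2 * K + C1 * C2 := by nlinarith [mul_pos hC1 hC2]
    · intro h0
      exact absurd h0 (by linarith)
    · have h4 : HasDerivWithinAt
          (fun s' => (B₂.e.symm (G2 φ t (B₁.e ((0 : ℝ), ((s', k s') : Q2))))).2)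
          η.2 (Icc a b) s := hder.snd
      have h5 : (η.2.1, η.2.1 * B₂.m q) = η.2 := by
        ext
        · rfl
        · simp only [hslope, mul_comm]
      rw [h5]
      exact h4

end VeniceMask
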