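import Pool.Agent.helper75.VM.M_PL
import Pool.Agent.helper75.VM.M_HC
import Pool.Agent.helper75.VM.M_TR
import Pool.Agent.helper75.VM.M_SD
import Pool.Agent.helper75.VM.M_TD
import Pool.Agent.helper75.VM.M_SS

/-!
# MP_509a24_an, module Main: assembly
-/

open Set Filter Topology Bundle
open scoped ContDiff Manifold

namespace VeniceMask

universe u

variable {M : Type u} [TopologicalSpace M] [ChartedSpace (EuclideanHalfSpace 3) M]
  [IsManifold (𝓡∂ 3) ∞ M] [CompactSpace M] [T2Space M]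
  {g : Metric3 M} {X : ∀ x : M, TS x} {φ : ℝ → M → M} {E F : ∀ x : M, Submodule ℝ (TS x)}

/-- the system of good boxes -/
noncomputable def sys (H : Hyp g X φ E F) : System M where
  toAFlow := aflow H 1
  boxes := {B | GoodBox E F B}
  exist := fun w hw hs N hN => by
    obtain ⟨B, h1, h2, h3⟩ := exists_goodBox H (w := w) hw
      (fun h => hs ((aflow_Sing H 1 hw).2 h)) hN
    exact ⟨B, h1, h2, h3⟩
  transp := fun B₁ h₁ B₂ h₂ => transp_goodBox H B₁ B₂ h₁ h₂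
  strong := fun B hB => strong_goodBox H B hB
  saddle := fun O p T hO => by
    obtain ⟨B, h1, h2, h3⟩ := exists_saddle H hO
    exact ⟨B, h1, h2, h3⟩

theorem homClass_eq (H : Hyp g X φ E F) {O : Set M} {p : M} {T : ℝ}
    (hO : IsPeriodicOrbitOf X φ O p T) :
    homClass g φ O = closure (stableSet φ O ∩ unstableSet φ O) := by
  unfold homClass
  congr 1
  ext q
  constructor
  · rintro ⟨h1, h2, -⟩
    exact ⟨h1, h2⟩
  · rintro ⟨h1, h2⟩
    exact ⟨h1, h2, fun v => trans_of_homoclinic H hO h1 h2 v⟩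

/-- if a point of `Ld` is in the class of `O`, then `O` is in `Ld` -/
theorem mem_Ld_of_closure (H : Hyp g X φ E F) {O : Set M} {p : M} {T : ℝ}
    (hO : IsPeriodicOrbitOf X φ O p T) {z : M}
    (hz : z ∈ closure (stableSet φ O ∩ unstableSet φ O)) {d : ℕ} (hd : z ∈ Ld φ E d) :
    p ∈ Ld φ E d := by
  obtain ⟨N, hN, hNL⟩ := Ld_open H d
  have hzN : z ∈ N := by rw [hNL] at hd; exact hd.2
  obtain ⟨x, hxN, hxs, hxu⟩ := mem_closure_iff.1 hz N hN hzN
  have hxL : x ∈ Ld φ E d := by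
    rw [hNL]; exact ⟨unstableSet_sub O hxu, hxN⟩
  have hp := periodic_mem H.flow hO
  -- `p ∈ Ld φ E d'`
  by_contra hpd
  have hpd' : p ∈ Ld φ E (Module.finrank ℝ (E p)) := ⟨hp, rfl⟩
  have hPer := aflow_IsPer H _ hO hpd'
  have hOsub : O ⊆ (Ld φ E d)ᶜ := by
    intro y hy hyd
    have h1 := AFlow.IsPer.sub _ hPer hy
    have h2 : Module.finrank ℝ (E y) = Module.finrank ℝ (E p) := h1.2
    have h3 : Module.finrank ℝ (E y) = d := hyd.2
    exact hpd ⟨hp, by rw [← h2, h3]⟩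
  have hU : IsOpen (Ld φ E d)ᶜ := (Ld_compact H d).isClosed.isOpen_compl
  obtain ⟨t, ht, ht0⟩ := ((hxs _ hU hOsub).and (eventually_ge_atTop 0)).exists
  apply ht
  have := Ld_inv H d hxL t
  rwa [G2_nonneg ht0] at this

theorem main_aux (H : Hyp g X φ E F) {O₁ O₂ : Set M} {p₁ p₂ : M} {T₁ T₂ : ℝ}
    (hO₁ : IsPeriodicOrbitOf X φ O₁ p₁ T₁) (hO₂ : IsPeriodicOrbitOf X φ O₂ p₂ T₂)
    {z : M} (h1 : z ∈ homClass g φ O₁) (h2 : z ∈ homClass g φ O₂)
    (hK : z ∉ closure (wuSing X φ)) : homClass g φ O₁ = homClass g φ O₂ := by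
  rw [homClass_eq H hO₁] at h1 ⊢
  rw [homClass_eq H hO₂] at h2 ⊢
  have hzL : z ∈ maxInv φ := by
    have hc := (maxInv_compact H.flow).isClosed
    exact hc.closure_subset_iff.2 (fun x hx => unstableSet_sub O₁ hx.2) h1
  have hzd : z ∈ Ld φ E (Module.finrank ℝ (E z)) := ⟨hzL, rfl⟩
  obtain ⟨d, hd⟩ : ∃ d, d = Module.finrank ℝ (E z) := ⟨_, rfl⟩
  rw [← hd] at hzd
  have hp₁ := mem_Ld_of_closure H hO₁ h1 hzd
  have hp₂ := mem_Ld_of_closure H hO₂ h2 hzd
  have hP₁ := aflow_IsPer H d hO₁ hp₁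
  have hP₂ := aflow_IsPer H d hO₂ hp₂
  have hWu₁ := aflow_Wu H d (AFlow.IsPer.sub _ hP₁)
  have hWu₂ := aflow_Wu H d (AFlow.IsPer.sub _ hP₂)
  rw [← hWu₁, ← aflow_Ws H d] at h1 ⊢
  rw [← hWu₂, ← aflow_Ws H d] at h2 ⊢
  have hd3 : d ≤ 3 := by
    have := finrank_F H hzL
    omega
  -- in the trivial dimensions the homoclinic points are the points of the orbit
  have key : ((aflow H d).Ws O₁ ∩ (aflow H d).Wu O₁ = O₁ ∧
      (aflow H d).Ws O₂ ∩ (aflow H d).Wu O₂ = O₂) →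
      closure ((aflow H d).Ws O₁ ∩ (aflow H d).Wu O₁) =
      closure ((aflow H d).Ws O₂ ∩ (aflow H d).Wu O₂) := by
    rintro ⟨e1, e2⟩
    rw [e1, (AFlow.IsPer.compact _ hP₁).isClosed.closure_eq] at h1 ⊢
    rw [e2, (AFlow.IsPer.compact _ hP₂).isClosed.closure_eq] at h2 ⊢
    have a1 := (AFlow.IsPer.mem_of _ hP₁ h1).eq
    have a2 := (AFlow.IsPer.mem_of _ hP₂ h2).eq
    rw [a1, a2]
  have sub (O : Set M) (p : M) (T : ℝ) (hP : (aflow H d).IsPer O p T) :
      O ⊆ (aflow H d).Ws O ∩ (aflow H d).Wu O := by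
    intro x hx
    refine ⟨fun U _ hOU => Eventually.of_forall fun t => hOU (AFlow.IsPer.inv _ hP t x hx),
      AFlow.IsPer.sub _ hP hx, fun U _ hOU => Eventually.of_forall fun t =>
        hOU (AFlow.IsPer.inv _ hP (-t) x hx)⟩
  interval_cases d
  · apply key
    constructor
    · apply subset_antisymm _ (sub _ _ _ hP₁)
      exact fun x hx => trivial_zero H hP₁ ⟨hx.1, hx.2.1⟩
    · apply subset_antisymm _ (sub _ _ _ hP₂)
      exact fun x hx => trivial_zero H hP₂ ⟨hx.1, hx.2.1⟩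
  · have hK' : z ∉ closure (sys H).WuSing := fun h =>
      hK (closure_mono (aflow_WuSing H 1) h)
    exact planar_main (sys H) hP₁ hP₂ hzd hK' h1 h2
  · apply key
    constructor
    · apply subset_antisymm _ (sub _ _ _ hP₁)
      exact fun x hx => trivial_two H hP₁ hx.2
    · apply subset_antisymm _ (sub _ _ _ hP₂)
      exact fun x hx => trivial_two H hP₂ hx.2
  · exact (trivial_three H hP₁).elim

theorem main : SectionalAnosovStatement.{u} := by
  intro M _ _ _ _ _ g X φ hSA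
  obtain ⟨E, F, hs, hd, hc, he⟩ := hSA.hyp.2
  have H : Hyp g X φ E F :=
    { c1 := hSA.c1, inward := hSA.inward, flow := hSA.flow, sing := hSA.hyp.1, split := hs,
      dom := hd, contr := hc, sect := he }
  constructor
  · rintro O₁ O₂ ⟨p₁, T₁, hO₁, -⟩ ⟨p₂, T₂, hO₂, -⟩ hne z ⟨hz1, hz2⟩
    by_contra hK
    exact hne (main_aux H hO₁ hO₂ hz1 hz2 hK)
  · rintro O₁ O₂ ⟨p₁, T₁, hO₁, -⟩ ⟨p₂, T₂, hO₂, -⟩ hne z ⟨hz1, hz2⟩
    by_contra hK
    have e1 := homClass'_eq H hO₁ ⟨z, hz1⟩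
    have e2 := homClass'_eq H hO₂ ⟨z, hz2⟩
    rw [e1, e2] at hne
    rw [e1] at hz1
    rw [e2] at hz2
    exact hne (main_aux H hO₁ hO₂ hz1 hz2 hK)

end VeniceMask
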