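import Pool.Agent.helper75.VM.M_CR
import Pool.Agent.helper75.VM.M_IN

/-!
# MP_509a24_an, module PL: assembly of the planar part
-/

open Set Filter Topology Bundle
open scoped ContDiff Manifold

namespace VeniceMask

universe u

variable {M : Type u} [TopologicalSpace M]

theorem planar_main [T2Space M] (S : System M) {O₁ O₂ : Set M} {p₁ p₂ : M} {T₁ T₂ : ℝ}
    (hO₁ : S.IsPer O₁ p₁ T₁) (hO₂ : S.IsPer O₂ p₂ T₂) {z : M} (hz : z ∈ S.L)
    (hK : z ∉ closure S.WuSing) (h1 : z ∈ closure (S.Ws O₁ ∩ S.Wu O₁))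
    (h2 : z ∈ closure (S.Ws O₂ ∩ S.Wu O₂)) :
    closure (S.Ws O₁ ∩ S.Wu O₁) = closure (S.Ws O₂ ∩ S.Wu O₂) := by
  have a := cross_near S hO₁ hO₂ hz hK h1 h2
  have b := cross_near S hO₂ hO₁ hz hK h2 h1
  apply subset_antisymm
  · exact closure_minimal (inclination S hO₁ hO₂ a b) isClosed_closure
  · exact closure_minimal (inclination S hO₂ hO₁ b a) isClosed_closure

end VeniceMask
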