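import Pool.Agent.helper75.VM.Abs

/-!
# MP_509a24_an, module PM: plane maps: cones and graph transforms
-/

open Set Filter Topology Bundle
open scoped ContDiff Manifold

namespace VeniceMask

universe u

variable (S : PMap)

theorem PMap.PM_key {q q' : Q2} (hq : ‖q‖ ≤ 1) (hq' : ‖q'‖ ≤ 1) :
    |(S.P q).1 - (S.P q').1 - S.a * (q.1 - q'.1)| ≤ S.ε * max |q.1 - q'.1| |q.2 - q'.2| ∧
    |(S.P q).2 - (S.P q').2 - S.b * (q.2 - q'.2)| ≤ S.ε * max |q.1 - q'.1| |q.2 - q'.2| := by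
  have h := S.lip q q' hq hq'
  rw [Prod.norm_def, Prod.norm_def] at h
  simp only [Prod.fst_sub, Prod.snd_sub, Real.norm_eq_abs] at h
  exact ⟨(le_max_left _ _).trans h, (le_max_right _ _).trans h⟩

theorem PMap.PM_eps : S.ε ≤ 1 / 64 := by
  have := S.hb
  have := S.hεb
  linarith

theorem PMap.PM_lower {q q' : Q2} (hq : ‖q‖ ≤ 1) (hq' : ‖q'‖ ≤ 1) :
    |S.a| * |q.1 - q'.1| - S.ε * max |q.1 - q'.1| |q.2 - q'.2| ≤ |(S.P q).1 - (S.P q').1| ∧
    |S.b| * |q.2 - q'.2| - S.ε * max |q.1 - q'.1| |q.2 - q'.2| ≤ |(S.P q).2 - (S.P q').2| ∧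
    |(S.P q).1 - (S.P q').1| ≤ |S.a| * |q.1 - q'.1| + S.ε * max |q.1 - q'.1| |q.2 - q'.2| ∧
    |(S.P q).2 - (S.P q').2| ≤ |S.b| * |q.2 - q'.2| + S.ε * max |q.1 - q'.1| |q.2 - q'.2| := by
  obtain ⟨h1, h2⟩ := S.PM_key hq hq'
  have e1 := abs_sub_abs_le_abs_sub (S.a * (q.1 - q'.1)) ((S.P q).1 - (S.P q').1)
  have e2 := abs_sub_abs_le_abs_sub ((S.P q).1 - (S.P q').1) (S.a * (q.1 - q'.1))
  have e3 := abs_sub_abs_le_abs_sub (S.b * (q.2 - q'.2)) ((S.P q).2 - (S.P q').2)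
  have e4 := abs_sub_abs_le_abs_sub ((S.P q).2 - (S.P q').2) (S.b * (q.2 - q'.2))
  rw [abs_sub_comm (S.a * _) _] at e1
  rw [abs_sub_comm (S.b * _) _] at e3
  rw [abs_mul] at e1 e2 e3 e4
  refine ⟨?_, ?_, ?_, ?_⟩ <;> linarith

theorem PMap.cont : ContinuousOn S.P {q : Q2 | ‖q‖ ≤ 1} := by
  have hL : LipschitzOnWith (Real.toNNReal (|S.a| + |S.b| + S.ε)) S.P {q : Q2 | ‖q‖ ≤ 1} := by
    apply LipschitzOnWith.of_dist_le_mul
    intro q hq q' hq'
    obtain ⟨-, -, h3, h4⟩ := S.PM_lower hq hq'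
    have hmax : ‖q - q'‖ = max |q.1 - q'.1| |q.2 - q'.2| := by
      rw [Prod.norm_def]; simp [Real.norm_eq_abs]
    have hε := S.hε
    have hpos : (0 : ℝ) ≤ |S.a| + |S.b| + S.ε := by positivity
    rw [Real.coe_toNNReal _ hpos, dist_eq_norm, dist_eq_norm, hmax, Prod.norm_def]
    simp only [Prod.fst_sub, Prod.snd_sub, Real.norm_eq_abs]
    have l1 := le_max_left |q.1 - q'.1| |q.2 - q'.2|
    have l2 := le_max_right |q.1 - q'.1| |q.2 - q'.2|
    have m1 := mul_le_mul_of_nonneg_left l1 (abs_nonneg S.a)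
    have m2 := mul_le_mul_of_nonneg_left l2 (abs_nonneg S.b)
    have m0 : 0 ≤ max |q.1 - q'.1| |q.2 - q'.2| := (abs_nonneg _).trans l1
    have m3 := mul_nonneg (abs_nonneg S.a) m0
    have m4 := mul_nonneg (abs_nonneg S.b) m0
    apply max_le
    · calc _ ≤ _ := h3
        _ ≤ _ := by nlinarith
    · calc _ ≤ _ := h4
        _ ≤ _ := by nlinarith
  exact hL.continuousOn

theorem PMap.inj {q q' : Q2} (hq : ‖q‖ ≤ 1) (hq' : ‖q'‖ ≤ 1) (h : S.P q = S.P q') :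
    q = q' := by
  obtain ⟨h1, h2, -, -⟩ := S.PM_lower hq hq'
  rw [h, sub_self, abs_zero] at h1
  rw [h, sub_self, abs_zero] at h2
  have ha := S.ha
  have hε := S.hε
  have hεb := S.hεb
  have hε' := S.PM_eps
  have n1 := abs_nonneg (q.1 - q'.1)
  have n2 := abs_nonneg (q.2 - q'.2)
  have key : |q.1 - q'.1| = 0 ∧ |q.2 - q'.2| = 0 := by
    rcases le_total |q.1 - q'.1| |q.2 - q'.2| with hl | hl
    · rw [max_eq_right hl] at h1 h2
      have : |q.2 - q'.2| = 0 := by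
        by_contra hne
        have hp : 0 < |q.2 - q'.2| := lt_of_le_of_ne n2 (Ne.symm hne)
        nlinarith
      exact ⟨by linarith, this⟩
    · rw [max_eq_left hl] at h1 h2
      have : |q.1 - q'.1| = 0 := by
        by_contra hne
        have hp : 0 < |q.1 - q'.1| := lt_of_le_of_ne n1 (Ne.symm hne)
        nlinarith
      exact ⟨this, by linarith⟩
  have k1 : q.1 = q'.1 := sub_eq_zero.mp (abs_eq_zero.mp key.1)
  have k2 : q.2 = q'.2 := sub_eq_zero.mp (abs_eq_zero.mp key.2)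
  exact Prod.ext k1 k2

/-- the horizontal cone is forward invariant and expanded forward -/
theorem PMap.horiz {q q' : Q2} (hq : ‖q‖ ≤ 1) (hq' : ‖q'‖ ≤ 1)
    (h : |q.2 - q'.2| ≤ |q.1 - q'.1|) :
    |(S.P q).2 - (S.P q').2| ≤ 1 / 4 * |(S.P q).1 - (S.P q').1| ∧
      3 * |q.1 - q'.1| ≤ |(S.P q).1 - (S.P q').1| := by
  obtain ⟨h1, h2, h3, h4⟩ := S.PM_lower hq hq'
  rw [max_eq_left h] at h1 h2 h3 h4
  have ha := S.ha
  have hb := S.hb
  have hε := S.hε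
  have hε' := S.PM_eps
  have n1 := abs_nonneg (q.1 - q'.1)
  have n2 := abs_nonneg (q.2 - q'.2)
  have m1 : S.ε * |q.1 - q'.1| ≤ 1 / 64 * |q.1 - q'.1| := mul_le_mul_of_nonneg_right hε' n1
  have m2 : 4 * |q.1 - q'.1| ≤ |S.a| * |q.1 - q'.1| := mul_le_mul_of_nonneg_right ha n1
  have m3 : |S.b| * |q.2 - q'.2| ≤ 1 / 4 * |q.2 - q'.2| := mul_le_mul_of_nonneg_right hb n2
  constructor <;> linarith

/-- the vertical cone is backward invariant and expanded backward -/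
theorem PMap.vert {q q' : Q2} (hq : ‖q‖ ≤ 1) (hq' : ‖q'‖ ≤ 1)
    (h : |(S.P q).1 - (S.P q').1| ≤ |(S.P q).2 - (S.P q').2|) :
    |q.1 - q'.1| ≤ |q.2 - q'.2| ∧ |(S.P q).2 - (S.P q').2| ≤ 1 / 2 * |q.2 - q'.2| := by
  have hv : |q.1 - q'.1| ≤ |q.2 - q'.2| := by
    by_contra hne
    rw [not_le] at hne
    obtain ⟨k1, k2⟩ := S.horiz hq hq' hne.le
    have n2 := abs_nonneg (q.2 - q'.2)
    linarith
  refine ⟨hv, ?_⟩
  obtain ⟨h1, h2, h3, h4⟩ := S.PM_lower hq hq'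
  rw [max_eq_right hv] at h1 h2 h3 h4
  have hb := S.hb
  have hε' := S.PM_eps
  have n2 := abs_nonneg (q.2 - q'.2)
  have m1 : S.ε * |q.2 - q'.2| ≤ 1 / 64 * |q.2 - q'.2| := mul_le_mul_of_nonneg_right hε' n2
  have m3 : |S.b| * |q.2 - q'.2| ≤ 1 / 4 * |q.2 - q'.2| := mul_le_mul_of_nonneg_right hb n2
  linarith

/-- images of neighbourhoods are neighbourhoods -/
theorem PMap.image_nhds {q : Q2} (hq : ‖q‖ < 1) {N : Set Q2} (hN : N ∈ 𝓝 q) :
    S.P '' N ∈ 𝓝 (S.P q) := by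
  have hb0 : 0 < |S.b| := by have := S.hε; have := S.hεb; linarith
  have ha0 : 0 < |S.a| := by have := S.ha; linarith
  have hbne : S.b ≠ 0 := abs_pos.mp hb0
  have hane : S.a ≠ 0 := abs_pos.mp ha0
  let D : Q2 →L[ℝ] Q2 :=
    ((S.a • ContinuousLinearMap.fst ℝ ℝ ℝ).prod (S.b • ContinuousLinearMap.snd ℝ ℝ ℝ))
  have hD : ∀ x : Q2, D x = (S.a * x.1, S.b * x.2) := fun x => by simp [D]
  let s : Set Q2 := N ∩ {q | ‖q‖ < 1}
  have hs : s ∈ 𝓝 q :=
    inter_mem hN ((isOpen_lt continuous_norm continuous_const).mem_nhds hq)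
  have happ : ApproximatesLinearOn S.P D s (Real.toNNReal S.ε) := by
    intro x hx y hy
    have := S.lip x y (le_of_lt hx.2) (le_of_lt hy.2)
    rw [hD, Real.coe_toNNReal _ S.hε.le]
    simpa using this
  let R : D.NonlinearRightInverse :=
    { toFun := fun y => (S.a⁻¹ * y.1, S.b⁻¹ * y.2)
      nnnorm := Real.toNNReal (|S.b|⁻¹)
      bound' := by
        intro y
        rw [Real.coe_toNNReal _ (by positivity), Prod.norm_def, Prod.norm_def]
        simp only [norm_mul, Real.norm_eq_abs, abs_inv]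
        apply max_le
        · have : |S.a|⁻¹ ≤ |S.b|⁻¹ := by
            apply inv_anti₀ hb0
            have := S.ha; have := S.hb; linarith
          exact mul_le_mul this (le_max_left _ _) (abs_nonneg _) (by positivity)
        · exact mul_le_mul_of_nonneg_left (le_max_right _ _) (by positivity)
      right_inv' := by
        intro y
        rw [hD]
        simp only
        rw [mul_inv_cancel_left₀ hane, mul_inv_cancel_left₀ hbne] }
  have hc : Subsingleton Q2 ∨ Real.toNNReal S.ε < R.nnnorm⁻¹ := by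
    right
    change Real.toNNReal S.ε < (Real.toNNReal (|S.b|⁻¹))⁻¹
    rw [← Real.toNNReal_inv, inv_inv]
    apply (Real.toNNReal_lt_toNNReal_iff hb0).mpr
    have := S.hε; have := S.hεb; linarith
  have := happ.image_mem_nhds R hs hc
  exact mem_of_superset this (image_mono inter_subset_left)

theorem PMap.PM_mem {x : ℝ} : x ∈ Icc (-1 : ℝ) 1 ↔ |x| ≤ 1 := by
  rw [abs_le]; rfl

theorem PMap.PM_norm {x y : ℝ} (hx : |x| ≤ 1) (hy : |y| ≤ 1) : ‖((x, y) : Q2)‖ ≤ 1 := by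
  rw [Prod.norm_def]; exact max_le hx hy

/-- forward graph transform of a horizontal graph -/
theorem PMap.gtf (g : ℝ → ℝ) (hg1 : ∀ h ∈ Icc (-1 : ℝ) 1, |g h| ≤ 1)
    (hg2 : ∀ h ∈ Icc (-1 : ℝ) 1, ∀ h' ∈ Icc (-1 : ℝ) 1, |g h - g h'| ≤ |h - h'|) :
    ∃ g' r : ℝ → ℝ, (∀ h ∈ Icc (-1 : ℝ) 1, r h ∈ Icc (-1 : ℝ) 1 ∧ |g' h| ≤ 1 ∧
        S.P (r h, g (r h)) = (h, g' h)) ∧
      (∀ h ∈ Icc (-1 : ℝ) 1, ∀ h' ∈ Icc (-1 : ℝ) 1, |r h - r h'| ≤ 1 / 3 * |h - h'| ∧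
        |g' h - g' h'| ≤ 1 / 4 * |h - h'|) := by
  have hnorm : ∀ s ∈ Icc (-1 : ℝ) 1, ‖((s, g s) : Q2)‖ ≤ 1 := fun s hs =>
    PMap.PM_norm (PMap.PM_mem.mp hs) (hg1 s hs)
  have hgc : ContinuousOn g (Icc (-1 : ℝ) 1) := by
    have hL : LipschitzOnWith 1 g (Icc (-1 : ℝ) 1) := by
      apply LipschitzOnWith.of_dist_le_mul
      intro x hx y hy
      rw [Real.dist_eq, Real.dist_eq, NNReal.coe_one, one_mul]
      exact hg2 x hx y hy
    exact hL.continuousOn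
  have hf : ContinuousOn (fun s => (S.P (s, g s)).1) (Icc (-1 : ℝ) 1) := by
    have h1 : ContinuousOn (fun s => S.P (s, g s)) (Icc (-1 : ℝ) 1) :=
      S.cont.comp (continuousOn_id.prodMk hgc) (fun s hs => hnorm s hs)
    exact continuous_fst.comp_continuousOn h1
  have hb : |S.b| ≤ 1 / 4 := S.hb
  have hε := S.hε
  have hε' := S.PM_eps
  have h0 : ‖(0 : Q2)‖ ≤ 1 := by simp
  have hest : ∀ s ∈ Icc (-1 : ℝ) 1, |(S.P (s, g s)).1 - S.a * s| ≤ 1 / 64 ∧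
      |(S.P (s, g s)).2| ≤ 1 / 4 + 1 / 64 := by
    intro s hs
    obtain ⟨k1, -⟩ := S.PM_key (hnorm s hs) h0
    obtain ⟨-, -, -, k4⟩ := S.PM_lower (hnorm s hs) h0
    rw [S.P0] at k1 k4
    simp only [Prod.fst_zero, Prod.snd_zero, sub_zero] at k1 k4
    have hm : max |s| |g s| ≤ 1 := max_le (PMap.PM_mem.mp hs) (hg1 s hs)
    have hm0 : 0 ≤ max |s| |g s| := (abs_nonneg s).trans (le_max_left _ _)
    have hm' : S.ε * max |s| |g s| ≤ 1 / 64 := by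
      calc S.ε * max |s| |g s| ≤ S.ε * 1 := mul_le_mul_of_nonneg_left hm hε.le
        _ ≤ 1 / 64 := by linarith
    refine ⟨k1.trans hm', ?_⟩
    have hbg : |S.b| * |g s| ≤ 1 / 4 * 1 :=
      mul_le_mul hb (hg1 s hs) (abs_nonneg _) (by norm_num)
    linarith
  have hsurj : ∀ h ∈ Icc (-1 : ℝ) 1, ∃ s ∈ Icc (-1 : ℝ) 1, (S.P (s, g s)).1 = h := by
    intro h hh
    have e1 := (hest 1 ⟨by norm_num, le_rfl⟩).1
    have e2 := (hest (-1) ⟨le_rfl, by norm_num⟩).1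
    rw [abs_le] at e1 e2
    have ha := S.ha
    rcases le_abs'.mp ha with ha' | ha'
    · have := intermediate_value_Icc' (by norm_num : (-1 : ℝ) ≤ 1) hf
      apply this
      constructor
      · linarith [hh.1]
      · linarith [hh.2]
    · have := intermediate_value_Icc (by norm_num : (-1 : ℝ) ≤ 1) hf
      apply this
      constructor
      · linarith [hh.1]
      · linarith [hh.2]
  choose! r hr1 hr2 using hsurj
  refine ⟨fun h => (S.P (r h, g (r h))).2, r, ?_, ?_⟩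
  · intro h hh
    refine ⟨hr1 h hh, ?_, ?_⟩
    · have := (hest (r h) (hr1 h hh)).2
      simp only
      linarith
    · exact Prod.ext (hr2 h hh) rfl
  · intro h hh h' hh'
    have hc : |g (r h) - g (r h')| ≤ |r h - r h'| := hg2 _ (hr1 h hh) _ (hr1 h' hh')
    obtain ⟨k1, k2⟩ := S.horiz (hnorm _ (hr1 h hh)) (hnorm _ (hr1 h' hh')) hc
    rw [hr2 h hh, hr2 h' hh'] at k1 k2
    simp only at k1 k2
    exact ⟨by linarith, k1⟩

/-- backward graph transform of a vertical graph -/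
theorem PMap.gtb (k : ℝ → ℝ) (hk1 : ∀ v ∈ Icc (-1 : ℝ) 1, |k v| ≤ 1)
    (hk2 : ∀ v ∈ Icc (-1 : ℝ) 1, ∀ v' ∈ Icc (-1 : ℝ) 1, |k v - k v'| ≤ |v - v'|) :
    ∃ k' s : ℝ → ℝ, (∀ v ∈ Icc (-1 : ℝ) 1, s v ∈ Icc (-1 : ℝ) 1 ∧ |k' v| ≤ 1 ∧
        S.P (k' v, v) = (k (s v), s v)) ∧
      (∀ v ∈ Icc (-1 : ℝ) 1, ∀ v' ∈ Icc (-1 : ℝ) 1, |s v - s v'| ≤ 1 / 2 * |v - v'| ∧
        |k' v - k' v'| ≤ 1 / 4 * |v - v'|) := by
  have hkc : ContinuousOn k (Icc (-1 : ℝ) 1) := by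
    have hL : LipschitzOnWith 1 k (Icc (-1 : ℝ) 1) := by
      apply LipschitzOnWith.of_dist_le_mul
      intro x hx y hy
      rw [Real.dist_eq, Real.dist_eq, NNReal.coe_one, one_mul]
      exact hk2 x hx y hy
    exact hL.continuousOn
  have hnorm : ∀ v ∈ Icc (-1 : ℝ) 1, ∀ h ∈ Icc (-1 : ℝ) 1, ‖((h, v) : Q2)‖ ≤ 1 :=
    fun v hv h hh => PMap.PM_norm (PMap.PM_mem.mp hh) (PMap.PM_mem.mp hv)
  have hb : |S.b| ≤ 1 / 4 := S.hb
  have hε := S.hε
  have hε' := S.PM_eps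
  have h0 : ‖(0 : Q2)‖ ≤ 1 := by simp
  have hest : ∀ v ∈ Icc (-1 : ℝ) 1, ∀ h ∈ Icc (-1 : ℝ) 1,
      |(S.P (h, v)).1 - S.a * h| ≤ 1 / 64 ∧ |(S.P (h, v)).2| ≤ 1 / 4 + 1 / 64 := by
    intro v hv h hh
    obtain ⟨k1, -⟩ := S.PM_key (hnorm v hv h hh) h0
    obtain ⟨-, -, -, k4⟩ := S.PM_lower (hnorm v hv h hh) h0
    rw [S.P0] at k1 k4
    simp only [Prod.fst_zero, Prod.snd_zero, sub_zero] at k1 k4
    have hm : max |h| |v| ≤ 1 := max_le (PMap.PM_mem.mp hh) (PMap.PM_mem.mp hv)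
    have hm' : S.ε * max |h| |v| ≤ 1 / 64 := by
      calc S.ε * max |h| |v| ≤ S.ε * 1 := mul_le_mul_of_nonneg_left hm hε.le
        _ ≤ 1 / 64 := by linarith
    refine ⟨k1.trans hm', ?_⟩
    have hbg : |S.b| * |v| ≤ 1 / 4 * 1 :=
      mul_le_mul hb (PMap.PM_mem.mp hv) (abs_nonneg _) (by norm_num)
    linarith
  have hin : ∀ v ∈ Icc (-1 : ℝ) 1, ∀ h ∈ Icc (-1 : ℝ) 1, (S.P (h, v)).2 ∈ Icc (-1 : ℝ) 1 := by
    intro v hv h hh
    rw [PMap.PM_mem]
    have := (hest v hv h hh).2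
    linarith
  have hsurj : ∀ v ∈ Icc (-1 : ℝ) 1, ∃ h ∈ Icc (-1 : ℝ) 1,
      (S.P (h, v)).1 - k ((S.P (h, v)).2) = 0 := by
    intro v hv
    have hP : ContinuousOn (fun h => S.P (h, v)) (Icc (-1 : ℝ) 1) :=
      S.cont.comp (continuousOn_id.prodMk continuousOn_const) (fun h hh => hnorm v hv h hh)
    have hF : ContinuousOn (fun h => (S.P (h, v)).1 - k ((S.P (h, v)).2)) (Icc (-1 : ℝ) 1) :=
      (continuous_fst.comp_continuousOn hP).sub
        (hkc.comp (continuous_snd.comp_continuousOn hP) (fun h hh => hin v hv h hh))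
    have m1 : (1 : ℝ) ∈ Icc (-1 : ℝ) 1 := ⟨by norm_num, le_rfl⟩
    have m2 : (-1 : ℝ) ∈ Icc (-1 : ℝ) 1 := ⟨le_rfl, by norm_num⟩
    have e1 := (hest v hv 1 m1).1
    have e2 := (hest v hv (-1) m2).1
    have e3 := hk1 _ (hin v hv 1 m1)
    have e4 := hk1 _ (hin v hv (-1) m2)
    rw [abs_le] at e1 e2 e3 e4
    have ha := S.ha
    rcases le_abs'.mp ha with ha' | ha'
    · have := intermediate_value_Icc' (by norm_num : (-1 : ℝ) ≤ 1) hF
      apply this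
      constructor
      · linarith
      · linarith
    · have := intermediate_value_Icc (by norm_num : (-1 : ℝ) ≤ 1) hF
      apply this
      constructor
      · linarith
      · linarith
  choose! k' hk'1 hk'2 using hsurj
  refine ⟨k', fun v => (S.P (k' v, v)).2, ?_, ?_⟩
  · intro v hv
    refine ⟨hin v hv _ (hk'1 v hv), PMap.PM_mem.mp (hk'1 v hv), ?_⟩
    exact Prod.ext (sub_eq_zero.mp (hk'2 v hv)) rfl
  · intro v hv v' hv'
    have hn := hnorm v hv _ (hk'1 v hv)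
    have hn' := hnorm v' hv' _ (hk'1 v' hv')
    have hP1 : (S.P (k' v, v)).1 = k ((S.P (k' v, v)).2) := sub_eq_zero.mp (hk'2 v hv)
    have hP1' : (S.P (k' v', v')).1 = k ((S.P (k' v', v')).2) := sub_eq_zero.mp (hk'2 v' hv')
    have hc : |(S.P (k' v, v)).1 - (S.P (k' v', v')).1| ≤
        |(S.P (k' v, v)).2 - (S.P (k' v', v')).2| := by
      rw [hP1, hP1']
      exact hk2 _ (hin v hv _ (hk'1 v hv)) _ (hin v' hv' _ (hk'1 v' hv'))
    obtain ⟨k1, k2⟩ := S.vert hn hn' hc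
    obtain ⟨h1, h2, h3, h4⟩ := S.PM_lower hn hn'
    simp only at h1 h2 h3 h4 k1 k2 ⊢
    rw [max_eq_right k1] at h1 h2 h3 h4
    refine ⟨k2, ?_⟩
    have n1 := abs_nonneg (k' v - k' v')
    have n2 := abs_nonneg (v - v')
    have m1 : S.ε * |v - v'| ≤ 1 / 64 * |v - v'| := mul_le_mul_of_nonneg_right hε' n2
    have m2 : 4 * |k' v - k' v'| ≤ |S.a| * |k' v - k' v'| := mul_le_mul_of_nonneg_right S.ha n1
    have m3 : |S.b| * |v - v'| ≤ 1 / 4 * |v - v'| := mul_le_mul_of_nonneg_right hb n2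
    linarith

/-- two points with the same first coordinate and backward orbits of length `n` in the square -/
theorem PMap.vert_close {n : ℕ} {w w' : ℕ → Q2} (hw : ∀ j ≤ n, ‖w j‖ ≤ 1)
    (hw' : ∀ j ≤ n, ‖w' j‖ ≤ 1) (hP : ∀ j < n, S.P (w (j + 1)) = w j)
    (hP' : ∀ j < n, S.P (w' (j + 1)) = w' j) (h : (w 0).1 = (w' 0).1) :
    |(w 0).2 - (w' 0).2| ≤ 2 * (1 / 2) ^ n := by
  have key : ∀ j ≤ n, |(w j).1 - (w' j).1| ≤ |(w j).2 - (w' j).2| ∧
      |(w 0).2 - (w' 0).2| ≤ (1 / 2) ^ j * |(w j).2 - (w' j).2| := by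
    intro j
    induction j with
    | zero =>
      intro _
      refine ⟨?_, by simp⟩
      rw [h, sub_self, abs_zero]
      exact abs_nonneg _
    | succ j ih =>
      intro hj
      obtain ⟨i1, i2⟩ := ih (by omega)
      rw [← hP j (by omega), ← hP' j (by omega)] at i1
      obtain ⟨k1, k2⟩ := S.vert (hw _ hj) (hw' _ hj) i1
      rw [hP j (by omega), hP' j (by omega)] at k2
      refine ⟨k1, ?_⟩
      have hp : (0 : ℝ) ≤ (1 / 2) ^ j := by positivity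
      calc _ ≤ _ := i2
        _ ≤ (1 / 2) ^ j * (1 / 2 * |(w (j + 1)).2 - (w' (j + 1)).2|) :=
          mul_le_mul_of_nonneg_left k2 hp
        _ = _ := by ring
  obtain ⟨-, k2⟩ := key n le_rfl
  have b1 : |(w n).2| ≤ 1 := (le_max_right _ _).trans (hw n le_rfl)
  have b2 : |(w' n).2| ≤ 1 := (le_max_right _ _).trans (hw' n le_rfl)
  have b3 : |(w n).2 - (w' n).2| ≤ 2 := by
    have := abs_sub (w n).2 (w' n).2
    linarith
  have hp : (0 : ℝ) ≤ (1 / 2) ^ n := by positivity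
  calc _ ≤ _ := k2
    _ ≤ (1 / 2) ^ n * 2 := mul_le_mul_of_nonneg_left b3 hp
    _ = _ := by ring

/-- two points with the same second coordinate and forward orbits of length `n` in the square -/
theorem PMap.horiz_close {n : ℕ} {w w' : ℕ → Q2} (hw : ∀ j ≤ n, ‖w j‖ ≤ 1)
    (hw' : ∀ j ≤ n, ‖w' j‖ ≤ 1) (hP : ∀ j < n, S.P (w j) = w (j + 1))
    (hP' : ∀ j < n, S.P (w' j) = w' (j + 1)) (h : (w 0).2 = (w' 0).2) :
    |(w 0).1 - (w' 0).1| ≤ 2 * (1 / 3) ^ n := by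
  have key : ∀ j ≤ n, |(w j).2 - (w' j).2| ≤ |(w j).1 - (w' j).1| ∧
      |(w 0).1 - (w' 0).1| ≤ (1 / 3) ^ j * |(w j).1 - (w' j).1| := by
    intro j
    induction j with
    | zero =>
      intro _
      refine ⟨?_, by simp⟩
      rw [h, sub_self, abs_zero]
      exact abs_nonneg _
    | succ j ih =>
      intro hj
      obtain ⟨i1, i2⟩ := ih (by omega)
      obtain ⟨k1, k2⟩ := S.horiz (hw j (by omega)) (hw' j (by omega)) i1
      rw [hP j (by omega), hP' j (by omega)] at k1 k2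
      have n1 := abs_nonneg ((w (j + 1)).1 - (w' (j + 1)).1)
      refine ⟨by linarith, ?_⟩
      have hp : (0 : ℝ) ≤ (1 / 3) ^ j := by positivity
      calc _ ≤ _ := i2
        _ ≤ (1 / 3) ^ j * (1 / 3 * |(w (j + 1)).1 - (w' (j + 1)).1|) :=
          mul_le_mul_of_nonneg_left (by linarith) hp
        _ = _ := by ring
  obtain ⟨-, k2⟩ := key n le_rfl
  have b1 : |(w n).1| ≤ 1 := (le_max_left _ _).trans (hw n le_rfl)
  have b2 : |(w' n).1| ≤ 1 := (le_max_left _ _).trans (hw' n le_rfl)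
  have b3 : |(w n).1 - (w' n).1| ≤ 2 := by
    have := abs_sub (w n).1 (w' n).1
    linarith
  have hp : (0 : ℝ) ≤ (1 / 3) ^ n := by positivity
  calc _ ≤ _ := k2
    _ ≤ (1 / 3) ^ n * 2 := mul_le_mul_of_nonneg_left b3 hp
    _ = _ := by ring

end VeniceMask
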