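import Pool.Agent.helper75.VM.M_B0

/-!
# MP_509a24_an, module RE2: gluing unstable curves, closing an unstable curve
-/

open Set Filter Topology Bundle
open scoped ContDiff Manifold

namespace VeniceMask

universe u

variable {M : Type u} [TopologicalSpace M] {F : AFlow M}

theorem IsUCurve.glue {B : Box F} {g g' : ℝ → ℝ} {a b c : ℝ} (h : IsUCurve B g a b)
    (h' : IsUCurve B g' b c) (hb : g b = g' b) :
    IsUCurve B (fun x => if x ≤ b then g x else g' x) a c := by
  have hab := h.le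
  have hbc := h'.le
  have e1 : ∀ x, x ≤ b → (if x ≤ b then g x else g' x) = g x := fun x hx => if_pos hx
  have e2 : ∀ x, b ≤ x → (if x ≤ b then g x else g' x) = g' x := fun x hx => by
    rcases hx.eq_or_lt with h0 | h0
    · rw [← h0, if_pos le_rfl, hb]
    · rw [if_neg (not_le.mpr h0)]
  refine ⟨hab.trans hbc, ?_, ?_, ?_⟩
  · intro x hx
    rcases le_total x b with hxb | hxb
    · rw [e1 x hxb]; exact h.norm_le x ⟨hx.1, hxb⟩
    · rw [e2 x hxb]; exact h'.norm_le x ⟨hxb, hx.2⟩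
  · intro x hx
    rcases le_total x b with hxb | hxb
    · rw [e1 x hxb]; exact h.mem x ⟨hx.1, hxb⟩
    · rw [e2 x hxb]; exact h'.mem x ⟨hxb, hx.2⟩
  · intro x hx
    have hl : x ∈ Icc a b → HasDerivWithinAt (fun x => if x ≤ b then g x else g' x)
        (B.m (x, (if x ≤ b then g x else g' x))) (Icc a b) x := fun hx' => by
      rw [e1 x hx'.2]
      exact (h.der x hx').congr (fun y hy => e1 y hy.2) (e1 x hx'.2)
    have hr : x ∈ Icc b c → HasDerivWithinAt (fun x => if x ≤ b then g x else g' x)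
        (B.m (x, (if x ≤ b then g x else g' x))) (Icc b c) x := fun hx' => by
      rw [e2 x hx'.1]
      exact (h'.der x hx').congr (fun y hy => e2 y hy.1) (e2 x hx'.1)
    rcases lt_trichotomy x b with hxb | hxb | hxb
    · refine (hl ⟨hx.1, hxb.le⟩).mono_of_mem_nhdsWithin ?_
      have : Iio b ∈ 𝓝[Icc a c] x := mem_nhdsWithin_of_mem_nhds (Iio_mem_nhds hxb)
      filter_upwards [this, self_mem_nhdsWithin] with y hy1 hy2
      exact ⟨hy2.1, le_of_lt hy1⟩
    · have hu := (hl ⟨hx.1, hxb.le⟩).union (hr ⟨hxb.ge, hx.2⟩)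
      rwa [Icc_union_Icc_eq_Icc hab hbc] at hu
    · refine (hr ⟨hxb.le, hx.2⟩).mono_of_mem_nhdsWithin ?_
      have : Ioi b ∈ 𝓝[Icc a c] x := mem_nhdsWithin_of_mem_nhds (Ioi_mem_nhds hxb)
      filter_upwards [this, self_mem_nhdsWithin] with y hy1 hy2
      exact ⟨le_of_lt hy1, hy2.2⟩

theorem IsUCurve.of_Ico [T2Space M] {B : Box F} {g : ℝ → ℝ} {a b : ℝ} (hab : a < b)
    (h : ∀ c ∈ Ico a b, IsUCurve B g a c) :
    ∃ g' : ℝ → ℝ, (∀ x ∈ Ico a b, g' x = g x) ∧ IsUCurve B g' a b := by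
  have hlip : LipschitzOnWith (1 / 4) g (Ico a b) := by
    refine LipschitzOnWith.of_dist_le_mul fun x hx y hy => ?_
    have hm : max x y ∈ Ico a b := by
      rcases le_total x y with hxy | hxy
      · rwa [max_eq_right hxy]
      · rwa [max_eq_left hxy]
    have := (h _ hm).lip (x := x) (y := y) ⟨hx.1, le_max_left _ _⟩ ⟨hy.1, le_max_right _ _⟩
    rw [Real.dist_eq, Real.dist_eq]
    simpa using this
  obtain ⟨g', hg', heq⟩ := hlip.extend_real
  have hE : ∀ x ∈ Ico a b, g' x = g x := fun x hx => (heq hx).symm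
  have hcont : Continuous g' := hg'.continuous
  have hcurve : Continuous fun x : ℝ => ((x, g' x) : Q2) := continuous_id.prodMk hcont
  have hne : (𝓝[Ico a b] b).NeBot := by
    rw [← mem_closure_iff_nhdsWithin_neBot, closure_Ico hab.ne]
    exact right_mem_Icc.mpr hab.le
  have hnorm : ∀ x ∈ Ico a b, ‖((x, g' x) : Q2)‖ ≤ 1 := fun x hx => by
    rw [hE x hx]; exact (h x hx).norm_le x ⟨hx.1, le_rfl⟩
  have hmem : ∀ x ∈ Ico a b, B.pt (x, g' x) ∈ F.L := fun x hx => by
    rw [hE x hx]; exact (h x hx).mem x ⟨hx.1, le_rfl⟩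
  have hnb : ‖((b, g' b) : Q2)‖ ≤ 1 := by
    refine le_of_tendsto (((continuous_norm.comp hcurve).tendsto b).mono_left
      (nhdsWithin_le_nhds (s := Ico a b))) ?_
    filter_upwards [self_mem_nhdsWithin] with x hx
    exact hnorm x hx
  have hLc : IsClosed F.L := F.compact'.isClosed
  have htend : Tendsto (fun x : ℝ => ((x, g' x) : Q2)) (𝓝[Ico a b] b)
      (𝓝[{q : Q2 | ‖q‖ ≤ 1}] (b, g' b)) := by
    refine tendsto_nhdsWithin_iff.mpr ⟨(hcurve.tendsto b).mono_left nhdsWithin_le_nhds, ?_⟩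
    filter_upwards [self_mem_nhdsWithin] with x hx
    exact hnorm x hx
  have hmb : B.pt (b, g' b) ∈ F.L := by
    refine hLc.mem_of_tendsto ((B.toFlowBox.pt_cont (b, g' b) hnb).tendsto.comp htend) ?_
    filter_upwards [self_mem_nhdsWithin] with x hx
    exact hmem x hx
  refine ⟨g', hE, hab.le, ?_, ?_, ?_⟩
  · intro x hx
    rcases hx.2.eq_or_lt with h0 | h0
    · rw [h0]; exact hnb
    · exact hnorm x ⟨hx.1, h0⟩
  · intro x hx
    rcases hx.2.eq_or_lt with h0 | h0
    · rw [h0]; exact hmb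
    · exact hmem x ⟨hx.1, h0⟩
  · have hder : ∀ x ∈ Ico a b, HasDerivWithinAt g' (B.m (x, g' x)) (Icc a b) x := by
      intro x hx
      have hc : (x + b) / 2 ∈ Ico a b := ⟨by linarith [hx.1, hx.2], by linarith [hx.2]⟩
      have hxc : x < (x + b) / 2 := by linarith [hx.2]
      have h1 := (h _ hc).der x ⟨hx.1, hxc.le⟩
      rw [← hE x hx] at h1
      have h2 : HasDerivWithinAt g' (B.m (x, g' x)) (Icc a ((x + b) / 2)) x :=
        h1.congr (fun y hy => hE y ⟨hy.1, hy.2.trans_lt hc.2⟩) (hE x hx)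
      refine h2.mono_of_mem_nhdsWithin ?_
      have : Iio ((x + b) / 2) ∈ 𝓝[Icc a b] x := mem_nhdsWithin_of_mem_nhds (Iio_mem_nhds hxc)
      filter_upwards [this, self_mem_nhdsWithin] with y hy1 hy2
      exact ⟨hy2.1, le_of_lt hy1⟩
    intro x hx
    rcases hx.2.eq_or_lt with h0 | h0
    · rw [h0]
      have hderAt : ∀ y ∈ Ioo a b, HasDerivAt g' (B.m (y, g' y)) y := fun y hy =>
        (hder y ⟨hy.1.le, hy.2⟩).hasDerivAt (Icc_mem_nhds hy.1 hy.2)
      have key : HasDerivWithinAt g' (B.m (b, g' b)) (Iic b) b := by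
        refine hasDerivWithinAt_Iic_of_tendsto_deriv (s := Ioo a b)
          (fun y hy => (hderAt y hy).differentiableAt.differentiableWithinAt)
          hcont.continuousWithinAt (Ioo_mem_nhdsLT hab) ?_
        have hm : Tendsto (fun y : ℝ => B.m (y, g' y)) (𝓝[<] b) (𝓝 (B.m (b, g' b))) := by
          have h1 := B.m_cont (b, g' b) ⟨hnb, hmb⟩
          refine h1.tendsto.comp (tendsto_nhdsWithin_iff.mpr
            ⟨(hcurve.tendsto b).mono_left nhdsWithin_le_nhds, ?_⟩)
          filter_upwards [Ioo_mem_nhdsLT hab] with y hy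
          exact ⟨hnorm y ⟨hy.1.le, hy.2⟩, hmem y ⟨hy.1.le, hy.2⟩⟩
        refine hm.congr' ?_
        filter_upwards [Ioo_mem_nhdsLT hab] with y hy
        exact (hderAt y hy).deriv.symm
      exact key.mono fun y hy => hy.2
    · exact hder x ⟨hx.1, h0⟩

end VeniceMask
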