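import Pool.Agent.helper75.VM.M_B0

/-!
# MP_509a24_an, module RF: reflection of boxes
-/

open Set Filter Topology Bundle
open scoped ContDiff Manifold

namespace VeniceMask

universe u

variable {M : Type u} [TopologicalSpace M]

/-- reflection of the plane -/
private def rfl2 (q : Q2) : Q2 := (-q.1, q.2)

private theorem rfl2_rfl2 (q : Q2) : rfl2 (rfl2 q) = q := by simp [rfl2]

private theorem norm_rfl2 (q : Q2) : ‖rfl2 q‖ = ‖q‖ := by simp [rfl2, Prod.norm_def]

private def rflL : Q2 →L[ℝ] Q2 :=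
  (-(ContinuousLinearMap.fst ℝ ℝ ℝ)).prod (ContinuousLinearMap.snd ℝ ℝ ℝ)

private theorem rflL_apply (q : Q2) : rflL q = rfl2 q := rfl

private theorem cont_rfl2 : Continuous rfl2 := rflL.continuous

/-- reflection of `ℝ³` -/
private def rfl3 : V3 ≃ₜ V3 where
  toFun z := (z.1, rfl2 z.2)
  invFun z := (z.1, rfl2 z.2)
  left_inv z := by simp [rfl2_rfl2]
  right_inv z := by simp [rfl2_rfl2]
  continuous_toFun := continuous_fst.prodMk (cont_rfl2.comp continuous_snd)
  continuous_invFun := continuous_fst.prodMk (cont_rfl2.comp continuous_snd)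

private def reflBox {F : AFlow M} (B : Box F) : Box F where
  e := rfl3.toOpenPartialHomeomorph.trans B.e
  δ := B.δ
  δ_pos := B.δ_pos
  src := fun t q ht hq => by
    refine ⟨trivial, ?_⟩
    exact B.src t (rfl2 q) ht (by rwa [norm_rfl2])
  flow := fun t s q ht hts hs hq => B.flow t s (rfl2 q) ht hts hs (by rwa [norm_rfl2])
  m := fun q => -B.m (rfl2 q)
  m_cont := by
    refine ContinuousOn.neg (B.m_cont.comp cont_rfl2.continuousOn ?_)
    intro q hq
    exact ⟨by rw [norm_rfl2]; exact hq.1, hq.2⟩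
  m_le := fun q hq hL => by
    rw [abs_neg]
    exact B.m_le _ (by rwa [norm_rfl2]) hL

private theorem reflBox_e {F : AFlow M} (B : Box F) (t : ℝ) (q : Q2) :
    (reflBox B).e (t, q) = B.e (t, rfl2 q) := rfl

private theorem reflBox_symm {F : AFlow M} (B : Box F) (x : M) :
    ((reflBox B).e.symm x).2 = rfl2 (B.e.symm x).2 := rfl

private theorem reflBox_pt {F : AFlow M} (B : Box F) (q : Q2) :
    (reflBox B).pt q = B.pt (rfl2 q) := rfl

private theorem der_neg {W : Type*} [NormedAddCommGroup W] [NormedSpace ℝ W] {g : ℝ → W} {d : W}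
    {a b h : ℝ} (hd : HasDerivWithinAt g d (Icc a b) h) :
    HasDerivWithinAt (fun x => g (-x)) (-d) (Icc (-b) (-a)) (-h) := by
  have h1 : HasDerivWithinAt (fun x : ℝ => -x) (-1) (Icc (-b) (-a)) (-h) :=
    (hasDerivAt_neg (-h)).hasDerivWithinAt
  have h2 : HasDerivWithinAt g d (Icc a b) (-(-h)) := by rwa [neg_neg]
  have h3 := HasDerivWithinAt.scomp (-h) h2 h1 (fun x hx => by
    constructor
    · linarith [hx.2]
    · linarith [hx.1])
  have e : (-1 : ℝ) • d = -d := by simp
  rw [e] at h3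
  exact h3

private theorem ucurve_iff {F : AFlow M} (B : Box F) (g : ℝ → ℝ) (a b : ℝ) :
    IsUCurve (reflBox B) g a b ↔ IsUCurve B (fun x => g (-x)) (-b) (-a) := by
  constructor
  · intro h
    have hm : ∀ x ∈ Icc (-b) (-a), -x ∈ Icc a b := fun x hx =>
      ⟨by linarith [hx.2], by linarith [hx.1]⟩
    refine ⟨by linarith [h.le], fun x hx => ?_, fun x hx => ?_, fun x hx => ?_⟩
    · have := h.norm_le (-x) (hm x hx)
      rw [← norm_rfl2] at this
      simpa [rfl2] using this
    · have := h.mem (-x) (hm x hx)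
      rw [show (reflBox B).pt (-x, g (-x)) = B.pt (rfl2 (-x, g (-x))) from rfl] at this
      simpa [rfl2] using this
    · have := der_neg (h.der (-x) (hm x hx))
      rw [neg_neg, show (reflBox B).m (-x, g (-x)) = -B.m (rfl2 (-x, g (-x))) from rfl,
        neg_neg] at this
      simpa [rfl2] using this
  · intro h
    have hm : ∀ x ∈ Icc a b, -x ∈ Icc (-b) (-a) := fun x hx =>
      ⟨by linarith [hx.2], by linarith [hx.1]⟩
    refine ⟨by linarith [h.le], fun x hx => ?_, fun x hx => ?_, fun x hx => ?_⟩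
    · have := h.norm_le (-x) (hm x hx)
      rw [← norm_rfl2] at this
      simpa [rfl2] using this
    · have := h.mem (-x) (hm x hx)
      simp only [neg_neg] at this
      exact this
    · have := der_neg (h.der (-x) (hm x hx))
      simp only [neg_neg] at this
      exact this

/-- the reflected box `(h,v) ↦ (-h,v)` -/
theorem Box.exists_refl (S : System M) (B : Box S.toAFlow) (hB : Linked S B) :
    ∃ B' : Box S.toAFlow, Linked S B' ∧ B'.δ = B.δ ∧ (∀ q : Q2, B'.pt q = B.pt (-q.1, q.2)) ∧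
      ∀ (g : ℝ → ℝ) (a b : ℝ), IsUCurve B' g a b ↔ IsUCurve B (fun x => g (-x)) (-b) (-a) := by
  refine ⟨reflBox B, ⟨?_, ?_⟩, rfl, fun q => rfl, ucurve_iff B⟩
  · intro B₂ hB₂
    obtain ⟨C, hC, hT⟩ := hB.1 B₂ hB₂
    refine ⟨C, hC, ?_⟩
    intro g a b hg t s hs u q hu hq he
    have h1 := (ucurve_iff B g a b).1 hg
    have hs' : -s ∈ Icc (-b) (-a) := ⟨by linarith [hs.2], by linarith [hs.1]⟩
    obtain ⟨c, hc, h2, h3, h4⟩ := hT (fun x => g (-x)) (-b) (-a) h1 t (-s) hs' u q hu hq (by
      simp only [neg_neg]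
      exact he)
    refine ⟨-c, neg_ne_zero.2 hc, fun h => by rw [abs_neg]; exact h2 h,
      fun h => by rw [abs_neg]; exact h3 h, ?_⟩
    have h5 := der_neg h4
    simp only [neg_neg, Prod.neg_mk] at h5
    rw [neg_mul]
    exact h5
  · intro B₂ hB₂
    obtain ⟨C, hC, hT⟩ := hB.2 B₂ hB₂
    refine ⟨C, hC, ?_⟩
    intro g a b hg t s hs u q hu hq he
    obtain ⟨c, hc, h2, h3, h4⟩ := hT g a b hg t s hs u (rfl2 q) hu (by rwa [norm_rfl2]) he
    refine ⟨-c, neg_ne_zero.2 hc, fun h => by rw [abs_neg]; exact h2 h,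
      fun h => by rw [abs_neg]; exact h3 h, ?_⟩
    have h5 := rflL.hasFDerivAt.comp_hasDerivWithinAt s h4
    have e : rflL (c, c * B.m (rfl2 q)) = (-c, -c * (reflBox B).m q) := by
      rw [rflL_apply]
      show (-c, c * B.m (rfl2 q)) = (-c, -c * -B.m (rfl2 q))
      rw [neg_mul_neg]
    rw [e] at h5
    exact h5

end VeniceMask
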