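import Pool.Agent.helper75.VM.M_FB2
import Pool.Agent.helper75.VM.M_CH3

/-!
# MP_509a24_an, module RT: return maps of flow boxes at periodic points
-/

open Set Filter Topology Bundle
open scoped ContDiff Manifold

namespace VeniceMask

universe u

section RTabs

variable {M : Type u} [TopologicalSpace M] {F : AFlow M}

theorem RT_periodic {O : Set M} {p : M} {T : ℝ} (h : F.IsPer O p T) :
    Function.Periodic (fun s => F.G s p) T := by
  intro s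
  show F.G (s + T) p = F.G s p
  rw [F.add' s T p h.mem, h.per]

theorem RT_cont {p : M} (hp : p ∈ F.L) : Continuous (fun s => F.G s p) := by
  have h1 : ContinuousOn (fun s : ℝ => ((s, p) : ℝ × M)) univ := by fun_prop
  have h2 := F.cont'.comp h1 (fun s _ => ⟨mem_univ _, hp⟩)
  exact continuousOn_univ.1 h2

/-- the section meets the orbit near the centre only at the centre -/
theorem RT_axis [T2Space M] {B : FlowBox F} {O : Set M} {T : ℝ} (h : F.IsPer O (B.pt 0) T) :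
    ∃ r : ℝ, 0 < r ∧ ∀ (t : ℝ) (q : Q2), |t| ≤ B.δ → ‖q‖ ≤ 1 → ‖q‖ < r → B.e (t, q) ∈ O →
      q = 0 := by
  by_contra hcon
  push Not at hcon
  have hn : ∀ n : ℕ, ∃ (q : Q2) (s : ℝ), ‖q‖ ≤ 1 ∧ ‖q‖ < 1 / ((n : ℝ) + 1) ∧ q ≠ 0 ∧
      s ∈ Icc 0 T ∧ F.G s (B.pt 0) = B.pt q := by
    intro n
    obtain ⟨t, q, ht, hq, hqr, hO, hq0⟩ := hcon (1 / ((n : ℝ) + 1)) (by positivity)
    have hL : B.e (t, q) ∈ F.L := AFlow.IsPer.sub F h hO
    have h1 := B.pt_eq ht hq hL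
    have h2 : B.pt q ∈ O := by rw [h1]; exact AFlow.IsPer.inv F h (-t) _ hO
    rw [h.eq] at h2
    obtain ⟨s, hs⟩ := h2
    obtain ⟨y, hy, hy2⟩ := (RT_periodic h).exists_mem_Ico₀ h.T_pos s
    refine ⟨q, y, hq, hqr, hq0, Ico_subset_Icc_self hy, ?_⟩
    have hy3 : F.G s (B.pt 0) = F.G y (B.pt 0) := hy2
    rw [← hy3, hs]
  choose q s hq1 hqr hq0 hs hG using hn
  obtain ⟨a, ha, φ, hφ, hlim⟩ := isCompact_Icc.tendsto_subseq hs
  have hqlim : Tendsto (fun n => q (φ n)) atTop (𝓝 0) := by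
    have h1 : Tendsto q atTop (𝓝 0) := by
      rw [tendsto_zero_iff_norm_tendsto_zero]
      exact squeeze_zero (fun n => norm_nonneg _) (fun n => (hqr n).le)
        tendsto_one_div_add_atTop_nhds_zero_nat
    exact h1.comp hφ.tendsto_atTop
  have hpt : Tendsto (fun n => B.pt (q (φ n))) atTop (𝓝 (B.pt 0)) := by
    have h0 : (0 : Q2) ∈ {q : Q2 | ‖q‖ ≤ 1} := by simp
    have h1 : Tendsto (fun n => q (φ n)) atTop (𝓝[{q : Q2 | ‖q‖ ≤ 1}] 0) :=
      tendsto_nhdsWithin_of_tendsto_nhds_of_eventually_within _ hqlim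
        (Eventually.of_forall fun n => hq1 (φ n))
    exact (B.pt_cont 0 h0).tendsto.comp h1
  have hGl : Tendsto (fun n => F.G (s (φ n)) (B.pt 0)) atTop (𝓝 (F.G a (B.pt 0))) :=
    (RT_cont h.mem).continuousAt.tendsto.comp hlim
  have hGa : F.G a (B.pt 0) = B.pt 0 := by
    refine tendsto_nhds_unique hGl (hpt.congr fun n => ?_)
    exact (hG (φ n)).symm
  have hev : ∀ᶠ n in atTop, |s (φ n) - a| ≤ B.δ := by
    have h1 : Tendsto (fun n => s (φ n)) atTop (𝓝 a) := hlim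
    have h2 := Metric.tendsto_nhds.1 h1 B.δ B.δ_pos
    filter_upwards [h2] with n hn
    rw [Real.dist_eq] at hn
    exact hn.le
  obtain ⟨n, hn⟩ := hev.exists
  have h3 : F.G (s (φ n) - a) (B.pt 0) = B.pt (q (φ n)) := by
    rw [← hG (φ n)]
    conv_lhs => rw [← hGa]
    rw [← F.add' _ _ _ h.mem, sub_add_cancel]
  have h4 := B.sep (q := 0) (q' := q (φ n)) (by simp) (hq1 _) h.mem hn h3
  rw [h4, F.zero'] at h3
  exact hq0 (φ n) (B.pt_inj (by simp) (hq1 _) h3).symm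

end RTabs

variable {M : Type u} [TopologicalSpace M] [ChartedSpace (EuclideanHalfSpace 3) M]
  [IsManifold (𝓡∂ 3) ∞ M] [CompactSpace M] [T2Space M]
  {g : Metric3 M} {X : ∀ x : M, TS x} {φ : ℝ → M → M} {E F : ∀ x : M, Submodule ℝ (TS x)}

theorem RT_D_congr (φ : ℝ → M → M) (s : ℝ) {x y : M} (h : x = y) (v : E3) :
    (show E3 from D φ s x v) = (show E3 from D φ s y v) := by
  subst h
  rfl

theorem RT_DP_congr (e : V3 → M) {x y : V3} (h : x = y) (v : V3) :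
    (show E3 from DP e x v) = (show E3 from DP e y v) := by
  subst h
  rfl

theorem RT_rescale {e e' : OpenPartialHomeomorph V3 M} (he : IsC1Param e) {ρ : ℝ}
    (h : ∀ z : V3, e' z = e (z.1, ρ • z.2)) {z : V3} (hz : (z.1, ρ • z.2) ∈ e.source) (ξ : V3) :
    (show E3 from DP e' z ξ) = (show E3 from DP e (z.1, ρ • z.2) (ξ.1, ρ • ξ.2)) := by
  let L : V3 →L[ℝ] V3 := (ContinuousLinearMap.fst ℝ ℝ Q2).prod (ρ • ContinuousLinearMap.snd ℝ ℝ Q2)
  have hL : ∀ y : V3, L y = (y.1, ρ • y.2) := fun y => rfl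
  have he' : (e' : V3 → M) = e ∘ L := by
    funext y
    rw [h y]
    rfl
  have hd : MDifferentiableAt 𝓘(ℝ, V3) (𝓡∂ 3) e (L z) :=
    ((he.smooth.contMDiffAt (e.open_source.mem_nhds hz)).mdifferentiableAt (by norm_num))
  have hd2 : MDifferentiableAt 𝓘(ℝ, V3) 𝓘(ℝ, V3) L z := L.differentiableAt.mdifferentiableAt
  have hc := mfderiv_comp z hd hd2
  have hLd : mfderiv 𝓘(ℝ, V3) 𝓘(ℝ, V3) L z = L := by
    rw [mfderiv_eq_fderiv]
    exact L.fderiv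
  have h1 : DP (e ∘ L) z = (DP e (L z)).comp L := by
    unfold DP
    rw [hc, hLd]
    rfl
  have h2 : ∀ f : V3 → M, f = e ∘ L → (show E3 from DP f z ξ) = (show E3 from DP (e ∘ L) z ξ) := by
    rintro f rfl
    rfl
  have h3 := congrArg (fun Q : V3 →L[ℝ] E3 => Q ξ) h1
  exact (h2 e' he').trans h3

theorem exists_ret (H : Hyp g X φ E F) (d : ℕ) (B : FlowBox (aflow H d)) (hB : IsC1Param B.e)
    {O : Set M} {T : ℝ} (hO : (aflow H d).IsPer O (B.pt 0) T) (k : ℕ) (hk : 2 * B.δ < k * T)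
    (A : Q2 →L[ℝ] Q2) (hA : ∀ q : Q2, ∃ τ : ℝ,
      (show E3 from D φ (k * T) (B.e (0, 0)) (DP B.e (0, 0) (0, q))) =
        DP B.e (0, 0) (τ, A q)) {ε : ℝ} (hε : 0 < ε) :
    ∃ δ₀ : ℝ, 0 < δ₀ ∧ δ₀ ≤ B.δ ∧ ∀ δ' : ℝ, 0 < δ' → δ' ≤ δ₀ →
      ∃ ρ₀ : ℝ, 0 < ρ₀ ∧ ρ₀ ≤ 1 ∧ ∀ ρ : ℝ, 0 < ρ → ρ ≤ ρ₀ →
      ∀ B' : FlowBox (aflow H d), IsC1Param B'.e → B'.δ = δ' →
      (∀ z : V3, B'.e z = B.e (z.1, ρ • z.2)) →
      (∀ z : V3, z ∈ B'.e.source ↔ (z.1, ρ • z.2) ∈ B.e.source) →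
      (∀ y : M, B'.e.symm y = ((B.e.symm y).1, ρ⁻¹ • (B.e.symm y).2)) →
      ∃ R : Ret B' O, R.T = k * T ∧
        (∀ q q' : Q2, ‖q‖ ≤ 1 → ‖q'‖ ≤ 1 →
          ‖R.P q - R.P q' - A (q - q')‖ ≤ ε * ‖q - q'‖) ∧
        ∀ q : Q2, ‖q‖ ≤ 1 → ∃ A' : Q2 →L[ℝ] Q2, HasFDerivAt R.P A' q ∧ ‖A' - A‖ ≤ ε ∧
          ∃ u : ℝ, |u| ≤ B'.δ ∧ φ (k * T) (B'.e (0, q)) = B'.e (u, R.P q) ∧ ∀ ξ : Q2, ∃ τ : ℝ,
            (show E3 from D φ (k * T) (B'.e (0, q)) (DP B'.e (0, q) (0, ξ))) =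
              DP B'.e (u, R.P q) (τ, A' ξ) := by
  set S : ℝ := k * T with hSdef
  have hS0 : 0 < S := lt_trans (by linarith [B.δ_pos]) hk
  set W : V3 → V3 := fun y => B.e.symm (φ S (B.e y)) with hW
  have h00 : ((0, 0) : V3) ∈ B.e.source := B.src 0 0 (by simp [B.δ_pos.le]) (by simp)
  have hper : φ S (B.e (0, 0)) = B.e (0, 0) := by
    have h1 : (aflow H d).G S (B.pt 0) = B.pt 0 := by
      have h2 := (RT_periodic hO).nat_mul k
      have h3 := h2 0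
      simp only [zero_add] at h3
      rw [(aflow H d).zero'] at h3
      exact h3
    have h4 : G2 φ S (B.pt 0) = B.pt 0 := h1
    rw [G2_nonneg hS0.le] at h4
    exact h4
  have hfc : Continuous (φ S) :=
    continuous_iff_continuousAt.2 fun x => (flow_smooth_at H.flow hS0.le x).continuousAt
  have hU : IsOpen (B.e.source ∩ (fun y => φ S (B.e y)) ⁻¹' B.e.target) :=
    (hfc.comp_continuousOn B.e.continuousOn).isOpen_inter_preimage B.e.open_source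
      B.e.open_target
  set U : Set V3 := B.e.source ∩ (fun y => φ S (B.e y)) ⁻¹' B.e.target with hUdef
  have hU0 : ((0, 0) : V3) ∈ U := by
    refine ⟨h00, ?_⟩
    show φ S (B.e (0, 0)) ∈ B.e.target
    rw [hper]
    exact B.e.map_source h00
  have hWd : ∀ z ∈ U, ContDiffAt ℝ 1 W z := fun z hz =>
    (IsC1Param.rep hB hB hz.1 (flow_smooth_at H.flow hS0.le _) hz.2).1
  have hWD : ∀ z ∈ U, ∀ ξ : V3, (show E3 from DP B.e (W z) (fderiv ℝ W z ξ)) =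
      (show E3 from D φ S (B.e z) (DP B.e z ξ)) := fun z hz =>
    (IsC1Param.rep hB hB hz.1 (flow_smooth_at H.flow hS0.le _) hz.2).2
  have hWe : ∀ z ∈ U, B.e (W z) = φ S (B.e z) := fun z hz => B.e.right_inv hz.2
  have hWs : ∀ z ∈ U, W z ∈ B.e.source := fun z hz => B.e.map_target hz.2
  have hW0 : W (0, 0) = (0, 0) := by
    show B.e.symm (φ S (B.e (0, 0))) = (0, 0)
    rw [hper]
    exact B.e.left_inv h00
  clear hW
  clear_value W U
  let J : Q2 →L[ℝ] V3 := ContinuousLinearMap.inr ℝ ℝ Q2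
  have hJ : ∀ x : Q2, J x = (0, x) := fun x => rfl
  let W2 : Q2 → Q2 := fun x => (W (0, x)).2
  have hW2 : ∀ x : Q2, ((0, x) : V3) ∈ U → ContDiffAt ℝ 1 W2 x := by
    intro x hx
    have h0 : ContDiffAt ℝ 1 W (J x) := hWd _ hx
    have h1 : ContDiffAt ℝ 1 (W ∘ J) x := h0.comp x J.contDiff.contDiffAt
    exact h1.snd
  have hW2D : ∀ x : Q2, ((0, x) : V3) ∈ U → ∀ v : Q2,
      fderiv ℝ W2 x v = (fderiv ℝ W (0, x) (0, v)).2 := by
    intro x hx v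
    have h1 : HasFDerivAt W (fderiv ℝ W (0, x)) (J x) :=
      ((hWd _ hx).differentiableAt (by norm_num)).hasFDerivAt
    have h2 : HasFDerivAt (fun x : Q2 => W (J x)) ((fderiv ℝ W (0, x)).comp J) x :=
      h1.comp x J.hasFDerivAt
    have h3 : HasFDerivAt W2 ((ContinuousLinearMap.snd ℝ ℝ Q2).comp
      ((fderiv ℝ W (0, x)).comp J)) x := h2.snd
    rw [h3.fderiv]
    rfl
  have hinj := (IsC1Param.bij hB h00).injective
  have hA0 : fderiv ℝ W2 0 = A := by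
    refine ContinuousLinearMap.ext fun v => ?_
    rw [hW2D 0 hU0 v]
    obtain ⟨τ, hτ⟩ := hA v
    have h1 := hWD _ hU0 (0, v)
    rw [RT_DP_congr B.e hW0] at h1
    have h2 := hinj (h1.trans hτ)
    have h3 : fderiv ℝ W (0, 0) (0, v) = (τ, A v) := h2
    show (fderiv ℝ W (0, 0) (0, v)).2 = A v
    rw [h3]
  have hstrict : HasStrictFDerivAt W2 A 0 := by
    have h1 := (hW2 0 hU0).hasStrictFDerivAt (by norm_num)
    rwa [hA0] at h1
  have hcf : ContinuousAt (fderiv ℝ W2) 0 :=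
    ((hW2 0 hU0).fderiv_right (m := 0) (by norm_num)).continuousAt
  obtain ⟨r0, hr0, haxis⟩ := RT_axis hO
  refine ⟨B.δ, B.δ_pos, le_rfl, fun δ' hδ' hδB => ?_⟩
  -- the neighbourhood
  have e1 : ∀ᶠ x : Q2 in 𝓝 0, ((0, x) : V3) ∈ U := by
    have h1 : ContinuousAt J 0 := J.continuous.continuousAt
    exact h1.eventually (hU.mem_nhds hU0)
  have e2 : ∀ᶠ x : Q2 in 𝓝 0, |(W (0, x)).1| < δ' := by
    have h1 : ContinuousAt (fun x : Q2 => |(W (J x)).1|) 0 := by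
      have h2 : ContinuousAt W (J 0) := (hWd _ hU0).continuousAt
      have h3 : ContinuousAt (W ∘ J) 0 := h2.comp J.continuous.continuousAt
      exact (continuous_abs.comp continuous_fst).continuousAt.comp h3
    have h4 : |(W (J 0)).1| < δ' := by
      show |(W (0, 0)).1| < δ'
      rw [hW0]
      simpa using hδ'
    exact h1.eventually (gt_mem_nhds h4)
  have e3 : ∀ᶠ x : Q2 in 𝓝 0, ‖fderiv ℝ W2 x - A‖ < ε := by
    have h1 : ContinuousAt (fun x : Q2 => ‖fderiv ℝ W2 x - A‖) 0 := (hcf.sub continuousAt_const).norm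
    have h4 : ‖fderiv ℝ W2 0 - A‖ < ε := by
      rw [hA0, sub_self, norm_zero]
      exact hε
    exact h1.eventually (gt_mem_nhds h4)
  obtain ⟨r1, hr1, hball⟩ := Metric.eventually_nhds_iff.1 (e1.and (e2.and e3))
  obtain ⟨r2, hr2, hst⟩ : ∃ r2 > 0, ∀ x y : Q2, ‖x‖ < r2 → ‖y‖ < r2 →
      ‖W2 x - W2 y - A (x - y)‖ ≤ ε * ‖x - y‖ := by
    have h1 := hstrict.isLittleO.def hε
    obtain ⟨r2, hr2, h2⟩ := Metric.eventually_nhds_iff.1 h1
    refine ⟨r2, hr2, fun x y hx hy => ?_⟩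
    refine h2 (y := (x, y)) ?_
    rw [Prod.dist_eq]
    show max (dist x 0) (dist y 0) < r2
    rw [dist_zero_right, dist_zero_right]
    exact max_lt hx hy
  obtain ⟨ρ₀, hρ0, hρ1, hρr⟩ : ∃ ρ₀ : ℝ, 0 < ρ₀ ∧ ρ₀ ≤ 1 ∧ ρ₀ < min r0 (min r1 r2) := by
    have h1 : 0 < min r0 (min r1 r2) := lt_min hr0 (lt_min hr1 hr2)
    refine ⟨min 1 (min r0 (min r1 r2) / 2), lt_min one_pos (by linarith), min_le_left _ _, ?_⟩
    exact lt_of_le_of_lt (min_le_right _ _) (by linarith)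
  refine ⟨ρ₀, hρ0, hρ1, fun ρ hρ hρle B' hB' hδB' he' hsrc' _ => ?_⟩
  have hsm : ∀ q : Q2, ‖q‖ ≤ 1 → ‖ρ • q‖ < r0 ∧ ‖ρ • q‖ < r1 ∧ ‖ρ • q‖ < r2 := by
    intro q hq
    have h1 : ‖ρ • q‖ ≤ ρ₀ := by
      rw [norm_smul, Real.norm_of_nonneg hρ.le]
      calc ρ * ‖q‖ ≤ ρ * 1 := by gcongr
        _ = ρ := mul_one _
        _ ≤ ρ₀ := hρle
    have h2 := lt_of_le_of_lt h1 hρr
    exact ⟨lt_of_lt_of_le h2 (min_le_left _ _),
      lt_of_lt_of_le h2 ((min_le_right _ _).trans (min_le_left _ _)),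
      lt_of_lt_of_le h2 ((min_le_right _ _).trans (min_le_right _ _))⟩
  have hsm1 : ∀ q : Q2, ‖q‖ ≤ 1 → ‖ρ • q‖ ≤ 1 := by
    intro q hq
    rw [norm_smul, Real.norm_of_nonneg hρ.le]
    have h1 : ρ ≤ 1 := hρle.trans hρ1
    calc ρ * ‖q‖ ≤ 1 * 1 := by gcongr
      _ = 1 := mul_one _
  have hb : ∀ q : Q2, ‖q‖ ≤ 1 → ((0, ρ • q) : V3) ∈ U ∧ |(W (0, ρ • q)).1| < δ' ∧
      ‖fderiv ℝ W2 (ρ • q) - A‖ < ε := by
    intro q hq
    refine hball ?_
    rw [dist_zero_right]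
    exact (hsm q hq).2.1
  have hρi : ∀ x : Q2, ρ • ρ⁻¹ • x = x := fun x => smul_inv_smul₀ hρ.ne' x
  have hflow : ∀ q : Q2, ‖q‖ ≤ 1 →
      φ S (B'.e (0, q)) = B'.e ((W (0, ρ • q)).1, ρ⁻¹ • W2 (ρ • q)) := by
    intro q hq
    rw [he', he']
    show φ S (B.e (0, ρ • q)) = B.e ((W (0, ρ • q)).1, ρ • ρ⁻¹ • W2 (ρ • q))
    rw [hρi, ← hWe _ (hb q hq).1]
  have hWz : W2 0 = 0 := by
    show (W (0, 0)).2 = 0
    rw [hW0]
  let R : Ret B' O :=
    { P := fun q => ρ⁻¹ • W2 (ρ • q)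
      T := S
      T_pos := hS0
      δ_lt := by rw [hδB']; linarith
      center := by
        show B'.e (0, 0) ∈ O
        rw [he', smul_zero]
        exact AFlow.IsPer.mem_self _ hO
      per := by
        show G2 φ S (B'.e (0, 0)) = B'.e (0, 0)
        rw [G2_nonneg hS0.le, he', smul_zero]
        exact hper
      P0 := by rw [smul_zero, hWz, smul_zero]
      ret := by
        intro q hq
        refine ⟨(W (0, ρ • q)).1, ?_, ?_, ?_⟩
        · rw [hδB']; exact (hb q hq).2.1.le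
        · rw [hsrc']
          show ((W (0, ρ • q)).1, ρ • ρ⁻¹ • W2 (ρ • q)) ∈ B.e.source
          rw [hρi]
          exact hWs _ (hb q hq).1
        · show G2 φ S (B'.e (0, q)) = _
          rw [G2_nonneg hS0.le]
          exact hflow q hq
      axis := by
        intro t q ht hq hO'
        rw [he'] at hO'
        have h1 := haxis t (ρ • q) (by rw [hδB'] at ht; linarith) (hsm1 q hq) (hsm q hq).1 hO'
        exact (smul_eq_zero.1 h1).resolve_left hρ.ne' }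
  refine ⟨R, rfl, ?_, ?_⟩
  · intro q q' hq hq'
    have h1 : R.P q - R.P q' - A (q - q') =
        ρ⁻¹ • (W2 (ρ • q) - W2 (ρ • q') - A (ρ • q - ρ • q')) := by
      show ρ⁻¹ • W2 (ρ • q) - ρ⁻¹ • W2 (ρ • q') - A (q - q') = _
      rw [← smul_sub ρ q q', map_smul, smul_sub, smul_sub, inv_smul_smul₀ hρ.ne']
    rw [h1, norm_smul, Real.norm_of_nonneg (inv_nonneg.2 hρ.le)]
    have h2 := hst (ρ • q) (ρ • q') (hsm q hq).2.2 (hsm q' hq').2.2
    rw [← smul_sub ρ q q', norm_smul, Real.norm_of_nonneg hρ.le] at h2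
    rw [← smul_sub ρ q q']
    calc ρ⁻¹ * ‖W2 (ρ • q) - W2 (ρ • q') - A (ρ • (q - q'))‖
        ≤ ρ⁻¹ * (ε * (ρ * ‖q - q'‖)) := by gcongr
      _ = ε * ‖q - q'‖ := by field_simp
  · intro q hq
    obtain ⟨hqU, hq1, hq2⟩ := hb q hq
    refine ⟨fderiv ℝ W2 (ρ • q), ?_, hq2.le, (W (0, ρ • q)).1, ?_, hflow q hq, ?_⟩
    · have h1 : HasFDerivAt W2 (fderiv ℝ W2 (ρ • q)) (ρ • q) :=
        ((hW2 _ hqU).differentiableAt (by norm_num)).hasFDerivAt
      have h2 : HasFDerivAt (fun q : Q2 => ρ • q) (ρ • ContinuousLinearMap.id ℝ Q2) q :=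
        (hasFDerivAt_id q).const_smul ρ
      have h3 : HasFDerivAt (fun q : Q2 => W2 (ρ • q))
        ((fderiv ℝ W2 (ρ • q)).comp (ρ • ContinuousLinearMap.id ℝ Q2)) q := h1.comp q h2
      have h4 := h3.const_smul ρ⁻¹
      have h5 : ρ⁻¹ • (fderiv ℝ W2 (ρ • q)).comp (ρ • ContinuousLinearMap.id ℝ Q2) =
          fderiv ℝ W2 (ρ • q) := by
        refine ContinuousLinearMap.ext fun v => ?_
        show ρ⁻¹ • (fderiv ℝ W2 (ρ • q)) (ρ • v) = _
        rw [map_smul, inv_smul_smul₀ hρ.ne']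
      rw [h5] at h4
      exact h4
    · rw [hδB']; exact hq1.le
    · intro ξ
      refine ⟨(fderiv ℝ W (0, ρ • q) (0, ρ • ξ)).1, ?_⟩
      have hs1 : ((0, ρ • q) : V3) ∈ B.e.source := by
        refine B.src 0 (ρ • q) (by simp [B.δ_pos.le]) (hsm1 q hq)
      have h1 := RT_rescale hB he' (z := (0, q)) hs1 (0, ξ)
      have hs2 : (((W (0, ρ • q)).1, ρ • (ρ⁻¹ • W2 (ρ • q))) : V3) ∈ B.e.source := by
        rw [hρi]
        exact hWs _ hqU
      have h2 := RT_rescale hB he' (z := ((W (0, ρ • q)).1, ρ⁻¹ • W2 (ρ • q))) hs2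
        ((fderiv ℝ W (0, ρ • q) (0, ρ • ξ)).1, fderiv ℝ W2 (ρ • q) ξ)
      have h3 := hWD _ hqU (0, ρ • ξ)
      have h4 : fderiv ℝ W (0, ρ • q) (0, ρ • ξ) =
          ((fderiv ℝ W (0, ρ • q) (0, ρ • ξ)).1, ρ • fderiv ℝ W2 (ρ • q) ξ) := by
        rw [← map_smul, hW2D _ hqU (ρ • ξ)]
      have h5 : (show E3 from D φ S (B'.e (0, q)) (DP B'.e (0, q) (0, ξ))) =
          (show E3 from D φ S (B.e (0, ρ • q)) (DP B.e (0, ρ • q) (0, ρ • ξ))) := by
        refine (RT_D_congr φ S (he' (0, q)) (DP B'.e (0, q) (0, ξ))).trans ?_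
        exact congrArg (fun v : E3 => (show E3 from D φ S (B.e (0, ρ • q)) v)) h1
      refine h5.trans (h3.symm.trans ?_)
      refine Eq.trans ?_ h2.symm
      rw [h4]
      exact RT_DP_congr B.e (by rw [hρi]) _

end VeniceMask
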