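import Pool.Agent.helper75.VM.M_CO2
import Pool.Agent.helper75.VM.M_MB2

/-!
# MP_509a24_an, module SP1: angle between `E` and `F`, the field is in `F`
-/

open Set Filter Topology Bundle
open scoped ContDiff Manifold

namespace VeniceMask

universe u

variable {M : Type u} [TopologicalSpace M] [ChartedSpace (EuclideanHalfSpace 3) M]
  [IsManifold (𝓡∂ 3) ∞ M] [CompactSpace M] [T2Space M]
  {g : Metric3 M} {X : ∀ x : M, TS x} {φ : ℝ → M → M} {E F : ∀ x : M, Submodule ℝ (TS x)}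
  (H : Hyp g X φ E F)

omit [CompactSpace M] [T2Space M] in
/-- limits of bounded sequences of tangent vectors over a compact set, along an ultrafilter -/
theorem SP1_limit (g : Metric3 M) {K : Set M} (hK : IsCompact K) {ι : Type*} (l : Ultrafilter ι)
    (x : ι → M) (v : ∀ i, TS (x i)) (hx : ∀ i, x i ∈ K) {C : ℝ} (hv : ∀ i, nrm g (x i) (v i) ≤ C) :
    ∃ (x₀ : M) (v₀ : TS x₀), x₀ ∈ K ∧
      Tendsto (fun i => (⟨x i, v i⟩ : TM M)) l (𝓝 (⟨x₀, v₀⟩ : TM M)) := by
  have hc := compact_ball g hK C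
  rw [isCompact_iff_ultrafilter_le_nhds] at hc
  obtain ⟨p, hp, hlim⟩ := hc (l.map (fun i => (⟨x i, v i⟩ : TM M))) (by
    rw [Ultrafilter.coe_map, le_principal_iff, mem_map]
    exact univ_mem' fun i => ⟨hx i, hv i⟩)
  exact ⟨p.1, p.2, hp.1, hlim⟩

include H

theorem finrank_F {x : M} (hx : x ∈ maxInv φ) :
    Module.finrank ℝ (E x) + Module.finrank ℝ (F x) = 3 := by
  have : FiniteDimensional ℝ (TS x) := inferInstanceAs (FiniteDimensional ℝ E3)
  have h := Submodule.finrank_add_eq_of_isCompl (H.split.compl x hx)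
  rw [h]
  exact finrank_euclideanSpace_fin (𝕜 := ℝ) (n := 3)

theorem SP1_angle_E : ∃ C > 0, ∀ x ∈ maxInv φ, ∀ e ∈ E x, ∀ f ∈ F x,
    nrm g x e ≤ C * nrm g x (e + f) := by
  by_contra hcon
  push Not at hcon
  have hcon' : ∀ n : ℕ, ∃ x ∈ maxInv φ, ∃ e ∈ E x, ∃ f ∈ F x,
      ((n : ℝ) + 1) * nrm g x (e + f) < nrm g x e := fun n => hcon (n + 1) (by positivity)
  choose x hx e he f hf hlt using hcon'
  have hpos : ∀ n, 0 < nrm g (x n) (e n) := fun n =>
    lt_of_le_of_lt (mul_nonneg (by positivity) (nrm_nonneg g _ _)) (hlt n)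
  set c : ℕ → ℝ := fun n => (nrm g (x n) (e n))⁻¹ with hc
  have hcpos : ∀ n, 0 < c n := fun n => inv_pos.2 (hpos n)
  have he1 : ∀ n, nrm g (x n) (c n • e n) = 1 := by
    intro n
    rw [nrm_smul, abs_of_pos (hcpos n)]
    exact inv_mul_cancel₀ (hpos n).ne'
  have hs1 : ∀ n, nrm g (x n) (c n • (e n + f n)) ≤ 1 / ((n : ℝ) + 1) := by
    intro n
    rw [nrm_smul, abs_of_pos (hcpos n), le_div_iff₀ (by positivity)]
    have h1 : c n * nrm g (x n) (e n) = 1 := inv_mul_cancel₀ (hpos n).ne'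
    nlinarith [mul_lt_mul_of_pos_left (hlt n) (hcpos n)]
  have hs2 : ∀ n, nrm g (x n) (c n • (e n + f n)) ≤ 1 := by
    intro n
    refine (hs1 n).trans ?_
    rw [div_le_one (by positivity)]
    have : (0 : ℝ) ≤ n := Nat.cast_nonneg n
    linarith
  have hΛ := maxInv_compact (φ := φ) H.flow
  obtain ⟨x₀, e₀, hx₀, hlime⟩ := SP1_limit g hΛ (hyperfilter ℕ) x (fun n => c n • e n) hx
    (fun n => (he1 n).le)
  obtain ⟨x₁, w, hx₁, hlimw⟩ := SP1_limit g hΛ (hyperfilter ℕ) x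
    (fun n => c n • (e n + f n)) hx hs2
  have hb0 := tendsto_base hlime
  have hb1 := tendsto_base hlimw
  have hxx : x₁ = x₀ := tendsto_nhds_unique hb1 hb0
  subst hxx
  -- `w = 0`
  have hw0 : nrm g x₁ w = 0 := by
    have h1 := tendsto_nrm g hlimw
    have h2 : Tendsto (fun n : ℕ => 1 / ((n : ℝ) + 1)) (hyperfilter ℕ : Filter ℕ) (𝓝 0) := by
      have h3 : Tendsto (fun n : ℕ => 1 / ((n : ℝ) + 1)) atTop (𝓝 0) :=
        tendsto_one_div_add_atTop_nhds_zero_nat
      exact h3.mono_left (by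
        rw [← Nat.cofinite_eq_atTop]; exact Filter.hyperfilter_le_cofinite)
    have h3 : Tendsto (fun n => nrm g (x n) (c n • (e n + f n))) (hyperfilter ℕ : Filter ℕ)
        (𝓝 0) := squeeze_zero (fun n => nrm_nonneg g _ _) hs1 h2
    exact tendsto_nhds_unique h1 h3
  have hw : w = 0 := (nrm_eq_zero g x₁ w).1 hw0
  subst hw
  -- the limit of the `f` part
  have hlimf : Tendsto (fun n => (⟨x n, c n • f n⟩ : TM M)) (hyperfilter ℕ : Filter ℕ)
      (𝓝 (⟨x₁, -e₀⟩ : TM M)) := by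
    have h1 := tendsto_smul (c := fun _ : ℕ => (-1 : ℝ)) (c₀ := -1) tendsto_const_nhds hlime
    have h2 := tendsto_add hlimw h1
    have h3 : (0 : TS x₁) + (-1 : ℝ) • e₀ = -e₀ := by simp
    rw [h3] at h2
    refine h2.congr fun n => ?_
    have h4 : c n • (e n + f n) + (-1 : ℝ) • (c n • e n) = c n • f n := by
      rw [smul_add, neg_one_smul]; abel
    rw [h4]
  have heE : e₀ ∈ E x₁ := by
    have := H.split.closedE.mem_of_tendsto hlime
      (Eventually.of_forall fun n => ⟨hx n, (E (x n)).smul_mem _ (he n)⟩)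
    exact this.2
  have hfF : -e₀ ∈ F x₁ := by
    have := H.split.closedF.mem_of_tendsto hlimf
      (Eventually.of_forall fun n => ⟨hx n, (F (x n)).smul_mem _ (hf n)⟩)
    exact this.2
  have heF : e₀ ∈ F x₁ := by
    have := (F x₁).neg_mem hfF
    rwa [neg_neg] at this
  have he0 : e₀ = 0 := by
    have := (H.split.compl x₁ hx₁).disjoint
    rw [Submodule.disjoint_def] at this
    exact this e₀ heE heF
  have h1 := tendsto_nrm g hlime
  have h2 : Tendsto (fun n => nrm g (x n) (c n • e n)) (hyperfilter ℕ : Filter ℕ) (𝓝 1) := by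
    simp_rw [he1]
    exact tendsto_const_nhds
  have h3 := tendsto_nhds_unique h1 h2
  rw [he0, (nrm_eq_zero g x₁ 0).2 rfl] at h3
  exact zero_ne_one h3

theorem angle : ∃ C > 0, ∀ x ∈ maxInv φ, ∀ e ∈ E x, ∀ f ∈ F x,
    nrm g x e ≤ C * nrm g x (e + f) ∧ nrm g x f ≤ C * nrm g x (e + f) := by
  obtain ⟨C, hC, h⟩ := SP1_angle_E H
  refine ⟨C + 1, by linarith, fun x hx e he f hf => ?_⟩
  have h1 := h x hx e he f hf
  have h0 := nrm_nonneg g x (e + f)
  constructor
  · nlinarith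
  · have h2 : f = (e + f) + (-1 : ℝ) • e := by rw [neg_one_smul]; abel
    have h3 := nrm_add_le g x (e + f) ((-1 : ℝ) • e)
    rw [← h2, nrm_smul] at h3
    simp only [abs_neg, abs_one, one_mul] at h3
    linarith

omit [T2Space M] in
theorem SP1_X_bounded : ∃ K : ℝ, ∀ x : M, nrm g x (X x) ≤ K := by
  have hc : Continuous (fun x => nrm g x (X x)) := by
    rw [continuous_iff_continuousAt]
    intro x
    exact tendsto_nrm g ((X_cont H.c1).tendsto x)
  obtain ⟨K, hK⟩ := (isCompact_univ (X := M)).bddAbove_image hc.continuousOn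
  exact ⟨K, fun x => hK ⟨x, mem_univ _, rfl⟩⟩

theorem SP1_preimage {x : M} (hx : x ∈ maxInv φ) {t : ℝ} (ht : 0 ≤ t) :
    ∃ y ∈ maxInv φ, φ t y = x := by
  refine ⟨G2 φ (-t) x, G2_mem H.c1 H.inward H.flow hx _, ?_⟩
  have h1 := G2_add H.c1 H.inward H.flow hx t (-t)
  rw [add_neg_cancel, G2_nonneg le_rfl, H.flow.zero, G2_nonneg ht] at h1
  exact h1.symm

theorem X_mem_F {x : M} (hx : x ∈ maxInv φ) : X x ∈ F x := by
  obtain ⟨C, hC, hang⟩ := angle H
  obtain ⟨K, hK⟩ := SP1_X_bounded H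
  obtain ⟨C₁, hC₁, l, hl, hcontr⟩ := H.contr
  -- decompose
  obtain ⟨e, he, f, hf, hef⟩ : ∃ e ∈ E x, ∃ f ∈ F x, e + f = X x := by
    have h1 : X x ∈ E x ⊔ F x := by rw [(H.split.compl x hx).sup_eq_top]; trivial
    obtain ⟨e, he, f, hf, h⟩ := Submodule.mem_sup.1 h1
    exact ⟨e, he, f, hf, h⟩
  have key : ∀ t : ℝ, 0 ≤ t → nrm g x e ≤ C₁ * Real.exp (-l * t) * (C * K) := by
    intro t ht
    obtain ⟨y, hy, hyx⟩ := SP1_preimage H hx ht
    subst hyx
    have hE := H.split.invE y hy t ht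
    have hF := H.split.invF y hy t ht
    rw [← hE] at he
    rw [← hF] at hf
    obtain ⟨e', he', hee'⟩ := he
    obtain ⟨f', hf', hff'⟩ := hf
    have hXy : X y = e' + f' := by
      apply (D_bijective H.c1 H.inward H.flow ht hy).1
      rw [D_X H.c1 H.inward H.flow ht, map_add]
      rw [← hef, ← hee', ← hff']
      rfl
    have h1 := hcontr y hy t ht e' he'
    have h2 := (hang y hy e' he' f' hf').1
    rw [← hXy] at h2
    have h3 : nrm g (φ t y) e = nrm g (φ t y) (D φ t y e') := by rw [← hee']; rfl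
    rw [h3]
    refine h1.trans ?_
    have h4 : nrm g y e' ≤ C * K := h2.trans (mul_le_mul_of_nonneg_left (hK y) hC.le)
    exact mul_le_mul_of_nonneg_left h4 (by positivity)
  have hlim : Tendsto (fun t : ℝ => C₁ * Real.exp (-l * t) * (C * K)) atTop (𝓝 0) := by
    have h1 : Tendsto (fun t : ℝ => Real.exp (-l * t)) atTop (𝓝 0) := by
      apply Real.tendsto_exp_atBot.comp
      exact tendsto_id.const_mul_atTop_of_neg (neg_neg_of_pos hl)
    have h2 := (h1.const_mul C₁).mul_const (C * K)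
    simpa using h2
  have hle : nrm g x e ≤ 0 := by
    apply ge_of_tendsto hlim
    filter_upwards [eventually_ge_atTop (0 : ℝ)] with t ht
    exact key t ht
  have he0 : e = 0 := (nrm_eq_zero g x e).1 (le_antisymm hle (nrm_nonneg g x e))
  rw [← hef, he0, zero_add]
  exact hf

end VeniceMask
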