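import Pool.Agent.helper75.VM.M_SP1

/-!
# MP_509a24_an, module SP2: the sets `Ld` are clopen in `M(X)`
-/

open Set Filter Topology Bundle
open scoped ContDiff Manifold

namespace VeniceMask

universe u

/-- orthonormal families for a positive definite symmetric form on a subspace -/
theorem SP2.exists_orthonormal {V : Type*} [AddCommGroup V] [Module ℝ V] [FiniteDimensional ℝ V]
    (B : V → V → ℝ) (hadd : ∀ u v w, B (u + v) w = B u w + B v w)
    (hsmul : ∀ (c : ℝ) u v, B (c • u) v = c * B u v)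
    (hsymm : ∀ u v, B u v = B v u) (hpos : ∀ v, v ≠ 0 → 0 < B v v)
    (W : Submodule ℝ V) (d : ℕ) (hd : d ≤ Module.finrank ℝ W) :
    ∃ v : Fin d → V, (∀ i, v i ∈ W) ∧ ∀ i j, B (v i) (v j) = if i = j then 1 else 0 := by
  induction d with
  | zero => exact ⟨fun i => i.elim0, fun i => i.elim0, fun i => i.elim0⟩
  | succ d ih =>
    obtain ⟨v, hvW, hv⟩ := ih (by omega)
    let L : W →ₗ[ℝ] (Fin d → ℝ) :=
      { toFun := fun w i => B w (v i)
        map_add' := fun a b => by funext i; exact hadd _ _ _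
        map_smul' := fun c a => by funext i; exact hsmul _ _ _ }
    have hker : LinearMap.ker L ≠ ⊥ := by
      apply LinearMap.ker_ne_bot_of_finrank_lt
      rw [Module.finrank_fin_fun]
      omega
    obtain ⟨w, hwk, hw0⟩ := Submodule.exists_mem_ne_zero_of_ne_bot hker
    have hw1 : ∀ i, B w (v i) = 0 := fun i => congrFun (LinearMap.mem_ker.1 hwk) i
    have hw2 : (w : V) ≠ 0 := fun h => hw0 (Subtype.ext h)
    have hp := hpos _ hw2
    set s : ℝ := (Real.sqrt (B w w))⁻¹ with hs
    have hs2 : s * (s * B w w) = 1 := by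
      have h1 : Real.sqrt (B w w) ≠ 0 := (Real.sqrt_pos.2 hp).ne'
      have h2 : B w w = Real.sqrt (B w w) * Real.sqrt (B w w) := (Real.mul_self_sqrt hp.le).symm
      rw [hs, h2]
      rw [Real.sqrt_mul_self (Real.sqrt_nonneg _)]
      field_simp
    have hsr : ∀ (c : ℝ) u v, B u (c • v) = c * B u v := fun c u v => by
      rw [hsymm, hsmul, hsymm]
    refine ⟨Fin.snoc v (s • (w : V)), fun i => ?_, fun i j => ?_⟩
    · refine Fin.lastCases ?_ (fun k => ?_) i
      · rw [Fin.snoc_last]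
        exact W.smul_mem _ w.2
      · rw [Fin.snoc_castSucc]
        exact hvW k
    · refine Fin.lastCases ?_ (fun k => ?_) i
      · refine Fin.lastCases ?_ (fun l => ?_) j
        · rw [Fin.snoc_last, hsmul, hsr, hs2, if_pos rfl]
        · rw [Fin.snoc_last, Fin.snoc_castSucc, hsmul, hw1, mul_zero,
            if_neg (Fin.castSucc_lt_last l).ne']
      · refine Fin.lastCases ?_ (fun l => ?_) j
        · rw [Fin.snoc_last, Fin.snoc_castSucc, hsr, hsymm, hw1, mul_zero,
            if_neg (Fin.castSucc_lt_last k).ne]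
        · rw [Fin.snoc_castSucc, Fin.snoc_castSucc, hv]
          simp

/-- orthonormal families are linearly independent -/
theorem SP2.le_finrank {V : Type*} [AddCommGroup V] [Module ℝ V] [FiniteDimensional ℝ V]
    (B : V → V → ℝ) (hadd : ∀ u v w, B (u + v) w = B u w + B v w)
    (hsmul : ∀ (c : ℝ) u v, B (c • u) v = c * B u v)
    (W : Submodule ℝ V) (d : ℕ) (v : Fin d → V) (hvW : ∀ i, v i ∈ W)
    (hv : ∀ i j, B (v i) (v j) = if i = j then 1 else 0) : d ≤ Module.finrank ℝ W := by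
  have hsum : ∀ (s : Finset (Fin d)) (c : Fin d → ℝ) (w : V),
      B (∑ i ∈ s, c i • v i) w = ∑ i ∈ s, c i * B (v i) w := by
    intro s c w
    induction s using Finset.induction_on with
    | empty =>
      have := hsmul 0 0 w
      simpa using this
    | insert a s ha ih => rw [Finset.sum_insert ha, Finset.sum_insert ha, hadd, hsmul, ih]
  have hli : LinearIndependent ℝ (fun i => (⟨v i, hvW i⟩ : W)) := by
    rw [Fintype.linearIndependent_iff]
    intro c hc j
    have h1 : ∑ i, c i • v i = 0 := by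
      have := congrArg (fun x : W => (x : V)) hc
      simpa using this
    have h2 := hsum Finset.univ c (v j)
    rw [h1] at h2
    simp only [hv] at h2
    have h3 : B 0 (v j) = 0 := by
      have := hsmul 0 0 (v j)
      simpa using this
    rw [h3] at h2
    simpa using h2.symm
  have := hli.fintype_card_le_finrank
  simpa using this

variable {M : Type u} [TopologicalSpace M] [ChartedSpace (EuclideanHalfSpace 3) M]
  [IsManifold (𝓡∂ 3) ∞ M] [CompactSpace M] [T2Space M]
  {g : Metric3 M} {X : ∀ x : M, TS x} {φ : ℝ → M → M} {E F : ∀ x : M, Submodule ℝ (TS x)}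

omit [IsManifold (𝓡∂ 3) ∞ M] [CompactSpace M] [T2Space M] in
theorem SP2.fd (x : M) : FiniteDimensional ℝ (TS x) :=
  inferInstanceAs (FiniteDimensional ℝ E3)

/-- semicontinuity of the dimension of a closed subbundle -/
theorem SP2.semicont (g : Metric3 M) {Λ : Set M} (hΛ : IsCompact Λ)
    {E : ∀ x : M, Submodule ℝ (TS x)}
    (hE : IsClosed {p : TangentBundle (𝓡∂ 3) M | p.1 ∈ Λ ∧ p.2 ∈ E p.1}) (d : ℕ) :
    IsClosed {x | x ∈ Λ ∧ d ≤ Module.finrank ℝ (E x)} := by
  classical
  rw [isClosed_iff_ultrafilter]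
  intro x 𝒰 h𝒰 hA
  have hxΛ : x ∈ Λ := hΛ.isClosed.mem_of_tendsto (f := id) (b := (𝒰 : Filter M)) h𝒰
    (by filter_upwards [hA] with y hy using hy.1)
  have hex : ∀ y, y ∈ {x | x ∈ Λ ∧ d ≤ Module.finrank ℝ (E x)} →
      ∃ v : Fin d → TS y, (∀ i, v i ∈ E y) ∧
        ∀ i j, g.inner y (v i) (v j) = if i = j then 1 else 0 := by
    intro y hy
    have := SP2.fd y
    exact SP2.exists_orthonormal (fun u v => g.inner y u v) (fun u v w => by simp)
      (fun c u v => by simp) (fun u v => g.symm y u v) (fun v hv => g.pos y v hv) (E y) d hy.2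
  choose! v hvE hv using hex
  have hcomp := compact_ball g hΛ 1
  have hlim : ∀ i : Fin d, ∃ w : TS x, Tendsto (fun y => (⟨y, v y i⟩ : TM M)) (𝒰 : Filter M)
      (𝓝 (⟨x, w⟩ : TM M)) := by
    intro i
    have h1 : ∀ᶠ y in (𝒰 : Filter M), (⟨y, v y i⟩ : TM M) ∈
        {p : TM M | p.1 ∈ Λ ∧ nrm g p.1 p.2 ≤ 1} := by
      filter_upwards [hA] with y hy
      refine ⟨hy.1, ?_⟩
      show nrm g y (v y i) ≤ 1
      unfold nrm
      rw [hv y hy i i, if_pos rfl, Real.sqrt_one]
    obtain ⟨p, hp, hp2⟩ := hcomp.ultrafilter_le_nhds (𝒰.map (fun y => (⟨y, v y i⟩ : TM M)))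
      (le_principal_iff.2 h1)
    obtain ⟨b, w⟩ := p
    have h2 : Tendsto (fun y => (⟨y, v y i⟩ : TM M)) (𝒰 : Filter M) (𝓝 (⟨b, w⟩ : TM M)) := hp2
    have h3 : Tendsto (fun y : M => y) (𝒰 : Filter M) (𝓝 b) := tendsto_base h2
    have h4 : b = x := tendsto_nhds_unique h3 h𝒰
    subst h4
    exact ⟨w, h2⟩
  choose w hw using hlim
  refine ⟨hxΛ, ?_⟩
  have := SP2.fd x
  refine SP2.le_finrank (fun u v => g.inner x u v) (fun u v w => by simp) (fun c u v => by simp)
    (E x) d w (fun i => ?_) (fun i j => ?_)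
  · exact (hE.mem_of_tendsto (hw i) (by
      filter_upwards [hA] with y hy
      exact ⟨hy.1, hvE y hy i⟩)).2
  · have h1 := tendsto_inner g (hw i) (hw j)
    refine tendsto_nhds_unique h1 ?_
    refine tendsto_const_nhds.congr' ?_
    filter_upwards [hA] with y hy
    rw [hv y hy i j]

variable (H : Hyp g X φ E F)

include H

theorem Ld_compact (d : ℕ) : IsCompact (Ld φ E d) := by
  have hc := maxInv_compact (φ := φ) H.flow
  by_cases hd : d ≤ 3
  · have h1 := SP2.semicont g hc H.split.closedE d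
    have h2 := SP2.semicont g hc H.split.closedF (3 - d)
    have h3 : Ld φ E d = maxInv φ ∩ ({x | x ∈ maxInv φ ∧ d ≤ Module.finrank ℝ (E x)} ∩
        {x | x ∈ maxInv φ ∧ 3 - d ≤ Module.finrank ℝ (F x)}) := by
      ext x
      constructor
      · rintro ⟨hx, hx2⟩
        have := finrank_F H hx
        exact ⟨hx, ⟨hx, by omega⟩, ⟨hx, by omega⟩⟩
      · rintro ⟨hx, ⟨-, h4⟩, ⟨-, h5⟩⟩
        have := finrank_F H hx
        exact ⟨hx, by omega⟩
    rw [h3]
    exact hc.inter_right (h1.inter h2)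
  · have h3 : Ld φ E d = ∅ := by
      ext x
      simp only [mem_empty_iff_false, iff_false]
      rintro ⟨hx, hx2⟩
      have := finrank_F H hx
      omega
    rw [h3]
    exact isCompact_empty

theorem Ld_open (d : ℕ) : ∃ N, IsOpen N ∧ Ld φ E d = maxInv φ ∩ N := by
  refine ⟨(⋃ k ∈ (Finset.range 4).erase d, Ld φ E k)ᶜ, ?_, ?_⟩
  · rw [isOpen_compl_iff]
    exact isClosed_biUnion_finset fun k _ => (Ld_compact H k).isClosed
  · ext x
    constructor
    · rintro ⟨hx, hx2⟩
      refine ⟨hx, ?_⟩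
      simp only [mem_compl_iff, mem_iUnion, not_exists]
      rintro k hk ⟨-, h4⟩
      exact (Finset.mem_erase.1 hk).1 (h4.symm.trans hx2)
    · rintro ⟨hx, hx2⟩
      refine ⟨hx, ?_⟩
      by_contra hne
      apply hx2
      have := finrank_F H hx
      simp only [mem_iUnion]
      exact ⟨Module.finrank ℝ (E x), Finset.mem_erase.2 ⟨hne, Finset.mem_range.2 (by omega)⟩,
        hx, rfl⟩

theorem SP2.finrank_E {x : M} (hx : x ∈ maxInv φ) {t : ℝ} (ht : 0 ≤ t) :
    Module.finrank ℝ (E (φ t x)) = Module.finrank ℝ (E x) := by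
  rw [← H.split.invE x hx t ht]
  exact (LinearEquiv.finrank_eq (Submodule.equivMapOfInjective _
    (D_bijective H.c1 H.inward H.flow ht hx).1 (E x))).symm

theorem Ld_inv (d : ℕ) {x : M} (hx : x ∈ Ld φ E d) (t : ℝ) : G2 φ t x ∈ Ld φ E d := by
  obtain ⟨hx1, hx2⟩ := hx
  have hm := G2_mem H.c1 H.inward H.flow hx1 t
  refine ⟨hm, ?_⟩
  rcases le_total 0 t with ht | ht
  · rw [G2_nonneg ht, SP2.finrank_E H hx1 ht, hx2]
  · have h1 := G2_add H.c1 H.inward H.flow hx1 (-t) t
    rw [neg_add_cancel, G2_nonneg le_rfl, H.flow.zero, G2_nonneg (neg_nonneg.2 ht)] at h1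
    rw [← hx2, ← SP2.finrank_E H hm (neg_nonneg.2 ht), ← h1]

end VeniceMask
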