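import Pool.Agent.helper75.VM.M_AF
import Pool.Agent.helper75.VM.M_B0

/-!
# MP_509a24_an, module TV: every homoclinic point is transverse
-/

open Set Filter Topology Bundle
open scoped ContDiff Manifold

namespace VeniceMask

universe u

/-- the sequence lemma: the component along the field stays bounded -/
theorem TV_seq {V : Type*} [AddCommGroup V] [Module ℝ V] (N : ℕ → V → ℝ)
    (hadd : ∀ n u w, N n (u + w) ≤ N n u + N n w) (hsmul : ∀ n (c : ℝ) u, N n (c • u) = |c| * N n u)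
    (L : ℕ → V →ₗ[ℝ] V) (Y v w : ℕ → V) (a : ℕ → ℝ) (hv : ∀ n, v n = w n + a n • Y n)
    (hLv : ∀ n, L n (v (n + 1)) = v n) (hLY : ∀ n, L n (Y (n + 1)) = Y n)
    {B c C₂ K r : ℝ} (hB0 : 0 ≤ B) (hB : ∀ n u, N n (L n u) ≤ B * N (n + 1) u) (hc : 0 < c)
    (hY : ∀ n, c ≤ N n (Y n)) (hY2 : ∀ n, N n (Y n) ≤ C₂) (hK : 0 ≤ K) (hr0 : 0 ≤ r) (hr : r < 1)
    (hw : ∀ n, N n (w n) ≤ K * r ^ n) : ∃ C, ∀ n, N n (v n) ≤ C := by
  set K' := K * (1 + B) / c with hK'
  have hK'0 : 0 ≤ K' := by positivity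
  have hstep : ∀ n, |a (n + 1) - a n| ≤ K' * r ^ n := by
    intro n
    have h1 : (a (n + 1) - a n) • Y n = w n + (-1 : ℝ) • L n (w (n + 1)) := by
      have h2 := hLv n
      rw [hv (n + 1), map_add, map_smul, hLY, hv n] at h2
      have h3 : a (n + 1) • Y n = w n + a n • Y n - L n (w (n + 1)) := by
        rw [← h2]; abel
      rw [sub_smul, h3, neg_one_smul]; abel
    have h4 : |a (n + 1) - a n| * N n (Y n) ≤ K * r ^ n + B * (K * r ^ (n + 1)) := by
      rw [← hsmul, h1]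
      refine (hadd n _ _).trans ?_
      rw [hsmul, abs_neg, abs_one, one_mul]
      exact add_le_add (hw n) ((hB n _).trans (mul_le_mul_of_nonneg_left (hw _) hB0))
    have h5 : |a (n + 1) - a n| * c ≤ K * (1 + B) * r ^ n := by
      refine (mul_le_mul_of_nonneg_left (hY n) (abs_nonneg _)).trans (h4.trans ?_)
      have h6 : r ^ (n + 1) ≤ r ^ n := pow_le_pow_of_le_one hr0 hr.le (Nat.le_succ n)
      nlinarith [mul_le_mul_of_nonneg_left h6 (mul_nonneg hB0 hK)]
    rw [hK', div_mul_eq_mul_div, le_div_iff₀ hc]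
    linarith
  have hsum : ∀ n, |a n - a 0| ≤ K' / (1 - r) := by
    intro n
    have h1 : ∀ n, |a n - a 0| ≤ ∑ k ∈ Finset.range n, K' * r ^ k := by
      intro n
      induction n with
      | zero => simp
      | succ n ih =>
        rw [Finset.sum_range_succ]
        have : a (n + 1) - a 0 = (a n - a 0) + (a (n + 1) - a n) := by ring
        rw [this]
        exact (abs_add_le _ _).trans (add_le_add ih (hstep n))
    refine (h1 n).trans ?_
    rw [← Finset.mul_sum, div_eq_mul_inv]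
    refine mul_le_mul_of_nonneg_left ?_ hK'0
    rw [← tsum_geometric_of_lt_one hr0 hr]
    exact (summable_geometric_of_lt_one hr0 hr).sum_le_tsum _ fun _ _ => pow_nonneg hr0 _
  refine ⟨K + (|a 0| + K' / (1 - r)) * C₂, fun n => ?_⟩
  rw [hv n]
  refine (hadd n _ _).trans (add_le_add ((hw n).trans ?_) ?_)
  · exact mul_le_of_le_one_right hK (pow_le_one₀ hr0 hr.le)
  · rw [hsmul]
    have h1 : |a n| ≤ |a 0| + K' / (1 - r) := by
      have h2 : a n = a 0 + (a n - a 0) := by ring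
      rw [h2]
      exact (abs_add_le _ _).trans (add_le_add le_rfl (hsum n))
    have h2 : 0 ≤ N n (Y n) := hc.le.trans (hY n)
    exact mul_le_mul h1 (hY2 n) h2 ((abs_nonneg _).trans h1)

variable {M : Type u} [TopologicalSpace M] [ChartedSpace (EuclideanHalfSpace 3) M]
  [IsManifold (𝓡∂ 3) ∞ M] [CompactSpace M] [T2Space M]
  {g : Metric3 M} {X : ∀ x : M, TS x} {φ : ℝ → M → M} {E F : ∀ x : M, Submodule ℝ (TS x)}

omit [CompactSpace M] [T2Space M] in
theorem TV_nrm_congr (g : Metric3 M) {x y : M} (h : x = y) (w : E3) :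
    nrm g x w = nrm g y w := by subst h; rfl

omit [CompactSpace M] [T2Space M] in
theorem TV_area_congr (g : Metric3 M) {x y : M} (h : x = y) (u w : E3) :
    area g x u w = area g y u w := by subst h; rfl

omit [IsManifold (𝓡∂ 3) ∞ M] [CompactSpace M] [T2Space M] in
theorem TV_mk_eq {x y : M} (h : x = y) {u w : E3} (h' : u = w) :
    (⟨x, u⟩ : TM M) = ⟨y, w⟩ := by subst h; subst h'; rfl

/-- the derivative of the semiflow is uniformly bounded for bounded times -/
theorem TV_bound (g : Metric3 M) (h3 : IsFlowOf X φ) (S : ℝ) : ∃ B, 0 ≤ B ∧ ∀ s ∈ Icc (0 : ℝ) S,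
    ∀ (x : M) (v : TS x), nrm g (φ s x) (D φ s x v) ≤ B * nrm g x v := by
  have hnc : Continuous fun p : TM M => nrm g p.1 p.2 := by
    rw [continuous_iff_continuousAt]
    intro p
    have h := tendsto_nrm g (l := 𝓝 p) (b := fun i : TM M => i.1) (v := fun i => i.2)
      (x := p.1) (v₀ := p.2) tendsto_id
    exact h
  have hK := compact_ball g (K := (univ : Set M)) isCompact_univ 1
  have hcont : ContinuousOn (fun p : ℝ × TM M => nrm g (φ p.1 p.2.1) (D φ p.1 p.2.1 p.2.2))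
      (Icc (0 : ℝ) S ×ˢ {p : TM M | p.1 ∈ (univ : Set M) ∧ nrm g p.1 p.2 ≤ 1}) :=
    (hnc.comp_continuousOn (D_cont h3)).mono (prod_mono Icc_subset_Ici_self (subset_univ _))
  obtain ⟨B, hB⟩ := (isCompact_Icc.prod hK).bddAbove_image hcont
  refine ⟨max B 0, le_max_right _ _, fun s hs x v => ?_⟩
  rcases (nrm_nonneg g x v).eq_or_lt with h0 | h0
  · have hv : v = 0 := (nrm_eq_zero g x v).1 h0.symm
    rw [hv, map_zero]
    have : nrm g (φ s x) (0 : TS (φ s x)) = 0 := (nrm_eq_zero g _ _).2 rfl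
    rw [this]
    exact mul_nonneg (le_max_right _ _) (nrm_nonneg g _ _)
  · have h1 : nrm g x ((nrm g x v)⁻¹ • v) = 1 := by
      rw [nrm_smul, abs_of_pos (inv_pos.2 h0), inv_mul_cancel₀ h0.ne']
    have h2 : nrm g (φ s x) (D φ s x ((nrm g x v)⁻¹ • v)) ≤ B :=
      hB ⟨(s, (⟨x, (nrm g x v)⁻¹ • v⟩ : TM M)), ⟨hs, mem_univ _, h1.le⟩, rfl⟩
    rw [map_smul, nrm_smul, abs_of_pos (inv_pos.2 h0), inv_mul_le_iff₀ h0] at h2
    rw [mul_comm]
    exact h2.trans (mul_le_mul_of_nonneg_left (le_max_left _ _) h0.le)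

/-- lower bound for the field near a periodic orbit -/
theorem TV_field (H : Hyp g X φ E F) {O : Set M} {p : M} {T : ℝ}
    (hO : IsPeriodicOrbitOf X φ O p T) : ∃ c > 0, ∃ U, IsOpen U ∧ O ⊆ U ∧
      ∀ x ∈ U, c ≤ nrm g x (X x) := by
  have hXc : Continuous fun x : M => nrm g x (X x) := by
    rw [continuous_iff_continuousAt]
    intro x
    exact tendsto_nrm g (l := 𝓝 x) (b := fun i : M => i) (v := fun i => X i)
      ((X_cont H.c1).tendsto x)
  have hp : p ∈ maxInv φ := periodic_mem H.flow hO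
  have hper : (aflow H (Module.finrank ℝ (E p))).IsPer O p T :=
    aflow_IsPer H _ hO ⟨hp, rfl⟩
  have hne : p ∈ O := hper.mem_self
  obtain ⟨x₀, hx₀, hmin⟩ := hper.compact.exists_isMinOn ⟨p, hne⟩ hXc.continuousOn
  have hpos : 0 < nrm g x₀ (X x₀) := by
    refine (nrm_nonneg g _ _).lt_of_ne fun h => ?_
    have hX0 : X x₀ = 0 := (nrm_eq_zero g _ _).1 h.symm
    have hx₀' := hx₀
    rw [hO.2.2.2] at hx₀'
    obtain ⟨t, ht, hx⟩ := hx₀'
    subst hx
    have h1 : D φ t p (X p) = 0 := by rw [D_X H.c1 H.inward H.flow ht]; exact hX0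
    have h2 : X p = 0 := (D_bijective H.c1 H.inward H.flow ht hp).1 (by rw [h1, map_zero])
    exact hO.2.2.1 h2
  refine ⟨nrm g x₀ (X x₀) / 2, by positivity, {x | nrm g x₀ (X x₀) / 2 < nrm g x (X x)},
    isOpen_lt continuous_const hXc, fun x hx => ?_, fun x hx => le_of_lt hx⟩
  have := hmin hx
  show nrm g x₀ (X x₀) / 2 < nrm g x (X x)
  have h : nrm g x₀ (X x₀) ≤ nrm g x (X x) := this
  linarith

theorem TV_unst (H : Hyp g X φ E F) {O : Set M} {p : M} {T : ℝ}
    (hO : IsPeriodicOrbitOf X φ O p T) {γ : ℝ → M}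
    (hγ : ∀ s t, 0 ≤ t → φ t (γ s) = γ (s + t))
    (hγU : ∀ U, IsOpen U → O ⊆ U → ∀ᶠ t in atTop, γ (-t) ∈ U) {f : TS (γ 0)}
    (hf : f ∈ F (γ 0)) : f ∈ unstableDir g φ (γ 0) := by
  have hγL : ∀ s, γ s ∈ maxInv φ := fun s => mem_maxInv fun t ht =>
    ⟨γ (s - t), by rw [hγ _ _ ht]; congr 1; ring⟩
  -- non dependent versions
  set x : ℕ → M := fun n => γ (-(n : ℝ)) with hx
  have hxL : ∀ n, x n ∈ maxInv φ := fun n => hγL _
  have hx1 : ∀ n, φ 1 (x (n + 1)) = x n := fun n => by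
    simp only [hx]
    rw [hγ _ _ zero_le_one]; congr 1; push_cast; ring
  let Fs : M → Submodule ℝ E3 := fun y => F y
  let Df : ℝ → M → E3 →L[ℝ] E3 := fun t y => D φ t y
  let Xf : M → E3 := fun y => X y
  have hstep : ∀ (n : ℕ) (u : E3), u ∈ Fs (x n) → ∃ w : E3, w ∈ Fs (x (n + 1)) ∧
      Df 1 (x (n + 1)) w = u := by
    intro n u hu
    have h1 := H.split.invF (x (n + 1)) (hxL _) 1 zero_le_one
    have h2 : u ∈ Fs (φ 1 (x (n + 1))) := by rw [hx1]; exact hu
    have h3 : (show TS (φ 1 (x (n + 1))) from u) ∈ F (φ 1 (x (n + 1))) := h2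
    rw [← h1] at h3
    obtain ⟨w, hw, hw'⟩ := h3
    exact ⟨w, hw, hw'⟩
  have hx0 : γ 0 = x 0 := by simp [hx]
  have hf0 : (show E3 from f) ∈ Fs (x 0) := by rw [← hx0]; exact hf
  let V : (n : ℕ) → {u : E3 // u ∈ Fs (x n)} := fun n => Nat.rec ⟨(show E3 from f), hf0⟩
    (fun n u => ⟨(hstep n u.1 u.2).choose, (hstep n u.1 u.2).choose_spec.1⟩) n
  set v : ℕ → E3 := fun n => (V n).1 with hv
  have hvF : ∀ n, v n ∈ Fs (x n) := fun n => (V n).2
  have hv1 : ∀ n, Df 1 (x (n + 1)) (v (n + 1)) = v n := fun n =>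
    (hstep n (V n).1 (V n).2).choose_spec.2
  have hv0 : v 0 = (show E3 from f) := rfl
  -- the time n maps
  have hxn : ∀ n : ℕ, φ n (x n) = γ 0 := fun n => by
    simp only [hx]; rw [hγ _ _ (Nat.cast_nonneg n)]; congr 1; ring
  have hvn : ∀ n : ℕ, Df n (x n) (v n) = (show E3 from f) := by
    intro n
    induction n with
    | zero =>
      rw [Nat.cast_zero]
      exact D_zero H.flow (x 0) (v 0)
    | succ n ih =>
      have h1 := D_add H.flow (Nat.cast_nonneg n) zero_le_one (x (n + 1)) (v (n + 1))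
      have h2 : Df ((n : ℝ) + 1) (x (n + 1)) (v (n + 1))
          = Df n (φ 1 (x (n + 1))) (Df 1 (x (n + 1)) (v (n + 1))) := h1
      rw [hx1, hv1] at h2
      push_cast
      rw [h2, ih]
  have hXn : ∀ n : ℕ, Df n (x n) (Xf (x n)) = Xf (γ 0) := by
    intro n
    have h1 := D_X H.c1 H.inward H.flow (Nat.cast_nonneg n) (x n)
    have h2 : Df n (x n) (Xf (x n)) = Xf (φ n (x n)) := h1
    rw [h2, hxn]
  -- area
  obtain ⟨K, hK, l, hl, hsect⟩ := H.sect
  have hXF : ∀ y ∈ maxInv φ, X y ∈ F y := fun y hy => X_mem_F H hy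
  set A : ℝ := area g (γ 0) (X (γ 0)) f with hA
  have harea : ∀ n : ℕ, area g (x n) (Xf (x n)) (v n) ≤ K * A * Real.exp (-l * n) := by
    intro n
    have h1 := hsect (x n) (hxL n) n (Nat.cast_nonneg n) (X (x n)) (hXF _ (hxL n)) (v n) (hvF n)
    have h2 : area g (φ n (x n)) (D φ n (x n) (X (x n))) (D φ n (x n) (v n)) = A := by
      have h3 : area g (φ n (x n)) (D φ n (x n) (X (x n))) (D φ n (x n) (v n))
          = area g (φ n (x n)) (Df n (x n) (Xf (x n))) (Df n (x n) (v n)) := rfl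
      rw [h3, hXn, hvn, TV_area_congr g (hxn n)]
    rw [h2] at h1
    have h4 : area g (x n) (Xf (x n)) (v n) = area g (x n) (X (x n)) (v n) := rfl
    rw [h4]
    have h5 : Real.exp (l * n) * Real.exp (-l * n) = 1 := by
      rw [← Real.exp_add]; simp
    have h6 := mul_le_mul_of_nonneg_right h1 (mul_nonneg hK.le (Real.exp_pos (-l * n)).le)
    have h7 : K⁻¹ * Real.exp (l * n) * area g (x n) (X (x n)) (v n) * (K * Real.exp (-l * n))
        = area g (x n) (X (x n)) (v n) := by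
      have : K⁻¹ * K = 1 := inv_mul_cancel₀ hK.ne'
      calc _ = (K⁻¹ * K) * (Real.exp (l * n) * Real.exp (-l * n)) *
            area g (x n) (X (x n)) (v n) := by ring
        _ = _ := by rw [this, h5]; ring
    rw [h7] at h6
    linarith
  -- lower bound of the field
  obtain ⟨c, hc, U, hU, hOU, hcU⟩ := TV_field H hO
  obtain ⟨t₀, ht₀⟩ := eventually_atTop.1 (hγU U hU hOU)
  set n₀ := ⌈t₀⌉₊ with hn₀
  have hcn : ∀ n, n₀ ≤ n → c ≤ nrm g (x n) (Xf (x n)) := fun n hn =>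
    hcU _ (ht₀ _ ((Nat.le_ceil t₀).trans (by exact_mod_cast hn)))
  -- upper bound of the field
  have hXc : Continuous fun x : M => nrm g x (X x) := by
    rw [continuous_iff_continuousAt]
    intro x
    exact tendsto_nrm g (l := 𝓝 x) (b := fun i : M => i) (v := fun i => X i)
      ((X_cont H.c1).tendsto x)
  obtain ⟨C₂, hC₂⟩ := isCompact_univ.bddAbove_image hXc.continuousOn
  have hC₂' : ∀ y, nrm g y (X y) ≤ C₂ := fun y => hC₂ ⟨y, mem_univ _, rfl⟩
  obtain ⟨B, hB0, hB⟩ := TV_bound g H.flow (n₀ + 1 : ℝ)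
  -- decomposition
  have hcpos : ∀ n, n₀ ≤ n → 0 < nrm g (x n) (Xf (x n)) := fun n hn => hc.trans_le (hcn n hn)
  have hdec : ∀ n, n₀ ≤ n → ∃ (a : ℝ) (w : E3), v n = w + a • Xf (x n) ∧
      nrm g (x n) w ≤ K * A / c * Real.exp (-l * n) := by
    intro n hn
    set a : ℝ := g.inner (x n) (Xf (x n)) (v n) / g.inner (x n) (Xf (x n)) (Xf (x n)) with ha
    have hp := hcpos n hn
    have hXX : g.inner (x n) (Xf (x n)) (Xf (x n)) = nrm g (x n) (Xf (x n)) ^ 2 :=
      (nrm_sq g _ _).symm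
    have hXX0 : g.inner (x n) (Xf (x n)) (Xf (x n)) ≠ 0 := by rw [hXX]; positivity
    refine ⟨a, v n - a • Xf (x n), by abel, ?_⟩
    have horth : g.inner (x n) (Xf (x n)) ((show TS (x n) from v n) - a • X (x n)) = 0 := by
      rw [map_sub, map_smul, smul_eq_mul, ha, div_mul_cancel₀ _ hXX0]
      exact sub_self _
    have h1 := area_of_inner_zero g (x n) (Xf (x n)) ((show TS (x n) from v n) - a • X (x n)) horth
    have h2 : area g (x n) (Xf (x n)) ((show TS (x n) from v n) - a • X (x n))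
        = area g (x n) (Xf (x n)) (v n) := by
      have := area_add_smul g (x n) (Xf (x n)) (v n) (-a)
      rw [neg_smul, ← sub_eq_add_neg] at this
      exact this
    have h3 : nrm g (x n) (Xf (x n)) * nrm g (x n) (v n - a • Xf (x n))
        ≤ K * A * Real.exp (-l * n) := by
      rw [show nrm g (x n) (v n - a • Xf (x n)) =
        nrm g (x n) ((show TS (x n) from v n) - a • X (x n)) from rfl, ← h1, h2]
      exact harea n
    rw [div_mul_eq_mul_div, le_div_iff₀ hc, mul_comm]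
    refine (mul_le_mul_of_nonneg_right (hcn n hn) (nrm_nonneg g _ _)).trans h3
  choose! a w hvaw hw using hdec
  have hA0 : 0 ≤ A := area_nonneg g _ _ _
  have hseq := TV_seq (V := E3) (fun n u => nrm g (x (n + n₀)) u)
    (fun n u w => nrm_add_le g _ u w) (fun n c u => nrm_smul g _ c u)
    (fun n => (Df 1 (x (n + 1 + n₀))).toLinearMap) (fun n => Xf (x (n + n₀)))
    (fun n => v (n + n₀)) (fun n => w (n + n₀)) (fun n => a (n + n₀))
    (fun n => hvaw _ (Nat.le_add_left _ _))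
    (fun n => by
      have := hv1 (n + n₀)
      rw [show n + n₀ + 1 = n + 1 + n₀ by ring] at this
      exact this)
    (fun n => by
      have h1 : Df 1 (x (n + 1 + n₀)) (Xf (x (n + 1 + n₀))) = Xf (φ 1 (x (n + 1 + n₀))) :=
        D_X H.c1 H.inward H.flow zero_le_one _
      rw [show n + 1 + n₀ = n + n₀ + 1 by ring, hx1] at h1
      rw [show n + 1 + n₀ = n + n₀ + 1 by ring]
      exact h1)
    hB0
    (fun n u => by
      have h1 := hB 1 ⟨zero_le_one, by linarith [Nat.cast_nonneg (α := ℝ) n₀]⟩ (x (n + 1 + n₀)) u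
      have h2 : φ 1 (x (n + 1 + n₀)) = x (n + n₀) := by
        rw [show n + 1 + n₀ = n + n₀ + 1 by ring]; exact hx1 _
      have h3 : nrm g (φ 1 (x (n + 1 + n₀))) (Df 1 (x (n + 1 + n₀)) u) ≤
        B * nrm g (x (n + 1 + n₀)) u := h1
      rw [TV_nrm_congr g h2] at h3
      exact h3)
    hc (fun n => hcn _ (Nat.le_add_left _ _)) (fun n => hC₂' _)
    (K := K * A / c) (by positivity) (r := Real.exp (-l)) (Real.exp_pos _).le
    (by rw [Real.exp_lt_one_iff]; linarith)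
    (fun n => by
      refine (hw _ (Nat.le_add_left _ _)).trans ?_
      refine mul_le_mul_of_nonneg_left ?_ (by positivity)
      rw [← Real.exp_nat_mul]
      apply Real.exp_le_exp.2
      push_cast
      nlinarith [Nat.cast_nonneg (α := ℝ) n₀])
  obtain ⟨C, hC⟩ := hseq
  refine ⟨B * C, fun t ht => ?_⟩
  set n : ℕ := ⌈t⌉₊ with hn
  have hnt : t ≤ n := Nat.le_ceil t
  have hnt1 : (n : ℝ) < t + 1 := Nat.ceil_lt_add_one ht
  set s : ℝ := ((n + n₀ : ℕ) : ℝ) - t with hs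
  have hs0 : 0 ≤ s := by rw [hs]; push_cast; linarith [Nat.cast_nonneg (α := ℝ) n₀]
  have hs1 : s ≤ n₀ + 1 := by rw [hs]; push_cast; linarith
  have hts : t + s = ((n + n₀ : ℕ) : ℝ) := by rw [hs]; ring
  refine ⟨(⟨φ s (x (n + n₀)), D φ s (x (n + n₀)) (v (n + n₀))⟩ : TM M), ?_, ?_⟩
  · refine TV_mk_eq ?_ ?_
    · show φ t (φ s (x (n + n₀))) = γ 0
      rw [← H.flow.add t s ht hs0, hts]
      exact hxn _
    · have h1 := D_add H.flow ht hs0 (x (n + n₀)) (v (n + n₀))
      rw [hts] at h1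
      exact h1.symm.trans (hvn _)
  · refine (hB s ⟨hs0, hs1⟩ _ _).trans (mul_le_mul_of_nonneg_left (hC n) hB0)

theorem trans_of_homoclinic (H : Hyp g X φ E F) {O : Set M} {p : M} {T : ℝ}
    (hO : IsPeriodicOrbitOf X φ O p T) {q : M} (h1 : q ∈ stableSet φ O)
    (h2 : q ∈ unstableSet φ O) (v : TS q) :
    ∃ a ∈ stableDir g φ q, ∃ b ∈ unstableDir g φ q, a + b = v := by
  obtain ⟨γ, hγ0, hγ, hγU⟩ := h2
  subst hγ0
  have hq : γ 0 ∈ maxInv φ := mem_maxInv fun t ht =>
    ⟨γ (0 - t), by rw [hγ _ _ ht]; congr 1; ring⟩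
  have htop : v ∈ E (γ 0) ⊔ F (γ 0) := by
    rw [(H.split.compl _ hq).sup_eq_top]; exact Submodule.mem_top
  obtain ⟨e, he, f, hf, hef⟩ := Submodule.mem_sup.1 htop
  refine ⟨e, ?_, f, TV_unst H hO hγ hγU hf, hef⟩
  obtain ⟨C, hC, l, hl, hcon⟩ := H.contr
  refine ⟨C * nrm g _ e, fun t ht => (hcon _ hq t ht e he).trans ?_⟩
  refine mul_le_mul_of_nonneg_right ?_ (nrm_nonneg g _ _)
  refine mul_le_of_le_one_right hC.le ?_
  rw [Real.exp_le_one_iff]
  nlinarith

end VeniceMask
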