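import Pool.Agent.helper75.VM.M_SP2
import Pool.Agent.helper75.VM.M_CH1
import Pool.Agent.helper75.VM.M_CH3

/-!
# MP_509a24_an, module UC1: normalised frames
-/

set_option linter.all false

open Set Filter Topology Bundle
open scoped ContDiff Manifold

namespace VeniceMask

universe u

/-- linear algebra: a normalised frame adapted to two transverse subspaces -/
theorem UC1_frame (E' F' : Submodule ℝ E3) (hE : Module.finrank ℝ E' = 1)
    (hF : Module.finrank ℝ F' = 2) (A : ℝ) (hA : 0 ≤ A)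
    (hang : ∀ e ∈ E', ∀ f ∈ F', ‖e‖ ≤ A * ‖e + f‖ ∧ ‖f‖ ≤ A * ‖e + f‖) :
    ∃ N : V3 ≃L[ℝ] E3, (∀ y, ‖N y‖ ≤ 3 * ‖y‖) ∧ (∀ y, ‖y‖ ≤ A * ‖N y‖) ∧
      (∀ s : ℝ, N (s, 0) ∈ E') ∧ (∀ q : Q2, N (0, q) ∈ F') := by
  obtain ⟨e, he, hne⟩ : ∃ e ∈ E', ‖e‖ = 1 := by
    haveI : Nontrivial E' := Module.nontrivial_of_finrank_pos (R := ℝ) (by rw [hE]; norm_num)
    obtain ⟨v, hv⟩ := exists_ne (0 : E')
    have hv' : (v : E3) ≠ 0 := fun h => hv (Subtype.ext h)
    refine ⟨(‖(v : E3)‖)⁻¹ • (v : E3), E'.smul_mem _ v.2, ?_⟩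
    rw [norm_smul, norm_inv, norm_norm, inv_mul_cancel₀ (norm_ne_zero_iff.mpr hv')]
  let b := (stdOrthonormalBasis ℝ F').reindex (finCongr hF)
  set f1 : E3 := (b 0 : E3) with hf1
  set f2 : E3 := (b 1 : E3) with hf2
  have hf1F : f1 ∈ F' := (b 0).2
  have hf2F : f2 ∈ F' := (b 1).2
  have hn1 : ‖f1‖ = 1 := b.orthonormal.1 0
  have hn2 : ‖f2‖ = 1 := b.orthonormal.1 1
  have hin : inner ℝ f1 f2 = 0 := b.orthonormal.2 (by decide : (0 : Fin 2) ≠ 1)
  have hsq : ∀ x y : ℝ, ‖x • f1 + y • f2‖ ^ 2 = x ^ 2 + y ^ 2 := by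
    intro x y
    rw [norm_add_sq_real, norm_smul, norm_smul, hn1, hn2, inner_smul_left, inner_smul_right, hin]
    simp
  let Nl : V3 →ₗ[ℝ] E3 :=
    { toFun := fun y => y.1 • e + (y.2.1 • f1 + y.2.2 • f2)
      map_add' := by
        intro x y
        simp only [Prod.fst_add, Prod.snd_add, add_smul]
        abel
      map_smul' := by
        intro c x
        simp only [Prod.smul_fst, Prod.smul_snd, smul_eq_mul, mul_smul, smul_add,
          RingHom.id_apply] }
  have hNl : ∀ y : V3, Nl y = y.1 • e + (y.2.1 • f1 + y.2.2 • f2) := fun _ => rfl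
  have hge : ∀ y : V3, ‖y‖ ≤ A * ‖Nl y‖ := by
    intro y
    have h1 : y.1 • e ∈ E' := E'.smul_mem _ he
    have h2 : y.2.1 • f1 + y.2.2 • f2 ∈ F' :=
      F'.add_mem (F'.smul_mem _ hf1F) (F'.smul_mem _ hf2F)
    obtain ⟨h3, h4⟩ := hang _ h1 _ h2
    rw [← hNl] at h3 h4
    rw [norm_smul, hne, mul_one] at h3
    have h5 := hsq y.2.1 y.2.2
    have hw := norm_nonneg (y.2.1 • f1 + y.2.2 • f2)
    rw [Prod.norm_def, Prod.norm_def]
    refine max_le h3 (max_le ?_ ?_)
    · refine le_trans ?_ h4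
      rw [Real.norm_eq_abs]
      refine abs_le_of_sq_le_sq ?_ hw
      nlinarith [sq_nonneg y.2.2]
    · refine le_trans ?_ h4
      rw [Real.norm_eq_abs]
      refine abs_le_of_sq_le_sq ?_ hw
      nlinarith [sq_nonneg y.2.1]
  have hinj : Function.Injective Nl := by
    rw [injective_iff_map_eq_zero]
    intro y hy
    have := hge y
    rw [hy, norm_zero, mul_zero] at this
    exact norm_le_zero_iff.mp this
  have hdim : Module.finrank ℝ V3 = Module.finrank ℝ E3 := by
    simp [V3, E3]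
  let Ne : V3 ≃ₗ[ℝ] E3 := LinearMap.linearEquivOfInjective Nl hinj hdim
  have hNe : ∀ y, Ne y = Nl y := fun y => rfl
  refine ⟨Ne.toContinuousLinearEquiv, ?_, ?_, ?_, ?_⟩
  · intro y
    show ‖Ne y‖ ≤ _
    rw [hNe, hNl]
    have h1 : ‖y.1‖ ≤ ‖y‖ := norm_fst_le y
    have h2 : ‖y.2‖ ≤ ‖y‖ := norm_snd_le y
    have h3 : ‖y.2.1‖ ≤ ‖y.2‖ := norm_fst_le y.2
    have h4 : ‖y.2.2‖ ≤ ‖y.2‖ := norm_snd_le y.2
    calc ‖y.1 • e + (y.2.1 • f1 + y.2.2 • f2)‖ ≤ ‖y.1 • e‖ + ‖y.2.1 • f1 + y.2.2 • f2‖ :=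
          norm_add_le _ _
      _ ≤ ‖y.1 • e‖ + (‖y.2.1 • f1‖ + ‖y.2.2 • f2‖) := by
          gcongr
          exact norm_add_le _ _
      _ = ‖y.1‖ + (‖y.2.1‖ + ‖y.2.2‖) := by
          rw [norm_smul, norm_smul, norm_smul, hne, hn1, hn2, mul_one, mul_one, mul_one]
      _ ≤ 3 * ‖y‖ := by linarith
  · intro y
    exact hge y
  · intro s
    show Ne (s, 0) ∈ E'
    rw [hNe, hNl]
    simpa using E'.smul_mem s he
  · intro q
    show Ne (0, q) ∈ F'
    rw [hNe, hNl]
    simpa using F'.add_mem (F'.smul_mem q.1 hf1F) (F'.smul_mem q.2 hf2F)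

variable {M : Type u} [TopologicalSpace M] [ChartedSpace (EuclideanHalfSpace 3) M]
  [IsManifold (𝓡∂ 3) ∞ M] [CompactSpace M] [T2Space M]
  {g : Metric3 M} {X : ∀ x : M, TS x} {φ : ℝ → M → M} {E F : ∀ x : M, Submodule ℝ (TS x)}
  (H : Hyp g X φ E F)

omit [CompactSpace M] [T2Space M] in
theorem UC1_nrm_congr (g : Metric3 M) {x y : M} (h : x = y) (v : E3) :
    nrm g x (show TS x from v) = nrm g y (show TS y from v) := by
  subst h
  rfl

include H

/-- UC1 -/
theorem exists_frames : Nonempty (Frames φ E F) := by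
  classical
  obtain ⟨A, hA, hang⟩ := angle H
  have hint : ∀ x ∈ Ld φ E 1, x ∈ (𝓡∂ 3).interior M := fun x hx =>
    maxInv_interior H.inward H.flow hx.1
  let N0 : V3 ≃L[ℝ] E3 := ContinuousLinearEquiv.ofFinrankEq (by simp [V3, E3])
  by_cases hne : (Ld φ E 1).Nonempty
  · choose c hc1 hct using fun (x : M) (hx : x ∈ Ld φ E 1) => exists_param (hint x hx)
    have hK : ∀ (x : M) (hx : x ∈ Ld φ E 1), ∃ K : Set M, IsCompact K ∧ x ∈ interior K ∧
        K ⊆ (c x hx).target := fun x hx =>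
      exists_compact_subset (c x hx).open_target (hct x hx)
    choose K hKc hKi hKs using hK
    obtain ⟨t, ht⟩ := (Ld_compact H 1).elim_nhds_subcover' (fun x hx => K x hx)
      (fun x hx => mem_interior_iff_mem_nhds.mp (hKi x hx))
    have hidx : ∀ x ∈ Ld φ E 1, ∃ j : t, x ∈ K j.1.1 j.1.2 := by
      intro x hx
      have := ht hx
      simp only [mem_iUnion] at this
      obtain ⟨j, hj, hxj⟩ := this
      exact ⟨⟨j, hj⟩, hxj⟩
    obtain ⟨x0, hx0⟩ := hne
    obtain ⟨j0, hj0⟩ := hidx x0 hx0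
    have hidx' : ∀ x : M, ∃ j : t, x ∈ Ld φ E 1 → x ∈ K j.1.1 j.1.2 := by
      intro x
      by_cases hx : x ∈ Ld φ E 1
      · obtain ⟨j, hj⟩ := hidx x hx
        exact ⟨j, fun _ => hj⟩
      · exact ⟨j0, fun h => absurd h hx⟩
    choose i hi using hidx'
    -- comparison of norms
    have hcomp : ∀ j : t, ∃ C > 0, ∀ x ∈ K j.1.1 j.1.2, ∀ ξ : E3,
        ‖ξ‖ ≤ C * nrm g x (show TS x from (show E3 from DP (c j.1.1 j.1.2)
          ((c j.1.1 j.1.2).symm x) ξ)) ∧
        nrm g x (show TS x from (show E3 from DP (c j.1.1 j.1.2)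
          ((c j.1.1 j.1.2).symm x) ξ)) ≤ C * ‖ξ‖ := by
      intro j
      have hcont : ContinuousOn (c j.1.1 j.1.2).symm (K j.1.1 j.1.2) :=
        (c j.1.1 j.1.2).continuousOn_symm.mono (hKs _ _)
      have hcK : IsCompact ((c j.1.1 j.1.2).symm '' (K j.1.1 j.1.2)) :=
        (hKc _ _).image_of_continuousOn hcont
      have hsub : (c j.1.1 j.1.2).symm '' (K j.1.1 j.1.2) ⊆ (c j.1.1 j.1.2).source := by
        rintro _ ⟨x, hx, rfl⟩
        exact (c j.1.1 j.1.2).map_target (hKs _ _ hx)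
      obtain ⟨C, hC, hcmp⟩ := (hc1 j.1.1 j.1.2).norm_compare g hcK hsub
      refine ⟨C, hC, fun x hx ξ => ?_⟩
      have h1 := hcmp _ (mem_image_of_mem _ hx) ξ
      have hxx : (c j.1.1 j.1.2) ((c j.1.1 j.1.2).symm x) = x :=
        (c j.1.1 j.1.2).right_inv (hKs _ _ hx)
      have h2 := UC1_nrm_congr g hxx (show E3 from DP (c j.1.1 j.1.2)
          ((c j.1.1 j.1.2).symm x) ξ)
      constructor
      · refine h1.1.trans (le_of_eq ?_)
        rw [← h2]
      · refine le_trans (le_of_eq ?_) h1.2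
        rw [← h2]
    choose C hC hcmp using hcomp
    obtain ⟨C1, hC1⟩ : ∃ C1 : ℝ, ∀ j : t, C j ≤ C1 := by
      refine ⟨∑ j : t, C j, fun j => ?_⟩
      exact Finset.single_le_sum (f := C) (fun k _ => (hC k).le) (Finset.mem_univ j)
    have hC1pos : 0 < C1 := (hC j0).trans_le (hC1 j0)
    -- the frame at x
    have hfr : ∀ x : M, ∃ N : V3 ≃L[ℝ] E3, x ∈ Ld φ E 1 →
        ((∀ y, ‖N y‖ ≤ 3 * ‖y‖) ∧ (∀ y, ‖y‖ ≤ (C1 * A * C1) * ‖N y‖) ∧
        (∀ s : ℝ, (show E3 from DP (c (i x).1.1 (i x).1.2)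
          ((c (i x).1.1 (i x).1.2).symm x) (N (s, 0))) ∈ (show Submodule ℝ E3 from E x)) ∧
        (∀ q : Q2, (show E3 from DP (c (i x).1.1 (i x).1.2)
          ((c (i x).1.1 (i x).1.2).symm x) (N (0, q))) ∈ (show Submodule ℝ E3 from F x))) := by
      intro x
      by_cases hx : x ∈ Ld φ E 1
      swap
      · exact ⟨N0, fun h => absurd h hx⟩
      set e := c (i x).1.1 (i x).1.2 with he
      have hxK := hi x hx
      have hxt : x ∈ e.target := hKs _ _ hxK
      have hbij : Function.Bijective (DP e (e.symm x)) :=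
        (hc1 (i x).1.1 (i x).1.2).bij (e.map_target hxt)
      let L : E3 →ₗ[ℝ] E3 := (show E3 →L[ℝ] E3 from DP e (e.symm x)).toLinearMap
      have hL : ∀ ξ : E3, L ξ = (show E3 from DP e (e.symm x) ξ) := fun _ => rfl
      have hLbij : Function.Bijective L := hbij
      let Le : E3 ≃ₗ[ℝ] E3 := LinearEquiv.ofBijective L hLbij
      let E1 : Submodule ℝ E3 := (show Submodule ℝ E3 from E x)
      let F1 : Submodule ℝ E3 := (show Submodule ℝ E3 from F x)
      have hdE : Module.finrank ℝ E1 = 1 := hx.2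
      have hdF : Module.finrank ℝ F1 = 2 := by
        have h1 := finrank_F H hx.1
        have h2 : Module.finrank ℝ (E x) = 1 := hx.2
        have h3 : Module.finrank ℝ F1 = Module.finrank ℝ (F x) := rfl
        rw [h3]
        omega
      have hcm : ∀ S : Submodule ℝ E3, Module.finrank ℝ (S.comap L) = Module.finrank ℝ S := by
        intro S
        have h1 : S.comap L = S.map (Le.symm : E3 →ₗ[ℝ] E3) :=
          Submodule.comap_equiv_eq_map_symm Le S
        rw [h1]
        exact LinearEquiv.finrank_map_eq Le.symm S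
      have hcmpx : ∀ ξ : E3, ‖ξ‖ ≤ C1 * nrm g x (show TS x from L ξ) ∧
          nrm g x (show TS x from L ξ) ≤ C1 * ‖ξ‖ := by
        intro ξ
        obtain ⟨h1, h2⟩ := hcmp (i x) x hxK ξ
        constructor
        · exact h1.trans (mul_le_mul_of_nonneg_right (hC1 _) (nrm_nonneg g x _))
        · exact h2.trans (mul_le_mul_of_nonneg_right (hC1 _) (norm_nonneg _))
      obtain ⟨N, hN1, hN2, hN3, hN4⟩ := UC1_frame (E1.comap L) (F1.comap L)
        (by rw [hcm, hdE]) (by rw [hcm, hdF]) (C1 * A * C1) (by positivity) (by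
          intro u hu w hw
          have hu' : (show TS x from L u) ∈ E x := hu
          have hw' : (show TS x from L w) ∈ F x := hw
          obtain ⟨h1, h2⟩ := hang x hx.1 _ hu' _ hw'
          have h3 : (show TS x from L u) + (show TS x from L w) = (show TS x from L (u + w)) :=
            (L.map_add u w).symm
          rw [h3] at h1 h2
          have h4 := (hcmpx (u + w)).2
          have h5 : A * nrm g x (show TS x from L (u + w)) ≤ A * (C1 * ‖u + w‖) :=
            mul_le_mul_of_nonneg_left h4 hA.le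
          constructor
          · calc ‖u‖ ≤ C1 * nrm g x (show TS x from L u) := (hcmpx u).1
              _ ≤ C1 * (A * (C1 * ‖u + w‖)) :=
                mul_le_mul_of_nonneg_left (h1.trans h5) hC1pos.le
              _ = _ := by ring
          · calc ‖w‖ ≤ C1 * nrm g x (show TS x from L w) := (hcmpx w).1
              _ ≤ C1 * (A * (C1 * ‖u + w‖)) :=
                mul_le_mul_of_nonneg_left (h2.trans h5) hC1pos.le
              _ = _ := by ring)
      exact ⟨N, fun _ => ⟨hN1, hN2, hN3, hN4⟩⟩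
    choose N hN using hfr
    have hpos : 0 < max 3 (C1 * A * C1) := lt_max_of_lt_left (by norm_num)
    exact ⟨{
      ι := t
      fin := inferInstance
      c := fun j => c j.1.1 j.1.2
      K := fun j => K j.1.1 j.1.2
      i := i
      N := N
      C := max 3 (C1 * A * C1)
      C_pos := hpos
      c1 := fun j => hc1 _ _
      K_compact := fun j => hKc _ _
      K_sub := fun j => hKs _ _
      mem := fun x hx => hi x hx
      N_le := fun x hx y => ((hN x hx).1 y).trans
        (mul_le_mul_of_nonneg_right (le_max_left _ _) (norm_nonneg _))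
      N_ge := fun x hx y => ((hN x hx).2.1 y).trans
        (mul_le_mul_of_nonneg_right (le_max_right _ _) (norm_nonneg _))
      N_E := fun x hx s => (hN x hx).2.2.1 s
      N_F := fun x hx q => (hN x hx).2.2.2 q }⟩
  · have hemp : ∀ x, x ∉ Ld φ E 1 := fun x hx => hne ⟨x, hx⟩
    rcases isEmpty_or_nonempty M with hM | hM
    · exact ⟨{
        ι := PEmpty
        fin := inferInstance
        c := fun j => j.elim
        K := fun j => j.elim
        i := fun x => hM.elim x
        N := fun _ => N0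
        C := 1
        C_pos := one_pos
        c1 := fun j => j.elim
        K_compact := fun j => j.elim
        K_sub := fun j => j.elim
        mem := fun x hx => absurd hx (hemp x)
        N_le := fun x hx => absurd hx (hemp x)
        N_ge := fun x hx => absurd hx (hemp x)
        N_E := fun x hx => absurd hx (hemp x)
        N_F := fun x hx => absurd hx (hemp x) }⟩
    · obtain ⟨x1⟩ := hM
      obtain ⟨c, hc, -⟩ := exists_param (flow_interior H.inward H.flow one_pos x1)
      exact ⟨{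
        ι := PUnit
        fin := inferInstance
        c := fun _ => c
        K := fun _ => ∅
        i := fun _ => PUnit.unit
        N := fun _ => N0
        C := 1
        C_pos := one_pos
        c1 := fun _ => hc
        K_compact := fun _ => isCompact_empty
        K_sub := fun _ => empty_subset _
        mem := fun x hx => absurd hx (hemp x)
        N_le := fun x hx => absurd hx (hemp x)
        N_ge := fun x hx => absurd hx (hemp x)
        N_E := fun x hx => absurd hx (hemp x)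
        N_F := fun x hx => absurd hx (hemp x) }⟩

end VeniceMask
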