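import Pool.Agent.helper75.VM.M_CL
import Pool.Agent.helper75.VM.M_LU1
import Pool.Agent.helper75.VM.M_RE2

/-!
# MP_509a24_an, module UE1: uniform extension to the right
-/

open Set Filter Topology Bundle
open scoped ContDiff Manifold

namespace VeniceMask

universe u

variable {M : Type u} [TopologicalSpace M]

/-- an unstable curve starting at `q` over `[q.1, c]` inside `Wu O` -/
def UE1_P (S : System M) (B : Box S.toAFlow) (O : Set M) (q : Q2) (g : ℝ → ℝ) (c : ℝ) : Prop :=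
  IsUCurve B g q.1 c ∧ g q.1 = q.2 ∧ ∀ h ∈ Icc q.1 c, B.pt (h, g h) ∈ S.Wu O

theorem UE1_norm {S : System M} {B : Box S.toAFlow} {O : Set M} {q : Q2} (hq : ‖q‖ ≤ 1 / 4)
    {g : ℝ → ℝ} {c : ℝ} (h : UE1_P S B O q g c) {x : ℝ} (hx : x ∈ Icc q.1 c)
    (hx2 : x ≤ q.1 + 1 / 2) : ‖((x, g x) : Q2)‖ < 1 := by
  have h1 : |q.1| ≤ 1 / 4 := (norm_fst_le q).trans hq
  have h2 : |q.2| ≤ 1 / 4 := (norm_snd_le q).trans hq
  have h3 := h.1.lip hx (left_mem_Icc.2 h.1.le)
  rw [h.2.1] at h3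
  have h4 : |x - q.1| ≤ 1 / 2 := by
    rw [abs_le]
    constructor <;> linarith [hx.1]
  have h1' := abs_le.1 h1
  have h2' := abs_le.1 h2
  have h3' := abs_le.1 h3
  have h5 : |x| < 1 := by
    rw [abs_lt]
    constructor <;> linarith [hx.1, h1'.1, h1'.2]
  have h6 : |g x| < 1 := by
    rw [abs_lt]
    constructor <;> linarith [h2'.1, h2'.2, h3'.1, h3'.2]
  rw [Prod.norm_def]
  exact max_lt h5 h6

theorem UE1_unique [T2Space M] {S : System M} {B : Box S.toAFlow} (hB : Linked S B)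
    {O : Set M} {p : M} {T : ℝ} (hO : S.IsPer O p T) {q : Q2} (hq : ‖q‖ ≤ 1 / 4)
    {g₁ g₂ : ℝ → ℝ} {c₁ c₂ : ℝ} (h1 : UE1_P S B O q g₁ c₁) (h2 : UE1_P S B O q g₂ c₂)
    (hc : c₁ ≤ c₂) (hc1 : c₁ ≤ q.1 + 1 / 2) : ∀ x ∈ Icc q.1 c₁, g₁ x = g₂ x := by
  have hsub : Icc q.1 c₁ ⊆ Icc q.1 c₂ := Icc_subset_Icc le_rfl hc
  have hcont1 : ContinuousOn g₁ (Icc q.1 c₁) := fun s hs => (h1.1.der s hs).continuousWithinAt
  have hcont2 : ContinuousOn g₂ (Icc q.1 c₁) := fun s hs =>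
    ((h2.1.der s (hsub hs)).continuousWithinAt).mono hsub
  have hclosed : IsClosed ({x | g₁ x = g₂ x} ∩ Icc q.1 c₁) := by
    have h3 : ContinuousOn (fun x => g₁ x - g₂ x) (Icc q.1 c₁) := hcont1.sub hcont2
    have h4 := h3.preimage_isClosed_of_isClosed isClosed_Icc (isClosed_singleton (x := (0 : ℝ)))
    have h5 : ({x | g₁ x = g₂ x} ∩ Icc q.1 c₁)
        = Icc q.1 c₁ ∩ (fun x => g₁ x - g₂ x) ⁻¹' {0} := by
      ext x
      simp only [mem_inter_iff, mem_ofPred_eq, mem_preimage, mem_singleton_iff, sub_eq_zero]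
      tauto
    rw [h5]
    exact h4
  have key : Icc q.1 c₁ ⊆ {x | g₁ x = g₂ x} := by
    refine hclosed.Icc_subset_of_forall_exists_gt ?_ ?_
    · show g₁ q.1 = g₂ q.1
      rw [h1.2.1, h2.2.1]
    · rintro x ⟨hx, hxI⟩ y hy
      have hxm : x ∈ Icc q.1 c₁ := ⟨hxI.1, hxI.2.le⟩
      obtain ⟨ε, hε, hu⟩ := ucurve_unique S hB hO h1.1 h2.1 hxm (hsub hxm) hx
        (UE1_norm hq h1 hxm (hxm.2.trans hc1)) (h1.2.2 x hxm)
      have hy' : x < y := hy
      refine ⟨min (min (x + ε) y) c₁, ?_, ?_, ?_⟩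
      · have hlt : x < min (min (x + ε) y) c₁ := lt_min (lt_min (by linarith) hy') hxI.2
        have hle1 : min (min (x + ε) y) c₁ ≤ c₁ := min_le_right _ _
        have hle2 : min (min (x + ε) y) c₁ ≤ x + ε := (min_le_left _ _).trans (min_le_left _ _)
        have hm : min (min (x + ε) y) c₁ ∈ Icc q.1 c₁ := ⟨hxI.1.trans hlt.le, hle1⟩
        refine hu _ hm (hsub hm) ?_
        rw [abs_le]
        constructor <;> linarith
      · exact lt_min (lt_min (by linarith) hy') hxI.2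
      · exact (min_le_left _ _).trans (min_le_right _ _)
  exact key

theorem UE1_P.restrict {S : System M} {B : Box S.toAFlow} {O : Set M} {q : Q2}
    {g : ℝ → ℝ} {c c' : ℝ} (h : UE1_P S B O q g c) (h1 : q.1 ≤ c') (h2 : c' ≤ c) :
    UE1_P S B O q g c' :=
  ⟨h.1.restrict le_rfl h1 h2, h.2.1, fun x hx => h.2.2 x ⟨hx.1, hx.2.trans h2⟩⟩

theorem extend_right [T2Space M] (S : System M) {B : Box S.toAFlow} (hB : Linked S B)
    {O : Set M} {p : M} {T : ℝ} (hO : S.IsPer O p T)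
    (hK : ∀ q : Q2, ‖q‖ ≤ 1 → B.pt q ∉ S.WuSing) {q : Q2} (hq : ‖q‖ ≤ 1 / 4)
    (hy : B.pt q ∈ S.Wu O) :
    ∃ g : ℝ → ℝ, IsUCurve B g q.1 (q.1 + 1 / 2) ∧ g q.1 = q.2 ∧
      ∀ h ∈ Icc q.1 (q.1 + 1 / 2), B.pt (h, g h) ∈ S.Wu O := by
  classical
  set A : Set ℝ := {c | c ∈ Icc q.1 (q.1 + 1 / 2) ∧ ∃ g, UE1_P S B O q g c} with hA
  have hA0 : q.1 ∈ A := by
    refine ⟨⟨le_rfl, by linarith⟩, fun _ => q.2, ⟨le_rfl, ?_, ?_, ?_⟩, rfl, ?_⟩
    · intro h hh
      have : h = q.1 := le_antisymm hh.2 hh.1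
      subst this
      exact hq.trans (by norm_num)
    · intro h hh
      have : h = q.1 := le_antisymm hh.2 hh.1
      subst this
      exact hy.1
    · intro h hh
      have : h = q.1 := le_antisymm hh.2 hh.1
      subst this
      have hsub : (Icc q.1 q.1).Subsingleton := by
        rw [Icc_self]
        exact subsingleton_singleton
      exact HasFDerivWithinAt.of_subsingleton hsub
    · intro h hh
      have : h = q.1 := le_antisymm hh.2 hh.1
      subst this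
      exact hy
  have hAbdd : BddAbove A := ⟨q.1 + 1 / 2, fun c hc => hc.1.2⟩
  set cs := sSup A with hcs
  have hcs1 : q.1 ≤ cs := le_csSup hAbdd hA0
  have hcs2 : cs ≤ q.1 + 1 / 2 := csSup_le ⟨_, hA0⟩ (fun c hc => hc.1.2)
  -- the supremum is attained
  have hcsA : cs ∈ A := by
    rcases hcs1.eq_or_lt with heq | hlt
    · rw [← heq]
      exact hA0
    · have hex : ∀ x : ℝ, ∃ g : ℝ → ℝ, x < cs → q.1 ≤ x → ∃ c, x < c ∧ c ≤ q.1 + 1 / 2 ∧
          UE1_P S B O q g c := by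
        intro x
        by_cases hx : x < cs
        · obtain ⟨c, hc, hxc⟩ := exists_lt_of_lt_csSup ⟨_, hA0⟩ hx
          obtain ⟨g, hg⟩ := hc.2
          exact ⟨g, fun _ _ => ⟨c, hxc, hc.1.2, hg⟩⟩
        · exact ⟨fun _ => 0, fun h => absurd h hx⟩
      choose G hG using hex
      -- the glued function
      have hglue : ∀ x ∈ Ico q.1 cs, ∀ y ∈ Icc q.1 x, G y y = G x y := by
        intro x hx y hy
        obtain ⟨c, hxc, hc2, hPc⟩ := hG x hx.2 hx.1
        obtain ⟨c', hyc', hc2', hPc'⟩ := hG y (hy.2.trans_lt hx.2) hy.1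
        have h1 := hPc.restrict hy.1 (hy.2.trans hxc.le)
        have h2 := hPc'.restrict hy.1 hyc'.le
        exact UE1_unique hB hO hq h2 h1 le_rfl (hy.2.trans (hxc.le.trans hc2)) y ⟨hy.1, le_rfl⟩
      have hcurve : ∀ c ∈ Ico q.1 cs, IsUCurve B (fun y => G y y) q.1 c := by
        intro c hc
        obtain ⟨c', hcc', hc2, hPc⟩ := hG c hc.2 hc.1
        exact (hPc.restrict hc.1 hcc'.le).1.congr (fun y hy => hglue c hc y hy)
      obtain ⟨g', hg'1, hg'2⟩ := IsUCurve.of_Ico hlt hcurve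
      have hWu : ∀ x ∈ Ico q.1 cs, B.pt (x, g' x) ∈ S.Wu O := by
        intro x hx
        rw [hg'1 x hx]
        obtain ⟨c', hcc', hc2, hPc⟩ := hG x hx.2 hx.1
        exact hPc.2.2 x ⟨hx.1, hcc'.le⟩
      have hend : B.pt (cs, g' cs) ∈ S.Wu O := by
        rcases cut_lemma S hB hO hlt hg'2 hWu with h | h
        · exact h
        · exact absurd h (hK _ (hg'2.norm_le cs ⟨hcs1, le_rfl⟩))
      refine ⟨⟨hcs1, hcs2⟩, g', hg'2, ?_, ?_⟩
      · rw [hg'1 q.1 ⟨le_rfl, hlt⟩]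
        obtain ⟨c', hcc', hc2, hPc⟩ := hG q.1 hlt le_rfl
        exact hPc.2.1
      · intro x hx
        rcases hx.2.eq_or_lt with h | h
        · rw [h]
          exact hend
        · exact hWu x ⟨hx.1, h⟩
  -- the supremum is the right end
  have hend : cs = q.1 + 1 / 2 := by
    by_contra hne
    have hlt : cs < q.1 + 1 / 2 := lt_of_le_of_ne hcs2 hne
    obtain ⟨g, hg⟩ := hcsA.2
    have hcm : cs ∈ Icc q.1 cs := ⟨hcs1, le_rfl⟩
    have hn := UE1_norm hq hg hcm hcs2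
    have hw := hg.2.2 cs hcm
    obtain ⟨ε, hε, k, hk1, hk2⟩ := exists_ucurve S hB hO hn hw
    have hk1' : IsUCurve B k (cs - ε) (cs + ε) := hk1
    have hk2' : k cs = g cs := hk2
    have hk3 : IsUCurve B k cs (cs + ε) := hk1'.restrict (by linarith) (by linarith) le_rfl
    obtain ⟨ε', hε', hconv⟩ := ucurve_conv S hB hO hk3 (left_mem_Icc.2 hk3.le)
      (by rw [hk2']; exact hw)
    set c' : ℝ := min (cs + min ε ε') (q.1 + 1 / 2) with hc'
    have hm0 : 0 < min ε ε' := lt_min hε hε'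
    have hcc' : cs < c' := lt_min (by linarith) hlt
    have hc'1 : c' ≤ cs + ε := (min_le_left _ _).trans (by linarith [min_le_left ε ε'])
    have hc'2 : c' ≤ cs + ε' := (min_le_left _ _).trans (by linarith [min_le_right ε ε'])
    have hc'3 : c' ≤ q.1 + 1 / 2 := min_le_right _ _
    have hk4 : IsUCurve B k cs c' := hk3.restrict le_rfl hcc'.le hc'1
    have hgl := hg.1.glue hk4 hk2'.symm
    have hc'A : c' ∈ A := by
      refine ⟨⟨hcs1.trans hcc'.le, hc'3⟩, _, hgl, ?_, ?_⟩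
      · show (if q.1 ≤ cs then g q.1 else k q.1) = q.2
        rw [if_pos hcs1]
        exact hg.2.1
      · intro x hx
        show B.pt (x, if x ≤ cs then g x else k x) ∈ S.Wu O
        by_cases hxc : x ≤ cs
        · rw [if_pos hxc]
          exact hg.2.2 x ⟨hx.1, hxc⟩
        · rw [if_neg hxc]
          push Not at hxc
          have hxm : x ∈ Icc cs (cs + ε) := ⟨hxc.le, hx.2.trans hc'1⟩
          refine ⟨hk3.mem x hxm, fun U hU hOU => ?_⟩
          obtain ⟨t₀, ht₀⟩ := hconv U hU hOU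
          filter_upwards [eventually_ge_atTop t₀] with t ht
          refine ht₀ t ht x hxm ?_
          rw [abs_le]
          constructor <;> linarith [hx.2]
    have := le_csSup hAbdd hc'A
    linarith
  obtain ⟨g, hg⟩ := hcsA.2
  rw [hend] at hg
  exact ⟨g, hg.1, hg.2.1, hg.2.2⟩

end VeniceMask
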