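import Pool.Agent.helper75.VM.M_UE1
import Pool.Agent.helper75.VM.M_RF

/-!
# MP_509a24_an, module UE2: uniform extension to both sides
-/

open Set Filter Topology Bundle
open scoped ContDiff Manifold

namespace VeniceMask

universe u

variable {M : Type u} [TopologicalSpace M]

private theorem norm_refl2 (q : Q2) : ‖((-q.1, q.2) : Q2)‖ = ‖q‖ := by
  simp [Prod.norm_def]

theorem extend_both [T2Space M] (S : System M) {B : Box S.toAFlow} (hB : Linked S B)
    {O : Set M} {p : M} {T : ℝ} (hO : S.IsPer O p T)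
    (hK : ∀ q : Q2, ‖q‖ ≤ 1 → B.pt q ∉ S.WuSing) {q : Q2} (hq : ‖q‖ ≤ 1 / 4)
    (hy : B.pt q ∈ S.Wu O) :
    ∃ g : ℝ → ℝ, IsUCurve B g (q.1 - 1 / 2) (q.1 + 1 / 2) ∧ g q.1 = q.2 ∧
      ∀ h ∈ Icc (q.1 - 1 / 2) (q.1 + 1 / 2), B.pt (h, g h) ∈ S.Wu O := by
  obtain ⟨g₂, hg₂, hg₂q, hg₂W⟩ := extend_right S hB hO hK hq hy
  obtain ⟨B', hB', -, hpt, hcurve⟩ := Box.exists_refl S B hB
  obtain ⟨g₁, hg₁, hg₁q, hg₁W⟩ := extend_right S hB' hO (q := ((-q.1, q.2) : Q2))
    (fun r hr => by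
      rw [hpt]
      exact hK _ (by rwa [norm_refl2]))
    (by rwa [norm_refl2])
    (by
      rw [hpt]
      simpa using hy)
  simp only at hg₁ hg₁q hg₁W
  have hc := (hcurve _ _ _).1 hg₁
  have e1 : -(-q.1 + 1 / 2) = q.1 - 1 / 2 := by ring
  rw [e1, neg_neg] at hc
  have hglue := hc.glue hg₂ (by rw [hg₁q, hg₂q])
  refine ⟨_, hglue, ?_, ?_⟩
  · simp only [le_refl, if_true]
    exact hg₁q
  · intro h hh
    by_cases hle : h ≤ q.1
    · simp only [hle, if_true]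
      have := hg₁W (-h) ⟨by linarith, by linarith [hh.1]⟩
      rw [hpt] at this
      simpa using this
    · simp only [hle, if_false]
      exact hg₂W h ⟨by linarith [not_le.1 hle], hh.2⟩

end VeniceMask
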